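import Pool.Agent.H65.BM.Q

/-! # Project BM: AUER, a weak Auerbach lemma -/

set_option autoImplicit false

namespace Pool.Agent.H65.BM

theorem auer_aux (E : Type) [NormedAddCommGroup E] [NormedSpace ℝ E] (n : ℕ) :
    ∀ (V : Submodule ℝ E) [FiniteDimensional ℝ V], Module.finrank ℝ V ≤ n →
    ∃ (f : Fin n → StrongDual ℝ E) (e : Fin n → E), (∀ i, ‖f i‖ ≤ 2 ^ n) ∧ (∀ i, ‖e i‖ ≤ 1) ∧
      ∀ y ∈ V, ∑ i, f i y • e i = y := by
  induction n with
  | zero =>
    intro V _ hV
    refine ⟨0, 0, by simp, by simp, fun y hy => ?_⟩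
    have h0 : Module.finrank ℝ V = 0 := by omega
    have hV0 : V = ⊥ := Submodule.finrank_eq_zero.1 h0
    rw [hV0, Submodule.mem_bot] at hy
    simp [hy]
  | succ n ih =>
    intro V _ hV
    by_cases hV0 : ∀ v ∈ V, v = 0
    · refine ⟨0, 0, by simp, by simp, fun y hy => ?_⟩
      rw [hV0 y hy]; simp
    push Not at hV0
    obtain ⟨v, hvV, hv⟩ := hV0
    have hvn : 0 < ‖v‖ := norm_pos_iff.2 hv
    obtain ⟨e₀, he₀⟩ : ∃ e₀, e₀ = ‖v‖⁻¹ • v := ⟨_, rfl⟩
    have he₀n : ‖e₀‖ = 1 := by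
      rw [he₀, norm_smul, norm_inv, norm_norm, inv_mul_cancel₀ hvn.ne']
    have he₀V : e₀ ∈ V := by rw [he₀]; exact V.smul_mem _ hvV
    obtain ⟨f₀, hf₀n, hf₀⟩ := exists_dual_vector'' ℝ e₀
    rw [he₀n] at hf₀
    simp only [RCLike.ofReal_real_eq_id, id] at hf₀
    obtain ⟨V', hV'⟩ : ∃ V' : Submodule ℝ E, V' = V ⊓ f₀.ker := ⟨_, rfl⟩
    have hle : V' ≤ V := by rw [hV']; exact inf_le_left
    have hlt : V' < V := by
      refine lt_of_le_of_ne hle fun h => ?_
      rw [← h, hV', Submodule.mem_inf] at he₀V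
      have := he₀V.2
      rw [LinearMap.mem_ker] at this
      change f₀ e₀ = 0 at this
      rw [hf₀] at this
      exact one_ne_zero this
    have : FiniteDimensional ℝ V' := Submodule.finiteDimensional_of_le hle
    have hfr : Module.finrank ℝ V' ≤ n := by
      have := Submodule.finrank_lt_finrank_of_lt hlt
      omega
    obtain ⟨f, e, hf, he, hfe⟩ := ih V' hfr
    refine ⟨Fin.cons f₀ fun i => f i - f i e₀ • f₀, Fin.cons e₀ e, ?_, ?_, ?_⟩
    · intro i
      refine Fin.cases ?_ (fun i => ?_) i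
      · rw [Fin.cons_zero]
        exact hf₀n.trans (one_le_pow₀ (by norm_num))
      · rw [Fin.cons_succ]
        refine (norm_sub_le _ _).trans ?_
        have h1 : ‖f i e₀ • f₀‖ ≤ ‖f i‖ := by
          rw [norm_smul]
          calc ‖f i e₀‖ * ‖f₀‖ ≤ (‖f i‖ * ‖e₀‖) * 1 := by
                gcongr
                exact (f i).le_opNorm _
            _ = ‖f i‖ := by rw [he₀n]; ring
        calc ‖f i‖ + ‖f i e₀ • f₀‖ ≤ 2 ^ n + 2 ^ n := add_le_add (hf i) (h1.trans (hf i))
          _ = 2 ^ (n + 1) := by ring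
    · intro i
      refine Fin.cases ?_ (fun i => ?_) i
      · rw [Fin.cons_zero]; exact he₀n.le
      · rw [Fin.cons_succ]; exact he i
    · intro y hy
      have hy' : y - f₀ y • e₀ ∈ V' := by
        rw [hV', Submodule.mem_inf]
        refine ⟨V.sub_mem hy (V.smul_mem _ he₀V), ?_⟩
        rw [LinearMap.mem_ker]
        change f₀ (y - f₀ y • e₀) = 0
        rw [map_sub, map_smul, hf₀, smul_eq_mul, mul_one, sub_self]
      have h1 := hfe _ hy'
      rw [Fin.sum_univ_succ]
      simp only [Fin.cons_zero, Fin.cons_succ]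
      have h2 : ∀ i, (f i - f i e₀ • f₀) y • e i = f i (y - f₀ y • e₀) • e i := by
        intro i
        congr 1
        simp only [sub_apply, smul_apply, map_sub, map_smul, smul_eq_mul]
        ring
      rw [Finset.sum_congr rfl fun i _ => h2 i, h1]
      abel

theorem auer : S_AUER := by
  intro E _ _ n V _ hV
  exact auer_aux E n V hV.le

end Pool.Agent.H65.BM
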