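import Pool.Agent.H65.BM.S3

/-! BM3-AUER1 (helper63): Auerbach's lemma -/

set_option autoImplicit false

namespace Pool.Agent.H65.BM

theorem auer1 : S_AUER1 := by
  classical
  intro E _ _ n V _ hn
  let b : Module.Basis (Fin n) ℝ V := (Module.finBasisOfFinrankEq ℝ V hn)
  have hcont : Continuous fun e : Fin n → V => b.det e := by
    have h1 : ∀ e : Fin n → V, b.det e = (b.toMatrix e).det := fun e => by
      rw [Module.Basis.det_apply]
    simp only [h1]
    refine Continuous.matrix_det ?_
    refine continuous_matrix fun i j => ?_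
    have h2 : ∀ e : Fin n → V, b.toMatrix e i j = b.coord i (e j) := fun e => rfl
    simp only [h2]
    exact (LinearMap.continuous_of_finiteDimensional (b.coord i)).comp (continuous_apply j)
  have hcomp : IsCompact (Set.univ.pi fun _ : Fin n => Metric.closedBall (0 : V) 1) :=
    isCompact_univ_pi fun _ => isCompact_closedBall _ _
  obtain ⟨e, heS, hemax⟩ := hcomp.exists_isMaxOn
    ⟨fun _ => 0, fun _ _ => Metric.mem_closedBall_self zero_le_one⟩ (hcont.abs.continuousOn)
  have he1 : ∀ i, ‖e i‖ ≤ 1 := fun i => mem_closedBall_zero_iff.1 (heS i (Set.mem_univ _))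
  have hmax : ∀ e' : Fin n → V, (∀ i, ‖e' i‖ ≤ 1) → |b.det e'| ≤ |b.det e| := fun e' h =>
    hemax (fun i _ => mem_closedBall_zero_iff.2 (h i))
  have hdet : b.det e ≠ 0 := by
    have h1 := hmax (fun i => (‖b i‖⁻¹ : ℝ) • b i) (fun i => by
      rw [norm_smul, norm_inv, norm_norm]
      exact inv_mul_le_one)
    have h2 : b.det (fun i => (‖b i‖⁻¹ : ℝ) • b i) = ∏ i, (‖b i‖⁻¹ : ℝ) := by
      have h3 := b.det.toMultilinearMap.map_smul_univ (fun i => (‖b i‖⁻¹ : ℝ)) b
      have h4 : b.det.toMultilinearMap b = 1 := b.det_self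
      rw [h4, smul_eq_mul, mul_one] at h3
      exact h3
    have h5 : 0 < |∏ i, (‖b i‖⁻¹ : ℝ)| := by
      rw [abs_pos]
      refine Finset.prod_ne_zero_iff.2 fun i _ => ?_
      exact inv_ne_zero (norm_ne_zero_iff.2 (b.ne_zero i))
    rw [h2] at h1
    exact abs_pos.1 (h5.trans_le h1)
  obtain ⟨hli, hsp⟩ := (Module.Basis.is_basis_iff_det b).2 (isUnit_iff_ne_zero.2 hdet)
  let e' : Module.Basis (Fin n) ℝ V := Module.Basis.mk hli hsp.ge
  have he' : ∀ j, e' j = e j := fun j => by
    simp [e']
  -- the coordinates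
  let g : Fin n → V →ₗ[ℝ] ℝ := fun i => (b.det e)⁻¹ • (b.det.toMultilinearMap.toLinearMap e i)
  have hg : ∀ i y, g i y = (b.det e)⁻¹ * b.det (Function.update e i y) := fun i y => rfl
  have hgj : ∀ i j, g i (e j) = if i = j then 1 else 0 := by
    intro i j
    rw [hg]
    split_ifs with h
    · subst h
      rw [Function.update_eq_self, inv_mul_cancel₀ hdet]
    · have h6 : b.det (Function.update e i (e j)) = 0 := by
        refine b.det.map_eq_zero_of_eq _ (i := i) (j := j) ?_ h
        rw [Function.update_self, Function.update_of_ne (Ne.symm h)]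
      rw [h6, mul_zero]
  have hsum : ∀ y : V, ∑ i, g i y • e i = y := by
    intro y
    let L : V →ₗ[ℝ] V := ∑ i, (g i).smulRight (e i)
    have hL : ∀ y, L y = ∑ i, g i y • e i := fun y => by
      simp [L, LinearMap.sum_apply]
    have : L = LinearMap.id := by
      refine e'.ext fun j => ?_
      rw [hL, he']
      simp only [hgj]
      simp
    rw [← hL, this]
    rfl
  have hgle : ∀ i y, |g i y| ≤ ‖y‖ := by
    intro i y
    by_cases hy : y = 0
    · rw [hy, map_zero, abs_zero, norm_zero]
    · have hny : 0 < ‖y‖ := norm_pos_iff.2 hy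
      have h1 : |g i ((‖y‖⁻¹ : ℝ) • y)| ≤ 1 := by
        rw [hg, abs_mul, abs_inv]
        have h2 := hmax (Function.update e i ((‖y‖⁻¹ : ℝ) • y)) (fun j => by
          by_cases hj : j = i
          · subst hj
            rw [Function.update_self, norm_smul, norm_inv, norm_norm]
            exact inv_mul_le_one
          · rw [Function.update_of_ne hj]
            exact he1 j)
        rw [inv_mul_le_iff₀ (abs_pos.2 hdet), mul_one]
        exact h2
      rw [map_smul, smul_eq_mul, abs_mul, abs_inv, abs_norm, inv_mul_le_iff₀ hny, mul_one] at h1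
      exact h1
  -- extension
  have hext : ∀ i, ∃ f : StrongDual ℝ E, (∀ x : V, f x = g i x) ∧ ‖f‖ ≤ 1 := by
    intro i
    let G : StrongDual ℝ V := (g i).mkContinuous 1 (fun y => by
      rw [one_mul, Real.norm_eq_abs]
      exact hgle i y)
    obtain ⟨f, hf1, hf2⟩ := exists_extension_norm_eq V G
    refine ⟨f, fun x => by rw [hf1]; rfl, ?_⟩
    rw [hf2]
    exact (g i).mkContinuous_norm_le zero_le_one _
  choose f hf1 hf2 using hext
  refine ⟨f, fun i => (e i : E), hf2, he1, ?_⟩
  intro y hy
  have h1 := congrArg (fun v : V => (v : E)) (hsum ⟨y, hy⟩)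
  simp only [Submodule.coe_sum, Submodule.coe_smul] at h1
  rw [← h1]
  refine Finset.sum_congr rfl fun i _ => ?_
  have h2 := hf1 i ⟨y, hy⟩
  rw [h1]
  exact congrArg (fun c : ℝ => c • (e i : E)) h2

end Pool.Agent.H65.BM
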