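import Pool.Agent.H65.BM.Defs

/-!
# Project BM: quantitative and nuclear version of the hypothesis

`KQ` replaces `KO`: operators `K` with bounded nuclear norm, `‖K‖` bounded below and
`‖1 - K‖ ≤ 1 + ε` for all `ε > 0`.
-/

set_option autoImplicit false

namespace Pool.Agent.H65.BM

open Pool.Agent.N314.OP Pool.Agent.N314.OP.Mod

/-- almost contractive perturbations of the identity with bounded nuclear norm -/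
def KQ (E : Type) [NormedAddCommGroup E] [NormedSpace ℝ E] : Prop :=
  ∃ P : ℝ, 0 < P ∧ ∀ ε : ℝ, 0 < ε → ∃ (n : ℕ) (f : Fin n → StrongDual ℝ E) (e : Fin n → E),
    ∑ i, ‖f i‖ * ‖e i‖ ≤ P ∧ (∃ x, ‖x‖ ≤ P ∧ ‖∑ i, f i x • e i‖ = 1) ∧
      ∀ y, ‖y - ∑ i, f i y • e i‖ ≤ (1 + ε) * ‖y‖

/-- the operator `∑ f i ⊗ e i` -/
noncomputable def opr {E : Type} [NormedAddCommGroup E] [NormedSpace ℝ E] {n : ℕ}
    (f : Fin n → StrongDual ℝ E) (e : Fin n → E) : E →L[ℝ] E := ∑ i, (f i).smulRight (e i)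

/-- **OPQ** (replaces `S_OP`, same proof). Fix `m, v, Y`. For `ε > 0` take `K` from `KQ`, `T = 1 - K`,
`‖T^l‖ ≤ (1+ε)^m` for `l ≤ m`, `e = K x₁`, `‖x₁‖ ≤ P`. `y - T^l y = ∑_{i<l} T^i K y`,
`∑_{l<m} T^l e = x₁ - T^m x₁`, so `‖y‖ ≤ (1+ε)^m (‖y + t e‖ + m‖K y‖ + 2|t|P/m)`. In `L²(w)`:
`(∑ w ‖K A⁻¹ Y‖²)^(1/2) ≤ ∑ ‖e i‖ (∑ w (f i (A⁻¹ Y))²)^(1/2) ≤ P σ`. Then `ε → 0`. `C = 2P`. -/
def S_OPQ : Prop := ∀ (E : Type) [NormedAddCommGroup E] [NormedSpace ℝ E],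
  AT E → KQ E → ∃ C : ℝ, 0 ≤ C ∧ Op E C

/-- **DKQ**. Adjoint. If `‖K x‖ = 1`, `‖x‖ ≤ P` take `g` of norm one norming `K x`; `‖K* g‖ ≥ 1/P`;
rescale `g`. -/
def S_DKQ : Prop := ∀ (E : Type) [NormedAddCommGroup E] [NormedSpace ℝ E],
  KQ E → KQ (StrongDual ℝ E)

/-- **NORMK**. Given `ε` take `c = min (ε/4) (1/16)` or smaller and `K` from the hypothesis,
`a = ‖K‖ > 0`. If `a ≥ 1/4` take `K` itself (`a ≤ 3`). If `a < 1/4` let `l = ⌈1/(4a)⌉₊`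
(`1/4 ≤ l a ≤ 1/2`), `S = ∑_{i<l} (1-K)^i`, `K' = 1 - (1-K)^l = S K = ∑ f i ⊗ S (e i)`.
`‖1 - K'‖ ≤ (1+ca)^l ≤ 1 + ε`, `‖S‖ ≤ 2l`, so the nuclear norm of `K'` is `≤ 2 l P a ≤ P`, and
`‖K'‖ ≥ l a - (l²a²/2)(1+a)^l ≥ 1/8`. -/
def S_NORMK : Prop := ∀ (E : Type) [NormedAddCommGroup E] [NormedSpace ℝ E] (P : ℝ), 0 < P →
  (∀ c : ℝ, 0 < c → ∃ (n : ℕ) (f : Fin n → StrongDual ℝ E) (e : Fin n → E),
    ∑ i, ‖f i‖ * ‖e i‖ ≤ P * ‖opr f e‖ ∧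
      ‖ContinuousLinearMap.id ℝ E - opr f e‖ < 1 + c * ‖opr f e‖) → KQ E

/-- **AUER** (weak Auerbach lemma). Induction on the dimension `n` of `V`: `e₀ ∈ V` of norm one,
`f₀` norming it; `V' = V ∩ ker f₀`; for `y ∈ V`: `y = f₀(y) e₀ + (y - f₀(y) e₀)`, the second vector
is in `V'` and its norm is at most `2‖y‖`. -/
def S_AUER : Prop := ∀ (E : Type) [NormedAddCommGroup E] [NormedSpace ℝ E] (n : ℕ)
  (V : Submodule ℝ E) [FiniteDimensional ℝ V], Module.finrank ℝ V = n →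
  ∃ (f : Fin n → StrongDual ℝ E) (e : Fin n → E), (∀ i, ‖f i‖ ≤ 2 ^ n) ∧ (∀ i, ‖e i‖ ≤ 1) ∧
    ∀ y ∈ V, ∑ i, f i y • e i = y

end Pool.Agent.H65.BM
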