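import Pool.Agent.H65.BM.S
import Pool.Agent.H65.BM.Q
import Pool.Agent.H65.BM.L.N314.OP.NearMain
import Pool.Agent.H65.BM.L.N314.OP.Ess

/-!
# Project BM: assembly
-/

set_option autoImplicit false

namespace Pool.Agent.H65.BM

open Pool.Agent.N314.OP Pool.Agent.N314.OP.Mod

/-- all the stubs -/
structure Stubs : Prop where
  j : S_J
  opq : S_OPQ
  ci : S_CI
  t1 : S_T1
  t2 : S_T2
  cot : S_COT
  null : S_NULL
  pos : S_POS
  eq : S_EQ
  walk : S_WALK
  m1 : S_M1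
  m2 : S_M2
  dat : S_DAT
  dus : S_DUS
  duc : S_DUC
  dkq : S_DKQ

/-- the central inequality and the type estimates -/
lemma typ (S : Stubs) (E : Type) [NormedAddCommGroup E] [NormedSpace ℝ E] (hA : AT E)
    (hU : US E) (hK : KQ E) :
    ∃ (C B C₁ A : ℝ) (J : E → StrongDual ℝ E), 1 ≤ C ∧ 0 ≤ B ∧ JP E C B J ∧ 1 ≤ C₁ ∧ 0 ≤ A ∧
      CI E J C₁ A ∧ ∀ η : ℝ, 0 < η → ∃ B : ℝ, 0 < B ∧ TB E η B := by
  obtain ⟨p, K, hp1, hp2, hK0, hUS⟩ := hU
  obtain ⟨C, B, J, hC, hB, hJ⟩ := S.j E p K hp1 hp2 hK0 hUS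
  obtain ⟨C', hC', hO⟩ := S.opq E hA hK
  obtain ⟨C₁, A, hC₁, hA0, hCI⟩ := S.ci E J C B C' hC hB hJ hC' hO
  exact ⟨C, B, C₁, A, J, hC, hB, hJ, hC₁, hA0, hCI,
    S.t2 E (S.t1 E J C₁ A hC₁ hA0 hCI hJ.self hJ.bd)⟩

/-- smoothness of power type `q` for all `q < 2` -/
theorem key (S : Stubs) (E : Type) [NormedAddCommGroup E] [NormedSpace ℝ E] (hA : AT E)
    (hW : WSC E) (hinf : ¬ FiniteDimensional ℝ E) (hUS : US E) (hUC : UC E) (hK : KQ E)
    (q : ℝ) (hq1 : 1 < q) (hq2 : q < 2) : ∃ K : ℝ, 0 < K ∧ USp E q K := by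
  by_contra hcon
  push Not at hcon
  obtain ⟨C, B, C₁, A, J, hC, hB, hJ, hC₁, hA0, hCI, hT⟩ := typ S E hA hUS hK
  obtain ⟨-, -, -, -, -, -, -, -, -, -, -, hT'⟩ :=
    typ S (StrongDual ℝ E) (S.dat E hA hUS) (S.dus E hUC) (S.dkq E hK)
  obtain ⟨Cp, c₁, hCp, hc₁, hc₁1, hPB⟩ := S.pos E J C B hC hB hJ (S.null E hA hW hinf)
  obtain ⟨η, hη0, hη1, hM2⟩ := S.m2 A c₁ q hA0 hc₁ hc₁1 hq1 hq2
  obtain ⟨B1, hB1, hTB⟩ := hT η hη0
  obtain ⟨B2, hB2, hTB'⟩ := hT' η hη0
  have hCB := S.cot E η B2 hη0 hη1 hB2 hTB'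
  obtain ⟨t₀, ht₀, hM2⟩ := hM2 B1 (1 / B2) C₁ Cp 100 hB1 (by positivity) hC₁ hCp (by norm_num)
  obtain ⟨t, κ, x, w, ht, htt, hx, hw, h1, h2, hκ⟩ := S.eq E q hq1 hq2 hcon
    (min t₀ (1 / 100)) (by positivity)
  have ht1 : t < t₀ := htt.trans_le (min_le_left _ _)
  have ht2 : t ≤ 1 / 100 := (htt.trans_le (min_le_right _ _)).le
  have htq : 0 < t ^ q := Real.rpow_pos_of_pos ht q
  have hκ0 : 0 < κ := htq.trans_le hκ
  obtain ⟨k, d, hk, hkκ, hd, hd1, hd2, hd3⟩ := S.walk E hA x w t κ ht ht2 hx hw hκ0 h1 h2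
  have hkq : (k : ℝ) * t ^ q ≤ 100 := by
    have : (k : ℝ) * t ^ q ≤ k * κ := by gcongr
    linarith
  obtain ⟨M, π, δ, hM, hπ, hπ1, hδ, hδ1, hno⟩ := hM2 t k ht ht1 hk hkq
  -- the finite set
  classical
  let Z : Finset E := (Finset.univ : Finset ((Fin k → Bool) × Option (Fin k))).image
    fun ω => (1 / 100 : ℝ) • uv k (1 / t) d ω
  have hZ : ∀ u ∈ Z, ‖u‖ ≤ 1 := by
    intro u hu
    obtain ⟨ω, -, rfl⟩ := Finset.mem_image.1 hu
    rw [norm_smul, Real.norm_of_nonneg (by norm_num)]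
    have : ‖uv k (1 / t) d ω‖ ≤ 100 := by
      rcases ω with ⟨ε, _ | i⟩
      · exact hd3 ε
      · show ‖(1 / t) • d i ε‖ ≤ 100
        rw [norm_smul, Real.norm_of_nonneg (by positivity), one_div, inv_mul_le_iff₀ ht]
        linarith [hd1 i ε]
    linarith
  obtain ⟨T, hT2⟩ := hPB Z hZ M
  have hσ : ∀ g : StrongDual ℝ E, ‖g‖ ≤ 1 → ∀ ω : Fin M → (Fin k → Bool) × Option (Fin k),
      ∑ j, (g (T j (uv k (1 / t) d (ω j)))) ^ 2 ≤
        (100 * Real.sqrt (Cp * (M : ℝ) ^ (1 - c₁))) ^ 2 := by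
    intro g hg ω
    have e1 := hT2 g hg (fun j => (1 / 100 : ℝ) • uv k (1 / t) d (ω j)) fun j =>
      Finset.mem_image.2 ⟨ω j, Finset.mem_univ _, rfl⟩
    have e2 : ∑ j, (g (T j ((1 / 100 : ℝ) • uv k (1 / t) d (ω j)))) ^ 2 =
        (1 / 100) ^ 2 * ∑ j, (g (T j (uv k (1 / t) d (ω j)))) ^ 2 := by
      rw [Finset.mul_sum]
      refine Finset.sum_congr rfl fun j _ => ?_
      rw [map_smul, map_smul, smul_eq_mul, mul_pow]
    rw [e2] at e1
    rw [mul_pow, Real.sq_sqrt (by positivity)]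
    linarith
  obtain ⟨L, hL0, hL1, hL2⟩ := S.m1 E J C₁ A hC₁ hA0 hCI hJ.self hJ.bd η B1 (1 / B2) hη0 hη1 hB1
    (by positivity) hTB hCB k M t π δ (100 * Real.sqrt (Cp * (M : ℝ) ^ (1 - c₁))) 100 d T hk hM ht
    (by linarith) (by norm_num) hπ hπ1 hδ hδ1 (by positivity) hd hd1 hd2 hσ
  exact hno L hL0 hL1 hL2

/-- evaluations separate the points of the dual -/
lemma sep_dual (E : Type) [NormedAddCommGroup E] [NormedSpace ℝ E]
    [TopologicalSpace.SeparableSpace E] : Sep (StrongDual ℝ E) := by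
  have hd := TopologicalSpace.denseRange_denseSeq E
  refine ⟨fun k => NormedSpace.inclusionInDoubleDual ℝ E (TopologicalSpace.denseSeq E k),
    fun f hf => ?_⟩
  have h1 : ∀ k, f (TopologicalSpace.denseSeq E k) = 0 := fun k => hf k
  ext x
  have h2 : (fun x : E => f x) = fun _ => 0 :=
    hd.equalizer f.continuous continuous_const (by funext k; exact h1 k)
  exact congrFun h2 x

lemma inf_dual (E : Type) [NormedAddCommGroup E] [NormedSpace ℝ E]
    (hinf : ¬ FiniteDimensional ℝ E) : ¬ FiniteDimensional ℝ (StrongDual ℝ E) := by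
  intro h
  apply hinf
  have h1 : FiniteDimensional ℝ (StrongDual ℝ (StrongDual ℝ E)) := inferInstance
  exact FiniteDimensional.of_injective
    (NormedSpace.inclusionInDoubleDualLi ℝ (E := E)).toLinearMap
    (NormedSpace.inclusionInDoubleDualLi ℝ (E := E)).injective

/-- the parallelogram identity -/
theorem main (S : Stubs) (E : Type) [NormedAddCommGroup E] [NormedSpace ℝ E] [CompleteSpace E]
    [TopologicalSpace.SeparableSpace E] (hA : AT E) (hinf : ¬ FiniteDimensional ℝ E)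
    (hUS : US E) (hUC : UC E) (hK : KQ E) (x y : E) :
    ‖x + y‖ * ‖x + y‖ + ‖x - y‖ * ‖x - y‖ = 2 * (‖x‖ * ‖x‖ + ‖y‖ * ‖y‖) := by
  have hnt : Nontrivial E := by
    by_contra h
    rw [not_nontrivial_iff_subsingleton] at h
    exact hinf inferInstance
  have wsc : ∀ (F : Type) [NormedAddCommGroup F] [NormedSpace ℝ F] [CompleteSpace F],
      UC F → Sep F → WSC F := by
    intro F _ _ _ ⟨q, c, hq, hc, h⟩ hS
    exact wsc_of_uw (uw_of_reflexive (reflexive_of_UCq (by linarith) hc h)) hS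
  have hUS' := hUS
  obtain ⟨p, K, hp1, hp2, hK0, hUSp⟩ := hUS'
  -- the dual
  have hUCd : UC (StrongDual ℝ E) := by
    obtain ⟨c, hc, h⟩ := S.duc E (StrongDual ℝ E) LinearIsometry.id p K hp1 hp2 hK0 hUSp
    refine ⟨p / (p - 1), c, ?_, hc, h⟩
    rw [le_div_iff₀ (by linarith)]
    linarith
  have hWE : WSC E := wsc E hUC sep_of_separable
  have hWd : WSC (StrongDual ℝ E) := wsc _ hUCd (sep_dual E)
  have k1 := key S E hA hWE hinf hUS hUC hK
  have k2 := key S (StrongDual ℝ E) (S.dat E hA hUS) hWd (inf_dual E hinf) (S.dus E hUC) hUCd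
    (S.dkq E hK)
  refine main_near hA hinf (fun η h0 h1 => k1 (2 - η) (by linarith) (by linarith))
    (fun η h0 h1 => ?_) ?_ x y
  · obtain ⟨K', hK', h⟩ := k2 ((2 + η) / (1 + η)) (by rw [lt_div_iff₀ (by linarith)]; linarith)
      (by rw [div_lt_iff₀ (by linarith)]; linarith)
    obtain ⟨c, hc, h⟩ := S.duc (StrongDual ℝ E) E (NormedSpace.inclusionInDoubleDualLi ℝ)
      ((2 + η) / (1 + η)) K' (by rw [lt_div_iff₀ (by linarith)]; linarith)
      (by rw [div_le_iff₀ (by linarith)]; linarith) hK' h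
    refine ⟨c, hc, ?_⟩
    have e : (2 + η) / (1 + η) / ((2 + η) / (1 + η) - 1) = 2 + η := by
      field_simp
      ring
    rwa [e] at h
  · refine opialL_of_seq hA hnt fun c hc => ?_
    obtain ⟨P, hP, hKQ⟩ := hK
    obtain ⟨n, f, e, -, ⟨x₁, hx₁, hx₂⟩, hle⟩ := hKQ (c / (2 * P)) (by positivity)
    let T : E →L[ℝ] E := opr f e
    have hT : ∀ y, T y = ∑ i, f i y • e i := by
      intro y
      simp only [T, opr, FunLike.coe_sum, Finset.sum_apply, ContinuousLinearMap.smulRight_apply]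
    refine ⟨T, ?_, ?_⟩
    · have h1 : ∀ i, IsCompactOperator ((f i).smulRight (e i) : E →L[ℝ] E) := by
        intro i
        have h1 : IsCompactOperator (f i : E → ℝ) :=
          isCompactOperator_of_locallyCompactSpace_dom (f i)
        exact h1.clm_comp (ContinuousLinearMap.toSpanSingleton ℝ (e i))
      have h2 : ∀ s : Finset (Fin n),
          IsCompactOperator (∑ i ∈ s, (f i).smulRight (e i) : E →L[ℝ] E) := by
        intro s
        induction s using Finset.induction_on with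
        | empty => simpa using isCompactOperator_zero
        | insert a s ha ih =>
          rw [Finset.sum_insert ha]
          exact (h1 a).add ih
      exact h2 Finset.univ
    · have h1 : ‖ContinuousLinearMap.id ℝ E - T‖ ≤ 1 + c / (2 * P) := by
        refine ContinuousLinearMap.opNorm_le_bound _ (by positivity) fun y => ?_
        show ‖y - T y‖ ≤ (1 + c / (2 * P)) * ‖y‖
        rw [hT]
        exact hle y
      have h2 : 1 ≤ ‖T‖ * P := by
        calc (1 : ℝ) = ‖T x₁‖ := by rw [hT, hx₂]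
          _ ≤ ‖T‖ * ‖x₁‖ := T.le_opNorm x₁
          _ ≤ ‖T‖ * P := by gcongr
      have h3 : c / (2 * P) < c * ‖T‖ := by
        rw [div_lt_iff₀ (by positivity)]
        nlinarith
      linarith

end Pool.Agent.H65.BM
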