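import Pool.Agent.H65.BM.Tools

/-!
# Project BM, second wave: almost transitive spaces with separable dual are superreflexive, with
their own norm smooth and convex of power type. Statements to prove; proofs in the doc comments.
-/

set_option autoImplicit false

namespace Pool.Agent.H65.BM

open Pool.Agent.N314.OP Pool.Agent.N314.OP.Mod

/-- uniform smoothness -/
def US0 (E : Type) [NormedAddCommGroup E] [NormedSpace ℝ E] : Prop :=
  ∀ ε : ℝ, 0 < ε → ∃ s : ℝ, 0 < s ∧ ∀ x w : E, ‖x‖ = 1 → ‖w‖ ≤ s →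
    ‖x + w‖ + ‖x - w‖ ≤ 2 + ε * ‖w‖

/-- points of almost norm continuity of the norming functionals -/
def FRE (E : Type) [NormedAddCommGroup E] [NormedSpace ℝ E] : Prop :=
  ∀ ε : ℝ, 0 < ε → ∃ (x₀ : E) (δ : ℝ), x₀ ≠ 0 ∧ 0 < δ ∧ ∀ y z : E, ‖y - x₀‖ < δ → ‖z - x₀‖ < δ →
    ∀ f g : StrongDual ℝ E, ‖f‖ = 1 → ‖g‖ = 1 → f y = ‖y‖ → g z = ‖z‖ → ‖f - g‖ ≤ ε

/-- the modulus of smoothness at the scale `s` is at most `r` -/
def RR (E : Type) [NormedAddCommGroup E] [NormedSpace ℝ E] (s r : ℝ) : Prop :=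
  ∀ x w : E, ‖x‖ = 1 → ‖w‖ ≤ s → ‖x + w‖ + ‖x - w‖ ≤ 2 + r

/-- **FRE** (Preiss-Zajicek type argument). Let `h n` be dense in `StrongDual ℝ E`. Let `D` be the
set of `x₀` for which there is no `δ` with the property (for this `ε`), and `D_n` the set of
`x ∈ D` having a norming functional `f` (`‖f‖ = 1`, `f x = ‖x‖`) with `‖f - h n‖ < ε/4`. `D = ⋃ D_n`.
`D_n` is nowhere dense: let `x ∈ D_n` (closure of `D_n` with nonempty interior has such points).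
Arbitrarily near `x` there are `y, z` with norming functionals `f, g`, `‖f - g‖ > ε`, so one of them,
say `f` at `y`, has `‖f - h n‖ > ε/2`, so `(f - h n) e > (ε/2)‖e‖` for some `e ≠ 0`. For small
`τ > 0` and `u` near `e`, `v = y + τ u` is not in `D_n`: a norming `k` at `v` with
`‖k - h n‖ < ε/4` would give `0 ≤ (k - f)(v - y)` (monotonicity:
`(k - f)(v - y) = ‖v‖ - k y + ‖y‖ - f v ≥ 0`), while `(k - f)(τu) = τ((k - h n) u - (f - h n) u) < 0`.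
So `D` is meagre, and by Baire the complement of `D` has a nonzero point. -/
def S_FRE : Prop := ∀ (E : Type) [NormedAddCommGroup E] [NormedSpace ℝ E] [CompleteSpace E]
  [Nontrivial E] [TopologicalSpace.SeparableSpace (StrongDual ℝ E)], FRE E

/-- **USZ**. By `AT` and homogeneity the property of `x₀` passes to all unit vectors `x` with
`δ' = δ/(2‖x₀‖)`: if `‖T x₀/‖x₀‖ - x‖ < δ'`, then `f ∘ T` is norming at `T⁻¹ y`. For `y = x + w`,
`z = x - w` and norming functionals `f, g`: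
`‖x+w‖ + ‖x-w‖ = f x + g x + (f - g) w ≤ 2 + ε‖w‖`. -/
def S_USZ : Prop := ∀ (E : Type) [NormedAddCommGroup E] [NormedSpace ℝ E] [Nontrivial E],
  AT E → FRE E → US0 E

/-- **GRO** (martingales grow slowly). Let `V_i` be the partial sums, `a_i` the mean of `‖V_i‖²`.
Given `V = V_i`, `d = d_i`, `‖d‖ ≤ D`: the mean of `‖V ± d‖²` is
`((‖V+d‖+‖V-d‖)/2)² + ((‖V+d‖-‖V-d‖)/2)² ≤ ((‖V+d‖+‖V-d‖)/2)² + D²`. If `D ≤ s‖V‖` the first square
is `≤ (‖V‖ + εD/2)²`, otherwise `≤ (‖V‖ + D)²` with `‖V‖ < D/s`. As `‖V‖ ≤ nD`: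
`a_(i+1) ≤ a_i + D²(εn + ε² + 2 + 2/s)`. So `a_n ≤ n D² (εn + ε² + 2 + 2/s) ≤ b² n² D²` for small `ε`
and then large `n`. (`D ≥ 0` may be assumed: if `D < 0` there are no increments.) -/
def S_GRO : Prop := ∀ (E : Type) [NormedAddCommGroup E] [NormedSpace ℝ E], US0 E →
  ∀ b : ℝ, 0 < b → ∃ n : ℕ, 2 ≤ n ∧ ∀ (d : Fin n → (Fin n → Bool) → E) (D : ℝ), 0 ≤ D → Pred d →
    (∀ i ε, ‖d i ε‖ ≤ D) →
    av (fun ε : Fin n → Bool => ‖∑ i, sg (ε i) • d i ε‖ ^ 2) ≤ (b * n * D) ^ 2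

/-- **WKN** (`n` steps of the walk of `Walk.lean`; `WalkAux` can be used). -/
def S_WKN : Prop := ∀ (E : Type) [NormedAddCommGroup E] [NormedSpace ℝ E], AT E →
  ∀ (x w : E) (t κ : ℝ) (n : ℕ), 0 < t → ‖x‖ = 1 → ‖w‖ ≤ 2 * t → 0 < κ → n * κ ≤ 1 / 4 →
    ‖x + w‖ = 1 + κ → ‖x - w‖ = 1 + κ →
    ∃ d : Fin n → (Fin n → Bool) → E, Pred d ∧ (∀ i ε, ‖d i ε‖ ≤ 4 * t) ∧
      ∀ ε, 1 + 3 / 4 * (n * κ) ≤ ‖x + ∑ i, sg (ε i) • d i ε‖

/-- **SELF** (self-similarity). Take `n` from `GRO` with `b = 1/100`, `l = 1/(4n)`, `s₁` small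
(`s₁ ≤ 1/2`; then `nκ ≤ 2nt = s/2 ≤ 1/4`). Suppose `RR E s r`, `s² ≤ r ≤ 2s`, and `RR E (l s) (l/2 r)` fails:
`‖x‖ = 1`, `‖w‖ ≤ t := l s`, `‖x+w‖ + ‖x-w‖ > 2 + (l/2) r`. By `EqAux.bal` and `EqAux.low` (file
`EQ.lean`) there is `w' = w - c x`, `‖w'‖ ≤ 2t`, `‖x ± w'‖ = 1 + κ`,
`κ ≥ (l/4) r - t² ≥ (l/4 - l²) r ≥ (l/8) r > 0` (`l ≤ 1/8` as `n ≥ 2`). `WKN`: `d`, `D = 4t`,
`V = ∑ sg d`, `‖V‖ ≤ n D = s`. Convexity of `τ ↦ ‖x+τv‖ + ‖x-τv‖` and `RR E s r`: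
`‖x+V‖ + ‖x-V‖ ≤ 2 + r‖V‖/s`; for a norming functional `f` of `x`: `‖x-V‖ ≥ 1 - f V`, so
`‖x+V‖ ≤ 1 + f V + r‖V‖/s`. Average over the signs (the mean of `f V` is `0` by predictability):
`(3/4) n κ ≤ (r/s) (av ‖V‖²)^(1/2) ≤ (r/s) b n D = b r`. With `κ ≥ (l/8) r = r/(32 n)`: contradiction
(`3/128 > 1/100`). -/
def S_SELF : Prop := S_GRO → S_WKN →
  ∀ (E : Type) [NormedAddCommGroup E] [NormedSpace ℝ E], AT E → US0 E →
  ∃ l s₁ : ℝ, 0 < l ∧ l ≤ 1 / 8 ∧ 0 < s₁ ∧ s₁ ≤ 1 ∧ ∀ s r : ℝ, 0 < s → s ≤ s₁ → s ^ 2 ≤ r →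
    r ≤ 2 * s → RR E s r → RR E (l * s) (l / 2 * r)

/-- **POW**. Iterate from `RR E s₁ (2 s₁)`: `RR E (l^k s₁) ((l/2)^k 2 s₁)` (the condition `s² ≤ r`
is `l^(2k) s₁² ≤ (l/2)^k 2 s₁`, true as `l² ≤ l/2`). `p = 1 + log 2 / log (1/l) ∈ (1, 2]`, `l^p = l/2`.
For `l^(k+1) s₁ < ‖w‖ ≤ l^k s₁`: `≤ 2 + (l/2)^k 2 s₁ = 2 + (l^k)^p 2 s₁ ≤ 2 + K‖w‖^p`. For `‖w‖ > s₁`:
`≤ 2 + 2‖w‖ ≤ 2 + 2 s₁^(1-p) ‖w‖^p`. -/
def S_POW : Prop := ∀ (E : Type) [NormedAddCommGroup E] [NormedSpace ℝ E] (l s₁ : ℝ),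
  0 < l → l ≤ 1 / 8 → 0 < s₁ → s₁ ≤ 1 →
  (∀ s r : ℝ, 0 < s → s ≤ s₁ → s ^ 2 ≤ r → r ≤ 2 * s → RR E s r → RR E (l * s) (l / 2 * r)) → US E

/-- **REF**. If `E` is complete and its dual is reflexive then `E` is reflexive: otherwise by
Hahn-Banach (`geometric` or `exists_extension...`: a nonzero functional on the bidual which vanishes
on the closed subspace `E`; reflexivity of the dual makes it an evaluation at some `f`, `f = 0`). And
if in addition the space `E` is separable the bidual is separable. -/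
def S_REF : Prop := ∀ (E : Type) [NormedAddCommGroup E] [NormedSpace ℝ E] [CompleteSpace E]
  [TopologicalSpace.SeparableSpace E],
  Function.Surjective (NormedSpace.inclusionInDoubleDual ℝ (StrongDual ℝ E)) →
    Function.Surjective (NormedSpace.inclusionInDoubleDual ℝ E) ∧
    TopologicalSpace.SeparableSpace (StrongDual ℝ (StrongDual ℝ E))

/-- **SEPD**. If the dual is separable then the space is separable (choose `x n` almost norming the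
elements of a dense sequence; their span is dense by Hahn-Banach). -/
def S_SEPD : Prop := ∀ (E : Type) [NormedAddCommGroup E] [NormedSpace ℝ E]
  [TopologicalSpace.SeparableSpace (StrongDual ℝ E)], TopologicalSpace.SeparableSpace E

end Pool.Agent.H65.BM
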