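import Pool.Agent.H65.BM.Fin
import Pool.Agent.H65.BM.S2

/-!
# Project BM, second wave: assembly
-/

set_option autoImplicit false

namespace Pool.Agent.H65.BM

open Pool.Agent.N314.OP Pool.Agent.N314.OP.Mod

/-- the stubs of the second wave -/
structure Stubs2 : Prop where
  fre : S_FRE
  usz : S_USZ
  gro : S_GRO
  wkn : S_WKN
  self : S_SELF
  pow : S_POW
  ref : S_REF
  sepd : S_SEPD
  dat : S_DAT
  duc : S_DUC

/-- almost transitive spaces with separable dual are smooth of power type -/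
lemma us_of (S : Stubs2) (E : Type) [NormedAddCommGroup E] [NormedSpace ℝ E] [CompleteSpace E]
    [Nontrivial E] [TopologicalSpace.SeparableSpace (StrongDual ℝ E)] (hA : AT E) : US E := by
  obtain ⟨l, s₁, h1, h2, h3, h4, h5⟩ := S.self S.gro S.wkn E hA (S.usz E hA (S.fre E))
  exact S.pow E l s₁ h1 h2 h3 h4 h5

/-- almost transitive spaces with separable dual are smooth and convex of power type -/
theorem good (S : Stubs2) (E : Type) [NormedAddCommGroup E] [NormedSpace ℝ E] [CompleteSpace E]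
    [Nontrivial E] [TopologicalSpace.SeparableSpace (StrongDual ℝ E)] (hA : AT E) :
    US E ∧ UC E := by
  have hsE : TopologicalSpace.SeparableSpace E := S.sepd E
  have hUS := us_of S E hA
  obtain ⟨p, K, hp1, hp2, hK, hUSp⟩ := hUS
  have hq : ∀ p : ℝ, 1 < p → p ≤ 2 → 2 ≤ p / (p - 1) := by
    intro p hp1 hp2
    rw [le_div_iff₀ (by linarith)]
    linarith
  obtain ⟨c, hc, hUCd⟩ := S.duc E (StrongDual ℝ E) LinearIsometry.id p K hp1 hp2 hK hUSp
  have hrd : Function.Surjective (NormedSpace.inclusionInDoubleDual ℝ (StrongDual ℝ E)) :=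
    reflexive_of_UCq (by linarith [hq p hp1 hp2]) hc hUCd
  obtain ⟨hr, hsep⟩ := S.ref E hrd
  have hnt : Nontrivial (StrongDual ℝ E) := inferInstance
  obtain ⟨p', K', hp1', hp2', hK', hUSp'⟩ :=
    us_of S (StrongDual ℝ E) (S.dat E hA ⟨p, K, hp1, hp2, hK, hUSp⟩)
  obtain ⟨c', hc', hUC⟩ := S.duc (StrongDual ℝ E) E (NormedSpace.inclusionInDoubleDualLi ℝ) p' K'
    hp1' hp2' hK' hUSp'
  exact ⟨⟨p, K, hp1, hp2, hK, hUSp⟩, ⟨p' / (p' - 1), c', hq p' hp1' hp2', hc', hUC⟩⟩

end Pool.Agent.H65.BM
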