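import Pool.Agent.H65.BM.Q

/-!
# Project BM, third wave: operators with polynomially decreasing approximation numbers

`OpS`, `KS` replace `Op`, `KQ`. Statements to prove; all are adaptations of proved files.
-/

set_option autoImplicit false

namespace Pool.Agent.H65.BM

open Pool.Agent.N314.OP Pool.Agent.N314.OP.Mod

/-- as `Op`, with the additional term `l ^ (-s)` times the norm, for all `l ≥ 1` -/
def OpS (E : Type) [NormedAddCommGroup E] [NormedSpace ℝ E] (C s : ℝ) : Prop :=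
  ∀ (Ω : Type) [Fintype Ω] (w : Ω → ℝ) (Y : Ω → E) (v : E) (m : ℕ) (σ l : ℝ),
    (∀ ω, 0 ≤ w ω) → ∑ ω, w ω = 1 → 1 ≤ m → 0 ≤ σ → 1 ≤ l →
    (∀ g : StrongDual ℝ E, ‖g‖ ≤ 1 → ∑ ω, w ω * (g (Y ω)) ^ 2 ≤ σ ^ 2) →
    Real.sqrt (∑ ω, w ω * ‖Y ω‖ ^ 2) ≤
      Real.sqrt (∑ ω, w ω * ‖Y ω + v‖ ^ 2) +
        C * (‖v‖ / m + m * (l * σ + l ^ (-s) * Real.sqrt (∑ ω, w ω * ‖Y ω‖ ^ 2)))

/-- as `KQ`, for operators which are approximated up to `P l ^ (-s)` by operators of nuclear norm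
at most `l` -/
def KS (E : Type) [NormedAddCommGroup E] [NormedSpace ℝ E] : Prop :=
  ∃ P s : ℝ, 0 < P ∧ 0 < s ∧ ∀ ε : ℝ, 0 < ε → ∃ K : E →L[ℝ] E,
    (∃ x, ‖x‖ ≤ P ∧ ‖K x‖ = 1) ∧ (∀ y, ‖y - K y‖ ≤ (1 + ε) * ‖y‖) ∧
      ∀ l : ℝ, 1 ≤ l → ∃ (n : ℕ) (f : Fin n → StrongDual ℝ E) (e : Fin n → E),
        ∑ i, ‖f i‖ * ‖e i‖ ≤ l ∧ ‖K - opr f e‖ ≤ P * l ^ (-s)

/-- **OPS** (adapt `OPQ.lean`). `(∑ w ‖K A⁻¹ Y‖²)^(1/2) ≤ l σ + P l^(-s) (∑ w ‖Y‖²)^(1/2)`. -/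
def S_OPS : Prop := ∀ (E : Type) [NormedAddCommGroup E] [NormedSpace ℝ E],
  AT E → KS E → ∃ C s : ℝ, 0 ≤ C ∧ 0 < s ∧ OpS E C s

/-- **CIS** (adapt `CI.lean`). As there, with `e = C(t/m + m(lσ + l^(-s)Λ))`; take
`l = δ^(-(B+3)/s)`, so that the new term `2Λ C m l^(-s) Λ / t ≤ 4CΛ δ^(-1) δ^(B+3) / δ^(B+1)
= 4Cδ Λ`. `A = B + 2 + (B+3)/s`. -/
def S_CIS : Prop := ∀ (E : Type) [NormedAddCommGroup E] [NormedSpace ℝ E] (J : E → StrongDual ℝ E)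
  (C B C' s : ℝ), 1 ≤ C → 0 ≤ B → JP E C B J → 0 ≤ C' → 0 < s → OpS E C' s →
  ∃ C₁ A : ℝ, 1 ≤ C₁ ∧ 0 ≤ A ∧ CI E J C₁ A

/-- **DKS** (adapt `DKQ.lean`). Adjoint `g ↦ g ∘ K`. -/
def S_DKS : Prop := ∀ (E : Type) [NormedAddCommGroup E] [NormedSpace ℝ E],
  KS E → KS (StrongDual ℝ E)

/-- **NORMKS** (adapt `NORMK.lean`). As there: `K' = K` or `K' = 1 - (1-K)^m = S K`, `‖S‖ ≤ 2m`,
`m‖K‖ ≤ 1/2`, approximated by `S (opr f e) = opr f (S ∘ e)`. For `‖K‖ ≥ 1/4` (then `‖K‖ ≤ 3`) the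
hypothesis at `l/3` (for `l ≥ 3`; for `1 ≤ l < 3` take `0`, `n = 0`) gives the claim with a larger
`P`. -/
def S_NORMKS : Prop := ∀ (E : Type) [NormedAddCommGroup E] [NormedSpace ℝ E] [Nontrivial E]
  (P s : ℝ), 0 < P → 0 < s →
  (∀ c : ℝ, 0 < c → ∃ K : E →L[ℝ] E, ‖ContinuousLinearMap.id ℝ E - K‖ < 1 + c * ‖K‖ ∧
    ∀ l : ℝ, 1 ≤ l → ∃ (n : ℕ) (f : Fin n → StrongDual ℝ E) (e : Fin n → E),
      ∑ i, ‖f i‖ * ‖e i‖ ≤ l * ‖K‖ ∧ ‖K - opr f e‖ ≤ P * ‖K‖ * l ^ (-s)) → KS E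

/-- **AUER1** (Auerbach's lemma). On the compact set of `n`-tuples of the unit ball of `V` the
absolute value of the determinant with respect to a basis has a positive maximum, at `e`; then `e`
is a basis and the coordinates `y ↦ det (e with y in place i) / det e` have norm at most one
(Hahn-Banach extension to `E`). -/
def S_AUER1 : Prop := ∀ (E : Type) [NormedAddCommGroup E] [NormedSpace ℝ E] (n : ℕ)
  (V : Submodule ℝ E) [FiniteDimensional ℝ V], Module.finrank ℝ V = n →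
  ∃ (f : Fin n → StrongDual ℝ E) (e : Fin n → E), (∀ i, ‖f i‖ ≤ 1) ∧ (∀ i, ‖e i‖ ≤ 1) ∧
    ∀ y ∈ V, ∑ i, f i y • e i = y

end Pool.Agent.H65.BM
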