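import Pool.Agent.H65.BM.S4
import Pool.Agent.H65.BM.Asm3

/-!
# Project BM, fourth wave: assembly
-/

set_option autoImplicit false

namespace Pool.Agent.H65.BM

open Pool.Agent.N314.OP Pool.Agent.N314.OP.Mod

/-- the stubs of the fourth wave -/
structure Stubs4 : Prop where
  j : S_J
  opc : S_OPC
  cic : S_CIC
  uc2 : S_UC2
  t1c : S_T1C
  t2 : S_T2
  cot : S_COT
  null : S_NULL
  null2 : S_NULL2
  pos2 : S_POS2
  eq : S_EQ
  walk : S_WALK
  dat : S_DAT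
  dus : S_DUS
  duc : S_DUC
  cc : S_CC
  nm : S_NM
  con : S_CON
  iso : S_ISO
  cbs : S_CBS
  sub : S_SUB
  m1c : S_M1C
  lpd : S_LPD
  cae : S_CAE
  cad : S_CAD
  riesz : S_RIESZ
  irr2 : S_IRR2
  lpx : S_LPX

/-- the central inequality and the type estimates -/
lemma typC (S : Stubs4) (E : Type) [NormedAddCommGroup E] [NormedSpace ℝ E] (hA : AT E)
    (hU : US E) {K : E →L[ℝ] E} (hK0 : K ≠ 0) (hK : ∀ y, ‖y - K y‖ ≤ ‖y‖) (hCA : CA K) :
    ∃ (C B : ℝ) (J : E → StrongDual ℝ E), 1 ≤ C ∧ 0 ≤ B ∧ JP E C B J ∧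
      (∀ D : ℝ, 0 < D → ∃ a : ℝ, 0 ≤ a ∧ CIa E J D a) ∧
      ∀ η : ℝ, 0 < η → ∃ B : ℝ, 0 < B ∧ TB E η B := by
  obtain ⟨p, Ks, hp1, hp2, hKs, hUS⟩ := hU
  obtain ⟨C, B, J, hC, hB, hJ⟩ := S.j E p Ks hp1 hp2 hKs hUS
  obtain ⟨C', hC', hO⟩ := S.opc E K hA hK0 hK hCA
  have hCI := S.cic E J C B C' hC hB hJ hC' hO
  exact ⟨C, B, J, hC, hB, hJ, hCI, S.t2 E (S.t1c S.uc2 E J hCI hJ.self hJ.bd)⟩

/-- smoothness of power type `q` for all `q < 2` -/
theorem keyC (S : Stubs4) (E : Type) [NormedAddCommGroup E] [NormedSpace ℝ E] [Nontrivial E]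
    [TopologicalSpace.SeparableSpace E] (hA : AT E) (hW : WSC E)
    (hinf : ¬ FiniteDimensional ℝ E) (hUS : US E) {K : E →L[ℝ] E} (hK0 : K ≠ 0)
    (hK : ∀ y, ‖y - K y‖ ≤ ‖y‖) (hCA : CA K) (hLP : LP E K)
    (hT' : ∀ η : ℝ, 0 < η → ∃ B : ℝ, 0 < B ∧ TB (StrongDual ℝ E) η B)
    (q : ℝ) (hq1 : 1 < q) (hq2 : q < 2) : ∃ K : ℝ, 0 < K ∧ USp E q K := by
  by_contra hcon
  push Not at hcon
  obtain ⟨C, B, J, hC, hB, hJ, hCI, -⟩ := typC S E hA hUS hK0 hK hCA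
  obtain ⟨p, Ks, hp1, hp2, hKs, hUSp⟩ := hUS
  obtain ⟨C', c₁, hC', hc₁, hc₁1, hPB⟩ := S.pos2 E J C B K hC hB hJ
    (S.null2 E hW (S.null E hA hW hinf)) hCA
  obtain ⟨b, hb, hiso⟩ := S.iso S.cc S.nm S.con E K p Ks C' c₁ hA hp1 hp2 hKs hUSp hK hLP hPB
  obtain ⟨B2, hB2, hTB2⟩ := hT' (1 / 2) (by norm_num)
  have hCB := S.cot E (1 / 2) B2 (by norm_num) (by norm_num) hB2 hTB2
  obtain ⟨B3, hB3, hTB3⟩ := hT' (c₁ / 2) (by positivity)
  have hCB3 := S.cot E (c₁ / 2) B3 (by positivity) (by linarith) hB3 hTB3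
  set c : ℝ := 1 / B2 with hc
  have hc0 : 0 < c := by positivity
  -- the number `n`
  obtain ⟨n, hn⟩ : ∃ n : ℕ, (512 * 100 ^ 2 / (c * b)) ^ 2 + 200 ≤ n := exists_nat_ge _
  have hn200 : (200 : ℝ) ≤ n := le_trans (by nlinarith [sq_nonneg (512 * 100 ^ 2 / (c * b))]) hn
  have hn0 : (0 : ℝ) < n := by linarith
  have hsn : 512 * 100 ^ 2 / (c * b) ≤ Real.sqrt n := by
    refine Real.le_sqrt_of_sq_le ?_
    linarith
  have hsn0 : 0 < Real.sqrt n := Real.sqrt_pos.2 hn0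
  -- the number `t`
  have h2q : 0 < 2 - q := by linarith
  obtain ⟨t₀, ht₀, ht₀1, ht₀2⟩ : ∃ t₀ : ℝ, 0 < t₀ ∧ t₀ ≤ 1 / 100 ∧
      ∀ t : ℝ, 0 < t → t < t₀ → 3 * n * t ^ (2 - q) ≤ 1 := by
    refine ⟨min (1 / 100) ((1 / (3 * n)) ^ (1 / (2 - q))), by positivity, min_le_left _ _, ?_⟩
    intro t ht htt
    have h1 : t ≤ (1 / (3 * n)) ^ (1 / (2 - q)) := (htt.trans_le (min_le_right _ _)).le
    have h2 : t ^ (2 - q) ≤ ((1 / (3 * n)) ^ (1 / (2 - q))) ^ (2 - q) :=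
      Real.rpow_le_rpow ht.le h1 h2q.le
    rw [← Real.rpow_mul (by positivity), one_div_mul_cancel h2q.ne', Real.rpow_one] at h2
    calc 3 * n * t ^ (2 - q) ≤ 3 * n * (1 / (3 * n)) := by gcongr
      _ = 1 := by field_simp
  obtain ⟨t, κ, x, w, ht, htt, hx, hw, h1, h2, hκ⟩ := S.eq E q hq1 hq2 hcon t₀ ht₀
  have ht2 : t ≤ 1 / 100 := htt.le.trans ht₀1
  have htq : 0 < t ^ q := Real.rpow_pos_of_pos ht q
  have hκ0 : 0 < κ := htq.trans_le hκ
  obtain ⟨k, d, hk, hkκ, hd, hd1, hd2, hd3⟩ := S.walk E hA x w t κ ht ht2 hx hw hκ0 h1 h2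
  have hkq : (k : ℝ) * t ^ q ≤ 3 := by
    have : (k : ℝ) * t ^ q ≤ k * κ := by gcongr
    linarith
  have hk0 : (1 : ℝ) ≤ k := by exact_mod_cast hk
  have hktn : (k : ℝ) * t ^ 2 * n ≤ 1 := by
    have e : t ^ 2 = t ^ q * t ^ (2 - q) := by
      rw [← Real.rpow_add ht]
      norm_num
    rw [e]
    have h3 : 0 < t ^ (2 - q) := Real.rpow_pos_of_pos ht _
    calc (k : ℝ) * (t ^ q * t ^ (2 - q)) * n = (k * t ^ q) * (n * t ^ (2 - q)) := by ring
      _ ≤ 3 * (n * t ^ (2 - q)) := by gcongr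
      _ = 3 * n * t ^ (2 - q) := by ring
      _ ≤ 1 := ht₀2 t ht htt
  -- the constants
  set A : ℝ := (k : ℝ) ^ 2 * t ^ 2 * n * 100 with hAdef
  have hA0 : 0 < A := by positivity
  set β : ℝ := Real.sqrt b with hβ
  have hβ0 : 0 < β := Real.sqrt_pos.2 hb
  have hβ2 : β ^ 2 = b := Real.sq_sqrt hb.le
  obtain ⟨a, ha, hCIa⟩ := hCI (β / (8 * A)) (by positivity)
  -- the number `M`
  obtain ⟨M, hM1, hM⟩ : ∃ M : ℕ, 1 ≤ M ∧
      (16 * A * a) ^ 2 * 100 ^ 2 * C' * B3 / b ^ 2 ≤ (M : ℝ) ^ (c₁ / 2) := by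
    have h3 : Filter.Tendsto (fun M : ℕ => (M : ℝ) ^ (c₁ / 2)) Filter.atTop Filter.atTop :=
      (tendsto_rpow_atTop (by positivity)).comp tendsto_natCast_atTop_atTop
    obtain ⟨M, hM1, hM2⟩ := ((Filter.eventually_ge_atTop 1).and
      (h3.eventually_ge_atTop ((16 * A * a) ^ 2 * 100 ^ 2 * C' * B3 / b ^ 2))).exists
    exact ⟨M, hM1, hM2⟩
  have hM0 : (0 : ℝ) < M := by exact_mod_cast hM1
  -- the finite sets
  classical
  let Z : Finset E := (Finset.univ : Finset ((Fin k → Bool) × Option (Fin k))).image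
    fun ω => (1 / 100 : ℝ) • uv k (1 / t) d ω
  have hZ : ∀ u ∈ Z, ‖u‖ ≤ 1 := by
    intro u hu
    obtain ⟨ω, -, rfl⟩ := Finset.mem_image.1 hu
    rw [norm_smul, Real.norm_of_nonneg (by norm_num)]
    have : ‖uv k (1 / t) d ω‖ ≤ 100 := by
      rcases ω with ⟨ε, _ | i⟩
      · exact hd3 ε
      · show ‖(1 / t) • d i ε‖ ≤ 100
        rw [norm_smul, Real.norm_of_nonneg (by positivity), one_div, inv_mul_le_iff₀ ht]
        linarith [hd1 i ε]
    linarith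
  -- the unit vectors
  let V : (Fin k → Bool) → E := fun ε => ∑ i, sg (ε i) • d i ε
  let i₀ : Fin k := ⟨0, hk⟩
  have hV1 : ∀ ε, 1 ≤ ‖V ε‖ := hd2
  let nv : E → E := fun v => if v = 0 then (‖V fun _ => true‖⁻¹) • V fun _ => true else ‖v‖⁻¹ • v
  have hnv : ∀ v, ‖nv v‖ = 1 := by
    intro v
    by_cases hv : v = 0
    · simp only [nv, hv, if_true]
      rw [norm_smul, norm_inv, norm_norm, inv_mul_cancel₀]
      linarith [hV1 fun _ => true]
    · simp only [nv, hv, if_false]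
      rw [norm_smul, norm_inv, norm_norm, inv_mul_cancel₀ (norm_ne_zero_iff.2 hv)]
  have hnv2 : ∀ v, v = ‖v‖ • nv v := by
    intro v
    by_cases hv : v = 0
    · simp [hv]
    · simp only [nv, hv, if_false]
      rw [smul_smul, mul_inv_cancel₀ (norm_ne_zero_iff.2 hv), one_smul]
  let Y : Finset E := ((Finset.univ : Finset (Fin k → Bool)).image fun ε => nv (V ε)) ∪
    ((Finset.univ : Finset (Fin k × (Fin k → Bool))).image fun p => nv (d p.1 p.2))
  have hY : ∀ u ∈ Y, ‖u‖ = 1 := by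
    intro u hu
    rcases Finset.mem_union.1 hu with h | h <;> obtain ⟨ω, -, rfl⟩ := Finset.mem_image.1 h <;>
      exact hnv _
  have hYV : ∀ ε, nv (V ε) ∈ Y := fun ε =>
    Finset.mem_union_left _ (Finset.mem_image.2 ⟨ε, Finset.mem_univ _, rfl⟩)
  have hYd : ∀ i ε, nv (d i ε) ∈ Y := fun i ε =>
    Finset.mem_union_right _ (Finset.mem_image.2 ⟨(i, ε), Finset.mem_univ _, rfl⟩)
  obtain ⟨T, Φ, hΦ, hPT, hT⟩ := hiso Z Y hZ hY M hM1
  -- lower bound of `Φ`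
  have hΦM : 1 / B3 * (M : ℝ) ^ (1 - c₁ / 2) ≤ Φ := by
    have h3 := (hT (fun _ => nv (V fun _ => true)) fun _ => hYV _).2
    have h4 := hCB3 (Fin M) Finset.univ (fun j => T j (nv (V fun _ => true))) fun j _ => by
      rw [LinearIsometryEquiv.norm_map, hnv]
    rw [Finset.card_univ, Fintype.card_fin] at h4
    exact h4.trans h3
  set σ : ℝ := 100 * Real.sqrt (C' * (M : ℝ) ^ (1 - c₁)) with hσdef
  have hσ0 : 0 ≤ σ := by positivity
  have hσ2 : σ ^ 2 = 100 ^ 2 * (C' * (M : ℝ) ^ (1 - c₁)) := by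
    rw [hσdef, mul_pow, Real.sq_sqrt (by positivity)]
  have hσ : ∀ g : StrongDual ℝ E, ‖g‖ ≤ 1 → ∀ ω : Fin M → (Fin k → Bool) × Option (Fin k),
      ∑ j, (g (T j (uv k (1 / t) d (ω j)))) ^ 2 ≤ σ ^ 2 := by
    intro g hg ω
    have e1 := hPT g hg (fun j => (1 / 100 : ℝ) • uv k (1 / t) d (ω j)) fun j =>
      Finset.mem_image.2 ⟨ω j, Finset.mem_univ _, rfl⟩
    have e2 : ∑ j, (g (T j ((1 / 100 : ℝ) • uv k (1 / t) d (ω j)))) ^ 2 =
        (1 / 100) ^ 2 * ∑ j, (g (T j (uv k (1 / t) d (ω j)))) ^ 2 := by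
      rw [Finset.mul_sum]
      refine Finset.sum_congr rfl fun j _ => ?_
      rw [map_smul, map_smul, smul_eq_mul, mul_pow]
    rw [e2] at e1
    rw [hσ2]
    linarith
  -- averages of the vectors of the walk
  have hlow : ∀ ω : Fin M → Fin k → Bool, b * Φ ≤ av (fun s : Fin M → Bool =>
      ‖∑ j, sg (s j) • T j (∑ i, sg (ω j i) • d i (ω j))‖ ^ 2) := by
    intro ω
    have h3 := (hT (fun j => nv (V (ω j))) fun j => hYV _).1
    have h4 := S.con E (Fin M) (fun j => ‖V (ω j)‖⁻¹) (fun j => T j (V (ω j))) 1 zero_le_one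
      (fun j => by
        rw [abs_of_nonneg (by positivity)]
        exact inv_le_one_of_one_le₀ (hV1 _))
    have e : (fun s : Fin M → Bool => ‖∑ j, sg (s j) • (‖V (ω j)‖⁻¹ • T j (V (ω j)))‖ ^ 2) =
        fun s : Fin M → Bool => ‖∑ j, sg (s j) • T j (nv (V (ω j)))‖ ^ 2 := by
      funext s
      congr 2
      refine Finset.sum_congr rfl fun j _ => ?_
      have h5 : V (ω j) ≠ 0 := by
        intro h
        have := hV1 (ω j)
        rw [h, norm_zero] at this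
        linarith
      simp only [nv, h5, if_false]
      rw [map_smul]
    rw [e, one_pow, one_mul] at h4
    exact h3.trans h4
  have hup : ∀ (i : Fin M → Fin k) (ω : Fin M → Fin k → Bool), av (fun s : Fin M → Bool =>
      ‖∑ j, sg (s j) • T j (d (i j) (ω j))‖ ^ 2) ≤ (100 * t) ^ 2 * Φ := by
    intro i ω
    have h3 := (hT (fun j => nv (d (i j) (ω j))) fun j => hYd _ _).2
    have h4 := S.con E (Fin M) (fun j => ‖d (i j) (ω j)‖) (fun j => T j (nv (d (i j) (ω j))))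
      (100 * t) (by positivity) (fun j => by
        rw [abs_of_nonneg (norm_nonneg _)]
        exact hd1 _ _)
    have e : (fun s : Fin M → Bool => ‖∑ j, sg (s j) •
          (‖d (i j) (ω j)‖ • T j (nv (d (i j) (ω j))))‖ ^ 2) =
        fun s : Fin M → Bool => ‖∑ j, sg (s j) • T j (d (i j) (ω j))‖ ^ 2 := by
      funext s
      congr 2
      refine Finset.sum_congr rfl fun j _ => ?_
      rw [← map_smul, ← hnv2]
    rw [e] at h4
    refine h4.trans ?_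
    gcongr
  obtain ⟨L, hL0, hL1, hL2⟩ := S.m1c S.uc2 S.cbs S.sub E J (β / (8 * A)) a (by positivity) ha
    hCIa hJ.self hJ.bd c hc0 hCB k M n t σ 100 Φ b d T hk hM1 (by norm_num) (by linarith) ht
    (by linarith) hktn hσ0 hΦ hb hd hd1 hd2 hσ hlow hup
  -- the contradiction
  set φ : ℝ := Real.sqrt Φ with hφ
  have hφ0 : 0 < φ := Real.sqrt_pos.2 hΦ
  have hφ2 : φ ^ 2 = Φ := Real.sq_sqrt hΦ.le
  have hφL : β * φ ≤ 2 * L := by
    have h3 : (β * φ) ^ 2 ≤ (2 * L) ^ 2 := by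
      rw [mul_pow, hβ2, hφ2]
      nlinarith
    exact (abs_le_of_sq_le_sq' h3 (by positivity)).2
  -- first term
  have e1 : Real.sqrt (2 / (c * Real.sqrt n) * Φ) ≤ β / (16 * 100) * φ := by
    rw [Real.sqrt_le_left (by positivity)]
    rw [mul_pow, hφ2, div_pow, hβ2]
    have h3 : 2 / (c * Real.sqrt n) ≤ b / (16 * 100) ^ 2 := by
      rw [div_le_div_iff₀ (by positivity) (by norm_num)]
      rw [div_le_iff₀ (by positivity)] at hsn
      nlinarith
    gcongr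
  have k1 : 2 * L * (100 * Real.sqrt (2 / (c * Real.sqrt n) * Φ)) ≤ L ^ 2 / 4 := by
    calc 2 * L * (100 * Real.sqrt (2 / (c * Real.sqrt n) * Φ)) ≤
        2 * L * (100 * (β / (16 * 100) * φ)) := by gcongr
      _ = L * (β * φ) / 8 := by ring
      _ ≤ L * (2 * L) / 8 := by gcongr
      _ = L ^ 2 / 4 := by ring
  -- second term
  have k2 : A * φ * (β / (8 * A) * L) ≤ L ^ 2 / 4 := by
    calc A * φ * (β / (8 * A) * L) = β * φ * L / 8 := by field_simp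
      _ ≤ 2 * L * L / 8 := by gcongr
      _ = L ^ 2 / 4 := by ring
  -- third term
  have k3 : A * φ * (a * σ) ≤ L ^ 2 / 4 := by
    have h3 : (16 * A * a * σ) ^ 2 ≤ (b * φ) ^ 2 := by
      rw [mul_pow, hσ2, mul_pow b, hφ2]
      rw [div_le_iff₀ (by positivity)] at hM
      have h4 : (M : ℝ) ^ (1 - c₁ / 2) = (M : ℝ) ^ (c₁ / 2) * (M : ℝ) ^ (1 - c₁) := by
        rw [← Real.rpow_add hM0]
        congr 1
        ring
      have h5 : 0 < (M : ℝ) ^ (1 - c₁) := Real.rpow_pos_of_pos hM0 _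
      have h6 : (M : ℝ) ^ (1 - c₁ / 2) ≤ B3 * Φ := by
        rw [one_div, inv_mul_le_iff₀ hB3] at hΦM
        exact hΦM
      have h7 : (16 * A * a) ^ 2 * 100 ^ 2 * C' * B3 * (M : ℝ) ^ (1 - c₁) ≤ b ^ 2 * (B3 * Φ) := by
        calc (16 * A * a) ^ 2 * 100 ^ 2 * C' * B3 * (M : ℝ) ^ (1 - c₁) ≤
            (M : ℝ) ^ (c₁ / 2) * b ^ 2 * (M : ℝ) ^ (1 - c₁) := by gcongr
          _ = b ^ 2 * ((M : ℝ) ^ (c₁ / 2) * (M : ℝ) ^ (1 - c₁)) := by ring
          _ = b ^ 2 * (M : ℝ) ^ (1 - c₁ / 2) := by rw [h4]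
          _ ≤ b ^ 2 * (B3 * Φ) := by gcongr
      have h8 : B3 * ((16 * A * a) ^ 2 * (100 ^ 2 * (C' * (M : ℝ) ^ (1 - c₁)))) ≤
          B3 * (b ^ 2 * Φ) := by linarith
      exact le_of_mul_le_mul_left h8 hB3
    have h4 : 16 * A * a * σ ≤ b * φ := (abs_le_of_sq_le_sq' h3 (by positivity)).2
    have h5 : φ * (16 * A * a * σ) ≤ φ * (b * φ) := by gcongr
    have h6 : φ * (b * φ) = b * Φ := by rw [← hφ2]; ring
    nlinarith
  have k4 : ((k : ℝ) ^ 2 * t * n) * (100 * t * φ) = A * φ := by rw [hAdef]; ring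
  rw [k4] at hL2
  nlinarith [mul_pos hL0 hL0]

/-- `TB` for the double dual -/
lemma tb_bidual {E : Type} [NormedAddCommGroup E] [NormedSpace ℝ E]
    (hs : Function.Surjective (NormedSpace.inclusionInDoubleDual ℝ E)) {η B : ℝ}
    (h : TB E η B) : TB (StrongDual ℝ (StrongDual ℝ E)) η B := by
  intro ι _ _ D z hz
  choose y hy using fun j => hs (z j)
  have hn : ∀ a : E, ‖NormedSpace.inclusionInDoubleDual ℝ E a‖ = ‖a‖ := fun a =>
    (NormedSpace.inclusionInDoubleDualLi ℝ (E := E)).norm_map a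
  have h1 := h ι D y fun j hj => by rw [← hn, hy]; exact hz j hj
  refine le_trans (le_of_eq ?_) h1
  congr 1
  funext s
  rw [← hn, map_sum]
  congr 2
  refine Finset.sum_congr rfl fun j _ => ?_
  rw [map_smul, hy]

/-- the parallelogram identity -/
theorem mainC (S : Stubs4) (E : Type) [NormedAddCommGroup E] [NormedSpace ℝ E] [CompleteSpace E]
    [TopologicalSpace.SeparableSpace E] [TopologicalSpace.SeparableSpace (StrongDual ℝ E)]
    (hA : AT E) (hinf : ¬ FiniteDimensional ℝ E)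
    (hUS : US E) (hUC : UC E) {K : E →L[ℝ] E} (hKc : IsCompactOperator K)
    (hK : ∀ y, ‖y - K y‖ ≤ ‖y‖)
    (hx : ∃ (x : E) (a b : ℝ), x ≠ 0 ∧ b ≠ 0 ∧ K (K x) + a • K x + b • x = 0) (x y : E) :
    ‖x + y‖ * ‖x + y‖ + ‖x - y‖ * ‖x - y‖ = 2 * (‖x‖ * ‖x‖ + ‖y‖ * ‖y‖) := by
  have hnt : Nontrivial E := by
    by_contra h
    rw [not_nontrivial_iff_subsingleton] at h
    exact hinf inferInstance
  have hK0 : K ≠ 0 := by
    rintro rfl
    obtain ⟨x, a, b, hx, hb, h⟩ := hx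
    simp only [_root_.zero_apply, smul_zero, add_zero, zero_add, smul_eq_zero] at h
    tauto
  have wsc : ∀ (F : Type) [NormedAddCommGroup F] [NormedSpace ℝ F] [CompleteSpace F],
      UC F → Sep F → WSC F := by
    intro F _ _ _ ⟨q, c, hq, hc, h⟩ hS
    exact wsc_of_uw (uw_of_reflexive (reflexive_of_UCq (by linarith) hc h)) hS
  have hr : Function.Surjective (NormedSpace.inclusionInDoubleDual ℝ E) := by
    obtain ⟨q, c, hq, hc, h⟩ := hUC
    exact reflexive_of_UCq (by linarith) hc h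
  have hUS' := hUS
  obtain ⟨p, Ks, hp1, hp2, hKs0, hUSp⟩ := hUS'
  -- the dual
  have hUCd : UC (StrongDual ℝ E) := by
    obtain ⟨c, hc, h⟩ := S.duc E (StrongDual ℝ E) LinearIsometry.id p Ks hp1 hp2 hKs0 hUSp
    refine ⟨p / (p - 1), c, ?_, hc, h⟩
    rw [le_div_iff₀ (by linarith)]
    linarith
  have hWE : WSC E := wsc E hUC sep_of_separable
  have hWd : WSC (StrongDual ℝ E) := wsc _ hUCd (sep_dual E)
  have hadj : ∀ (g : StrongDual ℝ E) (y : E), adj K g y = g (K y) := fun g y => by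
    rw [adj, ContinuousLinearMap.flip_apply, ContinuousLinearMap.compL_apply,
      ContinuousLinearMap.comp_apply]
  have hKd : ∀ g : StrongDual ℝ E, ‖g - adj K g‖ ≤ ‖g‖ := by
    intro g
    refine ContinuousLinearMap.opNorm_le_bound _ (norm_nonneg _) fun y => ?_
    rw [_root_.sub_apply, hadj, ← map_sub]
    exact (g.le_opNorm _).trans (mul_le_mul_of_nonneg_left (hK y) (norm_nonneg _))
  have hKd0 : adj K ≠ 0 := by
    intro h
    apply hK0
    ext y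
    show K y = 0
    refine NormedSpace.eq_zero_of_forall_dual_eq_zero ℝ fun g => ?_
    rw [← hadj, h]
    rfl
  have hCA : CA K := S.cae E K hKc
  have hCAd : CA (adj K) := S.cad E K hKc
  have hLP : LP E K := S.lpx S.riesz S.irr2 E hinf hA K hKc hK hx
  have hAd : AT (StrongDual ℝ E) := S.dat E hA hUS
  have hUSd : US (StrongDual ℝ E) := S.dus E hUC
  have hntd : Nontrivial (StrongDual ℝ E) := inferInstance
  obtain ⟨-, -, -, -, -, -, -, hT⟩ := typC S E hA hUS hK0 hK hCA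
  obtain ⟨-, -, -, -, -, -, -, hT'⟩ := typC S (StrongDual ℝ E) hAd hUSd hKd0 hKd hCAd
  have k1 := keyC S E hA hWE hinf hUS hK0 hK hCA hLP hT'
  have k2 := keyC S (StrongDual ℝ E) hAd hWd (inf_dual E hinf) hUSd hKd0 hKd hCAd
    (S.lpd E K hr hLP) fun η hη => by
      obtain ⟨B, hB, h⟩ := hT η hη
      exact ⟨B, hB, tb_bidual hr h⟩
  refine main_near hA hinf (fun η h0 h1 => k1 (2 - η) (by linarith) (by linarith))
    (fun η h0 h1 => ?_) ?_ x y
  · obtain ⟨K', hK', h⟩ := k2 ((2 + η) / (1 + η)) (by rw [lt_div_iff₀ (by linarith)]; linarith)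
      (by rw [div_lt_iff₀ (by linarith)]; linarith)
    obtain ⟨c, hc, h⟩ := S.duc (StrongDual ℝ E) E (NormedSpace.inclusionInDoubleDualLi ℝ)
      ((2 + η) / (1 + η)) K' (by rw [lt_div_iff₀ (by linarith)]; linarith)
      (by rw [div_le_iff₀ (by linarith)]; linarith) hK' h
    refine ⟨c, hc, ?_⟩
    have e : (2 + η) / (1 + η) / ((2 + η) / (1 + η) - 1) = 2 + η := by
      field_simp
      ring
    rwa [e] at h
  · refine opialL_of_seq hA hnt fun c hc => ⟨K, hKc, ?_⟩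
    have h1 : ‖ContinuousLinearMap.id ℝ E - K‖ ≤ 1 :=
      ContinuousLinearMap.opNorm_le_bound _ zero_le_one fun y => by
        rw [one_mul]
        exact hK y
    have h2 : 0 < c * ‖K‖ := mul_pos hc (norm_pos_iff.2 hK0)
    linarith

end Pool.Agent.H65.BM
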