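import Mathlib

/-!
# Project BM: compact operators on real Banach spaces which are not quasinilpotent
-/

set_option autoImplicit false

namespace Pool.Agent.H65.BM

open Filter Topology

variable {E : Type} [NormedAddCommGroup E] [NormedSpace ℝ E]

/-- composition with `K` on the complex functionals -/
noncomputable def lam (K : E →L[ℝ] E) : (E →L[ℝ] ℂ) →L[ℂ] (E →L[ℝ] ℂ) :=
  LinearMap.mkContinuous
    { toFun := fun ψ => ψ.comp K
      map_add' := fun ψ ψ' => by ext x; simp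
      map_smul' := fun c ψ => by ext x; simp } ‖K‖ fun ψ => by
    show ‖ψ.comp K‖ ≤ ‖K‖ * ‖ψ‖
    rw [mul_comm]
    exact ψ.opNorm_comp_le K

lemma lam_apply (K : E →L[ℝ] E) (ψ : E →L[ℝ] ℂ) : lam K ψ = ψ.comp K := rfl

lemma norm_lam (K : E →L[ℝ] E) : ‖lam K‖ = ‖K‖ := by
  refine le_antisymm (LinearMap.mkContinuous_norm_le _ (norm_nonneg _) _) ?_
  refine ContinuousLinearMap.opNorm_le_bound K (norm_nonneg (lam K)) fun x => ?_
  by_cases h0 : K x = 0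
  · rw [h0, norm_zero]
    positivity
  obtain ⟨g, hg, hg1⟩ := exists_dual_vector ℝ (K x) (norm_ne_zero_iff.2 h0)
  set ψ : E →L[ℝ] ℂ := Complex.ofRealCLM.comp g with hψ
  have h1 : ‖ψ‖ ≤ 1 := by
    refine ContinuousLinearMap.opNorm_le_bound _ zero_le_one fun y => ?_
    show ‖((g y : ℝ) : ℂ)‖ ≤ 1 * ‖y‖
    rw [Complex.norm_real]
    calc ‖g y‖ ≤ ‖g‖ * ‖y‖ := g.le_opNorm y
      _ = 1 * ‖y‖ := by rw [hg]
  have h2 : ‖K x‖ = ‖(lam K ψ) x‖ := by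
    show ‖K x‖ = ‖((g (K x) : ℝ) : ℂ)‖
    rw [Complex.norm_real, hg1]
    simp
  calc ‖K x‖ = ‖(lam K ψ) x‖ := h2
    _ ≤ ‖lam K ψ‖ * ‖x‖ := (lam K ψ).le_opNorm x
    _ ≤ (‖lam K‖ * ‖ψ‖) * ‖x‖ := by
        gcongr
        exact (lam K).le_opNorm ψ
    _ ≤ (‖lam K‖ * 1) * ‖x‖ := by gcongr
    _ = ‖lam K‖ * ‖x‖ := by rw [mul_one]

lemma lam_pow (K : E →L[ℝ] E) (n : ℕ) : lam K ^ n = lam (K ^ n) := by
  induction n with
  | zero =>
    ext ψ x
    rfl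
  | succ n ih =>
    rw [pow_succ, ih]
    ext ψ x
    show (ψ.comp K).comp (K ^ n) x = ψ.comp (K ^ (n + 1)) x
    rw [pow_succ']
    rfl

lemma spec_gen {X : Type} [NormedAddCommGroup X] [NormedSpace ℂ X] [CompleteSpace X] [Nontrivial X]
    (L : X →L[ℂ] X) (h : ¬ Tendsto (fun n : ℕ => ‖L ^ n‖ ^ (1 / (n : ℝ))) atTop (𝓝 0)) :
    ∃ μ : ℂ, μ ≠ 0 ∧ ¬ IsUnit (L - μ • (1 : X →L[ℂ] X)) := by
  have hlim := spectrum.pow_norm_pow_one_div_tendsto_nhds_spectralRadius L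
  have hr : spectralRadius ℂ L ≠ 0 := by
    intro h0
    apply h
    rw [h0] at hlim
    have h1 : Tendsto (fun n : ℕ => (ENNReal.ofReal (‖L ^ n‖ ^ (1 / (n : ℝ)))).toReal) atTop
        (𝓝 (0 : ENNReal).toReal) := (ENNReal.tendsto_toReal ENNReal.zero_ne_top).comp hlim
    refine h1.congr fun n => ?_
    rw [ENNReal.toReal_ofReal (by positivity)]
  obtain ⟨μ, hμ, hμr⟩ := spectrum.exists_nnnorm_eq_spectralRadius L
  refine ⟨μ, ?_, fun h2 => ?_⟩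
  · rintro rfl
    apply hr
    rw [← hμr]
    simp
  · rw [spectrum.mem_iff] at hμ
    apply hμ
    rw [Algebra.algebraMap_eq_smul_one, ← neg_sub]
    exact h2.neg

/-- compact operators which are not quasinilpotent have an invariant subspace of dimension `≤ 2` on
which they are invertible -/
theorem qnil [CompleteSpace E] [Nontrivial E] {K : E →L[ℝ] E} (hK : IsCompactOperator K)
    (h : ¬ Tendsto (fun n : ℕ => ‖K ^ n‖ ^ (1 / (n : ℝ))) atTop (𝓝 0)) :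
    ∃ (x : E) (a b : ℝ), x ≠ 0 ∧ b ≠ 0 ∧ K (K x) + a • K x + b • x = 0 := by
  have hnt : Nontrivial (E →L[ℝ] ℂ) := by
    obtain ⟨x, hx⟩ := exists_ne (0 : E)
    obtain ⟨g, hg, hg1⟩ := exists_dual_vector ℝ x (norm_ne_zero_iff.2 hx)
    refine ⟨⟨Complex.ofRealCLM.comp g, 0, fun h => ?_⟩⟩
    have h1 : ((g x : ℝ) : ℂ) = 0 := by
      have := congrArg (fun ψ : E →L[ℝ] ℂ => ψ x) h
      simpa using this
    rw [hg1] at h1
    simp at h1
    exact hx h1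
  obtain ⟨μ, hμ0, hμ⟩ := spec_gen (lam K) (fun h1 => h (h1.congr fun n => by
    rw [lam_pow, norm_lam]))
  have hn0 : 0 < Complex.normSq μ := Complex.normSq_pos.2 hμ0
  -- the quadratic polynomial is not invertible
  set q : E →L[ℝ] E := K * K - (2 * μ.re) • K + (Complex.normSq μ) • 1 with hq
  have hqu : ¬ IsUnit q := by
    intro hu
    obtain ⟨R, hR1, hR2⟩ := isUnit_iff_exists.1 hu
    have hfac : (lam K - μ • (1 : (E →L[ℝ] ℂ) →L[ℂ] (E →L[ℝ] ℂ))) * (lam K - (starRingEnd ℂ μ) • (1 : (E →L[ℝ] ℂ) →L[ℂ] (E →L[ℝ] ℂ))) = lam q := by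
      ext ψ x
      have e1 : (lam q ψ) x = ψ (K (K x)) - (2 * μ.re) • ψ (K x) + (Complex.normSq μ) • ψ x := by
        rw [lam_apply]
        show ψ (K (K x) - (2 * μ.re) • K x + (Complex.normSq μ) • x) = _
        rw [map_add, map_sub, map_smul, map_smul]
      have e2 : (((lam K - μ • (1 : (E →L[ℝ] ℂ) →L[ℂ] (E →L[ℝ] ℂ))) * (lam K - (starRingEnd ℂ μ) • (1 : (E →L[ℝ] ℂ) →L[ℂ] (E →L[ℝ] ℂ)))) ψ) x =
          (ψ (K (K x)) - starRingEnd ℂ μ * ψ (K x)) - μ * (ψ (K x) - starRingEnd ℂ μ * ψ x) := rfl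
      rw [e1, e2, Complex.real_smul, Complex.real_smul]
      have e3 : ((Complex.normSq μ : ℝ) : ℂ) = starRingEnd ℂ μ * μ := Complex.normSq_eq_conj_mul_self
      have e4 : ((2 * μ.re : ℝ) : ℂ) = μ + starRingEnd ℂ μ := by
        rw [Complex.add_conj]
      rw [e3, e4]
      ring
    have hmul : ∀ A B : E →L[ℝ] E, lam (A * B) = lam B * lam A := fun A B => by
      ext ψ x; rfl
    have hone : lam (1 : E →L[ℝ] E) = 1 := by
      ext ψ x; rfl
    have hqU : IsUnit (lam q) := by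
      refine isUnit_iff_exists.2 ⟨lam R, ?_, ?_⟩
      · rw [← hmul, hR2, hone]
      · rw [← hmul, hR1, hone]
    rw [← hfac] at hqU
    have hfac2 : (lam K - (starRingEnd ℂ μ) • (1 : (E →L[ℝ] ℂ) →L[ℂ] (E →L[ℝ] ℂ))) * (lam K - μ • (1 : (E →L[ℝ] ℂ) →L[ℂ] (E →L[ℝ] ℂ))) = (lam K - μ • (1 : (E →L[ℝ] ℂ) →L[ℂ] (E →L[ℝ] ℂ))) * (lam K - (starRingEnd ℂ μ) • (1 : (E →L[ℝ] ℂ) →L[ℂ] (E →L[ℝ] ℂ))) := by
      ext ψ x
      show (ψ (K (K x)) - μ * ψ (K x)) - starRingEnd ℂ μ * (ψ (K x) - μ * ψ x) = (ψ (K (K x)) - starRingEnd ℂ μ * ψ (K x)) - μ * (ψ (K x) - starRingEnd ℂ μ * ψ x)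
      ring
    have h2 : IsUnit (lam K - μ • (1 : (E →L[ℝ] ℂ) →L[ℂ] (E →L[ℝ] ℂ))) := by
      have hc : Commute (lam K - μ • (1 : (E →L[ℝ] ℂ) →L[ℂ] (E →L[ℝ] ℂ))) (lam K - (starRingEnd ℂ μ) • (1 : (E →L[ℝ] ℂ) →L[ℂ] (E →L[ℝ] ℂ))) := hfac2.symm
      exact (hc.isUnit_mul_iff.1 hqU).1
    exact hμ h2
  -- the compact operator
  set b : ℝ := Complex.normSq μ with hb
  set A : E →L[ℝ] E := (-b⁻¹) • (K * K - (2 * μ.re) • K) with hA
  have hAc : IsCompactOperator A := by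
    have h1 : IsCompactOperator (K * K : E →L[ℝ] E) := hK.comp_clm K
    have h2 : IsCompactOperator ((2 * μ.re) • K : E →L[ℝ] E) := hK.smul (2 * μ.re)
    exact (h1.sub h2).smul (-b⁻¹)
  have hqA : q = b • (1 - A) := by
    rw [hq, hA, smul_sub, smul_smul, mul_neg, mul_inv_cancel₀ hn0.ne', neg_one_smul, sub_neg_eq_add]
    abel
  rcases hAc.hasEigenvalue_or_mem_resolventSet (one_ne_zero (α := ℝ)) with he | he
  · obtain ⟨x, hx⟩ := he.exists_hasEigenvector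
    refine ⟨x, -(2 * μ.re), b, hx.2, hn0.ne', ?_⟩
    have h1 : A x = x := by
      have := hx.apply_eq_smul
      simpa using this
    have h2 : A x = (-b⁻¹) • (K (K x) - (2 * μ.re) • K x) := rfl
    rw [h2] at h1
    have h3 : b • x = -(K (K x) - (2 * μ.re) • K x) := by
      rw [← h1, smul_smul, mul_neg, mul_inv_cancel₀ hn0.ne', neg_one_smul, h1]
    rw [h3]
    module
  · exfalso
    apply hqu
    rw [spectrum.mem_resolventSet_iff, map_one] at he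
    rw [hqA]
    exact he.smul (Units.mk0 b hn0.ne')

end Pool.Agent.H65.BM
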