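import Pool.Agent.H65.BM.S5
import Pool.Agent.H65.BM.Asm4
import Pool.Agent.H65.BM.QNIL

/-!
# Project BM, fifth wave: assembly
-/

set_option autoImplicit false

namespace Pool.Agent.H65.BM

open Pool.Agent.N314.OP Pool.Agent.N314.OP.Mod Filter Topology

/-- the stubs of the fifth wave -/
structure Stubs5 : Prop where
  eff : S_EFF
  neu : S_NEU
  gen : S_GEN
  sfp : S_SFP
  lom : S_LOM
  lpy : S_LPY

section

variable {E : Type} [NormedAddCommGroup E] [NormedSpace ℝ E]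

lemma cjo_apply (g : E ≃ₗᵢ[ℝ] E) (A : E →L[ℝ] E) (x : E) : cjo g A x = g (A (g.symm x)) := rfl

lemma ak_calg (K : E →L[ℝ] E) : CAlg E (AK K) where
  mul a ha b hb := by
    rw [AK, Submodule.mem_sInf] at *
    exact fun 𝒜 h => h.1.mul a (ha 𝒜 h) b (hb 𝒜 h)
  conj g a ha := by
    rw [AK, Submodule.mem_sInf] at *
    exact fun 𝒜 h => h.1.conj g a (ha 𝒜 h)

lemma mem_ak (K : E →L[ℝ] E) : K ∈ AK K := by
  rw [AK, Submodule.mem_sInf]
  exact fun 𝒜 h => h.2

/-- the compact operators -/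
def compactOps (E : Type) [NormedAddCommGroup E] [NormedSpace ℝ E] :
    Submodule ℝ (E →L[ℝ] E) where
  carrier := {a | IsCompactOperator a}
  add_mem' ha hb := ha.add hb
  zero_mem' := isCompactOperator_zero
  smul_mem' c _ ha := ha.smul c

lemma ak_compact {K : E →L[ℝ] E} (hK : IsCompactOperator K) : ∀ a ∈ AK K, IsCompactOperator a := by
  have h : CAlg E (compactOps E) := by
    refine ⟨fun a ha b hb => ?_, fun g a ha => ?_⟩
    · exact IsCompactOperator.comp_clm ha b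
    · exact (IsCompactOperator.comp_clm ha
        (g.symm.toContinuousLinearEquiv : E →L[ℝ] E)).clm_comp
        (g.toContinuousLinearEquiv : E →L[ℝ] E)
  intro a ha
  rw [AK, Submodule.mem_sInf] at ha
  exact ha _ ⟨h, hK⟩

end

/-- the algebra contains an operator with the eigenvalue `1` -/
theorem irrK (S : Stubs5) (E : Type) [NormedAddCommGroup E] [NormedSpace ℝ E] [CompleteSpace E]
    [TopologicalSpace.SeparableSpace E] (hT : Tr E) {K : E →L[ℝ] E}
    (hKc : IsCompactOperator K) (hK0 : K ≠ 0) : ∃ A ∈ AK K, ∃ x : E, x ≠ 0 ∧ A x = x := by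
  have hnt : Nontrivial E := by
    obtain ⟨x, hx⟩ : ∃ x, K x ≠ 0 := by
      by_contra h
      push Not at h
      exact hK0 (ContinuousLinearMap.ext h)
    exact ⟨⟨K x, 0, hx⟩⟩
  by_contra hcon
  push Not at hcon
  have hC := ak_calg K
  -- all operators of the algebra are quasinilpotent
  have hq : ∀ a ∈ AK K, Tendsto (fun n : ℕ => ‖a ^ n‖ ^ (1 / (n : ℝ))) atTop (𝓝 0) := by
    intro a ha
    by_contra hq
    obtain ⟨x, α, β, hx, hβ, h⟩ := qnil (ak_compact hKc a ha) hq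
    have hA : (-β⁻¹) • (a.comp a + α • a) ∈ AK K :=
      Submodule.smul_mem _ _ (Submodule.add_mem _ (hC.mul a ha a ha) (Submodule.smul_mem _ _ ha))
    refine hcon _ hA x hx ?_
    show (-β⁻¹) • (a (a x) + α • a x) = x
    rw [eq_neg_of_add_eq_zero_left h, smul_neg, neg_smul, neg_neg, smul_smul, inv_mul_cancel₀ hβ,
      one_smul]
  obtain ⟨Y, hYc, hY0, hYi, hYd⟩ := S.gen S.eff S.neu E hT (AK K) hC ⟨K, mem_ak K, hK0⟩ hq
  have hYcs : CompleteSpace Y := hYc.completeSpace_coe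
  have hYnt : Nontrivial Y := Submodule.nontrivial_iff_ne_bot.2 hY0
  -- the restricted operators
  let 𝒜 : Submodule ℝ (Y →L[ℝ] Y) :=
    { carrier := {b | ∃ a ∈ AK K, ∀ y : Y, ((b y : Y) : E) = a y}
      add_mem' := by
        rintro b b' ⟨a, ha, h⟩ ⟨a', ha', h'⟩
        exact ⟨a + a', Submodule.add_mem _ ha ha', fun y => by
          show ((b y + b' y : Y) : E) = a y + a' y
          rw [Submodule.coe_add, h, h']⟩
      zero_mem' := ⟨0, Submodule.zero_mem _, fun y => rfl⟩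
      smul_mem' := by
        rintro c b ⟨a, ha, h⟩
        exact ⟨c • a, Submodule.smul_mem _ _ ha, fun y => by
          show ((c • b y : Y) : E) = c • a y
          rw [Submodule.coe_smul, h]⟩ }
  have hmem : ∀ b : Y →L[ℝ] Y, b ∈ 𝒜 ↔ ∃ a ∈ AK K, ∀ y : Y, ((b y : Y) : E) = a y :=
    fun b => Iff.rfl
  have hres : ∀ a ∈ AK K, ∃ b ∈ 𝒜, ∀ y : Y, ((b y : Y) : E) = a y := by
    intro a ha
    refine ⟨(a.comp Y.subtypeL).codRestrict Y fun y => hYi a ha y y.2, ⟨a, ha, fun y => rfl⟩,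
      fun y => rfl⟩
  obtain ⟨b, ⟨a, ha, hab⟩, y, hy, hby⟩ := S.lom S.sfp Y 𝒜 (by
    rintro b ⟨a, ha, h⟩ b' ⟨a', ha', h'⟩
    refine ⟨a.comp a', hC.mul a ha a' ha', fun y => ?_⟩
    show ((b (b' y) : Y) : E) = a (a' y)
    rw [h, h']) (by
    rintro b ⟨a, ha, h⟩
    have h1 : IsCompactOperator (a.comp Y.subtypeL) := (ak_compact hKc a ha).comp_clm Y.subtypeL
    have h2 := h1.codRestrict (V := Y) (fun y => hYi a ha y y.2) hYc
    have h3 : (b : Y → Y) = Set.codRestrict (a.comp Y.subtypeL) (Y : Set E)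
        (fun y => hYi a ha y y.2) := by
      funext y
      exact Subtype.ext (h y)
    rw [h3]
    exact h2) (by
    intro y hy z ε hε
    obtain ⟨a, ha, h⟩ := hYd y y.2 (fun h => hy (Subtype.ext h)) z z.2 ε hε
    obtain ⟨b, hb, hab⟩ := hres a ha
    refine ⟨b, hb, ?_⟩
    have : ‖b y - z‖ = ‖a (y : E) - z‖ := by
      rw [← hab y]
      rfl
    rwa [this])
  refine hcon a ha y (fun h => hy (Subtype.ext h)) ?_
  rw [← hab y, hby]

/-- the parallelogram identity -/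
theorem mainL (S : Stubs4) (E : Type) [NormedAddCommGroup E] [NormedSpace ℝ E] [CompleteSpace E]
    [TopologicalSpace.SeparableSpace E] [TopologicalSpace.SeparableSpace (StrongDual ℝ E)]
    (hA : AT E) (hinf : ¬ FiniteDimensional ℝ E)
    (hUS : US E) (hUC : UC E) {K : E →L[ℝ] E} (hKc : IsCompactOperator K)
    (hK : ∀ y, ‖y - K y‖ ≤ ‖y‖) (hK0 : K ≠ 0) (hLP : LP E K) (x y : E) :
    ‖x + y‖ * ‖x + y‖ + ‖x - y‖ * ‖x - y‖ = 2 * (‖x‖ * ‖x‖ + ‖y‖ * ‖y‖) := by
  have hnt : Nontrivial E := by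
    by_contra h
    rw [not_nontrivial_iff_subsingleton] at h
    exact hinf inferInstance
  have wsc : ∀ (F : Type) [NormedAddCommGroup F] [NormedSpace ℝ F] [CompleteSpace F],
      UC F → Sep F → WSC F := by
    intro F _ _ _ ⟨q, c, hq, hc, h⟩ hS
    exact wsc_of_uw (uw_of_reflexive (reflexive_of_UCq (by linarith) hc h)) hS
  have hr : Function.Surjective (NormedSpace.inclusionInDoubleDual ℝ E) := by
    obtain ⟨q, c, hq, hc, h⟩ := hUC
    exact reflexive_of_UCq (by linarith) hc h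
  have hUS' := hUS
  obtain ⟨p, Ks, hp1, hp2, hKs0, hUSp⟩ := hUS'
  -- the dual
  have hUCd : UC (StrongDual ℝ E) := by
    obtain ⟨c, hc, h⟩ := S.duc E (StrongDual ℝ E) LinearIsometry.id p Ks hp1 hp2 hKs0 hUSp
    refine ⟨p / (p - 1), c, ?_, hc, h⟩
    rw [le_div_iff₀ (by linarith)]
    linarith
  have hWE : WSC E := wsc E hUC sep_of_separable
  have hWd : WSC (StrongDual ℝ E) := wsc _ hUCd (sep_dual E)
  have hadj : ∀ (g : StrongDual ℝ E) (y : E), adj K g y = g (K y) := fun g y => by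
    rw [adj, ContinuousLinearMap.flip_apply, ContinuousLinearMap.compL_apply,
      ContinuousLinearMap.comp_apply]
  have hKd : ∀ g : StrongDual ℝ E, ‖g - adj K g‖ ≤ ‖g‖ := by
    intro g
    refine ContinuousLinearMap.opNorm_le_bound _ (norm_nonneg _) fun y => ?_
    rw [_root_.sub_apply, hadj, ← map_sub]
    exact (g.le_opNorm _).trans (mul_le_mul_of_nonneg_left (hK y) (norm_nonneg _))
  have hKd0 : adj K ≠ 0 := by
    intro h
    apply hK0
    ext y
    show K y = 0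
    refine NormedSpace.eq_zero_of_forall_dual_eq_zero ℝ fun g => ?_
    rw [← hadj, h]
    rfl
  have hCA : CA K := S.cae E K hKc
  have hCAd : CA (adj K) := S.cad E K hKc
  have hAd : AT (StrongDual ℝ E) := S.dat E hA hUS
  have hUSd : US (StrongDual ℝ E) := S.dus E hUC
  have hntd : Nontrivial (StrongDual ℝ E) := inferInstance
  obtain ⟨-, -, -, -, -, -, -, hT⟩ := typC S E hA hUS hK0 hK hCA
  obtain ⟨-, -, -, -, -, -, -, hT'⟩ := typC S (StrongDual ℝ E) hAd hUSd hKd0 hKd hCAd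
  have k1 := keyC S E hA hWE hinf hUS hK0 hK hCA hLP hT'
  have k2 := keyC S (StrongDual ℝ E) hAd hWd (inf_dual E hinf) hUSd hKd0 hKd hCAd
    (S.lpd E K hr hLP) fun η hη => by
      obtain ⟨B, hB, h⟩ := hT η hη
      exact ⟨B, hB, tb_bidual hr h⟩
  refine main_near hA hinf (fun η h0 h1 => k1 (2 - η) (by linarith) (by linarith))
    (fun η h0 h1 => ?_) ?_ x y
  · obtain ⟨K', hK', h⟩ := k2 ((2 + η) / (1 + η)) (by rw [lt_div_iff₀ (by linarith)]; linarith)
      (by rw [div_lt_iff₀ (by linarith)]; linarith)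
    obtain ⟨c, hc, h⟩ := S.duc (StrongDual ℝ E) E (NormedSpace.inclusionInDoubleDualLi ℝ)
      ((2 + η) / (1 + η)) K' (by rw [lt_div_iff₀ (by linarith)]; linarith)
      (by rw [div_le_iff₀ (by linarith)]; linarith) hK' h
    refine ⟨c, hc, ?_⟩
    have e : (2 + η) / (1 + η) / ((2 + η) / (1 + η) - 1) = 2 + η := by
      field_simp
      ring
    rwa [e] at h
  · refine opialL_of_seq hA hnt fun c hc => ⟨K, hKc, ?_⟩
    have h1 : ‖ContinuousLinearMap.id ℝ E - K‖ ≤ 1 :=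
      ContinuousLinearMap.opNorm_le_bound _ zero_le_one fun y => by
        rw [one_mul]
        exact hK y
    have h2 : 0 < c * ‖K‖ := mul_pos hc (norm_pos_iff.2 hK0)
    linarith


/-- the parallelogram identity for transitive spaces -/
theorem mainT (S : Stubs4) (S5 : Stubs5) (E : Type) [NormedAddCommGroup E] [NormedSpace ℝ E]
    [CompleteSpace E]
    [TopologicalSpace.SeparableSpace E] [TopologicalSpace.SeparableSpace (StrongDual ℝ E)]
    (hA : AT E) (hT : Tr E) (hinf : ¬ FiniteDimensional ℝ E)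
    (hUS : US E) (hUC : UC E) {K : E →L[ℝ] E} (hKc : IsCompactOperator K)
    (hK : ∀ y, ‖y - K y‖ ≤ ‖y‖) (hK0 : K ≠ 0) (x y : E) :
    ‖x + y‖ * ‖x + y‖ + ‖x - y‖ * ‖x - y‖ = 2 * (‖x‖ * ‖x‖ + ‖y‖ * ‖y‖) :=
  mainL S E hA hinf hUS hUC hKc hK hK0
    (S5.lpy S.riesz S.irr2 E hinf hA K hKc hK (irrK S5 E hT hKc hK0)) x y

end Pool.Agent.H65.BM
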