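import Pool.Agent.H65.BM.S2

/-!
# Project BM: separable duals and reflexivity
-/

set_option autoImplicit false

namespace Pool.Agent.H65.BM

open TopologicalSpace

/-- Hahn-Banach: functionals vanishing on a closed subspace -/
theorem exists_vanish {X : Type} [NormedAddCommGroup X] [NormedSpace ℝ X] (V : Submodule ℝ X)
    (hV : IsClosed (V : Set X)) {x : X} (hx : x ∉ V) :
    ∃ f : StrongDual ℝ X, (∀ v ∈ V, f v = 0) ∧ f x ≠ 0 := by
  obtain ⟨f, u, h1, h2⟩ := geometric_hahn_banach_point_closed (E := X) (x := x)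
    (V.convex) hV hx
  have h0 : ∀ v ∈ V, f v = 0 := by
    intro v hv
    by_contra hne
    have h3 := h2 (((u - 1) / f v) • v) (V.smul_mem _ hv)
    rw [map_smul, smul_eq_mul, div_mul_cancel₀ _ hne] at h3
    linarith
  refine ⟨f, h0, ?_⟩
  have h4 := h2 0 V.zero_mem
  rw [map_zero] at h4
  intro h
  rw [h] at h1
  linarith

theorem sepd : S_SEPD := by
  intro E _ _ _
  -- almost norming vectors for a dense sequence of functionals
  have hd := denseRange_denseSeq (StrongDual ℝ E)
  have hex : ∀ n : ℕ, ∃ x : E, ‖x‖ ≤ 1 ∧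
      ‖denseSeq (StrongDual ℝ E) n‖ / 2 ≤ ‖denseSeq (StrongDual ℝ E) n x‖ := by
    intro n
    set h := denseSeq (StrongDual ℝ E) n
    by_cases h0 : ‖h‖ = 0
    · exact ⟨0, by simp, by rw [h0]; simp⟩
    · have hpos : 0 < ‖h‖ := lt_of_le_of_ne (norm_nonneg _) (Ne.symm h0)
      obtain ⟨x, hx1, hx2⟩ := h.exists_lt_apply_of_lt_opNorm (r := ‖h‖ / 2) (by linarith)
      exact ⟨x, hx1.le, hx2.le⟩
  choose x hx1 hx2 using hex
  set V : Submodule ℝ E := (Submodule.span ℝ (Set.range x)).topologicalClosure with hV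
  have hVtop : V = ⊤ := by
    by_contra hne
    obtain ⟨y, hy⟩ : ∃ y, y ∉ V := by
      by_contra hcon
      push Not at hcon
      exact hne (eq_top_iff.2 fun y _ => hcon y)
    obtain ⟨f, hf0, hfy⟩ := exists_vanish V (Submodule.isClosed_topologicalClosure _) hy
    have hf : 0 < ‖f‖ := by
      rw [norm_pos_iff]
      rintro rfl
      exact hfy rfl
    obtain ⟨n, hn⟩ := Metric.denseRange_iff.1 hd f (‖f‖ / 4) (by positivity)
    set h := denseSeq (StrongDual ℝ E) n
    rw [dist_eq_norm] at hn
    have e1 : f (x n) = 0 := hf0 _ (Submodule.le_topologicalClosure _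
      (Submodule.subset_span ⟨n, rfl⟩))
    have e2 : ‖h (x n)‖ ≤ ‖f - h‖ := by
      have : h (x n) = -((f - h) (x n)) := by
        rw [_root_.sub_apply, e1]; ring
      rw [this, norm_neg]
      calc ‖(f - h) (x n)‖ ≤ ‖f - h‖ * ‖x n‖ := (f - h).le_opNorm _
        _ ≤ ‖f - h‖ * 1 := by gcongr; exact hx1 n
        _ = ‖f - h‖ := mul_one _
    have e3 := hx2 n
    have e4 : ‖f‖ ≤ ‖f - h‖ + ‖h‖ := by
      have := norm_add_le (f - h) h
      rwa [sub_add_cancel] at this
    linarith
  have h1 : IsSeparable (Submodule.span ℝ (Set.range x) : Set E) :=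
    (Set.countable_range x).isSeparable.span
  have h2 : IsSeparable (closure (Submodule.span ℝ (Set.range x) : Set E)) := h1.closure
  have h3 : closure (Submodule.span ℝ (Set.range x) : Set E) = Set.univ := by
    have := congrArg (fun W : Submodule ℝ E => (W : Set E)) hVtop
    simpa [hV] using this
  rw [h3] at h2
  exact isSeparable_univ_iff.1 h2

theorem ref : S_REF := by
  intro E _ _ _ _ hr
  have hsurj : Function.Surjective (NormedSpace.inclusionInDoubleDual ℝ E) := by
    set V : Submodule ℝ (StrongDual ℝ (StrongDual ℝ E)) :=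
      LinearMap.range (NormedSpace.inclusionInDoubleDual ℝ E : E →ₗ[ℝ] _) with hV
    have hcl : IsClosed (V : Set (StrongDual ℝ (StrongDual ℝ E))) := by
      have h1 : (V : Set (StrongDual ℝ (StrongDual ℝ E))) =
          Set.range (NormedSpace.inclusionInDoubleDualLi ℝ (E := E)) := rfl
      rw [h1]
      exact ((NormedSpace.inclusionInDoubleDualLi ℝ (E := E)).isometry.isUniformInducing
        |>.isComplete_range).isClosed
    intro φ
    by_contra hφ
    have hφ' : φ ∉ V := fun ⟨y, hy⟩ => hφ ⟨y, hy⟩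
    obtain ⟨Ψ, h0, h1⟩ := exists_vanish (X := StrongDual ℝ (StrongDual ℝ E)) V hcl hφ'
    obtain ⟨f, hf⟩ := hr Ψ
    have h2 : ∀ y : E, f y = 0 := by
      intro y
      have := h0 (NormedSpace.inclusionInDoubleDual ℝ E y) ⟨y, rfl⟩
      rw [← hf] at this
      exact this
    have h3 : f = 0 := by ext y; exact h2 y
    apply h1
    rw [← hf, h3, map_zero]
    rfl
  refine ⟨hsurj, ?_⟩
  have hc : Continuous (NormedSpace.inclusionInDoubleDual ℝ E) :=
    (NormedSpace.inclusionInDoubleDual ℝ E).continuous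
  exact hsurj.denseRange.separableSpace hc

end Pool.Agent.H65.BM
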