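import Pool.Agent.H65.BM.S6
import Pool.Agent.H65.BM.Asm5
import Pool.Agent.H65.BM.SEPD

/-!
# Project BM, sixth wave: assembly
-/

set_option autoImplicit false

namespace Pool.Agent.H65.BM

open Pool.Agent.N314.OP Pool.Agent.N314.OP.Mod Filter Topology

/-- the stubs of the sixth wave -/
structure Stubs6 : Prop where
  js : S_JS
  jmu : S_JMU
  ram : S_RAM
  jpm : S_JPM
  refa : S_REFA
  refb : S_REFB
  refc : S_REFC

/-- reflexivity -/
theorem reflK (S : Stubs6) (E : Type) [NormedAddCommGroup E] [NormedSpace ℝ E] [CompleteSpace E]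
    (hA : AT E) {K : E →L[ℝ] E} (hKc : IsCompactOperator K) (hK : ∀ y, ‖y - K y‖ ≤ ‖y‖)
    (hK0 : K ≠ 0) (hLP : LP E K) :
    Function.Surjective (NormedSpace.inclusionInDoubleDual ℝ E) := by
  by_contra h
  obtain ⟨θ, x, f, hJ⟩ := S.js E h
  exact hK0 (S.refc S.refa S.refb E K hA hKc hK hLP (S.jpm S.jmu S.ram E θ x f hJ))

/-- the dual of a separable reflexive space is separable -/
theorem sepdual (E : Type) [NormedAddCommGroup E] [NormedSpace ℝ E]
    [TopologicalSpace.SeparableSpace E]
    (h : Function.Surjective (NormedSpace.inclusionInDoubleDual ℝ E)) :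
    TopologicalSpace.SeparableSpace (StrongDual ℝ E) := by
  have h1 : TopologicalSpace.SeparableSpace (StrongDual ℝ (StrongDual ℝ E)) :=
    h.denseRange.separableSpace (NormedSpace.inclusionInDoubleDual ℝ E).continuous
  exact sepd (StrongDual ℝ E)

end Pool.Agent.H65.BM
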