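import Pool.Agent.H65.BM.S

/-! # BM-BAL: balanced laws (helper92) -/

set_option autoImplicit false
set_option linter.unusedSectionVars false

namespace Pool.Agent.H65.BM

open Finset

namespace Bal

/-- sums of products over functions -/
lemma sum_prod {ι K : Type} [Fintype ι] [DecidableEq ι] [Fintype K] (f : ι → K → ℝ) :
    ∑ τ : ι → K, ∏ j, f j (τ j) = ∏ j, ∑ x, f j x := by
  have h := Finset.sum_prod_piFinset (R := ℝ) (Finset.univ : Finset K) f
  rw [← h]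
  congr 1

/-- sums of products with one marked coordinate -/
lemma sum_prod_one {ι K : Type} [Fintype ι] [DecidableEq ι] [Fintype K] (f : ι → K → ℝ) (i : ι)
    (F : K → ℝ) : ∑ τ : ι → K, (∏ j, f j (τ j)) * F (τ i) =
      (∏ j ∈ univ.erase i, ∑ x, f j x) * ∑ x, f i x * F x := by
  have e1 : ∀ τ : ι → K, (∏ j, f j (τ j)) * F (τ i) =
      ∏ j, (f j (τ j) * if j = i then F (τ j) else 1) := by
    intro τ
    rw [prod_mul_distrib, prod_ite_eq' univ i (fun j => F (τ j)), if_pos (mem_univ i)]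
  simp only [e1]
  rw [sum_prod (fun j x => f j x * if j = i then F x else 1), ← prod_erase_mul univ _ (mem_univ i)]
  congr 1
  · refine prod_congr rfl fun j hj => ?_
    rw [mem_erase] at hj
    refine sum_congr rfl fun x _ => ?_
    rw [if_neg hj.1, mul_one]
  · refine sum_congr rfl fun x _ => ?_
    rw [if_pos rfl]

/-- two marked coordinates, one of which has mean zero -/
lemma sum_prod_two {ι K : Type} [Fintype ι] [DecidableEq ι] [Fintype K] (f : ι → K → ℝ) {i j : ι}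
    (hij : i ≠ j) (F G : K → ℝ) (h0 : ∑ x, f i x * F x = 0) :
    ∑ τ : ι → K, (∏ l, f l (τ l)) * (F (τ i) * G (τ j)) = 0 := by
  have e1 : ∀ τ : ι → K, (∏ l, f l (τ l)) * (F (τ i) * G (τ j)) =
      (∏ l, (f l (τ l) * if l = j then G (τ l) else 1)) * F (τ i) := by
    intro τ
    rw [prod_mul_distrib, prod_ite_eq' univ j (fun l => G (τ l)), if_pos (mem_univ j)]
    ring
  simp only [e1]
  rw [sum_prod_one (fun l x => f l x * if l = j then G x else 1) i F]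
  have : ∑ x, (f i x * if i = j then G x else 1) * F x = 0 := by
    rw [← h0]
    refine sum_congr rfl fun x _ => ?_
    rw [if_neg hij, mul_one]
  rw [this, mul_zero]

/-- orthogonality -/
lemma orth {ι K : Type} [Fintype ι] [DecidableEq ι] [Fintype K] (f : ι → K → ℝ) (F : ι → K → ℝ)
    (h0 : ∀ j, ∑ x, f j x * F j x = 0) :
    ∑ τ : ι → K, (∏ l, f l (τ l)) * (∑ j, F j (τ j)) ^ 2 =
      ∑ τ : ι → K, (∏ l, f l (τ l)) * ∑ j, (F j (τ j)) ^ 2 := by
  have e1 : ∀ τ : ι → K, (∏ l, f l (τ l)) * (∑ j, F j (τ j)) ^ 2 =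
      ∑ i, ∑ j, (∏ l, f l (τ l)) * (F i (τ i) * F j (τ j)) := by
    intro τ
    rw [sq, sum_mul_sum, mul_sum]
    refine sum_congr rfl fun i _ => ?_
    rw [mul_sum]
  have e2 : ∀ τ : ι → K, (∏ l, f l (τ l)) * ∑ j, (F j (τ j)) ^ 2 =
      ∑ i, (∏ l, f l (τ l)) * (F i (τ i) * F i (τ i)) := by
    intro τ
    rw [mul_sum]
    refine sum_congr rfl fun i _ => ?_
    rw [sq]
  simp only [e1, e2]
  rw [sum_comm, sum_comm (s := univ) (t := univ)
    (f := fun (τ : ι → K) i => (∏ l, f l (τ l)) * (F i (τ i) * F i (τ i)))]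
  refine sum_congr rfl fun i _ => ?_
  rw [sum_comm]
  rw [sum_eq_single i]
  · intro j _ hji
    exact sum_prod_two f (Ne.symm hji) (F i) (F j) (h0 i)
  · intro h
    exact absurd (mem_univ i) h

lemma sum_bool (f : Bool → ℝ) : ∑ b, f b = f true + f false := by
  rw [Fintype.sum_bool]

lemma sg_true : sg true = 1 := rfl
lemma sg_false : sg false = -1 := rfl

lemma sg_sq (b : Bool) : sg b * sg b = 1 := by
  cases b <;> simp [sg]

lemma sg_abs (b : Bool) : |sg b| = 1 := by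
  cases b <;> simp [sg]

section

variable {ι Ω : Type} [Fintype ι] [DecidableEq ι] [Fintype Ω]

/-- an expectation of averages as one sum -/
lemma exav (w : Ω → ℝ) (H : (ι → Bool) → (ι → Ω) → ℝ) :
    ex w (fun ω : ι → Ω => av (fun s : ι → Bool => H s ω)) =
      ∑ τ : ι → Bool × Ω, (∏ j, w (τ j).2 / 2) * H (fun j => (τ j).1) (fun j => (τ j).2) := by
  have e1 : ∑ τ : ι → Bool × Ω, (∏ j, w (τ j).2 / 2) * H (fun j => (τ j).1) (fun j => (τ j).2) =
      ∑ p : (ι → Bool) × (ι → Ω), (∏ j, w (p.2 j) / 2) * H p.1 p.2 := by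
    refine Fintype.sum_equiv (Equiv.arrowProdEquivProdArrow ι (fun _ => Bool) (fun _ => Ω)) _ _
      fun τ => rfl
  rw [e1, Fintype.sum_prod_type_right]
  unfold ex av
  refine sum_congr rfl fun ω _ => ?_
  simp only [prod_div_distrib, prod_const, card_univ]
  rw [← mul_sum]
  ring

variable (w : Ω → ℝ) (a : Ω → ℝ)

/-- the joint weights of one coordinate -/
noncomputable def g1 (b : Bool) (x : Bool × Ω) : ℝ := w x.2 * (1 + sg b * sg x.1 * a x.2) / 4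

/-- the joint weights -/
noncomputable def GG (θ : ι → Bool) (τ : ι → Bool × Ω) : ℝ := ∏ j, g1 w a (θ j) (τ j)

variable {w a}

lemma g1_nonneg (hw : ∀ ω, 0 ≤ w ω) (ha : ∀ ω, |a ω| ≤ 1) (b : Bool) (x : Bool × Ω) :
    0 ≤ g1 w a b x := by
  unfold g1
  have h1 : |sg b * sg x.1 * a x.2| ≤ 1 := by
    rw [abs_mul, abs_mul, sg_abs, sg_abs, one_mul, one_mul]
    exact ha _
  have h2 := (abs_le.1 h1).1
  have h3 : 0 ≤ w x.2 * (1 + sg b * sg x.1 * a x.2) := mul_nonneg (hw _) (by linarith)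
  linarith

lemma sum_g1 (x : Bool × Ω) : ∑ b, g1 w a b x = w x.2 / 2 := by
  rw [sum_bool]
  unfold g1
  rw [sg_true, sg_false]
  ring

lemma sum_g1_sg (x : Bool × Ω) : ∑ b, g1 w a b x * sg b = w x.2 / 2 * (sg x.1 * a x.2) := by
  rw [sum_bool]
  unfold g1
  rw [sg_true, sg_false]
  ring

lemma sum_g1' (b : Bool) (ω : Ω) : ∑ s, g1 w a b (s, ω) = w ω / 2 := by
  rw [sum_bool]
  unfold g1
  simp only
  rw [sg_true, sg_false]
  ring

/-- (1) -/
lemma sum_GG (τ : ι → Bool × Ω) : ∑ θ : ι → Bool, GG w a θ τ = ∏ j, w (τ j).2 / 2 := by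
  unfold GG
  rw [sum_prod (fun j b => g1 w a b (τ j))]
  exact prod_congr rfl fun j _ => sum_g1 _

/-- (2) -/
lemma sum_GG_sg (τ : ι → Bool × Ω) (i : ι) : ∑ θ : ι → Bool, GG w a θ τ * sg (θ i) =
    (∏ j, w (τ j).2 / 2) * (sg (τ i).1 * a (τ i).2) := by
  unfold GG
  rw [sum_prod_one (fun j b => g1 w a b (τ j)) i sg, sum_g1_sg,
    ← prod_erase_mul univ (fun j => w (τ j).2 / 2) (mem_univ i)]
  rw [prod_congr rfl fun j _ => sum_g1 (w := w) (a := a) (τ j)]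
  ring

/-- (3) -/
lemma sum_GG_av (H : (ι → Bool) → (ι → Ω) → ℝ) :
    ∑ θ : ι → Bool, ∑ τ : ι → Bool × Ω, GG w a θ τ * H θ (fun j => (τ j).2) =
      ex w (fun ω : ι → Ω => av (fun θ : ι → Bool => H θ ω)) := by
  have e1 : ∀ θ : ι → Bool, ∑ τ : ι → Bool × Ω, GG w a θ τ * H θ (fun j => (τ j).2) =
      ∑ ω : ι → Ω, (∏ j, w (ω j) / 2) * H θ ω := by
    intro θ
    have e2 : ∑ τ : ι → Bool × Ω, GG w a θ τ * H θ (fun j => (τ j).2) =
        ∑ p : (ι → Bool) × (ι → Ω), (∏ j, g1 w a (θ j) (p.1 j, p.2 j)) * H θ p.2 := by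
      refine Fintype.sum_equiv (Equiv.arrowProdEquivProdArrow ι (fun _ => Bool) (fun _ => Ω)) _ _
        fun τ => rfl
    rw [e2, Fintype.sum_prod_type_right]
    refine sum_congr rfl fun ω _ => ?_
    simp only
    rw [← sum_mul, sum_prod (fun j s => g1 w a (θ j) (s, ω j))]
    congr 1
    exact prod_congr rfl fun j _ => sum_g1' _ _
  simp only [e1]
  rw [sum_comm]
  unfold ex av
  refine sum_congr rfl fun ω _ => ?_
  simp only [prod_div_distrib, prod_const, card_univ]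
  rw [← mul_sum]
  ring

variable {Q : Type} [Fintype Q] [DecidableEq Q] (w a) (κ : Ω → Q)

/-- the part of the weights with given values of `κ` -/
noncomputable def W1 (b : Bool) (c : Q) (x : Bool × Ω) : ℝ :=
  if κ x.2 = c then g1 w a b x else 0

noncomputable def GQ (θ : ι → Bool) (q : ι → Q) (τ : ι → Bool × Ω) : ℝ :=
  ∏ j, W1 w a κ (θ j) (q j) (τ j)

variable {w a κ}

lemma GQ_nonneg (hw : ∀ ω, 0 ≤ w ω) (ha : ∀ ω, |a ω| ≤ 1) (θ : ι → Bool) (q : ι → Q)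
    (τ : ι → Bool × Ω) : 0 ≤ GQ w a κ θ q τ := by
  refine prod_nonneg fun j _ => ?_
  unfold W1
  split_ifs
  · exact g1_nonneg hw ha _ _
  · exact le_rfl

lemma sum_GQ (θ : ι → Bool) (τ : ι → Bool × Ω) (Φ : (ι → Q) → ℝ) :
    ∑ q : ι → Q, GQ w a κ θ q τ * Φ q = GG w a θ τ * Φ (fun j => κ (τ j).2) := by
  rw [sum_eq_single (fun j => κ (τ j).2)]
  · congr 1
    unfold GQ GG
    refine prod_congr rfl fun j _ => ?_
    unfold W1
    rw [if_pos rfl]
  · intro q _ hq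
    have : ∃ j, κ (τ j).2 ≠ q j := by
      by_contra hcon
      push Not at hcon
      exact hq (funext fun j => (hcon j).symm)
    obtain ⟨j, hj⟩ := this
    have h0 : GQ w a κ θ q τ = 0 := by
      unfold GQ
      refine prod_eq_zero (mem_univ j) ?_
      unfold W1
      rw [if_neg hj]
    rw [h0, zero_mul]
  · intro h
    exact absurd (mem_univ _) h

end

section

variable {E : Type} [NormedAddCommGroup E] [NormedSpace ℝ E]
variable {ι Ω Q : Type} [Fintype ι] [DecidableEq ι] [Fintype Ω] [Fintype Q] [DecidableEq Q]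
variable {w : Ω → ℝ} {a : Ω → ℝ} {κ : Ω → Q} {u : ι → Ω → E}

/-- the weak second moments in one class -/
lemma weak (hbal : ∀ (j : ι) (q : Q), ∑ ω, (if κ ω = q then (w ω * a ω) • u j ω else 0) = 0)
    (hw : ∀ ω, 0 ≤ w ω) (ha : ∀ ω, |a ω| ≤ 1) {σ : ℝ} {g : StrongDual ℝ E}
    (hg : ∀ ω : ι → Ω, ∑ j, (g (u j (ω j))) ^ 2 ≤ σ ^ 2) (θ : ι → Bool) (q : ι → Q) :
    ∑ τ : ι → Bool × Ω, GQ w a κ θ q τ *
      (g (sm (fun j => (τ j).1) fun j => u j (τ j).2)) ^ 2 ≤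
      σ ^ 2 * ∑ τ : ι → Bool × Ω, GQ w a κ θ q τ := by
  have e1 : ∀ τ : ι → Bool × Ω, g (sm (fun j => (τ j).1) fun j => u j (τ j).2) =
      ∑ j, sg (τ j).1 * g (u j (τ j).2) := by
    intro τ
    unfold sm
    rw [map_sum]
    refine sum_congr rfl fun j _ => ?_
    rw [map_smul, smul_eq_mul]
  have h0 : ∀ j, ∑ x : Bool × Ω, W1 w a κ (θ j) (q j) x * (sg x.1 * g (u j x.2)) = 0 := by
    intro j
    rw [Fintype.sum_prod_type_right]
    have e2 : ∀ ω : Ω, ∑ b : Bool, W1 w a κ (θ j) (q j) (b, ω) * (sg b * g (u j ω)) =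
        sg (θ j) / 2 * g (if κ ω = q j then (w ω * a ω) • u j ω else 0) := by
      intro ω
      rw [sum_bool]
      unfold W1 g1
      simp only
      split_ifs
      · rw [map_smul, smul_eq_mul, sg_true, sg_false]
        ring
      · rw [map_zero]
        ring
    simp only [e2]
    rw [← mul_sum, ← map_sum, hbal, map_zero, mul_zero]
  simp only [e1]
  unfold GQ
  rw [orth (fun j x => W1 w a κ (θ j) (q j) x) (fun j x => sg x.1 * g (u j x.2)) h0, mul_sum]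
  refine sum_le_sum fun τ _ => ?_
  rw [mul_comm (σ ^ 2)]
  refine mul_le_mul_of_nonneg_left ?_ (GQ_nonneg hw ha θ q τ)
  refine le_trans (le_of_eq ?_) (hg fun j => (τ j).2)
  refine sum_congr rfl fun j _ => ?_
  rw [mul_pow, sq (sg _), sg_sq, one_mul]

/-- the inequality in one class -/
lemma one_class {J : E → StrongDual ℝ E} {C A : ℝ} (hC : 1 ≤ C) (hCI : CI E J C A)
    (hbal : ∀ (j : ι) (q : Q), ∑ ω, (if κ ω = q then (w ω * a ω) • u j ω else 0) = 0)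
    (hw : ∀ ω, 0 ≤ w ω) (ha : ∀ ω, |a ω| ≤ 1) {σ δ : ℝ} (hδ : 0 < δ) (hδ1 : δ ≤ 1) (hσ : 0 ≤ σ)
    (hg : ∀ g : StrongDual ℝ E, ‖g‖ ≤ 1 → ∀ ω : ι → Ω, ∑ j, (g (u j (ω j))) ^ 2 ≤ σ ^ 2)
    (θ : ι → Bool) (q : ι → Q) (V : E) (Y : (ι → Bool × Ω) → E)
    (hY : Y = fun τ => sm (fun j => (τ j).1) fun j => u j (τ j).2) :
    |∑ τ : ι → Bool × Ω, GQ w a κ θ q τ * J (Y τ) V| ≤
      C * ‖V‖ * (δ * (Real.sqrt (∑ τ, GQ w a κ θ q τ) *
        Real.sqrt (∑ τ, GQ w a κ θ q τ * ‖Y τ‖ ^ 2)) + δ ^ (-A) * σ * ∑ τ, GQ w a κ θ q τ) := by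
  obtain ⟨p, hp⟩ : ∃ p : ℝ, p = ∑ τ : ι → Bool × Ω, GQ w a κ θ q τ := ⟨_, rfl⟩
  rw [← hp]
  have hp0 : 0 ≤ p := by
    rw [hp]; exact sum_nonneg fun τ _ => GQ_nonneg hw ha θ q τ
  have hδA : 0 ≤ δ ^ (-A) := Real.rpow_nonneg hδ.le _
  rcases hp0.eq_or_lt with hz | hpos
  · have h0 : ∀ τ : ι → Bool × Ω, GQ w a κ θ q τ = 0 := by
      have h1 := (sum_eq_zero_iff_of_nonneg (s := univ) fun τ _ => GQ_nonneg hw ha θ q τ).1
        (hp.symm.trans hz.symm)
      exact fun τ => h1 τ (mem_univ τ)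
    have : ∑ τ : ι → Bool × Ω, GQ w a κ θ q τ * J (Y τ) V = 0 :=
      sum_eq_zero fun τ _ => by rw [h0, zero_mul]
    rw [this, abs_zero]
    positivity
  · have h1 := hCI (ι → Bool × Ω) (fun τ => GQ w a κ θ q τ / p) Y V δ σ
      (fun τ => div_nonneg (GQ_nonneg hw ha θ q τ) hp0)
      (by rw [← sum_div, ← hp, div_self hpos.ne']) hδ hδ1 hσ
      (fun g hg1 => by
        have h2 := weak hbal hw ha (hg g hg1) θ q
        rw [← hp] at h2
        have e : ∑ τ : ι → Bool × Ω, GQ w a κ θ q τ / p * (g (Y τ)) ^ 2 =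
            (∑ τ : ι → Bool × Ω, GQ w a κ θ q τ *
              (g (sm (fun j => (τ j).1) fun j => u j (τ j).2)) ^ 2) / p := by
          rw [sum_div]
          refine sum_congr rfl fun τ _ => ?_
          rw [hY]
          ring
        rw [e, div_le_iff₀ hpos]
        exact h2)
    have e1 : ∑ τ : ι → Bool × Ω, GQ w a κ θ q τ / p * J (Y τ) V =
        (∑ τ : ι → Bool × Ω, GQ w a κ θ q τ * J (Y τ) V) / p := by
      rw [sum_div]
      exact sum_congr rfl fun τ _ => by ring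
    have e2 : ∑ τ : ι → Bool × Ω, GQ w a κ θ q τ / p * ‖Y τ‖ ^ 2 =
        (∑ τ : ι → Bool × Ω, GQ w a κ θ q τ * ‖Y τ‖ ^ 2) / p := by
      rw [sum_div]
      exact sum_congr rfl fun τ _ => by ring
    rw [e1, e2, abs_div, abs_of_pos hpos, div_le_iff₀ hpos] at h1
    refine h1.trans (le_of_eq ?_)
    obtain ⟨S, hS⟩ : ∃ S : ℝ, S = ∑ τ : ι → Bool × Ω, GQ w a κ θ q τ * ‖Y τ‖ ^ 2 := ⟨_, rfl⟩
    rw [← hS]
    have hS0 : 0 ≤ S := by
      rw [hS]
      exact sum_nonneg fun τ _ => mul_nonneg (GQ_nonneg hw ha θ q τ) (sq_nonneg _)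
    have e3 : Real.sqrt (S / p) * p = Real.sqrt p * Real.sqrt S := by
      rw [Real.sqrt_div' _ hp0]
      have h2 : Real.sqrt p ≠ 0 := (Real.sqrt_pos.2 hpos).ne'
      have h3 : Real.sqrt p * Real.sqrt p = p := Real.mul_self_sqrt hp0
      rw [div_mul_eq_mul_div, div_eq_iff h2]
      linear_combination (-Real.sqrt S) * h3
    linear_combination C * ‖V‖ * δ * e3

end

end Bal

open Bal in
theorem bal : S_BAL := by
  intro E _ _ J C A hC hA hCI ι Ω Q _ _ _ _ _ w u κ a v δ σ hw hw1 ha hbal hδ hδ1 hσ hg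
  obtain ⟨Y, hY⟩ : ∃ Y : (ι → Bool × Ω) → E,
    Y = fun τ => sm (fun j => (τ j).1) fun j => u j (τ j).2 := ⟨_, rfl⟩
  obtain ⟨V, hV⟩ : ∃ V : (ι → Bool) → (ι → Q) → E, V = fun θ q => sm θ fun j => v j (q j) :=
    ⟨_, rfl⟩
  have hδA : 0 ≤ δ ^ (-A) := Real.rpow_nonneg hδ.le _
  -- the left side
  have hL : ex w (fun ω : ι → Ω => av (fun s : ι → Bool => ∑ j, sg (s j) * a (ω j) *
        J (sm s fun i => u i (ω i)) (v j (κ (ω j))))) =
      ∑ p : (ι → Bool) × (ι → Q), ∑ τ : ι → Bool × Ω, GQ w a κ p.1 p.2 τ * J (Y τ) (V p.1 p.2) := by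
    rw [exav w (fun s ω => ∑ j, sg (s j) * a (ω j) * J (sm s fun i => u i (ω i)) (v j (κ (ω j)))),
      Fintype.sum_prod_type]
    have e1 : ∀ θ : ι → Bool, ∑ q : ι → Q, ∑ τ : ι → Bool × Ω,
        GQ w a κ θ q τ * J (Y τ) (V θ q) =
        ∑ τ : ι → Bool × Ω, GG w a θ τ * J (Y τ) (V θ fun j => κ (τ j).2) := by
      intro θ
      rw [sum_comm]
      exact sum_congr rfl fun τ _ => sum_GQ θ τ (fun q => J (Y τ) (V θ q))
    simp only [e1]
    rw [sum_comm]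
    refine sum_congr rfl fun τ _ => ?_
    have e2 : ∀ θ : ι → Bool, GG w a θ τ * J (Y τ) (V θ fun j => κ (τ j).2) =
        ∑ j, GG w a θ τ * sg (θ j) * J (Y τ) (v j (κ (τ j).2)) := by
      intro θ
      rw [hV]
      simp only [sm]
      rw [map_sum, mul_sum]
      refine sum_congr rfl fun j _ => ?_
      rw [map_smul, smul_eq_mul]
      ring
    simp only [e2]
    rw [sum_comm, mul_sum]
    refine sum_congr rfl fun j _ => ?_
    rw [← sum_mul, sum_GG_sg, hY]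
    ring
  -- the second moments
  have hVV : ∑ p : (ι → Bool) × (ι → Q), (∑ τ : ι → Bool × Ω, GQ w a κ p.1 p.2 τ) *
      ‖V p.1 p.2‖ ^ 2 = ex w fun ω : ι → Ω => av fun θ : ι → Bool =>
          ‖sm θ fun j => v j (κ (ω j))‖ ^ 2 := by
    rw [← sum_GG_av (a := a) (fun θ ω => ‖sm θ fun j => v j (κ (ω j))‖ ^ 2), Fintype.sum_prod_type]
    refine sum_congr rfl fun θ _ => ?_
    simp only [sum_mul]
    rw [sum_comm]
    refine sum_congr rfl fun τ _ => ?_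
    rw [sum_GQ θ τ (fun q => ‖V θ q‖ ^ 2), hV]
  have hpp : ∑ p : (ι → Bool) × (ι → Q), (∑ τ : ι → Bool × Ω, GQ w a κ p.1 p.2 τ) = 1 := by
    have h1 := sum_GG_av (ι := ι) (w := w) (a := a) (fun _ _ => (1 : ℝ))
    have h2 : ex w (fun _ : ι → Ω => av (fun _ : ι → Bool => (1 : ℝ))) = 1 := by
      unfold ex av
      simp only [sum_const, card_univ, mul_one, nsmul_eq_mul, Fintype.card_fun, Fintype.card_bool,
        Nat.cast_pow, Nat.cast_ofNat]
      rw [div_self (by positivity)]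
      simp only [mul_one]
      rw [sum_prod (fun _ ω => w ω)]
      simp only [hw1, prod_const_one]
    rw [h2] at h1
    rw [← h1, Fintype.sum_prod_type]
    refine sum_congr rfl fun θ _ => ?_
    rw [sum_comm]
    refine sum_congr rfl fun τ _ => ?_
    have h3 := sum_GQ (w := w) (a := a) (κ := κ) θ τ (fun _ => (1 : ℝ))
    simp only [mul_one] at h3 ⊢
    exact h3
  have hYY : ∑ p : (ι → Bool) × (ι → Q), (∑ τ : ι → Bool × Ω, GQ w a κ p.1 p.2 τ *
      ‖Y τ‖ ^ 2) = ex w fun ω : ι → Ω => av fun s : ι → Bool =>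
          ‖sm s fun j => u j (ω j)‖ ^ 2 := by
    rw [exav w (fun s ω => ‖sm s fun j => u j (ω j)‖ ^ 2), Fintype.sum_prod_type]
    have e1 : ∀ θ : ι → Bool, ∑ q : ι → Q, ∑ τ : ι → Bool × Ω, GQ w a κ θ q τ * ‖Y τ‖ ^ 2 =
        ∑ τ : ι → Bool × Ω, GG w a θ τ * ‖Y τ‖ ^ 2 := by
      intro θ
      rw [sum_comm]
      exact sum_congr rfl fun τ _ => sum_GQ θ τ (fun _ => ‖Y τ‖ ^ 2)
    simp only [e1]
    rw [sum_comm]
    refine sum_congr rfl fun τ _ => ?_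
    rw [← sum_mul, sum_GG, hY]
  -- sum over the classes
  rw [hL]
  refine (abs_sum_le_sum_abs _ _).trans ?_
  refine (sum_le_sum fun p _ => one_class hC hCI hbal hw ha hδ hδ1 hσ hg p.1 p.2 (V p.1 p.2) Y
    hY).trans ?_
  rw [← hVV, ← hYY]
  obtain ⟨P, hP⟩ : ∃ P : (ι → Bool) × (ι → Q) → ℝ,
    P = fun p => ∑ τ : ι → Bool × Ω, GQ w a κ p.1 p.2 τ := ⟨_, rfl⟩
  obtain ⟨S, hS⟩ : ∃ S : (ι → Bool) × (ι → Q) → ℝ,
    S = fun p => ∑ τ : ι → Bool × Ω, GQ w a κ p.1 p.2 τ * ‖Y τ‖ ^ 2 := ⟨_, rfl⟩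
  have hP' : ∀ p : (ι → Bool) × (ι → Q), ∑ τ : ι → Bool × Ω, GQ w a κ p.1 p.2 τ = P p :=
    fun p => by rw [hP]
  have hS' : ∀ p : (ι → Bool) × (ι → Q), ∑ τ : ι → Bool × Ω, GQ w a κ p.1 p.2 τ * ‖Y τ‖ ^ 2 =
    S p := fun p => by rw [hS]
  simp only [hP', hS'] at hpp ⊢
  have hP0 : ∀ p, 0 ≤ P p := fun p => by
    rw [hP]; exact sum_nonneg fun τ _ => GQ_nonneg hw ha _ _ τ
  have hS0 : ∀ p, 0 ≤ S p := fun p => by
    rw [hS]; exact sum_nonneg fun τ _ => mul_nonneg (GQ_nonneg hw ha _ _ τ) (sq_nonneg _)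
  have e1 : ∀ p : (ι → Bool) × (ι → Q), C * ‖V p.1 p.2‖ * (δ * (Real.sqrt (P p) *
      Real.sqrt (S p)) + δ ^ (-A) * σ * P p) =
      C * δ * ((‖V p.1 p.2‖ * Real.sqrt (P p)) * Real.sqrt (S p)) +
      C * (δ ^ (-A) * σ) * ((‖V p.1 p.2‖ * Real.sqrt (P p)) * Real.sqrt (P p)) := by
    intro p
    have : Real.sqrt (P p) * Real.sqrt (P p) = P p := Real.mul_self_sqrt (hP0 p)
    linear_combination (-(C * ‖V p.1 p.2‖ * (δ ^ (-A) * σ))) * this
  simp only [e1]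
  rw [sum_add_distrib, ← mul_sum, ← mul_sum]
  have c1 := Real.sum_mul_le_sqrt_mul_sqrt univ
    (fun p : (ι → Bool) × (ι → Q) => ‖V p.1 p.2‖ * Real.sqrt (P p)) (fun p => Real.sqrt (S p))
  have c2 := Real.sum_mul_le_sqrt_mul_sqrt univ
    (fun p : (ι → Bool) × (ι → Q) => ‖V p.1 p.2‖ * Real.sqrt (P p)) (fun p => Real.sqrt (P p))
  have e2 : ∀ p : (ι → Bool) × (ι → Q), (‖V p.1 p.2‖ * Real.sqrt (P p)) ^ 2 =
      P p * ‖V p.1 p.2‖ ^ 2 := by
    intro p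
    rw [mul_pow, Real.sq_sqrt (hP0 p)]
    ring
  simp only [e2, Real.sq_sqrt (hS0 _), Real.sq_sqrt (hP0 _)] at c1 c2
  rw [hpp, Real.sqrt_one, mul_one] at c2
  have hC0 : 0 ≤ C := by linarith
  have d1 := mul_le_mul_of_nonneg_left c1 (mul_nonneg hC0 hδ.le)
  have d2 := mul_le_mul_of_nonneg_left c2 (mul_nonneg hC0 (mul_nonneg hδA hσ))
  linarith

end Pool.Agent.H65.BM
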