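import Pool.Agent.H65.BM.S4

set_option autoImplicit false

/-! # BM4-CAD: the adjoint of a compact operator is small on weakly small functionals -/

namespace Pool.Agent.H65.BM

open Pool.Agent.N314.OP Pool.Agent.N314.OP.Mod

theorem cad : S_CAD := by
  intro E _ _ K hK τ hτ
  classical
  have h1 : TotallyBounded (K '' Metric.closedBall (0 : E) 1) :=
    (IsCompactOperator.isCompact_closure_image_closedBall (f := (K : E →ₗ[ℝ] E)) hK
      1).totallyBounded.subset subset_closure
  obtain ⟨t, ht, hcov⟩ := Metric.totallyBounded_iff.1 h1 τ hτ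
  refine ⟨ht.toFinset.image (fun w => NormedSpace.inclusionInDoubleDual ℝ E w), fun y => ?_⟩
  have hs : 0 ≤ ∑ f ∈ ht.toFinset.image (fun w => NormedSpace.inclusionInDoubleDual ℝ E w), |f y| :=
    Finset.sum_nonneg fun _ _ => abs_nonneg _
  apply ContinuousLinearMap.opNorm_le_of_unit_norm (by positivity)
  intro x hx
  have hx' : K x ∈ K '' Metric.closedBall (0 : E) 1 := ⟨x, by simp [hx], rfl⟩
  obtain ⟨w, hw, hxw⟩ := Set.mem_iUnion₂.1 (hcov hx')
  rw [Metric.mem_ball, dist_eq_norm] at hxw
  have e1 : adj K y x = y (K x) := rfl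
  rw [e1]
  have h2 : |y w| ≤ ∑ f ∈ ht.toFinset.image (fun w => NormedSpace.inclusionInDoubleDual ℝ E w),
      |f y| := by
    have h3 : NormedSpace.inclusionInDoubleDual ℝ E w ∈
        ht.toFinset.image (fun w => NormedSpace.inclusionInDoubleDual ℝ E w) :=
      Finset.mem_image.2 ⟨w, ht.mem_toFinset.2 hw, rfl⟩
    have h4 := Finset.single_le_sum (f := fun f : StrongDual ℝ (StrongDual ℝ E) => |f y|)
      (fun _ _ => abs_nonneg _) h3
    simpa [NormedSpace.dual_def] using h4
  calc ‖y (K x)‖ = ‖y w + y (K x - w)‖ := by rw [← map_add]; congr 2; abel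
    _ ≤ ‖y w‖ + ‖y (K x - w)‖ := norm_add_le _ _
    _ ≤ ∑ f ∈ ht.toFinset.image (fun w => NormedSpace.inclusionInDoubleDual ℝ E w), |f y| +
        τ * ‖y‖ := by
      refine add_le_add h2 ?_
      refine (y.le_opNorm _).trans ?_
      rw [mul_comm]
      exact mul_le_mul_of_nonneg_right hxw.le (norm_nonneg _)

end Pool.Agent.H65.BM
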