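import Pool.Agent.H65.BM.S4

/-! # Project BM4, stub CAE (helper44): compact operators are small on weakly small vectors -/

set_option autoImplicit false

namespace Pool.Agent.H65.BM

theorem cae : S_CAE := by
  classical
  intro E _ _ K hK τ hτ
  have h1 := hK.isCompact_closure_image_closedBall 1
  obtain ⟨t, ht, hcov⟩ := Metric.totallyBounded_iff.1 h1.totallyBounded (τ / 2) (by positivity)
  choose h hn hv using fun w : E => exists_dual_vector'' ℝ w
  refine ⟨ht.toFinset.image (fun w => (h w).comp K), fun y => ?_⟩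
  rcases eq_or_ne y 0 with rfl | hy
  · rw [map_zero, norm_zero, mul_zero, add_zero]
    exact Finset.sum_nonneg fun _ _ => abs_nonneg _
  · have hy0 : 0 < ‖y‖ := norm_pos_iff.2 hy
    have hu : K (‖y‖⁻¹ • y) ∈ closure (K '' Metric.closedBall 0 1) := by
      refine subset_closure ⟨‖y‖⁻¹ • y, ?_, rfl⟩
      rw [mem_closedBall_zero_iff, norm_smul, norm_inv, norm_norm, inv_mul_cancel₀ hy0.ne']
    obtain ⟨w, hw, hwb⟩ := Set.mem_iUnion₂.1 (hcov hu)
    rw [Metric.mem_ball, dist_eq_norm] at hwb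
    have h2 : ‖w‖ ≤ |h w (K (‖y‖⁻¹ • y))| + τ / 2 := by
      have h3 : h w w = h w (K (‖y‖⁻¹ • y)) - h w (K (‖y‖⁻¹ • y) - w) := by
        rw [map_sub]
        ring
      have h4 : |h w (K (‖y‖⁻¹ • y) - w)| ≤ τ / 2 := by
        have h5 := (h w).le_opNorm (K (‖y‖⁻¹ • y) - w)
        rw [Real.norm_eq_abs] at h5
        have h6 := mul_le_mul_of_nonneg_right (hn w) (norm_nonneg (K (‖y‖⁻¹ • y) - w))
        linarith
      have h7 : h w w = ‖w‖ := hv w
      have h8 := le_abs_self (h w (K (‖y‖⁻¹ • y)))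
      have h9 := (abs_le.1 h4).1
      linarith
    have h10 : ‖K (‖y‖⁻¹ • y)‖ ≤ |h w (K (‖y‖⁻¹ • y))| + τ := by
      have h11 : ‖K (‖y‖⁻¹ • y)‖ ≤ ‖K (‖y‖⁻¹ • y) - w‖ + ‖w‖ := by
        have := norm_add_le (K (‖y‖⁻¹ • y) - w) w
        rwa [sub_add_cancel] at this
      linarith
    have h12 : K (‖y‖⁻¹ • y) = ‖y‖⁻¹ • K y := map_smul K _ _
    rw [h12, map_smul, norm_smul, norm_inv, norm_norm, smul_eq_mul, abs_mul, abs_inv, abs_norm] at h10
    have h13 : ‖K y‖ ≤ |h w (K y)| + τ * ‖y‖ := by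
      have h14 := mul_le_mul_of_nonneg_left h10 hy0.le
      have e1 : ‖y‖ * (‖y‖⁻¹ * ‖K y‖) = ‖K y‖ := by field_simp
      have e2 : ‖y‖ * (‖y‖⁻¹ * |h w (K y)| + τ) = |h w (K y)| + τ * ‖y‖ := by field_simp
      rwa [e1, e2] at h14
    refine h13.trans (add_le_add ?_ le_rfl)
    exact Finset.single_le_sum (f := fun f : StrongDual ℝ E => |f y|) (fun _ _ => abs_nonneg _)
      (Finset.mem_image_of_mem (fun w => (h w).comp K) (ht.mem_toFinset.2 hw))

end Pool.Agent.H65.BM
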