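import Pool.Agent.H65.BM.Defs

/-!
# Project BM: calculus of sign averages and product laws
-/

set_option autoImplicit false
set_option linter.unusedSectionVars false

namespace Pool.Agent.H65.BM

open Finset

lemma sg_true : sg true = 1 := rfl

lemma sg_false : sg false = -1 := rfl

lemma sg_mul_self (b : Bool) : sg b * sg b = 1 := by cases b <;> simp [sg]

lemma sg_sq (b : Bool) : sg b ^ 2 = 1 := by cases b <;> simp [sg]

lemma abs_sg (b : Bool) : |sg b| = 1 := by cases b <;> simp [sg]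

lemma sg_not (b : Bool) : sg (!b) = - sg b := by cases b <;> simp [sg]

lemma sg_xor (b c : Bool) : sg (xor b c) = - (sg b * sg c) := by cases b <;> cases c <;> simp [sg]

section av

variable {ι : Type} [Fintype ι] [DecidableEq ι]

lemma av_mono {F G : (ι → Bool) → ℝ} (h : ∀ s, F s ≤ G s) : av F ≤ av G := by
  unfold av
  gcongr
  exact h _

lemma av_nonneg {F : (ι → Bool) → ℝ} (h : ∀ s, 0 ≤ F s) : 0 ≤ av F := by
  unfold av
  exact div_nonneg (Finset.sum_nonneg fun s _ => h s) (by positivity)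

lemma av_const (c : ℝ) : av (fun _ : ι → Bool => c) = c := by
  unfold av
  rw [Finset.sum_const, Finset.card_univ, Fintype.card_fun, Fintype.card_bool, nsmul_eq_mul]
  push_cast
  field_simp

lemma av_add (F G : (ι → Bool) → ℝ) : av (fun s => F s + G s) = av F + av G := by
  unfold av
  rw [Finset.sum_add_distrib, add_div]

lemma av_sub (F G : (ι → Bool) → ℝ) : av (fun s => F s - G s) = av F - av G := by
  unfold av
  rw [Finset.sum_sub_distrib, sub_div]

lemma av_neg (F : (ι → Bool) → ℝ) : av (fun s => - F s) = - av F := by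
  unfold av
  rw [Finset.sum_neg_distrib, neg_div]

lemma av_mul_left (c : ℝ) (F : (ι → Bool) → ℝ) : av (fun s => c * F s) = c * av F := by
  unfold av
  rw [← Finset.mul_sum, mul_div_assoc]

lemma av_sum {κ : Type*} (S : Finset κ) (F : κ → (ι → Bool) → ℝ) :
    av (fun s => ∑ k ∈ S, F k s) = ∑ k ∈ S, av (F k) := by
  unfold av
  rw [Finset.sum_comm, Finset.sum_div]

/-- flipping the signs in a fixed pattern -/
lemma av_xor (c : ι → Bool) (F : (ι → Bool) → ℝ) :
    av (fun s => F (fun j => xor (s j) (c j))) = av F := by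
  unfold av
  congr 1
  let e : (ι → Bool) ≃ (ι → Bool) :=
    { toFun := fun s j => xor (s j) (c j)
      invFun := fun s j => xor (s j) (c j)
      left_inv := fun s => by funext j; simp
      right_inv := fun s => by funext j; simp }
  exact Fintype.sum_equiv e _ _ fun s => rfl

/-- Cauchy-Schwarz -/
lemma av_cs (F G : (ι → Bool) → ℝ) :
    av (fun s => F s * G s) ^ 2 ≤ av (fun s => F s ^ 2) * av (fun s => G s ^ 2) := by
  unfold av
  rw [div_pow, div_mul_div_comm, ← pow_two]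
  gcongr
  exact Finset.sum_mul_sq_le_sq_mul_sq _ _ _

lemma av_sg_mul_sg (i j : ι) :
    av (fun s : ι → Bool => sg (s i) * sg (s j)) = if i = j then 1 else 0 := by
  split_ifs with h
  · subst h
    simp_rw [sg_mul_self]
    exact av_const 1
  · have h1 := av_xor (fun l => decide (l = i)) (fun s : ι → Bool => sg (s i) * sg (s j))
    have h2 : (fun s : ι → Bool => sg (xor (s i) (decide (i = i))) *
        sg (xor (s j) (decide (j = i)))) = fun s => - (sg (s i) * sg (s j)) := by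
      funext s
      have hj : decide (j = i) = false := by simpa using fun h' => h h'.symm
      rw [hj]
      simp [sg_not]
    have h3 : av (fun s : ι → Bool => sg (xor (s i) (decide (i = i))) *
        sg (xor (s j) (decide (j = i)))) = av fun s : ι → Bool => sg (s i) * sg (s j) := h1
    rw [h2, av_neg] at h3
    linarith

/-- orthogonality of the signs -/
lemma av_mul (D : Finset ι) (a b : ι → ℝ) :
    av (fun s : ι → Bool => (∑ j ∈ D, sg (s j) * a j) * ∑ j ∈ D, sg (s j) * b j) =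
      ∑ j ∈ D, a j * b j := by
  have h1 : (fun s : ι → Bool => (∑ j ∈ D, sg (s j) * a j) * ∑ j ∈ D, sg (s j) * b j) =
      fun s => ∑ i ∈ D, ∑ j ∈ D, (a i * b j) * (sg (s i) * sg (s j)) := by
    funext s
    rw [Finset.sum_mul_sum]
    refine Finset.sum_congr rfl fun i _ => Finset.sum_congr rfl fun j _ => by ring
  rw [h1, av_sum]
  refine Finset.sum_congr rfl fun i hi => ?_
  rw [av_sum]
  simp_rw [av_mul_left, av_sg_mul_sg]
  simp [hi]

section vec

variable {E : Type} [NormedAddCommGroup E] [NormedSpace ℝ E]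

lemma sm_def (s : ι → Bool) (x : ι → E) : sm s x = ∑ j, sg (s j) • x j := rfl

/-- sums over `D` as sums over all indices -/
lemma sm_ite (s : ι → Bool) (D : Finset ι) (x : ι → E) :
    sm s (fun j => if j ∈ D then x j else 0) = ∑ j ∈ D, sg (s j) • x j := by
  rw [sm_def]
  have h : ∀ j, sg (s j) • (if j ∈ D then x j else 0) = if j ∈ D then sg (s j) • x j else 0 := by
    intro j
    split_ifs <;> simp
  rw [Finset.sum_congr rfl fun j _ => h j, Finset.sum_ite_mem, Finset.univ_inter]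

/-- the signed sums over a subset have smaller second moments -/
lemma sym {D' D : Finset ι} (h : D' ⊆ D) (z : ι → E) :
    av (fun s : ι → Bool => ‖∑ j ∈ D', sg (s j) • z j‖ ^ 2) ≤
      av (fun s : ι → Bool => ‖∑ j ∈ D, sg (s j) • z j‖ ^ 2) := by
  have h1 := av_xor (fun l => !decide (l ∈ D'))
    (fun s : ι → Bool => ‖∑ j ∈ D, sg (s j) • z j‖ ^ 2)
  have h2 : ∀ s : ι → Bool, ‖∑ j ∈ D', sg (s j) • z j‖ ^ 2 ≤
      (1 / 2) * ‖∑ j ∈ D, sg (s j) • z j‖ ^ 2 + (1 / 2) *
        ‖∑ j ∈ D, sg (xor (s j) (!decide (j ∈ D'))) • z j‖ ^ 2 := by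
    intro s
    have e1 : ∑ j ∈ D, sg (s j) • z j =
        ∑ j ∈ D', sg (s j) • z j + ∑ j ∈ D \ D', sg (s j) • z j := by
      rw [add_comm, Finset.sum_sdiff h]
    have e2 : ∑ j ∈ D, sg (xor (s j) (!decide (j ∈ D'))) • z j =
        ∑ j ∈ D', sg (s j) • z j - ∑ j ∈ D \ D', sg (s j) • z j := by
      rw [← Finset.sum_sdiff h, add_comm, sub_eq_add_neg, ← Finset.sum_neg_distrib]
      congr 1
      · refine Finset.sum_congr rfl fun j hj => ?_
        simp [hj]
      · refine Finset.sum_congr rfl fun j hj => ?_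
        rw [Finset.mem_sdiff] at hj
        simp [hj.2, sg_not, neg_smul]
    rw [e1, e2]
    set a := ∑ j ∈ D', sg (s j) • z j
    set b := ∑ j ∈ D \ D', sg (s j) • z j
    have e3 : ‖a‖ ≤ (‖a + b‖ + ‖a - b‖) / 2 := by
      have : a = (1 / 2 : ℝ) • (a + b) + (1 / 2 : ℝ) • (a - b) := by module
      calc ‖a‖ = ‖(1 / 2 : ℝ) • (a + b) + (1 / 2 : ℝ) • (a - b)‖ := by rw [← this]
        _ ≤ ‖(1 / 2 : ℝ) • (a + b)‖ + ‖(1 / 2 : ℝ) • (a - b)‖ := norm_add_le _ _
        _ = (‖a + b‖ + ‖a - b‖) / 2 := by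
          rw [norm_smul, norm_smul, Real.norm_of_nonneg (by norm_num)]; ring
    nlinarith [norm_nonneg a, norm_nonneg (a + b), norm_nonneg (a - b),
      sq_nonneg (‖a + b‖ - ‖a - b‖)]
  calc av (fun s : ι → Bool => ‖∑ j ∈ D', sg (s j) • z j‖ ^ 2)
      ≤ av (fun s : ι → Bool => (1 / 2) * ‖∑ j ∈ D, sg (s j) • z j‖ ^ 2 + (1 / 2) *
        ‖∑ j ∈ D, sg (xor (s j) (!decide (j ∈ D'))) • z j‖ ^ 2) := av_mono h2
    _ = av (fun s : ι → Bool => ‖∑ j ∈ D, sg (s j) • z j‖ ^ 2) := by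
      rw [av_add, av_mul_left, av_mul_left, h1]; ring

/-- fixed signs can be removed -/
lemma av_signs (ε : ι → Bool) (D : Finset ι) (z : ι → E) :
    av (fun s : ι → Bool => ‖∑ j ∈ D, sg (s j) • (sg (ε j) • z j)‖ ^ 2) =
      av (fun s : ι → Bool => ‖∑ j ∈ D, sg (s j) • z j‖ ^ 2) := by
  rw [← av_xor ε (fun s : ι → Bool => ‖∑ j ∈ D, sg (s j) • z j‖ ^ 2)]
  congr 1
  funext s
  rw [← norm_neg, ← Finset.sum_neg_distrib]
  congr 2
  refine Finset.sum_congr rfl fun j _ => ?_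
  rw [sg_xor, smul_smul, neg_smul]

/-- the trivial bound -/
lemma av_le_card (D : Finset ι) (z : ι → E) (h : ∀ j ∈ D, ‖z j‖ ≤ 1) :
    av (fun s : ι → Bool => ‖∑ j ∈ D, sg (s j) • z j‖ ^ 2) ≤ (D.card : ℝ) ^ 2 := by
  rw [← av_const (ι := ι) ((D.card : ℝ) ^ 2)]
  refine av_mono fun s => ?_
  have h1 : ‖∑ j ∈ D, sg (s j) • z j‖ ≤ D.card := by
    calc ‖∑ j ∈ D, sg (s j) • z j‖ ≤ ∑ j ∈ D, ‖sg (s j) • z j‖ := norm_sum_le _ _
      _ ≤ ∑ j ∈ D, (1 : ℝ) := by
        refine Finset.sum_le_sum fun j hj => ?_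
        rw [norm_smul, Real.norm_eq_abs, abs_sg, one_mul]
        exact h j hj
      _ = D.card := by simp
  gcongr

end vec

end av

section ex

variable {ι Ω : Type} [Fintype ι] [DecidableEq ι] [Fintype Ω] {w : Ω → ℝ}

/-- sums of products over all functions -/
lemma sum_prod_fn {X : Type} [Fintype X] (f : ι → X → ℝ) :
    ∑ x : ι → X, ∏ j, f j (x j) = ∏ j, ∑ x, f j x := by
  rw [Finset.prod_univ_sum, Fintype.piFinset_univ]

lemma ex_mono (hw : ∀ ω, 0 ≤ w ω) {F G : (ι → Ω) → ℝ} (h : ∀ ω, F ω ≤ G ω) :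
    ex w F ≤ ex w G := by
  unfold ex
  exact Finset.sum_le_sum fun ω _ =>
    mul_le_mul_of_nonneg_left (h ω) (Finset.prod_nonneg fun j _ => hw _)

lemma ex_nonneg (hw : ∀ ω, 0 ≤ w ω) {F : (ι → Ω) → ℝ} (h : ∀ ω, 0 ≤ F ω) : 0 ≤ ex w F := by
  unfold ex
  exact Finset.sum_nonneg fun ω _ => mul_nonneg (Finset.prod_nonneg fun j _ => hw _) (h ω)

lemma ex_add (F G : (ι → Ω) → ℝ) : ex w (fun ω => F ω + G ω) = ex w F + ex w G := by
  unfold ex
  rw [← Finset.sum_add_distrib]
  exact Finset.sum_congr rfl fun ω _ => by ring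

lemma ex_sub (F G : (ι → Ω) → ℝ) : ex w (fun ω => F ω - G ω) = ex w F - ex w G := by
  unfold ex
  rw [← Finset.sum_sub_distrib]
  exact Finset.sum_congr rfl fun ω _ => by ring

lemma ex_mul_left (c : ℝ) (F : (ι → Ω) → ℝ) : ex w (fun ω => c * F ω) = c * ex w F := by
  unfold ex
  rw [Finset.mul_sum]
  exact Finset.sum_congr rfl fun ω _ => by ring

lemma ex_finsum {κ : Type*} (S : Finset κ) (F : κ → (ι → Ω) → ℝ) :
    ex w (fun ω => ∑ k ∈ S, F k ω) = ∑ k ∈ S, ex w (F k) := by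
  unfold ex
  rw [Finset.sum_comm]
  exact Finset.sum_congr rfl fun ω _ => by rw [Finset.mul_sum]

lemma ex_const (h1 : ∑ ω, w ω = 1) (c : ℝ) : ex w (fun _ : ι → Ω => c) = c := by
  unfold ex
  rw [← Finset.sum_mul, sum_prod_fn fun _ => w, h1, Finset.prod_const_one, one_mul]

/-- Cauchy-Schwarz -/
lemma ex_cs (hw : ∀ ω, 0 ≤ w ω) (F G : (ι → Ω) → ℝ) :
    ex w (fun ω => F ω * G ω) ^ 2 ≤ ex w (fun ω => F ω ^ 2) * ex w (fun ω => G ω ^ 2) := by
  unfold ex
  have hp : ∀ ω : ι → Ω, 0 ≤ ∏ j, w (ω j) := fun ω => Finset.prod_nonneg fun j _ => hw _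
  have h := Finset.sum_mul_sq_le_sq_mul_sq univ
    (fun ω : ι → Ω => Real.sqrt (∏ j, w (ω j)) * F ω)
    (fun ω : ι → Ω => Real.sqrt (∏ j, w (ω j)) * G ω)
  simp only [mul_pow, Real.sq_sqrt (hp _)] at h
  refine le_trans (le_of_eq ?_) h
  congr 1
  refine Finset.sum_congr rfl fun ω _ => ?_
  have := Real.mul_self_sqrt (hp ω)
  calc (∏ j, w (ω j)) * (F ω * G ω)
      = (Real.sqrt (∏ j, w (ω j)) * Real.sqrt (∏ j, w (ω j))) * (F ω * G ω) := by rw [this]
    _ = _ := by ring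

/-- a coordinate dependent product law: centred coordinate functions are orthogonal -/
lemma prod_orth {X : Type} [Fintype X] (ρ ξ : ι → X → ℝ) (h : ∀ j, ∑ x, ρ j x * ξ j x = 0) :
    ∑ x : ι → X, (∏ j, ρ j (x j)) * (∑ j, ξ j (x j)) ^ 2 =
      ∑ x : ι → X, (∏ j, ρ j (x j)) * ∑ j, ξ j (x j) ^ 2 := by
  have h1 : ∀ i j : ι, i ≠ j →
      ∑ x : ι → X, (∏ l, ρ l (x l)) * (ξ i (x i) * ξ j (x j)) = 0 := by
    intro i j hij
    have e1 : ∀ x : ι → X, (∏ l, ρ l (x l)) * (ξ i (x i) * ξ j (x j)) =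
        ∏ l, (ρ l (x l) * (if l = i then ξ i (x l) else 1) * (if l = j then ξ j (x l) else 1)) := by
      intro x
      rw [Finset.prod_mul_distrib, Finset.prod_mul_distrib, Finset.prod_ite_eq' univ i,
        Finset.prod_ite_eq' univ j, if_pos (Finset.mem_univ i), if_pos (Finset.mem_univ j)]
      ring
    rw [Finset.sum_congr rfl fun x _ => e1 x,
      sum_prod_fn fun l x => ρ l x * (if l = i then ξ i x else 1) * (if l = j then ξ j x else 1)]
    refine Finset.prod_eq_zero (Finset.mem_univ i) ?_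
    rw [← h i]
    refine Finset.sum_congr rfl fun x _ => ?_
    simp [hij]
  have h2 : ∀ x : ι → X, (∏ j, ρ j (x j)) * (∑ j, ξ j (x j)) ^ 2 =
      ∑ i, ∑ j, (∏ l, ρ l (x l)) * (ξ i (x i) * ξ j (x j)) := by
    intro x
    rw [pow_two, Finset.sum_mul_sum, Finset.mul_sum]
    exact Finset.sum_congr rfl fun i _ => by rw [Finset.mul_sum]
  have h3 : ∀ x : ι → X, (∏ j, ρ j (x j)) * ∑ j, ξ j (x j) ^ 2 =
      ∑ i, (∏ l, ρ l (x l)) * (ξ i (x i) * ξ i (x i)) := by
    intro x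
    rw [Finset.mul_sum]
    exact Finset.sum_congr rfl fun i _ => by rw [pow_two]
  rw [Finset.sum_congr rfl fun x _ => h2 x, Finset.sum_congr rfl fun x _ => h3 x,
    Finset.sum_comm, Finset.sum_comm (s := univ (α := ι → X))]
  refine Finset.sum_congr rfl fun i _ => ?_
  rw [Finset.sum_comm, Finset.sum_eq_single i]
  · intro j _ hj
    exact h1 i j (Ne.symm hj)
  · intro hi
    exact absurd (Finset.mem_univ i) hi

lemma ex_coord (h1 : ∑ ω, w ω = 1) (i : ι) (ξ : Ω → ℝ) :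
    ex w (fun ω : ι → Ω => ξ (ω i)) = ∑ x, w x * ξ x := by
  unfold ex
  have e1 : ∀ x : ι → Ω, (∏ l, w (x l)) * ξ (x i) =
      ∏ l, (w (x l) * (if l = i then ξ (x l) else 1)) := by
    intro x
    rw [Finset.prod_mul_distrib, Finset.prod_ite_eq' univ i, if_pos (Finset.mem_univ i)]
  rw [Finset.sum_congr rfl fun x _ => e1 x,
    sum_prod_fn fun l x => w x * (if l = i then ξ x else 1)]
  rw [Finset.prod_eq_single i]
  · simp
  · intro j _ hj
    simp [hj, h1]
  · intro hi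
    exact absurd (Finset.mem_univ i) hi

/-- mean of a sum of functions of the coordinates -/
lemma ex_sum (h1 : ∑ ω, w ω = 1) (D : Finset ι) (ξ : ι → Ω → ℝ) :
    ex w (fun ω : ι → Ω => ∑ j ∈ D, ξ j (ω j)) = ∑ j ∈ D, ∑ x, w x * ξ j x := by
  rw [ex_finsum]
  exact Finset.sum_congr rfl fun j _ => ex_coord h1 j _

/-- second moment of a sum of centred functions of the coordinates -/
lemma ex_orth (h1 : ∑ ω, w ω = 1) (D : Finset ι) (ξ : ι → Ω → ℝ)
    (h : ∀ j ∈ D, ∑ x, w x * ξ j x = 0) :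
    ex w (fun ω : ι → Ω => (∑ j ∈ D, ξ j (ω j)) ^ 2) = ∑ j ∈ D, ∑ x, w x * ξ j x ^ 2 := by
  have e0 : ∀ ω : ι → Ω, ∑ j ∈ D, ξ j (ω j) = ∑ j, (if j ∈ D then ξ j (ω j) else 0) := by
    intro ω
    rw [Finset.sum_ite_mem, Finset.univ_inter]
  have e1 := prod_orth (fun _ : ι => w) (fun j x => if j ∈ D then ξ j x else 0) (by
    intro j
    by_cases hj : j ∈ D
    · simpa [hj] using h j hj
    · simp [hj])
  have e2 : ex w (fun ω : ι → Ω => (∑ j ∈ D, ξ j (ω j)) ^ 2) =
      ∑ x : ι → Ω, (∏ j, w (x j)) * (∑ j, (if j ∈ D then ξ j (x j) else 0)) ^ 2 := by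
    unfold ex
    exact Finset.sum_congr rfl fun ω _ => by simp only [e0]
  have e3 : ∑ x : ι → Ω, (∏ j, w (x j)) * ∑ j, (if j ∈ D then ξ j (x j) else 0) ^ 2 =
      ex w (fun ω : ι → Ω => ∑ j ∈ D, ξ j (ω j) ^ 2) := by
    unfold ex
    refine Finset.sum_congr rfl fun ω _ => ?_
    congr 1
    have e4 : ∀ j, (if j ∈ D then ξ j (ω j) else 0) ^ 2 =
        if j ∈ D then ξ j (ω j) ^ 2 else 0 := by
      intro j
      split_ifs <;> simp
    rw [Finset.sum_congr rfl fun j _ => e4 j, Finset.sum_ite_mem, Finset.univ_inter]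
  rw [e2, e1, e3, ex_sum h1 D fun j x => ξ j x ^ 2]

end ex

section wt

variable {k : ℕ} {π : ℝ}

lemma wt_nonneg (h0 : 0 ≤ π) (h1 : π ≤ 1) (ω : (Fin k → Bool) × Option (Fin k)) :
    0 ≤ wt k π ω := by
  unfold wt
  refine div_nonneg ?_ (by positivity)
  split_ifs
  · linarith
  · positivity

/-- sums against the law of a coordinate -/
lemma wt_sum_mul (F : (Fin k → Bool) × Option (Fin k) → ℝ) :
    ∑ ω, wt k π ω * F ω = (1 - π) * ((∑ ε : Fin k → Bool, F (ε, none)) / 2 ^ k) +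
      π / k * ∑ i : Fin k, (∑ ε : Fin k → Bool, F (ε, some i)) / 2 ^ k := by
  rw [Fintype.sum_prod_type]
  simp only [Fintype.sum_option, wt, if_true, Finset.sum_add_distrib, reduceCtorEq, if_false]
  congr 1
  · rw [Finset.sum_div, Finset.mul_sum]
    exact Finset.sum_congr rfl fun ε _ => by ring
  · rw [Finset.sum_comm, Finset.mul_sum]
    refine Finset.sum_congr rfl fun i _ => ?_
    rw [Finset.sum_div, Finset.mul_sum]
    exact Finset.sum_congr rfl fun ε _ => by ring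

lemma wt_sum (hk : 1 ≤ k) : ∑ ω, wt k π ω = 1 := by
  have h := wt_sum_mul (k := k) (π := π) fun _ => 1
  simp only [mul_one] at h
  rw [h]
  have hk' : (k : ℝ) ≠ 0 := by positivity
  simp only [Finset.sum_const, Finset.card_univ, Fintype.card_fun, Fintype.card_bool,
    Fintype.card_fin, nsmul_eq_mul, mul_one]
  push_cast
  field_simp
  ring

/-- the probability of the modes `some i` -/
lemma wt_mode (hk : 1 ≤ k) : ∑ ω, wt k π ω * (if ω.2 = none then 0 else 1) = π := by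
  rw [wt_sum_mul (k := k) (π := π) fun ω => if ω.2 = none then 0 else 1]
  have hk' : (k : ℝ) ≠ 0 := by positivity
  simp only [if_true, reduceCtorEq, if_false, Finset.sum_const, Finset.card_univ,
    Fintype.card_fun, Fintype.card_bool, Fintype.card_fin, nsmul_eq_mul, mul_one]
  push_cast
  field_simp
  simp

end wt

end Pool.Agent.H65.BM
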