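import Pool.Agent.H65.BM.S4
import Pool.Agent.H65.BM.Tools

set_option autoImplicit false

/-! # BM4-CBS: a lower estimate for signed sums of arbitrary vectors -/

namespace Pool.Agent.H65.BM

open Pool.Agent.N314.OP Pool.Agent.N314.OP.Mod

namespace CBSAux

lemma min_le {E : Type} [NormedAddCommGroup E] [NormedSpace ℝ E] {c : ℝ}
    (hCB : CB E (1 / 2) c) {ι : Type} [Fintype ι] [DecidableEq ι] (v : ι → E) (S : Finset ι)
    {μ : ℝ} (hμ : 0 < μ) (h : ∀ j ∈ S, μ ≤ ‖v j‖) :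
    c * Real.sqrt S.card * μ ^ 2 ≤ av (fun θ : ι → Bool => ‖∑ i, sg (θ i) • v i‖ ^ 2) := by
  have h1 := hCB ι S (fun j => μ⁻¹ • v j) (by
    intro j hj
    rw [norm_smul, norm_inv, Real.norm_of_nonneg hμ.le, inv_mul_eq_div, le_div_iff₀ hμ, one_mul]
    exact h j hj)
  have h2 : av (fun s : ι → Bool => ‖∑ j ∈ S, sg (s j) • (μ⁻¹ • v j)‖ ^ 2) =
      (μ⁻¹) ^ 2 * av (fun s : ι → Bool => ‖∑ j ∈ S, sg (s j) • v j‖ ^ 2) := by
    rw [← av_mul_left]
    congr 1
    funext s
    have e1 : ∑ j ∈ S, sg (s j) • (μ⁻¹ • v j) = μ⁻¹ • ∑ j ∈ S, sg (s j) • v j := by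
      rw [Finset.smul_sum]
      exact Finset.sum_congr rfl fun j _ => smul_comm _ _ _
    rw [e1, norm_smul, mul_pow, norm_inv, Real.norm_of_nonneg hμ.le]
  have h3 := sym (Finset.subset_univ S) v
  rw [h2] at h1
  have e2 : (S.card : ℝ) ^ (1 - 1 / 2 : ℝ) = Real.sqrt S.card := by
    rw [Real.sqrt_eq_rpow]
    norm_num
  rw [e2, inv_pow, inv_mul_eq_div, le_div_iff₀ (by positivity)] at h1
  linarith

end CBSAux

open CBSAux in
theorem cbs : S_CBS := by
  intro E _ _ c hc hCB n v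
  obtain ⟨m, hm⟩ : ∃ m, m = av (fun θ : Fin n → Bool => ‖∑ i, sg (θ i) • v i‖ ^ 2) := ⟨_, rfl⟩
  have hm0 : 0 ≤ m := by rw [hm]; exact av_nonneg fun s => by positivity
  rw [← hm]
  have key : ∀ k : ℕ, ∀ S : Finset (Fin n), S.card = k →
      ∑ i ∈ S, ‖v i‖ ^ 2 ≤ 2 / c * Real.sqrt k * m := by
    intro k
    induction k with
    | zero =>
      intro S hS
      rw [Finset.card_eq_zero.1 hS]
      simp
    | succ k ih =>
      intro S hS
      obtain ⟨i₀, hi₀, hmin⟩ := S.exists_min_image (fun i => ‖v i‖)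
        (Finset.card_pos.1 (by omega))
      have h1 := ih (S.erase i₀) (by rw [Finset.card_erase_of_mem hi₀]; omega)
      rw [← Finset.add_sum_erase S _ hi₀]
      obtain ⟨a, ha⟩ : ∃ a, a = Real.sqrt ((k + 1 : ℕ) : ℝ) := ⟨_, rfl⟩
      obtain ⟨b, hb⟩ : ∃ b, b = Real.sqrt (k : ℝ) := ⟨_, rfl⟩
      have ha2 : a ^ 2 = k + 1 := by
        rw [ha, Real.sq_sqrt (by positivity)]
        push_cast
        ring
      have hb2 : b ^ 2 = k := by rw [hb, Real.sq_sqrt (by positivity)]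
      have ha0 : 0 < a := by rw [ha]; exact Real.sqrt_pos.2 (by positivity)
      have h2 : c * a * ‖v i₀‖ ^ 2 ≤ m := by
        rcases (norm_nonneg (v i₀)).eq_or_lt with h | h
        · rw [← h]
          simpa using hm0
        · have := min_le hCB v S h fun j hj => hmin j hj
          rw [hS, ← ha, ← hm] at this
          exact this
      rw [← ha]
      rw [← hb] at h1
      have h3 : 2 / c * a * m = (2 * a ^ 2 * m) / (c * a) := by field_simp
      have h4 : ‖v i₀‖ ^ 2 + 2 / c * b * m ≤ 2 / c * a * m := by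
        rw [h3, le_div_iff₀ (by positivity)]
        have h5 : (‖v i₀‖ ^ 2 + 2 / c * b * m) * (c * a) =
            c * a * ‖v i₀‖ ^ 2 + 2 * (a * b) * m := by field_simp
        rw [h5]
        have h6 : 1 + 2 * (a * b) ≤ 2 * a ^ 2 := by nlinarith [sq_nonneg (a - b)]
        nlinarith
      linarith
  have := key n Finset.univ (by simp)
  exact this

end Pool.Agent.H65.BM
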