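import Pool.Agent.H65.BM.S4
import Pool.Agent.H65.BM.Tools

set_option autoImplicit false

/-! # BM4-CC: contractions may be applied in each coordinate -/

namespace Pool.Agent.H65.BM

open Pool.Agent.N314.OP Pool.Agent.N314.OP.Mod

theorem cc : S_CC := by
  intro E _ _ K hK M N T l z ε hε hlen hsm s
  have key : ∀ n : ℕ, ∀ l' : Fin M → List (E ≃ₗᵢ[ℝ] E), (∀ i, l' i <:+ l i) →
      ∑ i, (l' i).length = n → ‖∑ i, sg (s i) • T i (wd K (l' i) (z i))‖ ≤
        ‖∑ i, sg (s i) • T i (z i)‖ + n * (M * ε) := by
    intro n
    induction n with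
    | zero =>
      intro l' _ h0
      have h1 : ∀ i, l' i = [] := by
        intro i
        have := (Finset.sum_eq_zero_iff.1 h0) i (Finset.mem_univ i)
        exact List.length_eq_zero_iff.1 this
      simp [h1, wd]
    | succ n ih =>
      intro l' hsuf hn
      obtain ⟨j, hj⟩ : ∃ j, l' j ≠ [] := by
        by_contra hcon
        push Not at hcon
        simp [hcon] at hn
      obtain ⟨g, r, hgr⟩ := List.exists_cons_of_ne_nil hj
      obtain ⟨l₂, hl₂⟩ : ∃ l₂, l₂ = Function.update l' j r := ⟨_, rfl⟩
      have hj₂ : l₂ j = r := by rw [hl₂]; simp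
      have hne₂ : ∀ i, i ≠ j → l₂ i = l' i := by
        intro i hi
        rw [hl₂]
        simp [hi]
      have hgl : g ∈ l j := (hsuf j).subset (by rw [hgr]; simp)
      have hsuf₂ : ∀ i, l₂ i <:+ l i := by
        intro i
        by_cases h : i = j
        · rw [h, hj₂]
          have h1 := hsuf j
          rw [hgr] at h1
          exact (List.suffix_cons g r).trans h1
        · rw [hne₂ i h]
          exact hsuf i
      have hn₂ : ∑ i, (l₂ i).length = n := by
        rw [← Finset.add_sum_erase _ _ (Finset.mem_univ j)] at hn ⊢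
        rw [hgr] at hn
        rw [hj₂]
        have h1 : ∑ i ∈ Finset.univ.erase j, (l₂ i).length =
            ∑ i ∈ Finset.univ.erase j, (l' i).length :=
          Finset.sum_congr rfl fun i hi => by rw [hne₂ i (Finset.ne_of_mem_erase hi)]
        rw [h1]
        simp only [List.length_cons] at hn
        omega
      have h1 := ih l₂ hsuf₂ hn₂
      -- one step
      set x : Fin M → E := fun i => sg (s i) • T i (wd K (l₂ i) (z i)) with hx
      set A : E → E := fun y => T j (g (K (g.symm ((T j).symm y)))) with hA
      have hcontr : ‖∑ i, x i - A (∑ i, x i)‖ ≤ ‖∑ i, x i‖ := by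
        obtain ⟨y, hy⟩ : ∃ y, y = g.symm ((T j).symm (∑ i, x i)) := ⟨_, rfl⟩
        have e1 : ∑ i, x i = T j (g y) := by rw [hy]; simp
        have e2 : A (∑ i, x i) = T j (g (K y)) := by rw [hA, hy]
        rw [e2, e1, ← map_sub, ← map_sub, LinearIsometryEquiv.norm_map,
          LinearIsometryEquiv.norm_map, LinearIsometryEquiv.norm_map, LinearIsometryEquiv.norm_map]
        exact hK y
      have hsum : A (∑ i, x i) = ∑ i, A (x i) := by
        rw [hA]
        simp only [map_sum]
      have hterm : ∀ i, ‖sg (s i) • T i (wd K (l' i) (z i)) - (x i - A (x i))‖ ≤ ε := by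
        intro i
        by_cases h : i = j
        · subst h
          have e1 : sg (s i) • T i (wd K (l' i) (z i)) = x i - A (x i) := by
            rw [hx, hA]
            simp only [hj₂, hgr, wd, map_sub, map_smul, smul_sub, LinearIsometryEquiv.symm_apply_apply]
          rw [e1, sub_self, norm_zero]
          exact hε
        · have e1 : sg (s i) • T i (wd K (l' i) (z i)) = x i := by
            rw [hx]
            simp only [hne₂ i h]
          rw [e1, sub_sub_cancel]
          have e2 : A (x i) = sg (s i) • T j (g (K (g.symm ((T j).symm (T i (wd K (l₂ i) (z i))))))) := by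
            rw [hA, hx]
            simp only [map_smul]
          rw [e2, norm_smul, Real.norm_eq_abs, abs_sg, one_mul, LinearIsometryEquiv.norm_map,
            LinearIsometryEquiv.norm_map]
          exact hsm i j h g hgl (l₂ i) (hsuf₂ i)
      have hfin : ‖∑ i, sg (s i) • T i (wd K (l' i) (z i))‖ ≤ ‖∑ i, x i‖ + M * ε := by
        have e1 : ∑ i, sg (s i) • T i (wd K (l' i) (z i)) =
            (∑ i, x i - A (∑ i, x i)) +
              ∑ i, (sg (s i) • T i (wd K (l' i) (z i)) - (x i - A (x i))) := by
          rw [hsum, ← Finset.sum_sub_distrib, ← Finset.sum_add_distrib]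
          exact Finset.sum_congr rfl fun i _ => by abel
        rw [e1]
        refine (norm_add_le _ _).trans (add_le_add hcontr ?_)
        refine (norm_sum_le _ _).trans ?_
        calc ∑ i, ‖sg (s i) • T i (wd K (l' i) (z i)) - (x i - A (x i))‖ ≤ ∑ i : Fin M, ε :=
              Finset.sum_le_sum fun i _ => hterm i
          _ = M * ε := by simp
      push_cast
      have e3 : ((n : ℝ) + 1) * (M * ε) = n * (M * ε) + M * ε := by ring
      rw [e3]
      linarith
  have h1 := key _ l (fun i => List.suffix_refl _) rfl
  refine h1.trans (add_le_add le_rfl ?_)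
  refine mul_le_mul_of_nonneg_right ?_ (by positivity)
  have h2 : ∑ i, (l i).length ≤ M * N := by
    calc ∑ i, (l i).length ≤ ∑ i : Fin M, N := Finset.sum_le_sum fun i _ => hlen i
      _ = M * N := by simp
  exact_mod_cast h2

end Pool.Agent.H65.BM
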