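import Pool.Agent.H65.BM.S3

set_option autoImplicit false

/-! # BM-CIS: the central inequality from `OpS` (helper75; adapted from `CI.lean`) -/

namespace Pool.Agent.H65.BM

open Pool.Agent.N314.OP Pool.Agent.N314.OP.Mod

namespace CISAux

theorem mean_le {Ω : Type} [Fintype Ω] (w x : Ω → ℝ) (hw : ∀ ω, 0 ≤ w ω) (h1 : ∑ ω, w ω = 1) :
    ∑ ω, w ω * x ω ≤ Real.sqrt (∑ ω, w ω * x ω ^ 2) := by
  obtain ⟨a, ha⟩ : ∃ a, a = ∑ ω, w ω * x ω := ⟨_, rfl⟩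
  have h2 : 0 ≤ ∑ ω, w ω * (x ω - a) ^ 2 :=
    Finset.sum_nonneg fun ω _ => mul_nonneg (hw ω) (sq_nonneg _)
  have h3 : ∑ ω, w ω * (x ω - a) ^ 2 = ∑ ω, w ω * x ω ^ 2 - a ^ 2 := by
    have e : ∀ ω, w ω * (x ω - a) ^ 2 = w ω * x ω ^ 2 - 2 * a * (w ω * x ω) + a ^ 2 * w ω := by
      intro ω; ring
    rw [Finset.sum_congr rfl fun ω _ => e ω, Finset.sum_add_distrib, Finset.sum_sub_distrib,
      ← Finset.mul_sum, ← Finset.mul_sum, h1, ← ha]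
    ring
  rw [← ha]
  exact (le_abs_self a).trans (Real.abs_le_sqrt (by linarith))

variable {E : Type} [NormedAddCommGroup E] [NormedSpace ℝ E]

theorem core {J : E → StrongDual ℝ E} {C B C' s : ℝ} (hC : 1 ≤ C) (hB : 0 ≤ B) (hJ : JP E C B J)
    (hC' : 0 ≤ C') (hs : 0 < s) (hO : OpS E C' s) {Ω : Type} [Fintype Ω] (w : Ω → ℝ) (Y : Ω → E) (u : E)
    (δ σ : ℝ) (hw : ∀ ω, 0 ≤ w ω) (h1 : ∑ ω, w ω = 1) (hδ : 0 < δ) (hδ1 : δ ≤ 1) (hσ : 0 ≤ σ)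
    (hg : ∀ g : StrongDual ℝ E, ‖g‖ ≤ 1 → ∑ ω, w ω * (g (Y ω)) ^ 2 ≤ σ ^ 2) (hu : ‖u‖ = 1) :
    -∑ ω, w ω * J (Y ω) u ≤
      (1 + C + 8 * C') * (δ * Real.sqrt (∑ ω, w ω * ‖Y ω‖ ^ 2) +
        δ ^ (-(B + 2 + (B + 3) / s)) * σ) := by
  obtain ⟨Λ, hΛ⟩ : ∃ Λ, Λ = Real.sqrt (∑ ω, w ω * ‖Y ω‖ ^ 2) := ⟨_, rfl⟩
  have hΛ0 : 0 ≤ Λ := hΛ ▸ Real.sqrt_nonneg _
  have hΛ2 : Λ ^ 2 = ∑ ω, w ω * ‖Y ω‖ ^ 2 := by
    rw [hΛ, Real.sq_sqrt (Finset.sum_nonneg fun ω _ => mul_nonneg (hw ω) (sq_nonneg _))]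
  have hm := mean_le w (fun ω => ‖Y ω‖) hw h1
  rw [← hΛ] at hm ⊢
  have hS : |∑ ω, w ω * J (Y ω) u| ≤ 2 * Λ := by
    refine (Finset.abs_sum_le_sum_abs _ _).trans ?_
    have : ∀ ω, |w ω * J (Y ω) u| ≤ 2 * (w ω * ‖Y ω‖) := by
      intro ω
      rw [abs_mul, abs_of_nonneg (hw ω)]
      have := mul_le_mul_of_nonneg_left (hJ.bd (Y ω) u) (hw ω)
      rw [hu] at this
      linarith
    refine (Finset.sum_le_sum fun ω _ => this ω).trans ?_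
    rw [← Finset.mul_sum]
    linarith
  have hδp : 0 < δ ^ (-(B + 2)) := Real.rpow_pos_of_pos hδ _
  have hδA : 0 < δ ^ (-(B + 2 + (B + 3) / s)) := Real.rpow_pos_of_pos hδ _
  obtain ⟨l, hl⟩ : ∃ l, l = δ ^ (-((B + 3) / s)) := ⟨_, rfl⟩
  have hl1 : 1 ≤ l := by
    rw [hl]
    exact Real.one_le_rpow_of_pos_of_le_one_of_nonpos hδ hδ1 (neg_nonpos.2 (by positivity))
  have hl0 : 0 < l := by linarith
  have hls : l ^ (-s) = δ ^ (B + 3) := by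
    rw [hl, ← Real.rpow_mul hδ.le]
    congr 1
    field_simp
  have hlA : δ ^ (-(B + 2)) * l = δ ^ (-(B + 2 + (B + 3) / s)) := by
    rw [hl, ← Real.rpow_add hδ]
    congr 1
    ring
  rcases hΛ0.eq_or_lt with h0 | hpos
  · rw [← h0] at hS ⊢
    have h2 := (abs_le.1 hS).1
    have h3 : 0 ≤ (1 + C + 8 * C') * (δ * 0 + δ ^ (-(B + 2 + (B + 3) / s)) * σ) := by positivity
    linarith
  obtain ⟨t, ht⟩ : ∃ t, t = δ ^ (B + 1) * Λ := ⟨_, rfl⟩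
  have hδB : 0 < δ ^ (B + 1) := Real.rpow_pos_of_pos hδ _
  have ht0 : 0 < t := by rw [ht]; positivity
  obtain ⟨m, hmd⟩ : ∃ m, m = ⌈1 / δ⌉₊ := ⟨_, rfl⟩
  have hm1 : 1 / δ ≤ m := hmd ▸ Nat.le_ceil _
  have hm2 : (m : ℝ) ≤ 2 / δ := by
    have h2 : (m : ℝ) < 1 / δ + 1 := hmd ▸ Nat.ceil_lt_add_one (by positivity)
    have h3 : 1 ≤ 1 / δ := by rw [le_div_iff₀ hδ]; linarith
    have h4 : 2 / δ = 1 / δ + 1 / δ := by ring
    linarith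
  have hm0 : (0 : ℝ) < m := lt_of_lt_of_le (by positivity) hm1
  have hmN : 1 ≤ m := by exact_mod_cast hm0
  -- the operator inequality
  have hop := hO Ω w Y (t • u) m σ l hw h1 hmN hσ hl1 hg
  rw [← hΛ, norm_smul, hu, mul_one, Real.norm_of_nonneg ht0.le] at hop
  obtain ⟨P, hP⟩ : ∃ P, P = Real.sqrt (∑ ω, w ω * ‖Y ω + t • u‖ ^ 2) := ⟨_, rfl⟩
  have hP0 : 0 ≤ P := hP ▸ Real.sqrt_nonneg _
  have hP2 : P ^ 2 = ∑ ω, w ω * ‖Y ω + t • u‖ ^ 2 := by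
    rw [hP, Real.sq_sqrt (Finset.sum_nonneg fun ω _ => mul_nonneg (hw ω) (sq_nonneg _))]
  rw [← hP] at hop
  rw [hls] at hop
  have hδ3 : 0 < δ ^ (B + 3) := Real.rpow_pos_of_pos hδ _
  obtain ⟨e, he⟩ : ∃ e, e = C' * (t / m + m * (l * σ + δ ^ (B + 3) * Λ)) := ⟨_, rfl⟩
  have he0 : 0 ≤ e := by rw [he]; positivity
  rw [← he] at hop
  have h5 : Λ ^ 2 ≤ P ^ 2 + 2 * Λ * e := by
    rcases le_or_gt e Λ with h | h
    · nlinarith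
    · nlinarith
  -- smoothness
  have h6 : P ^ 2 ≤ Λ ^ 2 + t * ∑ ω, w ω * J (Y ω) u + δ * t * ∑ ω, w ω * ‖Y ω‖ +
      C * δ ^ (-B) * t ^ 2 := by
    rw [hP2, hΛ2]
    have h7 : ∀ ω, w ω * ‖Y ω + t • u‖ ^ 2 ≤ w ω * ‖Y ω‖ ^ 2 + t * (w ω * J (Y ω) u) +
        δ * t * (w ω * ‖Y ω‖) + C * δ ^ (-B) * t ^ 2 * w ω := by
      intro ω
      have h8 := hJ.up (Y ω) (t • u) δ hδ hδ1
      rw [norm_smul, hu, mul_one, Real.norm_of_nonneg ht0.le, map_smul, smul_eq_mul] at h8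
      have h9 := mul_le_mul_of_nonneg_left h8 (hw ω)
      linarith
    refine (Finset.sum_le_sum fun ω _ => h7 ω).trans (le_of_eq ?_)
    rw [Finset.sum_add_distrib, Finset.sum_add_distrib, Finset.sum_add_distrib, ← Finset.mul_sum,
      ← Finset.mul_sum, ← Finset.mul_sum, h1, mul_one]
  obtain ⟨S, hSd⟩ : ∃ S, S = ∑ ω, w ω * J (Y ω) u := ⟨_, rfl⟩
  rw [← hSd] at h6 ⊢
  have h7 : δ * t * ∑ ω, w ω * ‖Y ω‖ ≤ δ * t * Λ :=
    mul_le_mul_of_nonneg_left hm (by positivity)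
  -- collect
  have e1 : δ ^ (-B) * δ ^ (B + 1) = δ := by
    rw [← Real.rpow_add hδ]
    have : -B + (B + 1) = 1 := by ring
    rw [this, Real.rpow_one]
  have e2 : δ ^ (-(B + 2)) * δ ^ (B + 1) * δ = 1 := by
    rw [← Real.rpow_add hδ]
    have : -(B + 2) + (B + 1) = -1 := by ring
    rw [this, Real.rpow_neg_one, inv_mul_cancel₀ hδ.ne']
  have h8 : -(t * S) ≤ δ * t * Λ + C * δ ^ (-B) * t ^ 2 + 2 * Λ * e := by linarith
  have h9 : C * δ ^ (-B) * t ^ 2 = t * (C * δ * Λ) := by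
    have : C * δ ^ (-B) * t ^ 2 = t * (C * (δ ^ (-B) * δ ^ (B + 1)) * Λ) := by
      rw [ht]; ring
    rw [this, e1]
  have h10 : Λ * (t / m) ≤ t * (δ * Λ) := by
    have : 1 / (m : ℝ) ≤ δ := by
      rw [div_le_iff₀ hm0]
      rw [div_le_iff₀ hδ] at hm1
      linarith
    have h11 := mul_le_mul_of_nonneg_left this (by positivity : 0 ≤ Λ * t)
    calc Λ * (t / m) = Λ * t * (1 / m) := by ring
      _ ≤ Λ * t * δ := h11
      _ = _ := by ring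
  have h13 : (m : ℝ) * δ ≤ 2 := by rwa [le_div_iff₀ hδ] at hm2
  have h12 : Λ * (m * (l * σ)) ≤ t * (2 * (δ ^ (-(B + 2 + (B + 3) / s)) * σ)) := by
    have h14 : Λ * (m * (l * σ)) = (m * δ) * (t * (δ ^ (-(B + 2 + (B + 3) / s)) * σ)) := by
      have : (m * δ) * (t * (δ ^ (-(B + 2 + (B + 3) / s)) * σ)) =
          (δ ^ (-(B + 2)) * δ ^ (B + 1) * δ) * (Λ * (m * (l * σ))) := by
        rw [ht, ← hlA]; ring
      rw [this, e2, one_mul]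
    rw [h14]
    have h15 : 0 ≤ t * (δ ^ (-(B + 2 + (B + 3) / s)) * σ) := by positivity
    nlinarith
  have e3 : δ ^ (B + 3) = δ ^ (B + 1) * δ * δ := by
    rw [mul_assoc, show δ * δ = δ ^ (2 : ℝ) by rw [Real.rpow_two]; ring, ← Real.rpow_add hδ]
    congr 1
    ring
  have h12' : Λ * (m * (δ ^ (B + 3) * Λ)) ≤ t * (2 * (δ * Λ)) := by
    have h14 : Λ * (m * (δ ^ (B + 3) * Λ)) = (m * δ) * (t * (δ * Λ)) := by
      rw [ht, e3]; ring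
    rw [h14]
    have h15 : 0 ≤ t * (δ * Λ) := by positivity
    nlinarith
  have h20 : 0 ≤ δ * Λ := by positivity
  have h21 : 0 ≤ δ ^ (-(B + 2 + (B + 3) / s)) * σ := by positivity
  obtain ⟨D, hD⟩ : ∃ D, D = δ ^ (-(B + 2 + (B + 3) / s)) * σ := ⟨_, rfl⟩
  rw [← hD] at h12 h21 ⊢
  have h16 : 2 * Λ * e ≤ t * (6 * C' * (δ * Λ) + 4 * C' * D) := by
    have h17 := mul_le_mul_of_nonneg_left (add_le_add (add_le_add h10 h12) h12')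
      (by positivity : 0 ≤ 2 * C')
    calc 2 * Λ * e = 2 * C' * (Λ * (t / m) + Λ * (m * (l * σ)) + Λ * (m * (δ ^ (B + 3) * Λ))) := by
          rw [he]; ring
      _ ≤ _ := h17
      _ = _ := by ring
  have h18 : t * (-S) ≤ t * ((1 + C + 6 * C') * (δ * Λ) + 4 * C' * D) := by
    rw [h9] at h8
    linarith
  have h19 := le_of_mul_le_mul_left h18 ht0
  have h22 := mul_nonneg hC' h20
  have h23 := mul_nonneg hC' h21
  have h24 : 0 ≤ C * D := mul_nonneg (by linarith) h21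
  nlinarith

end CISAux

open CISAux in
theorem cis : S_CIS := by
  intro E _ _ J C B C' s hC hB hJ hC' hs hO
  refine ⟨1 + C + 8 * C', B + 2 + (B + 3) / s, by linarith, by positivity, ?_⟩
  intro Ω _ w Y v δ σ hw h1 hδ hδ1 hσ hg
  rcases eq_or_ne v 0 with rfl | hv
  · simp
  have hv0 : 0 < ‖v‖ := norm_pos_iff.2 hv
  obtain ⟨u, hu⟩ : ∃ u, u = ‖v‖⁻¹ • v := ⟨_, rfl⟩
  have hu1 : ‖u‖ = 1 := by
    rw [hu, norm_smul, norm_inv, norm_norm, inv_mul_cancel₀ hv0.ne']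
  have hvu : v = ‖v‖ • u := by rw [hu, smul_smul, mul_inv_cancel₀ hv0.ne', one_smul]
  have e1 : ∑ ω, w ω * J (Y ω) v = ‖v‖ * ∑ ω, w ω * J (Y ω) u := by
    rw [Finset.mul_sum]
    refine Finset.sum_congr rfl fun ω _ => ?_
    conv_lhs => rw [hvu]
    rw [map_smul, smul_eq_mul]
    ring
  have h2 := core hC hB hJ hC' hs hO w Y u δ σ hw h1 hδ hδ1 hσ hg hu1
  have h3 := core hC hB hJ hC' hs hO w Y (-u) δ σ hw h1 hδ hδ1 hσ hg (by rw [norm_neg, hu1])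
  have e2 : ∑ ω, w ω * J (Y ω) (-u) = -∑ ω, w ω * J (Y ω) u := by
    rw [← Finset.sum_neg_distrib]
    refine Finset.sum_congr rfl fun ω _ => ?_
    rw [map_neg]
    ring
  rw [e2, neg_neg] at h3
  rw [e1, abs_mul, abs_norm]
  have h4 := mul_le_mul_of_nonneg_left (abs_le.2 ⟨by linarith, h3⟩) hv0.le
  refine h4.trans (le_of_eq ?_)
  ring

end Pool.Agent.H65.BM
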