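import Pool.Agent.H65.BM.S4

/-!
# Stub BM4-CON: the contraction principle
-/

set_option autoImplicit false

namespace Pool.Agent.H65.BM.Con68

open Pool.Agent.H65.BM

variable {E : Type} [NormedAddCommGroup E] [NormedSpace ℝ E]
variable {ι : Type} [Fintype ι] [DecidableEq ι]

/-- convexity of the square of the norm -/
theorem sq_conv (u v : E) {a b : ℝ} (ha : 0 ≤ a) (hb : 0 ≤ b) (hab : a + b = 1) :
    ‖a • u + b • v‖ ^ 2 ≤ a * ‖u‖ ^ 2 + b * ‖v‖ ^ 2 := by
  have h1 : ‖a • u + b • v‖ ≤ a * ‖u‖ + b * ‖v‖ := by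
    refine (norm_add_le _ _).trans ?_
    rw [norm_smul, norm_smul, Real.norm_of_nonneg ha, Real.norm_of_nonneg hb]
  have h2 : ‖a • u + b • v‖ ^ 2 ≤ (a * ‖u‖ + b * ‖v‖) ^ 2 := by gcongr
  have h3 : b = 1 - a := by linarith
  subst h3
  nlinarith [mul_nonneg (mul_nonneg ha hb) (sq_nonneg (‖u‖ - ‖v‖))]

/-- one coefficient is replaced by the maximal value -/
theorem step (x : ι → E) {A : ℝ} (hA : 0 < A) (r : ι → ℝ) (i : ι) (hi : |r i| ≤ A) :
    av (fun s : ι → Bool => ‖∑ j, sg (s j) • (r j • x j)‖ ^ 2) ≤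
      av (fun s : ι → Bool => ‖∑ j, sg (s j) • (Function.update r i A j • x j)‖ ^ 2) := by
  have hb := abs_le.1 hi
  obtain ⟨a, ha⟩ : ∃ a, a = (1 + r i / A) / 2 := ⟨_, rfl⟩
  obtain ⟨b, hb'⟩ : ∃ b, b = (1 - r i / A) / 2 := ⟨_, rfl⟩
  have h1 : -1 ≤ r i / A := by rw [le_div_iff₀ hA]; linarith
  have h2 : r i / A ≤ 1 := by rw [div_le_one hA]; linarith
  have ha0 : 0 ≤ a := by rw [ha]; linarith
  have hb0 : 0 ≤ b := by rw [hb']; linarith
  have hab : a + b = 1 := by rw [ha, hb']; ring
  have hri : r i = a * A + b * (-A) := by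
    rw [ha, hb']
    field_simp
    ring
  have h3 : ∀ s : ι → Bool, ‖∑ j, sg (s j) • (r j • x j)‖ ^ 2 ≤
      a * ‖∑ j, sg (s j) • (Function.update r i A j • x j)‖ ^ 2 +
        b * ‖∑ j, sg (s j) • (sg (decide (j ≠ i)) • (Function.update r i A j • x j))‖ ^ 2 := by
    intro s
    refine le_trans (le_of_eq ?_) (sq_conv _ _ ha0 hb0 hab)
    congr 2
    rw [Finset.smul_sum, Finset.smul_sum, ← Finset.sum_add_distrib]
    refine Finset.sum_congr rfl fun j _ => ?_
    by_cases hj : j = i
    · subst hj
      simp only [Function.update_self, ne_eq, not_true_eq_false, decide_false, sg_false]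
      rw [hri]
      module
    · have h4 : sg (decide (j ≠ i)) = 1 := by simp [hj, sg]
      rw [h4, Function.update_of_ne hj, one_smul]
      have h5 : a • (sg (s j) • (r j • x j)) + b • (sg (s j) • (r j • x j)) =
        (a + b) • (sg (s j) • (r j • x j)) := by rw [add_smul]
      rw [h5, hab, one_smul]
  calc av (fun s : ι → Bool => ‖∑ j, sg (s j) • (r j • x j)‖ ^ 2)
      ≤ av (fun s : ι → Bool => a * ‖∑ j, sg (s j) • (Function.update r i A j • x j)‖ ^ 2 +
        b * ‖∑ j, sg (s j) • (sg (decide (j ≠ i)) • (Function.update r i A j • x j))‖ ^ 2) :=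
        av_mono h3
    _ = av (fun s : ι → Bool => ‖∑ j, sg (s j) • (Function.update r i A j • x j)‖ ^ 2) := by
      rw [av_add, av_mul_left, av_mul_left,
        av_signs (fun j => decide (j ≠ i)) Finset.univ fun j => Function.update r i A j • x j,
        ← add_mul, hab, one_mul]

end Pool.Agent.H65.BM.Con68

namespace Pool.Agent.H65.BM

open Con68

theorem con : S_CON := by
  intro E _ _ ι _ _ r x A hA hr
  rcases hA.eq_or_lt with hA0 | hA0
  · have h0 : ∀ i, r i = 0 := fun i => abs_eq_zero.1 (le_antisymm (by rw [hA0]; exact hr i)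
      (abs_nonneg _))
    have h1 : ∀ s : ι → Bool, ‖∑ i, sg (s i) • (r i • x i)‖ ^ 2 = 0 := by
      intro s
      simp [h0]
    rw [← hA0]
    simp only [h1]
    rw [av_const]
    simp
  · have key : ∀ (S : Finset ι) (r : ι → ℝ), (∀ i, |r i| ≤ A) → (∀ i, i ∉ S → r i = A) →
        av (fun s : ι → Bool => ‖∑ i, sg (s i) • (r i • x i)‖ ^ 2) ≤
          A ^ 2 * av (fun s : ι → Bool => ‖∑ i, sg (s i) • x i‖ ^ 2) := by
      intro S
      induction S using Finset.induction_on with
      | empty =>
        intro r _ h2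
        rw [← av_mul_left]
        refine av_mono fun s => le_of_eq ?_
        have h3 : ∑ i, sg (s i) • (r i • x i) = A • ∑ i, sg (s i) • x i := by
          rw [Finset.smul_sum]
          refine Finset.sum_congr rfl fun i _ => ?_
          rw [h2 i (by simp), smul_comm]
        rw [h3, norm_smul, Real.norm_of_nonneg hA, mul_pow]
      | insert i S hi ih =>
        intro r h1 h2
        refine (step x hA0 r i (h1 i)).trans (ih _ ?_ ?_)
        · intro j
          by_cases hj : j = i
          · subst hj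
            rw [Function.update_self, abs_of_pos hA0]
          · rw [Function.update_of_ne hj]
            exact h1 j
        · intro j hjS
          by_cases hj : j = i
          · subst hj
            rw [Function.update_self]
          · rw [Function.update_of_ne hj]
            exact h2 j (by simp [hj, hjS])
    exact key Finset.univ r hr fun i hi => absurd (Finset.mem_univ i) hi

end Pool.Agent.H65.BM
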