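import Pool.Agent.H65.BM.S
import Pool.Agent.H65.BM.Tools

/-!
# Project BM: lower estimates by duality
-/

set_option autoImplicit false

namespace Pool.Agent.H65.BM

theorem cot : S_COT := by
  intro E _ _ η B hη0 hη1 hB hTB ι _ _ D z hz
  rcases D.eq_empty_or_nonempty with hD | hD
  · subst hD
    simp only [Finset.card_empty, Nat.cast_zero, Finset.sum_empty, norm_zero]
    rw [Real.zero_rpow (by linarith), mul_zero]
    exact av_nonneg fun s => by positivity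
  have hN : 0 < (D.card : ℝ) := by exact_mod_cast Finset.card_pos.2 hD
  choose f hf1 hf2 using fun j => exists_dual_vector'' ℝ (z j)
  have hf2' : ∀ j, f j (z j) = ‖z j‖ := fun j => hf2 j
  set a := av (fun s : ι → Bool => ‖∑ j ∈ D, sg (s j) • z j‖ ^ 2) with ha
  set b := av (fun s : ι → Bool => ‖∑ j ∈ D, sg (s j) • f j‖ ^ 2) with hb
  have ha0 : 0 ≤ a := av_nonneg fun s => by positivity
  have hb1 : b ≤ B * (D.card : ℝ) ^ (1 + η) := hTB ι D f fun j _ => hf1 j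
  have hb0 : 0 ≤ b := av_nonneg fun s => by positivity
  -- the diagonal
  have e1 : ∀ s : ι → Bool, (∑ i ∈ D, sg (s i) • f i) (∑ j ∈ D, sg (s j) • z j) =
      ∑ i ∈ D, ∑ j ∈ D, f i (z j) * (sg (s i) * sg (s j)) := by
    intro s
    rw [map_sum, Finset.sum_comm]
    refine Finset.sum_congr rfl fun j _ => ?_
    rw [FunLike.coe_sum, Finset.sum_apply]
    refine Finset.sum_congr rfl fun i _ => ?_
    rw [map_smul]
    simp only [_root_.smul_apply, smul_eq_mul]
    ring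
  have e2 : av (fun s : ι → Bool => (∑ i ∈ D, sg (s i) • f i) (∑ j ∈ D, sg (s j) • z j)) =
      ∑ i ∈ D, ‖z i‖ := by
    simp_rw [e1]
    rw [av_sum]
    refine Finset.sum_congr rfl fun i hi => ?_
    rw [av_sum]
    simp_rw [av_mul_left, av_sg_mul_sg]
    simp [hi, hf2']
  have e3 : (D.card : ℝ) ≤ av (fun s : ι → Bool =>
      ‖∑ i ∈ D, sg (s i) • f i‖ * ‖∑ j ∈ D, sg (s j) • z j‖) := by
    calc (D.card : ℝ) = ∑ i ∈ D, (1 : ℝ) := by simp
      _ ≤ ∑ i ∈ D, ‖z i‖ := Finset.sum_le_sum fun i hi => hz i hi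
      _ = _ := e2.symm
      _ ≤ _ := av_mono fun s => (le_abs_self _).trans
        ((∑ i ∈ D, sg (s i) • f i).le_opNorm _)
  have e4 := av_cs (fun s : ι → Bool => ‖∑ i ∈ D, sg (s i) • f i‖)
    (fun s : ι → Bool => ‖∑ j ∈ D, sg (s j) • z j‖)
  have e5 : (D.card : ℝ) ^ 2 ≤ b * a := (pow_le_pow_left₀ hN.le e3 2).trans e4
  have e6 : (D.card : ℝ) ^ 2 ≤ B * (D.card : ℝ) ^ (1 + η) * a := e5.trans (by gcongr)
  have e7 : (D.card : ℝ) ^ (1 - η) * (D.card : ℝ) ^ (1 + η) = (D.card : ℝ) ^ 2 := by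
    rw [← Real.rpow_add hN, ← Real.rpow_natCast]
    congr 1
    norm_num
  have hp : 0 < (D.card : ℝ) ^ (1 + η) := Real.rpow_pos_of_pos hN _
  rw [← e7] at e6
  have e8 : (D.card : ℝ) ^ (1 - η) ≤ B * a := by
    have : (D.card : ℝ) ^ (1 - η) * (D.card : ℝ) ^ (1 + η) ≤ (B * a) * (D.card : ℝ) ^ (1 + η) := by
      linarith
    exact le_of_mul_le_mul_right this hp
  rw [one_div, inv_mul_le_iff₀ hB]
  exact e8

end Pool.Agent.H65.BM
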