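import Pool.Agent.H65.BM.S

/-! BM-DAT: the dual of an almost transitive smooth space is almost transitive. -/

set_option autoImplicit false

namespace Pool.Agent.H65.BM

open Pool.Agent.N314.OP Pool.Agent.N314.OP.Mod

namespace DATAux

variable {E : Type} [NormedAddCommGroup E] [NormedSpace ℝ E]

/-- composition with the inverse of an isometry -/
noncomputable def du (T : E ≃ₗᵢ[ℝ] E) : StrongDual ℝ E ≃ₗᵢ[ℝ] StrongDual ℝ E where
  toFun f := f.comp (T.symm.toContinuousLinearEquiv : E →L[ℝ] E)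
  invFun f := f.comp (T.toContinuousLinearEquiv : E →L[ℝ] E)
  left_inv f := by ext x; simp
  right_inv f := by ext x; simp
  map_add' f g := by ext x; simp
  map_smul' c f := by ext x; simp
  norm_map' f := by
    apply le_antisymm
    · refine ContinuousLinearMap.opNorm_le_bound _ (norm_nonneg _) fun x => ?_
      have h := f.le_opNorm (T.symm x)
      rw [T.symm.norm_map] at h
      exact h
    · refine ContinuousLinearMap.opNorm_le_bound _ (norm_nonneg _) fun x => ?_
      have h := (f.comp (T.symm.toContinuousLinearEquiv : E →L[ℝ] E)).le_opNorm (T x)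
      rw [T.norm_map] at h
      simpa using h

theorem du_apply (T : E ≃ₗᵢ[ℝ] E) (f : StrongDual ℝ E) (x : E) : du T f x = f (T.symm x) := rfl

/-- a unit vector which almost norms `f` -/
theorem exists_unit (f : StrongDual ℝ E) (hf : ‖f‖ = 1) {δ : ℝ} (hδ : 0 < δ) (hδ1 : δ ≤ 1) :
    ∃ x : E, ‖x‖ = 1 ∧ 1 - δ ≤ f x := by
  obtain ⟨x, hx1, hx2⟩ := f.exists_lt_apply_of_lt_opNorm (r := 1 - δ) (by linarith)
  have hx0 : x ≠ 0 := by
    rintro rfl
    rw [map_zero, norm_zero] at hx2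
    linarith
  have hxp : 0 < ‖x‖ := norm_pos_iff.2 hx0
  have key : ∀ y : E, y ≠ 0 → ‖y‖ < 1 → 1 - δ < f y → ∃ x : E, ‖x‖ = 1 ∧ 1 - δ ≤ f x := by
    intro y hy0 hy1 hy2
    have hyp : 0 < ‖y‖ := norm_pos_iff.2 hy0
    refine ⟨‖y‖⁻¹ • y, ?_, ?_⟩
    · rw [norm_smul, norm_inv, norm_norm, inv_mul_cancel₀ hyp.ne']
    · rw [map_smul, smul_eq_mul, inv_mul_eq_div, le_div_iff₀ hyp]
      nlinarith
  rw [Real.norm_eq_abs] at hx2
  rcases le_total 0 (f x) with h | h
  · rw [abs_of_nonneg h] at hx2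
    exact key x hx0 hx1 hx2
  · rw [abs_of_nonpos h] at hx2
    exact key (-x) (neg_ne_zero.2 hx0) (by rwa [norm_neg]) (by rwa [map_neg])

end DATAux

open DATAux in
theorem dat : S_DAT := by
  intro E _ _ hAT hUS f g hf hg ε hε
  obtain ⟨p, K, hp1, hp2, hK, hus⟩ := hUS
  -- choice of `s`, `δ`
  obtain ⟨s, hs0, hs1⟩ : ∃ s : ℝ, 0 < s ∧ K * s ^ p ≤ s * (ε / 4) := by
    refine ⟨(ε / (4 * K)) ^ (1 / (p - 1)), by positivity, ?_⟩
    set s := (ε / (4 * K)) ^ (1 / (p - 1)) with hs
    have hs0 : 0 < s := by positivity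
    have h1 : s ^ (p - 1) = ε / (4 * K) := by
      rw [hs, ← Real.rpow_mul (by positivity), one_div, inv_mul_cancel₀ (by linarith), Real.rpow_one]
    have h2 : s ^ p = s * s ^ (p - 1) := by
      rw [← Real.rpow_one_add' hs0.le (by linarith)]
      congr 1
      ring
    rw [h2, h1]
    apply le_of_eq
    field_simp
  obtain ⟨δ, hδ0, hδ1, hδ2⟩ : ∃ δ : ℝ, 0 < δ ∧ δ ≤ 1 ∧ 3 * δ ≤ s * (ε / 4) := by
    refine ⟨min 1 (s * ε / 12), lt_min one_pos (by positivity), min_le_left _ _, ?_⟩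
    have := min_le_right 1 (s * ε / 12)
    linarith
  obtain ⟨x, hx, hfx⟩ := exists_unit f hf hδ0 hδ1
  obtain ⟨y, hy, hgy⟩ := exists_unit g hg hδ0 hδ1
  obtain ⟨T, hT⟩ := hAT x y hx hy δ hδ0
  refine ⟨du T, ?_⟩
  have hf' : ‖du T f‖ = 1 := by rw [(du T).norm_map, hf]
  have h1 : 1 - 2 * δ ≤ du T f y := by
    have e1 : du T f (T x) = f x := by rw [du_apply, T.symm_apply_apply]
    have e2 : |du T f (T x - y)| ≤ δ := by
      have := (du T f).le_opNorm (T x - y)
      rw [hf', one_mul, Real.norm_eq_abs] at this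
      exact this.trans hT.le
    rw [map_sub, e1] at e2
    have := (abs_le.1 e2).2
    linarith
  have h2 : ∀ w : E, ‖w‖ = s → (du T f - g) w ≤ s * (ε / 2) := by
    intro w hw
    have k1 : du T f (y + w) ≤ ‖y + w‖ := by
      have := (du T f).le_opNorm (y + w)
      rw [hf', one_mul, Real.norm_eq_abs] at this
      exact (le_abs_self _).trans this
    have k2 : g (y - w) ≤ ‖y - w‖ := by
      have := g.le_opNorm (y - w)
      rw [hg, one_mul, Real.norm_eq_abs] at this
      exact (le_abs_self _).trans this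
    have k3 := hus y w hy
    rw [hw] at k3
    rw [map_add] at k1
    rw [map_sub] at k2
    rw [sub_apply]
    linarith
  have h3 : ‖du T f - g‖ ≤ ε / 2 := by
    refine ContinuousLinearMap.opNorm_le_bound _ (by positivity) fun w => ?_
    rcases eq_or_ne w 0 with rfl | hw
    · simp
    have hwp : 0 < ‖w‖ := norm_pos_iff.2 hw
    have hn : ‖(s / ‖w‖) • w‖ = s := by
      rw [norm_smul, Real.norm_eq_abs, abs_of_pos (by positivity), div_mul_cancel₀ _ hwp.ne']
    have m1 := h2 _ hn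
    have m2 := h2 (-((s / ‖w‖) • w)) (by rw [norm_neg, hn])
    rw [map_neg] at m2
    rw [map_smul, smul_eq_mul] at m1 m2
    have m3 : |s / ‖w‖ * (du T f - g) w| ≤ s * (ε / 2) := abs_le.2 ⟨by linarith, m1⟩
    rw [abs_mul, abs_of_pos (by positivity : 0 < s / ‖w‖), div_mul_eq_mul_div, div_le_iff₀ hwp] at m3
    rw [Real.norm_eq_abs]
    have m4 : s * |(du T f - g) w| ≤ s * (ε / 2 * ‖w‖) := by linarith
    exact le_of_mul_le_mul_left m4 hs0
  linarith

end Pool.Agent.H65.BM
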