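import Pool.Agent.H65.BM.S

/-!
# Project BM: the adjoint
-/

set_option autoImplicit false

namespace Pool.Agent.H65.BM

theorem dko : S_DKO := by
  intro E _ _ ⟨n, f, e, ⟨y, hy⟩, hle⟩
  refine ⟨n, fun i => NormedSpace.inclusionInDoubleDual ℝ E (e i), f, ?_, fun g => ?_⟩
  · obtain ⟨g, hg⟩ := exists_dual_vector ℝ (∑ i, f i y • e i) (norm_ne_zero_iff.2 hy)
    refine ⟨g, fun h => ?_⟩
    have h1 : (∑ i, (NormedSpace.inclusionInDoubleDual ℝ E (e i)) g • f i) y = 0 := by
      rw [h]; rfl
    have h2 : (∑ i, (NormedSpace.inclusionInDoubleDual ℝ E (e i)) g • f i) y =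
        g (∑ i, f i y • e i) := by
      rw [FunLike.coe_sum, Finset.sum_apply, map_sum]
      refine Finset.sum_congr rfl fun i _ => ?_
      simp only [NormedSpace.dual_def, _root_.smul_apply, smul_eq_mul, map_smul]
      ring
    rw [h2, hg.2] at h1
    exact hy (norm_eq_zero.1 (by exact_mod_cast h1))
  · refine ContinuousLinearMap.opNorm_le_bound _ (norm_nonneg _) fun y => ?_
    have h2 : (g - ∑ i, (NormedSpace.inclusionInDoubleDual ℝ E (e i)) g • f i) y =
        g (y - ∑ i, f i y • e i) := by
      rw [_root_.sub_apply, FunLike.coe_sum, Finset.sum_apply, map_sub, map_sum]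
      congr 1
      refine Finset.sum_congr rfl fun i _ => ?_
      simp only [NormedSpace.dual_def, _root_.smul_apply, smul_eq_mul, map_smul]
      ring
    rw [h2]
    exact (g.le_opNorm _).trans (mul_le_mul_of_nonneg_left (hle y) (norm_nonneg _))

end Pool.Agent.H65.BM
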