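import Pool.Agent.H65.BM.Q

/-!
# Project BM: the adjoint, quantitative
-/

set_option autoImplicit false

namespace Pool.Agent.H65.BM

theorem dkq : S_DKQ := by
  intro E _ _ ⟨P, hP, h⟩
  refine ⟨P, hP, fun ε hε => ?_⟩
  obtain ⟨n, f, e, hD, ⟨x, hx, hx1⟩, hle⟩ := h ε hε
  have hn : ∀ a : E, ‖NormedSpace.inclusionInDoubleDual ℝ E a‖ = ‖a‖ := fun a =>
    (NormedSpace.inclusionInDoubleDualLi ℝ (E := E)).norm_map a
  have hap : ∀ (g : StrongDual ℝ E) (y : E),
      (∑ i, (NormedSpace.inclusionInDoubleDual ℝ E (e i)) g • f i) y = g (∑ i, f i y • e i) := by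
    intro g y
    rw [FunLike.coe_sum, Finset.sum_apply, map_sum]
    refine Finset.sum_congr rfl fun i _ => ?_
    simp only [NormedSpace.dual_def, _root_.smul_apply, smul_eq_mul, map_smul]
    ring
  refine ⟨n, fun i => NormedSpace.inclusionInDoubleDual ℝ E (e i), f, ?_, ?_, fun g => ?_⟩
  · simp_rw [hn]
    refine le_trans (le_of_eq ?_) hD
    exact Finset.sum_congr rfl fun i _ => mul_comm _ _
  · have h0 : ∑ i, f i x • e i ≠ 0 := by
      rw [← norm_ne_zero_iff, hx1]; exact one_ne_zero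
    obtain ⟨g, hg, hg1⟩ := exists_dual_vector ℝ (∑ i, f i x • e i) (norm_ne_zero_iff.2 h0)
    have hg2 : g (∑ i, f i x • e i) = 1 := by rw [hg1, hx1]; norm_num
    set G : StrongDual ℝ E := ∑ i, (NormedSpace.inclusionInDoubleDual ℝ E (e i)) g • f i with hG
    have hGx : G x = 1 := by rw [hG, hap, hg2]
    have h1 : 1 ≤ ‖G‖ * P := by
      calc (1 : ℝ) = ‖G x‖ := by rw [hGx, norm_one]
        _ ≤ ‖G‖ * ‖x‖ := G.le_opNorm x
        _ ≤ ‖G‖ * P := by gcongr
    have hG0 : 0 < ‖G‖ := by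
      rcases (norm_nonneg G).eq_or_lt with h | h
      · rw [← h, zero_mul] at h1; linarith
      · exact h
    refine ⟨‖G‖⁻¹ • g, ?_, ?_⟩
    · rw [norm_smul, norm_inv, norm_norm, hg, mul_one, inv_le_iff_one_le_mul₀ hG0, mul_comm]
      exact h1
    · have h2 : ∑ i, (NormedSpace.inclusionInDoubleDual ℝ E (e i)) (‖G‖⁻¹ • g) • f i =
          ‖G‖⁻¹ • G := by
        rw [hG, Finset.smul_sum]
        refine Finset.sum_congr rfl fun i _ => ?_
        rw [map_smul, smul_eq_mul, smul_smul]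
      rw [h2, norm_smul, norm_inv, norm_norm, inv_mul_cancel₀ hG0.ne']
  · refine ContinuousLinearMap.opNorm_le_bound _ (by positivity) fun y => ?_
    have h2 : (g - ∑ i, (NormedSpace.inclusionInDoubleDual ℝ E (e i)) g • f i) y =
        g (y - ∑ i, f i y • e i) := by
      rw [_root_.sub_apply, hap, map_sub]
    rw [h2]
    refine (g.le_opNorm _).trans ?_
    calc ‖g‖ * ‖y - ∑ i, f i y • e i‖ ≤ ‖g‖ * ((1 + ε) * ‖y‖) :=
          mul_le_mul_of_nonneg_left (hle y) (norm_nonneg _)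
      _ = (1 + ε) * ‖g‖ * ‖y‖ := by ring

end Pool.Agent.H65.BM
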