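import Pool.Agent.H65.BM.S3

/-!
# Project BM: the adjoint, operators with polynomially decreasing approximation numbers
-/

set_option autoImplicit false

namespace Pool.Agent.H65.BM

theorem dks : S_DKS := by
  intro E _ _ ⟨P, s, hP, hs, h⟩
  refine ⟨P, s, hP, hs, fun ε hε => ?_⟩
  obtain ⟨K, ⟨x, hx, hx1⟩, hle, happ⟩ := h ε hε
  have hn : ∀ a : E, ‖NormedSpace.inclusionInDoubleDual ℝ E a‖ = ‖a‖ := fun a =>
    (NormedSpace.inclusionInDoubleDualLi ℝ (E := E)).norm_map a
  set K' : StrongDual ℝ E →L[ℝ] StrongDual ℝ E := (ContinuousLinearMap.compL ℝ E E ℝ).flip K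
    with hK'
  have hK'a : ∀ (g : StrongDual ℝ E) (y : E), K' g y = g (K y) := fun g y => by
    rw [hK', ContinuousLinearMap.flip_apply, ContinuousLinearMap.compL_apply,
      ContinuousLinearMap.comp_apply]
  refine ⟨K', ?_, ?_, ?_⟩
  · have h0 : K x ≠ 0 := by
      rw [← norm_ne_zero_iff, hx1]; exact one_ne_zero
    obtain ⟨g, hg, hg1⟩ := exists_dual_vector ℝ (K x) (norm_ne_zero_iff.2 h0)
    have hg2 : g (K x) = 1 := by rw [hg1, hx1]; norm_num
    have hGx : K' g x = 1 := by rw [hK'a, hg2]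
    have h1 : 1 ≤ ‖K' g‖ * P := by
      calc (1 : ℝ) = ‖K' g x‖ := by rw [hGx, norm_one]
        _ ≤ ‖K' g‖ * ‖x‖ := (K' g).le_opNorm x
        _ ≤ ‖K' g‖ * P := by gcongr
    have hG0 : 0 < ‖K' g‖ := by
      rcases (norm_nonneg (K' g)).eq_or_lt with h | h
      · rw [← h, zero_mul] at h1; linarith
      · exact h
    refine ⟨‖K' g‖⁻¹ • g, ?_, ?_⟩
    · rw [norm_smul, norm_inv, norm_norm, hg, mul_one, inv_le_iff_one_le_mul₀ hG0, mul_comm]
      exact h1
    · rw [map_smul, norm_smul, norm_inv, norm_norm, inv_mul_cancel₀ hG0.ne']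
  · intro g
    refine ContinuousLinearMap.opNorm_le_bound _ (by positivity) fun y => ?_
    have h2 : (g - K' g) y = g (y - K y) := by
      rw [_root_.sub_apply, hK'a, map_sub]
    rw [h2]
    refine (g.le_opNorm _).trans ?_
    calc ‖g‖ * ‖y - K y‖ ≤ ‖g‖ * ((1 + ε) * ‖y‖) :=
          mul_le_mul_of_nonneg_left (hle y) (norm_nonneg _)
      _ = (1 + ε) * ‖g‖ * ‖y‖ := by ring
  · intro l hl
    obtain ⟨n, f, e, hD, hKF⟩ := happ l hl
    have hls : 0 ≤ l ^ (-s) := (Real.rpow_pos_of_pos (by linarith) _).le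
    refine ⟨n, fun i => NormedSpace.inclusionInDoubleDual ℝ E (e i), f, ?_, ?_⟩
    · simp_rw [hn]
      refine le_trans (le_of_eq ?_) hD
      exact Finset.sum_congr rfl fun i _ => mul_comm _ _
    · refine ContinuousLinearMap.opNorm_le_bound _ (by positivity) fun g => ?_
      refine ContinuousLinearMap.opNorm_le_bound _ (by positivity) fun y => ?_
      have h3 : ((K' - opr (fun i => NormedSpace.inclusionInDoubleDual ℝ E (e i)) f) g) y =
          g ((K - opr f e) y) := by
        rw [_root_.sub_apply, _root_.sub_apply, hK'a, _root_.sub_apply, map_sub]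
        congr 1
        simp only [opr, FunLike.coe_sum, Finset.sum_apply, ContinuousLinearMap.smulRight_apply,
          map_sum, NormedSpace.dual_def, _root_.smul_apply, smul_eq_mul, map_smul]
        exact Finset.sum_congr rfl fun i _ => mul_comm _ _
      rw [h3]
      refine (g.le_opNorm _).trans ?_
      calc ‖g‖ * ‖(K - opr f e) y‖ ≤ ‖g‖ * (P * l ^ (-s) * ‖y‖) :=
            mul_le_mul_of_nonneg_left ((ContinuousLinearMap.le_opNorm _ _).trans
              (mul_le_mul_of_nonneg_right hKF (norm_nonneg _))) (norm_nonneg _)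
        _ = P * l ^ (-s) * ‖g‖ * ‖y‖ := by ring

end Pool.Agent.H65.BM
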