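import Pool.Agent.H65.BM.S

/-! BM-DUC. -/

set_option autoImplicit false

namespace Pool.Agent.H65.BM

open Pool.Agent.N314.OP Pool.Agent.N314.OP.Mod

namespace DucAux

/-- `(1 + a)^p ≤ 1 + p a + p |a|^p` -/
theorem one_add_rpow {p a : ℝ} (hp1 : 1 < p) (hp2 : p ≤ 2) (ha : -1 ≤ a) :
    (1 + a) ^ p ≤ 1 + p * a + p * |a| ^ p := by
  have hp0 : 0 < p := by linarith
  rcases eq_or_lt_of_le ha with h | h
  · rw [← h]
    have : (1 + -1 : ℝ) = 0 := by norm_num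
    rw [this, Real.zero_rpow hp0.ne']
    norm_num
  set y := 1 + a with hy
  have hy0 : 0 < y := by linarith
  have hyp : 0 < y ^ p := Real.rpow_pos_of_pos hy0 p
  have e1 : y ^ p = y * y ^ (p - 1) := by
    rw [← Real.rpow_one_add' hy0.le (by linarith)]; congr 1; ring
  have b1 : y ^ p ≤ 1 + p * (y ^ (p - 1) * (y - 1)) := by
    have h1 := one_add_mul_self_le_rpow_one_add (s := y⁻¹ - 1) (by
      have := inv_pos.2 hy0; linarith) hp1.le
    have h2 : (1 + (y⁻¹ - 1)) ^ p = (y ^ p)⁻¹ := by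
      rw [add_sub_cancel, Real.inv_rpow hy0.le]
    rw [h2] at h1
    have h3 := mul_le_mul_of_nonneg_left h1 hyp.le
    rw [mul_inv_cancel₀ hyp.ne'] at h3
    have h4 : y ^ p * (1 + p * (y⁻¹ - 1)) = y ^ p - p * (y ^ (p - 1) * (y - 1)) := by
      have : y ^ p * y⁻¹ = y ^ (p - 1) := by rw [e1]; field_simp
      have e2 : y ^ (p - 1) * (y - 1) = y ^ p - y ^ (p - 1) := by rw [e1]; ring
      rw [e2]
      linear_combination p * this
    linarith
  have b2 : y ^ (p - 1) * (y - 1) ≤ a + |a| ^ p := by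
    have e3 : |a| ^ p = |a| * |a| ^ (p - 1) := by
      rw [← Real.rpow_one_add' (abs_nonneg a) (by linarith)]; congr 1; ring
    have e4 : y - 1 = a := by rw [hy]; ring
    rw [e3, e4]
    rcases le_total 0 a with h0 | h0
    · have h5 : y ^ (p - 1) ≤ 1 + a ^ (p - 1) := by
        have := Real.rpow_add_le_add_rpow (zero_le_one) h0 (show 0 ≤ p - 1 by linarith) (by linarith)
        rwa [Real.one_rpow] at this
      rw [abs_of_nonneg h0]
      nlinarith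
    · rw [abs_of_nonpos h0]
      have h5 : 1 ≤ y ^ (p - 1) + (-a) ^ (p - 1) := by
        have := Real.rpow_add_le_add_rpow hy0.le (show 0 ≤ -a by linarith)
          (show 0 ≤ p - 1 by linarith) (by linarith)
        have e : y + -a = 1 := by rw [hy]; ring
        rwa [e, Real.one_rpow] at this
      nlinarith
  nlinarith

variable {X : Type} [NormedAddCommGroup X] [NormedSpace ℝ X]

/-- the two point inequality for power `p` -/
theorem step1 {p K : ℝ} (hp1 : 1 < p) (hp2 : p ≤ 2) (hK : 0 < K) (H : USp X p K) (f h : X) :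
    ‖f + h‖ ^ p + ‖f - h‖ ^ p ≤ 2 * ‖f‖ ^ p + (2 * K + 8) * ‖h‖ ^ p := by
  have hp0 : 0 < p := by linarith
  -- normalized
  have norm1 : ∀ f h : X, ‖f‖ = 1 → ‖f + h‖ ^ p + ‖f - h‖ ^ p ≤ 2 + (2 * K + 8) * ‖h‖ ^ p := by
    intro f h hf
    have ht0 := norm_nonneg h
    have htp : 0 ≤ ‖h‖ ^ p := Real.rpow_nonneg ht0 p
    rcases le_total ‖h‖ 1 with h1 | h1
    · have hb : ∀ g : X, ‖g‖ = ‖h‖ → |‖f + g‖ - 1| ≤ ‖h‖ := by
        intro g hg
        rw [← hf, ← hg]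
        have := abs_norm_sub_norm_le (f + g) f
        rwa [add_sub_cancel_left] at this
      have q1 := hb h rfl
      have q2 := hb (-h) (norm_neg h)
      rw [← sub_eq_add_neg] at q2
      have a1 := one_add_rpow (a := ‖f + h‖ - 1) hp1 hp2 (by linarith [norm_nonneg (f + h)])
      have a2 := one_add_rpow (a := ‖f - h‖ - 1) hp1 hp2 (by linarith [norm_nonneg (f - h)])
      rw [add_sub_cancel] at a1 a2
      have c1 : |‖f + h‖ - 1| ^ p ≤ ‖h‖ ^ p := Real.rpow_le_rpow (abs_nonneg _) q1 hp0.le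
      have c2 : |‖f - h‖ - 1| ^ p ≤ ‖h‖ ^ p := Real.rpow_le_rpow (abs_nonneg _) q2 hp0.le
      have hu := H f h hf
      have d1 : p * (‖f + h‖ + ‖f - h‖ - 2) ≤ p * (K * ‖h‖ ^ p) :=
        mul_le_mul_of_nonneg_left (by linarith) hp0.le
      have d2 : p * (K * ‖h‖ ^ p) ≤ 2 * (K * ‖h‖ ^ p) :=
        mul_le_mul_of_nonneg_right hp2 (by positivity)
      have d3 : p * |‖f + h‖ - 1| ^ p ≤ 2 * ‖h‖ ^ p := mul_le_mul hp2 c1 (by positivity) (by norm_num)
      have d4 : p * |‖f - h‖ - 1| ^ p ≤ 2 * ‖h‖ ^ p := mul_le_mul hp2 c2 (by positivity) (by norm_num)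
      nlinarith
    · have g1 : ‖f + h‖ ≤ 2 * ‖h‖ := by have := norm_add_le f h; linarith
      have g2 : ‖f - h‖ ≤ 2 * ‖h‖ := by have := norm_sub_le f h; linarith
      have g3 : (2 * ‖h‖) ^ p ≤ 4 * ‖h‖ ^ p := by
        rw [Real.mul_rpow (by norm_num) ht0]
        have : (2:ℝ) ^ p ≤ 2 ^ (2:ℝ) := Real.rpow_le_rpow_of_exponent_le (by norm_num) hp2
        rw [Real.rpow_two] at this
        exact mul_le_mul_of_nonneg_right (by linarith) htp
      have g4 := Real.rpow_le_rpow (norm_nonneg _) g1 hp0.le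
      have g5 := Real.rpow_le_rpow (norm_nonneg _) g2 hp0.le
      nlinarith
  rcases eq_or_ne f 0 with hf | hf
  · subst hf
    rw [zero_add, zero_sub, norm_neg, norm_zero, Real.zero_rpow hp0.ne']
    have : 0 ≤ ‖h‖ ^ p := Real.rpow_nonneg (norm_nonneg h) p
    nlinarith
  · have hf0 : 0 < ‖f‖ := norm_pos_iff.2 hf
    have hn : ‖‖f‖⁻¹ • f‖ = 1 := by rw [norm_smul, norm_inv, norm_norm, inv_mul_cancel₀ hf0.ne']
    have := norm1 (‖f‖⁻¹ • f) (‖f‖⁻¹ • h) hn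
    have hi : 0 ≤ ‖f‖⁻¹ := inv_nonneg.2 hf0.le
    rw [← smul_add, ← smul_sub, norm_smul, norm_smul, norm_smul, Real.norm_of_nonneg hi,
      Real.mul_rpow hi (norm_nonneg _), Real.mul_rpow hi (norm_nonneg _), Real.mul_rpow hi (norm_nonneg _),
      Real.inv_rpow hf0.le] at this
    have hfp : 0 < ‖f‖ ^ p := Real.rpow_pos_of_pos hf0 p
    have h2 := mul_le_mul_of_nonneg_left this hfp.le
    have e1 : ‖f‖ ^ p * ((‖f‖ ^ p)⁻¹ * ‖f + h‖ ^ p + (‖f‖ ^ p)⁻¹ * ‖f - h‖ ^ p) =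
        ‖f + h‖ ^ p + ‖f - h‖ ^ p := by field_simp
    have e2 : ‖f‖ ^ p * (2 + (2 * K + 8) * ((‖f‖ ^ p)⁻¹ * ‖h‖ ^ p)) =
        2 * ‖f‖ ^ p + (2 * K + 8) * ‖h‖ ^ p := by field_simp
    rwa [e1, e2] at h2

theorem exists_norming (φ : StrongDual ℝ X) {ε : ℝ} (hε : 0 < ε) : ∃ f : X, ‖f‖ ≤ 1 ∧ ‖φ‖ - ε ≤ φ f := by
  by_cases h : ‖φ‖ - ε < 0
  · exact ⟨0, by simp, by simp; linarith⟩
  · push Not at h
    obtain ⟨x, hx, hx2⟩ := ContinuousLinearMap.exists_lt_apply_of_lt_opNorm φ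
      (show ‖φ‖ - ε < ‖φ‖ by linarith)
    rcases le_total 0 (φ x) with h0 | h0
    · exact ⟨x, hx.le, by rw [Real.norm_of_nonneg h0] at hx2; exact hx2.le⟩
    · refine ⟨-x, by rw [norm_neg]; exact hx.le, ?_⟩
      rw [map_neg]
      rw [Real.norm_of_nonpos h0] at hx2
      exact hx2.le

end DucAux

open DucAux in
theorem duc : S_DUC := by
  intro X Z _ _ _ _ ι p K hp1 hp2 hK H
  have hp0 : 0 < p := by linarith
  set q := p / (p - 1) with hq
  have hpq : p.HolderConjugate q := Real.HolderConjugate.conjExponent hp1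
  have hq0 : 0 < q := hpq.symm.pos
  set K' := 2 * K + 8 with hK'
  have hK'0 : 0 < K' := by positivity
  set L : ℝ := (1 / K') ^ (1 / (p - 1)) with hL
  have hL0 : 0 < L := Real.rpow_pos_of_pos (by positivity) _
  have hLp : K' * L ^ p = L := by
    have h1 : L ^ (p - 1) = 1 / K' := by
      rw [hL, ← Real.rpow_mul (by positivity), one_div_mul_cancel (by linarith), Real.rpow_one]
    have h2 : L ^ p = L * L ^ (p - 1) := by
      rw [← Real.rpow_one_add' hL0.le (by linarith)]; congr 1; ring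
    rw [h2, h1]; field_simp
  refine ⟨q * L, by positivity, ?_⟩
  intro z w
  -- powers
  have hpow : ∀ a : ℝ, 0 ≤ a → a ^ (q - 1) * a = a ^ q ∧ (a ^ (q - 1)) ^ p = a ^ q := by
    intro a ha
    have h1 : q - 1 ≠ 0 := by have := hpq.symm.lt; linarith
    constructor
    · rw [← Real.rpow_add_one' ha (by linarith)]
      congr 1; ring
    · rw [← Real.rpow_mul ha]
      congr 1
      have := hpq.symm.sub_one_mul_conj
      linarith
  obtain ⟨z1, z2⟩ := hpow ‖z‖ (norm_nonneg z)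
  obtain ⟨w1, w2⟩ := hpow ‖w‖ (norm_nonneg w)
  set r := ‖z‖ ^ (q - 1) with hr
  set r' := ‖w‖ ^ (q - 1) with hr'
  have hr0 : 0 ≤ r := Real.rpow_nonneg (norm_nonneg z) _
  have hr'0 : 0 ≤ r' := Real.rpow_nonneg (norm_nonneg w) _
  have young : ∀ (A : Z) (v : X), (ι A) v ≤ ‖A‖ ^ q / q + ‖v‖ ^ p / p := by
    intro A v
    have h1 : (ι A) v ≤ ‖A‖ * ‖v‖ := by
      have := (ι A).le_opNorm v
      rw [ι.norm_map] at this
      exact (le_abs_self _).trans this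
    exact h1.trans (Real.young_inequality_of_nonneg (norm_nonneg _) (norm_nonneg _) hpq.symm)
  have main : ∀ ε : ℝ, 0 < ε → 2 * (‖z‖ ^ q / q) + L * ‖w‖ ^ q ≤
      ‖z + w‖ ^ q / q + ‖z - w‖ ^ q / q + ε * (2 * (r + L * r')) := by
    intro ε hε
    obtain ⟨f₀, hf1, hf2⟩ := exists_norming (ι z) hε
    obtain ⟨h₀, hh1, hh2⟩ := exists_norming (ι w) hε
    rw [ι.norm_map] at hf2 hh2
    have y1 := young (z + w) (r • f₀ + (L * r') • h₀)
    have y2 := young (z - w) (r • f₀ - (L * r') • h₀)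
    have s1 := step1 hp1 hp2 hK H (r • f₀) ((L * r') • h₀)
    have n1 : ‖r • f₀‖ ^ p ≤ ‖z‖ ^ q := by
      rw [norm_smul, Real.norm_of_nonneg hr0, ← z2]
      exact Real.rpow_le_rpow (by positivity) (by nlinarith) hp0.le
    have n2 : ‖(L * r') • h₀‖ ^ p ≤ L ^ p * ‖w‖ ^ q := by
      rw [norm_smul, Real.norm_of_nonneg (by positivity), ← w2, ← Real.mul_rpow hL0.le hr'0]
      exact Real.rpow_le_rpow (by positivity) (by
        have : 0 ≤ L * r' := by positivity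
        nlinarith) hp0.le
    have n3 : K' * ‖(L * r') • h₀‖ ^ p ≤ L * ‖w‖ ^ q := by
      calc K' * ‖(L * r') • h₀‖ ^ p ≤ K' * (L ^ p * ‖w‖ ^ q) := mul_le_mul_of_nonneg_left n2 hK'0.le
        _ = (K' * L ^ p) * ‖w‖ ^ q := by ring
        _ = _ := by rw [hLp]
    have m1 : r * (‖z‖ - ε) ≤ r * (ι z) f₀ := mul_le_mul_of_nonneg_left hf2 hr0
    have m2 : (L * r') * (‖w‖ - ε) ≤ (L * r') * (ι w) h₀ := mul_le_mul_of_nonneg_left hh2 (by positivity)
    have e1 : (ι (z + w)) (r • f₀ + (L * r') • h₀) + (ι (z - w)) (r • f₀ - (L * r') • h₀) =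
        2 * (r * (ι z) f₀) + 2 * ((L * r') * (ι w) h₀) := by
      simp only [map_add, map_sub, add_apply, sub_apply, map_smul,
        smul_eq_mul]
      ring
    have e2 : ‖z‖ ^ q / q = ‖z‖ ^ q - ‖z‖ ^ q / p := by
      have := hpq.inv_add_inv_eq_one
      rw [div_eq_mul_inv, div_eq_mul_inv]
      linear_combination (‖z‖ ^ q) * this
    have hzq : 0 ≤ ‖z‖ ^ q := Real.rpow_nonneg (norm_nonneg z) _
    have hwq : 0 ≤ ‖w‖ ^ q := Real.rpow_nonneg (norm_nonneg w) _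
    have hp' : 1 / p ≤ 1 := by rw [div_le_one hp0]; exact hp1.le
    have t1 : (‖r • f₀ + (L * r') • h₀‖ ^ p + ‖r • f₀ - (L * r') • h₀‖ ^ p) / p ≤
        2 * (‖z‖ ^ q / p) + L * ‖w‖ ^ q := by
      have h1 : (‖r • f₀ + (L * r') • h₀‖ ^ p + ‖r • f₀ - (L * r') • h₀‖ ^ p) ≤
          2 * ‖z‖ ^ q + L * ‖w‖ ^ q := by linarith
      have h2 : (‖r • f₀ + (L * r') • h₀‖ ^ p + ‖r • f₀ - (L * r') • h₀‖ ^ p) / p ≤
          (2 * ‖z‖ ^ q + L * ‖w‖ ^ q) / p := div_le_div_of_nonneg_right h1 hp0.le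
      have h3 : (L * ‖w‖ ^ q) / p ≤ L * ‖w‖ ^ q := div_le_self (by positivity) hp1.le
      have h4 : (2 * ‖z‖ ^ q + L * ‖w‖ ^ q) / p = 2 * (‖z‖ ^ q / p) + (L * ‖w‖ ^ q) / p := by ring
      linarith
    rw [add_div] at t1
    have e3 : r * ‖z‖ = ‖z‖ ^ q := z1
    have e4 : (L * r') * ‖w‖ = L * ‖w‖ ^ q := by rw [mul_assoc, w1]
    nlinarith
  have fin : 2 * (‖z‖ ^ q / q) + L * ‖w‖ ^ q ≤ ‖z + w‖ ^ q / q + ‖z - w‖ ^ q / q := by
    by_contra hcon
    push Not at hcon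
    set D := 2 * (‖z‖ ^ q / q) + L * ‖w‖ ^ q - (‖z + w‖ ^ q / q + ‖z - w‖ ^ q / q) with hD
    have hD0 : 0 < D := by linarith
    have hB : 0 < 2 * (r + L * r') + 1 := by positivity
    have := main (D / (2 * (r + L * r') + 1)) (by positivity)
    have h2 : D / (2 * (r + L * r') + 1) * (2 * (r + L * r')) < D := by
      rw [div_mul_eq_mul_div, div_lt_iff₀ hB]
      nlinarith
    linarith
  have h2 := mul_le_mul_of_nonneg_left fin hq0.le
  have e1 : q * (2 * (‖z‖ ^ q / q) + L * ‖w‖ ^ q) = 2 * ‖z‖ ^ q + q * L * ‖w‖ ^ q := by field_simp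
  have e2 : q * (‖z + w‖ ^ q / q + ‖z - w‖ ^ q / q) = ‖z + w‖ ^ q + ‖z - w‖ ^ q := by field_simp
  rw [e1, e2] at h2
  linarith

end Pool.Agent.H65.BM
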