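import Pool.Agent.H65.BM.S

/-!
# Project BM: DUS, convexity of power type gives smoothness of the dual
-/

set_option autoImplicit false

namespace Pool.Agent.H65.BM

open Pool.Agent.N314.OP Pool.Agent.N314.OP.Mod

/-- bound of a functional from its values on the unit ball -/
theorem dus_norm_le {E : Type} [NormedAddCommGroup E] [NormedSpace ℝ E] (g : StrongDual ℝ E)
    (C : ℝ) (h : ∀ x : E, ‖x‖ ≤ 1 → g x ≤ C) : ‖g‖ ≤ C := by
  have hC : 0 ≤ C := by have := h 0 (by simp); simpa using this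
  refine ContinuousLinearMap.opNorm_le_bound _ hC fun x => ?_
  rcases eq_or_ne x 0 with rfl | hx
  · simp
  have hx0 : 0 < ‖x‖ := norm_pos_iff.2 hx
  have h1 : ‖‖x‖⁻¹ • x‖ ≤ 1 := by
    rw [norm_smul, norm_inv, norm_norm, inv_mul_cancel₀ hx0.ne']
  have h2 := h _ h1
  have h3 := h (-(‖x‖⁻¹ • x)) (by rwa [norm_neg])
  rw [map_smul, smul_eq_mul, inv_mul_le_iff₀ hx0] at h2
  rw [map_neg, map_smul, smul_eq_mul, ← mul_neg, inv_mul_le_iff₀ hx0] at h3
  rw [Real.norm_eq_abs, abs_le]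
  constructor <;> linarith

theorem dus : S_DUS := by
  intro E _ _ ⟨q, c, hq2, hc, hUC⟩
  have hq0 : 0 < q := by linarith
  obtain ⟨p, hp⟩ : ∃ p, p = q / (q - 1) := ⟨_, rfl⟩
  have hp1 : 1 < p := by rw [hp, lt_div_iff₀ (by linarith)]; linarith
  have hp2 : p ≤ 2 := by rw [hp, div_le_iff₀ (by linarith)]; linarith
  have hpq : q.HolderConjugate p := by
    rw [hp]; exact Real.HolderConjugate.conjExponent (by linarith)
  obtain ⟨l, hl⟩ : ∃ l, l = c ^ (1 / q) := ⟨_, rfl⟩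
  have hl0 : 0 < l := by rw [hl]; exact Real.rpow_pos_of_pos hc _
  have hlq : l ^ q = c := by
    rw [hl, ← Real.rpow_mul hc.le, one_div_mul_cancel hq0.ne', Real.rpow_one]
  have h2l : 0 < (2 / l) ^ p := Real.rpow_pos_of_pos (by positivity) _
  refine ⟨p, (2 / l) ^ p / p, hp1, hp2, by positivity, ?_⟩
  intro f h hf
  obtain ⟨M, hM⟩ : ∃ M, M = 2 + (2 / l) ^ p / p * ‖h‖ ^ p := ⟨_, rfl⟩
  rw [← hM]
  -- the pointwise inequality
  have key : ∀ x y : E, ‖x‖ ≤ 1 → ‖y‖ ≤ 1 → (f + h) x + (f - h) y ≤ M := by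
    intro x y hx hy
    obtain ⟨X, hX⟩ : ∃ X, X = (1 / 2 : ℝ) • (x + y) := ⟨_, rfl⟩
    obtain ⟨W, hW⟩ : ∃ W, W = (1 / 2 : ℝ) • (x - y) := ⟨_, rfl⟩
    have e1 : X + W = x := by rw [hX, hW]; module
    have e2 : X - W = y := by rw [hX, hW]; module
    have e3 : (f + h) x + (f - h) y = 2 * f X + 2 * h W := by
      rw [← e1, ← e2]
      simp only [add_apply, sub_apply, map_add, map_sub]
      ring
    have h1 := hUC X W
    rw [e1, e2] at h1
    have hxq : ‖x‖ ^ q ≤ 1 := Real.rpow_le_one (norm_nonneg _) hx hq0.le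
    have hyq : ‖y‖ ^ q ≤ 1 := Real.rpow_le_one (norm_nonneg _) hy hq0.le
    have hb : 1 + q * (‖X‖ - 1) ≤ ‖X‖ ^ q := by
      have := one_add_mul_self_le_rpow_one_add (s := ‖X‖ - 1)
        (by have := norm_nonneg X; linarith) (p := q) (by linarith)
      rwa [add_sub_cancel] at this
    -- Young
    have hy' : (l * ‖W‖) * (2 * ‖h‖ / l) ≤ (l * ‖W‖) ^ q / q + (2 * ‖h‖ / l) ^ p / p :=
      Real.young_inequality_of_nonneg (by positivity) (by positivity) hpq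
    rw [Real.mul_rpow hl0.le (norm_nonneg _), hlq] at hy'
    have e4 : (2 * ‖h‖ / l) ^ p = (2 / l) ^ p * ‖h‖ ^ p := by
      rw [← Real.mul_rpow (by positivity) (norm_nonneg _)]
      congr 1; ring
    have e5 : (l * ‖W‖) * (2 * ‖h‖ / l) = 2 * (‖h‖ * ‖W‖) := by field_simp
    rw [e4, e5] at hy'
    have hfX : f X ≤ ‖X‖ := by
      refine (le_abs_self _).trans ?_
      have := f.le_opNorm X
      rwa [hf, one_mul] at this
    have hhW : h W ≤ ‖h‖ * ‖W‖ := (le_abs_self _).trans (h.le_opNorm W)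
    rw [e3, hM]
    -- `q * (‖X‖ - 1) ≤ - (c / 2) ‖W‖ ^ q`
    have h5 : q * (2 * ‖X‖ - 2) ≤ - (c * ‖W‖ ^ q) := by linarith
    have h6 : 2 * ‖X‖ - 2 ≤ - (c * ‖W‖ ^ q / q) := by
      rw [← neg_div, le_div_iff₀ hq0]; linarith
    have e6 : (2 / l) ^ p * ‖h‖ ^ p / p = (2 / l) ^ p / p * ‖h‖ ^ p := by ring
    rw [e6] at hy'
    linarith
  -- suprema
  have k1 : ∀ y : E, ‖y‖ ≤ 1 → (f - h) y ≤ M - ‖f + h‖ := by
    intro y hy
    have : ‖f + h‖ ≤ M - (f - h) y := dus_norm_le _ _ fun x hx => by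
      have := key x y hx hy; linarith
    linarith
  have := dus_norm_le _ _ k1
  linarith

end Pool.Agent.H65.BM
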