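import Pool.Agent.H65.BM.L.N314.OP.Mod

/-!
# Project BM: definitions

Signs, averages over signs, expectations under a product law, and the inequalities between which
the proof moves. `E` is a real normed space.
-/

set_option autoImplicit false

namespace Pool.Agent.H65.BM

open Pool.Agent.N314.OP Pool.Agent.N314.OP.Mod

/-- the sign of a Boolean -/
def sg (b : Bool) : ℝ := if b then 1 else -1

/-- average over all sign vectors -/
noncomputable def av {ι : Type} [Fintype ι] [DecidableEq ι] (F : (ι → Bool) → ℝ) : ℝ :=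
  (∑ s : ι → Bool, F s) / 2 ^ Fintype.card ι

/-- expectation under the product law with the weights `w` in each coordinate -/
noncomputable def ex {ι Ω : Type} [Fintype ι] [DecidableEq ι] [Fintype Ω] (w : Ω → ℝ)
    (F : (ι → Ω) → ℝ) : ℝ :=
  ∑ ω : ι → Ω, (∏ j, w (ω j)) * F ω

section

variable {E : Type} [NormedAddCommGroup E] [NormedSpace ℝ E]

/-- signed sum -/
noncomputable def sm {ι : Type} [Fintype ι] (s : ι → Bool) (x : ι → E) : E := ∑ j, sg (s j) • x j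

end

variable (E : Type) [NormedAddCommGroup E] [NormedSpace ℝ E]

/-- `J y` is the derivative of `‖·‖ ^ 2` at `y`, with a quantitative smoothness -/
structure JP (C B : ℝ) (J : E → StrongDual ℝ E) : Prop where
  self : ∀ y, J y y = 2 * ‖y‖ ^ 2
  bd : ∀ y v, |J y v| ≤ 2 * ‖y‖ * ‖v‖
  up : ∀ (y v : E) (δ : ℝ), 0 < δ → δ ≤ 1 →
    ‖y + v‖ ^ 2 ≤ ‖y‖ ^ 2 + J y v + δ * ‖y‖ * ‖v‖ + C * δ ^ (-B) * ‖v‖ ^ 2

/-- moving a random vector (law: weights `w`) in a direction does not decrease its norm, up to the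
weak second moments `σ` -/
def Op (C : ℝ) : Prop :=
  ∀ (Ω : Type) [Fintype Ω] (w : Ω → ℝ) (Y : Ω → E) (v : E) (m : ℕ) (σ : ℝ),
    (∀ ω, 0 ≤ w ω) → ∑ ω, w ω = 1 → 1 ≤ m → 0 ≤ σ →
    (∀ g : StrongDual ℝ E, ‖g‖ ≤ 1 → ∑ ω, w ω * (g (Y ω)) ^ 2 ≤ σ ^ 2) →
    Real.sqrt (∑ ω, w ω * ‖Y ω‖ ^ 2) ≤
      Real.sqrt (∑ ω, w ω * ‖Y ω + v‖ ^ 2) + C * (‖v‖ / m + m * σ)

/-- central inequality: the mean of `J (Y)` is small for random vectors with small weak moments -/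
def CI (J : E → StrongDual ℝ E) (C A : ℝ) : Prop :=
  ∀ (Ω : Type) [Fintype Ω] (w : Ω → ℝ) (Y : Ω → E) (v : E) (δ σ : ℝ),
    (∀ ω, 0 ≤ w ω) → ∑ ω, w ω = 1 → 0 < δ → δ ≤ 1 → 0 ≤ σ →
    (∀ g : StrongDual ℝ E, ‖g‖ ≤ 1 → ∑ ω, w ω * (g (Y ω)) ^ 2 ≤ σ ^ 2) →
    |∑ ω, w ω * J (Y ω) v| ≤
      C * ‖v‖ * (δ * Real.sqrt (∑ ω, w ω * ‖Y ω‖ ^ 2) + δ ^ (-A) * σ)

/-- upper estimate `B n ^ (1 + η)` for the second moments of signed sums of `n` vectors -/
def TB (η B : ℝ) : Prop :=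
  ∀ (ι : Type) [Fintype ι] [DecidableEq ι] (D : Finset ι) (z : ι → E), (∀ j ∈ D, ‖z j‖ ≤ 1) →
    av (fun s : ι → Bool => ‖∑ j ∈ D, sg (s j) • z j‖ ^ 2) ≤ B * (D.card : ℝ) ^ (1 + η)

/-- lower estimate `c n ^ (1 - η)` for the second moments of signed sums of `n` vectors -/
def CB (η c : ℝ) : Prop :=
  ∀ (ι : Type) [Fintype ι] [DecidableEq ι] (D : Finset ι) (z : ι → E), (∀ j ∈ D, 1 ≤ ‖z j‖) →
    c * (D.card : ℝ) ^ (1 - η) ≤ av (fun s : ι → Bool => ‖∑ j ∈ D, sg (s j) • z j‖ ^ 2)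

/-- finite sets are moved into weak neighbourhoods of `0` by isometries -/
def NULLP : Prop :=
  ∀ (X : Finset E) (F : Finset (StrongDual ℝ E)) (ε : ℝ), 0 < ε →
    ∃ T : E ≃ₗᵢ[ℝ] E, ∀ x ∈ X, ∀ f ∈ F, |f (T x)| < ε

/-- positions: isometries `T j` for which every functional is small on most of the `T j Z` -/
def PB (C c₁ : ℝ) : Prop :=
  ∀ (Z : Finset E), (∀ u ∈ Z, ‖u‖ ≤ 1) → ∀ M : ℕ, ∃ T : Fin M → E ≃ₗᵢ[ℝ] E,
    ∀ g : StrongDual ℝ E, ‖g‖ ≤ 1 → ∀ u : Fin M → E, (∀ j, u j ∈ Z) →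
      ∑ j, (g (T j (u j))) ^ 2 ≤ C * (M : ℝ) ^ (1 - c₁)

/-- a nonzero operator of finite rank `K` with `‖1 - K‖ ≤ 1` -/
def KO : Prop :=
  ∃ (n : ℕ) (f : Fin n → StrongDual ℝ E) (e : Fin n → E),
    (∃ y, ∑ i, f i y • e i ≠ 0) ∧ ∀ y, ‖y - ∑ i, f i y • e i‖ ≤ ‖y‖

/-- power type smoothness for some exponent -/
def US : Prop := ∃ p K : ℝ, 1 < p ∧ p ≤ 2 ∧ 0 < K ∧ USp E p K

/-- power type convexity for some exponent -/
def UC : Prop := ∃ q c : ℝ, 2 ≤ q ∧ 0 < c ∧ UCq E q c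

variable {E}

/-- the increments `d i` depend only on the signs before `i` -/
def Pred {k : ℕ} (d : Fin k → (Fin k → Bool) → E) : Prop :=
  ∀ (i : Fin k) (ε ε' : Fin k → Bool), (∀ l, l < i → ε l = ε' l) → d i ε = d i ε'

/-- the law of one coordinate: a sign path and a mode -/
noncomputable def wt (k : ℕ) (π : ℝ) (ω : (Fin k → Bool) × Option (Fin k)) : ℝ :=
  (if ω.2 = none then 1 - π else π / k) / 2 ^ k

/-- the vector of one coordinate: the value of the martingale in the mode `none`, and the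
enlarged increment `h • d i` in the mode `some i` -/
noncomputable def uv (k : ℕ) (h : ℝ) (d : Fin k → (Fin k → Bool) → E)
    (ω : (Fin k → Bool) × Option (Fin k)) : E :=
  match ω.2 with
  | none => ∑ i, sg (ω.1 i) • d i ω.1
  | some i => h • d i ω.1

end Pool.Agent.H65.BM
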