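import Pool.Agent.H65.BM.S5

/-! # BM5-EFF (helper96): weak form of Effros' theorem -/

set_option autoImplicit false

namespace Pool.Agent.H65.BM

open Filter Topology

/-- countably many isometries approximate all isometries at `z` -/
lemma EFF.count {E : Type} [NormedAddCommGroup E] [NormedSpace ℝ E]
    [TopologicalSpace.SeparableSpace E] (z : E) (ε : ℝ) (hε : 0 < ε) :
    ∃ g : ℕ → E ≃ₗᵢ[ℝ] E, ∀ T : E ≃ₗᵢ[ℝ] E, ∃ n, ‖T z - g n z‖ < ε := by
  have : SecondCountableTopology E := UniformSpace.secondCountable_of_separable E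
  let s : Set E := Set.range fun T : E ≃ₗᵢ[ℝ] E => T z
  have : Nonempty s := ⟨⟨_, ⟨LinearIsometryEquiv.refl ℝ E, rfl⟩⟩⟩
  have hch : ∀ n : ℕ, ∃ g : E ≃ₗᵢ[ℝ] E, g z = (TopologicalSpace.denseSeq s n : E) :=
    fun n => (TopologicalSpace.denseSeq s n).2
  choose g hg using hch
  refine ⟨g, fun T => ?_⟩
  obtain ⟨n, hn⟩ := (TopologicalSpace.denseRange_denseSeq s).exists_dist_lt ⟨T z, ⟨T, rfl⟩⟩ hε
  refine ⟨n, ?_⟩
  rw [hg n, ← dist_eq_norm]
  exact hn

theorem eff : S_EFF := by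
  intro E _ _ _ _ hTr x z ε hx hε
  obtain ⟨g, hg⟩ := EFF.count z (ε / 2) (by positivity)
  let B : Set E := Metric.sphere (0 : E) 1
  have : CompleteSpace B := Metric.isClosed_sphere.completeSpace_coe
  have : Nonempty B := ⟨⟨x, by simpa [B] using hx⟩⟩
  let F : ℕ → Set B := fun n => closure {y : B | ∃ R : E ≃ₗᵢ[ℝ] E, ‖R z - z‖ < ε / 2 ∧ g n (R x) = y}
  have hcov : ⋃ n, F n = Set.univ := by
    rw [Set.eq_univ_iff_forall]
    intro y
    have hy : ‖(y : E)‖ = 1 := by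
      have := y.2
      simpa [B] using this
    obtain ⟨T, hT⟩ := hTr x y hx hy
    obtain ⟨n, hn⟩ := hg T
    refine Set.mem_iUnion.2 ⟨n, subset_closure ⟨T.trans (g n).symm, ?_, ?_⟩⟩
    · rw [← (g n).norm_map, map_sub]
      simpa using hn
    · simp [hT]
  obtain ⟨n, hn⟩ := nonempty_interior_of_iUnion_of_closed (fun n => isClosed_closure) hcov
  obtain ⟨y₀, hy₀⟩ := hn
  obtain ⟨ρ, hρ, hball⟩ := Metric.isOpen_iff.1 isOpen_interior y₀ hy₀
  have hkey : ∀ y : E, ‖y‖ = 1 → ‖y - y₀‖ < ρ → ∀ η : ℝ, 0 < η →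
      ∃ R : E ≃ₗᵢ[ℝ] E, ‖R z - z‖ < ε / 2 ∧ ‖g n (R x) - y‖ < η := by
    intro y hy hyy η hη
    have hyB : y ∈ B := by simpa [B] using hy
    have h1 : (⟨y, hyB⟩ : B) ∈ F n := interior_subset (hball (by
      rw [Metric.mem_ball, Subtype.dist_eq, dist_eq_norm]
      exact hyy))
    obtain ⟨w, ⟨R, hR1, hR2⟩, hw⟩ := Metric.mem_closure_iff.1 h1 η hη
    refine ⟨R, hR1, ?_⟩
    rw [Subtype.dist_eq, dist_comm, dist_eq_norm] at hw
    rw [hR2]
    exact hw
  have hy₀1 : ‖(y₀ : E)‖ = 1 := by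
    have := y₀.2
    simpa [B] using this
  obtain ⟨S, hS1, hS2⟩ := hkey y₀ hy₀1 (by simpa using hρ) (ρ / 2) (by positivity)
  refine ⟨ρ / 2, by positivity, ?_⟩
  intro y hy hyx η hη
  have h1 : ‖g n (S y) - y₀‖ < ρ := by
    have h2 : ‖g n (S y) - g n (S x)‖ < ρ / 2 := by
      rw [← map_sub, ← map_sub, LinearIsometryEquiv.norm_map, LinearIsometryEquiv.norm_map]
      exact hyx
    calc ‖g n (S y) - y₀‖ = ‖(g n (S y) - g n (S x)) + (g n (S x) - y₀)‖ := by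
          congr 1
          abel
      _ ≤ ‖g n (S y) - g n (S x)‖ + ‖g n (S x) - y₀‖ := norm_add_le _ _
      _ < ρ := by linarith
  obtain ⟨R, hR1, hR2⟩ := hkey (g n (S y)) (by simpa using hy) h1 η hη
  refine ⟨R.trans S.symm, ?_, ?_⟩
  · have e1 : ‖S.symm (R z) - z‖ = ‖R z - S z‖ := by
      rw [← S.norm_map, map_sub, LinearIsometryEquiv.apply_symm_apply]
    show ‖S.symm (R z) - z‖ < ε
    rw [e1]
    calc ‖R z - S z‖ = ‖(R z - z) - (S z - z)‖ := by
          congr 1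
          abel
      _ ≤ ‖R z - z‖ + ‖S z - z‖ := norm_sub_le _ _
      _ < ε := by linarith
  · show ‖S.symm (R x) - y‖ < η
    rw [← S.norm_map, map_sub, LinearIsometryEquiv.apply_symm_apply, ← (g n).norm_map, map_sub]
    exact hR2

end Pool.Agent.H65.BM
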