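import Pool.Agent.H65.BM.S

/-! BM-EQ. -/

set_option autoImplicit false

namespace Pool.Agent.H65.BM

open Pool.Agent.N314.OP Pool.Agent.N314.OP.Mod

namespace EqAux

variable {E : Type} [NormedAddCommGroup E] [NormedSpace ℝ E]

theorem low {x w : E} {b : ℝ} (hx : ‖x‖ = 1) (hb : 0 ≤ b) :
    ‖x + w‖ + ‖x - w‖ - 2 * b * ‖w‖ ≤ ‖x + (w - b • x)‖ + ‖x - (w - b • x)‖ := by
  have h1 : ‖x + w‖ ≤ ‖x + (w - b • x)‖ + b := by
    have e : x + w = (x + (w - b • x)) + b • x := by abel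
    calc ‖x + w‖ = ‖(x + (w - b • x)) + b • x‖ := by rw [← e]
      _ ≤ ‖x + (w - b • x)‖ + ‖b • x‖ := norm_add_le _ _
      _ = _ := by rw [norm_smul, hx, mul_one, Real.norm_of_nonneg hb]
  have h2 : (1 + b) * ‖x - w‖ ≤ ‖x - (w - b • x)‖ + b * ‖w‖ := by
    have e : (1 + b) • (x - w) = (x - (w - b • x)) - b • w := by module
    calc (1 + b) * ‖x - w‖ = ‖(1 + b) • (x - w)‖ := by
          rw [norm_smul, Real.norm_of_nonneg (by linarith)]
      _ = ‖(x - (w - b • x)) - b • w‖ := by rw [e]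
      _ ≤ ‖x - (w - b • x)‖ + ‖b • w‖ := norm_sub_le _ _
      _ = _ := by rw [norm_smul, Real.norm_of_nonneg hb]
  have h3 : 1 - ‖w‖ ≤ ‖x - w‖ := by
    have := norm_sub_norm_le x w
    rw [hx] at this
    exact this
  have h4 := mul_le_mul_of_nonneg_left h3 hb
  nlinarith

theorem bal {x w : E} (hx : ‖x‖ = 1) (hw : ‖w‖ ≤ 1) :
    ∃ c : ℝ, |c| ≤ ‖w‖ ∧ ‖x + (w - c • x)‖ = ‖x - (w - c • x)‖ := by
  set t := ‖w‖ with ht
  have ht0 : 0 ≤ t := norm_nonneg w
  set φ : ℝ → ℝ := fun c => ‖x + (w - c • x)‖ - ‖x - (w - c • x)‖ with hφ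
  have hc : Continuous φ := by rw [hφ]; fun_prop
  have g1 : φ t ≤ 0 := by
    have a1 : ‖x + (w - t • x)‖ ≤ 1 := by
      have e : x + (w - t • x) = (1 - t) • x + w := by module
      rw [e]
      refine (norm_add_le _ _).trans ?_
      rw [norm_smul, hx, Real.norm_of_nonneg (by linarith)]
      linarith
    have a2 : 1 ≤ ‖x - (w - t • x)‖ := by
      have e : x - (w - t • x) = (1 + t) • x - w := by module
      rw [e]
      have := norm_sub_norm_le ((1 + t) • x) w
      rw [norm_smul, hx, Real.norm_of_nonneg (by linarith)] at this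
      linarith
    simp only [hφ]; linarith
  have g2 : 0 ≤ φ (-t) := by
    have a1 : ‖x - (w - (-t) • x)‖ ≤ 1 := by
      have e : x - (w - (-t) • x) = (1 - t) • x - w := by module
      rw [e]
      refine (norm_sub_le _ _).trans ?_
      rw [norm_smul, hx, Real.norm_of_nonneg (by linarith)]
      linarith
    have a2 : 1 ≤ ‖x + (w - (-t) • x)‖ := by
      have e : x + (w - (-t) • x) = (1 + t) • x - (-w) := by module
      rw [e]
      have := norm_sub_norm_le ((1 + t) • x) (-w)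
      rw [norm_smul, hx, Real.norm_of_nonneg (by linarith), norm_neg] at this
      linarith
    simp only [hφ]; linarith
  have hab : -t ≤ t := by linarith
  have := intermediate_value_Icc' hab hc.continuousOn
  obtain ⟨c, hc1, hc2⟩ := this ⟨g1, g2⟩
  refine ⟨c, abs_le.2 ⟨hc1.1, hc1.2⟩, ?_⟩
  simp only [hφ] at hc2
  linarith

end EqAux

open EqAux in
theorem eq : S_EQ := by
  intro E _ _ q hq1 hq2 H t₀ ht₀
  -- small scale
  set s := min t₀ (1 / 4) with hs
  have hs0 : 0 < s := lt_min ht₀ (by norm_num)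
  have hs1 : s ≤ 1 / 4 := min_le_right _ _
  have hs2 : s ≤ t₀ := min_le_left _ _
  set K : ℝ := 2 / s ^ (q - 1) + 4 with hK
  have hsq : 0 < s ^ (q - 1) := Real.rpow_pos_of_pos hs0 _
  have hK0 : 0 < K := by positivity
  have hn := H K hK0
  unfold USp at hn
  push Not at hn
  obtain ⟨x, w, hx, hxw⟩ := hn
  have hle : ‖x + w‖ + ‖x - w‖ ≤ 2 + 2 * ‖w‖ := by
    have := norm_add_le x w
    have := norm_sub_le x w
    linarith
  have hw0 : 0 < ‖w‖ := by
    rcases (norm_nonneg w).lt_or_eq with h | h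
    · exact h
    · exfalso
      rw [← h, Real.zero_rpow (by linarith)] at hxw
      rw [← h] at hle
      linarith
  have hwq : ‖w‖ ^ q = ‖w‖ * ‖w‖ ^ (q - 1) := by
    rw [← Real.rpow_one_add' hw0.le (by linarith)]
    congr 1; ring
  have hws : ‖w‖ < s := by
    by_contra hcon
    push Not at hcon
    have h1 : s ^ (q - 1) ≤ ‖w‖ ^ (q - 1) := Real.rpow_le_rpow hs0.le hcon (by linarith)
    have h2 : 2 ≤ K * ‖w‖ ^ (q - 1) := by
      have h3 : 2 = 2 / s ^ (q - 1) * s ^ (q - 1) := by field_simp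
      have h4 : 2 / s ^ (q - 1) * s ^ (q - 1) ≤ K * ‖w‖ ^ (q - 1) :=
        mul_le_mul (by rw [hK]; linarith) h1 hsq.le hK0.le
      linarith
    have h5 : 2 * ‖w‖ ≤ K * ‖w‖ ^ q := by
      rw [hwq]
      nlinarith
    linarith
  obtain ⟨c, hc1, hc2⟩ := bal (x := x) (w := w) hx (by linarith)
  have hsum : ‖x + w‖ + ‖x - w‖ - 2 * |c| * ‖w‖ ≤ ‖x + (w - c • x)‖ + ‖x - (w - c • x)‖ := by
    rcases le_total 0 c with h | h
    · rw [abs_of_nonneg h]; exact low hx h
    · have := low (x := x) (w := -w) (b := -c) hx (by linarith)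
      rw [abs_of_nonpos h]
      have e1 : x + (-w - (-c) • x) = x - (w - c • x) := by module
      have e2 : x - (-w - (-c) • x) = x + (w - c • x) := by module
      rw [e1, e2, norm_neg, sub_neg_eq_add, ← sub_eq_add_neg] at this
      linarith
  have hcw : |c| * ‖w‖ ≤ ‖w‖ ^ 2 := by nlinarith [norm_nonneg w]
  have hw2 : ‖w‖ ^ 2 ≤ ‖w‖ ^ q := by
    have : ‖w‖ ^ (2 : ℝ) ≤ ‖w‖ ^ q := Real.rpow_le_rpow_of_exponent_ge hw0 (by linarith) hq2.le
    rwa [Real.rpow_two] at this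
  have hK4 : 4 * ‖w‖ ^ q ≤ K * ‖w‖ ^ q := by
    have h1 : (4:ℝ) ≤ K := by
      have : 0 < 2 / s ^ (q - 1) := by positivity
      rw [hK]; linarith
    exact mul_le_mul_of_nonneg_right h1 (Real.rpow_nonneg hw0.le _)
  refine ⟨‖w‖, ‖x + (w - c • x)‖ - 1, x, w - c • x, hw0, by linarith, hx, ?_, by ring, ?_, ?_⟩
  · refine (norm_sub_le _ _).trans ?_
    rw [norm_smul, hx, mul_one, Real.norm_eq_abs]
    linarith
  · rw [← hc2]; ring
  · rw [← hc2] at hsum
    linarith

end Pool.Agent.H65.BM
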