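import Mathlib

/-!
# Project BM: expansive and accretive compact operators
-/

set_option autoImplicit false

namespace Pool.Agent.H65.BM

open Filter Topology

variable {E : Type} [NormedAddCommGroup E] [NormedSpace ℝ E]

/-- if `1 + K` does not decrease norms, its inverse is a contraction `1 - K'` -/
theorem expand [CompleteSpace E] {K : E →L[ℝ] E} (hKc : IsCompactOperator K)
    (h : ∀ x, ‖x‖ ≤ ‖x + K x‖) : ∃ R : E →L[ℝ] E, (1 + K) * R = 1 ∧ R * (1 + K) = 1 ∧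
      IsCompactOperator (R * K : E →L[ℝ] E) ∧ (∀ y, ‖y - (R * K : E →L[ℝ] E) y‖ ≤ ‖y‖) := by
  have hu : IsUnit (1 + K) := by
    rcases IsCompactOperator.hasEigenvalue_or_mem_resolventSet hKc (μ := (-1 : ℝ)) (by norm_num)
      with h1 | h1
    · obtain ⟨x, hx⟩ := h1.exists_hasEigenvector
      have h2 : K x = (-1 : ℝ) • x := hx.apply_eq_smul
      have h3 := h x
      rw [h2, neg_one_smul, add_neg_cancel, norm_zero] at h3
      exact absurd (norm_le_zero_iff.1 h3) hx.2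
    · rw [spectrum.mem_resolventSet_iff, Algebra.algebraMap_eq_smul_one] at h1
      have h2 : (1 : E →L[ℝ] E) + K = -((-1 : ℝ) • (1 : E →L[ℝ] E) - K) := by
        rw [neg_one_smul]
        abel
      rw [h2]
      exact h1.neg
  obtain ⟨R, hR1, hR2⟩ := isUnit_iff_exists.1 hu
  refine ⟨R, hR1, hR2, hKc.clm_comp R, fun y => ?_⟩
  have h1 : R (y + K y) = y := congrArg (fun A : E →L[ℝ] E => A y) hR2
  have h2 : y - (R * K : E →L[ℝ] E) y = R y := by
    show y - R (K y) = R y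
    nth_rewrite 1 [← h1]
    rw [map_add]
    abel
  have h3 : R y + K (R y) = y := congrArg (fun A : E →L[ℝ] E => A y) hR1
  rw [h2]
  calc ‖R y‖ ≤ ‖R y + K (R y)‖ := h _
    _ = ‖y‖ := by rw [h3]

lemma expand_ne {K R : E →L[ℝ] E} (hR1 : (1 + K) * R = 1) (hK0 : K ≠ 0) :
    (R * K : E →L[ℝ] E) ≠ 0 := by
  intro h
  apply hK0
  calc K = ((1 + K) * R) * K := by rw [hR1, one_mul]
    _ = (1 + K) * (R * K) := mul_assoc _ _ _
    _ = 0 := by rw [h, mul_zero]

lemma expand_qn {K R : E →L[ℝ] E} (hR1 : (1 + K) * R = 1) (hR2 : R * (1 + K) = 1)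
    (hK : ¬ Tendsto (fun n : ℕ => ‖K ^ n‖ ^ (1 / (n : ℝ))) atTop (𝓝 0)) :
    ¬ Tendsto (fun n : ℕ => ‖(R * K) ^ n‖ ^ (1 / (n : ℝ))) atTop (𝓝 0) := by
  intro h
  apply hK
  have e1 : K = (1 + K) * (R * K) := by rw [← mul_assoc, hR1, one_mul]
  have e2 : (R * K) * (1 + K) = (1 + K) * (R * K) := by
    have h1 : K * (1 + K) = (1 + K) * K := by rw [mul_add, add_mul, mul_one, one_mul]
    calc (R * K) * (1 + K) = R * (K * (1 + K)) := mul_assoc _ _ _
      _ = (R * (1 + K)) * K := by rw [h1, mul_assoc]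
      _ = (1 + K) * (R * K) := by rw [hR2, one_mul, ← mul_assoc, hR1, one_mul]
  have hc : Commute (1 + K) (R * K) := e2.symm
  have hpow : ∀ n : ℕ, K ^ n = (1 + K) ^ n * (R * K) ^ n := by
    intro n
    rw [← hc.mul_pow, ← e1]
  have hb : ∀ n : ℕ, 1 ≤ n → ‖K ^ n‖ ^ (1 / (n : ℝ)) ≤
      (‖(1 : E →L[ℝ] E) + K‖) * ‖(R * K) ^ n‖ ^ (1 / (n : ℝ)) := by
    intro n hn
    have hn0 : (0 : ℝ) < n := by exact_mod_cast hn
    have h1 : ‖K ^ n‖ ≤ ‖(1 : E →L[ℝ] E) + K‖ ^ n * ‖(R * K) ^ n‖ := by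
      rw [hpow n]
      refine (norm_mul_le _ _).trans ?_
      gcongr
      exact norm_pow_le' _ (by omega)
    calc ‖K ^ n‖ ^ (1 / (n : ℝ)) ≤
        (‖(1 : E →L[ℝ] E) + K‖ ^ n * ‖(R * K) ^ n‖) ^ (1 / (n : ℝ)) :=
          Real.rpow_le_rpow (norm_nonneg _) h1 (by positivity)
      _ = ‖(1 : E →L[ℝ] E) + K‖ * ‖(R * K) ^ n‖ ^ (1 / (n : ℝ)) := by
          rw [Real.mul_rpow (by positivity) (norm_nonneg _), one_div,
            Real.pow_rpow_inv_natCast (norm_nonneg _) (by omega)]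
  have h0 : Tendsto (fun n : ℕ => ‖(1 : E →L[ℝ] E) + K‖ * ‖(R * K) ^ n‖ ^ (1 / (n : ℝ))) atTop
      (𝓝 0) := by
    have := h.const_mul ‖(1 : E →L[ℝ] E) + K‖
    rwa [mul_zero] at this
  refine squeeze_zero' (Eventually.of_forall fun n => by positivity)
    ((eventually_ge_atTop 1).mono hb) h0

/-- accretive operators are expansive -/
theorem expand_of_acc {K : E →L[ℝ] E}
    (h : ∀ (x : E) (f : E →L[ℝ] ℝ), ‖x‖ = 1 → ‖f‖ = 1 → f x = 1 → 0 ≤ f (K x)) (x : E) :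
    ‖x‖ ≤ ‖x + K x‖ := by
  by_cases hx : x = 0
  · simp [hx]
  have hx0 : 0 < ‖x‖ := norm_pos_iff.2 hx
  obtain ⟨f, hf, hfx⟩ := exists_dual_vector ℝ x (norm_ne_zero_iff.2 hx)
  have h1 := h (‖x‖⁻¹ • x) f (by rw [norm_smul, norm_inv, norm_norm, inv_mul_cancel₀ hx0.ne']) hf (by
    rw [map_smul, hfx, smul_eq_mul]
    exact inv_mul_cancel₀ hx0.ne')
  rw [map_smul, map_smul, smul_eq_mul] at h1
  have h2 : 0 ≤ f (K x) := by
    have := mul_nonneg hx0.le h1
    rwa [← mul_assoc, mul_inv_cancel₀ hx0.ne', one_mul] at this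
  have h3 : f (x + K x) ≤ ‖x + K x‖ := by
    calc f (x + K x) ≤ ‖f (x + K x)‖ := le_abs_self _
      _ ≤ ‖f‖ * ‖x + K x‖ := f.le_opNorm _
      _ = ‖x + K x‖ := by rw [hf, one_mul]
  rw [map_add, hfx] at h3
  have h4 : ((‖x‖ : ℝ)) + f (K x) ≤ ‖x + K x‖ := h3
  linarith

/-- contractive perturbations of the identity are accretive -/
theorem acc_of_contr {K : E →L[ℝ] E} (h : ∀ y, ‖y - K y‖ ≤ ‖y‖) (x : E) (f : E →L[ℝ] ℝ)
    (hx : ‖x‖ = 1) (hf : ‖f‖ = 1) (hfx : f x = 1) : 0 ≤ f (K x) := by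
  have h1 : f (x - K x) ≤ 1 := by
    calc f (x - K x) ≤ ‖f (x - K x)‖ := le_abs_self _
      _ ≤ ‖f‖ * ‖x - K x‖ := f.le_opNorm _
      _ ≤ 1 := by
        rw [hf, one_mul, ← hx]
        exact h x
  rw [map_sub, hfx] at h1
  linarith

/-- nuclear operators are compact -/
theorem nuclear_compact [CompleteSpace E] {K : E →L[ℝ] E} {f : ℕ → E →L[ℝ] ℝ} {e : ℕ → E}
    (hs : Summable (fun i => ‖f i‖ * ‖e i‖)) (h : ∀ y, HasSum (fun i => f i y • e i) (K y)) :
    IsCompactOperator K := by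
  have h1 : Summable (fun i => ((f i).smulRight (e i) : E →L[ℝ] E)) := by
    refine Summable.of_norm ?_
    simpa [ContinuousLinearMap.norm_smulRight_apply] using hs
  have h2 : ∑' i, ((f i).smulRight (e i) : E →L[ℝ] E) = K := by
    ext y
    have h3 := (ContinuousLinearMap.apply ℝ E y).hasSum h1.hasSum
    exact h3.unique (h y)
  have h4 : HasSum (fun i => ((f i).smulRight (e i) : E →L[ℝ] E)) K := h2 ▸ h1.hasSum
  refine isCompactOperator_of_tendsto h4 (Eventually.of_forall fun s => ?_)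
  classical
  induction s using Finset.induction_on with
  | empty =>
    rw [Finset.sum_empty]
    exact isCompactOperator_zero
  | insert a s ha ih =>
    rw [Finset.sum_insert ha]
    refine IsCompactOperator.add ?_ ih
    have h5 : IsCompactOperator (f a : E → ℝ) := isCompactOperator_of_locallyCompactSpace_dom (f a)
    exact h5.clm_comp ((ContinuousLinearMap.id ℝ ℝ).smulRight (e a))

/-- products of nuclear operators with bounded ones -/
theorem nuclear_mul {K : E →L[ℝ] E} (R : E →L[ℝ] E) {f : ℕ → E →L[ℝ] ℝ} {e : ℕ → E}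
    (hs : Summable (fun i => ‖f i‖ * ‖e i‖)) (h : ∀ y, HasSum (fun i => f i y • e i) (K y)) :
    Summable (fun i => ‖f i‖ * ‖R (e i)‖) ∧
      ∀ y, HasSum (fun i => f i y • R (e i)) ((R * K : E →L[ℝ] E) y) := by
  constructor
  · refine Summable.of_nonneg_of_le (fun i => by positivity) (fun i => ?_) (hs.mul_left ‖R‖)
    calc ‖f i‖ * ‖R (e i)‖ ≤ ‖f i‖ * (‖R‖ * ‖e i‖) := by
          gcongr
          exact R.le_opNorm _
      _ = ‖R‖ * (‖f i‖ * ‖e i‖) := by ring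
  · intro y
    have h1 := R.hasSum (h y)
    have h2 : (fun i => f i y • R (e i)) = fun i => R (f i y • e i) := by
      funext i
      rw [map_smul]
    rw [h2]
    exact h1

end Pool.Agent.H65.BM
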