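import Pool.Agent.H65.BM.S2

/-! BM2-FRE. -/

set_option autoImplicit false

namespace Pool.Agent.H65.BM

open Pool.Agent.N314.OP Pool.Agent.N314.OP.Mod

theorem fre : S_FRE := by
  intro E _ _ _ _ _ ε hε
  by_contra hcon
  push Not at hcon
  set h := TopologicalSpace.denseSeq (StrongDual ℝ E) with hh
  set D : ℕ → Set E := fun n => {x | ∃ f : StrongDual ℝ E, ‖f‖ = 1 ∧ f x = ‖x‖ ∧ ‖f - h n‖ < ε / 4}
    with hD
  have hcov : (⋃ n, closure (D n)) = Set.univ := by
    apply Set.eq_univ_of_forall
    intro x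
    obtain ⟨f, hf1, hf2⟩ := exists_dual_vector' ℝ x
    obtain ⟨n, hn⟩ := (TopologicalSpace.denseRange_denseSeq (StrongDual ℝ E)).exists_dist_lt f
      (show 0 < ε / 4 by positivity)
    rw [Set.mem_iUnion]
    refine ⟨n, subset_closure ⟨f, hf1, by simpa using hf2, ?_⟩⟩
    rw [← dist_eq_norm]
    exact hn
  obtain ⟨n, hn⟩ := nonempty_interior_of_iUnion_of_closed (fun n => isClosed_closure) hcov
  set U := interior (closure (D n)) with hU
  have hUo : IsOpen U := isOpen_interior
  have hUs : U ⊆ closure (D n) := interior_subset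
  have : (nhdsWithin (0 : E) {0}ᶜ).NeBot := Module.punctured_nhds_neBot ℝ E 0
  obtain ⟨x₁, hx1, hx2⟩ := (dense_compl_singleton (0 : E)).inter_open_nonempty U hUo hn
  obtain ⟨δ, hδ, hball⟩ := Metric.isOpen_iff.1 hUo x₁ hx1
  obtain ⟨y, z, hy, hz, f, g, hf, hg, hfy, hgz, hfg⟩ := hcon x₁ δ hx2 hδ
  -- the contradiction from one functional
  have key : ∀ (y : E) (f : StrongDual ℝ E), y ∈ U → ‖f‖ = 1 → f y = ‖y‖ → ε / 2 < ‖f - h n‖ →
      False := by
    intro y f hyU hf hfy hfn
    -- a direction
    have hex : ∃ e : E, (ε / 2) * ‖e‖ < (f - h n) e := by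
      by_contra hno
      push Not at hno
      have h1 : ‖f - h n‖ ≤ ε / 2 := by
        apply ContinuousLinearMap.opNorm_le_bound _ (by positivity)
        intro e
        rw [Real.norm_eq_abs, abs_le]
        constructor
        · have := hno (-e)
          rw [map_neg, norm_neg] at this
          linarith
        · exact hno e
      linarith
    obtain ⟨e, he⟩ := hex
    set O : Set E := {v | (ε / 2) * ‖v - y‖ < (f - h n) (v - y)} with hO
    have hOo : IsOpen O := by
      apply isOpen_lt
      · fun_prop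
      · exact (f - h n).continuous.comp (continuous_id.sub continuous_const)
    -- points y + τ e
    have hlim : Filter.Tendsto (fun τ : ℝ => y + τ • e) (nhds 0) (nhds (y + (0 : ℝ) • e)) :=
      (continuous_const.add (continuous_id.smul continuous_const)).tendsto 0
    rw [zero_smul, add_zero] at hlim
    have hev : ∀ᶠ τ : ℝ in nhdsWithin 0 (Set.Ioi 0), y + τ • e ∈ U :=
      (hlim.eventually (hUo.mem_nhds hyU)).filter_mono nhdsWithin_le_nhds
    obtain ⟨τ, hτU, hτ0⟩ := (hev.and self_mem_nhdsWithin).exists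
    have hτ0' : 0 < τ := hτ0
    have hτO : y + τ • e ∈ O := by
      show (ε / 2) * ‖y + τ • e - y‖ < (f - h n) (y + τ • e - y)
      rw [add_sub_cancel_left, norm_smul, map_smul, smul_eq_mul, Real.norm_of_nonneg hτ0'.le]
      have := mul_lt_mul_of_pos_left he hτ0'
      linarith
    have hcl : y + τ • e ∈ closure (D n) := hUs hτU
    obtain ⟨v, hvO, hvD⟩ := mem_closure_iff.1 hcl O hOo hτO
    obtain ⟨k, hk1, hk2, hk3⟩ := hvD
    have h1 : k y ≤ ‖y‖ := by
      have := k.le_opNorm y
      rw [hk1, one_mul] at this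
      exact (le_abs_self _).trans this
    have h2 : f v ≤ ‖v‖ := by
      have := f.le_opNorm v
      rw [hf, one_mul] at this
      exact (le_abs_self _).trans this
    have h3 : (k - h n) (v - y) ≤ (ε / 4) * ‖v - y‖ := by
      have h4 := (k - h n).le_opNorm (v - y)
      have h5 : (k - h n) (v - y) ≤ ‖(k - h n) (v - y)‖ := le_abs_self _
      have h6 : ‖k - h n‖ * ‖v - y‖ ≤ (ε / 4) * ‖v - y‖ :=
        mul_le_mul_of_nonneg_right hk3.le (norm_nonneg _)
      linarith
    have h7 : (ε / 2) * ‖v - y‖ < (f - h n) (v - y) := hvO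
    simp only [ContinuousLinearMap.sub_apply, map_sub] at h3 h7
    have h8 : 0 ≤ ‖v - y‖ := norm_nonneg _
    have h9 : 0 ≤ ε * ‖v - y‖ := by positivity
    linarith
  have hyU : y ∈ U := hball (by rw [Metric.mem_ball, dist_eq_norm]; exact hy)
  have hzU : z ∈ U := hball (by rw [Metric.mem_ball, dist_eq_norm]; exact hz)
  by_cases h1 : ε / 2 < ‖f - h n‖
  · exact key y f hyU hf hfy h1
  · by_cases h2 : ε / 2 < ‖g - h n‖
    · exact key z g hzU hg hgz h2
    · push Not at h1 h2
      have h3 : ‖f - g‖ ≤ ‖f - h n‖ + ‖g - h n‖ := by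
        have e : f - g = (f - h n) - (g - h n) := by abel
        rw [e]
        exact norm_sub_le _ _
      linarith

end Pool.Agent.H65.BM
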