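import Pool.Agent.H65.BM.Asm

/-!
# Project BM: from nuclear operators to the condition `KQ`
-/

set_option autoImplicit false

namespace Pool.Agent.H65.BM

open Filter Topology

/-- nuclear norm at most `P` -/
def NuclearLE {E : Type} [NormedAddCommGroup E] [NormedSpace ℝ E] (K : E →L[ℝ] E) (P : ℝ) : Prop :=
  ∃ (f : ℕ → E →L[ℝ] ℝ) (e : ℕ → E), Summable (fun i => ‖f i‖ * ‖e i‖) ∧
    ∑' i, ‖f i‖ * ‖e i‖ ≤ P ∧ ∀ y, HasSum (fun i => f i y • e i) (K y)

variable {E : Type} [NormedAddCommGroup E] [NormedSpace ℝ E]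

lemma opr_apply {n : ℕ} (f : Fin n → StrongDual ℝ E) (e : Fin n → E) (y : E) :
    opr f e y = ∑ i, f i y • e i := by
  simp only [opr, FunLike.coe_sum, Finset.sum_apply, ContinuousLinearMap.smulRight_apply]

/-- truncation of nuclear operators -/
theorem trunc [CompleteSpace E] {P : ℝ} (h : ∀ c : ℝ, 0 < c → ∃ K : E →L[ℝ] E,
      NuclearLE K (P * ‖K‖) ∧ ‖ContinuousLinearMap.id ℝ E - K‖ < 1 + c * ‖K‖)
    (hid : 1 ≤ ‖ContinuousLinearMap.id ℝ E‖) :
    ∀ c : ℝ, 0 < c → ∃ (n : ℕ) (f : Fin n → StrongDual ℝ E) (e : Fin n → E),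
      ∑ i, ‖f i‖ * ‖e i‖ ≤ 2 * (|P| + 1) * ‖opr f e‖ ∧
        ‖ContinuousLinearMap.id ℝ E - opr f e‖ < 1 + c * ‖opr f e‖ := by
  intro c hc
  obtain ⟨K, ⟨f, e, hs, hP, hK⟩, hlt⟩ := h (c / 2) (half_pos hc)
  have hK0 : 0 < ‖K‖ := by
    rcases (norm_nonneg K).eq_or_lt with h0 | h0
    · exfalso
      rw [← h0, mul_zero, add_zero] at hlt
      have : K = 0 := norm_eq_zero.1 h0.symm
      rw [this, sub_zero] at hlt
      linarith
    · exact h0
  -- convergence in norm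
  have hn : ∀ i, ‖((f i).smulRight (e i) : E →L[ℝ] E)‖ = ‖f i‖ * ‖e i‖ := fun i =>
    ContinuousLinearMap.norm_smulRight_apply _ _
  have hsum : Summable fun i => ((f i).smulRight (e i) : E →L[ℝ] E) :=
    Summable.of_norm (by simp_rw [hn]; exact hs)
  have hKs : ∑' i, ((f i).smulRight (e i) : E →L[ℝ] E) = K := by
    ext y
    have h1 : HasSum (fun i => ((f i).smulRight (e i) : E →L[ℝ] E) y)
        ((∑' i, ((f i).smulRight (e i) : E →L[ℝ] E)) y) :=
      (ContinuousLinearMap.apply ℝ E y).hasSum hsum.hasSum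
    exact h1.unique (hK y)
  have hlim : Tendsto (fun n => ∑ i ∈ Finset.range n, ((f i).smulRight (e i) : E →L[ℝ] E)) atTop
      (𝓝 K) := by
    rw [← hKs]; exact hsum.hasSum.tendsto_sum_nat
  have hl1 : Tendsto (fun n => ‖∑ i ∈ Finset.range n, ((f i).smulRight (e i) : E →L[ℝ] E)‖) atTop
      (𝓝 ‖K‖) := hlim.norm
  have hl2 : Tendsto (fun n => ‖ContinuousLinearMap.id ℝ E -
      ∑ i ∈ Finset.range n, ((f i).smulRight (e i) : E →L[ℝ] E)‖) atTop
      (𝓝 ‖ContinuousLinearMap.id ℝ E - K‖) := (hlim.const_sub _).norm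
  have k1 := hl1.eventually_const_lt (show ‖K‖ / 2 < ‖K‖ by linarith)
  have k2 := hl2.eventually_lt_const hlt
  obtain ⟨n, hn1, hn2⟩ := (k1.and k2).exists
  refine ⟨n, fun i => f i, fun i => e i, ?_, ?_⟩
  · have e1 : opr (fun i : Fin n => f i) (fun i : Fin n => e i) =
        ∑ i ∈ Finset.range n, ((f i).smulRight (e i) : E →L[ℝ] E) := by
      rw [opr, Finset.sum_range]
    rw [e1]
    have e2 : ∑ i : Fin n, ‖f i‖ * ‖e i‖ = ∑ i ∈ Finset.range n, ‖f i‖ * ‖e i‖ := by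
      rw [Finset.sum_range]
    rw [e2]
    have e3 : ∑ i ∈ Finset.range n, ‖f i‖ * ‖e i‖ ≤ P * ‖K‖ :=
      (hs.sum_le_tsum _ fun i _ => by positivity).trans hP
    have e4 : P * ‖K‖ ≤ (|P| + 1) * ‖K‖ := by
      gcongr
      linarith [le_abs_self P]
    have e5 : 0 < |P| + 1 := by positivity
    nlinarith
  · have e1 : opr (fun i : Fin n => f i) (fun i : Fin n => e i) =
        ∑ i ∈ Finset.range n, ((f i).smulRight (e i) : E →L[ℝ] E) := by
      rw [opr, Finset.sum_range]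
    rw [e1]
    refine hn2.trans ?_
    nlinarith

/-- finite sums as nuclear operators -/
lemma nuclear_opr {n : ℕ} (f : Fin n → StrongDual ℝ E) (e : Fin n → E) :
    NuclearLE (opr f e) (∑ i, ‖f i‖ * ‖e i‖) := by
  refine ⟨fun i => if h : i < n then f ⟨i, h⟩ else 0, fun i => if h : i < n then e ⟨i, h⟩ else 0,
    ?_, ?_, fun y => ?_⟩
  · refine summable_of_ne_finset_zero (s := Finset.range n) fun i hi => ?_
    rw [Finset.mem_range] at hi
    simp [hi]
  · rw [tsum_eq_sum (s := Finset.range n) fun i hi => by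
      rw [Finset.mem_range] at hi
      simp [hi]]
    rw [Finset.sum_range]
    refine le_of_eq (Finset.sum_congr rfl fun i _ => ?_)
    simp
  · rw [opr_apply]
    have h1 : ∑ i : Fin n, f i y • e i = ∑ i ∈ Finset.range n,
        (if h : i < n then f ⟨i, h⟩ else 0) y • (if h : i < n then e ⟨i, h⟩ else 0) := by
      rw [Finset.sum_range]
      refine Finset.sum_congr rfl fun i _ => ?_
      simp
    rw [h1]
    refine hasSum_sum_of_ne_finset_zero fun i hi => ?_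
    rw [Finset.mem_range] at hi
    simp [hi]

/-- operators of rank at most `n` are nuclear with a bound -/
lemma nuclear_rank (hA : S_AUER) {n : ℕ} (K : E →L[ℝ] E)
    (hfd : FiniteDimensional ℝ (LinearMap.range (K : E →ₗ[ℝ] E)))
    (hn : Module.finrank ℝ (LinearMap.range (K : E →ₗ[ℝ] E)) ≤ n) :
    NuclearLE K ((n * 2 ^ n) * ‖K‖) := by
  obtain ⟨f, e, hf, he, hfe⟩ := hA E _ (LinearMap.range (K : E →ₗ[ℝ] E)) rfl
  have h1 : K = opr (fun i => (f i).comp K) e := by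
    ext y
    rw [opr_apply]
    exact (hfe (K y) ⟨y, rfl⟩).symm
  obtain ⟨f', e', hs, hP, hK⟩ := nuclear_opr (fun i => (f i).comp K) e
  refine ⟨f', e', hs, hP.trans ?_, by rw [← h1] at hK; exact hK⟩
  have h2 : ∀ i, ‖(f i).comp K‖ * ‖e i‖ ≤ 2 ^ n * ‖K‖ := by
    intro i
    have h3 : ‖(f i).comp K‖ ≤ 2 ^ n * ‖K‖ := by
      refine ((f i).opNorm_comp_le K).trans ?_
      gcongr
      exact (hf i).trans (pow_le_pow_right₀ one_le_two hn)
    calc ‖(f i).comp K‖ * ‖e i‖ ≤ (2 ^ n * ‖K‖) * 1 := by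
          gcongr
          exact he i
      _ = 2 ^ n * ‖K‖ := mul_one _
  refine (Finset.sum_le_sum fun i _ => h2 i).trans ?_
  rw [Finset.sum_const, Finset.card_univ, Fintype.card_fin, nsmul_eq_mul]
  have h4 : (0 : ℝ) ≤ 2 ^ n * ‖K‖ := by positivity
  calc (Module.finrank ℝ (LinearMap.range (K : E →ₗ[ℝ] E)) : ℝ) * (2 ^ n * ‖K‖)
      ≤ n * (2 ^ n * ‖K‖) := by gcongr
    _ = _ := by ring

end Pool.Agent.H65.BM
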