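import Pool.Agent.H65.BM.Fin
import Pool.Agent.H65.BM.Asm3

/-!
# Project BM: from approximation numbers to the condition `KS`
-/

set_option autoImplicit false

namespace Pool.Agent.H65.BM

open Filter Topology

variable {E : Type} [NormedAddCommGroup E] [NormedSpace ℝ E]

/-- approximation up to `P ‖K‖ l ^ (-s)` by operators of nuclear norm at most `l ‖K‖` -/
def AppN (K : E →L[ℝ] E) (P s : ℝ) : Prop :=
  ∀ l : ℝ, 1 ≤ l → ∃ F : E →L[ℝ] E, NuclearLE F (l * ‖K‖) ∧ ‖K - F‖ ≤ P * ‖K‖ * l ^ (-s)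

/-- approximation up to `C ‖K‖ n ^ (-s)` by operators of rank at most `n` -/
def AppR (K : E →L[ℝ] E) (C s : ℝ) : Prop :=
  ∀ n : ℕ, 1 ≤ n → ∃ F : E →L[ℝ] E, FiniteDimensional ℝ (LinearMap.range (F : E →ₗ[ℝ] E)) ∧
    Module.finrank ℝ (LinearMap.range (F : E →ₗ[ℝ] E)) ≤ n ∧ ‖K - F‖ ≤ C * ‖K‖ * (n : ℝ) ^ (-s)

/-- truncation -/
lemma trunc1 [CompleteSpace E] {F : E →L[ℝ] E} {a : ℝ} (h : NuclearLE F a) {δ : ℝ} (hδ : 0 < δ) :
    ∃ (n : ℕ) (f : Fin n → StrongDual ℝ E) (e : Fin n → E),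
      ∑ i, ‖f i‖ * ‖e i‖ ≤ a ∧ ‖F - opr f e‖ < δ := by
  obtain ⟨f, e, hs, hP, hK⟩ := h
  have hn : ∀ i, ‖((f i).smulRight (e i) : E →L[ℝ] E)‖ = ‖f i‖ * ‖e i‖ := fun i =>
    ContinuousLinearMap.norm_smulRight_apply _ _
  have hsum : Summable fun i => ((f i).smulRight (e i) : E →L[ℝ] E) :=
    Summable.of_norm (by simp_rw [hn]; exact hs)
  have hKs : ∑' i, ((f i).smulRight (e i) : E →L[ℝ] E) = F := by
    ext y
    have h1 : HasSum (fun i => ((f i).smulRight (e i) : E →L[ℝ] E) y)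
        ((∑' i, ((f i).smulRight (e i) : E →L[ℝ] E)) y) :=
      (ContinuousLinearMap.apply ℝ E y).hasSum hsum.hasSum
    exact h1.unique (hK y)
  have hlim : Tendsto (fun n => ∑ i ∈ Finset.range n, ((f i).smulRight (e i) : E →L[ℝ] E)) atTop
      (𝓝 F) := by
    rw [← hKs]; exact hsum.hasSum.tendsto_sum_nat
  have hl2 : Tendsto (fun n => ‖F -
      ∑ i ∈ Finset.range n, ((f i).smulRight (e i) : E →L[ℝ] E)‖) atTop
      (𝓝 ‖F - F‖) := (hlim.const_sub _).norm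
  rw [sub_self, norm_zero] at hl2
  obtain ⟨n, hn2⟩ := (hl2.eventually_lt_const hδ).exists
  have e1 : opr (fun i : Fin n => f i) (fun i : Fin n => e i) =
      ∑ i ∈ Finset.range n, ((f i).smulRight (e i) : E →L[ℝ] E) := by
    rw [opr, Finset.sum_range]
  refine ⟨n, fun i => f i, fun i => e i, ?_, by rw [e1]; exact hn2⟩
  have e2 : ∑ i : Fin n, ‖f i‖ * ‖e i‖ = ∑ i ∈ Finset.range n, ‖f i‖ * ‖e i‖ := by
    rw [Finset.sum_range]
  rw [e2]
  exact (hs.sum_le_tsum _ fun i _ => by positivity).trans hP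

/-- the zero operator is nuclear -/
lemma nuclear_zero {a : ℝ} (ha : 0 ≤ a) : NuclearLE (0 : E →L[ℝ] E) a := by
  refine ⟨fun _ => 0, fun _ => 0, ?_, ?_, fun y => ?_⟩
  · simpa using summable_zero
  · simpa using ha
  · simpa using hasSum_zero

/-- Auerbach: operators of rank at most `n` have nuclear norm at most `n ‖K‖` -/
lemma nuclear_rank1 (hA : S_AUER1) {n : ℕ} (K : E →L[ℝ] E)
    (hfd : FiniteDimensional ℝ (LinearMap.range (K : E →ₗ[ℝ] E)))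
    (hn : Module.finrank ℝ (LinearMap.range (K : E →ₗ[ℝ] E)) ≤ n) :
    NuclearLE K (n * ‖K‖) := by
  obtain ⟨f, e, hf, he, hfe⟩ := hA E _ (LinearMap.range (K : E →ₗ[ℝ] E)) rfl
  have h1 : K = opr (fun i => (f i).comp K) e := by
    ext y
    rw [opr_apply]
    exact (hfe (K y) ⟨y, rfl⟩).symm
  obtain ⟨f', e', hs, hP, hK⟩ := nuclear_opr (fun i => (f i).comp K) e
  refine ⟨f', e', hs, hP.trans ?_, by rw [← h1] at hK; exact hK⟩
  have h2 : ∀ i, ‖(f i).comp K‖ * ‖e i‖ ≤ ‖K‖ := by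
    intro i
    have h3 : ‖(f i).comp K‖ ≤ ‖K‖ := by
      refine ((f i).opNorm_comp_le K).trans ?_
      calc ‖f i‖ * ‖K‖ ≤ 1 * ‖K‖ := by gcongr; exact hf i
        _ = ‖K‖ := one_mul _
    calc ‖(f i).comp K‖ * ‖e i‖ ≤ ‖K‖ * 1 := by
          gcongr
          exact he i
      _ = ‖K‖ := mul_one _
  refine (Finset.sum_le_sum fun i _ => h2 i).trans ?_
  rw [Finset.sum_const, Finset.card_univ, Fintype.card_fin, nsmul_eq_mul]
  have h4 : (0 : ℝ) ≤ ‖K‖ := norm_nonneg _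
  gcongr

/-- from ranks to nuclear norms -/
lemma appN_of_appR (hA : S_AUER1) {C s : ℝ} (hC : 0 ≤ C) (hs : 0 < s) {K : E →L[ℝ] E}
    (h : AppR K C s) : AppN K ((C + 1) * (2 * (C + 1)) ^ s) s := by
  intro l hl
  have hl0 : 0 < l := by linarith
  have hR : 1 ≤ 2 * (C + 1) := by linarith
  have hK0 : 0 ≤ ‖K‖ := norm_nonneg _
  have hRs : 1 ≤ (2 * (C + 1)) ^ s := Real.one_le_rpow hR hs.le
  by_cases hc : l < C + 1
  · refine ⟨0, nuclear_zero (by positivity), ?_⟩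
    rw [sub_zero]
    have h1 : 1 ≤ (2 * (C + 1)) ^ s * l ^ (-s) := by
      rw [Real.rpow_neg hl0.le, ← div_eq_mul_inv, ← Real.div_rpow (by linarith) hl0.le]
      refine Real.one_le_rpow ?_ hs.le
      rw [one_le_div hl0]
      linarith
    calc ‖K‖ = 1 * ‖K‖ * 1 := by ring
      _ ≤ (C + 1) * ‖K‖ * ((2 * (C + 1)) ^ s * l ^ (-s)) := by
          gcongr
          linarith
      _ = (C + 1) * (2 * (C + 1)) ^ s * ‖K‖ * l ^ (-s) := by ring
  · push Not at hc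
    -- `n = ⌊l / (C + 1)⌋`
    have h0 : 0 < C + 1 := by linarith
    have h1 : 1 ≤ l / (C + 1) := by rwa [one_le_div h0]
    have hn1 : 1 ≤ ⌊l / (C + 1)⌋₊ := by
      rw [Nat.one_le_floor_iff]
      exact h1
    have hnl : ((⌊l / (C + 1)⌋₊ : ℕ) : ℝ) ≤ l / (C + 1) := Nat.floor_le (by positivity)
    have hnu : l / (2 * (C + 1)) ≤ ((⌊l / (C + 1)⌋₊ : ℕ) : ℝ) := by
      have h2 := Nat.lt_floor_add_one (l / (C + 1))
      have h3 : (1 : ℝ) ≤ ((⌊l / (C + 1)⌋₊ : ℕ) : ℝ) := by exact_mod_cast hn1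
      have h4 : l / (2 * (C + 1)) = l / (C + 1) / 2 := by
        field_simp
      rw [h4]
      linarith
    obtain ⟨F, hfd, hr, hF⟩ := h _ hn1
    have hFn := nuclear_rank1 hA F hfd hr
    have hn0 : (1 : ℝ) ≤ ((⌊l / (C + 1)⌋₊ : ℕ) : ℝ) := by exact_mod_cast hn1
    have hne : ((⌊l / (C + 1)⌋₊ : ℕ) : ℝ) ^ (-s) ≤ 1 :=
      Real.rpow_le_one_of_one_le_of_nonpos hn0 (by linarith)
    have hFK : ‖F‖ ≤ (C + 1) * ‖K‖ := by
      have h2 : ‖F‖ ≤ ‖K‖ + ‖K - F‖ := by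
        have h3 : F = K - (K - F) := by abel
        calc ‖F‖ = ‖K - (K - F)‖ := by rw [← h3]
          _ ≤ ‖K‖ + ‖K - F‖ := norm_sub_le _ _
      have h3 : ‖K - F‖ ≤ C * ‖K‖ * 1 := hF.trans (by gcongr)
      linarith
    refine ⟨F, ?_, ?_⟩
    · obtain ⟨f, e, h2, h3, h4⟩ := hFn
      refine ⟨f, e, h2, h3.trans ?_, h4⟩
      calc ((⌊l / (C + 1)⌋₊ : ℕ) : ℝ) * ‖F‖ ≤ l / (C + 1) * ((C + 1) * ‖K‖) := by gcongr
        _ = l * ‖K‖ := by field_simp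
    · have h2 : ((⌊l / (C + 1)⌋₊ : ℕ) : ℝ) ^ (-s) ≤ (2 * (C + 1)) ^ s * l ^ (-s) := by
        have h3 : ((⌊l / (C + 1)⌋₊ : ℕ) : ℝ) ^ (-s) ≤ (l / (2 * (C + 1))) ^ (-s) :=
          Real.rpow_le_rpow_of_nonpos (by positivity) hnu (by linarith)
        refine h3.trans (le_of_eq ?_)
        rw [Real.rpow_neg (by positivity), Real.div_rpow hl0.le (by linarith), inv_div,
          Real.rpow_neg hl0.le, div_eq_mul_inv]
      have h5 : 0 < l ^ (-s) := Real.rpow_pos_of_pos hl0 _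
      calc ‖K - F‖ ≤ C * ‖K‖ * ((⌊l / (C + 1)⌋₊ : ℕ) : ℝ) ^ (-s) := hF
        _ ≤ (C + 1) * ‖K‖ * ((2 * (C + 1)) ^ s * l ^ (-s)) := by
            gcongr
            linarith
        _ = (C + 1) * (2 * (C + 1)) ^ s * ‖K‖ * l ^ (-s) := by ring

/-- the condition `KS` -/
lemma ks_of_appN [CompleteSpace E] [Nontrivial E] (hN : S_NORMKS) {P s : ℝ} (hs : 0 < s)
    (h : ∀ c : ℝ, 0 < c → ∃ K : E →L[ℝ] E, AppN K P s ∧
      ‖ContinuousLinearMap.id ℝ E - K‖ < 1 + c * ‖K‖)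
    (hid : 1 ≤ ‖ContinuousLinearMap.id ℝ E‖) : KS E := by
  refine hN E (|P| + 1) s (by positivity) hs fun c hc => ?_
  obtain ⟨K, hK, hlt⟩ := h c hc
  have hK0 : 0 < ‖K‖ := by
    rcases (norm_nonneg K).eq_or_lt with h0 | h0
    · exfalso
      rw [← h0, mul_zero, add_zero] at hlt
      have : K = 0 := norm_eq_zero.1 h0.symm
      rw [this, sub_zero] at hlt
      linarith
    · exact h0
  refine ⟨K, hlt, fun l hl => ?_⟩
  obtain ⟨F, hF, hKF⟩ := hK l hl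
  have hls : 0 < l ^ (-s) := Real.rpow_pos_of_pos (by linarith) _
  obtain ⟨n, f, e, h1, h2⟩ := trunc1 hF (δ := ‖K‖ * l ^ (-s)) (by positivity)
  refine ⟨n, f, e, h1, ?_⟩
  have h3 : K - opr f e = (K - F) + (F - opr f e) := by abel
  rw [h3]
  refine (norm_add_le _ _).trans ?_
  have h4 : P * ‖K‖ * l ^ (-s) ≤ |P| * ‖K‖ * l ^ (-s) := by
    gcongr
    exact le_abs_self P
  nlinarith

/-- nuclear operators -/
lemma appN_of_nuclear {K : E →L[ℝ] E} {P s : ℝ} (hs : 0 < s)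
    (h : NuclearLE K (P * ‖K‖)) : AppN K ((|P| + 1) ^ s) s := by
  intro l hl
  have hl0 : 0 < l := by linarith
  by_cases hc : l < |P| + 1
  · refine ⟨0, nuclear_zero (by positivity), ?_⟩
    rw [sub_zero]
    have h1 : 1 ≤ (|P| + 1) ^ s * l ^ (-s) := by
      rw [Real.rpow_neg hl0.le, ← div_eq_mul_inv, ← Real.div_rpow (by positivity) hl0.le]
      refine Real.one_le_rpow ?_ hs.le
      rw [one_le_div hl0]
      linarith
    calc ‖K‖ = ‖K‖ * 1 := by ring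
      _ ≤ ‖K‖ * ((|P| + 1) ^ s * l ^ (-s)) := by gcongr
      _ = (|P| + 1) ^ s * ‖K‖ * l ^ (-s) := by ring
  · push Not at hc
    refine ⟨K, ?_, ?_⟩
    · obtain ⟨f, e, h2, h3, h4⟩ := h
      refine ⟨f, e, h2, h3.trans ?_, h4⟩
      gcongr
      linarith [le_abs_self P]
    · rw [sub_self, norm_zero]
      positivity

end Pool.Agent.H65.BM
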