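import Pool.Agent.H65.BM.QNIL

/-!
# Project BM: Gelfand's theorem, isometries which are compact perturbations of the identity
-/

set_option autoImplicit false

namespace Pool.Agent.H65.BM

open Filter Topology

lemma gel_bound {X : Type} [NormedAddCommGroup X] [NormedSpace ℂ X]
    (T S : X →L[ℂ] X) (hST : S * T = 1) (hT : ‖T‖ ≤ 1) (hS : ‖S‖ ≤ 1) (w : ℂ) (R : X →L[ℂ] X)
    (hR : (1 + w • (1 - T)) * R = 1) :
    2 * |w.re + 1 / 2| * ‖R‖ ≤ ‖1 + w‖ + ‖w‖ := by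
  have hTx : ∀ x, ‖T x‖ ≤ ‖x‖ := fun x => by
    calc ‖T x‖ ≤ ‖T‖ * ‖x‖ := T.le_opNorm x
      _ ≤ 1 * ‖x‖ := by gcongr
      _ = ‖x‖ := one_mul _
  have hxT : ∀ x, ‖x‖ ≤ ‖T x‖ := fun x => by
    have h1 : S (T x) = x := congrArg (fun A : X →L[ℂ] X => A x) hST
    calc ‖x‖ = ‖S (T x)‖ := by rw [h1]
      _ ≤ ‖S‖ * ‖T x‖ := S.le_opNorm _
      _ ≤ 1 * ‖T x‖ := by gcongr
      _ = ‖T x‖ := one_mul _
  have key : ∀ x, |‖1 + w‖ - ‖w‖| * ‖R x‖ ≤ ‖x‖ := by
    intro x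
    have h0 : R x + w • (R x - T (R x)) = x := congrArg (fun A : X →L[ℂ] X => A x) hR
    have h1 : (1 + w) • R x - w • T (R x) = x := by
      rw [add_smul, one_smul]
      rw [smul_sub] at h0
      rw [← add_sub_assoc] at h0
      exact h0
    have h2 : ‖(1 + w) • R x‖ = ‖1 + w‖ * ‖R x‖ := norm_smul _ _
    have h3 : ‖w • T (R x)‖ = ‖w‖ * ‖T (R x)‖ := norm_smul _ _
    have h4 : ‖w‖ * ‖T (R x)‖ = ‖w‖ * ‖R x‖ := by
      rw [le_antisymm (hTx (R x)) (hxT (R x))]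
    have h5 := abs_norm_sub_norm_le ((1 + w) • R x) (w • T (R x))
    rw [h1, h2, h3, h4, ← sub_mul, abs_mul, abs_norm] at h5
    exact h5
  have hsq : ‖1 + w‖ ^ 2 - ‖w‖ ^ 2 = 2 * (w.re + 1 / 2) := by
    rw [← Complex.normSq_eq_norm_sq, ← Complex.normSq_eq_norm_sq, Complex.normSq_apply,
      Complex.normSq_apply]
    simp only [Complex.add_re, Complex.one_re, Complex.add_im, Complex.one_im]
    ring
  have hab : 2 * |w.re + 1 / 2| = |‖1 + w‖ - ‖w‖| * (‖1 + w‖ + ‖w‖) := by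
    have h1 : |‖1 + w‖ ^ 2 - ‖w‖ ^ 2| = |‖1 + w‖ - ‖w‖| * (‖1 + w‖ + ‖w‖) := by
      rw [sq_sub_sq, abs_mul, mul_comm]
      congr 1
      exact abs_of_nonneg (by positivity)
    rw [← h1, hsq, abs_mul, abs_two]
  have hRn : |‖1 + w‖ - ‖w‖| * ‖R‖ ≤ 1 := by
    by_cases h0 : |‖1 + w‖ - ‖w‖| = 0
    · rw [h0, zero_mul]
      exact zero_le_one
    have hpos : 0 < |‖1 + w‖ - ‖w‖| := lt_of_le_of_ne (abs_nonneg _) (Ne.symm h0)
    rw [mul_comm, ← le_div_iff₀ hpos]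
    refine ContinuousLinearMap.opNorm_le_bound _ (by positivity) fun x => ?_
    rw [one_div, inv_mul_eq_div, le_div_iff₀ hpos, mul_comm]
    exact key x
  have h0 : 0 ≤ ‖1 + w‖ + ‖w‖ := by positivity
  rw [hab]
  nlinarith

/-- **Gelfand's theorem** -/
theorem gelfand {X : Type} [NormedAddCommGroup X] [NormedSpace ℂ X] [CompleteSpace X]
    [Nontrivial X] (T S : X →L[ℂ] X) (hST : S * T = 1) (hT : ‖T‖ ≤ 1) (hS : ‖S‖ ≤ 1)
    (h : Tendsto (fun n : ℕ => ‖(1 - T) ^ n‖ ^ (1 / (n : ℝ))) atTop (𝓝 0)) : T = 1 := by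
  set N : X →L[ℂ] X := 1 - T with hN
  have hlim := spectrum.pow_norm_pow_one_div_tendsto_nhds_spectralRadius N
  have hr : spectralRadius ℂ N = 0 := by
    refine tendsto_nhds_unique hlim ?_
    have := (ENNReal.continuous_ofReal.tendsto 0).comp h
    rw [ENNReal.ofReal_zero] at this
    exact this
  have hu : ∀ w : ℂ, IsUnit (1 + w • N) := by
    intro w
    by_cases hw : w = 0
    · rw [hw, zero_smul, add_zero]
      exact isUnit_one
    have h1 : (-w⁻¹) ∈ resolventSet ℂ N := by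
      apply spectrum.mem_resolventSet_of_spectralRadius_lt
      rw [hr]
      simp [hw]
    rw [spectrum.mem_resolventSet_iff, Algebra.algebraMap_eq_smul_one] at h1
    have h2 : (1 : X →L[ℂ] X) + w • N = (-w) • ((-w⁻¹) • (1 : X →L[ℂ] X) - N) := by
      rw [smul_sub (-w) ((-w⁻¹) • (1 : X →L[ℂ] X)) N, smul_smul, neg_mul_neg, mul_inv_cancel₀ hw,
        one_smul, neg_smul, sub_neg_eq_add]
    rw [h2]
    have h3 : IsUnit ((-w) • (1 : X →L[ℂ] X)) := by
      rw [← Algebra.algebraMap_eq_smul_one]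
      exact (IsUnit.mk0 (-w) (neg_ne_zero.2 hw)).map _
    have h4 := h3.mul h1
    rwa [smul_mul_assoc, one_mul] at h4
  set f : ℂ → (X →L[ℂ] X) := fun u => Ring.inverse (1 + (u - 1 / 2) • N) with hf
  have hfd : Differentiable ℂ f := by
    intro u
    have h1 : DifferentiableAt ℂ (fun u : ℂ => (1 : X →L[ℂ] X) + (u - 1 / 2) • N) u := by
      fun_prop
    exact h1.inverse (hu _)
  have hfm : ∀ u : ℂ, (1 + (u - 1 / 2) • (1 - T)) * f u = 1 := fun u =>
    Ring.mul_inverse_cancel _ (hu _)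
  have hb : ∀ u : ℂ, 2 * |u.re| * ‖f u‖ ≤ 2 * ‖u‖ + 1 := by
    intro u
    have h1 := gel_bound T S hST hT hS (u - 1 / 2) (f u) (hfm u)
    have h2 : (u - 1 / 2).re + 1 / 2 = u.re := by
      simp
    rw [h2] at h1
    refine h1.trans ?_
    have h3 : ‖1 + (u - 1 / 2)‖ ≤ ‖u‖ + 1 / 2 := by
      have : 1 + (u - 1 / 2) = u + 1 / 2 := by ring
      rw [this]
      refine (norm_add_le _ _).trans ?_
      simp
    have h4 : ‖u - 1 / 2‖ ≤ ‖u‖ + 1 / 2 := by
      refine (norm_sub_le _ _).trans ?_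
      simp
    linarith
  -- bound on the circles
  have hb2 : ∀ r : ℝ, 1 ≤ r → ∀ u : ℂ, ‖u‖ ≤ r / 2 → ‖f u‖ ≤ 4 := by
    intro r hr1 u hur
    have hr0 : 0 < r := by linarith
    have h1 : ‖(u ^ 2 + (r : ℂ) ^ 2) • f u‖ ≤ r * (2 * r + 1) := by
      refine Complex.norm_le_of_forall_mem_frontier_norm_le (f := fun z => (z ^ 2 + (r : ℂ) ^ 2) • f z)
        (U := Metric.ball (0 : ℂ) r) Metric.isBounded_ball ?_ ?_ ?_
      · refine Differentiable.diffContOnCl ?_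
        have hp : Differentiable ℂ (fun z : ℂ => z ^ 2 + (r : ℂ) ^ 2) := by fun_prop
        exact hp.smul hfd
      · intro z hz
        rw [frontier_ball _ hr0.ne', mem_sphere_zero_iff_norm] at hz
        rw [norm_smul]
        have h2 : z ^ 2 + (r : ℂ) ^ 2 = z * (2 * z.re) := by
          have h3 : (r : ℂ) ^ 2 = z * starRingEnd ℂ z := by
            rw [Complex.mul_conj, Complex.normSq_eq_norm_sq, hz]
            push_cast
            ring
          have h4 : (2 * z.re : ℂ) = z + starRingEnd ℂ z := by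
            rw [Complex.add_conj]
            push_cast
            ring
          rw [h3, h4]
          ring
        have h5 : ‖z ^ 2 + (r : ℂ) ^ 2‖ = r * (2 * |z.re|) := by
          rw [h2, norm_mul, hz, norm_mul, Complex.norm_real]
          simp
        rw [h5, mul_assoc]
        have h6 := hb z
        rw [hz] at h6
        gcongr
      · refine subset_closure ?_
        rw [Metric.mem_ball, dist_zero_right]
        linarith
    rw [norm_smul] at h1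
    have h2 : 3 / 4 * r ^ 2 ≤ ‖u ^ 2 + (r : ℂ) ^ 2‖ := by
      have h3 : ‖(r : ℂ) ^ 2‖ - ‖u ^ 2‖ ≤ ‖u ^ 2 + (r : ℂ) ^ 2‖ := by
        have := norm_sub_norm_le ((r : ℂ) ^ 2) (-(u ^ 2))
        rw [norm_neg, sub_neg_eq_add, add_comm] at this
        exact this
      have h4 : ‖(r : ℂ) ^ 2‖ = r ^ 2 := by
        rw [norm_pow, Complex.norm_real, Real.norm_of_nonneg hr0.le]
      have h5 : ‖u ^ 2‖ ≤ (r / 2) ^ 2 := by
        rw [norm_pow]
        gcongr
      rw [h4] at h3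
      nlinarith
    have h3 : 3 / 4 * r ^ 2 * ‖f u‖ ≤ r * (2 * r + 1) :=
      (mul_le_mul_of_nonneg_right h2 (norm_nonneg _)).trans h1
    have h4 : r * (2 * r + 1) ≤ 3 / 4 * r ^ 2 * 4 := by nlinarith
    exact le_of_mul_le_mul_left (h3.trans h4) (by positivity)
  have hbd : Bornology.IsBounded (Set.range f) := by
    rw [isBounded_iff_forall_norm_le]
    refine ⟨4, ?_⟩
    rintro _ ⟨u, rfl⟩
    exact hb2 (2 * ‖u‖ + 1) (by linarith [norm_nonneg u]) u (by linarith)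
  have h1 := hfd.apply_eq_apply_of_bounded hbd (1 / 2) (3 / 2)
  have h2 : f (1 / 2) = 1 := by
    have := hfm (1 / 2)
    rwa [sub_self, zero_smul, add_zero, one_mul] at this
  have h3 := hfm (3 / 2)
  rw [← h1, h2, mul_one] at h3
  have h4 : ((3 : ℂ) / 2 - 1 / 2) = 1 := by norm_num
  rw [h4, one_smul] at h3
  have h5 : (1 : X →L[ℂ] X) - T = 0 := by
    have : (1 : X →L[ℂ] X) + (1 - T) - 1 = 1 - 1 := by rw [h3]
    rwa [add_sub_cancel_left, sub_self] at this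
  exact (sub_eq_zero.1 h5).symm

variable {E : Type} [NormedAddCommGroup E] [NormedSpace ℝ E]

/-- isometries `T ≠ 1` with `1 - T` compact -/
theorem iso_qnil [CompleteSpace E] [Nontrivial E] (T : E ≃ₗᵢ[ℝ] E) (hT : ∃ x, T x ≠ x)
    (hc : IsCompactOperator fun x => x - T x) :
    ∃ K : E →L[ℝ] E, IsCompactOperator K ∧ (∀ y, ‖y - K y‖ ≤ ‖y‖) ∧
      ∃ (x : E) (a b : ℝ), x ≠ 0 ∧ b ≠ 0 ∧ K (K x) + a • K x + b • x = 0 := by
  set Tc : E →L[ℝ] E := T.toContinuousLinearEquiv.toContinuousLinearMap with hTc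
  set Sc : E →L[ℝ] E := T.symm.toContinuousLinearEquiv.toContinuousLinearMap with hSc
  have hTx : ∀ x, Tc x = T x := fun x => rfl
  have hSx : ∀ x, Sc x = T.symm x := fun x => rfl
  set A : E →L[ℝ] E := 1 - Tc with hA
  have hAc : IsCompactOperator A := hc
  have hTn : ‖Tc‖ ≤ 1 := ContinuousLinearMap.opNorm_le_bound _ zero_le_one fun x => by
    rw [hTx, T.norm_map, one_mul]
  have hSn : ‖Sc‖ ≤ 1 := ContinuousLinearMap.opNorm_le_bound _ zero_le_one fun x => by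
    rw [hSx, T.symm.norm_map, one_mul]
  have hnt : Nontrivial (E →L[ℝ] ℂ) := by
    obtain ⟨x, hx⟩ := exists_ne (0 : E)
    obtain ⟨g, hg, hg1⟩ := exists_dual_vector ℝ x (norm_ne_zero_iff.2 hx)
    refine ⟨⟨Complex.ofRealCLM.comp g, 0, fun h => ?_⟩⟩
    have h1 : ((g x : ℝ) : ℂ) = 0 := by
      have := congrArg (fun ψ : E →L[ℝ] ℂ => ψ x) h
      simpa using this
    rw [hg1] at h1
    simp at h1
    exact hx h1
  have hq : ¬ Tendsto (fun n : ℕ => ‖A ^ n‖ ^ (1 / (n : ℝ))) atTop (𝓝 0) := by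
    intro h
    have h1 : (1 : (E →L[ℝ] ℂ) →L[ℂ] (E →L[ℝ] ℂ)) - lam Tc = lam A := by
      ext ψ x
      show ψ x - ψ (Tc x) = ψ (x - Tc x)
      rw [map_sub]
    have h2 : lam Tc = 1 := by
      refine gelfand (lam Tc) (lam Sc) ?_ ((norm_lam _).le.trans hTn) ((norm_lam _).le.trans hSn) ?_
      · ext ψ x
        show ψ (Tc (Sc x)) = ψ x
        rw [hTx, hSx, T.apply_symm_apply]
      · rw [h1]
        refine h.congr fun n => ?_
        rw [lam_pow, norm_lam]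
    obtain ⟨x, hx⟩ := hT
    have h3 : x - T x ≠ 0 := fun h => hx (sub_eq_zero.1 h).symm
    obtain ⟨g, hg, hg1⟩ := exists_dual_vector ℝ (x - T x) (norm_ne_zero_iff.2 h3)
    have h4 : (Complex.ofRealCLM.comp g : E →L[ℝ] ℂ) (Tc x) =
        (Complex.ofRealCLM.comp g : E →L[ℝ] ℂ) x := congrArg
      (fun B : (E →L[ℝ] ℂ) →L[ℂ] (E →L[ℝ] ℂ) => (B (Complex.ofRealCLM.comp g)) x) h2
    have h5 : ((g (T x) : ℝ) : ℂ) = ((g x : ℝ) : ℂ) := h4
    have h6 : g (T x) = g x := by exact_mod_cast h5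
    rw [map_sub, h6, sub_self] at hg1
    apply h3
    rw [← norm_eq_zero]
    exact_mod_cast hg1.symm
  obtain ⟨x, a, b, hx, hb, h⟩ := qnil hAc hq
  refine ⟨(1 / 2 : ℝ) • A, hAc.smul (1 / 2 : ℝ), fun y => ?_, x, a / 2, b / 4, hx, by positivity, ?_⟩
  · show ‖y - (1 / 2 : ℝ) • (y - T y)‖ ≤ ‖y‖
    have h1 : y - (1 / 2 : ℝ) • (y - T y) = (1 / 2 : ℝ) • (y + T y) := by
      module
    rw [h1, norm_smul, Real.norm_of_nonneg (by norm_num)]
    have := norm_add_le y (T y)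
    rw [T.norm_map] at this
    linarith
  · show (1 / 2 : ℝ) • A ((1 / 2 : ℝ) • A x) + (a / 2) • ((1 / 2 : ℝ) • A x) + (b / 4) • x = 0
    rw [map_smul]
    have h1 : (1 / 2 : ℝ) • (1 / 2 : ℝ) • A (A x) + (a / 2) • ((1 / 2 : ℝ) • A x) + (b / 4) • x =
        (1 / 4 : ℝ) • (A (A x) + a • A x + b • x) := by
      module
    rw [h1, h, smul_zero]

end Pool.Agent.H65.BM
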