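import Pool.Agent.H65.BM.S5

/-! # BM5-GEN (helper63): a minimal invariant subspace for a quasinilpotent algebra on a transitive space -/

set_option autoImplicit false

namespace Pool.Agent.H65.BM

open Filter Topology

namespace GENx

variable {E : Type} [NormedAddCommGroup E] [NormedSpace ℝ E]

/-- the closed subspace generated by the orbit -/
noncomputable def M (𝒜 : Submodule ℝ (E →L[ℝ] E)) (x : E) : Submodule ℝ E :=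
  (𝒜.map ((ContinuousLinearMap.apply ℝ E x : (E →L[ℝ] E) →L[ℝ] E) :
    (E →L[ℝ] E) →ₗ[ℝ] E)).topologicalClosure

lemma mem_M {𝒜 : Submodule ℝ (E →L[ℝ] E)} {x z : E} :
    z ∈ M 𝒜 x ↔ ∀ ε : ℝ, 0 < ε → ∃ c ∈ 𝒜, ‖c x - z‖ < ε := by
  unfold M
  rw [← SetLike.mem_coe, Submodule.topologicalClosure_coe, Metric.mem_closure_iff]
  constructor
  · intro h ε hε
    obtain ⟨b, hb, hd⟩ := h ε hε
    obtain ⟨c, hc, rfl⟩ := hb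
    refine ⟨c, hc, ?_⟩
    rw [dist_comm, dist_eq_norm] at hd
    exact hd
  · intro h ε hε
    obtain ⟨c, hc, hd⟩ := h ε hε
    refine ⟨c x, ⟨c, hc, rfl⟩, ?_⟩
    rw [dist_comm, dist_eq_norm]
    exact hd

lemma M_closed (𝒜 : Submodule ℝ (E →L[ℝ] E)) (x : E) : IsClosed (M 𝒜 x : Set E) := by
  unfold M
  exact Submodule.isClosed_topologicalClosure _

lemma apply_mem {𝒜 : Submodule ℝ (E →L[ℝ] E)} {x : E} {a : E →L[ℝ] E} (ha : a ∈ 𝒜) :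
    a x ∈ M 𝒜 x := by
  rw [mem_M]
  intro ε hε
  exact ⟨a, ha, by simpa using hε⟩

lemma inv {𝒜 : Submodule ℝ (E →L[ℝ] E)} (hmul : ∀ a ∈ 𝒜, ∀ b ∈ 𝒜, a.comp b ∈ 𝒜) {x y : E}
    {a : E →L[ℝ] E} (ha : a ∈ 𝒜) (hy : y ∈ M 𝒜 x) : a y ∈ M 𝒜 x := by
  rw [mem_M] at hy ⊢
  intro ε hε
  obtain ⟨c, hc, hd⟩ := hy (ε / (‖a‖ + 1)) (by positivity)
  refine ⟨a.comp c, hmul a ha c hc, ?_⟩
  rw [ContinuousLinearMap.comp_apply, ← map_sub]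
  rw [lt_div_iff₀ (by positivity)] at hd
  calc ‖a (c x - y)‖ ≤ ‖a‖ * ‖c x - y‖ := a.le_opNorm _
    _ ≤ ‖c x - y‖ * (‖a‖ + 1) := by nlinarith [norm_nonneg (c x - y), norm_nonneg a]
    _ < ε := hd

lemma dist_iso {𝒜 : Submodule ℝ (E →L[ℝ] E)} (hconj : ∀ g : E ≃ₗᵢ[ℝ] E, ∀ a ∈ 𝒜, cjo g a ∈ 𝒜)
    (T : E ≃ₗᵢ[ℝ] E) (x : E) :
    Metric.infDist (T x) (M 𝒜 (T x) : Set E) ≤ Metric.infDist x (M 𝒜 x : Set E) := by
  rw [Metric.le_infDist ⟨0, (M 𝒜 x).zero_mem⟩]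
  intro m hm
  have h1 : T m ∈ M 𝒜 (T x) := by
    have hm' : m ∈ M 𝒜 x := hm
    rw [mem_M] at hm' ⊢
    intro ε hε
    obtain ⟨c, hc, hd⟩ := hm' ε hε
    refine ⟨cjo T c, hconj T c hc, ?_⟩
    have h2 : cjo T c (T x) = T (c x) := by
      show T (c (T.symm (T x))) = T (c x)
      rw [T.symm_apply_apply]
    rw [h2, ← map_sub, T.norm_map]
    exact hd
  have h3 := Metric.infDist_le_dist_of_mem (x := T x) (show T m ∈ (M 𝒜 (T x) : Set E) from h1)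
  rwa [T.dist_map] at h3

lemma dist_smul' {𝒜 : Submodule ℝ (E →L[ℝ] E)} {r : ℝ} (hr : 0 < r) (x : E) :
    Metric.infDist (r • x) (M 𝒜 (r • x) : Set E) ≤ r * Metric.infDist x (M 𝒜 x : Set E) := by
  rw [← div_le_iff₀' hr, Metric.le_infDist ⟨0, (M 𝒜 x).zero_mem⟩]
  intro m hm
  have h1 : r • m ∈ M 𝒜 (r • x) := by
    have hm' : m ∈ M 𝒜 x := hm
    rw [mem_M] at hm' ⊢
    intro ε hε
    obtain ⟨c, hc, hd⟩ := hm' (ε / r) (by positivity)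
    refine ⟨c, hc, ?_⟩
    rw [map_smul, ← smul_sub, norm_smul, Real.norm_of_nonneg hr.le]
    rwa [lt_div_iff₀' hr] at hd
  have h3 := Metric.infDist_le_dist_of_mem (x := r • x)
    (show r • m ∈ (M 𝒜 (r • x) : Set E) from h1)
  rw [dist_smul₀, Real.norm_of_nonneg hr.le] at h3
  rwa [div_le_iff₀' hr]

lemma dist_all {𝒜 : Submodule ℝ (E →L[ℝ] E)} (hconj : ∀ g : E ≃ₗᵢ[ℝ] E, ∀ a ∈ 𝒜, cjo g a ∈ 𝒜)
    (hTr : Tr E) {x y : E} (hx : x ≠ 0) (hy : y ≠ 0) :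
    Metric.infDist y (M 𝒜 y : Set E) * ‖x‖ ≤ ‖y‖ * Metric.infDist x (M 𝒜 x : Set E) := by
  have hx0 : 0 < ‖x‖ := norm_pos_iff.2 hx
  have hy0 : 0 < ‖y‖ := norm_pos_iff.2 hy
  obtain ⟨T, hT⟩ := hTr (‖x‖⁻¹ • x) (‖y‖⁻¹ • y)
    (by rw [norm_smul, norm_inv, norm_norm, inv_mul_cancel₀ hx0.ne'])
    (by rw [norm_smul, norm_inv, norm_norm, inv_mul_cancel₀ hy0.ne'])
  have h1 := dist_smul' (𝒜 := 𝒜) (inv_pos.2 hx0) x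
  have h2 := dist_iso hconj T (‖x‖⁻¹ • x)
  rw [hT] at h2
  have h3 := dist_smul' (𝒜 := 𝒜) hy0 (‖y‖⁻¹ • y)
  rw [smul_smul, mul_inv_cancel₀ hy0.ne', one_smul] at h3
  have h4 : Metric.infDist y (M 𝒜 y : Set E) ≤
      ‖y‖ * (‖x‖⁻¹ * Metric.infDist x (M 𝒜 x : Set E)) :=
    h3.trans (mul_le_mul_of_nonneg_left (h2.trans h1) hy0.le)
  calc Metric.infDist y (M 𝒜 y : Set E) * ‖x‖ ≤
      ‖y‖ * (‖x‖⁻¹ * Metric.infDist x (M 𝒜 x : Set E)) * ‖x‖ :=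
        mul_le_mul_of_nonneg_right h4 hx0.le
    _ = ‖y‖ * Metric.infDist x (M 𝒜 x : Set E) * (‖x‖⁻¹ * ‖x‖) := by ring
    _ = _ := by rw [inv_mul_cancel₀ hx0.ne', mul_one]

/-- distance of the unit vectors -/
lemma unit_dist {y y₀ : E} (hy : y ≠ 0) (hy₀ : y₀ ≠ 0) :
    ‖‖y‖⁻¹ • y - ‖y₀‖⁻¹ • y₀‖ * ‖y₀‖ ≤ 2 * ‖y - y₀‖ := by
  have h0 : 0 < ‖y₀‖ := norm_pos_iff.2 hy₀
  have h1 : 0 < ‖y‖ := norm_pos_iff.2 hy
  have h2 : ‖y₀‖ • (‖y‖⁻¹ • y - ‖y₀‖⁻¹ • y₀) = (y - y₀) + (‖y₀‖ * ‖y‖⁻¹ - 1) • y := by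
    rw [smul_sub, smul_smul, smul_smul, mul_inv_cancel₀ h0.ne', one_smul, sub_smul, one_smul]
    abel
  have h3 : ‖(‖y₀‖ * ‖y‖⁻¹ - 1) • y‖ ≤ ‖y - y₀‖ := by
    rw [norm_smul, Real.norm_eq_abs]
    have h4 : |‖y₀‖ * ‖y‖⁻¹ - 1| * ‖y‖ = |‖y₀‖ - ‖y‖| := by
      rw [← abs_of_pos h1, ← abs_mul, abs_of_pos h1]
      congr 1
      field_simp
    rw [h4]
    have h5 := abs_norm_sub_norm_le y₀ y
    rwa [norm_sub_rev] at h5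
  calc ‖‖y‖⁻¹ • y - ‖y₀‖⁻¹ • y₀‖ * ‖y₀‖ = ‖‖y₀‖ • (‖y‖⁻¹ • y - ‖y₀‖⁻¹ • y₀)‖ := by
        rw [norm_smul, norm_norm, mul_comm]
    _ = ‖(y - y₀) + (‖y₀‖ * ‖y‖⁻¹ - 1) • y‖ := by rw [h2]
    _ ≤ ‖y - y₀‖ + ‖(‖y₀‖ * ‖y‖⁻¹ - 1) • y‖ := norm_add_le _ _
    _ ≤ 2 * ‖y - y₀‖ := by linarith

end GENx

open GENx in
theorem gen : S_GEN := by
  intro hEFF hNEU E _ _ _ _ hTr 𝒜 hA hne hq
  obtain ⟨hmul, hconj⟩ := hA
  -- (0)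
  have h0 : ∀ (x z : E) (a : E →L[ℝ] E), a ∈ 𝒜 → z ∈ M 𝒜 x → z ∈ M 𝒜 (x + a x) := by
    intro x z a ha hz
    obtain ⟨S, hS1, hS2⟩ := hNEU E a (hq a ha)
    rw [mem_M] at hz ⊢
    intro ε hε
    obtain ⟨c, hc, hd⟩ := hz (ε / 2) (by positivity)
    obtain ⟨c', hc', hd'⟩ := hS2 𝒜 hmul ha c hc (ε / (2 * (‖x + a x‖ + 1))) (by positivity)
    refine ⟨c', hc', ?_⟩
    have h1 : c' (x + a x) - z = (c x - z) - (c.comp S - c') (x + a x) := by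
      rw [sub_apply, ContinuousLinearMap.comp_apply, hS1]
      abel
    have h2 : ‖(c.comp S - c') (x + a x)‖ ≤ ε / 2 := by
      refine ((c.comp S - c').le_opNorm _).trans ?_
      rw [lt_div_iff₀ (by positivity)] at hd'
      nlinarith [norm_nonneg (x + a x), norm_nonneg (c.comp S - c')]
    rw [h1]
    calc ‖(c x - z) - (c.comp S - c') (x + a x)‖ ≤ ‖c x - z‖ + ‖(c.comp S - c') (x + a x)‖ :=
          norm_sub_le _ _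
      _ < ε := by linarith
  -- (1)
  obtain ⟨a₀, ha₀, ha₀n⟩ := hne
  obtain ⟨x₀, hx₀⟩ : ∃ x, a₀ x ≠ 0 := by
    by_contra hcon
    push Not at hcon
    exact ha₀n (ContinuousLinearMap.ext fun x => by simpa using hcon x)
  have hx₀0 : x₀ ≠ 0 := by
    rintro rfl
    exact hx₀ (map_zero a₀)
  have hD0 : Metric.infDist x₀ (M 𝒜 x₀ : Set E) = 0 := by
    by_contra hcon
    have hpos : 0 < Metric.infDist x₀ (M 𝒜 x₀ : Set E) :=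
      lt_of_le_of_ne Metric.infDist_nonneg (Ne.symm hcon)
    have ha0 : 0 < ‖a₀ x₀‖ := norm_pos_iff.2 hx₀
    obtain ⟨t, ht⟩ : ∃ t : ℝ, t = (2 * ‖x₀‖ + 1) / ‖a₀ x₀‖ := ⟨_, rfl⟩
    have ht0 : 0 < t := by rw [ht]; positivity
    have hta : t * ‖a₀ x₀‖ = 2 * ‖x₀‖ + 1 := by rw [ht]; field_simp
    obtain ⟨y, hy⟩ : ∃ y : E, y = x₀ + (t • a₀) x₀ := ⟨_, rfl⟩
    have hyn : ‖x₀‖ + 1 ≤ ‖y‖ := by
      have h1 : ‖(t • a₀) x₀‖ = 2 * ‖x₀‖ + 1 := by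
        rw [smul_apply, norm_smul, Real.norm_of_nonneg ht0.le, hta]
      have h2 : ‖(t • a₀) x₀‖ ≤ ‖y‖ + ‖x₀‖ := by
        have h3 : (t • a₀) x₀ = y - x₀ := by rw [hy]; abel
        rw [h3]
        exact norm_sub_le _ _
      linarith
    have hy0 : y ≠ 0 := by
      rintro h
      rw [h, norm_zero] at hyn
      have := norm_nonneg x₀
      linarith
    have hta𝒜 : t • a₀ ∈ 𝒜 := 𝒜.smul_mem _ ha₀
    have hDy : Metric.infDist y (M 𝒜 y : Set E) ≤ Metric.infDist x₀ (M 𝒜 x₀ : Set E) := by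
      rw [Metric.le_infDist ⟨0, (M 𝒜 x₀).zero_mem⟩]
      intro m hm
      have h1 : m + (t • a₀) x₀ ∈ M 𝒜 x₀ := (M 𝒜 x₀).add_mem hm (apply_mem hta𝒜)
      have h2 : m + (t • a₀) x₀ ∈ M 𝒜 y := by
        rw [hy]
        exact h0 x₀ _ _ hta𝒜 h1
      have h3 := Metric.infDist_le_dist_of_mem (x := y)
        (show m + (t • a₀) x₀ ∈ (M 𝒜 y : Set E) from h2)
      rw [hy, dist_add_right] at h3
      rw [hy]
      exact h3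
    have h4 := dist_all hconj hTr hy0 hx₀0 (𝒜 := 𝒜)
    have h5 : Metric.infDist x₀ (M 𝒜 x₀ : Set E) * ‖y‖ ≤
        ‖x₀‖ * Metric.infDist x₀ (M 𝒜 x₀ : Set E) :=
      h4.trans (mul_le_mul_of_nonneg_left hDy (norm_nonneg _))
    nlinarith
  have h1 : ∀ x : E, x ∈ M 𝒜 x := by
    intro x
    by_cases hx : x = 0
    · rw [hx]; exact (M 𝒜 0).zero_mem
    · have h2 := dist_all hconj hTr hx₀0 hx (𝒜 := 𝒜)
      rw [hD0, mul_zero] at h2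
      have h3 : 0 < ‖x₀‖ := norm_pos_iff.2 hx₀0
      have h4 : Metric.infDist x (M 𝒜 x : Set E) = 0 := by
        have h5 : 0 ≤ Metric.infDist x (M 𝒜 x : Set E) := Metric.infDist_nonneg
        nlinarith
      exact ((M_closed 𝒜 x).mem_iff_infDist_zero ⟨0, (M 𝒜 x).zero_mem⟩).2 h4
  -- (2)
  refine ⟨M 𝒜 x₀, M_closed 𝒜 x₀, ?_, fun a ha y hy => inv hmul ha hy, ?_⟩
  · intro hbot
    have h2 := h1 x₀
    rw [hbot, Submodule.mem_bot] at h2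
    exact hx₀0 h2
  intro y₀ hy₀ hy₀0 z hz ε hε
  have hn0 : 0 < ‖y₀‖ := norm_pos_iff.2 hy₀0
  obtain ⟨δ, hδ, hEff⟩ := hEFF E hTr (‖y₀‖⁻¹ • y₀) z (ε / 3)
    (by rw [norm_smul, norm_inv, norm_norm, inv_mul_cancel₀ hn0.ne']) (by positivity)
  -- a vector near `y₀`
  have h3 : y₀ - x₀ ∈ M 𝒜 x₀ := (M 𝒜 x₀).sub_mem hy₀ (h1 x₀)
  rw [mem_M] at h3
  obtain ⟨a, ha, had⟩ := h3 (min (‖y₀‖ / 2) (δ * ‖y₀‖ / 3)) (lt_min (by positivity) (by positivity))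
  obtain ⟨y, hy⟩ : ∃ y : E, y = x₀ + a x₀ := ⟨_, rfl⟩
  have hyd : ‖y - y₀‖ < min (‖y₀‖ / 2) (δ * ‖y₀‖ / 3) := by
    have h4 : y - y₀ = a x₀ - (y₀ - x₀) := by rw [hy]; abel
    rwa [h4]
  have hyd1 := hyd.trans_le (min_le_left _ _)
  have hyd2 := hyd.trans_le (min_le_right _ _)
  have hy0 : y ≠ 0 := by
    rintro h
    rw [h, zero_sub, norm_neg] at hyd1
    linarith
  have hyn : 0 < ‖y‖ := norm_pos_iff.2 hy0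
  have hdist : ‖‖y‖⁻¹ • y - ‖y₀‖⁻¹ • y₀‖ < δ := by
    have h4 := unit_dist hy0 hy₀0
    have h5 : 0 ≤ ‖‖y‖⁻¹ • y - ‖y₀‖⁻¹ • y₀‖ := norm_nonneg _
    by_contra hcon
    push Not at hcon
    have h6 : δ * ‖y₀‖ ≤ ‖‖y‖⁻¹ • y - ‖y₀‖⁻¹ • y₀‖ * ‖y₀‖ :=
      mul_le_mul_of_nonneg_right hcon hn0.le
    have h7 : 0 < δ * ‖y₀‖ := by positivity
    linarith
  have hzy : z ∈ M 𝒜 y := by rw [hy]; exact h0 x₀ z a ha hz
  rw [mem_M] at hzy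
  obtain ⟨c, hc, hcd⟩ := hzy (ε / 3) (by positivity)
  obtain ⟨T, hT1, hT2⟩ := hEff (‖y‖⁻¹ • y)
    (by rw [norm_smul, norm_inv, norm_norm, inv_mul_cancel₀ hyn.ne']) hdist
    (ε / (3 * (‖c‖ * ‖y‖ + 1))) (by positivity)
  refine ⟨(‖y‖ * ‖y₀‖⁻¹) • cjo T.symm c, 𝒜.smul_mem _ (hconj T.symm c hc), ?_⟩
  have e1 : T (((‖y‖ * ‖y₀‖⁻¹) • cjo T.symm c) y₀ - z) =
      c (‖y‖ • T (‖y₀‖⁻¹ • y₀)) - T z := by
    have e2 : cjo T.symm c y₀ = T.symm (c (T y₀)) := rfl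
    rw [map_sub, smul_apply, e2, map_smul, T.apply_symm_apply, map_smul,
      map_smul, map_smul, smul_smul]
  rw [← T.norm_map, e1]
  have e3 : c (‖y‖ • T (‖y₀‖⁻¹ • y₀)) - T z =
      c (‖y‖ • (T (‖y₀‖⁻¹ • y₀) - ‖y‖⁻¹ • y)) + (c y - z) - (T z - z) := by
    rw [smul_sub, smul_smul, mul_inv_cancel₀ hyn.ne', one_smul, map_sub]
    abel
  have e4 : ‖c (‖y‖ • (T (‖y₀‖⁻¹ • y₀) - ‖y‖⁻¹ • y))‖ ≤ ε / 3 := by
    refine (c.le_opNorm _).trans ?_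
    rw [norm_smul, norm_norm]
    rw [lt_div_iff₀ (by positivity)] at hT2
    have e5 : 0 ≤ ‖T (‖y₀‖⁻¹ • y₀) - ‖y‖⁻¹ • y‖ := norm_nonneg _
    nlinarith
  rw [e3]
  calc ‖c (‖y‖ • (T (‖y₀‖⁻¹ • y₀) - ‖y‖⁻¹ • y)) + (c y - z) - (T z - z)‖ ≤
      ‖c (‖y‖ • (T (‖y₀‖⁻¹ • y₀) - ‖y‖⁻¹ • y)) + (c y - z)‖ + ‖T z - z‖ := norm_sub_le _ _
    _ ≤ ‖c (‖y‖ • (T (‖y₀‖⁻¹ • y₀) - ‖y‖⁻¹ • y))‖ + ‖c y - z‖ + ‖T z - z‖ := by
        gcongr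
        exact norm_add_le _ _
    _ < ε := by linarith

end Pool.Agent.H65.BM
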