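import Pool.Agent.H65.BM.S2

set_option autoImplicit false

namespace Pool.Agent.H65.BM

open Pool.Agent.N314.OP Pool.Agent.N314.OP.Mod Finset

namespace GroAux

variable {E : Type} [NormedAddCommGroup E] [NormedSpace ℝ E]

/-- one step, pointwise -/
theorem point {ε s : ℝ} (hε : 0 < ε) (hs : 0 < s) (hus : ∀ x w : E, ‖x‖ = 1 → ‖w‖ ≤ s →
    ‖x + w‖ + ‖x - w‖ ≤ 2 + ε * ‖w‖) {D : ℝ} (hD : 0 ≤ D) {n : ℕ} {V d : E}
    (hV : ‖V‖ ≤ n * D) (hd : ‖d‖ ≤ D) :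
    (‖V + d‖ ^ 2 + ‖V - d‖ ^ 2) / 2 ≤ ‖V‖ ^ 2 + D ^ 2 * (ε * n + ε ^ 2 + 2 + 2 / s) := by
  obtain ⟨p, hp⟩ : ∃ p : ℝ, p = ‖V + d‖ := ⟨_, rfl⟩
  obtain ⟨q, hq⟩ : ∃ q : ℝ, q = ‖V - d‖ := ⟨_, rfl⟩
  rw [← hp, ← hq]
  have hp0 : 0 ≤ p := by rw [hp]; exact norm_nonneg _
  have hq0 : 0 ≤ q := by rw [hq]; exact norm_nonneg _
  have h1 : (p ^ 2 + q ^ 2) / 2 = ((p + q) / 2) ^ 2 + ((p - q) / 2) ^ 2 := by ring
  have h2 : |p - q| ≤ 2 * D := by
    have h3 : |p - q| ≤ ‖(V + d) - (V - d)‖ := by rw [hp, hq]; exact abs_norm_sub_norm_le _ _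
    have h4 : (V + d) - (V - d) = (2 : ℝ) • d := by module
    rw [h4, norm_smul, Real.norm_eq_abs, abs_of_pos (by norm_num : (0 : ℝ) < 2)] at h3
    linarith
  have h3 : ((p - q) / 2) ^ 2 ≤ D ^ 2 := by
    have h4 : |(p - q) / 2| ≤ |D| := by
      rw [abs_div, abs_of_nonneg hD, abs_of_pos (by norm_num : (0 : ℝ) < 2)]
      linarith
    exact sq_le_sq.2 h4
  have hnV := norm_nonneg V
  have hn0 : (0 : ℝ) ≤ n := by positivity
  have hs' : 0 < 2 / s := by positivity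
  rw [h1]
  have hDV : D * ‖V‖ ≤ n * D ^ 2 := by nlinarith
  by_cases hcase : V = 0 ∨ s * ‖V‖ < D
  · have hVs : ‖V‖ ≤ D / s := by
      rcases hcase with h | h
      · rw [h, norm_zero]; positivity
      · rw [le_div_iff₀ hs]; linarith
    have h4 : (p + q) / 2 ≤ ‖V‖ + D := by
      have e1 := norm_add_le V d
      have e2 := norm_sub_le V d
      rw [← hp] at e1
      rw [← hq] at e2
      linarith
    have h5 : ((p + q) / 2) ^ 2 ≤ (‖V‖ + D) ^ 2 := by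
      refine pow_le_pow_left₀ (by positivity) h4 2
    have h6 : 2 * (‖V‖ * D) ≤ D ^ 2 * (2 / s) := by
      have : ‖V‖ * D ≤ D / s * D := mul_le_mul_of_nonneg_right hVs hD
      calc 2 * (‖V‖ * D) ≤ 2 * (D / s * D) := by linarith
        _ = D ^ 2 * (2 / s) := by ring
    have h7 : 0 ≤ D ^ 2 * (ε * n) := by positivity
    have h8 : 0 ≤ D ^ 2 * ε ^ 2 := by positivity
    nlinarith
  · push Not at hcase
    obtain ⟨hV0, hVs⟩ := hcase
    have hVn : 0 < ‖V‖ := norm_pos_iff.2 hV0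
    have h4 := hus (‖V‖⁻¹ • V) (‖V‖⁻¹ • d)
      (by rw [norm_smul, norm_inv, norm_norm, inv_mul_cancel₀ hVn.ne'])
      (by
        rw [norm_smul, norm_inv, norm_norm, inv_mul_le_iff₀ hVn]
        linarith)
    rw [← smul_add, ← smul_sub, norm_smul, norm_smul, norm_smul, norm_inv, norm_norm, ← hp,
      ← hq] at h4
    have h5 : p + q ≤ 2 * ‖V‖ + ε * ‖d‖ := by
      have h6 := mul_le_mul_of_nonneg_left h4 hVn.le
      have e1 : ‖V‖ * (‖V‖⁻¹ * p + ‖V‖⁻¹ * q) = p + q := by field_simp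
      have e2 : ‖V‖ * (2 + ε * (‖V‖⁻¹ * ‖d‖)) = 2 * ‖V‖ + ε * ‖d‖ := by field_simp
      rw [e1, e2] at h6
      exact h6
    have h6 : (p + q) / 2 ≤ ‖V‖ + ε * D / 2 := by
      have : ε * ‖d‖ ≤ ε * D := mul_le_mul_of_nonneg_left hd hε.le
      linarith
    have h7 : ((p + q) / 2) ^ 2 ≤ (‖V‖ + ε * D / 2) ^ 2 :=
      pow_le_pow_left₀ (by positivity) h6 2
    have h8 : ε * (D * ‖V‖) ≤ ε * (n * D ^ 2) := mul_le_mul_of_nonneg_left hDV hε.le
    have h9 : 0 ≤ D ^ 2 * (2 / s) := by positivity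
    have h10 : 0 ≤ D ^ 2 * ε ^ 2 := by positivity
    nlinarith

/-- partial sums -/
noncomputable def V {n : ℕ} (d : Fin n → (Fin n → Bool) → E) (m : ℕ) (ε : Fin n → Bool) : E :=
  ∑ i ∈ univ.filter (fun i : Fin n => i.val < m), sg (ε i) • d i ε

theorem V_succ {n : ℕ} (d : Fin n → (Fin n → Bool) → E) (m : Fin n) (ε : Fin n → Bool) :
    V d (m.val + 1) ε = V d m.val ε + sg (ε m) • d m ε := by
  have h1 : univ.filter (fun i : Fin n => i.val < m.val + 1) =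
      insert m (univ.filter (fun i : Fin n => i.val < m.val)) := by
    ext i
    simp only [mem_filter, mem_univ, true_and, mem_insert]
    constructor
    · intro h
      rcases Nat.lt_succ_iff_lt_or_eq.1 h with h | h
      · exact Or.inr h
      · exact Or.inl (Fin.ext h)
    · rintro (rfl | h)
      · omega
      · omega
  rw [V, h1, sum_insert (by simp), add_comm]
  rfl

/-- flip of the coordinate `m` -/
def fl {n : ℕ} (m : Fin n) (ε : Fin n → Bool) : Fin n → Bool := fun j => xor (ε j) (decide (j = m))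

theorem fl_ne {n : ℕ} {m j : Fin n} (ε : Fin n → Bool) (h : j ≠ m) : fl m ε j = ε j := by
  simp [fl, h]

theorem fl_eq {n : ℕ} {m : Fin n} (ε : Fin n → Bool) : fl m ε m = !(ε m) := by
  simp [fl]

theorem d_fl {n : ℕ} {d : Fin n → (Fin n → Bool) → E} (hd : Pred d) {m i : Fin n} (hi : i ≤ m)
    (ε : Fin n → Bool) : d i (fl m ε) = d i ε :=
  hd i _ _ fun l hl => fl_ne ε (ne_of_lt (lt_of_lt_of_le hl hi))

theorem V_fl {n : ℕ} {d : Fin n → (Fin n → Bool) → E} (hd : Pred d) {m : Fin n}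
    (ε : Fin n → Bool) : V d m.val (fl m ε) = V d m.val ε := by
  unfold V
  refine sum_congr rfl fun i hi => ?_
  rw [mem_filter] at hi
  have him : i < m := hi.2
  rw [fl_ne ε him.ne, d_fl hd him.le]

theorem V_norm {n : ℕ} {d : Fin n → (Fin n → Bool) → E} {D : ℝ} (hD : 0 ≤ D)
    (hdD : ∀ i ε, ‖d i ε‖ ≤ D) (m : ℕ) (ε : Fin n → Bool) : ‖V d m ε‖ ≤ n * D := by
  unfold V
  refine (norm_sum_le _ _).trans ?_
  have h1 : ∀ i ∈ univ.filter (fun i : Fin n => i.val < m), ‖sg (ε i) • d i ε‖ ≤ D := by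
    intro i _
    rw [norm_smul, Real.norm_eq_abs, abs_sg, one_mul]
    exact hdD i ε
  refine (sum_le_sum h1).trans ?_
  rw [sum_const, nsmul_eq_mul]
  have h2 : ((univ.filter (fun i : Fin n => i.val < m)).card : ℝ) ≤ n := by
    have h3 : (univ.filter (fun i : Fin n => i.val < m)).card ≤ n := by
      refine (card_le_univ _).trans ?_
      rw [Fintype.card_fin]
    exact_mod_cast h3
  exact mul_le_mul_of_nonneg_right h2 hD

theorem step {ε₀ s : ℝ} (hε : 0 < ε₀) (hs : 0 < s) (hus : ∀ x w : E, ‖x‖ = 1 → ‖w‖ ≤ s →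
    ‖x + w‖ + ‖x - w‖ ≤ 2 + ε₀ * ‖w‖) {D : ℝ} (hD : 0 ≤ D) {n : ℕ}
    {d : Fin n → (Fin n → Bool) → E} (hd : Pred d) (hdD : ∀ i ε, ‖d i ε‖ ≤ D) (m : Fin n) :
    av (fun ε => ‖V d (m.val + 1) ε‖ ^ 2) ≤
      av (fun ε => ‖V d m.val ε‖ ^ 2) + D ^ 2 * (ε₀ * n + ε₀ ^ 2 + 2 + 2 / s) := by
  have h1 := av_xor (fun j => decide (j = m)) (fun ε : Fin n → Bool => ‖V d (m.val + 1) ε‖ ^ 2)
  have h2 : av (fun ε : Fin n → Bool => ‖V d (m.val + 1) (fl m ε)‖ ^ 2) =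
      av (fun ε => ‖V d (m.val + 1) ε‖ ^ 2) := h1
  have h3 : av (fun ε : Fin n → Bool => ‖V d (m.val + 1) ε‖ ^ 2) =
      av (fun ε => (‖V d (m.val + 1) ε‖ ^ 2 + ‖V d (m.val + 1) (fl m ε)‖ ^ 2) / 2) := by
    have h4 : (fun ε : Fin n → Bool =>
        (‖V d (m.val + 1) ε‖ ^ 2 + ‖V d (m.val + 1) (fl m ε)‖ ^ 2) / 2) =
        fun ε => 1 / 2 * ‖V d (m.val + 1) ε‖ ^ 2 + 1 / 2 * ‖V d (m.val + 1) (fl m ε)‖ ^ 2 := by
      funext ε; ring
    rw [h4, av_add, av_mul_left, av_mul_left, h2]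
    ring
  rw [h3]
  have h5 : av (fun ε : Fin n → Bool => ‖V d m.val ε‖ ^ 2 +
      D ^ 2 * (ε₀ * n + ε₀ ^ 2 + 2 + 2 / s)) =
      av (fun ε => ‖V d m.val ε‖ ^ 2) + D ^ 2 * (ε₀ * n + ε₀ ^ 2 + 2 + 2 / s) := by
    rw [av_add, av_const]
  rw [← h5]
  refine av_mono fun ε => ?_
  rw [V_succ, V_succ, V_fl hd, d_fl hd le_rfl, fl_eq, sg_not, neg_smul, ← sub_eq_add_neg]
  refine point hε hs hus hD (V_norm hD hdD _ ε) ?_
  rw [norm_smul, Real.norm_eq_abs, abs_sg, one_mul]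
  exact hdD m ε

end GroAux

theorem gro : S_GRO := by
  intro E _ _ hUS b hb
  obtain ⟨ε₀, hε₀, hε₀1, hε₀b⟩ : ∃ ε₀ : ℝ, 0 < ε₀ ∧ ε₀ ≤ 1 ∧ ε₀ ≤ b ^ 2 / 2 :=
    ⟨min 1 (b ^ 2 / 2), lt_min one_pos (by positivity), min_le_left _ _, min_le_right _ _⟩
  obtain ⟨s, hs, hus⟩ := hUS ε₀ hε₀
  obtain ⟨n, hn⟩ := exists_nat_ge (max 2 ((6 + 4 / s) / b ^ 2))
  have hn2 : (2 : ℝ) ≤ n := (le_max_left _ _).trans hn
  have hnb : (6 + 4 / s) / b ^ 2 ≤ n := (le_max_right _ _).trans hn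
  rw [div_le_iff₀ (by positivity)] at hnb
  refine ⟨n, by exact_mod_cast hn2, fun d D hD hd hdD => ?_⟩
  have hind : ∀ m : ℕ, m ≤ n → av (fun ε : Fin n → Bool => ‖GroAux.V d m ε‖ ^ 2) ≤
      m * (D ^ 2 * (ε₀ * n + ε₀ ^ 2 + 2 + 2 / s)) := by
    intro m
    induction m with
    | zero =>
      intro _
      have h1 : (fun ε : Fin n → Bool => ‖GroAux.V d 0 ε‖ ^ 2) = fun _ => 0 := by
        funext ε
        simp [GroAux.V]
      rw [h1, av_const]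
      simp
    | succ m ih =>
      intro hm
      have h1 := GroAux.step hε₀ hs hus hD hd hdD ⟨m, by omega⟩
      have h2 := ih (by omega)
      push_cast
      simp only at h1
      linarith
  have h1 := hind n le_rfl
  have h2 : (fun ε : Fin n → Bool => ‖GroAux.V d n ε‖ ^ 2) =
      fun ε : Fin n → Bool => ‖∑ i, sg (ε i) • d i ε‖ ^ 2 := by
    funext ε
    unfold GroAux.V
    rw [Finset.filter_true_of_mem fun i _ => i.2]
  rw [h2] at h1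
  refine h1.trans ?_
  have h3 : ε₀ * n + ε₀ ^ 2 + 2 + 2 / s ≤ b ^ 2 * n := by
    have e1 : ε₀ * n ≤ b ^ 2 / 2 * n := by gcongr
    have e2 : ε₀ ^ 2 ≤ 1 := by nlinarith
    have e3 : 2 * (2 / s) = 4 / s := by ring
    nlinarith
  calc (n : ℝ) * (D ^ 2 * (ε₀ * n + ε₀ ^ 2 + 2 + 2 / s)) ≤ n * (D ^ 2 * (b ^ 2 * n)) := by
        gcongr
    _ = (b * n * D) ^ 2 := by ring

end Pool.Agent.H65.BM
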