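import Pool.Agent.H65.BM.S4

/-!
# Stub BM4-IRR2: the conjugates of `Q` have no common invariant subspace

Adapted from `Pool/Agent/H80/MR/IRR.lean` (and `UP.lean`, `CHAIN.lean`) by helper80: here `Q` is an
arbitrary idempotent of finite rank and the isometries run over a group `G` which is transitive on the
unit sphere.
-/

set_option autoImplicit false

namespace Pool.Agent.H65.BM.Irr68

variable {E : Type} [NormedAddCommGroup E] [NormedSpace ℝ E]

/-- the range -/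
def rg (F : E →L[ℝ] E) : Submodule ℝ E := LinearMap.range (F : E →ₗ[ℝ] E)

/-- the image of the range under an isometry -/
def kr (F : E →L[ℝ] E) (g : E ≃ₗᵢ[ℝ] E) : Submodule ℝ E :=
  (rg F).map (g.toLinearEquiv : E →ₗ[ℝ] E)

/-- the conjugate `g F g⁻¹` -/
noncomputable def cj (F : E →L[ℝ] E) (g : E ≃ₗᵢ[ℝ] E) : E →ₗ[ℝ] E :=
  (g.toLinearEquiv : E →ₗ[ℝ] E) ∘ₗ (F : E →ₗ[ℝ] E) ∘ₗ (g.symm.toLinearEquiv : E →ₗ[ℝ] E)

theorem cj_apply (F : E →L[ℝ] E) (g : E ≃ₗᵢ[ℝ] E) (x : E) : cj F g x = g (F (g.symm x)) := rfl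

theorem mem_rg {F : E →L[ℝ] E} {k : E} : k ∈ rg F ↔ ∃ x, F x = k := Iff.rfl

theorem mem_kr {F : E →L[ℝ] E} {g : E ≃ₗᵢ[ℝ] E} {k : E} : k ∈ kr F g ↔ ∃ k₀ ∈ rg F, g k₀ = k :=
  Iff.rfl

theorem cj_mem (F : E →L[ℝ] E) (g : E ≃ₗᵢ[ℝ] E) (x : E) : cj F g x ∈ kr F g :=
  mem_kr.2 ⟨F (g.symm x), mem_rg.2 ⟨_, rfl⟩, rfl⟩

theorem cj_norm_le (F : E →L[ℝ] E) (g : E ≃ₗᵢ[ℝ] E) (x : E) :
    ‖cj F g x‖ ≤ ‖F‖ * ‖x‖ := by
  rw [cj_apply, g.norm_map]
  refine (F.le_opNorm _).trans ?_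
  rw [g.symm.norm_map]

theorem cj_fix {F : E →L[ℝ] E} (hF : ∀ x, F (F x) = F x) {g : E ≃ₗᵢ[ℝ] E} {k : E}
    (hk : k ∈ kr F g) : cj F g k = k := by
  obtain ⟨k₀, hk₀, rfl⟩ := mem_kr.1 hk
  obtain ⟨x, rfl⟩ := mem_rg.1 hk₀
  rw [cj_apply, g.symm_apply_apply, hF]

instance kr_fin {F : E →L[ℝ] E} [FiniteDimensional ℝ (rg F)] (g : E ≃ₗᵢ[ℝ] E) :
    FiniteDimensional ℝ (kr F g) := by
  unfold kr
  infer_instance

/-- normalisation is Lipschitz -/
theorem normalize_lip {v w : E} (hv : v ≠ 0) (hw : w ≠ 0) :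
    ‖‖v‖⁻¹ • v - ‖w‖⁻¹ • w‖ ≤ 2 * ‖v - w‖ / ‖v‖ := by
  have hv' : 0 < ‖v‖ := norm_pos_iff.2 hv
  have hw' : 0 < ‖w‖ := norm_pos_iff.2 hw
  have h1 : ‖v‖⁻¹ • v - ‖w‖⁻¹ • w = ‖v‖⁻¹ • ((v - w) + (‖w‖ - ‖v‖) • (‖w‖⁻¹ • w)) := by
    have : (‖w‖ - ‖v‖) • (‖w‖⁻¹ • w) = w - ‖v‖ • (‖w‖⁻¹ • w) := by
      rw [sub_smul, smul_smul, mul_inv_cancel₀ hw'.ne', one_smul]
    rw [this]
    have h2 : v - w + (w - ‖v‖ • (‖w‖⁻¹ • w)) = v - ‖v‖ • (‖w‖⁻¹ • w) := by abel
    rw [h2, smul_sub, smul_smul ‖v‖⁻¹ ‖v‖, inv_mul_cancel₀ hv'.ne', one_smul]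
  rw [h1, norm_smul, norm_inv, norm_norm, div_eq_inv_mul]
  refine mul_le_mul_of_nonneg_left ?_ (by positivity)
  refine (norm_add_le _ _).trans ?_
  have h3 : ‖(‖w‖ - ‖v‖) • (‖w‖⁻¹ • w)‖ ≤ ‖v - w‖ := by
    rw [norm_smul, norm_smul, norm_inv, norm_norm, inv_mul_cancel₀ hw'.ne', mul_one,
      Real.norm_eq_abs, abs_sub_comm]
    exact abs_norm_sub_norm_le v w
  linarith

/-- the denominator -/
theorem denom {x y : E} (hx : ‖x‖ = 1) (hy : ‖y‖ = 1) (hxy : 1 ≤ ‖x + y‖) {s : ℝ} (h0 : 0 ≤ s)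
    (h1 : s ≤ 1) : 1 / 4 ≤ ‖(1 - s) • x + s • y‖ := by
  have a1 : 1 - 2 * s ≤ ‖(1 - s) • x + s • y‖ := by
    have h2 : ‖(1 - s) • x‖ ≤ ‖(1 - s) • x + s • y‖ + ‖s • y‖ := by
      have : (1 - s) • x = ((1 - s) • x + s • y) - s • y := by abel
      conv_lhs => rw [this]
      exact norm_sub_le _ _
    rw [norm_smul, norm_smul, hx, hy, Real.norm_eq_abs, Real.norm_eq_abs, abs_of_nonneg h0,
      abs_of_nonneg (by linarith : (0 : ℝ) ≤ 1 - s)] at h2
    linarith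
  have a2 : 2 * s - 1 ≤ ‖(1 - s) • x + s • y‖ := by
    have h2 : ‖s • y‖ ≤ ‖(1 - s) • x + s • y‖ + ‖(1 - s) • x‖ := by
      have : s • y = ((1 - s) • x + s • y) - (1 - s) • x := by abel
      conv_lhs => rw [this]
      exact norm_sub_le _ _
    rw [norm_smul, norm_smul, hx, hy, Real.norm_eq_abs, Real.norm_eq_abs, abs_of_nonneg h0,
      abs_of_nonneg (by linarith : (0 : ℝ) ≤ 1 - s)] at h2
    linarith
  have a3 : 1 / 2 - |1 - 2 * s| ≤ ‖(1 - s) • x + s • y‖ := by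
    have h2 : (1 / 2 : ℝ) • (x + y) = ((1 - s) • x + s • y) + (s - 1 / 2) • (x - y) := by module
    have h3 : ‖(1 / 2 : ℝ) • (x + y)‖ ≤ ‖(1 - s) • x + s • y‖ + ‖(s - 1 / 2) • (x - y)‖ := by
      rw [h2]; exact norm_add_le _ _
    rw [norm_smul, norm_smul, Real.norm_eq_abs, Real.norm_eq_abs,
      abs_of_nonneg (by norm_num : (0 : ℝ) ≤ 1 / 2)] at h3
    have h4 : ‖x - y‖ ≤ 2 := by
      refine (norm_sub_le _ _).trans ?_
      rw [hx, hy]; norm_num
    have h5 : |s - 1 / 2| * ‖x - y‖ ≤ |s - 1 / 2| * 2 :=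
      mul_le_mul_of_nonneg_left h4 (abs_nonneg _)
    have h6 : |s - 1 / 2| * 2 = |1 - 2 * s| := by
      rw [abs_sub_comm s (1 / 2)]
      have : (1 : ℝ) - 2 * s = (1 / 2 - s) * 2 := by ring
      rw [this, abs_mul, abs_of_pos (by norm_num : (0 : ℝ) < 2)]
    linarith
  rcases abs_cases (1 - 2 * s) with ⟨h, _⟩ | ⟨h, _⟩ <;> rw [h] at a3 <;> linarith

/-- invariant subspaces -/
def Inv (G : Set (E ≃ₗᵢ[ℝ] E)) (F : E →L[ℝ] E) (A : Submodule ℝ E) : Prop :=
  ∀ g ∈ G, ∀ u ∈ A, cj F g u ∈ A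

/-- the smallest invariant subspace containing `u` -/
def gen (G : Set (E ≃ₗᵢ[ℝ] E)) (F : E →L[ℝ] E) (u : E) : Submodule ℝ E :=
  sInf {A | Inv G F A ∧ u ∈ A}

variable {G : Set (E ≃ₗᵢ[ℝ] E)}

theorem gen_le {F : E →L[ℝ] E} {A : Submodule ℝ E} {u : E} (hA : Inv G F A) (hu : u ∈ A) :
    gen G F u ≤ A := sInf_le ⟨hA, hu⟩

theorem mem_gen (F : E →L[ℝ] E) (u : E) : u ∈ gen G F u := by
  unfold gen
  rw [Submodule.mem_sInf]
  exact fun A hA => hA.2

theorem inv_gen (F : E →L[ℝ] E) (u : E) : Inv G F (gen G F u) := by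
  intro g hg v hv
  unfold gen at hv ⊢
  rw [Submodule.mem_sInf] at hv ⊢
  exact fun A hA => hA.1 g hg v (hv A hA)

theorem gen_smul (F : E →L[ℝ] E) {c : ℝ} (hc : c ≠ 0) (u : E) :
    gen G F (c • u) = gen G F u := by
  refine le_antisymm (gen_le (inv_gen F u) (Submodule.smul_mem _ _ (mem_gen F u)))
    (gen_le (inv_gen F _) ?_)
  have h := Submodule.smul_mem (gen G F (c • u)) c⁻¹ (mem_gen F (c • u))
  rwa [smul_smul, inv_mul_cancel₀ hc, one_smul] at h

theorem gen_neg (F : E →L[ℝ] E) (u : E) : gen G F (-u) = gen G F u := by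
  rw [← gen_smul F (c := -1) (by norm_num) u, neg_one_smul]

theorem inv_map (htrans : ∀ g ∈ G, ∀ h ∈ G, g.trans h ∈ G) (hsymm : ∀ g ∈ G, g.symm ∈ G)
    {F : E →L[ℝ] E} {A : Submodule ℝ E} (hA : Inv G F A) {h : E ≃ₗᵢ[ℝ] E} (hh : h ∈ G) :
    Inv G F (A.map (h.toLinearEquiv : E →ₗ[ℝ] E)) := by
  rintro g hg _ ⟨a, ha, rfl⟩
  refine ⟨cj F (g.trans h.symm) a, hA _ (htrans g hg _ (hsymm h hh)) a ha, ?_⟩
  show h (h.symm (g (F (g.symm (h.symm.symm a))))) = g (F (g.symm (h a)))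
  rw [h.apply_symm_apply, h.symm_symm]

theorem gen_map_le (htrans : ∀ g ∈ G, ∀ h ∈ G, g.trans h ∈ G) (hsymm : ∀ g ∈ G, g.symm ∈ G)
    (F : E →L[ℝ] E) {h : E ≃ₗᵢ[ℝ] E} (hh : h ∈ G) (u : E) :
    gen G F (h u) ≤ (gen G F u).map (h.toLinearEquiv : E →ₗ[ℝ] E) :=
  gen_le (inv_map htrans hsymm (inv_gen F u) hh) ⟨u, mem_gen F u, rfl⟩

theorem gen_map (htrans : ∀ g ∈ G, ∀ h ∈ G, g.trans h ∈ G) (hsymm : ∀ g ∈ G, g.symm ∈ G)
    (F : E →L[ℝ] E) {h : E ≃ₗᵢ[ℝ] E} (hh : h ∈ G) (u : E) :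
    gen G F (h u) = (gen G F u).map (h.toLinearEquiv : E →ₗ[ℝ] E) := by
  refine le_antisymm (gen_map_le htrans hsymm F hh u) ?_
  rintro _ ⟨a, ha, rfl⟩
  have h1 := gen_map_le htrans hsymm F (hsymm h hh) (h u)
  rw [h.symm_apply_apply] at h1
  obtain ⟨b, hb, hb2⟩ := h1 ha
  have h2 : h a = b := by
    rw [← hb2]
    show h (h.symm b) = b
    exact h.apply_symm_apply b
  show h a ∈ gen G F (h u)
  rw [h2]
  exact hb

theorem kr_trans (F : E →L[ℝ] E) (g h : E ≃ₗᵢ[ℝ] E) :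
    kr F (g.trans h) = (kr F g).map (h.toLinearEquiv : E →ₗ[ℝ] E) := by
  unfold kr
  rw [← Submodule.map_comp]
  rfl

end Pool.Agent.H65.BM.Irr68

namespace Pool.Agent.H65.BM

open Irr68

theorem irr2 : S_IRR2 := by
  intro E _ _ hinf G _ htrans hsymm htr F hF hF0 hfin E₀ hE₀ hinv
  have hfin : FiniteDimensional ℝ (rg F) := hfin
  obtain ⟨C, hCdef⟩ : ∃ C, C = ‖F‖ := ⟨_, rfl⟩
  have hC : 0 ≤ C := by rw [hCdef]; exact norm_nonneg _
  have hcn : ∀ (g : E ≃ₗᵢ[ℝ] E) (x : E), ‖cj F g x‖ ≤ C * ‖x‖ := by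
    intro g x
    rw [hCdef]
    exact cj_norm_le F g x
  obtain ⟨x₁, hx₁, hn₁⟩ : ∃ x ∈ rg F, ‖x‖ = 1 := by
    obtain ⟨v, hv⟩ : ∃ v, F v ≠ 0 := by
      by_contra h
      push Not at h
      exact hF0 (ContinuousLinearMap.ext fun x => by rw [h x]; rfl)
    have hn : ‖F v‖ ≠ 0 := norm_ne_zero_iff.2 hv
    refine ⟨‖F v‖⁻¹ • F v, ?_, ?_⟩
    · exact Submodule.smul_mem _ _ ⟨v, rfl⟩
    · rw [norm_smul, norm_inv, norm_norm, inv_mul_cancel₀ hn]
  have exists_kr : ∀ u : E, ‖u‖ = 1 → ∃ g ∈ G, u ∈ kr F g := by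
    intro u hu
    obtain ⟨T, hTG, hT⟩ := htr x₁ u hn₁ hu
    exact ⟨T, hTG, x₁, hx₁, hT⟩
  -- the minimal dimension
  classical
  let P : ℕ → Prop := fun j => ∃ (u : E) (g : E ≃ₗᵢ[ℝ] E), g ∈ G ∧ ‖u‖ = 1 ∧ u ∈ kr F g ∧
    Module.finrank ℝ (gen G F u ⊓ kr F g : Submodule ℝ E) = j
  have hP : ∃ j, P j := by
    obtain ⟨g, hgG, hg⟩ := exists_kr x₁ hn₁
    exact ⟨_, x₁, g, hgG, hn₁, hg, rfl⟩
  obtain ⟨j, hj⟩ : ∃ j, j = Nat.find hP := ⟨_, rfl⟩
  have hmin : ∀ (u : E) (g : E ≃ₗᵢ[ℝ] E), g ∈ G → ‖u‖ = 1 → u ∈ kr F g →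
      j ≤ Module.finrank ℝ (gen G F u ⊓ kr F g : Submodule ℝ E) := by
    intro u g hgG hu hg
    rw [hj]
    exact Nat.find_min' hP ⟨u, g, hgG, hu, hg, rfl⟩
  have hatt : ∀ u : E, ‖u‖ = 1 → ∃ g ∈ G, u ∈ kr F g ∧
      Module.finrank ℝ (gen G F u ⊓ kr F g : Submodule ℝ E) = j := by
    intro u hu
    obtain ⟨u₀, g₀, hgG₀, hu₀, hg₀, h0⟩ := Nat.find_spec hP
    obtain ⟨T, hTG, hT⟩ := htr u₀ u hu₀ hu
    refine ⟨g₀.trans T, htrans _ hgG₀ _ hTG, ?_, ?_⟩
    · rw [kr_trans]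
      exact ⟨u₀, hg₀, hT⟩
    · rw [← hT, gen_map htrans hsymm F hTG, kr_trans,
        ← Submodule.map_inf _ T.toLinearEquiv.injective]
      rw [hj, ← h0]
      exact LinearEquiv.finrank_map_eq T.toLinearEquiv _
  -- (1)
  have s1 : ∀ u w : E, ‖u‖ = 1 → w ∈ gen G F u → ‖w - u‖ < 1 / (2 * C + 2) →
      gen G F w = gen G F u := by
    intro u w hu hw hwu
    obtain ⟨g, hgG, hg, hgj⟩ := hatt u hu
    have hw1 : cj F g w ∈ gen G F w := inv_gen F w g hgG w (mem_gen F w)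
    have hw2 : cj F g w ∈ kr F g := cj_mem F g w
    have hle : gen G F w ≤ gen G F u := gen_le (inv_gen F u) hw
    have hle' : gen G F (cj F g w) ≤ gen G F w := gen_le (inv_gen F w) hw1
    have hne : cj F g w ≠ 0 := by
      intro h0
      have h1 := hcn g (w - u)
      rw [map_sub, h0, cj_fix hF hg, zero_sub, norm_neg, hu] at h1
      rw [lt_div_iff₀ (by linarith)] at hwu
      nlinarith [norm_nonneg (w - u)]
    have hnn : ‖cj F g w‖ ≠ 0 := norm_ne_zero_iff.2 hne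
    have h2 : gen G F (‖cj F g w‖⁻¹ • cj F g w) = gen G F (cj F g w) :=
      gen_smul F (inv_ne_zero hnn) _
    have h3 := hmin (‖cj F g w‖⁻¹ • cj F g w) g hgG
      (by rw [norm_smul, norm_inv, norm_norm, inv_mul_cancel₀ hnn])
      (Submodule.smul_mem _ _ hw2)
    rw [h2] at h3
    have h4 : (gen G F (cj F g w) ⊓ kr F g : Submodule ℝ E) ≤ gen G F u ⊓ kr F g :=
      inf_le_inf_right _ (hle'.trans hle)
    have h5 : (gen G F (cj F g w) ⊓ kr F g : Submodule ℝ E) = gen G F u ⊓ kr F g :=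
      Submodule.eq_of_le_of_finrank_le h4 (by rw [hgj]; exact h3)
    have h6 : u ∈ (gen G F (cj F g w) ⊓ kr F g : Submodule ℝ E) := by
      rw [h5]
      exact ⟨mem_gen F u, hg⟩
    exact le_antisymm hle ((gen_le (inv_gen F _) h6.1).trans hle')
  -- (2)
  obtain ⟨n, hn⟩ : ∃ n : ℕ, 32 * (C + 1) < n := exists_nat_gt _
  have hn0 : (0 : ℝ) < n := by nlinarith
  have hnne : (n : ℝ) ≠ 0 := hn0.ne'
  have s2 : ∀ u w : E, ‖u‖ = 1 → ‖w‖ = 1 → w ∈ gen G F u → 1 ≤ ‖u + w‖ →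
      gen G F w = gen G F u := by
    intro u w hu hw hwu huw
    let z : ℕ → E := fun i => (1 - (i : ℝ) / n) • u + ((i : ℝ) / n) • w
    have hz : ∀ i : ℕ, i ≤ n → 1 / 4 ≤ ‖z i‖ := by
      intro i hi
      have hi' : (i : ℝ) ≤ n := by exact_mod_cast hi
      exact denom hu hw huw (by positivity) (by rw [div_le_one hn0]; exact hi')
    have hz0 : ∀ i : ℕ, i ≤ n → z i ≠ 0 := by
      intro i hi h0
      have := hz i hi
      rw [h0, norm_zero] at this
      norm_num at this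
    have hzg : ∀ i : ℕ, z i ∈ gen G F u := fun i =>
      Submodule.add_mem _ (Submodule.smul_mem _ _ (mem_gen F u)) (Submodule.smul_mem _ _ hwu)
    have hstep : ∀ i : ℕ, i ≤ n → gen G F (z i) = gen G F u := by
      intro i
      induction i with
      | zero =>
        intro _
        have : z 0 = u := by simp [z]
        rw [this]
      | succ i ih =>
        intro hi
        have ih' := ih (by omega)
        have a1 : z i ≠ 0 := hz0 i (by omega)
        have a2 : z (i + 1) ≠ 0 := hz0 (i + 1) hi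
        have b1 : ‖z i‖ ≠ 0 := norm_ne_zero_iff.2 a1
        have b2 : ‖z (i + 1)‖ ≠ 0 := norm_ne_zero_iff.2 a2
        have c1 := s1 (‖z i‖⁻¹ • z i) (‖z (i + 1)‖⁻¹ • z (i + 1))
          (by rw [norm_smul, norm_inv, norm_norm, inv_mul_cancel₀ b1])
          (by
            rw [gen_smul F (inv_ne_zero b1), ih']
            exact Submodule.smul_mem _ _ (hzg _))
          (by
            refine (normalize_lip a2 a1).trans_lt ?_
            have d1 : z (i + 1) - z i = (1 / n : ℝ) • (w - u) := by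
              have e1 : (((i + 1 : ℕ) : ℝ) / n) = (i : ℝ) / n + 1 / n := by
                push_cast
                ring
              simp only [z]
              rw [e1]
              module
            have d2 : ‖z (i + 1) - z i‖ ≤ 2 / n := by
              rw [d1, norm_smul, Real.norm_eq_abs, abs_of_pos (by positivity)]
              have h1 := norm_sub_le w u
              rw [hw, hu] at h1
              calc 1 / (n : ℝ) * ‖w - u‖ ≤ 1 / (n : ℝ) * 2 := by gcongr; linarith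
                _ = 2 / n := by ring
            have d3 := hz (i + 1) hi
            have d4 : 2 / (n : ℝ) * (16 * (C + 1)) < 1 := by
              rw [div_mul_eq_mul_div, div_lt_one hn0]
              linarith
            rw [div_lt_div_iff₀ (by linarith) (by linarith)]
            have d5 : ‖z (i + 1) - z i‖ * (16 * (C + 1)) ≤ 2 / (n : ℝ) * (16 * (C + 1)) := by
              gcongr
            nlinarith)
        rw [gen_smul F (inv_ne_zero b1), gen_smul F (inv_ne_zero b2), ih'] at c1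
        exact c1
    have h33 : z n = w := by
      simp only [z]
      rw [div_self hnne, sub_self, zero_smul, zero_add, one_smul]
    rw [← h33]
    exact hstep n le_rfl
  have s3 : ∀ u w : E, u ≠ 0 → w ≠ 0 → w ∈ gen G F u → gen G F w = gen G F u := by
    intro u w hu hw hwu
    have b1 : ‖u‖ ≠ 0 := norm_ne_zero_iff.2 hu
    have b2 : ‖w‖ ≠ 0 := norm_ne_zero_iff.2 hw
    obtain ⟨u', hu'⟩ : ∃ u', u' = ‖u‖⁻¹ • u := ⟨_, rfl⟩
    obtain ⟨w', hw'⟩ : ∃ w', w' = ‖w‖⁻¹ • w := ⟨_, rfl⟩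
    have nu : ‖u'‖ = 1 := by rw [hu', norm_smul, norm_inv, norm_norm, inv_mul_cancel₀ b1]
    have nw : ‖w'‖ = 1 := by rw [hw', norm_smul, norm_inv, norm_norm, inv_mul_cancel₀ b2]
    have gu : gen G F u' = gen G F u := by rw [hu', gen_smul F (inv_ne_zero b1)]
    have gw : gen G F w' = gen G F w := by rw [hw', gen_smul F (inv_ne_zero b2)]
    have hmem : w' ∈ gen G F u' := by
      rw [gu, hw']
      exact Submodule.smul_mem _ _ hwu
    rw [← gu, ← gw]
    rcases le_or_gt 1 ‖u' + w'‖ with h | h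
    · exact s2 u' w' nu nw hmem h
    · have h2 : 1 ≤ ‖u' + -w'‖ := by
        have h3 : (2 : ℝ) • u' = (u' + w') + (u' + -w') := by module
        have h4 : ‖(2 : ℝ) • u'‖ ≤ ‖u' + w'‖ + ‖u' + -w'‖ := by rw [h3]; exact norm_add_le _ _
        rw [norm_smul, nu, Real.norm_eq_abs, abs_of_pos (by norm_num : (0 : ℝ) < 2)] at h4
        linarith
      have h5 := s2 u' (-w') nu (by rw [norm_neg, nw]) (Submodule.neg_mem _ hmem) h2
      rwa [gen_neg] at h5
  -- (3)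
  have s4 : ∀ v : E, ‖v‖ = 1 → gen G F v = ⊤ := by
    intro v hv
    have hv0 : v ≠ 0 := by
      intro h
      rw [h, norm_zero] at hv
      norm_num at hv
    obtain ⟨g, hgG, hg⟩ := exists_kr v hv
    have hcov : ∀ x : E, x ∈ gen G F v ∨ x ∈ kr F g := by
      intro x
      by_cases hx : x ∈ gen G F v
      · exact Or.inl hx
      · right
        have hx0 : x ≠ 0 := fun h => hx (h ▸ Submodule.zero_mem _)
        have hvx : v ∉ gen G F x := by
          intro h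
          rw [s3 x v hx0 hv0 h] at hx
          exact hx (mem_gen F x)
        have hw0 : v + x ≠ 0 := by
          intro h
          apply hx
          have : x = -v := by
            rw [eq_neg_iff_add_eq_zero, add_comm]
            exact h
          rw [this]
          exact Submodule.neg_mem _ (mem_gen F v)
        have hzero : x - cj F g x = 0 := by
          by_contra hne
          have h1 : x - cj F g x ∈ gen G F x :=
            Submodule.sub_mem _ (mem_gen F x) (inv_gen F x g hgG x (mem_gen F x))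
          have h2 : x - cj F g x ∈ gen G F (v + x) := by
            have h3 : x - cj F g x = (v + x) - cj F g (v + x) := by
              rw [map_add, cj_fix hF hg]
              abel
            rw [h3]
            exact Submodule.sub_mem _ (mem_gen F _) (inv_gen F _ g hgG _ (mem_gen F _))
          have h4 := s3 x _ hx0 hne h1
          have h5 := s3 (v + x) _ hw0 hne h2
          have h6 : v + x ∈ gen G F x := by
            rw [← h4, h5]
            exact mem_gen F _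
          apply hvx
          have h7 := Submodule.sub_mem _ h6 (mem_gen F x)
          rwa [add_sub_cancel_right] at h7
        rw [sub_eq_zero] at hzero
        rw [hzero]
        exact cj_mem F g x
    by_contra hne
    obtain ⟨a, ha⟩ : ∃ a, a ∉ gen G F v := by
      by_contra h
      push Not at h
      exact hne (eq_top_iff.2 fun x _ => h x)
    have hk : kr F g ≠ ⊤ := by
      intro h
      apply hinf
      have h1 : FiniteDimensional ℝ (kr F g) := kr_fin g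
      rw [h] at h1
      exact Module.Finite.equiv (Submodule.topEquiv : (⊤ : Submodule ℝ E) ≃ₗ[ℝ] E)
    obtain ⟨b, hb⟩ : ∃ b, b ∉ kr F g := by
      by_contra h
      push Not at h
      exact hk (eq_top_iff.2 fun x _ => h x)
    have ha' : a ∈ kr F g := (hcov a).resolve_left ha
    have hb' : b ∈ gen G F v := (hcov b).resolve_right hb
    rcases hcov (a + b) with h | h
    · apply ha
      have := Submodule.sub_mem _ h hb'
      rwa [add_sub_cancel_right] at this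
    · apply hb
      have := Submodule.sub_mem _ h ha'
      rwa [add_sub_cancel_left] at this
  obtain ⟨v, hv, hv0⟩ := Submodule.exists_mem_ne_zero_of_ne_bot hE₀
  have b1 : ‖v‖ ≠ 0 := norm_ne_zero_iff.2 hv0
  have h1 := s4 (‖v‖⁻¹ • v) (by rw [norm_smul, norm_inv, norm_norm, inv_mul_cancel₀ b1])
  rw [gen_smul F (inv_ne_zero b1)] at h1
  have h2 : gen G F v ≤ E₀ := gen_le (fun g hg u hu => hinv g hg u hu) hv
  rw [h1] at h2
  exact top_le_iff.1 h2

end Pool.Agent.H65.BM
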