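import Pool.Agent.H65.BM.S4

/-!
# Stub BM4-ISO: nearly maximal positions, in which signed sums of unit vectors are comparable
-/

set_option autoImplicit false

namespace Pool.Agent.H65.BM.Iso68

open Pool.Agent.H65.BM

variable {E : Type} [NormedAddCommGroup E] [NormedSpace ℝ E]

/-- Minkowski's inequality -/
theorem mink {ι : Type} [Fintype ι] [DecidableEq ι] (F G H : (ι → Bool) → ℝ) (h0 : ∀ s, 0 ≤ H s)
    (h : ∀ s, H s ≤ F s + G s) :
    Real.sqrt (av fun s => H s ^ 2) ≤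
      Real.sqrt (av fun s => F s ^ 2) + Real.sqrt (av fun s => G s ^ 2) := by
  have hF : 0 ≤ av fun s => F s ^ 2 := av_nonneg fun s => sq_nonneg _
  have hG : 0 ≤ av fun s => G s ^ 2 := av_nonneg fun s => sq_nonneg _
  have h1 : (av fun s => F s * G s) ≤
      Real.sqrt (av fun s => F s ^ 2) * Real.sqrt (av fun s => G s ^ 2) := by
    rw [← Real.sqrt_mul hF]
    exact Real.le_sqrt_of_sq_le (av_cs F G)
  refine Real.sqrt_le_iff.2 ⟨by positivity, ?_⟩
  have h2 : (av fun s => H s ^ 2) ≤ av fun s => (F s ^ 2 + 2 * (F s * G s)) + G s ^ 2 := by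
    refine av_mono fun s => ?_
    have := h s
    have h3 := h0 s
    nlinarith
  rw [av_add, av_add, av_mul_left] at h2
  refine h2.trans ?_
  have h3 := Real.sq_sqrt hF
  have h4 := Real.sq_sqrt hG
  nlinarith

variable {M : ℕ}

/-- the `L²` norm of a signed sum -/
noncomputable def nn (T : Fin M → E ≃ₗᵢ[ℝ] E) (u : Fin M → E) : ℝ :=
  Real.sqrt (av fun s : Fin M → Bool => ‖∑ j, sg (s j) • T j (u j)‖ ^ 2)

theorem nn_nonneg (T : Fin M → E ≃ₗᵢ[ℝ] E) (u : Fin M → E) : 0 ≤ nn T u := Real.sqrt_nonneg _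

theorem nn_sq (T : Fin M → E ≃ₗᵢ[ℝ] E) (u : Fin M → E) :
    nn T u ^ 2 = av fun s : Fin M → Bool => ‖∑ j, sg (s j) • T j (u j)‖ ^ 2 :=
  Real.sq_sqrt (av_nonneg fun _ => sq_nonneg _)

theorem nn_add (T : Fin M → E ≃ₗᵢ[ℝ] E) (u v w : Fin M → E) (h : ∀ j, w j = u j + v j) :
    nn T w ≤ nn T u + nn T v := by
  refine mink _ _ _ (fun _ => norm_nonneg _) fun s => ?_
  have h1 : ∑ j, sg (s j) • T j (w j) =
      ∑ j, sg (s j) • T j (u j) + ∑ j, sg (s j) • T j (v j) := by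
    rw [← Finset.sum_add_distrib]
    refine Finset.sum_congr rfl fun j _ => ?_
    rw [h j, map_add, smul_add]
  rw [h1]
  exact norm_add_le _ _

theorem nn_err (T : Fin M → E ≃ₗᵢ[ℝ] E) (u v : Fin M → E) {e : ℝ} (he : 0 ≤ e)
    (h : ∀ s : Fin M → Bool, ‖∑ j, sg (s j) • T j (v j)‖ ≤ ‖∑ j, sg (s j) • T j (u j)‖ + e) :
    nn T v ≤ nn T u + e := by
  have h1 := mink (fun s : Fin M → Bool => ‖∑ j, sg (s j) • T j (u j)‖) (fun _ => e)
    (fun s : Fin M → Bool => ‖∑ j, sg (s j) • T j (v j)‖) (fun _ => norm_nonneg _) h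
  rwa [av_const, Real.sqrt_sq he] at h1

theorem nn_smul (hCON : S_CON) (T : Fin M → E ≃ₗᵢ[ℝ] E) (u v : Fin M → E) (r : Fin M → ℝ) {A : ℝ}
    (hA : 0 ≤ A) (hr : ∀ j, |r j| ≤ A) (h : ∀ j, v j = r j • u j) :
    nn T v ≤ A * nn T u := by
  have h1 := hCON E (Fin M) r (fun j => T j (u j)) A hA hr
  unfold nn
  rw [← Real.sqrt_sq hA, ← Real.sqrt_mul (by positivity)]
  refine Real.sqrt_le_sqrt (le_trans (le_of_eq ?_) h1)
  congr 1
  funext s
  congr 2
  refine Finset.sum_congr rfl fun j _ => ?_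
  rw [h j, map_smul]

theorem nn_le (T : Fin M → E ≃ₗᵢ[ℝ] E) (u : Fin M → E) {δ : ℝ} (hδ : 0 ≤ δ) (h : ∀ j, ‖u j‖ ≤ δ) :
    nn T u ≤ M * δ := by
  unfold nn
  refine Real.sqrt_le_iff.2 ⟨by positivity, ?_⟩
  rw [← av_const (ι := Fin M) ((M * δ) ^ 2)]
  refine av_mono fun s => ?_
  have h1 : ‖∑ j, sg (s j) • T j (u j)‖ ≤ M * δ := by
    calc ‖∑ j, sg (s j) • T j (u j)‖ ≤ ∑ j, ‖sg (s j) • T j (u j)‖ := norm_sum_le _ _
      _ ≤ ∑ _j : Fin M, δ := by
        refine Finset.sum_le_sum fun j _ => ?_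
        rw [norm_smul, Real.norm_eq_abs, abs_sg, one_mul, LinearIsometryEquiv.norm_map]
        exact h j
      _ = M * δ := by simp
  gcongr

theorem one_le (hM : 1 ≤ M) (T : Fin M → E ≃ₗᵢ[ℝ] E) (x : E) (hx : ‖x‖ = 1) :
    1 ≤ nn T (fun _ => x) := by
  unfold nn
  refine Real.le_sqrt_of_sq_le ?_
  have h1 := sym (ι := Fin M) (D' := {⟨0, hM⟩}) (D := Finset.univ) (Finset.subset_univ _)
    (fun j => T j x)
  refine le_trans (le_of_eq ?_) h1
  rw [one_pow, ← av_const (ι := Fin M) (1 : ℝ)]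
  congr 1
  funext s
  rw [Finset.sum_singleton, norm_smul, Real.norm_eq_abs, abs_sg, one_mul,
    LinearIsometryEquiv.norm_map, hx, one_pow]

/-- words of bounded length -/
theorem words {α : Type} {B : Set α} (hB : B.Finite) (R : ℕ) :
    {l : List α | l.length ≤ R ∧ ∀ b ∈ l, b ∈ B}.Finite := by
  induction R with
  | zero =>
    refine (Set.finite_singleton ([] : List α)).subset fun l hl => ?_
    exact List.length_eq_zero_iff.1 (Nat.le_zero.1 hl.1)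
  | succ R ih =>
    refine ((Set.finite_singleton ([] : List α)).union (hB.image2 List.cons ih)).subset
      fun l hl => ?_
    rcases l with _ | ⟨b, l⟩
    · exact Or.inl rfl
    · refine Or.inr ⟨b, hl.2 b (by simp), l, ⟨?_, fun b' hb' => hl.2 b' (by simp [hb'])⟩, rfl⟩
      have := hl.1
      rw [List.length_cons] at this
      omega

theorem wd_norm {K : E →L[ℝ] E} (hK : ∀ y, ‖y - K y‖ ≤ ‖y‖) (l : List (E ≃ₗᵢ[ℝ] E)) (z : E) :
    ‖wd K l z‖ ≤ ‖z‖ := by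
  induction l with
  | nil => exact le_rfl
  | cons g l ih =>
    refine le_trans ?_ ih
    show ‖wd K l z - g (K (g.symm (wd K l z)))‖ ≤ ‖wd K l z‖
    have h1 : wd K l z - g (K (g.symm (wd K l z))) =
        g (g.symm (wd K l z) - K (g.symm (wd K l z))) := by
      rw [map_sub, g.apply_symm_apply]
    rw [h1, g.norm_map]
    refine (hK _).trans ?_
    rw [g.symm.norm_map]

/-- the choice of `τ` -/
theorem choice_tau {p Ks c : ℝ} (hp : 1 < p) (hKs : 0 < Ks) (hc : 0 < c) :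
    ∃ τ : ℝ, 0 < τ ∧ τ ≤ 1 / 2 ∧ Ks * τ ^ p ≤ τ * (c / 2) := by
  obtain ⟨s, hs⟩ : ∃ s, s = (c / (2 * Ks)) ^ (1 / (p - 1)) := ⟨_, rfl⟩
  have hs0 : 0 < s := by rw [hs]; positivity
  have hs1 : s ^ (p - 1) = c / (2 * Ks) := by
    rw [hs, ← Real.rpow_mul (by positivity), one_div, inv_mul_cancel₀ (by linarith), Real.rpow_one]
  refine ⟨min (1 / 2) s, lt_min (by norm_num) hs0, min_le_left _ _, ?_⟩
  have hτ0 : 0 < min (1 / 2) s := lt_min (by norm_num) hs0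
  have h1 : (min (1 / 2) s) ^ p = min (1 / 2) s * (min (1 / 2) s) ^ (p - 1) := by
    rw [← Real.rpow_one_add' hτ0.le (by linarith)]
    congr 1
    ring
  have h2 : (min (1 / 2) s) ^ (p - 1) ≤ c / (2 * Ks) := by
    rw [← hs1]
    exact Real.rpow_le_rpow hτ0.le (min_le_right _ _) (by linarith)
  rw [h1]
  calc Ks * (min (1 / 2) s * (min (1 / 2) s) ^ (p - 1))
      ≤ Ks * (min (1 / 2) s * (c / (2 * Ks))) := by gcongr
    _ = min (1 / 2) s * (c / 2) := by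
      field_simp

end Pool.Agent.H65.BM.Iso68

namespace Pool.Agent.H65.BM

open Pool.Agent.N314.OP Pool.Agent.N314.OP.Mod Iso68

theorem iso : S_ISO := by
  intro hCC hNM hCON E _ _ _ K p Ks C c₁ hAT hp1 hp2 hKs hUS hK hLP hPB
  classical
  obtain ⟨c, hc, hLP⟩ := hLP
  obtain ⟨x₀, hx₀⟩ : ∃ x : E, ‖x‖ = 1 := exists_norm_eq E zero_le_one
  have hx₀0 : x₀ ≠ 0 := by
    rintro rfl
    rw [norm_zero] at hx₀
    norm_num at hx₀
  obtain ⟨f₀, hf₀, hfx⟩ := exists_dual_vector ℝ x₀ (norm_ne_zero_iff.2 hx₀0)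
  have hfx1 : f₀ x₀ = 1 := by rw [hfx, hx₀]; rfl
  have hfle : ∀ y : E, f₀ y ≤ ‖y‖ := by
    intro y
    have h := f₀.le_opNorm y
    rw [hf₀, one_mul] at h
    exact (le_abs_self _).trans h
  -- the words
  have h1 : ∀ z : E, ∃ l : List (E ≃ₗᵢ[ℝ] E), ‖z‖ = 1 → c ≤ |f₀ (wd K l z)| := by
    intro z
    by_cases hz : ‖z‖ = 1
    · obtain ⟨l, hl⟩ := hLP z f₀ hz hf₀
      exact ⟨l, fun _ => hl⟩
    · exact ⟨[], fun h => absurd h hz⟩
  choose lz hlz using h1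
  obtain ⟨τ, hτ0, hτ1, hτ⟩ := choice_tau hp1 hKs hc
  obtain ⟨sn, hsn⟩ : ∃ sn : E → ℝ, sn = fun z => if 0 ≤ f₀ (wd K (lz z) z) then 1 else -1 :=
    ⟨_, rfl⟩
  have hsn1 : ∀ z, |sn z| ≤ 1 := by
    intro z
    rw [hsn]
    dsimp only
    split_ifs <;> simp
  obtain ⟨y, hy⟩ : ∃ y : E → E, y = fun z => sn z • wd K (lz z) z := ⟨_, rfl⟩
  have hyn : ∀ z, ‖z‖ = 1 → ‖y z‖ ≤ 1 := by
    intro z hz
    rw [hy]
    dsimp only
    rw [norm_smul, Real.norm_eq_abs]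
    have h2 := wd_norm hK (lz z) z
    rw [hz] at h2
    calc |sn z| * ‖wd K (lz z) z‖ ≤ 1 * 1 :=
          mul_le_mul (hsn1 z) h2 (norm_nonneg _) zero_le_one
      _ = 1 := one_mul 1
  have hyc : ∀ z, ‖z‖ = 1 → c ≤ f₀ (y z) := by
    intro z hz
    refine (hlz z hz).trans (le_of_eq ?_)
    rw [hy, hsn]
    dsimp only
    rw [map_smul, smul_eq_mul]
    split_ifs with h
    · rw [abs_of_nonneg h, one_mul]
    · rw [abs_of_neg (not_le.1 h)]
      ring
  obtain ⟨b, hb⟩ : ∃ b : E → E, b = fun z => x₀ - τ • y z := ⟨_, rfl⟩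
  have hbu : ∀ z, ‖z‖ = 1 → ‖b z‖ ≤ 1 - τ * c / 2 := by
    intro z hz
    have h2 := hUS x₀ (τ • y z) hx₀
    have h3 : 1 + τ * c ≤ ‖x₀ + τ • y z‖ := by
      refine le_trans ?_ (hfle _)
      rw [map_add, map_smul, hfx1, smul_eq_mul]
      have := mul_le_mul_of_nonneg_left (hyc z hz) hτ0.le
      linarith
    have h4 : ‖τ • y z‖ ^ p ≤ τ ^ p := by
      refine Real.rpow_le_rpow (norm_nonneg _) ?_ (by linarith)
      rw [norm_smul, Real.norm_of_nonneg hτ0.le]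
      exact mul_le_of_le_one_right hτ0.le (hyn z hz)
    have h5 : Ks * ‖τ • y z‖ ^ p ≤ τ * (c / 2) :=
      (mul_le_mul_of_nonneg_left h4 hKs.le).trans hτ
    have h6 : b z = x₀ - τ • y z := by rw [hb]
    rw [h6]
    linarith
  have hbl : ∀ z, ‖z‖ = 1 → 1 / 2 ≤ ‖b z‖ := by
    intro z hz
    have h6 : b z = x₀ - τ • y z := by rw [hb]
    have h2 : ‖τ • y z‖ ≤ 1 / 2 := by
      rw [norm_smul, Real.norm_of_nonneg hτ0.le]
      exact (mul_le_of_le_one_right hτ0.le (hyn z hz)).trans hτ1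
    have h3 := norm_sub_norm_le x₀ (τ • y z)
    rw [hx₀] at h3
    rw [h6]
    linarith
  obtain ⟨bh, hbh⟩ : ∃ bh : E → E, bh = fun z => ‖b z‖⁻¹ • b z := ⟨_, rfl⟩
  have hbh1 : ∀ z, ‖z‖ = 1 → ‖bh z‖ = 1 := by
    intro z hz
    have h2 : ‖b z‖ ≠ 0 := by have := hbl z hz; linarith
    rw [hbh]
    dsimp only
    rw [norm_smul, norm_inv, norm_norm, inv_mul_cancel₀ h2]
  obtain ⟨a, ha⟩ : ∃ a, a = τ * c := ⟨_, rfl⟩
  have ha0 : 0 < a := by rw [ha]; positivity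
  have ha2 : a ≤ 1 := by
    -- from the bound of `b` at a unit vector
    have h2 := hbu x₀ hx₀
    have h3 := hbl x₀ hx₀
    rw [ha]
    linarith
  refine ⟨(c / 8) ^ 2 / (1 + a / 4) ^ 2, by positivity, fun Z Y hZ hY M hM => ?_⟩
  have hM0 : (0 : ℝ) < M := by exact_mod_cast hM
  obtain ⟨δ, hδ⟩ : ∃ δ, δ = a / (8 * M) := ⟨_, rfl⟩
  have hδ0 : 0 < δ := by rw [hδ]; positivity
  have hMδ : M * δ = a / 8 := by rw [hδ]; field_simp
  have h2 : ∀ u : E, ∃ B : E ≃ₗᵢ[ℝ] E, ‖u‖ = 1 → ‖B x₀ - u‖ < δ := by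
    intro u
    by_cases hu : ‖u‖ = 1
    · obtain ⟨B, hB⟩ := hAT x₀ u hx₀ hu δ hδ0
      exact ⟨B, fun _ => hB⟩
    · exact ⟨LinearIsometryEquiv.refl ℝ E, fun h => absurd h hu⟩
  choose Bc hBc using h2
  obtain ⟨𝓑, h𝓑⟩ : ∃ 𝓑 : Set (E ≃ₗᵢ[ℝ] E), 𝓑 = Bc '' (Y : Set E) ∪ (fun z => Bc (bh z)) '' (Y : Set E) :=
    ⟨_, rfl⟩
  have h𝓑f : 𝓑.Finite := by
    rw [h𝓑]
    exact (Y.finite_toSet.image _).union (Y.finite_toSet.image _)
  obtain ⟨R, hR⟩ := hNM M (a / 4) hM (by positivity)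
  obtain ⟨W, hW⟩ : ∃ W : Finset (List (E ≃ₗᵢ[ℝ] E)),
      ∀ l : List (E ≃ₗᵢ[ℝ] E), l.length ≤ R → (∀ b ∈ l, b ∈ 𝓑) → l ∈ W :=
    ⟨(words h𝓑f R).toFinset, fun l h3 h4 => by
      rw [Set.Finite.mem_toFinset]
      exact ⟨h3, h4⟩⟩
  obtain ⟨N, hN⟩ : ∃ N : ℕ, ∀ z ∈ Y, (lz z).length ≤ N :=
    ⟨Y.sup fun z => (lz z).length, fun z hz => Finset.le_sup (f := fun z => (lz z).length) hz⟩
  obtain ⟨e, he⟩ : ∃ e : ℝ, e = c / (8 * (M * N * M + 1)) := ⟨_, rfl⟩
  have he0 : 0 < e := by rw [he]; positivity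
  have he1 : M * N * (M * e) ≤ c / 8 := by
    have h3 : (M : ℝ) * N * (M * e) = (M * N * M) / (M * N * M + 1) * (c / 8) := by
      rw [he]
      field_simp
    rw [h3]
    have h4 : (M * N * M : ℝ) / (M * N * M + 1) ≤ 1 := by
      rw [div_le_one (by positivity)]
      linarith
    exact mul_le_of_le_one_left (by positivity) h4
  obtain ⟨T₀, hT1, hT2⟩ := hPB ((W ×ˢ Z).image fun q => pr q.1 q.2) (by
      intro u hu
      rw [Finset.mem_image] at hu
      obtain ⟨q, hq, rfl⟩ := hu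
      rw [LinearIsometryEquiv.norm_map]
      exact hZ _ (Finset.mem_product.1 hq).2)
    (Y.biUnion fun z => ((lz z).tails.toFinset ×ˢ W).image fun q => pr q.2 (wd K q.1 z))
    (Y.biUnion fun z => ((lz z).toFinset ×ˢ W).image fun q => q.1.trans (pr q.2)) e he0 M
  obtain ⟨l, hl, hmax⟩ := hR E x₀ hx₀ T₀ 𝓑
  have hlW : ∀ j, l j ∈ W := fun j => hW _ (hl j).1 (hl j).2
  obtain ⟨T, hT⟩ : ∃ T : Fin M → E ≃ₗᵢ[ℝ] E, T = fun j => (pr (l j)).trans (T₀ j) := ⟨_, rfl⟩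
  have hTa : ∀ j u, T j u = T₀ j (pr (l j) u) := by
    intro j u
    rw [hT]
    rfl
  have hTs : ∀ j u, (T j).symm u = (pr (l j)).symm ((T₀ j).symm u) := by
    intro j u
    rw [hT]
    rfl
  obtain ⟨Φ, hΦ⟩ : ∃ Φ, Φ = nn T (fun _ => x₀) := ⟨_, rfl⟩
  have hΦ1 : 1 ≤ Φ := by rw [hΦ]; exact one_le hM T x₀ hx₀
  -- maximality
  have hmax' : ∀ B : Fin M → E ≃ₗᵢ[ℝ] E, (∀ j, B j ∈ 𝓑) →
      nn T (fun j => B j x₀) ≤ (1 + a / 8) * Φ := by
    intro B hB
    have h3 := hmax B hB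
    have h4 : nn T (fun j => B j x₀) ^ 2 ≤ (1 + a / 4) * Φ ^ 2 := by
      rw [hΦ, nn_sq, nn_sq]
      simp only [hTa]
      exact h3
    refine le_of_sq_le_sq ?_ (by positivity)
    refine h4.trans ?_
    rw [mul_pow]
    refine mul_le_mul_of_nonneg_right ?_ (by positivity)
    nlinarith
  -- unit vectors which are nearly of the form `B x₀`
  have hup : ∀ u : Fin M → E, (∀ j, ‖u j‖ = 1) → (∀ j, Bc (u j) ∈ 𝓑) →
      nn T u ≤ (1 + a / 4) * Φ := by
    intro u hu hu2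
    have h3 := hmax' (fun j => Bc (u j)) hu2
    have h4 := nn_add T (fun j => Bc (u j) x₀) (fun j => u j - Bc (u j) x₀) u
      (fun j => by abel)
    have h5 := nn_le T (fun j => u j - Bc (u j) x₀) hδ0.le
      (fun j => by rw [norm_sub_rev]; exact (hBc (u j) (hu j)).le)
    rw [hMδ] at h5
    nlinarith
  have hupY : ∀ u : Fin M → E, (∀ j, u j ∈ Y) → nn T u ≤ (1 + a / 4) * Φ := by
    intro u hu
    refine hup u (fun j => hY _ (hu j)) fun j => ?_
    rw [h𝓑]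
    exact Or.inl ⟨u j, hu j, rfl⟩
  have hupb : ∀ u : Fin M → E, (∀ j, u j ∈ Y) →
      nn T (fun j => b (u j)) ≤ (1 - a / 4) * Φ := by
    intro u hu
    have h3 := hup (fun j => bh (u j)) (fun j => hbh1 _ (hY _ (hu j))) (fun j => by
      rw [h𝓑]
      exact Or.inr ⟨u j, hu j, rfl⟩)
    have h4 := nn_smul hCON T (fun j => bh (u j)) (fun j => b (u j)) (fun j => ‖b (u j)‖)
      (A := 1 - a / 2) (by linarith) (fun j => by
        rw [abs_of_nonneg (norm_nonneg _), ha]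
        exact hbu _ (hY _ (hu j))) (fun j => by
        have h5 : ‖b (u j)‖ ≠ 0 := by have := hbl _ (hY _ (hu j)); linarith
        rw [hbh]
        dsimp only
        rw [smul_smul, mul_inv_cancel₀ h5, one_smul])
    have h6 : (1 - a / 2) * nn T (fun j => bh (u j)) ≤ (1 - a / 2) * ((1 + a / 4) * Φ) :=
      mul_le_mul_of_nonneg_left h3 (by linarith)
    have h7 : (1 - a / 2) * (1 + a / 4) ≤ 1 - a / 4 := by nlinarith
    have h8 := mul_le_mul_of_nonneg_right h7 (by linarith : (0 : ℝ) ≤ Φ)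
    rw [mul_assoc] at h8
    linarith
  -- lower bound
  have hlow : ∀ u : Fin M → E, (∀ j, u j ∈ Y) → c / 8 * Φ ≤ nn T u := by
    intro u hu
    have h3 := nn_add T (fun j => b (u j)) (fun j => τ • y (u j)) (fun _ => x₀)
      (fun j => by rw [hb]; dsimp only; abel)
    rw [← hΦ] at h3
    have h4 := hupb u hu
    have h5 := nn_smul hCON T (fun j => y (u j)) (fun j => τ • y (u j)) (fun _ => τ) hτ0.le
      (fun j => by rw [abs_of_pos hτ0]) (fun j => rfl)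
    have h6 := nn_smul hCON T (fun j => wd K (lz (u j)) (u j)) (fun j => y (u j))
      (fun j => sn (u j)) zero_le_one (fun j => hsn1 _) (fun j => by rw [hy])
    rw [one_mul] at h6
    have h7 : nn T (fun j => wd K (lz (u j)) (u j)) ≤ nn T u + c / 8 := by
      refine nn_err T u _ (by positivity) fun s => ?_
      have h8 := hCC E K hK M N T (fun j => lz (u j)) u e he0.le (fun j => hN _ (hu j)) (by
        intro i j hij g hg l' hl'
        have h9 := hT2 i j hij (g.trans (pr (l j))) (by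
            rw [Finset.mem_biUnion]
            refine ⟨u j, hu j, ?_⟩
            rw [Finset.mem_image]
            exact ⟨(g, l j), Finset.mk_mem_product (List.mem_toFinset.2 hg) (hlW j), rfl⟩)
          (pr (l i) (wd K l' (u i))) (by
            rw [Finset.mem_biUnion]
            refine ⟨u i, hu i, ?_⟩
            rw [Finset.mem_image]
            exact ⟨(l', l i), Finset.mk_mem_product
              (List.mem_toFinset.2 ((List.mem_tails _ _).2 hl')) (hlW i), rfl⟩)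
        rw [hTs, hTa]
        exact h9) s
      linarith
    -- conclusion
    have h8 : a / 4 * Φ ≤ τ * nn T (fun j => y (u j)) := by nlinarith
    have h9 : c / 4 * Φ ≤ nn T (fun j => y (u j)) := by
      rw [ha] at h8
      have h10 : τ * (c / 4 * Φ) ≤ τ * nn T (fun j => y (u j)) := by linarith
      exact le_of_mul_le_mul_left h10 hτ0
    have h10 : c / 8 ≤ c / 8 * Φ := le_mul_of_one_le_right (by positivity) hΦ1
    linarith
  refine ⟨T, ((1 + a / 4) * Φ) ^ 2, by positivity, ?_, ?_⟩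
  · intro g hg u hu
    have h3 := hT1 g hg (fun j => pr (l j) (u j)) (fun j => by
      rw [Finset.mem_image]
      exact ⟨(l j, u j), Finset.mk_mem_product (hlW j) (hu j), rfl⟩)
    simp only [hTa]
    exact h3
  · intro u hu
    rw [← nn_sq T u]
    constructor
    · have h3 : (c / 8) ^ 2 / (1 + a / 4) ^ 2 * ((1 + a / 4) * Φ) ^ 2 = (c / 8 * Φ) ^ 2 := by
        field_simp
      rw [h3]
      exact pow_le_pow_left₀ (by positivity) (hlow u hu) 2
    · exact pow_le_pow_left₀ (nn_nonneg _ _) (hupY u hu) 2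

end Pool.Agent.H65.BM
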