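import Pool.Agent.H65.BM.S

/-! BM-J (helper31): the derivative of the square of the norm. -/

set_option autoImplicit false

namespace Pool.Agent.H65.BM

open Pool.Agent.N314.OP Pool.Agent.N314.OP.Mod

namespace JAux

variable {E : Type} [NormedAddCommGroup E] [NormedSpace ℝ E]

lemma le_one {f : StrongDual ℝ E} (hf : ‖f‖ ≤ 1) (v : E) : |f v| ≤ ‖v‖ := by
  have h1 := f.le_opNorm v
  rw [Real.norm_eq_abs] at h1
  exact h1.trans (mul_le_of_le_one_left (norm_nonneg v) hf)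

lemma first {p K : ℝ} (hU : USp E p K) {y v : E} (hy : y ≠ 0) {f : StrongDual ℝ E} (hf : ‖f‖ ≤ 1)
    (hfy : f y = ‖y‖) : ‖y + v‖ ≤ ‖y‖ + f v + K * (‖y‖ * (‖v‖ / ‖y‖) ^ p) := by
  have ha : 0 < ‖y‖ := norm_pos_iff.2 hy
  have h1 := hU (‖y‖⁻¹ • y) (‖y‖⁻¹ • v) (by
    rw [norm_smul, norm_inv, norm_norm, inv_mul_cancel₀ ha.ne'])
  have h2 : ‖‖y‖⁻¹ • y + ‖y‖⁻¹ • v‖ = ‖y‖⁻¹ * ‖y + v‖ := by
    rw [← smul_add, norm_smul, norm_inv, norm_norm]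
  have h3 : ‖‖y‖⁻¹ • y - ‖y‖⁻¹ • v‖ = ‖y‖⁻¹ * ‖y - v‖ := by
    rw [← smul_sub, norm_smul, norm_inv, norm_norm]
  have h4 : ‖‖y‖⁻¹ • v‖ = ‖v‖ / ‖y‖ := by
    rw [norm_smul, norm_inv, norm_norm, div_eq_inv_mul]
  rw [h2, h3, h4] at h1
  have h5 : ‖y‖ - f v ≤ ‖y - v‖ := by
    have := le_one hf (y - v)
    rw [map_sub, hfy] at this
    exact (le_abs_self _).trans this
  have h6 := mul_le_mul_of_nonneg_left h1 ha.le
  have h7 : ‖y‖ * (‖y‖⁻¹ * ‖y + v‖ + ‖y‖⁻¹ * ‖y - v‖) = ‖y + v‖ + ‖y - v‖ := by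
    field_simp
  rw [h7] at h6
  linarith

end JAux

open JAux in
theorem j : S_J := by
  intro E _ _ p K hp hp2 hK hU
  classical
  obtain ⟨B, hB⟩ : ∃ B : ℝ, B = 1 / (p - 1) := ⟨_, rfl⟩
  have hp1 : 0 < p - 1 := by linarith
  have hB0 : 0 < B := by rw [hB]; positivity
  have hBp : B * (p - 1) = 1 := by rw [hB]; field_simp
  have hf : ∀ y : E, ∃ f : StrongDual ℝ E, ‖f‖ ≤ 1 ∧ f y = ‖y‖ := by
    intro y
    obtain ⟨f, h1, h2⟩ := exists_dual_vector'' ℝ y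
    exact ⟨f, h1, by simpa using h2⟩
  choose f hf1 hf2 using hf
  have hM : 0 < 2 * K + 2 := by linarith
  have hMB : 0 < (2 * K + 2) ^ B := Real.rpow_pos_of_pos hM B
  refine ⟨4 * (2 * K + 2) ^ B + 9 / 4, B, fun y => (2 * ‖y‖) • f y, by linarith, hB0.le, ?_, ?_, ?_⟩
  · intro y
    change (2 * ‖y‖) * f y y = _
    rw [hf2]
    ring
  · intro y v
    change |(2 * ‖y‖) * f y v| ≤ _
    rw [abs_mul, abs_of_nonneg (by positivity : (0 : ℝ) ≤ 2 * ‖y‖)]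
    exact mul_le_mul_of_nonneg_left (le_one (hf1 y) v) (by positivity)
  · intro y v δ hδ hδ1
    change ‖y + v‖ ^ 2 ≤ ‖y‖ ^ 2 + (2 * ‖y‖) * f y v + δ * ‖y‖ * ‖v‖ +
      (4 * (2 * K + 2) ^ B + 9 / 4) * δ ^ (-B) * ‖v‖ ^ 2
    have hδB : 1 ≤ δ ^ (-B) := Real.one_le_rpow_of_pos_of_le_one_of_nonpos hδ hδ1 (by linarith)
    have hfv := abs_le.1 (le_one (hf1 y) v)
    have hv0 := norm_nonneg v
    have hy0 := norm_nonneg y
    have hvv : 0 ≤ ‖v‖ ^ 2 := by positivity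
    have hlast : 9 / 4 * ‖v‖ ^ 2 ≤ (4 * (2 * K + 2) ^ B + 9 / 4) * δ ^ (-B) * ‖v‖ ^ 2 := by
      apply mul_le_mul_of_nonneg_right _ hvv
      calc (9 / 4 : ℝ) ≤ (4 * (2 * K + 2) ^ B + 9 / 4) * 1 := by linarith
        _ ≤ (4 * (2 * K + 2) ^ B + 9 / 4) * δ ^ (-B) := mul_le_mul_of_nonneg_left hδB (by linarith)
    by_cases hy : y = 0
    · rw [hy, norm_zero, zero_add]
      have : ‖v‖ ^ 2 ≤ 9 / 4 * ‖v‖ ^ 2 := by linarith
      simp only [mul_zero, zero_mul, add_zero, ne_eq, OfNat.ofNat_ne_zero, not_false_eq_true,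
        zero_pow, zero_add]
      linarith
    have ha : 0 < ‖y‖ := norm_pos_iff.2 hy
    obtain ⟨s, hs⟩ : ∃ s : ℝ, s = (δ / (2 * K + 2)) ^ B := ⟨_, rfl⟩
    have hq0 : 0 < δ / (2 * K + 2) := by positivity
    have hs0 : 0 < s := by rw [hs]; exact Real.rpow_pos_of_pos hq0 B
    have hsp : s ^ (p - 1) = δ / (2 * K + 2) := by
      rw [hs, ← Real.rpow_mul hq0.le, hBp, Real.rpow_one]
    have hs1 : s ≤ 1 := by
      rw [hs]
      refine Real.rpow_le_one hq0.le ?_ hB0.le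
      rw [div_le_one hM]
      linarith
    rcases le_or_gt ‖v‖ (s * ‖y‖) with h | h
    · -- small `v`
      have h1 := first hU (v := v) hy (hf1 y) (hf2 y)
      have h2 : ‖y‖ * (‖v‖ / ‖y‖) ^ p ≤ ‖v‖ * s ^ (p - 1) := by
        rcases eq_or_lt_of_le hv0 with h0 | h0
        · rw [← h0, zero_div, Real.zero_rpow (by linarith), mul_zero, zero_mul]
        · have h3 : (‖v‖ / ‖y‖) ^ p = (‖v‖ / ‖y‖) ^ (p - 1) * (‖v‖ / ‖y‖) := by
            rw [← Real.rpow_add_one (by positivity)]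
            congr 1
            ring
          have h4 : ‖v‖ / ‖y‖ ≤ s := by rwa [div_le_iff₀ ha]
          have h5 : (‖v‖ / ‖y‖) ^ (p - 1) ≤ s ^ (p - 1) :=
            Real.rpow_le_rpow (by positivity) h4 hp1.le
          rw [h3]
          calc ‖y‖ * ((‖v‖ / ‖y‖) ^ (p - 1) * (‖v‖ / ‖y‖)) = ‖v‖ * (‖v‖ / ‖y‖) ^ (p - 1) := by
                field_simp
            _ ≤ ‖v‖ * s ^ (p - 1) := mul_le_mul_of_nonneg_left h5 hv0
      obtain ⟨κ, hκ⟩ : ∃ κ : ℝ, κ = K * (δ / (2 * K + 2)) := ⟨_, rfl⟩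
      have hκ0 : 0 ≤ κ := by rw [hκ]; positivity
      have hκ1 : 2 * κ ≤ δ := by
        rw [hκ, ← mul_div_assoc, ← mul_div_assoc, div_le_iff₀ hM]
        nlinarith
      have h3 : ‖y + v‖ ≤ ‖y‖ + f y v + κ * ‖v‖ := by
        have := mul_le_mul_of_nonneg_left h2 hK.le
        rw [hsp] at this
        rw [hκ]
        linarith
      have h4 : 0 ≤ ‖y‖ + f y v := by
        have : s * ‖y‖ ≤ 1 * ‖y‖ := mul_le_mul_of_nonneg_right hs1 hy0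
        linarith [hfv.1]
      have h5 : ‖y + v‖ ^ 2 ≤ (‖y‖ + f y v + κ * ‖v‖) ^ 2 :=
        pow_le_pow_left₀ (norm_nonneg _) h3 2
      have h6 : f y v ^ 2 ≤ ‖v‖ ^ 2 := sq_le_sq' (by linarith [hfv.1]) hfv.2
      have h7 : κ * ‖v‖ * f y v ≤ κ * ‖v‖ * ‖v‖ := mul_le_mul_of_nonneg_left hfv.2 (by positivity)
      have h8 : 2 * κ * (‖y‖ * ‖v‖) ≤ δ * (‖y‖ * ‖v‖) := mul_le_mul_of_nonneg_right hκ1 (by positivity)
      have h9 : (1 + κ) ^ 2 ≤ 9 / 4 := by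
        have : κ ≤ 1 / 2 := by linarith
        nlinarith
      have h10 := mul_le_mul_of_nonneg_right h9 hvv
      nlinarith
    · -- large `v`
      have h1 : ‖y‖ ≤ ‖v‖ / s := by
        rw [le_div_iff₀ hs0]
        linarith
      have h2 : ‖y + v‖ ^ 2 ≤ (‖y‖ + ‖v‖) ^ 2 := pow_le_pow_left₀ (norm_nonneg _) (norm_add_le y v) 2
      have h3 : -(2 * ‖y‖ * ‖v‖) ≤ 2 * ‖y‖ * f y v := by
        have := mul_le_mul_of_nonneg_left hfv.1 (by positivity : 0 ≤ 2 * ‖y‖)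
        linarith
      have h4 : 4 * ‖y‖ * ‖v‖ ≤ 4 / s * ‖v‖ ^ 2 := by
        calc 4 * ‖y‖ * ‖v‖ ≤ 4 * (‖v‖ / s) * ‖v‖ := by gcongr
          _ = 4 / s * ‖v‖ ^ 2 := by ring
      have h5 : 1 / s = (2 * K + 2) ^ B * δ ^ (-B) := by
        rw [hs, Real.div_rpow hδ.le hM.le, Real.rpow_neg hδ.le]
        field_simp
      have h6 : 4 / s = 4 * (2 * K + 2) ^ B * δ ^ (-B) := by
        rw [div_eq_mul_one_div, h5]
        ring
      rw [h6] at h4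
      have h7 : ‖v‖ ^ 2 ≤ 9 / 4 * δ ^ (-B) * ‖v‖ ^ 2 := by
        calc ‖v‖ ^ 2 = 1 * 1 * ‖v‖ ^ 2 := by ring
          _ ≤ 9 / 4 * δ ^ (-B) * ‖v‖ ^ 2 := by gcongr; norm_num
      have h8 : 0 ≤ δ * ‖y‖ * ‖v‖ := by positivity
      nlinarith

end Pool.Agent.H65.BM
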