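import Pool.Agent.H65.BM.S6

set_option autoImplicit false

/-! # BM6-JMU (helper40) -/

namespace Pool.Agent.H65.BM

open Filter Topology

namespace JMUx

theorem alt_vec {E : Type} [NormedAddCommGroup E] [NormedSpace ℝ E] {θ : ℝ} {x : ℕ → E}
    {f : ℕ → StrongDual ℝ E} (h : JSeq θ x f) (r : ℕ) {p : ℕ → ℕ} (hp : StrictMono p) :
    ∃ z, Alt θ f r p z ∧ ‖z‖ ≤ 2 * r := by
  obtain ⟨hθ, hx, hf, h1, h2⟩ := h
  let S : ℕ → ℝ := fun i => if i < r then (-1 : ℝ) ^ i else 0
  refine ⟨∑ i ∈ Finset.range r, (S i - S (i + 1)) • x (p (2 * i + 1)), ?_, ?_⟩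
  · intro j hj k hk1 hk2
    have e : f k (∑ i ∈ Finset.range r, (S i - S (i + 1)) • x (p (2 * i + 1))) =
        θ * (-1 : ℝ) ^ j := by
      rw [map_sum]
      have e1 : ∀ i ∈ Finset.range r, f k ((S i - S (i + 1)) • x (p (2 * i + 1))) =
          if j ≤ i then (S i - S (i + 1)) * θ else 0 := by
        intro i _
        rw [map_smul, smul_eq_mul]
        by_cases hij : j ≤ i
        · rw [if_pos hij, h1 (p (2 * i + 1)) k (hk2.trans (hp.monotone (by omega)))]
        · rw [if_neg hij, h2 (p (2 * i + 1)) k (lt_of_lt_of_le (hp (by omega)) hk1), mul_zero]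
      rw [Finset.sum_congr rfl e1, ← Finset.sum_filter]
      have e2 : (Finset.range r).filter (fun i => j ≤ i) = Finset.Ico j r := by
        ext i
        simp only [Finset.mem_filter, Finset.mem_range, Finset.mem_Ico]
        tauto
      rw [e2, ← Finset.sum_mul]
      have e3 : ∀ n : ℕ, j ≤ n → ∑ i ∈ Finset.Ico j n, (S i - S (i + 1)) = S j - S n := by
        intro n hn
        induction n, hn using Nat.le_induction with
        | base => simp
        | succ n hn ih => rw [Finset.sum_Ico_succ_top hn, ih]; ring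
      rw [e3 r hj.le]
      have e4 : S j = (-1 : ℝ) ^ j := if_pos hj
      have e5 : S r = 0 := if_neg (lt_irrefl r)
      rw [e4, e5]
      ring
    rw [e]
    have : (-1 : ℝ) ^ j * (θ * (-1 : ℝ) ^ j) = θ := by
      have : (-1 : ℝ) ^ j * (-1 : ℝ) ^ j = 1 := by
        rw [← mul_pow]; norm_num
      calc (-1 : ℝ) ^ j * (θ * (-1 : ℝ) ^ j) = θ * ((-1 : ℝ) ^ j * (-1 : ℝ) ^ j) := by ring
        _ = θ := by rw [this, mul_one]
    rw [this]
  · have hS : ∀ i, |S i| ≤ 1 := by
      intro i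
      by_cases hi : i < r
      · have : S i = (-1 : ℝ) ^ i := if_pos hi
        rw [this, abs_pow, abs_neg, abs_one, one_pow]
      · have : S i = 0 := if_neg hi
        rw [this, abs_zero]; exact zero_le_one
    calc ‖∑ i ∈ Finset.range r, (S i - S (i + 1)) • x (p (2 * i + 1))‖
        ≤ ∑ i ∈ Finset.range r, ‖(S i - S (i + 1)) • x (p (2 * i + 1))‖ := norm_sum_le _ _
      _ ≤ ∑ i ∈ Finset.range r, (2 : ℝ) := by
          refine Finset.sum_le_sum (fun i _ => ?_)
          rw [norm_smul, Real.norm_eq_abs]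
          have a1 : |S i - S (i + 1)| ≤ 2 := by
            have := abs_sub (S i) (S (i + 1))
            have := hS i
            have := hS (i + 1)
            linarith
          calc |S i - S (i + 1)| * ‖x (p (2 * i + 1))‖ ≤ 2 * 1 :=
                mul_le_mul a1 (hx _) (norm_nonneg _) (by norm_num)
            _ = 2 := by norm_num
      _ = 2 * r := by rw [Finset.sum_const, Finset.card_range, nsmul_eq_mul]; ring

end JMUx

open JMUx in
theorem jmu : S_JMU := by
  intro E _ _ θ x f h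
  have hf := h.2.2.1
  let A : ℕ → (ℕ → ℕ) → Set ℝ := fun r p => {t | ∃ z, Alt θ f r p z ∧ ‖z‖ = t}
  have hb : ∀ r p, BddBelow (A r p) := by
    intro r p
    refine ⟨0, ?_⟩
    rintro t ⟨z, -, rfl⟩
    exact norm_nonneg z
  have hne : ∀ r p, StrictMono p → (A r p).Nonempty := by
    intro r p hp
    obtain ⟨z, hz, -⟩ := alt_vec h r hp
    exact ⟨‖z‖, z, hz, rfl⟩
  refine ⟨fun r p => sInf (A r p), ?_, ?_, ?_, ?_, ?_⟩
  · intro r p hp
    constructor
    · refine le_csInf (hne r p hp) ?_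
      rintro t ⟨z, -, rfl⟩
      exact norm_nonneg z
    · obtain ⟨z, hz, hz2⟩ := alt_vec h r hp
      exact (csInf_le (hb r p) ⟨z, hz, rfl⟩).trans hz2
  · intro r p hr hp
    refine le_csInf (hne r p hp) ?_
    rintro t ⟨z, hz, rfl⟩
    have h0 := hz 0 (by omega) (p 0) le_rfl (hp.monotone (by omega))
    rw [pow_zero, one_mul] at h0
    calc θ ≤ f (p 0) z := h0
      _ ≤ ‖f (p 0) z‖ := Real.le_norm_self _
      _ ≤ ‖f (p 0)‖ * ‖z‖ := (f (p 0)).le_opNorm z
      _ ≤ 1 * ‖z‖ := mul_le_mul_of_nonneg_right (hf _) (norm_nonneg _)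
      _ = ‖z‖ := one_mul _
  · intro r p p' hpp
    have : A r p = A r p' := by
      ext t
      constructor
      · rintro ⟨z, hz, rfl⟩
        refine ⟨z, ?_, rfl⟩
        intro j hj k h1 h2
        rw [← hpp (2 * j) (by omega)] at h1
        rw [← hpp (2 * j + 1) (by omega)] at h2
        exact hz j hj k h1 h2
      · rintro ⟨z, hz, rfl⟩
        refine ⟨z, ?_, rfl⟩
        intro j hj k h1 h2
        rw [hpp (2 * j) (by omega)] at h1
        rw [hpp (2 * j + 1) (by omega)] at h2
        exact hz j hj k h1 h2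
    show sInf (A r p) = sInf (A r p')
    rw [this]
  · intro r p z hz
    exact csInf_le (hb r p) ⟨z, hz, rfl⟩
  · intro r p hp ε hε
    obtain ⟨t, ⟨z, hz, rfl⟩, ht⟩ := exists_lt_of_csInf_lt (hne r p hp)
      (show sInf (A r p) < sInf (A r p) + ε by linarith)
    exact ⟨z, hz, ht.le⟩

end Pool.Agent.H65.BM
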