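import Pool.Agent.H65.BM.S6

/-! Project BM, stub JPM (helper96). -/

set_option autoImplicit false

namespace Pool.Agent.H65.BM

open Pool.Agent.N314.OP Pool.Agent.N314.OP.Mod Filter Topology

namespace JPM

/-- the sequence `A 0, B 0, A 1, B 1, ...` -/
def ip (A B : ℕ → ℕ) (t : ℕ) : ℕ := if t % 2 = 0 then A (t / 2) else B (t / 2)

lemma ip_even (A B : ℕ → ℕ) (j : ℕ) : ip A B (2 * j) = A j := by
  unfold ip
  rw [if_pos (by omega)]
  congr 1
  omega

lemma ip_odd (A B : ℕ → ℕ) (j : ℕ) : ip A B (2 * j + 1) = B j := by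
  unfold ip
  rw [if_neg (by omega)]
  congr 1
  omega

lemma ip_mono (A B : ℕ → ℕ) (h1 : ∀ j, A j < B j) (h2 : ∀ j, B j < A (j + 1)) :
    StrictMono (ip A B) := by
  apply strictMono_nat_of_lt_succ
  intro t
  rcases Nat.even_or_odd' t with ⟨j, rfl | rfl⟩
  · rw [ip_even, ip_odd]; exact h1 j
  · rw [ip_odd, show 2 * j + 1 + 1 = 2 * (j + 1) by ring, ip_even]; exact h2 j

lemma core {E : Type} [NormedAddCommGroup E] [NormedSpace ℝ E] (θ : ℝ)
    (f : ℕ → StrongDual ℝ E) (μ : ℕ → (ℕ → ℕ) → ℝ)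
    (h4 : ∀ r p z, Alt θ f r p z → μ r p ≤ ‖z‖)
    (h5 : ∀ r p, StrictMono p → ∀ ε : ℝ, 0 < ε → ∃ z, Alt θ f r p z ∧ ‖z‖ ≤ μ r p + ε)
    (q : ℕ → ℕ) (hq : StrictMono q) (r n : ℕ) (hn : 1 ≤ n) (a b ε : ℝ) (hε : 0 < ε)
    (ha : ∀ p, StrictMono p → μ (r + 1) (q ∘ p) ≤ a)
    (hb : ∀ p, StrictMono p → b ≤ μ r (q ∘ p)) :
    ∃ u : Fin n → E, (∀ i, ‖u i‖ ≤ a + ε) ∧
      ∀ k : ℕ, k ≤ n → n * b ≤ ‖∑ i : Fin n, if (i : ℕ) < k then u i else - u i‖ := by
  have hP : ∀ i : Fin n, StrictMono (ip (fun j => 4 * ((n + 1) * (j + 1) + i + 1) + 1)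
      (fun j => 4 * ((n + 1) * (j + 2) + i + 1))) := by
    intro i
    apply ip_mono
    · intro j
      have e : (n + 1) * (j + 2) = (n + 1) * (j + 1) + (n + 1) := by ring
      simp only [e]
      omega
    · intro j
      have e : (n + 1) * (j + 1 + 1) = (n + 1) * (j + 2) := by ring
      simp only [e]
      omega
  have hu : ∀ i : Fin n, ∃ z : E, Alt θ f (r + 1)
      (q ∘ ip (fun j => 4 * ((n + 1) * (j + 1) + i + 1) + 1)
      (fun j => 4 * ((n + 1) * (j + 2) + i + 1))) z ∧ ‖z‖ ≤ a + ε := by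
    intro i
    obtain ⟨z, h1, h2⟩ := h5 (r + 1) _ (hq.comp (hP i)) ε hε
    exact ⟨z, h1, h2.trans (by linarith [ha _ (hP i)])⟩
  choose u hu1 hu2 using hu
  refine ⟨u, hu2, ?_⟩
  intro k hk
  have hn0 : (0 : ℝ) < n := by exact_mod_cast hn
  obtain ⟨v, hv⟩ : ∃ v, v = ∑ i : Fin n, if (i : ℕ) < k then u i else - u i := ⟨_, rfl⟩
  rw [← hv]
  have hQ : StrictMono (ip (fun j => 4 * ((n + 1) * (j + 2) + k) + 2)
      (fun j => 4 * ((n + 1) * (j + 2) + k) + 3)) := by
    apply ip_mono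
    · intro j
      omega
    · intro j
      have e : (n + 1) * (j + 1 + 2) = (n + 1) * (j + 2) + (n + 1) := by ring
      simp only [e]
      omega
  have hA : Alt θ f r (q ∘ ip (fun j => 4 * ((n + 1) * (j + 2) + k) + 2)
      (fun j => 4 * ((n + 1) * (j + 2) + k) + 3)) ((-(1 / (n : ℝ))) • v) := by
    intro j hj m hm1 hm2
    rw [Function.comp_apply, ip_even] at hm1
    rw [Function.comp_apply, ip_odd] at hm2
    have hterm : ∀ i : Fin n, θ ≤ (-1 : ℝ) ^ (j + 1) * f m (if (i : ℕ) < k then u i else - u i) := by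
      intro i
      have hi := i.2
      split_ifs with hik
      · apply hu1 i (j + 1) (by omega) m
        · rw [Function.comp_apply, ip_even]
          refine le_trans (hq.monotone ?_) hm1
          have e : (n + 1) * (j + 1 + 1) = (n + 1) * (j + 2) := by ring
          simp only [e]
          omega
        · rw [Function.comp_apply, ip_odd]
          refine le_trans hm2 (hq.monotone ?_)
          have e : (n + 1) * (j + 1 + 2) = (n + 1) * (j + 2) + (n + 1) := by ring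
          simp only [e]
          omega
      · have h1 : θ ≤ (-1 : ℝ) ^ j * f m (u i) := by
          apply hu1 i j (by omega) m
          · rw [Function.comp_apply, ip_even]
            refine le_trans (hq.monotone ?_) hm1
            have e : (n + 1) * (j + 2) = (n + 1) * (j + 1) + (n + 1) := by ring
            simp only [e]
            omega
          · rw [Function.comp_apply, ip_odd]
            refine le_trans hm2 (hq.monotone ?_)
            omega
        rw [map_neg, pow_succ]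
        linarith
    have h6 : (-1 : ℝ) ^ j * f m ((-(1 / (n : ℝ))) • v) =
        (1 / (n : ℝ)) * ∑ i : Fin n,
          (-1 : ℝ) ^ (j + 1) * f m (if (i : ℕ) < k then u i else - u i) := by
      rw [map_smul, hv, map_sum, ← Finset.mul_sum, smul_eq_mul, pow_succ]
      ring
    rw [h6]
    have h7 : ∑ _i : Fin n, θ ≤ ∑ i : Fin n,
        (-1 : ℝ) ^ (j + 1) * f m (if (i : ℕ) < k then u i else - u i) :=
      Finset.sum_le_sum fun i _ => hterm i
    rw [Finset.sum_const, Finset.card_univ, Fintype.card_fin, nsmul_eq_mul] at h7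
    calc θ = (1 / (n : ℝ)) * (n * θ) := by field_simp
      _ ≤ _ := mul_le_mul_of_nonneg_left h7 (by positivity)
  have h8 := (hb _ hQ).trans (h4 r _ _ hA)
  rw [norm_smul, norm_neg, Real.norm_eq_abs, abs_of_pos (by positivity)] at h8
  calc (n : ℝ) * b ≤ n * (1 / (n : ℝ) * ‖v‖) := mul_le_mul_of_nonneg_left h8 hn0.le
    _ = ‖v‖ := by field_simp

lemma grow (θ s : ℝ) (hθ : 0 < θ) (hs : 0 < s) : ∃ m : ℕ, 1 ≤ m ∧
    2 * ((m : ℝ) + 1) + 1 < (1 + s) ^ m * (θ / 2) := by
  have h1 := tendsto_pow_const_div_const_pow_of_one_lt 1 (show (1 : ℝ) < 1 + s by linarith)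
  have h2 : ∀ᶠ m : ℕ in atTop, (m : ℝ) ^ 1 / (1 + s) ^ m < θ / 12 :=
    h1.eventually_lt_const (by positivity)
  obtain ⟨m, h3, h4⟩ := (h2.and (eventually_ge_atTop 1)).exists
  refine ⟨m, h4, ?_⟩
  have h5 : (0 : ℝ) < (1 + s) ^ m := by positivity
  rw [div_lt_iff₀ h5, pow_one] at h3
  have h6 : (1 : ℝ) ≤ m := by exact_mod_cast h4
  nlinarith

/-- a ratio near one -/
lemma ratio (κ : ℕ → ℝ) (θ s : ℝ) (hs : 0 < s) (m : ℕ)
    (hm : 2 * ((m : ℝ) + 1) + 1 < (1 + s) ^ m * (θ / 2)) (h1 : θ / 2 ≤ κ 1)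
    (h2 : κ (m + 1) ≤ 2 * ((m : ℝ) + 1) + 1) :
    ∃ r : ℕ, 1 ≤ r ∧ r + 1 ≤ m + 1 ∧ κ (r + 1) ≤ (1 + s) * κ r := by
  by_contra hcon
  push Not at hcon
  have key : ∀ t : ℕ, t ≤ m → (1 + s) ^ t * (θ / 2) ≤ κ (t + 1) := by
    intro t
    induction t with
    | zero => intro _; simpa using h1
    | succ t ih =>
      intro ht
      have h3 := ih (by omega)
      have h4 := hcon (t + 1) (by omega) (by omega)
      have h5 : (1 + s) * ((1 + s) ^ t * (θ / 2)) ≤ (1 + s) * κ (t + 1) :=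
        mul_le_mul_of_nonneg_left h3 (by linarith)
      calc (1 + s) ^ (t + 1) * (θ / 2) = (1 + s) * ((1 + s) ^ t * (θ / 2)) := by ring
        _ ≤ (1 + s) * κ (t + 1) := h5
        _ ≤ κ (t + 1 + 1) := h4.le
  have := key m le_rfl
  linarith

end JPM

open JPM in
theorem jpm : S_JPM := by
  intro hJ hR E _ _ θ x f hx n δ hδ
  obtain ⟨μ, m1, m2, m3, m4, m5⟩ := hJ E θ x f hx
  have hθ : 0 < θ := hx.1
  rcases Nat.eq_zero_or_pos n with hn | hn
  · subst hn
    refine ⟨fun i => i.elim0, fun i => i.elim0, fun k _ => ?_⟩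
    simp
    exact hδ.le
  have hn0 : (0 : ℝ) < n := by exact_mod_cast hn
  obtain ⟨d, hd⟩ : ∃ d, d = δ / n := ⟨_, rfl⟩
  have hd0 : 0 < d := by rw [hd]; positivity
  obtain ⟨m, hm1, hm2⟩ := grow θ (d / 2) hθ (by positivity)
  obtain ⟨ε, hε⟩ : ∃ ε, ε = min 1 (min (θ / 2) (θ * d / 12)) := ⟨_, rfl⟩
  have e0 : 0 < ε := by rw [hε]; positivity
  have e1 : ε ≤ 1 := hε ▸ min_le_left _ _
  have e2 : ε ≤ θ / 2 := hε ▸ (min_le_right _ _).trans (min_le_left _ _)
  have e3 : ε ≤ θ * d / 12 := hε ▸ (min_le_right _ _).trans (min_le_right _ _)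
  obtain ⟨q, κ, hq, hκ⟩ := hR μ (m + 1) ε e0 m1 m3
  have lowκ : ∀ r, 1 ≤ r → r ≤ m + 1 → θ / 2 ≤ κ r := by
    intro r hr hr'
    have h1 := (abs_le.mp (hκ r hr' id strictMono_id)).2
    have h2 := m2 r (q ∘ id) hr (hq.comp strictMono_id)
    linarith
  have hκm : κ (m + 1) ≤ 2 * ((m : ℝ) + 1) + 1 := by
    have h1 := (abs_le.mp (hκ (m + 1) le_rfl id strictMono_id)).1
    have h2 := (m1 (m + 1) (q ∘ id) (hq.comp strictMono_id)).2
    push_cast at h2
    linarith
  obtain ⟨r, hr1, hr2, hr3⟩ := ratio κ θ (d / 2) (by positivity) m hm2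
    (lowκ 1 le_rfl (by omega)) hκm
  have hA := lowκ r hr1 (by omega)
  have hB := lowκ (r + 1) (by omega) hr2
  obtain ⟨u, hu1, hu2⟩ := core θ f μ m4 m5 q hq r n hn (κ (r + 1) + ε) (κ r - ε) ε e0
    (fun p hp => by
      have := (abs_le.mp (hκ (r + 1) hr2 p hp)).2
      linarith)
    (fun p hp => by
      have := (abs_le.mp (hκ r (by omega) p hp)).1
      linarith)
  obtain ⟨N, hN⟩ : ∃ N, N = κ (r + 1) + ε + ε := ⟨_, rfl⟩
  have hN0 : 0 < N := by rw [hN]; linarith
  refine ⟨fun i => (1 / N) • u i, ?_, ?_⟩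
  · intro i
    rw [norm_smul, Real.norm_eq_abs, abs_of_pos (by positivity), one_div, inv_mul_le_iff₀ hN0,
      mul_one, hN]
    exact hu1 i
  · intro k hk
    have h1 : (∑ i : Fin n, if (i : ℕ) < k then (1 / N) • u i else - ((1 / N) • u i)) =
        (1 / N) • ∑ i : Fin n, if (i : ℕ) < k then u i else - u i := by
      rw [Finset.smul_sum]
      refine Finset.sum_congr rfl fun i _ => ?_
      split_ifs
      · rfl
      · rw [smul_neg]
    rw [h1, norm_smul, Real.norm_eq_abs, abs_of_pos (by positivity)]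
    have h2 := hu2 k hk
    have h3 : (1 - d) * N ≤ κ r - ε := by
      have h4 : N ≤ (1 + d / 2) * κ r + 2 * ε := by rw [hN]; linarith
      have h5 : θ / 2 * (d / 2) ≤ κ r * (d / 2) := mul_le_mul_of_nonneg_right hA (by positivity)
      rcases le_or_gt d 1 with h6 | h6
      · have h7 : (1 - d) * N ≤ (1 - d) * ((1 + d / 2) * κ r + 2 * ε) :=
          mul_le_mul_of_nonneg_left h4 (by linarith)
        nlinarith [mul_pos hd0 e0, mul_nonneg (mul_nonneg hd0.le hd0.le)
          (le_trans (by positivity) hA : (0 : ℝ) ≤ κ r)]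
      · have h7 : (1 - d) * N ≤ 0 := mul_nonpos_of_nonpos_of_nonneg (by linarith) hN0.le
        linarith
    have h9 : δ = d * n := by rw [hd]; field_simp
    calc (n : ℝ) - δ = n * (1 - d) := by rw [h9]; ring
      _ = (1 / N) * (n * ((1 - d) * N)) := by field_simp
      _ ≤ (1 / N) * (n * (κ r - ε)) := by
          refine mul_le_mul_of_nonneg_left ?_ (by positivity)
          exact mul_le_mul_of_nonneg_left h3 hn0.le
      _ ≤ _ := mul_le_mul_of_nonneg_left h2 (by positivity)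

theorem JPM_main : S_JPM := jpm

end Pool.Agent.H65.BM
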