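import Pool.Agent.H65.BM.S6
import Pool.Agent.H65.BM.L.Helper176.LJBall

set_option autoImplicit false

namespace Pool.Agent.H65.BM

namespace JSaux

open Set Topology

variable {E : Type} [NormedAddCommGroup E] [NormedSpace ℝ E]

/-- distance: a vector at positive distance from a complete subspace -/
lemma exists_far_abs {G : Type} [NormedAddCommGroup G] [NormedSpace ℝ G] [CompleteSpace E]
    (J : E →L[ℝ] G) (hiso : Isometry J) (h : ¬ Function.Surjective J) :
    ∃ (ψ : G) (θ : ℝ), 0 < θ ∧ ‖ψ‖ ≤ 1 / 2 ∧ ∀ e : E, θ < ‖ψ - J e‖ := by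
  rw [Function.Surjective] at h
  push Not at h
  obtain ⟨ψ₀, hψ₀⟩ := h
  have hcl : IsClosed (range J) := hiso.isClosedEmbedding.isClosed_range
  have hnot : ψ₀ ∉ range J := by
    rintro ⟨a, ha⟩
    exact hψ₀ a ha
  have hopen : IsOpen (range J)ᶜ := hcl.isOpen_compl
  obtain ⟨δ, hδ, hb⟩ := Metric.isOpen_iff.1 hopen ψ₀ hnot
  have hfar : ∀ e, δ ≤ ‖ψ₀ - J e‖ := by
    intro e
    by_contra hcon
    push Not at hcon
    have : J e ∈ Metric.ball ψ₀ δ := by
      rw [Metric.mem_ball, dist_comm, dist_eq_norm]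
      exact hcon
    exact hb this ⟨e, rfl⟩
  -- scale
  set c : ℝ := 1 / (2 * (‖ψ₀‖ + 1)) with hc
  have hn : 0 ≤ ‖ψ₀‖ := norm_nonneg _
  have hcpos : 0 < c := by positivity
  refine ⟨c • ψ₀, c * δ / 2, by positivity, ?_, ?_⟩
  · rw [norm_smul, Real.norm_of_nonneg hcpos.le, hc, div_mul_eq_mul_div, one_mul,
      div_le_div_iff₀ (by positivity) (by norm_num)]
    linarith
  · intro e
    have h1 : c • ψ₀ - J e = c • (ψ₀ - J (c⁻¹ • e)) := by
      rw [smul_sub, map_smul, smul_smul, mul_inv_cancel₀ hcpos.ne', one_smul]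
    rw [h1, norm_smul, Real.norm_of_nonneg hcpos.le]
    have := mul_le_mul_of_nonneg_left (hfar (c⁻¹ • e)) hcpos.le
    have h3 : 0 < c * δ := by positivity
    linarith

/-- a functional at positive distance from the canonical image -/
lemma exists_far [CompleteSpace E]
    (h : ¬ Function.Surjective (NormedSpace.inclusionInDoubleDual ℝ E)) :
    ∃ (ψ : StrongDual ℝ (StrongDual ℝ E)) (θ : ℝ), 0 < θ ∧ ‖ψ‖ ≤ 1 / 2 ∧
      ∀ e : E, θ < ‖ψ - NormedSpace.inclusionInDoubleDual ℝ E e‖ := by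
  obtain ⟨ψ, θ, h1, h2, h3⟩ := exists_far_abs (G := StrongDual ℝ (StrongDual ℝ E))
    (NormedSpace.inclusionInDoubleDual ℝ E)
    (NormedSpace.inclusionInDoubleDualLi ℝ (E := E)).isometry h
  exact ⟨ψ, θ, h1, h2, h3⟩

/-- choice of the functional, abstractly -/
lemma exists_f_abs {V : Type} [NormedAddCommGroup V] [NormedSpace ℝ V] {ι : Type} [Finite ι]
    (ψ : StrongDual ℝ V) (θ : ℝ) (hθ : 0 < θ) (L : ι → StrongDual ℝ V)
    (hfar : ∀ K ∈ Submodule.span ℝ (range L), θ < ‖ψ - K‖) :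
    ∃ f : V, ‖f‖ ≤ 1 ∧ ψ f = θ ∧ ∀ i, L i f = 0 := by
  classical
  let L' : ι → V →ₗ[ℝ] ℝ := fun i => (L i).toLinearMap
  let W : Submodule ℝ V := ⨅ i, LinearMap.ker (L' i)
  have hW : ∀ f : V, f ∈ W ↔ ∀ i, L i f = 0 := by
    intro f
    simp only [W, Submodule.mem_iInf, LinearMap.mem_ker]
    exact Iff.rfl
  by_cases hall : ∀ f ∈ W, |ψ f| ≤ θ * ‖f‖
  · exfalso
    let g : StrongDual ℝ W := ψ.comp W.subtypeL
    have hg : ‖g‖ ≤ θ := by
      refine ContinuousLinearMap.opNorm_le_bound _ hθ.le fun w => ?_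
      exact hall w.1 w.2
    obtain ⟨ψ', h1, h2⟩ := exists_extension_norm_eq W g
    have h3 : (⨅ i, LinearMap.ker (L' i)) ≤ LinearMap.ker (ψ - ψ').toLinearMap := by
      intro w hw
      have := h1 ⟨w, hw⟩
      rw [LinearMap.mem_ker]
      show ψ w - ψ' w = 0
      have h4 : g ⟨w, hw⟩ = ψ w := rfl
      rw [h4] at this
      rw [← this]
      exact sub_self _
    have h5 := mem_span_of_iInf_ker_le_ker h3
    have h6 : ∀ K ∈ Submodule.span ℝ (range L'), ∃ K' ∈ Submodule.span ℝ (range L),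
        K = K'.toLinearMap := by
      intro K hK
      induction hK using Submodule.span_induction with
      | mem K hK =>
        obtain ⟨i, rfl⟩ := hK
        exact ⟨L i, Submodule.subset_span ⟨i, rfl⟩, rfl⟩
      | zero => exact ⟨0, Submodule.zero_mem _, rfl⟩
      | add K K' _ _ hK hK' =>
        obtain ⟨e, he, rfl⟩ := hK
        obtain ⟨e', he', rfl⟩ := hK'
        exact ⟨e + e', Submodule.add_mem _ he he', rfl⟩
      | smul a K _ hK =>
        obtain ⟨e, he, rfl⟩ := hK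
        exact ⟨a • e, Submodule.smul_mem _ _ he, rfl⟩
    obtain ⟨K', hK', he⟩ := h6 _ h5
    have h7 : ψ - K' = ψ' := by
      ext w
      have := LinearMap.congr_fun he w
      have h8 : ψ w - ψ' w = K' w := this
      show ψ w - K' w = ψ' w
      linarith
    have h9 := hfar K' hK'
    rw [h7, h2] at h9
    linarith
  · push Not at hall
    obtain ⟨f, hfW, hf⟩ := hall
    have hpos : 0 < |ψ f| := lt_of_le_of_lt (by positivity) hf
    have hne : ψ f ≠ 0 := abs_pos.1 hpos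
    refine ⟨(θ / ψ f) • f, ?_, ?_, ?_⟩
    · rw [norm_smul, Real.norm_eq_abs, abs_div, abs_of_pos hθ, div_mul_eq_mul_div,
        div_le_one hpos]
      exact hf.le
    · rw [map_smul, smul_eq_mul, div_mul_cancel₀ _ hne]
    · intro i
      have := (hW f).1 hfW i
      rw [map_smul, this, smul_zero]

/-- choice of the functional -/
lemma exists_f (ψ : StrongDual ℝ (StrongDual ℝ E)) (θ : ℝ) (hθ : 0 < θ)
    (hfar : ∀ e : E, θ < ‖ψ - NormedSpace.inclusionInDoubleDual ℝ E e‖) (X : Finset E) :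
    ∃ f : StrongDual ℝ E, ‖f‖ ≤ 1 ∧ ψ f = θ ∧ ∀ e ∈ X, f e = 0 := by
  classical
  let L : X → StrongDual ℝ (StrongDual ℝ E) :=
    fun e => NormedSpace.inclusionInDoubleDual ℝ E (e : E)
  have h6 : ∀ K ∈ Submodule.span ℝ (range L), ∃ e : E,
      K = NormedSpace.inclusionInDoubleDual ℝ E e := by
    intro K hK
    induction hK using Submodule.span_induction with
    | mem K hK =>
      obtain ⟨i, rfl⟩ := hK
      exact ⟨i, rfl⟩
    | zero => exact ⟨0, by rw [map_zero]⟩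
    | add K K' _ _ hK hK' =>
      obtain ⟨e, rfl⟩ := hK
      obtain ⟨e', rfl⟩ := hK'
      exact ⟨e + e', by rw [map_add]⟩
    | smul a K _ hK =>
      obtain ⟨e, rfl⟩ := hK
      exact ⟨a • e, by rw [map_smul]⟩
  obtain ⟨f, h1, h2, h3⟩ := exists_f_abs ψ θ hθ L (by
    intro K hK
    obtain ⟨e, rfl⟩ := h6 K hK
    exact hfar e)
  exact ⟨f, h1, h2, fun e he => h3 ⟨e, he⟩⟩

lemma two_smul_le {G : Type} [NormedAddCommGroup G] [NormedSpace ℝ G] (ψ : G)
    (h : ‖ψ‖ ≤ 1 / 2) : ‖(2 : ℝ) • ψ‖ ≤ 1 := by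
  rw [norm_smul, Real.norm_of_nonneg (by norm_num : (0 : ℝ) ≤ 2)]
  linarith

/-- exact Helly with a slack in the norm -/
lemma exists_x [CompleteSpace E] (ψ : StrongDual ℝ (StrongDual ℝ E)) (hψ : ‖ψ‖ ≤ 1 / 2)
    (S : Finset (StrongDual ℝ E)) : ∃ x : E, ‖x‖ ≤ 1 ∧ ∀ φ ∈ S, φ x = ψ φ := by
  classical
  let Tm : E →L[ℝ] (S → ℝ) := ContinuousLinearMap.pi fun φ => (φ : StrongDual ℝ E)
  let R : Submodule ℝ (S → ℝ) := LinearMap.range Tm.toLinearMap
  let T' : E →L[ℝ] R := Tm.codRestrict R fun x => ⟨x, rfl⟩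
  have hsurj : Function.Surjective T' := by
    rintro ⟨y, x, hx⟩
    exact ⟨x, Subtype.ext hx⟩
  obtain ⟨C, hC, hpre⟩ := T'.exists_preimage_norm_le hsurj
  set p : S → ℝ := fun φ => ψ φ with hp
  have happ : ∀ ε : ℝ, 0 < ε → ∃ y : E, ‖y‖ ≤ 1 / 2 ∧ ‖p - Tm y‖ < ε := by
    intro ε hε
    have h2 : ‖(2 : ℝ) • ψ‖ ≤ 1 := two_smul_le ψ hψ
    obtain ⟨y, hy, hys⟩ := Pool.Agent.Helper176.LJ.helly ((2 : ℝ) • ψ) h2 S hε
    refine ⟨(1 / 2 : ℝ) • y, ?_, ?_⟩
    · rw [norm_smul, Real.norm_of_nonneg (by norm_num : (0 : ℝ) ≤ 1 / 2)]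
      linarith
    · rw [pi_norm_lt_iff hε]
      intro φ
      have h3 := hys φ.1 φ.2
      have h4 : (p - Tm ((1 / 2 : ℝ) • y)) φ = ψ φ - (1 / 2) * (φ : StrongDual ℝ E) y := by
        rw [Pi.sub_apply]
        show ψ φ - (φ : StrongDual ℝ E) ((1 / 2 : ℝ) • y) = _
        rw [map_smul, smul_eq_mul]
      have h5 : ((2 : ℝ) • ψ) (φ : StrongDual ℝ E) = 2 * ψ φ := rfl
      rw [h5] at h3
      rw [h4, Real.norm_eq_abs]
      have h6 : ψ φ - (1 / 2) * (φ : StrongDual ℝ E) y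
          = -(1 / 2) * ((φ : StrongDual ℝ E) y - 2 * ψ φ) := by ring
      rw [h6, abs_mul]
      have h7 : |(-(1 / 2) : ℝ)| = 1 / 2 := by norm_num
      rw [h7]
      have h8 := abs_nonneg ((φ : StrongDual ℝ E) y - 2 * ψ φ)
      linarith
  have hpR : p ∈ R := by
    have hcl : IsClosed (R : Set (S → ℝ)) := R.closed_of_finiteDimensional
    rw [← SetLike.mem_coe, ← hcl.closure_eq, Metric.mem_closure_iff]
    intro ε hε
    obtain ⟨y, _, hy⟩ := happ ε hε
    exact ⟨Tm y, ⟨y, rfl⟩, by rw [dist_eq_norm]; exact hy⟩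
  obtain ⟨y, hy, hyp⟩ := happ (1 / (2 * C)) (by positivity)
  have hd : p - Tm y ∈ R := R.sub_mem hpR ⟨y, rfl⟩
  obtain ⟨z, hz, hzn⟩ := hpre ⟨p - Tm y, hd⟩
  have hz' : Tm z = p - Tm y := congrArg Subtype.val hz
  refine ⟨y + z, ?_, ?_⟩
  · have h1 : ‖(⟨p - Tm y, hd⟩ : R)‖ = ‖p - Tm y‖ := rfl
    rw [h1] at hzn
    have h2 : C * ‖p - Tm y‖ ≤ C * (1 / (2 * C)) := mul_le_mul_of_nonneg_left hyp.le hC.le
    have h3 : C * (1 / (2 * C)) = 1 / 2 := by field_simp
    have h4 := norm_add_le y z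
    linarith
  · intro φ hφ
    have h1 : Tm (y + z) = p := by rw [map_add, hz']; abel
    exact congrFun h1 ⟨φ, hφ⟩

end JSaux

open JSaux in
theorem js : S_JS := by
  classical
  intro E _ _ _ hns
  obtain ⟨ψ, θ, hθ, hψ, hfar⟩ := exists_far hns
  choose F hF1 hF2 hF3 using exists_f ψ θ hθ hfar
  choose G hG1 hG2 using exists_x ψ hψ
  let st : ℕ → Finset E × Finset (StrongDual ℝ E) := fun n =>
    Nat.rec (∅, ∅) (fun _ s => (insert (G (insert (F s.1) s.2)) s.1, insert (F s.1) s.2)) n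
  have hst : ∀ n, st (n + 1) = (insert (G (insert (F (st n).1) (st n).2)) (st n).1,
    insert (F (st n).1) (st n).2) := fun n => rfl
  have hm1 : Monotone fun n => (st n).1 := by
    refine monotone_nat_of_le_succ fun n => ?_
    show (st n).1 ⊆ (st (n + 1)).1
    rw [hst]
    exact Finset.subset_insert _ _
  have hm2 : Monotone fun n => (st n).2 := by
    refine monotone_nat_of_le_succ fun n => ?_
    show (st n).2 ⊆ (st (n + 1)).2
    rw [hst]
    exact Finset.subset_insert _ _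
  refine ⟨θ, fun n => G (st (n + 1)).2, fun n => F (st n).1, hθ, fun m => hG1 _,
    fun n => hF1 _, ?_, ?_⟩
  · intro m n hnm
    show F (st n).1 (G (st (m + 1)).2) = θ
    have h1 : F (st n).1 ∈ (st (n + 1)).2 := by
      rw [hst]
      exact Finset.mem_insert_self _ _
    have h2 : F (st n).1 ∈ (st (m + 1)).2 := hm2 (Nat.succ_le_succ hnm) h1
    rw [hG2 _ _ h2, hF2]
  · intro m n hmn
    show F (st n).1 (G (st (m + 1)).2) = 0
    have h1 : G (st (m + 1)).2 ∈ (st (m + 1)).1 := by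
      have h0 : (st (m + 1)).1 = insert (G (st (m + 1)).2) (st m).1 := by
        rw [hst]
      rw [h0]
      exact Finset.mem_insert_self _ _
    exact hF3 _ _ (hm1 (Nat.succ_le_of_lt hmn) h1)

end Pool.Agent.H65.BM
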