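import Pool.Agent.H65.BM.S5

/-!
# Project BM5, stub LOM: Lomonosov's theorem (from Schauder's fixed point theorem)
-/

set_option autoImplicit false

namespace Pool.Agent.H65.BM

open Filter Topology

namespace LOM

variable {Y : Type} [NormedAddCommGroup Y] [NormedSpace ℝ Y]

/-- the weights -/
noncomputable def lmw (y₁ : Y) (r : ℝ) (a : Y →L[ℝ] Y) (u : Y) : ℝ := max 0 (r - ‖a u - y₁‖)

theorem lmw_nonneg (y₁ : Y) (r : ℝ) (a : Y →L[ℝ] Y) (u : Y) : 0 ≤ lmw y₁ r a u := le_max_left _ _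

theorem lmw_cont (y₁ : Y) (r : ℝ) (a : Y →L[ℝ] Y) : Continuous (lmw y₁ r a) := by
  unfold lmw
  fun_prop

theorem lmw_pos {y₁ : Y} {r : ℝ} {a : Y →L[ℝ] Y} {u : Y} (h : ‖a u - y₁‖ < r) :
    0 < lmw y₁ r a u := lt_max_of_lt_right (by linarith)

theorem lmw_mul {y₁ : Y} {r : ℝ} {a : Y →L[ℝ] Y} {u : Y} :
    lmw y₁ r a u * ‖a u - y₁‖ ≤ lmw y₁ r a u * r := by
  unfold lmw
  rcases le_total (r - ‖a u - y₁‖) 0 with h | h
  · rw [max_eq_left h]; simp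
  · rw [max_eq_right h]
    exact mul_le_mul_of_nonneg_left (by linarith) h

/-- the sum of the weights -/
noncomputable def lms (F : Finset (Y →L[ℝ] Y)) (y₁ : Y) (r : ℝ) (u : Y) : ℝ :=
  ∑ a ∈ F, lmw y₁ r a u

theorem lms_cont (F : Finset (Y →L[ℝ] Y)) (y₁ : Y) (r : ℝ) : Continuous (lms F y₁ r) :=
  continuous_finsetSum _ fun a _ => lmw_cont y₁ r a

theorem lms_pos {F : Finset (Y →L[ℝ] Y)} {y₁ : Y} {r : ℝ} {u : Y}
    (h : ∃ a ∈ F, ‖a u - y₁‖ < r) : 0 < lms F y₁ r u := by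
  obtain ⟨a, ha, h⟩ := h
  exact Finset.sum_pos' (fun b _ => lmw_nonneg y₁ r b u) ⟨a, ha, lmw_pos h⟩

/-- the averaging map -/
noncomputable def lmp (F : Finset (Y →L[ℝ] Y)) (y₁ : Y) (r : ℝ) (u : Y) : Y :=
  ∑ a ∈ F, (lmw y₁ r a u / lms F y₁ r u) • a u

theorem lmp_cont (F : Finset (Y →L[ℝ] Y)) (y₁ : Y) (r : ℝ) (D : Set Y)
    (h : ∀ u ∈ D, ∃ a ∈ F, ‖a u - y₁‖ < r) : ContinuousOn (lmp F y₁ r) D := by
  unfold lmp
  refine continuousOn_finsetSum _ fun a _ => ContinuousOn.smul ?_ a.continuous.continuousOn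
  exact (lmw_cont y₁ r a).continuousOn.div (lms_cont F y₁ r).continuousOn
    fun u hu => (lms_pos (h u hu)).ne'

theorem lmp_mem {F : Finset (Y →L[ℝ] Y)} {y₁ : Y} {r : ℝ} {u : Y}
    (h : ∃ a ∈ F, ‖a u - y₁‖ < r) : lmp F y₁ r u ∈ Metric.closedBall y₁ r := by
  have hs := lms_pos h
  rw [mem_closedBall_iff_norm]
  have h1 : ∑ a ∈ F, (lmw y₁ r a u / lms F y₁ r u) = 1 := by
    rw [← Finset.sum_div]
    exact div_self hs.ne'
  have h2 : lmp F y₁ r u - y₁ = ∑ a ∈ F, (lmw y₁ r a u / lms F y₁ r u) • (a u - y₁) := by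
    simp only [smul_sub, Finset.sum_sub_distrib, ← Finset.sum_smul, h1, one_smul]
    rfl
  rw [h2]
  calc ‖∑ a ∈ F, (lmw y₁ r a u / lms F y₁ r u) • (a u - y₁)‖
      ≤ ∑ a ∈ F, ‖(lmw y₁ r a u / lms F y₁ r u) • (a u - y₁)‖ := norm_sum_le _ _
    _ ≤ ∑ a ∈ F, (lmw y₁ r a u / lms F y₁ r u) * r := by
        refine Finset.sum_le_sum fun a _ => ?_
        rw [norm_smul, Real.norm_of_nonneg (div_nonneg (lmw_nonneg _ _ _ _) hs.le),
          div_mul_eq_mul_div, div_mul_eq_mul_div]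
        exact div_le_div_of_nonneg_right lmw_mul hs.le
    _ = r := by rw [← Finset.sum_mul, h1, one_mul]

theorem lm_exists_finset (𝒜 : Submodule ℝ (Y →L[ℝ] Y)) (y₁ : Y) (r : ℝ) (hr : 0 < r) (C : Set Y)
    (hC : IsCompact C) (h0 : (0 : Y) ∉ C)
    (h : ∀ y : Y, y ≠ 0 → ∀ z : Y, ∀ ε : ℝ, 0 < ε → ∃ a ∈ 𝒜, ‖a y - z‖ < ε) :
    ∃ F : Finset (Y →L[ℝ] Y), (∀ a ∈ F, a ∈ 𝒜) ∧ ∀ u ∈ C, ∃ a ∈ F, ‖a u - y₁‖ < r := by
  classical
  obtain ⟨t, ht⟩ := hC.elim_finite_subcover (fun a : 𝒜 => {u : Y | ‖(a : Y →L[ℝ] Y) u - y₁‖ < r})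
    (fun a => isOpen_lt (by fun_prop) continuous_const)
    (fun u hu => by
      obtain ⟨a, ha, h1⟩ := h u (fun h2 => h0 (h2 ▸ hu)) y₁ r hr
      exact Set.mem_iUnion.2 ⟨⟨a, ha⟩, h1⟩)
  refine ⟨t.image (Subtype.val : 𝒜 → (Y →L[ℝ] Y)), ?_, ?_⟩
  · intro a ha
    obtain ⟨b, -, rfl⟩ := Finset.mem_image.1 ha
    exact b.2
  · intro u hu
    obtain ⟨a, ha, h1⟩ := Set.mem_iUnion₂.1 (ht hu)
    exact ⟨(a : Y →L[ℝ] Y), Finset.mem_image_of_mem _ ha, h1⟩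

end LOM

open LOM in
theorem lom : S_LOM := by
  intro hSFP Y _ _ _ _ 𝒜 hmul hcpt hdens
  classical
  obtain ⟨y₁, hy₁⟩ := exists_ne (0 : Y)
  have hy₁' : 0 < ‖y₁‖ := norm_pos_iff.2 hy₁
  obtain ⟨K, hK, hK1⟩ := hdens y₁ hy₁ y₁ ‖y₁‖ hy₁'
  have hKy : K y₁ ≠ 0 := by
    intro h
    rw [h, zero_sub, norm_neg] at hK1
    exact lt_irrefl _ hK1
  have hKy' : 0 < ‖K y₁‖ := norm_pos_iff.2 hKy
  have hK0 : 0 < ‖K‖ := by
    rcases (norm_nonneg K).eq_or_lt with h | h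
    · exfalso
      have := K.le_opNorm y₁
      rw [← h, zero_mul] at this
      linarith
    · exact h
  set r : ℝ := ‖K y₁‖ / (2 * ‖K‖) with hr
  have hr0 : 0 < r := by positivity
  have hr1 : 2 * ‖K‖ * r = ‖K y₁‖ := by rw [hr]; field_simp
  have hr2 : r < ‖y₁‖ := by
    have h1 := K.le_opNorm y₁
    rw [← hr1] at h1
    have h2 : 2 * r ≤ ‖y₁‖ := by
      by_contra h
      push Not at h
      have := mul_lt_mul_of_pos_left h hK0
      nlinarith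
    linarith
  set B : Set Y := Metric.closedBall y₁ r with hB
  set C₀ : Set Y := closure (K '' B) with hC₀
  have hBb : Bornology.IsBounded B := Metric.isBounded_closedBall
  have hcomp : IsCompact C₀ := (hcpt K hK).isCompact_closure_image_of_isVonNBounded
    (NormedSpace.isVonNBounded_of_isBounded ℝ hBb)
  have h0C : (0 : Y) ∉ C₀ := by
    have hsub : C₀ ⊆ {x : Y | ‖K y₁‖ / 2 ≤ ‖x‖} := by
      refine closure_minimal ?_ (isClosed_le continuous_const continuous_norm)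
      rintro _ ⟨b, hb, rfl⟩
      rw [hB, mem_closedBall_iff_norm] at hb
      have h1 : ‖K (b - y₁)‖ ≤ ‖K‖ * r := (K.le_opNorm _).trans
        (mul_le_mul_of_nonneg_left hb (norm_nonneg _))
      have h2 : ‖K y₁‖ ≤ ‖K b‖ + ‖K (b - y₁)‖ := by
        have : K y₁ = K b - K (b - y₁) := by rw [map_sub]; abel
        rw [this]
        exact norm_sub_le _ _
      show ‖K y₁‖ / 2 ≤ ‖K b‖
      nlinarith
    intro h
    have := hsub h
    change ‖K y₁‖ / 2 ≤ ‖(0 : Y)‖ at this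
    rw [norm_zero] at this
    linarith
  obtain ⟨F, hF, hF1⟩ := lm_exists_finset 𝒜 y₁ r hr0 C₀ hcomp h0C hdens
  have hmem : ∀ y ∈ B, K y ∈ C₀ := fun y hy => subset_closure ⟨y, hy, rfl⟩
  obtain ⟨u, hu, hu1⟩ := hSFP Y y₁ r (fun y => lmp F y₁ r (K y)) (lmp F y₁ r '' C₀) hr0
    ((lmp_cont F y₁ r C₀ hF1).comp K.continuous.continuousOn hmem)
    (fun y hy => lmp_mem (hF1 _ (hmem y hy)))
    (hcomp.image_of_continuousOn (lmp_cont F y₁ r C₀ hF1))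
    (fun y hy => ⟨K y, hmem y hy, rfl⟩)
  refine ⟨∑ a ∈ F, (lmw y₁ r a (K u) / lms F y₁ r (K u)) • a.comp K, ?_, u, ?_, ?_⟩
  · exact 𝒜.sum_mem fun a ha => 𝒜.smul_mem _ (hmul a (hF a ha) K hK)
  · rintro rfl
    rw [mem_closedBall_iff_norm, zero_sub, norm_neg] at hu
    linarith
  · have h3 : lmp F y₁ r (K u) = u := hu1
    rw [sum_apply]
    exact h3

end Pool.Agent.H65.BM
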