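import Pool.Agent.H65.BM.S4

/-!
# BM4-LPD: uniform irreducibility passes to the dual
-/

set_option autoImplicit false

namespace Pool.Agent.H65.BM

open Pool.Agent.N314.OP Pool.Agent.N314.OP.Mod

namespace LPDAux

variable {E : Type} [NormedAddCommGroup E] [NormedSpace ℝ E]

/-- composition with the inverse of an isometry -/
noncomputable def du (T : E ≃ₗᵢ[ℝ] E) : StrongDual ℝ E ≃ₗᵢ[ℝ] StrongDual ℝ E where
  toFun f := f.comp (T.symm.toContinuousLinearEquiv : E →L[ℝ] E)
  invFun f := f.comp (T.toContinuousLinearEquiv : E →L[ℝ] E)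
  left_inv f := by ext x; simp
  right_inv f := by ext x; simp
  map_add' f g := by ext x; simp
  map_smul' c f := by ext x; simp
  norm_map' f := by
    apply le_antisymm
    · refine ContinuousLinearMap.opNorm_le_bound _ (norm_nonneg _) fun x => ?_
      have h := f.le_opNorm (T.symm x)
      rw [T.symm.norm_map] at h
      exact h
    · refine ContinuousLinearMap.opNorm_le_bound _ (norm_nonneg _) fun x => ?_
      have h := (f.comp (T.symm.toContinuousLinearEquiv : E →L[ℝ] E)).le_opNorm (T x)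
      rw [T.norm_map] at h
      simpa using h

theorem du_apply (T : E ≃ₗᵢ[ℝ] E) (f : StrongDual ℝ E) (x : E) : du T f x = f (T.symm x) := rfl

theorem du_symm_apply (T : E ≃ₗᵢ[ℝ] E) (f : StrongDual ℝ E) (x : E) :
    (du T).symm f x = f (T x) := rfl

theorem adj_apply (K : E →L[ℝ] E) (f : StrongDual ℝ E) (x : E) : adj K f x = f (K x) := rfl

theorem wd_append (K : E →L[ℝ] E) (l l₂ : List (E ≃ₗᵢ[ℝ] E)) (z : E) :
    wd K (l ++ l₂) z = wd K l (wd K l₂ z) := by
  induction l with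
  | nil => rfl
  | cons g l ih =>
    show wd K (l ++ l₂) z - g (K (g.symm (wd K (l ++ l₂) z))) = _
    rw [ih]
    rfl

theorem dual_word (K : E →L[ℝ] E) (l : List (E ≃ₗᵢ[ℝ] E)) :
    ∀ φ : StrongDual ℝ E, ∃ l' : List (StrongDual ℝ E ≃ₗᵢ[ℝ] StrongDual ℝ E),
      ∀ z : E, (wd (adj K) l' φ) z = φ (wd K l z) := by
  induction l with
  | nil => exact fun φ => ⟨[], fun z => rfl⟩
  | cons g l ih =>
    intro φ
    obtain ⟨l', h⟩ := ih (wd (adj K) [du g] φ)
    refine ⟨l' ++ [du g], fun z => ?_⟩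
    rw [wd_append, h z]
    show φ (wd K l z) - φ (g (K (g.symm (wd K l z)))) = φ (wd K l z - g (K (g.symm (wd K l z))))
    rw [map_sub]

end LPDAux

open LPDAux in
/-- uniform irreducibility passes to the dual -/
theorem lpd : S_LPD := by
  intro E _ _ K hs hLP
  obtain ⟨c, hc, h⟩ := hLP
  refine ⟨c, hc, fun φ Ψ hφ hΨ => ?_⟩
  obtain ⟨z, rfl⟩ := hs Ψ
  have hz : ‖z‖ = 1 := by
    have h1 : ‖NormedSpace.inclusionInDoubleDual ℝ E z‖ = ‖z‖ :=
      (NormedSpace.inclusionInDoubleDualLi ℝ (E := E)).norm_map z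
    rw [← h1, hΨ]
  obtain ⟨l, hl⟩ := h z φ hz hφ
  obtain ⟨l', hl'⟩ := dual_word K l φ
  refine ⟨l', ?_⟩
  rw [NormedSpace.dual_def, hl']
  exact hl

end Pool.Agent.H65.BM
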