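import Pool.Agent.H65.BM.S4

/-!
# Project BM: uniform irreducibility of the conjugates of `1 - K` (stub BM4-LPX)

The first part (ultrapower) follows `Pool/Agent/H80/MR/ULTRA.lean` (helper80).
-/

set_option autoImplicit false

namespace Pool.Agent.H65.BM

namespace LPXA

open Filter Topology Pool.Agent.N314.OP

/-- the free ultrafilter on `ℕ` -/
noncomputable abbrev U : Filter ℕ := ((hyperfilter ℕ : Ultrafilter ℕ) : Filter ℕ)

/-- bounded sequences -/
abbrev V (E : Type) [NormedAddCommGroup E] : Type := lp (fun _ : ℕ => E) ⊤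

variable {E : Type} [NormedAddCommGroup E] [NormedSpace ℝ E]

omit [NormedSpace ℝ E] in
theorem norm_coe_le (x : V E) (n : ℕ) : ‖x n‖ ≤ ‖x‖ := lp.norm_apply_le_norm (by simp) x n

/-- sequences which tend to zero along the ultrafilter -/
def Z (E : Type) [NormedAddCommGroup E] [NormedSpace ℝ E] : Submodule ℝ (V E) where
  carrier := {x | Tendsto (fun n => ‖x n‖) U (𝓝 0)}
  zero_mem' := by
    simp only [Set.mem_ofPred_eq, lp.coeFn_zero, Pi.zero_apply, norm_zero]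
    exact tendsto_const_nhds
  add_mem' := by
    intro x y hx hy
    simp only [Set.mem_ofPred_eq] at hx hy ⊢
    have h := hx.add hy
    rw [add_zero] at h
    exact squeeze_zero (fun n => norm_nonneg _) (fun n => norm_add_le (x n) (y n)) h
  smul_mem' := by
    intro c x hx
    simp only [Set.mem_ofPred_eq] at hx ⊢
    have h := hx.const_mul ‖c‖
    rw [mul_zero] at h
    refine h.congr (fun n => ?_)
    rw [lp.coeFn_smul, Pi.smul_apply, norm_smul]

theorem mem_Z {x : V E} : x ∈ Z E ↔ Tendsto (fun n => ‖x n‖) U (𝓝 0) := Iff.rfl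

instance isClosed_Z : IsClosed ((Z E : Submodule ℝ (V E)) : Set (V E)) := by
  rw [← isSeqClosed_iff_isClosed]
  intro s x hs hx
  rw [SetLike.mem_coe, mem_Z, Metric.tendsto_nhds]
  intro ε hε
  rw [Metric.tendsto_atTop] at hx
  obtain ⟨N, hN⟩ := hx (ε / 2) (by positivity)
  have h1 := hs N
  rw [SetLike.mem_coe, mem_Z, Metric.tendsto_nhds] at h1
  filter_upwards [h1 (ε / 2) (by positivity)] with n hn
  have h2 := hN N le_rfl
  have h3 : ‖s N n - x n‖ ≤ dist (s N) x := by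
    rw [dist_eq_norm]
    exact norm_coe_le (s N - x) n
  rw [Real.dist_eq, sub_zero, abs_norm] at hn ⊢
  have h4 : ‖x n‖ ≤ ‖s N n‖ + ‖s N n - x n‖ := by
    have h5 := norm_sub_norm_le (x n) (s N n)
    rw [norm_sub_rev] at h5
    linarith
  linarith

/-- the ultrapower -/
abbrev Q (E : Type) [NormedAddCommGroup E] [NormedSpace ℝ E] : Type := V E ⧸ (Z E)

/-- the class of a sequence -/
noncomputable def mk (x : V E) : Q E := Submodule.Quotient.mk x

omit [NormedSpace ℝ E] in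
theorem mem_of_bdd {f : ℕ → E} {C : ℝ} (h : ∀ n, ‖f n‖ ≤ C) : Memℓp (E := fun _ : ℕ => E) f ⊤ :=
  memℓp_infty ⟨C, by rintro _ ⟨n, rfl⟩; exact h n⟩

/-- a bounded sequence as an element of `V` -/
noncomputable def seq (f : ℕ → E) (C : ℝ) (h : ∀ n, ‖f n‖ ≤ C) : V E :=
  ⟨f, mem_of_bdd h⟩

omit [NormedSpace ℝ E] in
theorem seq_apply (f : ℕ → E) (C : ℝ) (h : ∀ n, ‖f n‖ ≤ C) (n : ℕ) : seq f C h n = f n := rfl

theorem mk_eq {x y : V E} (h : Tendsto (fun n => ‖x n - y n‖) U (𝓝 0)) : mk x = mk y := by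
  rw [mk, mk, Submodule.Quotient.eq, mem_Z]
  exact h

theorem of_mk_eq {x y : V E} (h : mk x = mk y) : Tendsto (fun n => ‖x n - y n‖) U (𝓝 0) := by
  rw [mk, mk, Submodule.Quotient.eq, mem_Z] at h
  exact h

theorem tend_norm (x : V E) : Tendsto (fun n => ‖x n‖) U (𝓝 ‖mk x‖) := by
  obtain ⟨L, hL, hL'⟩ := (isCompact_Icc (a := (0 : ℝ)) (b := ‖x‖)).ultrafilter_le_nhds
    ((hyperfilter ℕ).map (fun n => ‖x n‖)) (by
      rw [Filter.le_principal_iff]
      have h0 : ∀ᶠ n in U, ‖x n‖ ∈ Set.Icc 0 ‖x‖ :=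
        Filter.Eventually.of_forall (fun n => ⟨norm_nonneg _, norm_coe_le x n⟩)
      exact h0)
  have hT : Tendsto (fun n => ‖x n‖) U (𝓝 L) := hL'
  have h1 : ‖mk x‖ ≤ L := by
    refine le_of_forall_pos_le_add (fun ε hε => ?_)
    classical
    have hy : ∀ n, ‖(if ‖x n‖ ≤ L + ε then x n else 0 : E)‖ ≤ L + ε := by
      intro n
      split_ifs with h
      · exact h
      · rw [norm_zero]; linarith [hL.1]
    have h2 : mk x = mk (seq _ _ hy) := by
      refine mk_eq ?_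
      have h3 : ∀ᶠ n in U, (fun _ : ℕ => (0 : ℝ)) n = ‖x n - seq _ _ hy n‖ := by
        filter_upwards [hT (Iio_mem_nhds (show L < L + ε by linarith))] with n hn
        rw [seq_apply, if_pos (le_of_lt hn), sub_self, norm_zero]
      exact tendsto_const_nhds.congr' h3
    rw [h2]
    refine le_trans (Submodule.Quotient.norm_mk_le (Z E) _) ?_
    exact lp.norm_le_of_forall_le (by linarith [hL.1]) hy
  have h2 : L ≤ ‖mk x‖ := by
    refine (QuotientAddGroup.le_norm_iff (S := (Z E).toAddSubgroup)).2 (fun y hy => ?_)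
    have h3 : y - x ∈ Z E := by
      have := (Submodule.Quotient.eq (Z E) (x := y) (y := x)).1 hy
      exact this
    rw [mem_Z] at h3
    have h4 : Tendsto (fun n => ‖x n‖ - ‖(y - x) n‖) U (𝓝 (L - 0)) := hT.sub h3
    rw [sub_zero] at h4
    refine le_of_tendsto h4 (Eventually.of_forall (fun n => ?_))
    have h5 : ‖x n‖ ≤ ‖(y - x) n‖ + ‖y n‖ := by
      have : x n = y n - (y - x) n := by
        rw [lp.coeFn_sub, Pi.sub_apply]; abel
      rw [this]
      have h6 := norm_sub_le (y n) ((y - x) n)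
      linarith
    have h6 := norm_coe_le y n
    linarith
  rw [le_antisymm h1 h2]
  exact hT

theorem mk_surj (q : Q E) : ∃ x : V E, mk x = q := Submodule.Quotient.mk_surjective _ q

/-- a bounded sequence of operators acts on the sequences -/
noncomputable def opV (A : ℕ → E →L[ℝ] E) (C : ℝ) (hA : ∀ n, ‖A n‖ ≤ C) :
    V E →ₗ[ℝ] V E where
  toFun x := seq (fun n => A n (x n)) (C * ‖x‖) (fun n => by
    have hC : 0 ≤ C := le_trans (norm_nonneg _) (hA 0)
    exact le_trans ((A n).le_opNorm _) (mul_le_mul (hA n) (norm_coe_le x n) (norm_nonneg _) hC))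
  map_add' x y := by
    ext n
    simp [seq_apply]
  map_smul' c x := by
    ext n
    simp [seq_apply]

theorem opV_apply (A : ℕ → E →L[ℝ] E) (C : ℝ) (hA : ∀ n, ‖A n‖ ≤ C) (x : V E) (n : ℕ) :
    opV A C hA x n = A n (x n) := rfl

/-- a bounded sequence of operators acts on the ultrapower -/
noncomputable def opQ (A : ℕ → E →L[ℝ] E) (C : ℝ) (hA : ∀ n, ‖A n‖ ≤ C) :
    Q E →ₗ[ℝ] Q E :=
  (Z E).mapQ (Z E) (opV A C hA) (by
    intro x hx
    rw [Submodule.mem_comap, mem_Z]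
    rw [mem_Z] at hx
    have h := hx.const_mul C
    rw [mul_zero] at h
    refine squeeze_zero (fun n => norm_nonneg _) (fun n => ?_) h
    rw [opV_apply]
    exact le_trans ((A n).le_opNorm _) (mul_le_mul_of_nonneg_right (hA n) (norm_nonneg _)))

theorem opQ_mk (A : ℕ → E →L[ℝ] E) (C : ℝ) (hA : ∀ n, ‖A n‖ ≤ C) (x : V E) :
    opQ A C hA (mk x) = mk (opV A C hA x) := rfl

/-- an isometry as an operator -/
def toOp (g : E ≃ₗᵢ[ℝ] E) : E →L[ℝ] E := (g.toContinuousLinearEquiv : E →L[ℝ] E)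

theorem toOp_apply (g : E ≃ₗᵢ[ℝ] E) (x : E) : toOp g x = g x := rfl

theorem toOp_norm (g : E ≃ₗᵢ[ℝ] E) : ‖toOp g‖ ≤ 1 := by
  refine ContinuousLinearMap.opNorm_le_bound _ zero_le_one (fun x => ?_)
  rw [toOp_apply, g.norm_map, one_mul]

/-- a sequence of isometries acts on the ultrapower -/
noncomputable def isoQ (g : ℕ → E ≃ₗᵢ[ℝ] E) : Q E ≃ₗᵢ[ℝ] Q E where
  toLinearEquiv := LinearEquiv.ofLinearMap
    (opQ (fun n => toOp (g n)) 1 (fun n => toOp_norm _))
    (opQ (fun n => toOp (g n).symm) 1 (fun n => toOp_norm _))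
    (by
      refine LinearMap.ext (fun q => ?_)
      obtain ⟨x, rfl⟩ := mk_surj q
      rw [LinearMap.comp_apply, opQ_mk, opQ_mk, LinearMap.id_apply]
      congr 1
      ext n
      rw [opV_apply, opV_apply, toOp_apply, toOp_apply, LinearIsometryEquiv.apply_symm_apply])
    (by
      refine LinearMap.ext (fun q => ?_)
      obtain ⟨x, rfl⟩ := mk_surj q
      rw [LinearMap.comp_apply, opQ_mk, opQ_mk, LinearMap.id_apply]
      congr 1
      ext n
      rw [opV_apply, opV_apply, toOp_apply, toOp_apply, LinearIsometryEquiv.symm_apply_apply])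
  norm_map' := by
    intro q
    obtain ⟨x, rfl⟩ := mk_surj q
    rw [LinearEquiv.coe_ofLinearMap, opQ_mk]
    refine tendsto_nhds_unique (tend_norm _) ((tend_norm x).congr (fun n => ?_))
    rw [opV_apply, toOp_apply, LinearIsometryEquiv.norm_map]

theorem isoQ_mk (g : ℕ → E ≃ₗᵢ[ℝ] E) (x : V E) :
    isoQ g (mk x) = mk (opV (fun n => toOp (g n)) 1 (fun _ => toOp_norm _) x) := rfl

theorem inv_tend : Tendsto (fun n : ℕ => 1 / ((n : ℝ) + 1)) U (𝓝 0) :=
  (tendsto_one_div_add_atTop_nhds_zero_nat (𝕜 := ℝ)).mono_left Nat.hyperfilter_le_atTop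

theorem trans (hE : AT E) (x' y' : Q E) (hx : ‖x'‖ = 1) (hy : ‖y'‖ = 1) :
    ∃ g : ℕ → E ≃ₗᵢ[ℝ] E, isoQ g x' = y' := by
  obtain ⟨x, rfl⟩ := mk_surj x'
  obtain ⟨y, rfl⟩ := mk_surj y'
  have h : ∀ n : ℕ, ∃ g : E ≃ₗᵢ[ℝ] E, ‖g (x n) - y n‖ ≤ ‖x n‖ * (1 / ((n : ℝ) + 1)) +
      |‖x n‖ - ‖y n‖| := by
    intro n
    have hn : (0 : ℝ) < 1 / ((n : ℝ) + 1) := Nat.one_div_pos_of_nat
    by_cases h1 : x n = 0
    · refine ⟨LinearIsometryEquiv.refl ℝ E, ?_⟩
      rw [LinearIsometryEquiv.coe_refl, id, h1, norm_zero, zero_sub, norm_neg, zero_mul, zero_add,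
        zero_sub, abs_neg, abs_norm]
    by_cases h2 : y n = 0
    · refine ⟨LinearIsometryEquiv.refl ℝ E, ?_⟩
      rw [LinearIsometryEquiv.coe_refl, id, h2, norm_zero, sub_zero, sub_zero, abs_norm]
      have := mul_nonneg (norm_nonneg (x n)) hn.le
      linarith
    have h3 : ‖x n‖ ≠ 0 := norm_ne_zero_iff.2 h1
    have h4 : ‖y n‖ ≠ 0 := norm_ne_zero_iff.2 h2
    obtain ⟨g, hg⟩ := hE (‖x n‖⁻¹ • x n) (‖y n‖⁻¹ • y n)
      (by rw [norm_smul, norm_inv, norm_norm, inv_mul_cancel₀ h3])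
      (by rw [norm_smul, norm_inv, norm_norm, inv_mul_cancel₀ h4]) _ hn
    refine ⟨g, ?_⟩
    have h5 : g (x n) - y n = ‖x n‖ • (g (‖x n‖⁻¹ • x n) - ‖y n‖⁻¹ • y n) +
        (‖x n‖ - ‖y n‖) • (‖y n‖⁻¹ • y n) := by
      rw [g.map_smul, smul_sub, smul_smul, mul_inv_cancel₀ h3, one_smul, sub_smul, smul_smul ‖y n‖,
        mul_inv_cancel₀ h4, one_smul]
      abel
    rw [h5]
    refine le_trans (norm_add_le _ _) (add_le_add ?_ ?_)
    · rw [norm_smul, norm_norm]
      exact mul_le_mul_of_nonneg_left hg.le (norm_nonneg _)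
    · rw [norm_smul, norm_smul, norm_inv, norm_norm, inv_mul_cancel₀ h4, mul_one, Real.norm_eq_abs]
  choose g hg using h
  refine ⟨g, ?_⟩
  rw [isoQ_mk]
  refine mk_eq ?_
  have h6 := ((tend_norm x).mul inv_tend).add (((tend_norm x).sub (tend_norm y)).abs)
  rw [hx, hy, mul_zero, zero_add, sub_self, abs_zero] at h6
  refine squeeze_zero (fun n => norm_nonneg _) (fun n => ?_) h6
  rw [opV_apply, toOp_apply]
  exact hg n

theorem infdim (hinf : ¬ FiniteDimensional ℝ E) : ¬ FiniteDimensional ℝ (Q E) := by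
  intro hfd
  have h1 : ∃ f : ℕ → E, (∀ i, ‖f i‖ ≤ 3) ∧ Pairwise fun i j => 1 ≤ ‖f i - f j‖ := by
    refine exists_seq_norm_le_one_le_norm_sub' (𝕜 := ℝ) (c := 2) ?_ ?_ hinf
    · rw [Real.norm_eq_abs, abs_of_pos] <;> norm_num
    · rw [Real.norm_eq_abs, abs_of_pos] <;> norm_num
  obtain ⟨f, hf, hf'⟩ := h1
  let z : ℕ → Q E := fun i => mk (seq (fun _ => f i) 3 (fun _ => hf i))
  have hz : ∀ i, z i ∈ Metric.closedBall (0 : Q E) 3 := by
    intro i
    rw [mem_closedBall_zero_iff]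
    exact le_of_tendsto (tend_norm _) (Eventually.of_forall (fun n => hf i))
  have hz' : ∀ i j, i ≠ j → 1 ≤ ‖z i - z j‖ := by
    intro i j hij
    have h2 : z i - z j = mk (seq (fun _ => f i) 3 (fun _ => hf i) -
      seq (fun _ => f j) 3 (fun _ => hf j)) := rfl
    rw [h2]
    exact ge_of_tendsto (tend_norm _) (Eventually.of_forall (fun n => hf' hij))
  have : ProperSpace (Q E) := FiniteDimensional.proper ℝ (Q E)
  obtain ⟨a, _, φ, hφ, ha⟩ := (isCompact_closedBall (0 : Q E) 3).tendsto_subseq hz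
  have hc := ha.cauchySeq
  rw [Metric.cauchySeq_iff] at hc
  obtain ⟨N, hN⟩ := hc 1 one_pos
  have h3 := hN N le_rfl (N + 1) (Nat.le_succ N)
  rw [dist_eq_norm] at h3
  have h4 := hz' (φ N) (φ (N + 1)) (hφ.injective.ne (Nat.succ_ne_self N).symm)
  exact absurd h3 (not_lt.2 h4)

/-! ### compact operators -/

/-- the constant sequences -/
noncomputable def cst (x : E) : Q E := mk (seq (fun _ => x) ‖x‖ fun _ => le_rfl)

theorem norm_cst (x : E) : ‖cst x‖ = ‖x‖ :=
  tendsto_nhds_unique (tend_norm (seq (fun _ => x) ‖x‖ fun _ => le_rfl)) tendsto_const_nhds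

theorem cst_sub (x y : E) : cst x - cst y = cst (x - y) := rfl

theorem cst_cont : Continuous (cst : E → Q E) := by
  refine (LipschitzWith.of_dist_le_mul (K := 1) fun x y => ?_).continuous
  rw [dist_eq_norm, dist_eq_norm, cst_sub, norm_cst]
  simp

/-- an operator acts on the ultrapower -/
noncomputable def ext (A : E →L[ℝ] E) : Q E →L[ℝ] Q E :=
  (opQ (fun _ => A) ‖A‖ (fun _ => le_rfl)).mkContinuous ‖A‖ (by
    intro q
    obtain ⟨x, rfl⟩ := mk_surj q
    rw [opQ_mk]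
    refine le_of_tendsto_of_tendsto' (tend_norm _) ((tend_norm x).const_mul ‖A‖) (fun n => ?_)
    rw [opV_apply]
    exact A.le_opNorm _)

theorem ext_mk (A : E →L[ℝ] E) (x : V E) :
    ext A (mk x) = mk (opV (fun _ => A) ‖A‖ (fun _ => le_rfl) x) := rfl

theorem ext_cst (A : E →L[ℝ] E) (x : E) : ext A (cst x) = cst (A x) := rfl

theorem ext_compact (A : E →L[ℝ] E) (hA : IsCompactOperator A) : IsCompactOperator (ext A) := by
  obtain ⟨S, hS, hS'⟩ := hA.image_closedBall_subset_compact 2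
  refine ⟨cst '' S, hS.image cst_cont, ?_⟩
  refine Filter.mem_of_superset (Metric.ball_mem_nhds (0 : Q E) one_pos) ?_
  intro q hq
  obtain ⟨x, rfl⟩ := mk_surj q
  rw [mem_ball_zero_iff] at hq
  have h1 : ∀ᶠ n in U, A (x n) ∈ S := by
    filter_upwards [(tend_norm x) (Iio_mem_nhds (show ‖mk x‖ < 2 by linarith))] with n hn
    apply hS'
    refine ⟨x n, ?_, rfl⟩
    rw [mem_closedBall_zero_iff]
    exact le_of_lt hn
  obtain ⟨e, he, he'⟩ := hS.ultrafilter_le_nhds ((hyperfilter ℕ).map fun n => A (x n)) (by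
    rw [Filter.le_principal_iff]
    exact h1)
  refine ⟨e, he, ?_⟩
  rw [ext_mk]
  refine (mk_eq ?_).symm
  have h2 : Tendsto (fun n => A (x n)) U (𝓝 e) := he'
  have h3 := (h2.sub_const e).norm
  rw [sub_self, norm_zero] at h3
  exact h3

/-! ### the seminorm -/

theorem wd_norm {K : E →L[ℝ] E} (hK : ∀ y, ‖y - K y‖ ≤ ‖y‖) (l : List (E ≃ₗᵢ[ℝ] E)) (x : E) :
    ‖wd K l x‖ ≤ ‖x‖ := by
  induction l with
  | nil => exact le_rfl
  | cons g l ih =>
    refine le_trans ?_ ih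
    have h1 : wd K (g :: l) x = g (g.symm (wd K l x) - K (g.symm (wd K l x))) := by
      rw [map_sub, g.apply_symm_apply]
      rfl
    rw [h1, g.norm_map]
    refine (hK _).trans ?_
    rw [g.symm.norm_map]

theorem wd_add (K : E →L[ℝ] E) (l : List (E ≃ₗᵢ[ℝ] E)) (x y : E) :
    wd K l (x + y) = wd K l x + wd K l y := by
  induction l with
  | nil => rfl
  | cons g l ih =>
    show wd K l (x + y) - g (K (g.symm (wd K l (x + y)))) = (wd K l x - g (K (g.symm (wd K l x)))) +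
      (wd K l y - g (K (g.symm (wd K l y))))
    rw [ih, map_add, map_add, map_add]
    abel

theorem wd_smul (K : E →L[ℝ] E) (l : List (E ≃ₗᵢ[ℝ] E)) (c : ℝ) (x : E) :
    wd K l (c • x) = c • wd K l x := by
  induction l with
  | nil => rfl
  | cons g l ih =>
    show wd K l (c • x) - g (K (g.symm (wd K l (c • x)))) = c • (wd K l x - g (K (g.symm (wd K l x))))
    rw [ih, map_smul, map_smul, map_smul, smul_sub]

theorem wd_append (K : E →L[ℝ] E) (l l' : List (E ≃ₗᵢ[ℝ] E)) (x : E) :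
    wd K (l ++ l') x = wd K l (wd K l' x) := by
  induction l with
  | nil => rfl
  | cons g l ih =>
    show wd K (l ++ l') x - g (K (g.symm (wd K (l ++ l') x))) = _
    rw [ih]
    rfl

/-- the seminorm -/
noncomputable def qn (K : E →L[ℝ] E) (φ : StrongDual ℝ E) (x : E) : ℝ :=
  ⨆ l : List (E ≃ₗᵢ[ℝ] E), |φ (wd K l x)|

section
variable {K : E →L[ℝ] E} (hK : ∀ y, ‖y - K y‖ ≤ ‖y‖) {φ : StrongDual ℝ E} (hφ : ‖φ‖ = 1)
include hK hφ

theorem abs_le (l : List (E ≃ₗᵢ[ℝ] E)) (x : E) : |φ (wd K l x)| ≤ ‖x‖ := by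
  have h1 := φ.le_opNorm (wd K l x)
  rw [hφ, one_mul, Real.norm_eq_abs] at h1
  exact h1.trans (wd_norm hK l x)

theorem le_qn (l : List (E ≃ₗᵢ[ℝ] E)) (x : E) : |φ (wd K l x)| ≤ qn K φ x :=
  le_ciSup (f := fun l : List (E ≃ₗᵢ[ℝ] E) => |φ (wd K l x)|)
    ⟨‖x‖, by rintro _ ⟨l, rfl⟩; exact abs_le hK hφ l x⟩ l

omit hK hφ in
theorem qn_le {x : E} {C : ℝ} (h : ∀ l, |φ (wd K l x)| ≤ C) : qn K φ x ≤ C := ciSup_le h

theorem qn_le_norm (x : E) : qn K φ x ≤ ‖x‖ := qn_le fun l => abs_le hK hφ l x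

theorem qn_nonneg (x : E) : 0 ≤ qn K φ x := le_trans (abs_nonneg _) (le_qn hK hφ [] x)

theorem qn_add (x y : E) : qn K φ (x + y) ≤ qn K φ x + qn K φ y := by
  refine qn_le fun l => ?_
  rw [wd_add, map_add]
  exact (abs_add_le _ _).trans (add_le_add (le_qn hK hφ l x) (le_qn hK hφ l y))

theorem qn_smul (c : ℝ) (x : E) : qn K φ (c • x) ≤ |c| * qn K φ x := by
  refine qn_le fun l => ?_
  rw [wd_smul, map_smul, smul_eq_mul, abs_mul]
  exact mul_le_mul_of_nonneg_left (le_qn hK hφ l x) (abs_nonneg _)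

theorem qn_sub (x y : E) : qn K φ (x - y) ≤ qn K φ x + qn K φ y := by
  rw [sub_eq_add_neg, ← neg_one_smul ℝ y]
  refine (qn_add hK hφ _ _).trans ?_
  have := qn_smul hK hφ (-1) y
  rw [abs_neg, abs_one, one_mul] at this
  linarith

theorem qn_near (x y : E) : qn K φ x ≤ qn K φ y + ‖x - y‖ := by
  have h1 := qn_add hK hφ y (x - y)
  rw [add_sub_cancel] at h1
  have h2 := qn_le_norm hK hφ (x - y)
  linarith

theorem qn_conj (g : E ≃ₗᵢ[ℝ] E) (x : E) : qn K φ (x - g (K (g.symm x))) ≤ qn K φ x := by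
  refine qn_le fun l => ?_
  have h1 : wd K l (x - g (K (g.symm x))) = wd K (l ++ [g]) x := by
    rw [wd_append]
    rfl
  rw [h1]
  exact le_qn hK hφ _ x

theorem qn_k (g : E ≃ₗᵢ[ℝ] E) (x : E) : qn K φ (g (K (g.symm x))) ≤ 2 * qn K φ x := by
  have h1 : g (K (g.symm x)) = x - (x - g (K (g.symm x))) := by abel
  rw [h1]
  have h2 := qn_sub hK hφ x (x - g (K (g.symm x)))
  have h3 := qn_conj hK hφ g x
  linarith

theorem qn_A (g : E ≃ₗᵢ[ℝ] E) (a b : ℝ) (x : E) :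
    qn K φ (g (((-b⁻¹) • (K.comp K + a • K) : E →L[ℝ] E) (g.symm x))) ≤
      |b⁻¹| * (4 + 2 * |a|) * qn K φ x := by
  have h1 : g (((-b⁻¹) • (K.comp K + a • K) : E →L[ℝ] E) (g.symm x)) =
      (-b⁻¹) • (g (K (g.symm (g (K (g.symm x))))) + a • g (K (g.symm x))) := by
    rw [g.symm_apply_apply]
    show g ((-b⁻¹) • (K (K (g.symm x)) + a • K (g.symm x))) = _
    rw [map_smul, map_add, map_smul]
  rw [h1]
  refine (qn_smul hK hφ _ _).trans ?_
  rw [abs_neg, mul_assoc]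
  refine mul_le_mul_of_nonneg_left ?_ (abs_nonneg _)
  have h2 := qn_add hK hφ (g (K (g.symm (g (K (g.symm x)))))) (a • g (K (g.symm x)))
  have h3 := qn_k hK hφ g (g (K (g.symm x)))
  have h4 := qn_k hK hφ g x
  have h5 := qn_smul hK hφ a (g (K (g.symm x)))
  have h6 := mul_le_mul_of_nonneg_left h4 (abs_nonneg a)
  nlinarith

end

/-! ### the invariant subspace -/

section
variable {K : E →L[ℝ] E} (hK : ∀ y, ‖y - K y‖ ≤ ‖y‖) {φ : ℕ → StrongDual ℝ E} (hφ : ∀ n, ‖φ n‖ = 1)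

/-- the sequences on which the seminorms tend to zero -/
noncomputable def W (hK : ∀ y, ‖y - K y‖ ≤ ‖y‖) (hφ : ∀ n, ‖φ n‖ = 1) : Submodule ℝ (Q E) where
  carrier := {y | ∃ x : V E, mk x = y ∧ Tendsto (fun n => qn K (φ n) (x n)) U (𝓝 0)}
  zero_mem' := by
    refine ⟨0, rfl, ?_⟩
    refine squeeze_zero (fun n => qn_nonneg hK (hφ n) _) (fun n => qn_le_norm hK (hφ n) _) ?_
    simp only [lp.coeFn_zero, Pi.zero_apply, norm_zero]
    exact tendsto_const_nhds
  add_mem' := by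
    rintro _ _ ⟨x, rfl, hx⟩ ⟨y, rfl, hy⟩
    refine ⟨x + y, rfl, ?_⟩
    have h := hx.add hy
    rw [add_zero] at h
    exact squeeze_zero (fun n => qn_nonneg hK (hφ n) _) (fun n => qn_add hK (hφ n) (x n) (y n)) h
  smul_mem' := by
    rintro c _ ⟨x, rfl, hx⟩
    refine ⟨c • x, rfl, ?_⟩
    have h := hx.const_mul |c|
    rw [mul_zero] at h
    exact squeeze_zero (fun n => qn_nonneg hK (hφ n) _) (fun n => qn_smul hK (hφ n) c (x n)) h

theorem mem_W (x : V E) : mk x ∈ W hK hφ ↔ Tendsto (fun n => qn K (φ n) (x n)) U (𝓝 0) := by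
  constructor
  · rintro ⟨y, hy, h⟩
    have h1 := h.add (of_mk_eq hy.symm)
    rw [add_zero] at h1
    exact squeeze_zero (fun n => qn_nonneg hK (hφ n) _) (fun n => qn_near hK (hφ n) (x n) (y n)) h1
  · intro h
    exact ⟨x, rfl, h⟩

theorem W_closed : IsClosed (W hK hφ : Set (Q E)) := by
  refine isClosed_of_closure_subset fun q hq => ?_
  obtain ⟨x, rfl⟩ := mk_surj q
  rw [Metric.mem_closure_iff] at hq
  rw [SetLike.mem_coe, mem_W, Metric.tendsto_nhds]
  intro ε hε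
  obtain ⟨_, ⟨y, rfl, hy⟩, h1⟩ := hq (ε / 2) (by positivity)
  rw [Metric.tendsto_nhds] at hy
  have h2 : ‖mk (x - y)‖ < ε / 2 := by
    rw [dist_eq_norm] at h1
    exact h1
  filter_upwards [hy (ε / 2) (by positivity), (tend_norm (x - y)) (Iio_mem_nhds h2)] with n h3 h4
  rw [Real.dist_eq, sub_zero, abs_of_nonneg (qn_nonneg hK (hφ n) _)] at h3 ⊢
  have h5 := qn_near hK (hφ n) (x n) (y n)
  have h6 : ‖x n - y n‖ < ε / 2 := h4
  linarith

end

end LPXA

open LPXA Filter Topology in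
/-- **LPX** -/
theorem lpx : S_LPX := by
  intro hR hI E _ _ _ hinf hAT K hKc hK ⟨x₀, a, b, hx₀, hb, hx⟩
  by_contra hcon
  unfold LP at hcon
  push Not at hcon
  have h1 : ∀ n : ℕ, ∃ (z : E) (φ : StrongDual ℝ E), ‖z‖ = 1 ∧ ‖φ‖ = 1 ∧
      ∀ l : List (E ≃ₗᵢ[ℝ] E), |φ (wd K l z)| < 1 / ((n : ℝ) + 1) := by
    intro n
    obtain ⟨z, φ, hz, hφ, h⟩ := hcon (1 / ((n : ℝ) + 1)) Nat.one_div_pos_of_nat
    exact ⟨z, φ, hz, hφ, h⟩
  choose z φ hz hφ hzφ using h1
  have h2 : ∀ n : ℕ, ∃ v : E, ‖v‖ < 1 ∧ 1 / 2 < ‖φ n v‖ := fun n =>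
    (φ n).exists_lt_apply_of_lt_opNorm (by rw [hφ n]; norm_num)
  choose v hv hvφ using h2
  let A : E →L[ℝ] E := (-b⁻¹) • (K.comp K + a • K)
  have hAc : IsCompactOperator A := by
    have h3 : IsCompactOperator (K.comp K) := hKc.clm_comp K
    exact (h3.add (hKc.smul a)).smul (-b⁻¹)
  have hAx : A x₀ = x₀ := by
    have h3 : K (K x₀) + a • K x₀ = -(b • x₀) := eq_neg_of_add_eq_zero_left hx
    show (-b⁻¹) • (K (K x₀) + a • K x₀) = x₀
    rw [h3, neg_smul, smul_neg, neg_neg, smul_smul, inv_mul_cancel₀ hb, one_smul]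
  obtain ⟨P, hP1, hP2, hP3, hP4⟩ := hR (Q E) (ext A) (ext_compact A hAc)
    ⟨cst x₀, by
      intro h
      have := norm_cst x₀
      rw [h, norm_zero] at this
      exact hx₀ (norm_eq_zero.1 this.symm), by rw [ext_cst, hAx]⟩
  have hcl := W_closed hK hφ
  have htop := hI (Q E) (infdim hinf) (Set.range isoQ) ?_ ?_ ?_ ?_ P hP1 hP2 hP3 (W hK hφ) ?_ ?_
  · -- the vectors `v`
    have h3 : mk (seq v 1 fun n => (hv n).le) ∈ W hK hφ := by
      rw [htop]
      exact Submodule.mem_top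
    rw [mem_W] at h3
    have h4 : (1 / 2 : ℝ) ≤ 0 := by
      refine ge_of_tendsto' h3 fun n => ?_
      refine le_trans (hvφ n).le ?_
      exact le_qn hK (hφ n) [] (v n)
    norm_num at h4
  · refine ⟨fun _ => LinearIsometryEquiv.refl ℝ E, ?_⟩
    ext q
    obtain ⟨x, rfl⟩ := mk_surj q
    rfl
  · rintro _ ⟨g, rfl⟩ _ ⟨h, rfl⟩
    refine ⟨fun n => (g n).trans (h n), ?_⟩
    ext q
    obtain ⟨x, rfl⟩ := mk_surj q
    rfl
  · rintro _ ⟨g, rfl⟩
    refine ⟨fun n => (g n).symm, ?_⟩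
    ext q
    obtain ⟨x, rfl⟩ := mk_surj q
    rfl
  · intro x y hx hy
    obtain ⟨g, hg⟩ := trans hAT x y hx hy
    exact ⟨isoQ g, ⟨g, rfl⟩, hg⟩
  · intro hbot
    have h3 : mk (seq z 1 fun n => (hz n).le) ∈ W hK hφ := by
      rw [mem_W]
      refine squeeze_zero (fun n => qn_nonneg hK (hφ n) _) (fun n => ?_) inv_tend
      exact qn_le fun l => (hzφ n l).le
    rw [hbot, Submodule.mem_bot] at h3
    have h4 := tend_norm (seq z 1 fun n => (hz n).le)
    rw [h3, norm_zero] at h4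
    have h5 : (1 : ℝ) ≤ 0 := ge_of_tendsto' h4 fun n => (hz n).ge
    norm_num at h5
  · rintro _ ⟨g, rfl⟩ u hu
    have h3 : IsClosed (((W hK hφ).comap ((isoQ g).toLinearEquiv : Q E →ₗ[ℝ] Q E) :
        Submodule ℝ (Q E)) : Set (Q E)) := hcl.preimage (isoQ g).continuous
    have h4 := hP4 _ h3 ?_ ((isoQ g).symm u) ?_
    · exact h4
    · intro w hw
      obtain ⟨x, rfl⟩ := mk_surj w
      rw [Submodule.mem_comap] at hw ⊢
      have e0 : isoQ g (mk x) ∈ W hK hφ := hw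
      rw [isoQ_mk, mem_W] at e0
      have e1 : isoQ g (ext A (mk x)) ∈ W hK hφ := by
        rw [ext_mk, isoQ_mk, mem_W]
        have h6 := e0.const_mul (|b⁻¹| * (4 + 2 * |a|))
        rw [mul_zero] at h6
        refine squeeze_zero (fun n => qn_nonneg hK (hφ n) _) (fun n => ?_) h6
        have h7 := qn_A hK (hφ n) (g n) a b (g n (x n))
        rw [(g n).symm_apply_apply] at h7
        exact h7
      exact e1
    · rw [Submodule.mem_comap]
      have h5 : (isoQ g) ((isoQ g).symm u) = u := (isoQ g).apply_symm_apply u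
      have h6 : (isoQ g) ((isoQ g).symm u) ∈ W hK hφ := by
        rw [h5]
        exact hu
      exact h6

end Pool.Agent.H65.BM
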