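import Pool.Agent.H65.BM.S5
import Pool.Agent.H65.BM.LPX

/-!
# Project BM: uniform irreducibility of the conjugates of `1 - K` (stub BM5-LPY)
-/

set_option autoImplicit false

namespace Pool.Agent.H65.BM

namespace LPYA

open Filter Topology Pool.Agent.N314.OP LPXA

variable {E : Type} [NormedAddCommGroup E] [NormedSpace ℝ E]

theorem cjo_apply (g : E ≃ₗᵢ[ℝ] E) (A : E →L[ℝ] E) (x : E) : cjo g A x = g (A (g.symm x)) := rfl

theorem mem_AK {K A : E →L[ℝ] E} (hA : A ∈ AK K) {𝒜 : Submodule ℝ (E →L[ℝ] E)} (h : CAlg E 𝒜)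
    (hK : K ∈ 𝒜) : A ∈ 𝒜 := by
  unfold AK at hA
  rw [Submodule.mem_sInf] at hA
  exact hA 𝒜 ⟨h, hK⟩

/-- the compact operators -/
theorem calg_compact : CAlg E (compactOperator (RingHom.id ℝ) E E) where
  mul a ha b _ := IsCompactOperator.comp_clm (f := a) ha b
  conj g a ha := IsCompactOperator.clm_comp
    (IsCompactOperator.comp_clm (f := a) ha (g.symm.toContinuousLinearEquiv : E →L[ℝ] E))
    (g.toContinuousLinearEquiv : E →L[ℝ] E)

theorem compact_AK {K A : E →L[ℝ] E} (hA : A ∈ AK K) (hK : IsCompactOperator K) :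
    IsCompactOperator A := mem_AK hA calg_compact hK

/-- the operators whose conjugates are bounded for the seminorms -/
noncomputable def PP {K : E →L[ℝ] E} (hK : ∀ y, ‖y - K y‖ ≤ ‖y‖) : Submodule ℝ (E →L[ℝ] E) where
  carrier := {A | ∃ C : ℝ, 0 ≤ C ∧ ∀ φ : StrongDual ℝ E, ‖φ‖ = 1 → ∀ (g : E ≃ₗᵢ[ℝ] E) (x : E),
    qn K φ (g (A (g.symm x))) ≤ C * qn K φ x}
  zero_mem' := by
    refine ⟨0, le_rfl, fun φ hφ g x => ?_⟩
    rw [ContinuousLinearMap.zero_apply, map_zero, zero_mul]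
    have := qn_smul hK hφ 0 (0 : E)
    rwa [abs_zero, zero_mul, zero_smul] at this
  add_mem' := by
    rintro A B ⟨C, hC, hA⟩ ⟨D, hD, hB⟩
    refine ⟨C + D, add_nonneg hC hD, fun φ hφ g x => ?_⟩
    rw [ContinuousLinearMap.add_apply, map_add, add_mul]
    exact (qn_add hK hφ _ _).trans (add_le_add (hA φ hφ g x) (hB φ hφ g x))
  smul_mem' := by
    rintro c A ⟨C, hC, hA⟩
    refine ⟨|c| * C, mul_nonneg (abs_nonneg c) hC, fun φ hφ g x => ?_⟩
    rw [ContinuousLinearMap.smul_apply, map_smul, mul_assoc]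
    exact (qn_smul hK hφ _ _).trans (mul_le_mul_of_nonneg_left (hA φ hφ g x) (abs_nonneg c))

theorem calg_PP {K : E →L[ℝ] E} (hK : ∀ y, ‖y - K y‖ ≤ ‖y‖) : CAlg E (PP hK) where
  mul := by
    rintro a ⟨C, hC, hA⟩ b ⟨D, hD, hB⟩
    refine ⟨C * D, mul_nonneg hC hD, fun φ hφ g x => ?_⟩
    have h1 : g ((a.comp b) (g.symm x)) = g (a (g.symm (g (b (g.symm x))))) := by
      rw [g.symm_apply_apply]
      rfl
    rw [h1, mul_assoc]
    exact (hA φ hφ g _).trans (mul_le_mul_of_nonneg_left (hB φ hφ g x) hC)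
  conj := by
    rintro h a ⟨C, hC, hA⟩
    refine ⟨C, hC, fun φ hφ g x => ?_⟩
    exact hA φ hφ (h.trans g) x

theorem K_mem_PP {K : E →L[ℝ] E} (hK : ∀ y, ‖y - K y‖ ≤ ‖y‖) : K ∈ PP hK :=
  ⟨2, by norm_num, fun _ hφ g x => qn_k hK hφ g x⟩

end LPYA

open LPXA LPYA Filter Topology in
/-- **LPY** -/
theorem lpy : S_LPY := by
  intro hR hI E _ _ _ hinf hAT K hKc hK ⟨A, hAK, x₀, hx₀, hAx⟩
  obtain ⟨C, hC, hCA⟩ : A ∈ PP hK := mem_AK hAK (calg_PP hK) (K_mem_PP hK)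
  have hAc : IsCompactOperator A := compact_AK hAK hKc
  by_contra hcon
  unfold LP at hcon
  push Not at hcon
  have h1 : ∀ n : ℕ, ∃ (z : E) (φ : StrongDual ℝ E), ‖z‖ = 1 ∧ ‖φ‖ = 1 ∧
      ∀ l : List (E ≃ₗᵢ[ℝ] E), |φ (wd K l z)| < 1 / ((n : ℝ) + 1) := by
    intro n
    obtain ⟨z, φ, hz, hφ, h⟩ := hcon (1 / ((n : ℝ) + 1)) Nat.one_div_pos_of_nat
    exact ⟨z, φ, hz, hφ, h⟩
  choose z φ hz hφ hzφ using h1
  have h2 : ∀ n : ℕ, ∃ v : E, ‖v‖ < 1 ∧ 1 / 2 < ‖φ n v‖ := fun n =>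
    (φ n).exists_lt_apply_of_lt_opNorm (by rw [hφ n]; norm_num)
  choose v hv hvφ using h2
  obtain ⟨P, hP1, hP2, hP3, hP4⟩ := hR (Q E) (ext A) (ext_compact A hAc)
    ⟨cst x₀, by
      intro h
      have := norm_cst x₀
      rw [h, norm_zero] at this
      exact hx₀ (norm_eq_zero.1 this.symm), by rw [ext_cst, hAx]⟩
  have hcl := W_closed hK hφ
  have htop := hI (Q E) (infdim hinf) (Set.range isoQ) ?_ ?_ ?_ ?_ P hP1 hP2 hP3 (W hK hφ) ?_ ?_
  · -- the vectors `v`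
    have h3 : mk (seq v 1 fun n => (hv n).le) ∈ W hK hφ := by
      rw [htop]
      exact Submodule.mem_top
    rw [mem_W] at h3
    have h4 : (1 / 2 : ℝ) ≤ 0 := by
      refine ge_of_tendsto' h3 fun n => ?_
      refine le_trans (hvφ n).le ?_
      exact le_qn hK (hφ n) [] (v n)
    norm_num at h4
  · refine ⟨fun _ => LinearIsometryEquiv.refl ℝ E, ?_⟩
    ext q
    obtain ⟨x, rfl⟩ := mk_surj q
    rfl
  · rintro _ ⟨g, rfl⟩ _ ⟨h, rfl⟩
    refine ⟨fun n => (g n).trans (h n), ?_⟩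
    ext q
    obtain ⟨x, rfl⟩ := mk_surj q
    rfl
  · rintro _ ⟨g, rfl⟩
    refine ⟨fun n => (g n).symm, ?_⟩
    ext q
    obtain ⟨x, rfl⟩ := mk_surj q
    rfl
  · intro x y hx hy
    obtain ⟨g, hg⟩ := trans hAT x y hx hy
    exact ⟨isoQ g, ⟨g, rfl⟩, hg⟩
  · intro hbot
    have h3 : mk (seq z 1 fun n => (hz n).le) ∈ W hK hφ := by
      rw [mem_W]
      refine squeeze_zero (fun n => qn_nonneg hK (hφ n) _) (fun n => ?_) inv_tend
      exact qn_le fun l => (hzφ n l).le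
    rw [hbot, Submodule.mem_bot] at h3
    have h4 := tend_norm (seq z 1 fun n => (hz n).le)
    rw [h3, norm_zero] at h4
    have h5 : (1 : ℝ) ≤ 0 := ge_of_tendsto' h4 fun n => (hz n).ge
    norm_num at h5
  · rintro _ ⟨g, rfl⟩ u hu
    have h3 : IsClosed (((W hK hφ).comap ((isoQ g).toLinearEquiv : Q E →ₗ[ℝ] Q E) :
        Submodule ℝ (Q E)) : Set (Q E)) := hcl.preimage (isoQ g).continuous
    have h4 := hP4 _ h3 ?_ ((isoQ g).symm u) ?_
    · exact h4
    · intro w hw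
      obtain ⟨x, rfl⟩ := mk_surj w
      rw [Submodule.mem_comap] at hw ⊢
      have e0 : isoQ g (mk x) ∈ W hK hφ := hw
      rw [isoQ_mk, mem_W] at e0
      have e1 : isoQ g (ext A (mk x)) ∈ W hK hφ := by
        rw [ext_mk, isoQ_mk, mem_W]
        have h6 := e0.const_mul C
        rw [mul_zero] at h6
        refine squeeze_zero (fun n => qn_nonneg hK (hφ n) _) (fun n => ?_) h6
        have h7 := hCA (φ n) (hφ n) (g n) (g n (x n))
        rw [(g n).symm_apply_apply] at h7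
        exact h7
      exact e1
    · rw [Submodule.mem_comap]
      have h5 : (isoQ g) ((isoQ g).symm u) = u := (isoQ g).apply_symm_apply u
      have h6 : (isoQ g) ((isoQ g).symm u) ∈ W hK hφ := by
        rw [h5]
        exact hu
      exact h6

end Pool.Agent.H65.BM
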