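import Pool.Agent.H65.BM.S

/-!
# Project BM: proof of `S_M1` from `S_U`
-/

set_option autoImplicit false

namespace Pool.Agent.H65.BM

namespace M1

section tools

variable {ι Ω : Type} [Fintype ι] [DecidableEq ι] [Fintype Ω]

theorem ex_mono {w : Ω → ℝ} (hw : ∀ ω, 0 ≤ w ω) {F G : (ι → Ω) → ℝ} (h : ∀ ω, F ω ≤ G ω) :
    ex w F ≤ ex w G := by
  unfold ex
  exact Finset.sum_le_sum fun ω _ =>
    mul_le_mul_of_nonneg_left (h ω) (Finset.prod_nonneg fun j _ => hw _)

theorem ex_const_mul (w : Ω → ℝ) (a : ℝ) (F : (ι → Ω) → ℝ) :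
    ex w (fun ω => a * F ω) = a * ex w F := by
  unfold ex
  rw [Finset.mul_sum]
  exact Finset.sum_congr rfl fun ω _ => by ring

theorem ex_coord1 {w : Ω → ℝ} (hw : ∑ ω, w ω = 1) (f : Ω → ℝ) (j : ι) :
    ex w (fun ω : ι → Ω => f (ω j)) = ∑ ω, w ω * f ω := by
  unfold ex
  have h1 : ∀ ω : ι → Ω, (∏ l, w (ω l)) * f (ω j) =
      ∏ l, (w (ω l) * if l = j then f (ω l) else 1) := by
    intro ω
    rw [Finset.prod_mul_distrib]
    congr 1
    rw [Finset.prod_ite_eq' Finset.univ j (fun l => f (ω l))]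
    simp
  simp_rw [h1]
  have h2 := Finset.prod_univ_sum (fun _ : ι => (Finset.univ : Finset Ω))
    (fun l ω => w ω * if l = j then f ω else 1)
  rw [Fintype.piFinset_univ] at h2
  rw [← h2, ← Finset.mul_prod_erase Finset.univ _ (Finset.mem_univ j)]
  have h3 : ∏ l ∈ Finset.univ.erase j, ∑ ω, (w ω * if l = j then f ω else 1) = 1 := by
    refine Finset.prod_eq_one fun l hl => ?_
    have hlj : l ≠ j := Finset.ne_of_mem_erase hl
    simp only [hlj, if_false, mul_one]
    exact hw
  rw [h3]
  simp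

theorem ex_sum (w : Ω → ℝ) (F : ι → (ι → Ω) → ℝ) :
    ex w (fun ω => ∑ j, F j ω) = ∑ j, ex w (F j) := by
  unfold ex
  rw [Finset.sum_comm]
  exact Finset.sum_congr rfl fun ω _ => Finset.mul_sum _ _ _

theorem ex_coord {w : Ω → ℝ} (hw : ∑ ω, w ω = 1) (f : Ω → ℝ) :
    ex w (fun ω : ι → Ω => ∑ j, f (ω j)) = Fintype.card ι * ∑ ω, w ω * f ω := by
  rw [ex_sum w (fun j ω => f (ω j))]
  simp_rw [ex_coord1 hw f]
  simp

theorem av_mono {F G : (ι → Bool) → ℝ} (h : ∀ s, F s ≤ G s) : av F ≤ av G := by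
  unfold av
  exact div_le_div_of_nonneg_right (Finset.sum_le_sum fun s _ => h s) (by positivity)

theorem av_nonneg {F : (ι → Bool) → ℝ} (h : ∀ s, 0 ≤ F s) : 0 ≤ av F := by
  unfold av
  exact div_nonneg (Finset.sum_nonneg fun s _ => h s) (by positivity)

theorem av_const_mul (a : ℝ) (F : (ι → Bool) → ℝ) : av (fun s => a * F s) = a * av F := by
  unfold av
  rw [← Finset.mul_sum, mul_div_assoc]

/-- flip the signs off `D` -/
def flip (D : Finset ι) (s : ι → Bool) : ι → Bool := fun j => if j ∈ D then s j else !(s j)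

omit [Fintype ι] in
theorem flip_flip (D : Finset ι) (s : ι → Bool) : flip D (flip D s) = s := by
  funext j
  unfold flip
  by_cases h : j ∈ D <;> simp [h]

theorem av_flip (D : Finset ι) (F : (ι → Bool) → ℝ) : av (fun s => F (flip D s)) = av F := by
  unfold av
  congr 1
  exact Fintype.sum_bijective (flip D)
    (Function.Involutive.bijective (flip_flip D)) _ _ (fun s => rfl)

theorem sg_not (b : Bool) : sg (!b) = - sg b := by
  cases b <;> simp [sg]

variable {E : Type} [NormedAddCommGroup E] [NormedSpace ℝ E]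

/-- the second moment decreases when one restricts to a subset of the summands -/
theorem sym (D : Finset ι) (z : ι → E) :
    av (fun s : ι → Bool => ‖∑ j ∈ D, sg (s j) • z j‖ ^ 2) ≤
      av (fun s : ι → Bool => ‖∑ j, sg (s j) • z j‖ ^ 2) := by
  have h1 : ∀ s : ι → Bool, ‖∑ j ∈ D, sg (s j) • z j‖ ^ 2 ≤
      (1 / 2) * (‖∑ j, sg (s j) • z j‖ ^ 2 + ‖∑ j, sg (flip D s j) • z j‖ ^ 2) := by
    intro s
    have h2 : ∑ j ∈ D, sg (s j) • z j =
        (1 / 2 : ℝ) • ((∑ j, sg (s j) • z j) + ∑ j, sg (flip D s j) • z j) := by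
      rw [← Finset.sum_add_distrib, Finset.smul_sum, ← Finset.sum_filter_add_sum_filter_not
        Finset.univ (fun j => j ∈ D) (fun j => (1 / 2 : ℝ) • (sg (s j) • z j +
          sg (flip D s j) • z j))]
      have h3 : ∑ j ∈ Finset.univ.filter (fun j => j ∉ D),
          (1 / 2 : ℝ) • (sg (s j) • z j + sg (flip D s j) • z j) = 0 := by
        refine Finset.sum_eq_zero fun j hj => ?_
        have hj' : j ∉ D := (Finset.mem_filter.1 hj).2
        have h4 : flip D s j = !(s j) := by
          unfold flip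
          simp [hj']
        rw [h4, sg_not, neg_smul, add_neg_cancel, smul_zero]
      rw [h3, add_zero]
      have h5 : Finset.univ.filter (fun j => j ∈ D) = D := by
        ext j
        simp
      rw [h5]
      refine Finset.sum_congr rfl fun j hj => ?_
      have h4 : flip D s j = s j := by
        unfold flip
        simp [hj]
      rw [h4, ← two_smul ℝ, smul_smul]
      norm_num
    rw [h2, norm_smul]
    have h6 := norm_add_le (∑ j, sg (s j) • z j) (∑ j, sg (flip D s j) • z j)
    set a := ‖∑ j, sg (s j) • z j‖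
    set b := ‖∑ j, sg (flip D s j) • z j‖
    have h7 : 0 ≤ ‖∑ j, sg (s j) • z j + ∑ j, sg (flip D s j) • z j‖ := norm_nonneg _
    have h8 : ‖(1 / 2 : ℝ)‖ = 1 / 2 := by norm_num
    rw [h8]
    nlinarith [sq_nonneg (a - b)]
  have h9 := av_mono h1
  rw [av_const_mul] at h9
  have h10 : av (fun s : ι → Bool => ‖∑ j, sg (s j) • z j‖ ^ 2 +
      ‖∑ j, sg (flip D s j) • z j‖ ^ 2) =
      av (fun s : ι → Bool => ‖∑ j, sg (s j) • z j‖ ^ 2) +
      av (fun s : ι → Bool => ‖∑ j, sg (flip D s j) • z j‖ ^ 2) := by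
    unfold av
    rw [Finset.sum_add_distrib, add_div]
  rw [h10, av_flip D (fun s => ‖∑ j, sg (s j) • z j‖ ^ 2)] at h9
  linarith

/-- scaled upper estimate -/
theorem tb_scaled {η B : ℝ} (hTB : TB E η B) (D : Finset ι) (z : ι → E) {a : ℝ} (ha : 0 < a)
    (hz : ∀ j ∈ D, ‖z j‖ ≤ a) :
    av (fun s : ι → Bool => ‖∑ j ∈ D, sg (s j) • z j‖ ^ 2) ≤ a ^ 2 * B * (D.card : ℝ) ^ (1 + η) := by
  have h1 := hTB ι D (fun j => a⁻¹ • z j) (fun j hj => by
    rw [norm_smul, norm_inv, Real.norm_eq_abs, abs_of_pos ha, inv_mul_le_iff₀ ha, mul_one]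
    exact hz j hj)
  have h2 : ∀ s : ι → Bool, ‖∑ j ∈ D, sg (s j) • z j‖ ^ 2 =
      a ^ 2 * ‖∑ j ∈ D, sg (s j) • a⁻¹ • z j‖ ^ 2 := by
    intro s
    have h3 : ∑ j ∈ D, sg (s j) • a⁻¹ • z j = a⁻¹ • ∑ j ∈ D, sg (s j) • z j := by
      rw [Finset.smul_sum]
      exact Finset.sum_congr rfl fun j _ => smul_comm _ _ _
    rw [h3, norm_smul, norm_inv, Real.norm_eq_abs, abs_of_pos ha]
    field_simp
  simp_rw [h2]
  rw [av_const_mul, mul_assoc]
  exact mul_le_mul_of_nonneg_left h1 (by positivity)

end tools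

theorem wt_nonneg (k : ℕ) {π : ℝ} (h0 : 0 ≤ π) (h1 : π ≤ 1)
    (ω : (Fin k → Bool) × Option (Fin k)) : 0 ≤ wt k π ω := by
  unfold wt
  split_ifs
  · exact div_nonneg (by linarith) (by positivity)
  · positivity

theorem wt_sum_gen (k : ℕ) (π : ℝ) (f : Option (Fin k) → ℝ) :
    ∑ ω : (Fin k → Bool) × Option (Fin k), wt k π ω * f ω.2 =
      (1 - π) * f none + ∑ i : Fin k, π / k * f (some i) := by
  rw [Fintype.sum_prod_type]
  have h1 : ∀ ε : Fin k → Bool, ∑ m : Option (Fin k), wt k π (ε, m) * f (ε, m).2 =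
      ((1 - π) * f none + ∑ i : Fin k, π / k * f (some i)) / 2 ^ k := by
    intro ε
    rw [Fintype.sum_option, add_div, Finset.sum_div]
    unfold wt
    simp only [if_true]
    congr 1
    · ring
    · refine Finset.sum_congr rfl fun i _ => ?_
      simp only [reduceCtorEq, if_false]
      ring
  simp_rw [h1]
  rw [Finset.sum_const, Finset.card_univ, Fintype.card_pi]
  simp only [Fintype.card_bool, Finset.prod_const, Finset.card_univ, Fintype.card_fin,
    nsmul_eq_mul]
  push_cast
  field_simp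

theorem wt_sum {k : ℕ} (hk : 1 ≤ k) (π : ℝ) :
    ∑ ω : (Fin k → Bool) × Option (Fin k), wt k π ω = 1 := by
  have h := wt_sum_gen k π (fun _ => 1)
  simp only [mul_one] at h
  rw [h]
  have : (k : ℝ) ≠ 0 := by
    have : (0 : ℝ) < k := by exact_mod_cast hk
    exact this.ne'
  simp only [Finset.sum_const, Finset.card_univ, Fintype.card_fin, nsmul_eq_mul]
  field_simp
  ring

theorem wt_sum_mode {k : ℕ} (hk : 1 ≤ k) (π : ℝ) :
    ∑ ω : (Fin k → Bool) × Option (Fin k), wt k π ω * (if ω.2 = none then 0 else 1) = π := by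
  have h := wt_sum_gen k π (fun m => if m = none then 0 else 1)
  rw [h]
  have : (k : ℝ) ≠ 0 := by
    have : (0 : ℝ) < k := by exact_mod_cast hk
    exact this.ne'
  simp only [if_true, mul_zero, zero_add, reduceCtorEq, if_false, mul_one, Finset.sum_const,
    Finset.card_univ, Fintype.card_fin, nsmul_eq_mul]
  field_simp

variable {E : Type} [NormedAddCommGroup E] [NormedSpace ℝ E]

theorem uv_map (T : E ≃ₗᵢ[ℝ] E) (k : ℕ) (h : ℝ) (d : Fin k → (Fin k → Bool) → E)
    (ω : (Fin k → Bool) × Option (Fin k)) :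
    uv k h (fun i ε => T (d i ε)) ω = T (uv k h d ω) := by
  obtain ⟨ε, m⟩ := ω
  cases m with
  | none =>
    simp only [uv, map_sum, map_smul]
  | some i =>
    simp only [uv, map_smul]

end M1

open M1

theorem m1 (hU : S_U) : S_M1 := by
  intro E _ _ J C A hC hA hCI hJs hJb η B c hη hη1 hB hc hTB hCB k M t π δ σ C₀ d T hk hM ht ht1
    hC₀ hπ hπ1 hδ hδ1 hσ hPred hd hV hw
  have hkR : (1 : ℝ) ≤ k := by exact_mod_cast hk
  have hMR : (1 : ℝ) ≤ M := by exact_mod_cast hM
  have hMpos : (0 : ℝ) < M := by linarith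
  have hC0pos : 0 < C₀ := by linarith
  have hπh : π * C₀ ≤ 1 / 2 := by
    calc π * C₀ ≤ 1 / (2 * C₀) * C₀ := by gcongr
      _ = 1 / 2 := by field_simp
  have hπ2 : π ≤ 1 / 2 := by
    calc π = π * 1 := (mul_one _).symm
      _ ≤ π * C₀ := by gcongr
      _ ≤ 1 / 2 := hπh
  -- the enlarged steps
  have hkt : 1 ≤ k * (C₀ * t) := by
    have h1 := hV (fun _ => true)
    refine h1.trans ((norm_sum_le _ _).trans ?_)
    calc ∑ i : Fin k, ‖sg ((fun _ => true : Fin k → Bool) i) • d i (fun _ => true)‖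
        ≤ ∑ _i : Fin k, C₀ * t := by
          refine Finset.sum_le_sum fun i _ => ?_
          rw [norm_smul]
          have : ‖sg ((fun _ => true : Fin k → Bool) i)‖ = 1 := by simp [sg]
          rw [this, one_mul]
          exact hd _ _
      _ = k * (C₀ * t) := by simp
  have hbal : π * (1 / t) ≤ (1 - π) * k := by
    have h1 : 1 / t ≤ k * C₀ := by
      rw [div_le_iff₀ ht]
      linarith [hkt]
    calc π * (1 / t) ≤ π * (k * C₀) := by gcongr
      _ = (π * C₀) * k := by ring
      _ ≤ (1 / 2) * k := by gcongr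
      _ ≤ (1 - π) * k := by
          gcongr
          linarith
  set dd : Fin M → Fin k → (Fin k → Bool) → E := fun j i ε => T j (d i ε) with hdd
  set F : (Fin M → (Fin k → Bool) × Option (Fin k)) → ℝ := fun ω =>
    av fun s : Fin M → Bool => ‖sm s fun j => uv k (1 / t) (dd j) (ω j)‖ ^ 2 with hF
  set FD : (Fin M → (Fin k → Bool) × Option (Fin k)) → ℝ := fun ω =>
    av fun s : Fin M → Bool =>
      ‖sm s fun j => if (ω j).2 = none then 0 else uv k (1 / t) (dd j) (ω j)‖ ^ 2 with hFD
  have hw0 : ∀ ω, 0 ≤ wt k π ω := wt_nonneg k hπ.le (by linarith)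
  have hF0 : 0 ≤ ex (wt k π) F := by
    unfold ex
    exact Finset.sum_nonneg fun ω _ => mul_nonneg (Finset.prod_nonneg fun j _ => hw0 _)
      (av_nonneg fun s => sq_nonneg _)
  have hFD0 : 0 ≤ ex (wt k π) FD := by
    unfold ex
    exact Finset.sum_nonneg fun ω _ => mul_nonneg (Finset.prod_nonneg fun j _ => hw0 _)
      (av_nonneg fun s => sq_nonneg _)
  set nn : (Fin M → (Fin k → Bool) × Option (Fin k)) → ℝ := fun ω =>
    ∑ j, (if (ω j).2 = none then 0 else 1) with hnn
  have hexn : ex (wt k π) nn = M * π := by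
    have h1 := ex_coord (ι := Fin M) (wt_sum hk π)
      (fun ω : (Fin k → Bool) × Option (Fin k) => if ω.2 = none then (0 : ℝ) else 1)
    rw [wt_sum_mode hk π, Fintype.card_fin] at h1
    exact h1
  -- lower bound for the second moment
  have hlow : c / 2 * (M : ℝ) ^ (1 - η) ≤ ex (wt k π) F := by
    have h1 : ∀ ω, c * (M : ℝ) ^ (-η) * ∑ j, (if (ω j).2 = none then 1 else 0) ≤ F ω := by
      intro ω
      set D : Finset (Fin M) := Finset.univ.filter (fun j => (ω j).2 = none) with hD
      have hcard : (∑ j, (if (ω j).2 = none then (1 : ℝ) else 0)) = D.card := by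
        rw [Finset.sum_ite, Finset.sum_const_zero, add_zero, Finset.sum_const, nsmul_eq_mul,
          mul_one]
      rw [hcard]
      have h2 := sym D (fun j => uv k (1 / t) (dd j) (ω j))
      have h3 := hCB (Fin M) D (fun j => uv k (1 / t) (dd j) (ω j)) (by
        intro j hj
        have hj' : (ω j).2 = none := (Finset.mem_filter.1 hj).2
        rw [hdd]
        simp only
        rw [uv_map, LinearIsometryEquiv.norm_map]
        have h4 : uv k (1 / t) d (ω j) = ∑ i, sg ((ω j).1 i) • d i (ω j).1 := by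
          unfold uv
          rw [hj']
        rw [h4]
        exact hV _)
      have h5 : c * (M : ℝ) ^ (-η) * (D.card : ℝ) ≤ c * (D.card : ℝ) ^ (1 - η) := by
        rcases Nat.eq_zero_or_pos D.card with h0 | h0
        · rw [h0, Nat.cast_zero, mul_zero]
          exact mul_nonneg hc.le (Real.rpow_nonneg le_rfl _)
        · have h0' : (0 : ℝ) < D.card := by exact_mod_cast h0
          have h6 : (D.card : ℝ) ≤ M := by
            have := Finset.card_le_univ D
            rw [Fintype.card_fin] at this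
            exact_mod_cast this
          rw [mul_assoc]
          refine mul_le_mul_of_nonneg_left ?_ hc.le
          rw [sub_eq_add_neg, add_comm, Real.rpow_add h0', Real.rpow_one]
          refine mul_le_mul_of_nonneg_right ?_ h0'.le
          exact Real.rpow_le_rpow_of_nonpos h0' h6 (by linarith)
      exact h5.trans (h3.trans h2)
    have h2 := ex_mono hw0 h1
    rw [ex_const_mul (wt k π) (c * (M : ℝ) ^ (-η))
      (fun ω : Fin M → (Fin k → Bool) × Option (Fin k) =>
        ∑ j, (if (ω j).2 = none then (1 : ℝ) else 0))] at h2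
    have h3 := ex_coord (ι := Fin M) (wt_sum hk π)
      (fun ω : (Fin k → Bool) × Option (Fin k) => if ω.2 = none then (1 : ℝ) else 0)
    have h4 := wt_sum_gen k π (fun m => if m = none then 1 else 0)
    simp only [if_true, mul_one, reduceCtorEq, if_false, mul_zero, Finset.sum_const_zero,
      add_zero] at h4
    rw [h4, Fintype.card_fin] at h3
    rw [h3] at h2
    refine le_trans ?_ h2
    have h5 : (M : ℝ) ^ (1 - η) = (M : ℝ) ^ (-η) * M := by
      rw [sub_eq_add_neg, add_comm, Real.rpow_add hMpos, Real.rpow_one]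
    rw [h5]
    have h6 : 0 ≤ c * (M : ℝ) ^ (-η) * M := by positivity
    nlinarith
  -- upper bound for the moment of the enlarged part
  have hup : ex (wt k π) FD ≤ (C₀ * Real.sqrt (B * π) * (M : ℝ) ^ ((1 + η) / 2)) ^ 2 := by
    have h1 : ∀ ω, FD ω ≤ C₀ ^ 2 * B * (M : ℝ) ^ η * nn ω := by
      intro ω
      set D : Finset (Fin M) := Finset.univ.filter (fun j => ¬ (ω j).2 = none) with hD
      have hcard : nn ω = D.card := by
        rw [hnn]
        simp only
        rw [Finset.sum_ite, Finset.sum_const_zero, zero_add, Finset.sum_const, nsmul_eq_mul,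
          mul_one]
      have h2 : FD ω = av fun s : Fin M → Bool =>
          ‖∑ j ∈ D, sg (s j) • uv k (1 / t) (dd j) (ω j)‖ ^ 2 := by
        rw [hFD]
        simp only
        congr 1
        funext s
        congr 2
        unfold sm
        rw [hD, Finset.sum_filter]
        refine Finset.sum_congr rfl fun j _ => ?_
        by_cases hj : (ω j).2 = none
        · simp [hj]
        · simp [hj]
      rw [h2, hcard]
      have h3 := tb_scaled hTB D (fun j => uv k (1 / t) (dd j) (ω j)) hC0pos (by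
        intro j hj
        have hj' : ¬ (ω j).2 = none := (Finset.mem_filter.1 hj).2
        obtain ⟨i, hi⟩ := Option.ne_none_iff_exists'.1 hj'
        rw [hdd]
        simp only
        rw [uv_map, LinearIsometryEquiv.norm_map]
        have h4 : uv k (1 / t) d (ω j) = (1 / t) • d i (ω j).1 := by
          unfold uv
          rw [hi]
        rw [h4, norm_smul, Real.norm_eq_abs, abs_of_pos (by positivity)]
        calc 1 / t * ‖d i (ω j).1‖ ≤ 1 / t * (C₀ * t) := by
              gcongr
              exact hd _ _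
          _ = C₀ := by field_simp)
      refine h3.trans ?_
      rw [mul_assoc (C₀ ^ 2 * B)]
      refine mul_le_mul_of_nonneg_left ?_ (by positivity)
      rcases Nat.eq_zero_or_pos D.card with h0 | h0
      · rw [h0, Nat.cast_zero, mul_zero, Real.zero_rpow (by linarith)]
      · have h0' : (0 : ℝ) < D.card := by exact_mod_cast h0
        have h6 : (D.card : ℝ) ≤ M := by
          have := Finset.card_le_univ D
          rw [Fintype.card_fin] at this
          exact_mod_cast this
        rw [add_comm, Real.rpow_add h0', Real.rpow_one]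
        refine mul_le_mul_of_nonneg_right ?_ h0'.le
        exact Real.rpow_le_rpow h0'.le h6 hη.le
    have h2 := ex_mono hw0 h1
    rw [ex_const_mul (wt k π) (C₀ ^ 2 * B * (M : ℝ) ^ η) nn, hexn] at h2
    refine h2.trans (le_of_eq ?_)
    rw [mul_pow, mul_pow, Real.sq_sqrt (by positivity), ← Real.rpow_natCast ((M : ℝ) ^ ((1 + η) / 2)),
      ← Real.rpow_mul hMpos.le]
    have h7 : (1 + η) / 2 * ((2 : ℕ) : ℝ) = η + 1 := by
      push_cast
      ring
    rw [h7, Real.rpow_add hMpos, Real.rpow_one]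
    ring
  -- apply U
  set R : ℝ := C₀ * t * Real.sqrt B * (M : ℝ) ^ ((1 + η) / 2) with hR
  have hR0 : 0 ≤ R := by positivity
  have hRR : R ^ 2 = (C₀ * t) ^ 2 * B * (M : ℝ) ^ (1 + η) := by
    rw [hR, mul_pow, mul_pow, Real.sq_sqrt hB.le, ← Real.rpow_natCast ((M : ℝ) ^ ((1 + η) / 2)),
      ← Real.rpow_mul hMpos.le]
    have h7 : (1 + η) / 2 * ((2 : ℕ) : ℝ) = 1 + η := by
      push_cast
      ring
    rw [h7]
  have hUU := hU E J C A hC hA hCI hJs hJb (Fin M) k π (1 / t) dd δ σ R hk hπ hπ2 (by positivity)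
    hbal (fun j i ε ε' h => by
      rw [hdd]
      simp only
      rw [hPred i ε ε' h]) hδ hδ1 hσ hR0
    (fun g hg ω => by
      refine le_trans (le_of_eq ?_) (hw g hg ω)
      refine Finset.sum_congr rfl fun j _ => ?_
      rw [hdd]
      simp only
      rw [uv_map])
    (fun i ω => by
      have h1 := tb_scaled hTB (Finset.univ : Finset (Fin M)) (fun j => dd j i (ω j))
        (a := C₀ * t) (by positivity) (fun j _ => by
          rw [hdd]
          simp only
          rw [LinearIsometryEquiv.norm_map]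
          exact hd _ _)
      rw [Finset.card_univ, Fintype.card_fin] at h1
      rw [hRR]
      exact h1)
    (Real.sqrt (ex (wt k π) F)) (Real.sqrt (ex (wt k π) FD)) (Real.sqrt_nonneg _)
    (Real.sqrt_nonneg _) (Real.sq_sqrt hF0) (Real.sq_sqrt hFD0)
  have hLpos : 0 < Real.sqrt (ex (wt k π) F) := by
    rw [Real.sqrt_pos]
    refine lt_of_lt_of_le ?_ hlow
    positivity
  refine ⟨Real.sqrt (ex (wt k π) F), hLpos, ?_, ?_⟩
  · rw [Real.sq_sqrt hF0]
    exact hlow
  · refine hUU.trans ?_
    have hLD : Real.sqrt (ex (wt k π) FD) ≤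
        C₀ * Real.sqrt (B * π) * (M : ℝ) ^ ((1 + η) / 2) := by
      rw [Real.sqrt_le_left (by positivity)]
      exact hup
    have e1 : (1 + (k : ℝ) / (π * (1 / t) ^ 2)) = 1 + k * t ^ 2 / π := by
      field_simp
    have e2 : (k : ℝ) ^ 2 / (π * (1 / t)) = (k : ℝ) ^ 2 * t / π := by
      field_simp
    rw [e1, e2]
    gcongr

end Pool.Agent.H65.BM
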