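import Pool.Agent.H65.BM.S4
import Pool.Agent.H65.BM.M1

/-!
# Project BM4: proof of `S_M1C` from `S_UC2`, `S_CBS`, `S_SUB`
-/

set_option autoImplicit false

namespace Pool.Agent.H65.BM

namespace M1C

open M1

/-- the law of the mode -/
noncomputable def q (k : ℕ) (π : ℝ) (m : Option (Fin k)) : ℝ := if m = none then 1 - π else π / k

theorem q_nonneg (k : ℕ) {π : ℝ} (h0 : 0 ≤ π) (h1 : π ≤ 1) (m : Option (Fin k)) :
    0 ≤ q k π m := by
  unfold q
  split_ifs
  · linarith
  · positivity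

theorem q_sum_gen (k : ℕ) (π : ℝ) (f : Option (Fin k) → ℝ) :
    ∑ m : Option (Fin k), q k π m * f m = (1 - π) * f none + ∑ i : Fin k, π / k * f (some i) := by
  rw [Fintype.sum_option]
  unfold q
  simp

theorem q_sum {k : ℕ} (hk : 1 ≤ k) (π : ℝ) : ∑ m : Option (Fin k), q k π m = 1 := by
  have h := q_sum_gen k π (fun _ => 1)
  simp only [mul_one] at h
  rw [h]
  have : (k : ℝ) ≠ 0 := by
    have : (0 : ℝ) < k := by exact_mod_cast hk
    exact this.ne'
  simp only [Finset.sum_const, Finset.card_univ, Fintype.card_fin, nsmul_eq_mul]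
  field_simp
  ring

/-- the expectation over paths and modes -/
theorem ex_split (k M : ℕ) (π : ℝ) (H : (Fin M → (Fin k → Bool) × Option (Fin k)) → ℝ) :
    ex (wt k π) H = (∑ ε : Fin M → (Fin k → Bool),
      ex (q k π) (fun m : Fin M → Option (Fin k) => H (fun j => (ε j, m j)))) /
        ((2 : ℝ) ^ k) ^ M := by
  unfold ex
  rw [← (Equiv.arrowProdEquivProdArrow (Fin M) (fun _ => Fin k → Bool)
    (fun _ => Option (Fin k))).symm.sum_comp, Fintype.sum_prod_type, Finset.sum_div]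
  refine Finset.sum_congr rfl fun ε _ => ?_
  rw [Finset.sum_div]
  refine Finset.sum_congr rfl fun m _ => ?_
  have h1 : ∏ j : Fin M, wt k π (ε j, m j) = (∏ j, q k π (m j)) / ((2 : ℝ) ^ k) ^ M := by
    have h2 : ∀ j : Fin M, wt k π (ε j, m j) = q k π (m j) / 2 ^ k := fun j => rfl
    simp_rw [h2]
    rw [Finset.prod_div_distrib, Finset.prod_const, Finset.card_univ, Fintype.card_fin]
  have h3 : (∏ j : Fin M, wt k π (((Equiv.arrowProdEquivProdArrow (Fin M)
      (fun _ => Fin k → Bool) (fun _ => Option (Fin k))).symm (ε, m)) j)) *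
      H ((Equiv.arrowProdEquivProdArrow (Fin M)
      (fun _ => Fin k → Bool) (fun _ => Option (Fin k))).symm (ε, m)) =
      (∏ j : Fin M, wt k π (ε j, m j)) * H (fun j => (ε j, m j)) := rfl
  rw [h3, h1]
  ring

variable {E : Type} [NormedAddCommGroup E] [NormedSpace ℝ E]

/-- convexity: the mean over the modes -/
theorem jensen {k M : ℕ} (hk : 1 ≤ k) {π : ℝ} (h0 : 0 ≤ π) (h1 : π ≤ 1) (z : Fin M → E) :
    (1 - π) ^ 2 * ‖∑ j, z j‖ ^ 2 ≤ ex (q k π) (fun m : Fin M → Option (Fin k) =>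
      ‖∑ j, if m j = none then z j else 0‖ ^ 2) := by
  set Y : (Fin M → Option (Fin k)) → E := fun m => ∑ j, if m j = none then z j else 0 with hY
  have hW0 : ∀ m : Fin M → Option (Fin k), 0 ≤ ∏ j, q k π (m j) := fun m =>
    Finset.prod_nonneg fun j _ => q_nonneg k h0 h1 _
  have hW1 : ∑ m : Fin M → Option (Fin k), ∏ j, q k π (m j) = 1 := by
    have h2 := Finset.prod_univ_sum (fun _ : Fin M => (Finset.univ : Finset (Option (Fin k))))
      (fun _ m => q k π m)
    rw [Fintype.piFinset_univ] at h2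
    rw [← h2]
    simp_rw [q_sum hk π]
    simp
  have hmean : ∑ m : Fin M → Option (Fin k), (∏ j, q k π (m j)) • Y m =
      (1 - π) • ∑ j, z j := by
    rw [hY]
    simp only [Finset.smul_sum]
    rw [Finset.sum_comm]
    refine Finset.sum_congr rfl fun j _ => ?_
    have h2 := ex_coord1 (q_sum hk π) (fun m : Option (Fin k) => if m = none then (1 : ℝ) else 0) j
    unfold ex at h2
    rw [q_sum_gen] at h2
    simp only [if_true, reduceCtorEq, if_false, mul_zero, Finset.sum_const_zero, add_zero,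
      mul_one] at h2
    rw [← h2, Finset.sum_smul]
    refine Finset.sum_congr rfl fun m _ => ?_
    by_cases h : m j = none
    · simp [h]
    · simp [h]
  have hN : (1 - π) * ‖∑ j, z j‖ ≤ ∑ m : Fin M → Option (Fin k), (∏ j, q k π (m j)) * ‖Y m‖ := by
    have h2 : ‖(1 - π) • ∑ j, z j‖ = (1 - π) * ‖∑ j, z j‖ := by
      rw [norm_smul, Real.norm_eq_abs, abs_of_nonneg (by linarith)]
    rw [← h2, ← hmean]
    refine (norm_sum_le _ _).trans (le_of_eq ?_)
    refine Finset.sum_congr rfl fun m _ => ?_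
    rw [norm_smul, Real.norm_eq_abs, abs_of_nonneg (hW0 m)]
  have hCS : (∑ m : Fin M → Option (Fin k), (∏ j, q k π (m j)) * ‖Y m‖) ^ 2 ≤
      ∑ m : Fin M → Option (Fin k), (∏ j, q k π (m j)) * ‖Y m‖ ^ 2 := by
    have h3 : ∀ a : ℝ, 2 * a * (∑ m : Fin M → Option (Fin k), (∏ j, q k π (m j)) * ‖Y m‖) - a ^ 2 ≤
        ∑ m : Fin M → Option (Fin k), (∏ j, q k π (m j)) * ‖Y m‖ ^ 2 := by
      intro a
      have h4 : ∑ m : Fin M → Option (Fin k), (∏ j, q k π (m j)) * (2 * a * ‖Y m‖ - a ^ 2) ≤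
          ∑ m : Fin M → Option (Fin k), (∏ j, q k π (m j)) * ‖Y m‖ ^ 2 := by
        refine Finset.sum_le_sum fun m _ => mul_le_mul_of_nonneg_left ?_ (hW0 m)
        nlinarith [sq_nonneg (‖Y m‖ - a)]
      refine le_trans (le_of_eq ?_) h4
      have h5 : ∑ m : Fin M → Option (Fin k), (∏ j, q k π (m j)) * (2 * a * ‖Y m‖ - a ^ 2) =
          2 * a * (∑ m : Fin M → Option (Fin k), (∏ j, q k π (m j)) * ‖Y m‖) -
            a ^ 2 * ∑ m : Fin M → Option (Fin k), ∏ j, q k π (m j) := by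
        rw [Finset.mul_sum, Finset.mul_sum, ← Finset.sum_sub_distrib]
        refine Finset.sum_congr rfl fun m _ => ?_
        ring
      rw [h5, hW1]
      ring
    have h6 := h3 (∑ m : Fin M → Option (Fin k), (∏ j, q k π (m j)) * ‖Y m‖)
    nlinarith
  have hge : 0 ≤ (1 - π) * ‖∑ j, z j‖ := mul_nonneg (by linarith) (norm_nonneg _)
  calc (1 - π) ^ 2 * ‖∑ j, z j‖ ^ 2 = ((1 - π) * ‖∑ j, z j‖) ^ 2 := by ring
    _ ≤ (∑ m : Fin M → Option (Fin k), (∏ j, q k π (m j)) * ‖Y m‖) ^ 2 :=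
        pow_le_pow_left₀ hge hN 2
    _ ≤ _ := hCS

end M1C

open M1 M1C

theorem m1c : S_M1C := by
  intro hUC2 hCBS hSUB E _ _ J D a hD ha hCI hJs hJb c hc hCB k M n t σ C₀ Φ b d T hk hM hC₀ hn
    ht ht1 hktn hσ hΦ hb hPred hd hV hw hlo hupp
  have hkR : (1 : ℝ) ≤ k := by exact_mod_cast hk
  have hC0pos : 0 < C₀ := by linarith
  have hn2 : (2 : ℝ) ≤ n := by linarith
  have hn0 : (0 : ℝ) < n := by linarith
  have hn1 : 1 ≤ n := by
    have : (1 : ℝ) ≤ n := by linarith
    exact_mod_cast this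
  obtain ⟨π, hπe⟩ : ∃ π : ℝ, π = 1 / n := ⟨_, rfl⟩
  have hπ : 0 < π := by rw [hπe]; positivity
  have hπ2 : π ≤ 1 / 2 := by
    rw [hπe]
    exact one_div_le_one_div_of_le (by norm_num) hn2
  have hπh : π * C₀ ≤ 1 / 2 := by
    rw [hπe, one_div, inv_mul_le_iff₀ hn0]
    linarith
  -- the enlarged steps
  have hkt : 1 ≤ k * (C₀ * t) := by
    have h1 := hV (fun _ => true)
    refine h1.trans ((norm_sum_le _ _).trans ?_)
    calc ∑ i : Fin k, ‖sg ((fun _ => true : Fin k → Bool) i) • d i (fun _ => true)‖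
        ≤ ∑ _i : Fin k, C₀ * t := by
          refine Finset.sum_le_sum fun i _ => ?_
          rw [norm_smul]
          have : ‖sg ((fun _ => true : Fin k → Bool) i)‖ = 1 := by simp [sg]
          rw [this, one_mul]
          exact hd _ _
      _ = k * (C₀ * t) := by simp
  have hbal : π * (1 / t) ≤ (1 - π) * k := by
    have h1 : 1 / t ≤ k * C₀ := by
      rw [div_le_iff₀ ht]
      linarith [hkt]
    calc π * (1 / t) ≤ π * (k * C₀) := by gcongr
      _ = (π * C₀) * k := by ring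
      _ ≤ (1 / 2) * k := by gcongr
      _ ≤ (1 - π) * k := by
          gcongr
          linarith
  obtain ⟨dd, hdd⟩ : ∃ dd : Fin M → Fin k → (Fin k → Bool) → E, dd = fun j i ε => T j (d i ε) :=
    ⟨_, rfl⟩
  have hddj : ∀ j, dd j = fun i ε => T j (d i ε) := fun j => by rw [hdd]
  obtain ⟨F, hF⟩ : ∃ F : (Fin M → (Fin k → Bool) × Option (Fin k)) → ℝ, F = fun ω =>
    av fun s : Fin M → Bool => ‖sm s fun j => uv k (1 / t) (dd j) (ω j)‖ ^ 2 := ⟨_, rfl⟩
  obtain ⟨FD, hFD⟩ : ∃ FD : (Fin M → (Fin k → Bool) × Option (Fin k)) → ℝ, FD = fun ω =>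
    av fun s : Fin M → Bool =>
      ‖sm s fun j => if (ω j).2 = none then 0 else uv k (1 / t) (dd j) (ω j)‖ ^ 2 := ⟨_, rfl⟩
  have hw0 : ∀ ω, 0 ≤ wt k π ω := M1.wt_nonneg k hπ.le (by linarith)
  have hF0 : 0 ≤ ex (wt k π) F := by
    unfold ex
    refine Finset.sum_nonneg fun ω _ => mul_nonneg (Finset.prod_nonneg fun j _ => hw0 _) ?_
    rw [hF]
    exact av_nonneg fun s => sq_nonneg _
  have hFD0 : 0 ≤ ex (wt k π) FD := by
    unfold ex
    refine Finset.sum_nonneg fun ω _ => mul_nonneg (Finset.prod_nonneg fun j _ => hw0 _) ?_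
    rw [hFD]
    exact av_nonneg fun s => sq_nonneg _
  -- lower bound
  have hlow : b / 4 * Φ ≤ ex (wt k π) F := by
    have h1 : ∀ ω, av (fun s : Fin M → Bool => ‖∑ j, if (ω j).2 = none then
        sg (s j) • T j (∑ i, sg ((ω j).1 i) • d i (ω j).1) else 0‖ ^ 2) ≤ F ω := by
      intro ω
      set Df : Finset (Fin M) := Finset.univ.filter (fun j => (ω j).2 = none) with hDf
      have h2 := M1.sym Df (fun j => uv k (1 / t) (dd j) (ω j))
      rw [hF]
      refine le_trans (le_of_eq ?_) h2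
      congr 1
      funext s
      congr 2
      rw [hDf, Finset.sum_filter]
      refine Finset.sum_congr rfl fun j _ => ?_
      by_cases hj : (ω j).2 = none
      · rw [if_pos hj, if_pos hj, hddj j, uv_map]
        congr 2
        unfold uv
        rw [hj]
      · rw [if_neg hj, if_neg hj]
    refine le_trans ?_ (ex_mono hw0 h1)
    rw [ex_split]
    have h3 : ∀ ε : Fin M → (Fin k → Bool), b / 4 * Φ ≤
        ex (q k π) (fun m : Fin M → Option (Fin k) => av (fun s : Fin M → Bool =>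
          ‖∑ j, if m j = none then sg (s j) • T j (∑ i, sg (ε j i) • d i (ε j)) else 0‖ ^ 2)) := by
      intro ε
      have h4 : ex (q k π) (fun m : Fin M → Option (Fin k) => av (fun s : Fin M → Bool =>
          ‖∑ j, if m j = none then sg (s j) • T j (∑ i, sg (ε j i) • d i (ε j)) else 0‖ ^ 2)) =
          av (fun s : Fin M → Bool => ex (q k π) (fun m : Fin M → Option (Fin k) =>
          ‖∑ j, if m j = none then sg (s j) • T j (∑ i, sg (ε j i) • d i (ε j)) else 0‖ ^ 2)) := by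
        unfold ex av
        rw [Finset.sum_comm, Finset.sum_div]
        refine Finset.sum_congr rfl fun m _ => ?_
        rw [← Finset.mul_sum, mul_div_assoc]
      rw [h4]
      have h5 : ∀ s : Fin M → Bool, (1 - π) ^ 2 *
          ‖∑ j, sg (s j) • T j (∑ i, sg (ε j i) • d i (ε j))‖ ^ 2 ≤
          ex (q k π) (fun m : Fin M → Option (Fin k) =>
          ‖∑ j, if m j = none then sg (s j) • T j (∑ i, sg (ε j i) • d i (ε j)) else 0‖ ^ 2) :=
        fun s => jensen hk hπ.le (by linarith)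
          (fun j => sg (s j) • T j (∑ i, sg (ε j i) • d i (ε j)))
      refine le_trans ?_ (av_mono h5)
      rw [av_const_mul]
      have h6 := hlo ε
      have h7 : 1 / 4 ≤ (1 - π) ^ 2 := by nlinarith
      have h8 : 0 ≤ b * Φ := by positivity
      calc b / 4 * Φ = 1 / 4 * (b * Φ) := by ring
        _ ≤ (1 - π) ^ 2 * (b * Φ) := by gcongr
        _ ≤ _ := by gcongr
    rw [le_div_iff₀ (by positivity)]
    have h9 : ∑ _ε : Fin M → (Fin k → Bool), b / 4 * Φ = b / 4 * Φ * ((2 : ℝ) ^ k) ^ M := by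
      rw [Finset.sum_const, Finset.card_univ, nsmul_eq_mul]
      have : (Fintype.card (Fin M → (Fin k → Bool)) : ℝ) = ((2 : ℝ) ^ k) ^ M := by
        simp
      rw [this]
      ring
    rw [← h9]
    exact Finset.sum_le_sum fun ε _ => h3 ε
  -- upper bound for the moment of the enlarged part
  have hup : ex (wt k π) FD ≤ 2 / (c * Real.sqrt n) * (C₀ ^ 2 * Φ) := by
    have h1 := hSUB hCBS E c hc hCB (Fin M) ((Fin k → Bool) × Option (Fin k)) (wt k π)
      (fun ω => ω.2 ≠ none) n (fun j ω => uv k (1 / t) (dd j) ω) (C₀ ^ 2 * Φ) hn1 hw0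
      (M1.wt_sum hk π) (by
        have h2 := M1.wt_sum_mode hk π
        refine Eq.trans ?_ (h2.trans hπe)
        refine Finset.sum_congr rfl fun ω _ => ?_
        by_cases h : ω.2 = none
        · simp [h]
        · simp [h]) (by positivity) (by
        intro ω hω
        have h3 : ∀ j, ∃ i, (ω j).2 = some i := fun j => Option.ne_none_iff_exists'.1 (hω j)
        choose i hi using h3
        have h4 : ∀ s : Fin M → Bool, ‖∑ j, sg (s j) • uv k (1 / t) (dd j) (ω j)‖ ^ 2 =
            (1 / t) ^ 2 * ‖∑ j, sg (s j) • T j (d (i j) (ω j).1)‖ ^ 2 := by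
          intro s
          have h5 : ∑ j, sg (s j) • uv k (1 / t) (dd j) (ω j) =
              (1 / t) • ∑ j, sg (s j) • T j (d (i j) (ω j).1) := by
            rw [Finset.smul_sum]
            refine Finset.sum_congr rfl fun j _ => ?_
            have h6 : uv k (1 / t) (dd j) (ω j) = (1 / t) • T j (d (i j) (ω j).1) := by
              unfold uv
              rw [hi j, hddj j]
            rw [h6, smul_comm]
          rw [h5, norm_smul, mul_pow, Real.norm_eq_abs, sq_abs]
        simp_rw [h4]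
        rw [av_const_mul]
        have h7 := hupp i (fun j => (ω j).1)
        calc (1 / t) ^ 2 * av (fun s : Fin M → Bool =>
              ‖∑ j, sg (s j) • T j (d (i j) (ω j).1)‖ ^ 2)
            ≤ (1 / t) ^ 2 * ((C₀ * t) ^ 2 * Φ) := by gcongr
          _ = C₀ ^ 2 * Φ := by field_simp)
    refine le_trans (le_of_eq ?_) h1
    congr 1
    funext ω
    rw [hFD]
    simp only
    congr 1
    funext s
    congr 2
    unfold sm
    refine Finset.sum_congr rfl fun j _ => ?_
    by_cases hj : (ω j).2 = none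
    · simp [hj]
    · simp [hj]
  -- apply UC2
  obtain ⟨R, hR⟩ : ∃ R : ℝ, R = C₀ * t * Real.sqrt Φ := ⟨_, rfl⟩
  have hR0 : 0 ≤ R := by rw [hR]; positivity
  have hRR : R ^ 2 = (C₀ * t) ^ 2 * Φ := by
    rw [hR, mul_pow, Real.sq_sqrt hΦ.le]
  have hUU := hUC2 E J D a hD ha hCI hJs hJb (Fin M) k π (1 / t) dd σ R hk hπ hπ2 (by positivity)
    hbal (fun j i ε ε' h => by
      rw [hdd]
      simp only
      rw [hPred i ε ε' h]) hσ hR0
    (fun g hg ω => by
      refine le_trans (le_of_eq ?_) (hw g hg ω)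
      refine Finset.sum_congr rfl fun j _ => ?_
      rw [hddj j, uv_map])
    (fun i ω => by
      rw [hRR, hdd]
      exact hupp (fun _ => i) ω)
    (Real.sqrt (ex (wt k π) F)) (Real.sqrt (ex (wt k π) FD)) (Real.sqrt_nonneg _)
    (Real.sqrt_nonneg _) (by rw [Real.sq_sqrt hF0, hF]) (by rw [Real.sq_sqrt hFD0, hFD])
  have hLpos : 0 < Real.sqrt (ex (wt k π) F) := by
    rw [Real.sqrt_pos]
    refine lt_of_lt_of_le ?_ hlow
    positivity
  refine ⟨Real.sqrt (ex (wt k π) F), hLpos, ?_, ?_⟩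
  · rw [Real.sq_sqrt hF0]
    exact hlow
  · refine hUU.trans ?_
    have hLD : Real.sqrt (ex (wt k π) FD) ≤ C₀ * Real.sqrt (2 / (c * Real.sqrt n) * Φ) := by
      rw [Real.sqrt_le_left (by positivity)]
      refine hup.trans (le_of_eq ?_)
      rw [mul_pow, Real.sq_sqrt (by positivity)]
      ring
    have e1 : (1 + (k : ℝ) / (π * (1 / t) ^ 2)) ≤ 2 := by
      have h1 : (k : ℝ) / (π * (1 / t) ^ 2) = k * t ^ 2 * n := by
        rw [hπe]
        field_simp
      rw [h1]
      linarith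
    have e2 : (k : ℝ) ^ 2 / (π * (1 / t)) = (k : ℝ) ^ 2 * t * n := by
      rw [hπe]
      field_simp
    rw [e2, hR]
    have hL0 : 0 ≤ Real.sqrt (ex (wt k π) F) := Real.sqrt_nonneg _
    have hLD0 : 0 ≤ Real.sqrt (ex (wt k π) FD) := Real.sqrt_nonneg _
    gcongr

end Pool.Agent.H65.BM
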