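import Pool.Agent.H65.BM.S

/-!
# Project BM: job M2 (numbers; helper85)
-/

set_option autoImplicit false

namespace Pool.Agent.H65.BM

theorem m2 : S_M2 := by
  intro A c₁ q hA hc hc' hq hq'
  obtain ⟨B₁, hB₁⟩ : ∃ B₁ : ℝ, B₁ = 16 * (A + 1) / c₁ := ⟨_, rfl⟩
  have hB₁16 : 16 ≤ B₁ := by
    rw [hB₁, le_div_iff₀ hc]
    nlinarith
  have hB₁c : B₁ * c₁ = 16 * (A + 1) := by rw [hB₁]; field_simp
  obtain ⟨η, hη⟩ : ∃ η : ℝ, η = (2 - q) / (4 * B₁) := ⟨_, rfl⟩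
  have hB₁0 : 0 < B₁ := by linarith
  have hη0 : 0 < η := by
    rw [hη]
    apply div_pos <;> linarith
  have hηB : B₁ * η = (2 - q) / 4 := by rw [hη]; field_simp
  have hηc : 6 * η ≤ c₁ := by
    by_contra hcon
    push Not at hcon
    nlinarith
  have hη1 : η < 1 := by linarith
  refine ⟨η, hη0, hη1, ?_⟩
  intro B c C C' C₀ hB hc0 hC hC' hC₀
  obtain ⟨a, ha⟩ : ∃ a : ℝ, a = Real.sqrt (c / 2) := ⟨_, rfl⟩
  have ha0 : 0 < a := by rw [ha]; positivity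
  have ha2 : a ^ 2 = c / 2 := by rw [ha]; exact Real.sq_sqrt (by positivity)
  have hsB : 0 < Real.sqrt B := Real.sqrt_pos.2 hB
  have hsC' : 0 < Real.sqrt C' := Real.sqrt_pos.2 hC'
  obtain ⟨K1, hK1⟩ : ∃ K1 : ℝ, K1 = 2 * (1 + C₀) * C₀ * Real.sqrt B / a := ⟨_, rfl⟩
  obtain ⟨K2, hK2⟩ : ∃ K2 : ℝ, K2 = 2 * C₀ ^ 3 * C * Real.sqrt B / a := ⟨_, rfl⟩
  obtain ⟨K3, hK3⟩ : ∃ K3 : ℝ, K3 = C₀ ^ 4 * C * Real.sqrt B * Real.sqrt C' / a ^ 2 := ⟨_, rfl⟩
  have hC₀0 : 0 < C₀ := by linarith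
  have hCp : 0 < C := by linarith
  have hK1p : 0 < K1 := by rw [hK1]; positivity
  have hK2p : 0 < K2 := by rw [hK2]; positivity
  have hK3p : 0 < K3 := by rw [hK3]; positivity
  obtain ⟨K, hK⟩ : ∃ K : ℝ, K = K1 + K2 + K3 + 2 * C₀ := ⟨_, rfl⟩
  have hKp : 0 < K := by rw [hK]; positivity
  have h2q : 0 < 2 - q := by linarith
  refine ⟨min (1 / 2) ((1 / (K + 1)) ^ (4 / (2 - q))), by positivity, ?_⟩
  intro t k ht ht0 hk hkt
  have ht1 : t < 1 / 2 := ht0.trans_le (min_le_left _ _)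
  have htlt1 : t < 1 := by linarith
  have htK : t < (1 / (K + 1)) ^ (4 / (2 - q)) := ht0.trans_le (min_le_right _ _)
  obtain ⟨E, hE⟩ : ∃ E : ℝ, E = t ^ ((2 - q) / 4) := ⟨_, rfl⟩
  have hE0 : 0 < E := by rw [hE]; exact Real.rpow_pos_of_pos ht _
  have hEK : E < 1 / (K + 1) := by
    have h1 : t ^ ((2 - q) / 4) < ((1 / (K + 1)) ^ (4 / (2 - q))) ^ ((2 - q) / 4) :=
      Real.rpow_lt_rpow ht.le htK (by positivity)
    rw [← Real.rpow_mul (by positivity)] at h1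
    have h2 : 4 / (2 - q) * ((2 - q) / 4) = 1 := by field_simp
    rw [h2, Real.rpow_one] at h1
    rw [hE]
    exact h1
  have hE1 : E < 1 := by
    refine hEK.trans_le ?_
    rw [div_le_one (by positivity)]
    linarith
  have htE : t ≤ E := by
    rw [hE]
    calc t = t ^ (1 : ℝ) := (Real.rpow_one t).symm
      _ ≤ t ^ ((2 - q) / 4) := Real.rpow_le_rpow_of_exponent_ge ht htlt1.le (by linarith)
  -- `π = E ^ 4`
  have hπE : t ^ (2 - q) = E ^ 4 := by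
    rw [hE, ← Real.rpow_natCast, ← Real.rpow_mul ht.le]
    congr 1
    push_cast
    ring
  have hπ0 : 0 < t ^ (2 - q) := Real.rpow_pos_of_pos ht _
  have hsπ : Real.sqrt (t ^ (2 - q)) = E ^ 2 := by
    rw [hπE]
    have : E ^ 4 = (E ^ 2) ^ 2 := by ring
    rw [this, Real.sqrt_sq (by positivity)]
  have hππ : t ^ (2 - q) ≤ 1 / (2 * C₀) := by
    rw [hπE]
    calc E ^ 4 ≤ E := pow_le_of_le_one hE0.le hE1.le (by norm_num)
      _ ≤ 1 / (K + 1) := hEK.le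
      _ ≤ 1 / (2 * C₀) := by
          apply one_div_le_one_div_of_le (by positivity)
          linarith
  -- `M`
  obtain ⟨m, hm⟩ : ∃ m : ℝ, m = ((⌈t ^ (-B₁)⌉₊ : ℕ) : ℝ) := ⟨_, rfl⟩
  have htB : 1 ≤ t ^ (-B₁) := by
    rw [Real.rpow_neg ht.le]
    rw [one_le_inv₀ (Real.rpow_pos_of_pos ht _)]
    exact Real.rpow_le_one ht.le htlt1.le hB₁0.le
  have hmge : t ^ (-B₁) ≤ m := by rw [hm]; exact Nat.le_ceil _
  have hmle : m ≤ 2 * t ^ (-B₁) := by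
    have := (Nat.ceil_lt_add_one (show 0 ≤ t ^ (-B₁) by linarith)).le
    rw [hm]
    linarith
  have hm1 : 1 ≤ m := htB.trans hmge
  have hm0 : 0 < m := by linarith
  have hM1 : 1 ≤ ⌈t ^ (-B₁)⌉₊ := by
    have : (1 : ℝ) ≤ ((⌈t ^ (-B₁)⌉₊ : ℕ) : ℝ) := by rw [← hm]; exact hm1
    exact_mod_cast this
  have hmη : m ^ η ≤ 2 / E := by
    calc m ^ η ≤ (2 * t ^ (-B₁)) ^ η := Real.rpow_le_rpow hm0.le hmle hη0.le
      _ = 2 ^ η * (t ^ (-B₁)) ^ η := Real.mul_rpow (by norm_num) (by positivity)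
      _ ≤ 2 * (t ^ (-B₁)) ^ η := by
          refine mul_le_mul_of_nonneg_right ?_ (by positivity)
          calc (2 : ℝ) ^ η ≤ 2 ^ (1 : ℝ) := Real.rpow_le_rpow_of_exponent_le (by norm_num) hη1.le
            _ = 2 := Real.rpow_one _
      _ = 2 / E := by
          rw [← Real.rpow_mul ht.le, hE, div_eq_mul_inv, ← Real.rpow_neg ht.le]
          congr 2
          rw [neg_mul, hηB]
  have hmc : m ^ (-(c₁ / 4)) ≤ t ^ (4 * (A + 1)) := by
    calc m ^ (-(c₁ / 4)) ≤ (t ^ (-B₁)) ^ (-(c₁ / 4)) :=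
          Real.rpow_le_rpow_of_nonpos (by linarith) hmge (by linarith)
      _ = t ^ (4 * (A + 1)) := by
          rw [← Real.rpow_mul ht.le]
          congr 1
          linarith
  -- `k`
  have hk0 : (0 : ℝ) < k := by exact_mod_cast (by omega : 0 < k)
  have ht2 : t ^ 2 / t ^ (2 - q) = t ^ q := by
    rw [div_eq_iff hπ0.ne', ← Real.rpow_add ht, ← Real.rpow_natCast]
    congr 1
    push_cast
    ring
  have htq0 : 0 < t ^ q := Real.rpow_pos_of_pos ht _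
  obtain ⟨G, hG⟩ : ∃ G : ℝ, G = (k : ℝ) ^ 2 * t ^ q := ⟨_, rfl⟩
  have hG0 : 0 < G := by rw [hG]; positivity
  have hGt : G * t ^ 2 ≤ C₀ ^ 2 := by
    have h1 : t ^ 2 ≤ t ^ q := by
      calc t ^ 2 = t ^ (2 : ℝ) := by rw [← Real.rpow_natCast]; norm_num
        _ ≤ t ^ q := Real.rpow_le_rpow_of_exponent_ge ht htlt1.le hq'.le
    calc G * t ^ 2 ≤ G * t ^ q := mul_le_mul_of_nonneg_left h1 hG0.le
      _ = ((k : ℝ) * t ^ q) ^ 2 := by rw [hG]; ring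
      _ ≤ C₀ ^ 2 := pow_le_pow_left₀ (by positivity) hkt 2
  refine ⟨⌈t ^ (-B₁)⌉₊, t ^ (2 - q), t ^ 4, hM1, hπ0, hππ, by positivity,
    pow_le_one₀ ht.le htlt1.le, ?_⟩
  intro L hL hLc hcon
  rw [← hm] at hLc hcon
  -- `P`, `Q`
  obtain ⟨P, hP⟩ : ∃ P : ℝ, P = m ^ ((1 + η) / 2) := ⟨_, rfl⟩
  have hP0 : 0 < P := by rw [hP]; exact Real.rpow_pos_of_pos hm0 _
  have hQL : a * m ^ ((1 - η) / 2) ≤ L := by
    have h1 : (a * m ^ ((1 - η) / 2)) ^ 2 ≤ L ^ 2 := by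
      rw [mul_pow, ha2, ← Real.rpow_natCast (m ^ ((1 - η) / 2)), ← Real.rpow_mul hm0.le]
      have h2 : (1 - η) / 2 * ((2 : ℕ) : ℝ) = 1 - η := by push_cast; ring
      rw [h2]
      exact hLc
    exact (sq_le_sq₀ (by positivity) hL.le).1 h1
  have hPL : P ≤ 2 / E * (L / a) := by
    have h1 : P = m ^ η * m ^ ((1 - η) / 2) := by
      rw [hP, ← Real.rpow_add hm0]
      congr 1
      ring
    rw [h1]
    refine mul_le_mul hmη ?_ (Real.rpow_nonneg hm0.le _) (by positivity)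
    rw [le_div_iff₀ ha0]
    linarith
  have hPR : P * Real.sqrt (C' * m ^ (1 - c₁)) ≤ Real.sqrt C' * (t ^ (4 * (A + 1)) * (L ^ 2 / a ^ 2)) := by
    have h1 : Real.sqrt (C' * m ^ (1 - c₁)) = Real.sqrt C' * m ^ ((1 - c₁) / 2) := by
      rw [Real.sqrt_mul hC'.le]
      congr 1
      rw [Real.sqrt_eq_rpow, ← Real.rpow_mul hm0.le]
      congr 1
      ring
    have h2 : m ^ ((1 + η) / 2) * m ^ ((1 - c₁) / 2) ≤ m ^ (-(c₁ / 4)) * m ^ (1 - η) := by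
      rw [← Real.rpow_add hm0, ← Real.rpow_add hm0]
      apply Real.rpow_le_rpow_of_exponent_le hm1
      linarith
    have h3 : m ^ (1 - η) ≤ L ^ 2 / a ^ 2 := by
      rw [le_div_iff₀ (by positivity), ha2]
      linarith
    calc P * Real.sqrt (C' * m ^ (1 - c₁))
        = Real.sqrt C' * (m ^ ((1 + η) / 2) * m ^ ((1 - c₁) / 2)) := by rw [h1, hP]; ring
      _ ≤ Real.sqrt C' * (m ^ (-(c₁ / 4)) * m ^ (1 - η)) := mul_le_mul_of_nonneg_left h2 hsC'.le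
      _ ≤ Real.sqrt C' * (t ^ (4 * (A + 1)) * (L ^ 2 / a ^ 2)) := by
          apply mul_le_mul_of_nonneg_left _ hsC'.le
          exact mul_le_mul hmc h3 (Real.rpow_nonneg hm0.le _) (Real.rpow_nonneg ht.le _)
  -- the three terms
  have e1 : (1 + k * t ^ 2 / t ^ (2 - q)) * L * (C₀ * Real.sqrt (B * t ^ (2 - q)) * P) ≤
      K1 * E * L ^ 2 := by
    have h1 : 1 + k * t ^ 2 / t ^ (2 - q) ≤ 1 + C₀ := by
      rw [mul_div_assoc, ht2]
      linarith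
    have h2 : Real.sqrt (B * t ^ (2 - q)) = Real.sqrt B * E ^ 2 := by
      rw [Real.sqrt_mul hB.le, hsπ]
    rw [h2]
    calc (1 + k * t ^ 2 / t ^ (2 - q)) * L * (C₀ * (Real.sqrt B * E ^ 2) * P)
        ≤ (1 + C₀) * L * (C₀ * (Real.sqrt B * E ^ 2) * (2 / E * (L / a))) := by
          gcongr
      _ = K1 * E * L ^ 2 := by
          rw [hK1]; field_simp
  have hGe : (k : ℝ) ^ 2 * t / t ^ (2 - q) * t = G := by
    rw [hG, ← ht2]; ring
  have hδA : (t ^ 4) ^ (-A) = t ^ (-(4 * A)) := by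
    rw [← Real.rpow_natCast t 4, ← Real.rpow_mul ht.le]
    congr 1
    push_cast
    ring
  have e2 : G * C * C₀ * Real.sqrt B * P * (t ^ 4 * L) ≤ K2 * E * L ^ 2 := by
    calc G * C * C₀ * Real.sqrt B * P * (t ^ 4 * L)
        = (G * t ^ 2) * (C * C₀ * Real.sqrt B * P * (t ^ 2 * L)) := by ring
      _ ≤ C₀ ^ 2 * (C * C₀ * Real.sqrt B * (2 / E * (L / a)) * (E ^ 2 * L)) := by
          have h1 : t ^ 2 ≤ E ^ 2 := pow_le_pow_left₀ ht.le htE 2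
          gcongr
      _ = K2 * E * L ^ 2 := by
          rw [hK2]; field_simp
  have e3 : G * C * C₀ * Real.sqrt B * P * (t ^ (-(4 * A)) * (C₀ * Real.sqrt (C' * m ^ (1 - c₁)))) ≤
      K3 * E * L ^ 2 := by
    have h1 : t ^ (-(4 * A)) * t ^ (4 * (A + 1)) = t ^ 2 * t ^ 2 := by
      rw [← Real.rpow_add ht]
      have h2 : -(4 * A) + 4 * (A + 1) = ((4 : ℕ) : ℝ) := by push_cast; ring
      rw [h2, Real.rpow_natCast]
      ring
    have hta : 0 < t ^ (-(4 * A)) := Real.rpow_pos_of_pos ht _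
    calc G * C * C₀ * Real.sqrt B * P * (t ^ (-(4 * A)) * (C₀ * Real.sqrt (C' * m ^ (1 - c₁))))
        = G * C * C₀ ^ 2 * Real.sqrt B * t ^ (-(4 * A)) * (P * Real.sqrt (C' * m ^ (1 - c₁))) := by ring
      _ ≤ G * C * C₀ ^ 2 * Real.sqrt B * t ^ (-(4 * A)) *
          (Real.sqrt C' * (t ^ (4 * (A + 1)) * (L ^ 2 / a ^ 2))) :=
          mul_le_mul_of_nonneg_left hPR (by positivity)
      _ = G * C * C₀ ^ 2 * Real.sqrt B * Real.sqrt C' * (L ^ 2 / a ^ 2) *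
          (t ^ (-(4 * A)) * t ^ (4 * (A + 1))) := by ring
      _ = (G * t ^ 2) * (C * C₀ ^ 2 * Real.sqrt B * Real.sqrt C' * (L ^ 2 / a ^ 2) * t ^ 2) := by
          rw [h1]; ring
      _ ≤ C₀ ^ 2 * (C * C₀ ^ 2 * Real.sqrt B * Real.sqrt C' * (L ^ 2 / a ^ 2) * E) := by
          have h2 : t ^ 2 ≤ E := (pow_le_of_le_one ht.le htlt1.le (by norm_num)).trans htE
          gcongr
      _ = K3 * E * L ^ 2 := by
          rw [hK3]; field_simp
  have hfin : L ^ 2 ≤ (K1 + K2 + K3) * E * L ^ 2 := by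
    refine hcon.trans ?_
    rw [← hP, hδA]
    have h1 : (k : ℝ) ^ 2 * t / t ^ (2 - q) * C * (C₀ * t * Real.sqrt B * P) *
        (t ^ 4 * L + t ^ (-(4 * A)) * (C₀ * Real.sqrt (C' * m ^ (1 - c₁)))) =
        G * C * C₀ * Real.sqrt B * P * (t ^ 4 * L) +
        G * C * C₀ * Real.sqrt B * P * (t ^ (-(4 * A)) * (C₀ * Real.sqrt (C' * m ^ (1 - c₁)))) := by
      rw [← hGe]; ring
    rw [h1]
    linarith
  have hlt : (K1 + K2 + K3) * E < 1 := by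
    have h1 : (K1 + K2 + K3) * E ≤ K * E := by
      apply mul_le_mul_of_nonneg_right _ hE0.le
      linarith
    have h2 : K * E < 1 := by
      rw [lt_div_iff₀ (by positivity)] at hEK
      have h3 : E * (K + 1) = K * E + E := by ring
      linarith only [hEK, h3, hE0]
    linarith only [h1, h2]
  have hL2 : 0 < L ^ 2 := by positivity
  have h1 := mul_lt_mul_of_pos_right hlt hL2
  rw [one_mul] at h1
  exact absurd hfin (not_le.2 h1)

end Pool.Agent.H65.BM
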