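import Pool.Agent.H65.BM.S5

/-! # BM5-NEU (helper96): Neumann series of a quasinilpotent operator -/

set_option autoImplicit false

namespace Pool.Agent.H65.BM

open Filter Topology

lemma NEU.summable {E : Type} [NormedAddCommGroup E] [NormedSpace ℝ E] [CompleteSpace E]
    (a : E →L[ℝ] E) (h : Tendsto (fun n : ℕ => ‖a ^ n‖ ^ (1 / (n : ℝ))) atTop (𝓝 0)) :
    Summable fun n : ℕ => (-a) ^ n := by
  have h1 : ∀ᶠ n : ℕ in atTop, ‖a ^ n‖ ^ (1 / (n : ℝ)) < 1 / 2 :=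
    h.eventually (gt_mem_nhds (by norm_num))
  obtain ⟨N, hN⟩ := eventually_atTop.1 (h1.and (eventually_ge_atTop 1))
  rw [← summable_nat_add_iff N]
  refine Summable.of_norm_bounded (g := fun n : ℕ => (1 / 2 : ℝ) ^ (n + N))
    ((summable_nat_add_iff N).2 (summable_geometric_of_lt_one (by norm_num) (by norm_num))) ?_
  intro n
  obtain ⟨h2, h3⟩ := hN (n + N) (by omega)
  have e1 : ‖(-a) ^ (n + N)‖ = ‖a ^ (n + N)‖ := by
    rcases Nat.even_or_odd (n + N) with he | ho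
    · rw [he.neg_pow]
    · rw [ho.neg_pow, norm_neg]
  rw [e1]
  have h4 : (‖a ^ (n + N)‖ ^ (1 / ((n + N : ℕ) : ℝ))) ^ (n + N) ≤ (1 / 2 : ℝ) ^ (n + N) :=
    pow_le_pow_left₀ (Real.rpow_nonneg (norm_nonneg _) _) h2.le _
  rw [← Real.rpow_natCast (‖a ^ (n + N)‖ ^ (1 / ((n + N : ℕ) : ℝ))), ← Real.rpow_mul (norm_nonneg _)] at h4
  have h5 : (1 / ((n + N : ℕ) : ℝ)) * ((n + N : ℕ) : ℝ) = 1 := by
    have : ((n + N : ℕ) : ℝ) ≠ 0 := by
      have : n + N ≠ 0 := by omega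
      exact_mod_cast this
    field_simp
  rw [h5, Real.rpow_one] at h4
  exact h4

theorem neu : S_NEU := by
  intro E _ _ _ a ha
  have hs := NEU.summable a ha
  refine ⟨∑' n : ℕ, (-a) ^ n, ?_, ?_⟩
  · intro x
    have h1 : (∑' n : ℕ, (-a) ^ n) * (1 - -a) = 1 := hs.tsum_pow_mul_one_sub
    have h2 := congrArg (fun f : E →L[ℝ] E => f x) h1
    simpa using h2
  · intro 𝒜 hmul ha c hc ε hε
    have ht : Tendsto (fun N : ℕ => c * ∑ n ∈ Finset.range N, (-a) ^ n) atTop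
        (𝓝 (c * ∑' n : ℕ, (-a) ^ n)) :=
      (hs.hasSum.tendsto_sum_nat).const_mul c
    obtain ⟨N, hN⟩ := (Metric.tendsto_atTop.1 ht) ε hε
    refine ⟨c * ∑ n ∈ Finset.range N, (-a) ^ n, ?_, ?_⟩
    · rw [Finset.mul_sum]
      refine Submodule.sum_mem _ fun n hn => ?_
      clear hn
      induction n with
      | zero => simpa using hc
      | succ n ih =>
        rw [pow_succ, ← mul_assoc]
        exact hmul _ ih _ (Submodule.neg_mem _ ha)
    · have := hN N le_rfl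
      rw [dist_eq_norm, ← norm_neg, neg_sub] at this
      exact this

end Pool.Agent.H65.BM
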