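import Pool.Agent.H65.BM.S4

/-! # BM4-NM: nearly maximal positions (helper91) -/

set_option autoImplicit false

namespace Pool.Agent.H65.BM

open Pool.Agent.N314.OP Pool.Agent.N314.OP.Mod

namespace NM91

theorem pr_append {E : Type} [NormedAddCommGroup E] [NormedSpace ℝ E] (l : List (E ≃ₗᵢ[ℝ] E))
    (b : E ≃ₗᵢ[ℝ] E) (x : E) : pr (l ++ [b]) x = pr l (b x) := by
  induction l with
  | nil => rfl
  | cons c l ih =>
    rw [List.cons_append]
    change c (pr (l ++ [b]) x) = c (pr l (b x))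
    rw [ih]

/-- the averages -/
noncomputable def V {E : Type} [NormedAddCommGroup E] [NormedSpace ℝ E] {M : ℕ}
    (T : Fin M → E ≃ₗᵢ[ℝ] E) (x : E) (l : Fin M → List (E ≃ₗᵢ[ℝ] E)) : ℝ :=
  av (fun s : Fin M → Bool => ‖∑ j, sg (s j) • T j (pr (l j) x)‖ ^ 2)

theorem one_le_V {E : Type} [NormedAddCommGroup E] [NormedSpace ℝ E] {M : ℕ} (hM : 1 ≤ M)
    (T : Fin M → E ≃ₗᵢ[ℝ] E) {x : E} (hx : ‖x‖ = 1) (l : Fin M → List (E ≃ₗᵢ[ℝ] E)) :
    1 ≤ V T x l := by
  have h1 := sym (Finset.subset_univ {(⟨0, hM⟩ : Fin M)}) (fun j => T j (pr (l j) x))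
  unfold V
  refine le_trans (le_of_eq ?_) h1
  rw [← av_const (ι := Fin M) 1]
  congr 1
  funext s
  rw [Finset.sum_singleton, norm_smul, Real.norm_eq_abs, abs_sg, one_mul,
    LinearIsometryEquiv.norm_map, LinearIsometryEquiv.norm_map, hx, one_pow]

theorem V_le {E : Type} [NormedAddCommGroup E] [NormedSpace ℝ E] {M : ℕ}
    (T : Fin M → E ≃ₗᵢ[ℝ] E) {x : E} (hx : ‖x‖ = 1) (l : Fin M → List (E ≃ₗᵢ[ℝ] E)) :
    V T x l ≤ (M : ℝ) ^ 2 := by
  have h1 := av_le_card (Finset.univ : Finset (Fin M)) (fun j => T j (pr (l j) x)) (fun j _ => by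
    rw [LinearIsometryEquiv.norm_map, LinearIsometryEquiv.norm_map, hx])
  rwa [Finset.card_univ, Fintype.card_fin] at h1

end NM91

open NM91 in
theorem nm : S_NM := by
  intro M ε hM hε
  obtain ⟨R, hR⟩ := pow_unbounded_of_one_lt ((M : ℝ) ^ 2) (show (1 : ℝ) < 1 + ε by linarith)
  refine ⟨R, fun E _ _ x hx T 𝓑 => ?_⟩
  by_contra hcon
  push Not at hcon
  have key : ∀ n ≤ R, ∃ l : Fin M → List (E ≃ₗᵢ[ℝ] E),
      (∀ j, (l j).length ≤ n ∧ ∀ b ∈ l j, b ∈ 𝓑) ∧ (1 + ε) ^ n ≤ V T x l := by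
    intro n
    induction n with
    | zero =>
      intro _
      refine ⟨fun _ => [], fun j => ⟨by simp, by simp⟩, ?_⟩
      rw [pow_zero]
      exact one_le_V hM T hx _
    | succ n ih =>
      intro hn
      obtain ⟨l, hl, hV⟩ := ih (by omega)
      obtain ⟨B, hB, hlt⟩ := hcon l fun j => ⟨(hl j).1.trans (by omega), (hl j).2⟩
      refine ⟨fun j => l j ++ [B j], fun j => ⟨?_, ?_⟩, ?_⟩
      · rw [List.length_append, List.length_singleton]
        exact Nat.add_le_add_right (hl j).1 1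
      · intro b hb
        rcases List.mem_append.1 hb with hb | hb
        · exact (hl j).2 b hb
        · rw [List.mem_singleton.1 hb]
          exact hB j
      · have h1 : V T x (fun j => l j ++ [B j]) =
            av (fun s : Fin M → Bool => ‖∑ j, sg (s j) • T j (pr (l j) (B j x))‖ ^ 2) := by
          unfold V
          simp only [pr_append]
        rw [h1, pow_succ, mul_comm]
        refine le_trans ?_ hlt.le
        exact mul_le_mul_of_nonneg_left hV (by linarith)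
  obtain ⟨l, -, hl⟩ := key R le_rfl
  exact absurd (V_le T hx l) (not_le.2 (hR.trans_le hl))

end Pool.Agent.H65.BM
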