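import Pool.Agent.H65.BM.Q

/-! # Project BM: NORMK, operators of norm bounded below -/

set_option autoImplicit false

namespace Pool.Agent.H65.BM

open Finset

theorem opr_apply {E : Type} [NormedAddCommGroup E] [NormedSpace ℝ E] {n : ℕ}
    (f : Fin n → StrongDual ℝ E) (e : Fin n → E) (y : E) : opr f e y = ∑ i, f i y • e i := by
  unfold opr
  rw [_root_.sum_apply]
  rfl

/-- a vector on which the operator is large -/
theorem normk_vec {E : Type} [NormedAddCommGroup E] [NormedSpace ℝ E] (T : E →L[ℝ] E) (b : ℝ)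
    (hb : 0 < b) (hT : b ≤ ‖T‖) : ∃ x, ‖x‖ ≤ 2 / b ∧ ‖T x‖ = 1 := by
  have h : ∃ x, b / 2 * ‖x‖ < ‖T x‖ := by
    by_contra hc
    push Not at hc
    have := ContinuousLinearMap.opNorm_le_bound T (by positivity) hc
    linarith
  obtain ⟨x, hx⟩ := h
  have hpos : 0 < ‖T x‖ := lt_of_le_of_lt (by positivity) hx
  refine ⟨‖T x‖⁻¹ • x, ?_, ?_⟩
  · rw [norm_smul, norm_inv, norm_norm, inv_mul_le_iff₀ hpos]
    have : ‖x‖ = (b / 2 * ‖x‖) * (2 / b) := by field_simp
    rw [this]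
    exact mul_le_mul_of_nonneg_right hx.le (by positivity)
  · rw [map_smul, norm_smul, norm_inv, norm_norm, inv_mul_cancel₀ hpos.ne']

/-- the second order remainder of `(1 - K) ^ l` -/
theorem normk_rem {A : Type} [NormedRing A] [NormOneClass A] [NormedAlgebra ℝ A] (K : A) (l : ℕ) :
    ‖(1 - K) ^ l - 1 + (l : ℝ) • K‖ ≤ (1 + ‖K‖) ^ l - 1 - l * ‖K‖ := by
  induction l with
  | zero => simp
  | succ l ih =>
    have h1 : ‖(1 : A) - K‖ ≤ 1 + ‖K‖ := by
      refine (norm_sub_le _ _).trans ?_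
      rw [norm_one]
    have e : (1 - K) ^ (l + 1) - 1 + ((l + 1 : ℕ) : ℝ) • K =
        ((1 - K) ^ l - 1 + (l : ℝ) • K) * (1 - K) + (l : ℝ) • (K * K) := by
      rw [pow_succ]
      push_cast
      rw [add_smul, one_smul, add_mul, sub_mul, one_mul, smul_mul_assoc, mul_sub K 1 K, mul_one,
        smul_sub]
      abel
    rw [e]
    calc ‖((1 - K) ^ l - 1 + (l : ℝ) • K) * (1 - K) + (l : ℝ) • (K * K)‖
        ≤ ‖((1 - K) ^ l - 1 + (l : ℝ) • K)‖ * ‖1 - K‖ + l * (‖K‖ * ‖K‖) := by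
          refine (norm_add_le _ _).trans (add_le_add (norm_mul_le _ _) ?_)
          rw [norm_smul, Real.norm_of_nonneg (Nat.cast_nonneg _)]
          gcongr
          exact norm_mul_le _ _
      _ ≤ ((1 + ‖K‖) ^ l - 1 - l * ‖K‖) * (1 + ‖K‖) + l * (‖K‖ * ‖K‖) := by
          gcongr
          exact (norm_nonneg _).trans ih
      _ = (1 + ‖K‖) ^ (l + 1) - 1 - ((l + 1 : ℕ) : ℝ) * ‖K‖ := by
          push_cast; ring

/-- **NORMK** (for nontrivial spaces; the statement `S_NORMK` fails for the trivial space) -/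
theorem normk (E : Type) [NormedAddCommGroup E] [NormedSpace ℝ E] [Nontrivial E] (P : ℝ)
    (hP : 0 < P)
    (hyp : ∀ c : ℝ, 0 < c → ∃ (n : ℕ) (f : Fin n → StrongDual ℝ E) (e : Fin n → E),
      ∑ i, ‖f i‖ * ‖e i‖ ≤ P * ‖opr f e‖ ∧
        ‖ContinuousLinearMap.id ℝ E - opr f e‖ < 1 + c * ‖opr f e‖) : KQ E := by
  refine ⟨3 * P + 16, by positivity, fun ε hε => ?_⟩
  obtain ⟨c, hc0, hcε, hc1⟩ : ∃ c : ℝ, 0 < c ∧ c ≤ ε / 4 ∧ c ≤ 1 / 16 :=
    ⟨min (ε / 4) (1 / 16), by positivity, min_le_left _ _, min_le_right _ _⟩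
  obtain ⟨n, f, e, hfe, hK⟩ := hyp c hc0
  obtain ⟨K, hKdef⟩ : ∃ K, K = opr f e := ⟨_, rfl⟩
  have hKy : ∀ y, K y = ∑ i, f i y • e i := fun y => by rw [hKdef]; exact opr_apply f e y
  rw [← hKdef] at hfe hK
  obtain ⟨a, ha⟩ : ∃ a, a = ‖K‖ := ⟨_, rfl⟩
  rw [← ha] at hfe hK
  have hid : ‖ContinuousLinearMap.id ℝ E‖ = 1 := ContinuousLinearMap.norm_id
  have ha0 : 0 < a := by
    rcases (norm_nonneg K).eq_or_lt with h | h
    · have hK0 : K = 0 := norm_eq_zero.1 h.symm
      rw [ha, ← h, hK0, sub_zero, hid] at hK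
      linarith
    · rwa [ha]
  have ha3 : a ≤ 3 := by
    have h1 : a ≤ 1 + ‖ContinuousLinearMap.id ℝ E - K‖ := by
      have : K = ContinuousLinearMap.id ℝ E - (ContinuousLinearMap.id ℝ E - K) := by abel
      calc a = ‖ContinuousLinearMap.id ℝ E - (ContinuousLinearMap.id ℝ E - K)‖ := by
            rw [← this, ha]
        _ ≤ ‖ContinuousLinearMap.id ℝ E‖ + ‖ContinuousLinearMap.id ℝ E - K‖ := norm_sub_le _ _
        _ = _ := by rw [hid]
    nlinarith
  rcases le_or_gt (1 / 4) a with hbig | hsmall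
  · -- the operator itself
    refine ⟨n, f, e, ?_, ?_, ?_⟩
    · nlinarith
    · obtain ⟨x, hx1, hx2⟩ := normk_vec K (1 / 4) (by norm_num) (by rw [← ha]; exact hbig)
      refine ⟨x, ?_, by rw [← hKy]; exact hx2⟩
      refine hx1.trans ?_
      norm_num
      linarith
    · intro y
      have h1 : y - ∑ i, f i y • e i = (ContinuousLinearMap.id ℝ E - K) y := by
        rw [sub_apply, hKy]; rfl
      rw [h1]
      refine ((ContinuousLinearMap.id ℝ E - K).le_opNorm y).trans ?_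
      refine mul_le_mul_of_nonneg_right (hK.le.trans ?_) (norm_nonneg _)
      nlinarith
  · -- a power
    obtain ⟨l, hl⟩ : ∃ l, l = ⌈1 / (4 * a)⌉₊ := ⟨_, rfl⟩
    have hl1 : 1 / 4 ≤ l * a := by
      have h1 : 1 / (4 * a) ≤ (l : ℝ) := by rw [hl]; exact Nat.le_ceil _
      rw [div_le_iff₀ (by positivity)] at h1
      linarith
    have hl2 : l * a ≤ 1 / 2 := by
      have h1 : (l : ℝ) < 1 / (4 * a) + 1 := by rw [hl]; exact Nat.ceil_lt_add_one (by positivity)
      have h2 : (l : ℝ) * a ≤ (1 / (4 * a) + 1) * a := mul_le_mul_of_nonneg_right h1.le ha0.le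
      have h3 : (1 / (4 * a) + 1) * a = 1 / 4 + a := by field_simp
      linarith
    have hone : (1 : E →L[ℝ] E) = ContinuousLinearMap.id ℝ E := rfl
    obtain ⟨T, hT⟩ : ∃ T : E →L[ℝ] E, T = 1 - K := ⟨_, rfl⟩
    have hTn : ‖T‖ ≤ 1 + c * a := by rw [hT, hone]; exact hK.le
    -- powers of `T`
    have hG : (1 + c * a) ^ l ≤ 1 + c := by
      have h1 : 1 + c * a ≤ Real.exp (c * a) := by
        rw [add_comm]; exact Real.add_one_le_exp _
      have h2 : (1 + c * a) ^ l ≤ Real.exp (l * (c * a)) := by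
        rw [Real.exp_nat_mul]
        exact pow_le_pow_left₀ (by positivity) h1 l
      have h3 : l * (c * a) ≤ c / 2 := by nlinarith
      have h4 : Real.exp (l * (c * a)) ≤ Real.exp (c / 2) := Real.exp_le_exp.2 h3
      have h5 := Real.abs_exp_sub_one_le (x := c / 2) (by rw [abs_of_pos (by positivity)]; linarith)
      rw [abs_of_pos (show 0 < c / 2 by positivity)] at h5
      have h6 := (abs_le.1 h5).2
      linarith
    have h1G : 1 ≤ 1 + c * a := by nlinarith
    have hTl : ∀ i, i ≤ l → ‖T ^ i‖ ≤ 1 + c := by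
      intro i hi
      calc ‖T ^ i‖ ≤ ‖T‖ ^ i := norm_pow_le _ _
        _ ≤ (1 + c * a) ^ i := pow_le_pow_left₀ (norm_nonneg _) hTn i
        _ ≤ (1 + c * a) ^ l := pow_le_pow_right₀ h1G hi
        _ ≤ 1 + c := hG
    obtain ⟨S, hS⟩ : ∃ S : E →L[ℝ] E, S = ∑ i ∈ range l, T ^ i := ⟨_, rfl⟩
    have hSn : ‖S‖ ≤ 2 * l := by
      rw [hS]
      refine (norm_sum_le _ _).trans ?_
      calc ∑ i ∈ range l, ‖T ^ i‖ ≤ ∑ _i ∈ range l, (2 : ℝ) :=
            Finset.sum_le_sum fun i hi => (hTl i (mem_range.1 hi).le).trans (by linarith)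
        _ = 2 * l := by rw [Finset.sum_const, card_range, nsmul_eq_mul]; ring
    have hSK : S * K = 1 - T ^ l := by
      have h1 : K = 1 - T := by rw [hT]; abel
      rw [h1, hS]
      exact geom_sum_mul_neg T l
    have hK' : ∀ y, ∑ i, f i y • S (e i) = (1 - T ^ l) y := by
      intro y
      rw [← hSK]
      change _ = S (K y)
      rw [hKy, map_sum]
      exact Finset.sum_congr rfl fun i _ => by rw [map_smul]
    have hlow : 1 / 8 ≤ ‖1 - T ^ l‖ := by
      have h1 := normk_rem K l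
      rw [← hT, ← ha] at h1
      have h2 : (1 + a) ^ l ≤ 1 + l * a + (l * a) ^ 2 := by
        have k1 : 1 + a ≤ Real.exp a := by rw [add_comm]; exact Real.add_one_le_exp _
        have k2 : (1 + a) ^ l ≤ Real.exp (l * a) := by
          rw [Real.exp_nat_mul]
          exact pow_le_pow_left₀ (by positivity) k1 l
        have k3 := Real.abs_exp_sub_one_sub_id_le (x := l * a)
          (by rw [abs_of_pos (by linarith)]; linarith)
        have k4 := (abs_le.1 k3).2
        linarith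
      have h3 : (l : ℝ) * a ≤ ‖1 - T ^ l‖ + ‖T ^ l - 1 + (l : ℝ) • K‖ := by
        have e1 : (l : ℝ) • K = (1 - T ^ l) + (T ^ l - 1 + (l : ℝ) • K) := by abel
        calc (l : ℝ) * a = ‖(l : ℝ) • K‖ := by
              rw [norm_smul, Real.norm_of_nonneg (Nat.cast_nonneg _), ha]
          _ = ‖(1 - T ^ l) + (T ^ l - 1 + (l : ℝ) • K)‖ := by rw [← e1]
          _ ≤ _ := norm_add_le _ _
      nlinarith
    refine ⟨n, f, fun i => S (e i), ?_, ?_, ?_⟩
    · calc ∑ i, ‖f i‖ * ‖S (e i)‖ ≤ ∑ i, (2 * l) * (‖f i‖ * ‖e i‖) := by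
            refine Finset.sum_le_sum fun i _ => ?_
            have : ‖S (e i)‖ ≤ (2 * l) * ‖e i‖ :=
              (S.le_opNorm _).trans (mul_le_mul_of_nonneg_right hSn (norm_nonneg _))
            calc ‖f i‖ * ‖S (e i)‖ ≤ ‖f i‖ * ((2 * l) * ‖e i‖) := by gcongr
              _ = (2 * l) * (‖f i‖ * ‖e i‖) := by ring
        _ = (2 * l) * ∑ i, ‖f i‖ * ‖e i‖ := by rw [Finset.mul_sum]
        _ ≤ (2 * l) * (P * a) := by gcongr
        _ = 2 * P * (l * a) := by ring
        _ ≤ 2 * P * (1 / 2) := by gcongr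
        _ ≤ 3 * P + 16 := by linarith
    · obtain ⟨x, hx1, hx2⟩ := normk_vec (1 - T ^ l) (1 / 8) (by norm_num) hlow
      refine ⟨x, ?_, by rw [hK']; exact hx2⟩
      refine hx1.trans ?_
      norm_num
      exact hP.le
    · intro y
      rw [hK']
      have h1 : y - (1 - T ^ l) y = (T ^ l) y := by
        rw [sub_apply]
        change y - (y - (T ^ l) y) = _
        abel
      rw [h1]
      refine ((T ^ l).le_opNorm y).trans ?_
      refine mul_le_mul_of_nonneg_right ((hTl l le_rfl).trans ?_) (norm_nonneg _)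
      linarith

end Pool.Agent.H65.BM
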