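import Pool.Agent.H65.BM.NORMK
import Pool.Agent.H65.BM.S3

/-! # Project BM: NORMKS, operators of norm bounded below, approximated by nuclear operators
(helper75; adapted from `NORMK.lean`) -/

set_option autoImplicit false

namespace Pool.Agent.H65.BM

open Finset

theorem normks : S_NORMKS := by
  intro E _ _ _ P s hP hs hyp
  have h3s : 0 < (3 : ℝ) ^ s := Real.rpow_pos_of_pos (by norm_num) _
  refine ⟨16 + 3 * 3 ^ s * (P + 1) + P, s, by positivity, hs, fun ε hε => ?_⟩
  obtain ⟨c, hc0, hcε, hc1⟩ : ∃ c : ℝ, 0 < c ∧ c ≤ ε / 4 ∧ c ≤ 1 / 16 :=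
    ⟨min (ε / 4) (1 / 16), by positivity, min_le_left _ _, min_le_right _ _⟩
  obtain ⟨K, hK, happ⟩ := hyp c hc0
  obtain ⟨a, ha⟩ : ∃ a, a = ‖K‖ := ⟨_, rfl⟩
  rw [← ha] at hK happ
  have hid : ‖ContinuousLinearMap.id ℝ E‖ = 1 := ContinuousLinearMap.norm_id
  have ha0 : 0 < a := by
    rcases (norm_nonneg K).eq_or_lt with h | h
    · have hK0 : K = 0 := norm_eq_zero.1 h.symm
      rw [ha, ← h, hK0, sub_zero, hid] at hK
      linarith
    · rwa [ha]
  have ha3 : a ≤ 3 := by
    have h1 : a ≤ 1 + ‖ContinuousLinearMap.id ℝ E - K‖ := by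
      have : K = ContinuousLinearMap.id ℝ E - (ContinuousLinearMap.id ℝ E - K) := by abel
      calc a = ‖ContinuousLinearMap.id ℝ E - (ContinuousLinearMap.id ℝ E - K)‖ := by
            rw [← this, ha]
        _ ≤ ‖ContinuousLinearMap.id ℝ E‖ + ‖ContinuousLinearMap.id ℝ E - K‖ := norm_sub_le _ _
        _ = _ := by rw [hid]
    nlinarith
  rcases le_or_gt (1 / 4) a with hbig | hsmall
  · -- the operator itself
    refine ⟨K, ?_, ?_, ?_⟩
    · obtain ⟨x, hx1, hx2⟩ := normk_vec K (1 / 4) (by norm_num) (by rw [← ha]; exact hbig)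
      refine ⟨x, ?_, hx2⟩
      refine hx1.trans ?_
      have : 0 ≤ 3 * (3 : ℝ) ^ s * (P + 1) + P := by positivity
      linarith
    · intro y
      have h1 : y - K y = (ContinuousLinearMap.id ℝ E - K) y := by
        rw [sub_apply]; rfl
      rw [h1]
      refine ((ContinuousLinearMap.id ℝ E - K).le_opNorm y).trans ?_
      refine mul_le_mul_of_nonneg_right (hK.le.trans ?_) (norm_nonneg _)
      nlinarith
    · intro l hl
      have hl0 : 0 < l := by linarith
      have hls : 0 < l ^ (-s) := Real.rpow_pos_of_pos hl0 _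
      rcases le_or_gt 3 l with h3 | h3
      · obtain ⟨n, f, e, hfe, herr⟩ := happ (l / 3) (by linarith)
        refine ⟨n, f, e, hfe.trans ?_, herr.trans ?_⟩
        · nlinarith
        · have h4 : (l / 3) ^ (-s) = 3 ^ s * l ^ (-s) := by
            rw [Real.div_rpow hl0.le (by norm_num), Real.rpow_neg (by norm_num : (0 : ℝ) ≤ 3),
              div_inv_eq_mul]
            ring
          rw [h4]
          have h5 : P * a * (3 ^ s * l ^ (-s)) ≤ P * 3 * (3 ^ s * l ^ (-s)) := by gcongr
          have h6 : 0 ≤ (16 + 3 * 3 ^ s + P) * l ^ (-s) := by positivity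
          linarith
      · refine ⟨0, Fin.elim0, Fin.elim0, by simpa using hl0.le, ?_⟩
        have h4 : opr (Fin.elim0 : Fin 0 → StrongDual ℝ E) (Fin.elim0 : Fin 0 → E) = 0 := by
          unfold opr; simp
        rw [h4, sub_zero, ← ha]
        have h5 : 1 ≤ 3 ^ s * l ^ (-s) := by
          rw [Real.rpow_neg hl0.le, ← div_eq_mul_inv, one_le_div (Real.rpow_pos_of_pos hl0 _)]
          exact Real.rpow_le_rpow hl0.le h3.le hs.le
        have h6 : 0 ≤ (16 + 3 * 3 ^ s * P + P) * l ^ (-s) := by positivity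
        linarith
  · -- a power
    obtain ⟨l, hl⟩ : ∃ l, l = ⌈1 / (4 * a)⌉₊ := ⟨_, rfl⟩
    have hl1 : 1 / 4 ≤ l * a := by
      have h1 : 1 / (4 * a) ≤ (l : ℝ) := by rw [hl]; exact Nat.le_ceil _
      rw [div_le_iff₀ (by positivity)] at h1
      linarith
    have hl2 : l * a ≤ 1 / 2 := by
      have h1 : (l : ℝ) < 1 / (4 * a) + 1 := by rw [hl]; exact Nat.ceil_lt_add_one (by positivity)
      have h2 : (l : ℝ) * a ≤ (1 / (4 * a) + 1) * a := mul_le_mul_of_nonneg_right h1.le ha0.le
      have h3 : (1 / (4 * a) + 1) * a = 1 / 4 + a := by field_simp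
      linarith
    have hone : (1 : E →L[ℝ] E) = ContinuousLinearMap.id ℝ E := rfl
    obtain ⟨T, hT⟩ : ∃ T : E →L[ℝ] E, T = 1 - K := ⟨_, rfl⟩
    have hTn : ‖T‖ ≤ 1 + c * a := by rw [hT, hone]; exact hK.le
    -- powers of `T`
    have hG : (1 + c * a) ^ l ≤ 1 + c := by
      have h1 : 1 + c * a ≤ Real.exp (c * a) := by
        rw [add_comm]; exact Real.add_one_le_exp _
      have h2 : (1 + c * a) ^ l ≤ Real.exp (l * (c * a)) := by
        rw [Real.exp_nat_mul]
        exact pow_le_pow_left₀ (by positivity) h1 l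
      have h3 : l * (c * a) ≤ c / 2 := by nlinarith
      have h4 : Real.exp (l * (c * a)) ≤ Real.exp (c / 2) := Real.exp_le_exp.2 h3
      have h5 := Real.abs_exp_sub_one_le (x := c / 2) (by rw [abs_of_pos (by positivity)]; linarith)
      rw [abs_of_pos (show 0 < c / 2 by positivity)] at h5
      have h6 := (abs_le.1 h5).2
      linarith
    have h1G : 1 ≤ 1 + c * a := by nlinarith
    have hTl : ∀ i, i ≤ l → ‖T ^ i‖ ≤ 1 + c := by
      intro i hi
      calc ‖T ^ i‖ ≤ ‖T‖ ^ i := norm_pow_le _ _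
        _ ≤ (1 + c * a) ^ i := pow_le_pow_left₀ (norm_nonneg _) hTn i
        _ ≤ (1 + c * a) ^ l := pow_le_pow_right₀ h1G hi
        _ ≤ 1 + c := hG
    obtain ⟨S, hS⟩ : ∃ S : E →L[ℝ] E, S = ∑ i ∈ range l, T ^ i := ⟨_, rfl⟩
    have hSn : ‖S‖ ≤ 2 * l := by
      rw [hS]
      refine (norm_sum_le _ _).trans ?_
      calc ∑ i ∈ range l, ‖T ^ i‖ ≤ ∑ _i ∈ range l, (2 : ℝ) :=
            Finset.sum_le_sum fun i hi => (hTl i (mem_range.1 hi).le).trans (by linarith)
        _ = 2 * l := by rw [Finset.sum_const, card_range, nsmul_eq_mul]; ring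
    have hSK : S * K = 1 - T ^ l := by
      have h1 : K = 1 - T := by rw [hT]; abel
      rw [h1, hS]
      exact geom_sum_mul_neg T l
    have hlow : 1 / 8 ≤ ‖1 - T ^ l‖ := by
      have h1 := normk_rem K l
      rw [← hT, ← ha] at h1
      have h2 : (1 + a) ^ l ≤ 1 + l * a + (l * a) ^ 2 := by
        have k1 : 1 + a ≤ Real.exp a := by rw [add_comm]; exact Real.add_one_le_exp _
        have k2 : (1 + a) ^ l ≤ Real.exp (l * a) := by
          rw [Real.exp_nat_mul]
          exact pow_le_pow_left₀ (by positivity) k1 l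
        have k3 := Real.abs_exp_sub_one_sub_id_le (x := l * a)
          (by rw [abs_of_pos (by linarith)]; linarith)
        have k4 := (abs_le.1 k3).2
        linarith
      have h3 : (l : ℝ) * a ≤ ‖1 - T ^ l‖ + ‖T ^ l - 1 + (l : ℝ) • K‖ := by
        have e1 : (l : ℝ) • K = (1 - T ^ l) + (T ^ l - 1 + (l : ℝ) • K) := by abel
        calc (l : ℝ) * a = ‖(l : ℝ) • K‖ := by
              rw [norm_smul, Real.norm_of_nonneg (Nat.cast_nonneg _), ha]
          _ = ‖(1 - T ^ l) + (T ^ l - 1 + (l : ℝ) • K)‖ := by rw [← e1]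
          _ ≤ _ := norm_add_le _ _
      nlinarith
    refine ⟨S * K, ?_, ?_, ?_⟩
    · obtain ⟨x, hx1, hx2⟩ := normk_vec (1 - T ^ l) (1 / 8) (by norm_num) hlow
      refine ⟨x, ?_, by rw [hSK]; exact hx2⟩
      refine hx1.trans ?_
      have : 0 ≤ 3 * (3 : ℝ) ^ s * (P + 1) + P := by positivity
      linarith
    · intro y
      rw [hSK]
      have h1 : y - (1 - T ^ l) y = (T ^ l) y := by
        rw [sub_apply]
        change y - (y - (T ^ l) y) = _
        abel
      rw [h1]
      refine ((T ^ l).le_opNorm y).trans ?_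
      refine mul_le_mul_of_nonneg_right ((hTl l le_rfl).trans ?_) (norm_nonneg _)
      linarith
    · intro r hr
      have hr0 : 0 < r := by linarith
      have hrs : 0 < r ^ (-s) := Real.rpow_pos_of_pos hr0 _
      obtain ⟨n, f, e, hfe, herr⟩ := happ r hr
      refine ⟨n, f, fun i => S (e i), ?_, ?_⟩
      · calc ∑ i, ‖f i‖ * ‖S (e i)‖ ≤ ∑ i, (2 * l) * (‖f i‖ * ‖e i‖) := by
              refine Finset.sum_le_sum fun i _ => ?_
              have : ‖S (e i)‖ ≤ (2 * l) * ‖e i‖ :=
                (S.le_opNorm _).trans (mul_le_mul_of_nonneg_right hSn (norm_nonneg _))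
              calc ‖f i‖ * ‖S (e i)‖ ≤ ‖f i‖ * ((2 * l) * ‖e i‖) := by gcongr
                _ = (2 * l) * (‖f i‖ * ‖e i‖) := by ring
          _ = (2 * l) * ∑ i, ‖f i‖ * ‖e i‖ := by rw [Finset.mul_sum]
          _ ≤ (2 * l) * (r * a) := by gcongr
          _ = 2 * r * (l * a) := by ring
          _ ≤ 2 * r * (1 / 2) := by gcongr
          _ = r := by ring
      · have h1 : S * K - opr f (fun i => S (e i)) = S * (K - opr f e) := by
          rw [mul_sub]
          congr 1
          ext y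
          change _ = S (opr f e y)
          rw [opr_apply, opr_apply, map_sum]
          exact Finset.sum_congr rfl fun i _ => by rw [map_smul]
        rw [h1]
        calc ‖S * (K - opr f e)‖ ≤ ‖S‖ * ‖K - opr f e‖ := norm_mul_le _ _
          _ ≤ (2 * l) * (P * a * r ^ (-s)) := by gcongr
          _ = 2 * P * r ^ (-s) * (l * a) := by ring
          _ ≤ 2 * P * r ^ (-s) * (1 / 2) := by gcongr
          _ ≤ (16 + 3 * 3 ^ s * (P + 1) + P) * r ^ (-s) := by
            have : 0 ≤ (16 + 3 * 3 ^ s * (P + 1)) * r ^ (-s) := by positivity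
            linarith

end Pool.Agent.H65.BM
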