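import Pool.Agent.H65.BM.S

/-!
# Project BM: NULL, finite sets are moved into weak neighbourhoods of `0` by isometries
-/

set_option autoImplicit false

namespace Pool.Agent.H65.BM

open Filter Topology Pool.Agent.N314.OP

/-- the families which are weak limits of orbits of the identity family on `X` -/
def NZ {E : Type} [NormedAddCommGroup E] [NormedSpace ℝ E] (X : Finset E) (z : E → E) : Prop :=
  ∀ (F : Finset (StrongDual ℝ E)) (ε : ℝ), 0 < ε →
    ∃ T : E ≃ₗᵢ[ℝ] E, ∀ x ∈ X, ∀ f ∈ F, |f (T x - z x)| < ε

theorem nz_map {E : Type} [NormedAddCommGroup E] [NormedSpace ℝ E] {X : Finset E} {z : E → E}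
    (h : NZ X z) (S : E ≃ₗᵢ[ℝ] E) : NZ X (fun x => S (z x)) := by
  classical
  intro F ε hε
  obtain ⟨T, hT⟩ := h (F.image fun f => f.comp (S.toContinuousLinearEquiv : E →L[ℝ] E)) ε hε
  refine ⟨T.trans S, fun x hx f hf => ?_⟩
  have h1 := hT x hx _ (Finset.mem_image_of_mem _ hf)
  have h2 : (f.comp (S.toContinuousLinearEquiv : E →L[ℝ] E)) (T x - z x) =
      f ((T.trans S) x - S (z x)) := by
    change f (S (T x - z x)) = f (S (T x) - S (z x))
    rw [map_sub]
  rwa [h2] at h1

/-- common weakly convergent subsequences -/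
theorem nz_sub {E : Type} [NormedAddCommGroup E] [NormedSpace ℝ E] (hW : WSC E)
    (u : E → ℕ → E) (C : E → ℝ) (hC : ∀ x n, ‖u x n‖ ≤ C x) (X : Finset E) :
    ∃ (φ : ℕ → ℕ) (a : E → E), StrictMono φ ∧ ∀ x ∈ X, ∀ f : StrongDual ℝ E,
      Tendsto (fun k => f (u x (φ k))) atTop (𝓝 (f (a x))) := by
  classical
  induction X using Finset.induction_on with
  | empty => exact ⟨id, id, strictMono_id, by simp⟩
  | insert x X hx ih =>
    obtain ⟨φ, a, hφ, ha⟩ := ih
    obtain ⟨b, ψ, hψ, hb⟩ := hW (fun n => u x (φ n)) (C x) fun n => hC x _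
    refine ⟨fun n => φ (ψ n), Function.update a x b, hφ.comp hψ, fun y hy f => ?_⟩
    rcases Finset.mem_insert.1 hy with rfl | hy'
    · rw [Function.update_self]; exact hb f
    · have hyx : y ≠ x := fun h => hx (h ▸ hy')
      rw [Function.update_of_ne hyx]
      exact (ha y hy' f).comp hψ.tendsto_atTop

theorem null : S_NULL := by
  intro E _ _ hAT hW hinf X F ε hε
  classical
  obtain ⟨y, hy0, hy1⟩ := exists_null hinf hW
  have main : ∀ S : Finset E, S ⊆ X → ∃ z : E → E, NZ X z ∧ ∀ x ∈ S, z x = 0 := by
    intro S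
    induction S using Finset.induction_on with
    | empty =>
      intro _
      refine ⟨id, fun F ε hε => ⟨LinearIsometryEquiv.refl ℝ E, fun x _ f _ => ?_⟩, by simp⟩
      simpa using hε
    | insert l S hl ih =>
      intro hS
      obtain ⟨z, hz, hz0⟩ := ih fun x hx => hS (Finset.mem_insert_of_mem hx)
      by_cases hzl : z l = 0
      · refine ⟨z, hz, fun x hx => ?_⟩
        rcases Finset.mem_insert.1 hx with rfl | hx
        · exact hzl
        · exact hz0 x hx
      have hpos : 0 < ‖z l‖ := norm_pos_iff.2 hzl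
      have hunit : ‖‖z l‖⁻¹ • z l‖ = 1 := by
        rw [norm_smul, norm_inv, norm_norm, inv_mul_cancel₀ hpos.ne']
      have hR : ∀ n : ℕ, ∃ T : E ≃ₗᵢ[ℝ] E, ‖T (‖z l‖⁻¹ • z l) - y n‖ < 1 / ((n : ℝ) + 1) :=
        fun n => hAT _ _ hunit (hy1 n) _ (by positivity)
      choose R hRn using hR
      obtain ⟨φ, w, hφ, hw⟩ := nz_sub hW (fun x n => R n (z x)) (fun x => ‖z x‖)
        (fun x n => by rw [LinearIsometryEquiv.norm_map]) X
      -- the limit vanishes at `l`
      have hlim : ∀ f : StrongDual ℝ E, Tendsto (fun n => f (R n (z l))) atTop (𝓝 0) := by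
        intro f
        have h1 : Tendsto (fun n => f (y n)) atTop (𝓝 0) := hy0 f
        have h2 : Tendsto (fun n => f (R n (‖z l‖⁻¹ • z l) - y n)) atTop (𝓝 0) := by
          have h3 : Tendsto (fun n : ℕ => ‖f‖ * (1 / ((n : ℝ) + 1))) atTop (𝓝 0) := by
            have := (tendsto_one_div_add_atTop_nhds_zero_nat (𝕜 := ℝ)).const_mul ‖f‖
            simpa using this
          refine squeeze_zero_norm (fun n => ?_) h3
          exact (f.le_opNorm _).trans (mul_le_mul_of_nonneg_left (hRn n).le (norm_nonneg _))
        have h4 : Tendsto (fun n => f (R n (‖z l‖⁻¹ • z l))) atTop (𝓝 0) := by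
          have := h2.add h1
          simpa only [map_sub, sub_add_cancel, add_zero] using this
        have h5 := h4.const_mul ‖z l‖
        rw [mul_zero] at h5
        refine h5.congr fun n => ?_
        rw [map_smul, map_smul, smul_eq_mul, ← mul_assoc, mul_inv_cancel₀ hpos.ne', one_mul]
      have hlX : l ∈ X := hS (Finset.mem_insert_self _ _)
      have hwl : w l = 0 := by
        by_contra hne
        obtain ⟨g, -, hg⟩ := exists_dual_vector ℝ (w l) (norm_ne_zero_iff.2 hne)
        have h1 := tendsto_nhds_unique (hw l hlX g) ((hlim g).comp hφ.tendsto_atTop)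
        rw [hg] at h1
        simp only [RCLike.ofReal_real_eq_id, id] at h1
        exact hne (norm_eq_zero.1 h1)
      have hwS : ∀ x ∈ S, w x = 0 := by
        intro x hx
        by_contra hne
        obtain ⟨g, -, hg⟩ := exists_dual_vector ℝ (w x) (norm_ne_zero_iff.2 hne)
        have h1 := hw x (hS (Finset.mem_insert_of_mem hx)) g
        simp only [hz0 x hx, map_zero] at h1
        have h2 := tendsto_nhds_unique h1 tendsto_const_nhds
        rw [hg] at h2
        simp only [RCLike.ofReal_real_eq_id, id] at h2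
        exact hne (norm_eq_zero.1 h2)
      refine ⟨w, ?_, fun x hx => ?_⟩
      · intro F ε hε
        have hev : ∀ᶠ k in atTop, ∀ x ∈ X, ∀ f ∈ F, |f (R (φ k) (z x) - w x)| < ε / 2 := by
          rw [Filter.eventually_all_finset]
          intro x hx
          rw [Filter.eventually_all_finset]
          intro f _
          have h1 := (hw x hx f).sub_const (f (w x))
          rw [sub_self] at h1
          have h2 := h1.abs
          rw [abs_zero] at h2
          filter_upwards [h2.eventually_lt_const (half_pos hε)] with k hk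
          rwa [map_sub]
        obtain ⟨k, hk⟩ := hev.exists
        obtain ⟨T, hT⟩ := nz_map hz (R (φ k)) F (ε / 2) (half_pos hε)
        refine ⟨T, fun x hx f hf => ?_⟩
        have h1 := hk x hx f hf
        have h2 := hT x hx f hf
        have h3 : f (T x - w x) = f (T x - R (φ k) (z x)) + f (R (φ k) (z x) - w x) := by
          rw [← map_add]; congr 1; abel
        rw [h3]
        calc |f (T x - R (φ k) (z x)) + f (R (φ k) (z x) - w x)|
            ≤ |f (T x - R (φ k) (z x))| + |f (R (φ k) (z x) - w x)| := abs_add_le _ _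
          _ < ε / 2 + ε / 2 := add_lt_add h2 h1
          _ = ε := by ring
      · rcases Finset.mem_insert.1 hx with rfl | hx
        · exact hwl
        · exact hwS x hx
  obtain ⟨z, hz, hz0⟩ := main X (Finset.Subset.refl X)
  obtain ⟨T, hT⟩ := hz F ε hε
  refine ⟨T, fun x hx f hf => ?_⟩
  have := hT x hx f hf
  rwa [hz0 x hx, sub_zero] at this

end Pool.Agent.H65.BM
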