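import Pool.Agent.H65.BM.S4
import Pool.Agent.H65.BM.NULL

/-! # BM4-NULL2 (helper91) -/

set_option autoImplicit false

namespace Pool.Agent.H65.BM

open Filter Topology Pool.Agent.N314.OP

theorem null2 : S_NULL2 := by
  intro E _ _ _ hW hN X F ε hε
  classical
  -- isometries whose orbits tend to zero on `F`
  have hA : ∀ n : ℕ, ∃ A : E ≃ₗᵢ[ℝ] E, ∀ k ≤ n, ∀ f ∈ F,
      |f (A (TopologicalSpace.denseSeq E k))| < 1 / ((n : ℝ) + 1) := by
    intro n
    obtain ⟨A, hA⟩ := hN ((Finset.range (n + 1)).image (TopologicalSpace.denseSeq E)) F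
      (1 / ((n : ℝ) + 1)) (by positivity)
    exact ⟨A, fun k hk f hf => hA _ (Finset.mem_image_of_mem _ (Finset.mem_range.2 (by omega))) f hf⟩
  choose A hA using hA
  have hlim : ∀ y : E, ∀ f ∈ F, Tendsto (fun n => f (A n y)) atTop (𝓝 0) := by
    intro y f hf
    rw [Metric.tendsto_atTop]
    intro τ hτ
    have h1 : 0 < τ / 2 / (‖f‖ + 1) := by positivity
    obtain ⟨k, hk⟩ := (TopologicalSpace.denseRange_denseSeq E).exists_dist_lt y h1
    obtain ⟨N, hN⟩ := exists_nat_one_div_lt (half_pos hτ)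
    refine ⟨max k N, fun n hn => ?_⟩
    have h2 := hA n k (le_trans (le_max_left _ _) hn) f hf
    have h3 : 1 / ((n : ℝ) + 1) ≤ 1 / ((N : ℝ) + 1) := by
      apply one_div_le_one_div_of_le (by positivity)
      have : (N : ℝ) ≤ n := by exact_mod_cast le_trans (le_max_right _ _) hn
      linarith
    have h4 : |f (A n (y - TopologicalSpace.denseSeq E k))| ≤ τ / 2 := by
      calc |f (A n (y - TopologicalSpace.denseSeq E k))|
          ≤ ‖f‖ * ‖A n (y - TopologicalSpace.denseSeq E k)‖ := f.le_opNorm _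
        _ = ‖f‖ * ‖y - TopologicalSpace.denseSeq E k‖ := by rw [LinearIsometryEquiv.norm_map]
        _ ≤ (‖f‖ + 1) * (τ / 2 / (‖f‖ + 1)) := by
          rw [dist_eq_norm] at hk
          exact mul_le_mul (by linarith) hk.le (norm_nonneg _) (by positivity)
        _ = τ / 2 := by field_simp
    have h5 : f (A n y) = f (A n (TopologicalSpace.denseSeq E k)) +
        f (A n (y - TopologicalSpace.denseSeq E k)) := by
      rw [← map_add, ← map_add]
      congr 2
      abel
    rw [Real.dist_eq, sub_zero, h5]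
    calc |f (A n (TopologicalSpace.denseSeq E k)) + f (A n (y - TopologicalSpace.denseSeq E k))|
        ≤ |f (A n (TopologicalSpace.denseSeq E k))| +
          |f (A n (y - TopologicalSpace.denseSeq E k))| := abs_add_le _ _
      _ < τ / 2 + τ / 2 := by linarith
      _ = τ := by ring
  -- a weakly convergent subsequence of the inverses
  obtain ⟨φ, S, hφ, hS⟩ := nz_sub hW (fun x n => (A n).symm x) (fun x => ‖x‖)
    (fun x n => by rw [LinearIsometryEquiv.norm_map]) X
  obtain ⟨R, hR⟩ := hN (X.image S) F (ε / 2) (half_pos hε)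
  have e1 : ∀ᶠ k in atTop, ∀ x ∈ X, ∀ f ∈ F, |f (A (φ k) (R.symm x))| < ε := by
    rw [Filter.eventually_all_finset]
    intro x _
    rw [Filter.eventually_all_finset]
    intro f hf
    have h1 := ((hlim (R.symm x) f hf).comp hφ.tendsto_atTop).abs
    rw [abs_zero] at h1
    exact h1.eventually_lt_const hε
  have e2 : ∀ᶠ k in atTop, ∀ x ∈ X, ∀ f ∈ F, |f (R ((A (φ k)).symm x))| < ε := by
    rw [Filter.eventually_all_finset]
    intro x hx
    rw [Filter.eventually_all_finset]
    intro f hf
    have h1 := (hS x hx (f.comp (R.toContinuousLinearEquiv : E →L[ℝ] E))).abs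
    have h2 : |(f.comp (R.toContinuousLinearEquiv : E →L[ℝ] E)) (S x)| < ε := by
      have := hR (S x) (Finset.mem_image_of_mem _ hx) f hf
      change |f (R (S x))| < ε
      linarith
    exact h1.eventually_lt_const h2
  obtain ⟨k, hk1, hk2⟩ := (e1.and e2).exists
  refine ⟨R.symm.trans (A (φ k)), fun x hx f hf => ⟨hk1 x hx f hf, ?_⟩⟩
  exact hk2 x hx f hf

end Pool.Agent.H65.BM
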