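import Pool.Agent.H65.BM.S

/-! BM-OP (helper51): moving a random vector does not decrease its norm, up to weak moments. -/

set_option autoImplicit false

namespace Pool.Agent.H65.BM

open Pool.Agent.N314.OP Pool.Agent.N314.OP.Mod

namespace OPaux

section mink

variable {Ω : Type} [Fintype Ω]

/-- weighted `L²` norm -/
noncomputable def L (w : Ω → ℝ) (a : Ω → ℝ) : ℝ := Real.sqrt (∑ ω, w ω * a ω ^ 2)

theorem L_mono {w : Ω → ℝ} (hw : ∀ ω, 0 ≤ w ω) {a b : Ω → ℝ} (ha : ∀ ω, 0 ≤ a ω)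
    (hab : ∀ ω, a ω ≤ b ω) : L w a ≤ L w b := by
  apply Real.sqrt_le_sqrt
  apply Finset.sum_le_sum
  intro ω _
  exact mul_le_mul_of_nonneg_left (pow_le_pow_left₀ (ha ω) (hab ω) 2) (hw ω)

theorem L_eq {w : Ω → ℝ} (hw : ∀ ω, 0 ≤ w ω) (a : Ω → ℝ) :
    L w a = ‖(WithLp.toLp 2 (fun ω => Real.sqrt (w ω) * a ω) : EuclideanSpace ℝ Ω)‖ := by
  rw [EuclideanSpace.norm_eq, L]
  congr 1
  apply Finset.sum_congr rfl
  intro ω _
  simp only [Real.norm_eq_abs, sq_abs]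
  rw [mul_pow, Real.sq_sqrt (hw ω)]

theorem L_add {w : Ω → ℝ} (hw : ∀ ω, 0 ≤ w ω) (a b : Ω → ℝ) :
    L w (fun ω => a ω + b ω) ≤ L w a + L w b := by
  rw [L_eq hw, L_eq hw, L_eq hw]
  have h : (WithLp.toLp 2 (fun ω => Real.sqrt (w ω) * (a ω + b ω)) : EuclideanSpace ℝ Ω) =
      WithLp.toLp 2 (fun ω => Real.sqrt (w ω) * a ω) +
        WithLp.toLp 2 (fun ω => Real.sqrt (w ω) * b ω) := by
    rw [← WithLp.toLp_add]
    congr 1
    funext ω
    simp [mul_add]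
  rw [h]
  exact norm_add_le _ _

theorem L_const {w : Ω → ℝ} (hw1 : ∑ ω, w ω = 1) {c : ℝ} (hc : 0 ≤ c) :
    L w (fun _ => c) = c := by
  rw [L, ← Finset.sum_mul, hw1, one_mul, Real.sqrt_sq hc]

theorem L_smul {w : Ω → ℝ} {c : ℝ} (hc : 0 ≤ c) (a : Ω → ℝ) :
    L w (fun ω => c * a ω) = c * L w a := by
  rw [L, L]
  have : ∑ ω, w ω * (c * a ω) ^ 2 = c ^ 2 * ∑ ω, w ω * a ω ^ 2 := by
    rw [Finset.mul_sum]
    apply Finset.sum_congr rfl
    intro ω _
    ring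
  rw [this, Real.sqrt_mul (sq_nonneg c), Real.sqrt_sq hc]

theorem L_abs (w : Ω → ℝ) (a : Ω → ℝ) : L w (fun ω => |a ω|) = L w a := by
  simp [L, sq_abs]

theorem L_sum {w : Ω → ℝ} (hw : ∀ ω, 0 ≤ w ω) (n : ℕ) (a : Fin n → Ω → ℝ) :
    L w (fun ω => ∑ i, a i ω) ≤ ∑ i, L w (a i) := by
  induction n with
  | zero => simp [L]
  | succ n ih =>
    simp only [Fin.sum_univ_succ]
    refine (L_add hw _ _).trans ?_
    exact add_le_add le_rfl (ih _)

end mink

section power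

variable {E : Type} [NormedAddCommGroup E] [NormedSpace ℝ E]

/-- the pointwise inequality -/
theorem pointwise (K : E →ₗ[ℝ] E) (hK : ∀ y, ‖y - K y‖ ≤ ‖y‖) (x₁ : E) (y : E) (t : ℝ) (m : ℕ)
    (hm : 1 ≤ m) : ‖y‖ ≤ ‖y + t • K x₁‖ + 2 * |t| * ‖x₁‖ / m + m * ‖K y‖ := by
  set T : E →ₗ[ℝ] E := LinearMap.id - K with hT
  have hTn : ∀ y, ‖T y‖ ≤ ‖y‖ := fun y => by simpa [hT] using hK y
  have hTl : ∀ (l : ℕ) (y : E), ‖(T ^ l) y‖ ≤ ‖y‖ := by
    intro l
    induction l with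
    | zero => intro y; simp
    | succ l ih =>
      intro y
      rw [pow_succ, Module.End.mul_apply]
      exact (ih _).trans (hTn y)
  have hK1 : ∀ y, K y = y - T y := by intro y; simp [hT]
  -- telescoping
  have h1 : ∀ (l : ℕ) (y : E), ‖y - (T ^ l) y‖ ≤ l * ‖K y‖ := by
    intro l
    induction l with
    | zero => intro y; simp
    | succ l ih =>
      intro y
      have : y - (T ^ (l + 1)) y = (y - (T ^ l) y) + (T ^ l) (K y) := by
        rw [hK1, map_sub, pow_succ, Module.End.mul_apply]; abel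
      rw [this]
      refine (norm_add_le _ _).trans ?_
      push_cast
      rw [add_mul, one_mul]
      exact add_le_add (ih y) (hTl l _)
  have h2 : ∀ (m : ℕ), ∑ l ∈ Finset.range m, (T ^ l) (K x₁) = x₁ - (T ^ m) x₁ := by
    intro m
    induction m with
    | zero => simp
    | succ m ih =>
      rw [Finset.sum_range_succ, ih, hK1, map_sub, pow_succ, Module.End.mul_apply]; abel
  have hm0 : (0 : ℝ) < m := by exact_mod_cast hm
  have h3 : (m : ℝ) • y = ∑ l ∈ Finset.range m, (T ^ l) (y + t • K x₁) -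
      t • (x₁ - (T ^ m) x₁) + ∑ l ∈ Finset.range m, (y - (T ^ l) y) := by
    rw [← h2 m, Finset.smul_sum, ← Finset.sum_sub_distrib, ← Finset.sum_add_distrib]
    have : ∀ l ∈ Finset.range m, (T ^ l) (y + t • K x₁) - t • (T ^ l) (K x₁) +
        (y - (T ^ l) y) = y := by
      intro l _
      rw [map_add, map_smul]; abel
    rw [Finset.sum_congr rfl this, Finset.sum_const, Finset.card_range,
      Nat.cast_smul_eq_nsmul]
  have h4 : (m : ℝ) * ‖y‖ ≤ m * ‖y + t • K x₁‖ + |t| * (2 * ‖x₁‖) + m * (m * ‖K y‖) := by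
    have e1 : (m : ℝ) * ‖y‖ = ‖(m : ℝ) • y‖ := by
      rw [norm_smul, Real.norm_of_nonneg hm0.le]
    rw [e1, h3]
    refine (norm_add_le _ _).trans (add_le_add ((norm_sub_le _ _).trans (add_le_add ?_ ?_)) ?_)
    · refine (norm_sum_le _ _).trans ?_
      refine (Finset.sum_le_sum (fun l _ => hTl l _)).trans ?_
      simp
    · rw [norm_smul, Real.norm_eq_abs]
      refine mul_le_mul_of_nonneg_left ?_ (abs_nonneg t)
      refine (norm_sub_le _ _).trans ?_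
      have := hTl m x₁
      linarith
    · refine (norm_sum_le _ _).trans ?_
      have : ∀ l ∈ Finset.range m, ‖y - (T ^ l) y‖ ≤ m * ‖K y‖ := by
        intro l hl
        refine (h1 l y).trans ?_
        refine mul_le_mul_of_nonneg_right ?_ (norm_nonneg _)
        exact_mod_cast (Finset.mem_range.1 hl).le
      refine (Finset.sum_le_sum this).trans ?_
      simp
  have h5 : ‖y‖ = (m * ‖y‖) / m := by field_simp
  rw [h5]
  have h6 : ‖y + t • K x₁‖ + 2 * |t| * ‖x₁‖ / m + m * ‖K y‖ =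
      (m * ‖y + t • K x₁‖ + |t| * (2 * ‖x₁‖) + m * (m * ‖K y‖)) / m := by
    field_simp
  rw [h6]
  exact div_le_div_of_nonneg_right h4 hm0.le

end power

end OPaux

open OPaux in
theorem op : S_OP := by
  intro E _ _ hAT hKO
  obtain ⟨n, f, e, ⟨y₀, hy₀⟩, hKn⟩ := hKO
  -- the operator
  obtain ⟨K, hKdef⟩ : ∃ K : E →ₗ[ℝ] E, ∀ y, K y = ∑ i, f i y • e i := by
    refine ⟨∑ i, ((f i : E →ₗ[ℝ] ℝ)).smulRight (e i), ?_⟩
    intro y
    simp [LinearMap.sum_apply]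
  have hK : ∀ y, ‖y - K y‖ ≤ ‖y‖ := fun y => by rw [hKdef]; exact hKn y
  have hKy : K y₀ ≠ 0 := by rw [hKdef]; exact hy₀
  have hn0 : 0 < ‖K y₀‖ := norm_pos_iff.2 hKy
  set x₁ : E := ‖K y₀‖⁻¹ • y₀ with hx₁
  have he : ‖K x₁‖ = 1 := by
    rw [hx₁, map_smul, norm_smul, norm_inv, norm_norm, inv_mul_cancel₀ hn0.ne']
  set D : ℝ := ∑ i, ‖e i‖ * ‖f i‖ with hD
  have hD0 : 0 ≤ D := Finset.sum_nonneg (fun i _ => by positivity)
  refine ⟨1 + 2 * ‖x₁‖ + D, by positivity, ?_⟩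
  intro Ω _ w Y v m σ hw hw1 hm hσ hg
  have hm0 : (0 : ℝ) < m := by exact_mod_cast hm
  by_cases hv : v = 0
  · subst hv
    simp only [add_zero]
    have : 0 ≤ (1 + 2 * ‖x₁‖ + D) * (‖(0 : E)‖ / m + m * σ) := by positivity
    linarith
  have hvn : 0 < ‖v‖ := norm_pos_iff.2 hv
  obtain ⟨A, hA⟩ := hAT (K x₁) (‖v‖⁻¹ • v) he
    (by rw [norm_smul, norm_inv, norm_norm, inv_mul_cancel₀ hvn.ne']) (1 / m) (by positivity)
  -- the pointwise bound
  have hpt : ∀ ω, ‖Y ω‖ ≤ ‖Y ω + v‖ + ((1 + 2 * ‖x₁‖) * ‖v‖ / m + m * ‖K (A.symm (Y ω))‖) := by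
    intro ω
    have h1 := pointwise K hK x₁ (A.symm (Y ω)) ‖v‖ m hm
    rw [LinearIsometryEquiv.norm_map, abs_of_pos hvn] at h1
    have h2 : ‖A.symm (Y ω) + ‖v‖ • K x₁‖ = ‖Y ω + ‖v‖ • A (K x₁)‖ := by
      rw [← A.norm_map (A.symm (Y ω) + ‖v‖ • K x₁), map_add, A.apply_symm_apply, map_smul]
    have h3 : Y ω + ‖v‖ • A (K x₁) = (Y ω + v) + ‖v‖ • (A (K x₁) - ‖v‖⁻¹ • v) := by
      rw [smul_sub, smul_smul, mul_inv_cancel₀ hvn.ne', one_smul]; abel
    have h4 : ‖Y ω + ‖v‖ • A (K x₁)‖ ≤ ‖Y ω + v‖ + ‖v‖ * (1 / m) := by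
      rw [h3]
      refine (norm_add_le _ _).trans (add_le_add le_rfl ?_)
      rw [norm_smul, norm_norm]
      exact mul_le_mul_of_nonneg_left hA.le hvn.le
    rw [h2] at h1
    have h5 : (1 + 2 * ‖x₁‖) * ‖v‖ / m = ‖v‖ * (1 / m) + 2 * ‖v‖ * ‖x₁‖ / m := by ring
    rw [h5]
    linarith
  have hA1 : L w (fun ω => ‖Y ω‖) ≤ L w (fun ω => ‖Y ω + v‖) +
      ((1 + 2 * ‖x₁‖) * ‖v‖ / m + m * L w (fun ω => ‖K (A.symm (Y ω))‖)) := by
    refine (L_mono hw (fun ω => norm_nonneg _) hpt).trans ?_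
    refine (L_add hw _ _).trans (add_le_add le_rfl ?_)
    refine (L_add hw _ _).trans (add_le_add ?_ ?_)
    · rw [L_const hw1 (by positivity)]
    · rw [L_smul hm0.le]
  have hA2 : L w (fun ω => ‖K (A.symm (Y ω))‖) ≤ D * σ := by
    have h1 : ∀ ω, ‖K (A.symm (Y ω))‖ ≤ ∑ i, ‖e i‖ * |f i (A.symm (Y ω))| := by
      intro ω
      rw [hKdef]
      refine (norm_sum_le _ _).trans ?_
      apply Finset.sum_le_sum
      intro i _
      rw [norm_smul, Real.norm_eq_abs, mul_comm]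
    refine (L_mono hw (fun ω => norm_nonneg _) h1).trans ?_
    refine (L_sum hw n _).trans ?_
    rw [hD, Finset.sum_mul]
    apply Finset.sum_le_sum
    intro i _
    rw [L_smul (norm_nonneg _), L_abs, mul_assoc]
    refine mul_le_mul_of_nonneg_left ?_ (norm_nonneg _)
    by_cases hfi : f i = 0
    · simp [hfi, L]
    have hfn : 0 < ‖f i‖ := norm_pos_iff.2 hfi
    -- the functional g = ‖f i‖⁻¹ • f i ∘ A⁻¹
    set g : StrongDual ℝ E := ‖f i‖⁻¹ • (f i).comp (A.symm : E →L[ℝ] E) with hgdef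
    have hg1 : ‖g‖ ≤ 1 := by
      refine ContinuousLinearMap.opNorm_le_bound _ zero_le_one ?_
      intro x
      rw [hgdef]
      simp only [smul_apply, ContinuousLinearMap.comp_apply, norm_smul,
        norm_inv, norm_norm]
      have : ‖(f i) ((A.symm : E →L[ℝ] E) x)‖ ≤ ‖f i‖ * ‖x‖ := by
        refine ((f i).le_opNorm _).trans ?_
        simp
      rw [one_mul, inv_mul_le_iff₀ hfn]
      exact this
    have h2 := hg g hg1
    have h3 : ∀ ω, f i (A.symm (Y ω)) = ‖f i‖ * g (Y ω) := by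
      intro ω
      rw [hgdef]
      simp only [smul_apply, ContinuousLinearMap.comp_apply, smul_eq_mul]
      rw [← mul_assoc, mul_inv_cancel₀ hfn.ne', one_mul]
      rfl
    have h4 : L w (fun ω => f i (A.symm (Y ω))) = ‖f i‖ * L w (fun ω => g (Y ω)) := by
      rw [← L_smul hfn.le]
      congr 1
      funext ω
      exact h3 ω
    rw [h4]
    refine mul_le_mul_of_nonneg_left ?_ hfn.le
    exact Real.sqrt_le_iff.2 ⟨hσ, h2⟩
  have hfin : (1 + 2 * ‖x₁‖) * ‖v‖ / m + m * L w (fun ω => ‖K (A.symm (Y ω))‖) ≤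
      (1 + 2 * ‖x₁‖ + D) * (‖v‖ / m + m * σ) := by
    have h1 : (m : ℝ) * L w (fun ω => ‖K (A.symm (Y ω))‖) ≤ m * (D * σ) :=
      mul_le_mul_of_nonneg_left hA2 hm0.le
    have h2 : 0 ≤ D * (‖v‖ / m) := by positivity
    have h3 : 0 ≤ (1 + 2 * ‖x₁‖) * (m * σ) := by positivity
    have h4 : (1 + 2 * ‖x₁‖) * ‖v‖ / m = (1 + 2 * ‖x₁‖) * (‖v‖ / m) := by ring
    rw [h4]
    nlinarith
  have := hA1.trans (add_le_add le_rfl hfin)
  exact this

end Pool.Agent.H65.BM
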