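import Pool.Agent.H65.BM.S2

/-!
# Project BM, fourth wave (BM4): arbitrary compact operators which are not quasinilpotent

THEOREM. Let `E` be almost transitive, infinite-dimensional, with separable dual, `K` compact,
`‖1 - K‖ ≤ 1`, `K² x + a K x + b x = 0` for some `x ≠ 0`, `b ≠ 0`. Then `E` is a Hilbert space.

Idea. The positions `T j` of the second wave are improved: (1) the operators `T j g K g⁻¹ (T j)⁻¹`
nearly vanish on `T i u`, `i ≠ j`, so in each coordinate `1 - g K g⁻¹` may be applied without increasing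
the norm of the random sum `∑ ± T j u j`; (2) the norm of `∑ ± T j x` is nearly maximal among all
`∑ ± T j (B j x)`. With (LP) this gives upper and lower bounds of `∑ ± T j u j` for unit vectors
`u j` which agree up to a constant INDEPENDENT of the number of coordinates.
-/

set_option autoImplicit false

namespace Pool.Agent.H65.BM

open Pool.Agent.N314.OP Pool.Agent.N314.OP.Mod

/-! ## Definitions -/

/-- the adjoint `g ↦ g ∘ K` -/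
noncomputable def adj {E : Type} [NormedAddCommGroup E] [NormedSpace ℝ E] (K : E →L[ℝ] E) :
    StrongDual ℝ E →L[ℝ] StrongDual ℝ E := (ContinuousLinearMap.compL ℝ E E ℝ).flip K

/-- `K` is small on weakly small vectors (compactness of `K`) -/
def CA {E : Type} [NormedAddCommGroup E] [NormedSpace ℝ E] (K : E →L[ℝ] E) : Prop :=
  ∀ τ : ℝ, 0 < τ → ∃ F : Finset (StrongDual ℝ E), ∀ y, ‖K y‖ ≤ ∑ f ∈ F, |f y| + τ * ‖y‖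

/-- the product of the operators `1 - g K g⁻¹`, `g ∈ l`, applied to `z` -/
def wd {E : Type} [NormedAddCommGroup E] [NormedSpace ℝ E] (K : E →L[ℝ] E) :
    List (E ≃ₗᵢ[ℝ] E) → E → E
  | [], z => z
  | g :: l, z => wd K l z - g (K (g.symm (wd K l z)))

/-- the product of the isometries of a list, `b :: l ↦ b ∘ pr l` -/
def pr {E : Type} [NormedAddCommGroup E] [NormedSpace ℝ E] :
    List (E ≃ₗᵢ[ℝ] E) → E ≃ₗᵢ[ℝ] E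
  | [] => LinearIsometryEquiv.refl ℝ E
  | b :: l => (pr l).trans b

/-- uniform irreducibility of the conjugates of `1 - K` -/
def LP (E : Type) [NormedAddCommGroup E] [NormedSpace ℝ E] (K : E →L[ℝ] E) : Prop :=
  ∃ c : ℝ, 0 < c ∧ ∀ (z : E) (φ : StrongDual ℝ E), ‖z‖ = 1 → ‖φ‖ = 1 →
    ∃ l : List (E ≃ₗᵢ[ℝ] E), c ≤ |φ (wd K l z)|

/-- as `Op`, for one operator which is small on weakly small vectors -/
def OpA (E : Type) [NormedAddCommGroup E] [NormedSpace ℝ E] (C τ a : ℝ) : Prop :=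
  ∀ (Ω : Type) [Fintype Ω] (w : Ω → ℝ) (Y : Ω → E) (v : E) (m : ℕ) (σ : ℝ),
    (∀ ω, 0 ≤ w ω) → ∑ ω, w ω = 1 → 1 ≤ m → 0 ≤ σ →
    (∀ g : StrongDual ℝ E, ‖g‖ ≤ 1 → ∑ ω, w ω * (g (Y ω)) ^ 2 ≤ σ ^ 2) →
    Real.sqrt (∑ ω, w ω * ‖Y ω‖ ^ 2) ≤
      Real.sqrt (∑ ω, w ω * ‖Y ω + v‖ ^ 2) +
        C * (‖v‖ / m + m * (a * σ + τ * Real.sqrt (∑ ω, w ω * ‖Y ω‖ ^ 2)))

/-- as `CI`, for one value of `δ`: `D` replaces `C δ`, `a` replaces `C δ ^ (-A)` -/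
def CIa (E : Type) [NormedAddCommGroup E] [NormedSpace ℝ E] (J : E → StrongDual ℝ E)
    (D a : ℝ) : Prop :=
  ∀ (Ω : Type) [Fintype Ω] (w : Ω → ℝ) (Y : Ω → E) (v : E) (σ : ℝ),
    (∀ ω, 0 ≤ w ω) → ∑ ω, w ω = 1 → 0 ≤ σ →
    (∀ g : StrongDual ℝ E, ‖g‖ ≤ 1 → ∑ ω, w ω * (g (Y ω)) ^ 2 ≤ σ ^ 2) →
    |∑ ω, w ω * J (Y ω) v| ≤ ‖v‖ * (D * Real.sqrt (∑ ω, w ω * ‖Y ω‖ ^ 2) + a * σ)

/-- as `NULLP`, for an isometry and its inverse -/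
def NULL2P (E : Type) [NormedAddCommGroup E] [NormedSpace ℝ E] : Prop :=
  ∀ (X : Finset E) (F : Finset (StrongDual ℝ E)) (ε : ℝ), 0 < ε →
    ∃ T : E ≃ₗᵢ[ℝ] E, ∀ x ∈ X, ∀ f ∈ F, |f (T x)| < ε ∧ |f (T.symm x)| < ε

/-- as `PB`, with the additional condition that the conjugates of `K` in one coordinate nearly
vanish on the vectors of the other coordinates -/
def PB2 (E : Type) [NormedAddCommGroup E] [NormedSpace ℝ E] (K : E →L[ℝ] E) (C c₁ : ℝ) : Prop :=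
  ∀ Z : Finset E, (∀ u ∈ Z, ‖u‖ ≤ 1) →
    ∀ (X : Finset E) (G : Finset (E ≃ₗᵢ[ℝ] E)) (ε : ℝ), 0 < ε → ∀ M : ℕ,
    ∃ T : Fin M → E ≃ₗᵢ[ℝ] E,
      (∀ g : StrongDual ℝ E, ‖g‖ ≤ 1 → ∀ u : Fin M → E, (∀ j, u j ∈ Z) →
        ∑ j, (g (T j (u j))) ^ 2 ≤ C * (M : ℝ) ^ (1 - c₁)) ∧
      ∀ i j, i ≠ j → ∀ g ∈ G, ∀ u ∈ X, ‖K (g.symm ((T j).symm (T i u)))‖ ≤ ε

/-! ## Statements -/

/-- **CAE**. `K` maps the unit ball into a compact set, which has a finite `τ/4`-net `w_i`; `h_i` of norm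
one with `h_i w_i = ‖w_i‖`; for `‖y‖ ≤ 1`: `‖K y‖ ≤ ‖w_i‖ + τ/4 = h_i w_i + τ/4 ≤ |h_i (K y)| + τ/2`.
`F` = the `h_i ∘ K`; homogeneity. -/
def S_CAE : Prop := ∀ (E : Type) [NormedAddCommGroup E] [NormedSpace ℝ E] (K : E →L[ℝ] E),
  IsCompactOperator K → CA K

/-- **CAD**. `‖g ∘ K‖ = sup_{‖x‖ ≤ 1} |g (K x)| ≤ max_i |g w_i| + τ ‖g‖` for a finite `τ`-net `w_i` of the
image of the unit ball. `F` = evaluations at `w_i` (`NormedSpace.inclusionInDoubleDual`). -/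
def S_CAD : Prop := ∀ (E : Type) [NormedAddCommGroup E] [NormedSpace ℝ E] (K : E →L[ℝ] E),
  IsCompactOperator K → CA (adj K)

/-- **RIESZ**. `L = 1 - A`. The kernels of `L ^ n` are finite-dimensional (`L ^ n = 1 -` compact;
the identity of the kernel is compact) and stabilize: `N = ker (L ^ n) = ker (L ^ (2 n))`
(otherwise Riesz lemma: unit vectors `x_n ∈ ker L^(n+1)` at distance `≥ 1/2` from `ker L^n`; then
`‖A x_n - A x_m‖ ≥ 1/2`). `P₀` a continuous projection onto `N`, `S = L ^ n + P₀ = 1 -` compact is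
injective (`L^n x = -P₀ x ∈ N ⟹ L^(2n) x = 0 ⟹ x ∈ N ⟹ x = P₀ x = 0`), so bijective with continuous
inverse (`IsCompactOperator.hasEigenvalue_or_mem_resolventSet`, `μ = 1`). `Π = P₀ ∘ S⁻¹` is the
projection onto `N` along the range of `L ^ n`; `E = N ⊕ range (L ^ n)`. If `U` is closed and invariant,
the same argument in `U` (`ker L^n|U = U ∩ N = ker L^(2n)|U`) gives `U = (U ∩ N) + L^n U`, so
`Π U ⊆ U`. `Π ≠ 0` since `x ∈ N`. -/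
def S_RIESZ : Prop := ∀ (X : Type) [NormedAddCommGroup X] [NormedSpace ℝ X] [CompleteSpace X]
  (A : X →L[ℝ] X), IsCompactOperator A → (∃ x, x ≠ 0 ∧ A x = x) →
  ∃ Q : X →L[ℝ] X, (∀ x, Q (Q x) = Q x) ∧ Q ≠ 0 ∧
    FiniteDimensional ℝ (LinearMap.range (Q : X →ₗ[ℝ] X)) ∧
    ∀ U : Submodule ℝ X, IsClosed (U : Set X) → (∀ u ∈ U, A u ∈ U) → ∀ u ∈ U, Q u ∈ U

/-- **IRR2**. Adapt `Pool/Agent/H80/MR/IRR.lean` (helper80; statement and proof in `Stm2.lean`, S_IRR):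
there `F = Q`, `‖F‖ ≤ 2`, `G` = all isometries. Here `‖Q‖ ≤ C` (replace `1/2` in step (1) by
`1/(2C+2)` and take more steps in (2)) and `G` is closed under composition and inverses. -/
def S_IRR2 : Prop := ∀ (X : Type) [NormedAddCommGroup X] [NormedSpace ℝ X],
  ¬ FiniteDimensional ℝ X → ∀ G : Set (X ≃ₗᵢ[ℝ] X), LinearIsometryEquiv.refl ℝ X ∈ G →
  (∀ g ∈ G, ∀ h ∈ G, g.trans h ∈ G) → (∀ g ∈ G, g.symm ∈ G) →
  (∀ x y : X, ‖x‖ = 1 → ‖y‖ = 1 → ∃ T ∈ G, T x = y) →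
  ∀ Q : X →L[ℝ] X, (∀ x, Q (Q x) = Q x) → Q ≠ 0 →
    FiniteDimensional ℝ (LinearMap.range (Q : X →ₗ[ℝ] X)) →
    ∀ U : Submodule ℝ X, U ≠ ⊥ → (∀ g ∈ G, ∀ u ∈ U, g (Q (g.symm u)) ∈ U) → U = ⊤

/-- **LPX**. Suppose not: for every `n` there are unit `z_n, φ_n` with
`q_n (z_n) ≤ 1/(n+1)`, `q_n x = sup_l |φ_n (wd K l x)|`: a seminorm, `q_n ≤ ‖·‖` (contractions),
`q_n (x - g K g⁻¹ x) ≤ q_n x`, so `q_n (g K g⁻¹ x) ≤ 2 q_n x` and `q_n (g A g⁻¹ x) ≤ C q_n x` for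
`A = -(K² + a K)/b`; `q_n v_n ≥ 1/2` for a unit `v_n` with `φ_n v_n ≥ 1/2`. Ultrapower `X` of `E` (see
`Pool/Agent/H80/MR/ULTRA.lean`), `G` = the isometries `mk x ↦ mk (g_n x_n)`: transitive since `E` is almost
transitive; `A' (mk x) = mk (A x_n)` is compact, `A' x = x` for a constant sequence `x`;
`U = {mk x | lim q_n x_n = 0}` is a closed subspace, `∋ mk z ≠ 0`, `∌ mk v`, `g⁻¹ U` is
invariant under `A'` for all `g ∈ G`. With `Q` from RIESZ (for `A'`): `Q (g⁻¹ U) ⊆ g⁻¹ U`, so `U = ⊤` by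
IRR2: contradiction. -/
def S_LPX : Prop := S_RIESZ → S_IRR2 → ∀ (E : Type) [NormedAddCommGroup E] [NormedSpace ℝ E]
  [CompleteSpace E], ¬ FiniteDimensional ℝ E → AT E → ∀ K : E →L[ℝ] E, IsCompactOperator K →
  (∀ y, ‖y - K y‖ ≤ ‖y‖) → (∃ (x : E) (a b : ℝ), x ≠ 0 ∧ b ≠ 0 ∧ K (K x) + a • K x + b • x = 0) →
  LP E K

/-- **LPD**. An isometry `g` gives the isometry `g' φ = φ ∘ g⁻¹` of the dual, and
`(wd (adj K) l' φ) z = φ (wd K l z)` where `l'` is the reversed list of the `g'`. All functionals on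
the dual are evaluations. -/
def S_LPD : Prop := ∀ (E : Type) [NormedAddCommGroup E] [NormedSpace ℝ E] (K : E →L[ℝ] E),
  Function.Surjective (NormedSpace.inclusionInDoubleDual ℝ E) → LP E K →
  LP (StrongDual ℝ E) (adj K)

/-- **NULL2**. By `NULLP` and separability isometries `A_n` with `f (A_n y) → 0` for all `y ∈ E`, `f ∈ F`
(dense sequence). Subsequence (WSC): `A_n⁻¹ x ⇀ S x` for `x ∈ X`. `NULLP`: `R` with `|f (R (S x))| < ε/2`.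
`T = A_n R⁻¹`: `f (T x) = f (A_n (R⁻¹ x)) → 0`, `f (T⁻¹ x) = (f ∘ R) (A_n⁻¹ x) → f (R (S x))`. -/
def S_NULL2 : Prop := ∀ (E : Type) [NormedAddCommGroup E] [NormedSpace ℝ E]
  [TopologicalSpace.SeparableSpace E], WSC E → NULLP E → NULL2P E

/-- **POS2** (adapt `POS.lean`). `T j` is chosen with the additional conditions
`‖K (g⁻¹ (T i)⁻¹ T j u)‖ ≤ ε` and `‖K (g⁻¹ (T j)⁻¹ T i u)‖ ≤ ε` for `i < j`, `g ∈ G`, `u ∈ X`: by `CA K`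
(with `τ` small) these follow from finitely many conditions `|f (T j u)| < ε'`, `f = f' ∘ g⁻¹ (T i)⁻¹`,
and `|f ((T j)⁻¹ (T i u))| < ε'`, `f = f' ∘ g⁻¹`. -/
def S_POS2 : Prop := ∀ (E : Type) [NormedAddCommGroup E] [NormedSpace ℝ E] (J : E → StrongDual ℝ E)
  (C B : ℝ) (K : E →L[ℝ] E), 1 ≤ C → 0 ≤ B → JP E C B J → NULL2P E → CA K →
  ∃ C' c₁ : ℝ, 0 < C' ∧ 0 < c₁ ∧ c₁ < 1 ∧ PB2 E K C' c₁

/-- **OPC** (adapt `OPS.lean`, simpler: no `ε`, `‖1 - K‖ ≤ 1`). In `L²(w)`: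
`(∑ w ‖K A⁻¹ Y‖²)^(1/2) ≤ |F| σ max ‖f‖ + τ (∑ w ‖Y‖²)^(1/2)`. -/
def S_OPC : Prop := ∀ (E : Type) [NormedAddCommGroup E] [NormedSpace ℝ E] (K : E →L[ℝ] E),
  AT E → K ≠ 0 → (∀ y, ‖y - K y‖ ≤ ‖y‖) → CA K →
  ∃ C : ℝ, 0 ≤ C ∧ ∀ τ : ℝ, 0 < τ → ∃ a : ℝ, 0 ≤ a ∧ OpA E C τ a

/-- **CIC** (adapt `CIS.lean`). Given `D` choose `δ` small, then `m = ⌈1/δ⌉₊`, `t = δ^(B+1) Λ`, `τ` such
that `2 C' m τ / δ^(B+1) ≤ δ`, and the corresponding `a`. -/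
def S_CIC : Prop := ∀ (E : Type) [NormedAddCommGroup E] [NormedSpace ℝ E] (J : E → StrongDual ℝ E)
  (C B C' : ℝ), 1 ≤ C → 0 ≤ B → JP E C B J → 0 ≤ C' →
  (∀ τ : ℝ, 0 < τ → ∃ a : ℝ, 0 ≤ a ∧ OpA E C' τ a) →
  ∀ D : ℝ, 0 < D → ∃ a : ℝ, 0 ≤ a ∧ CIa E J D a

/-- **UC2** (adapt `BAL.lean` and `U.lean`; `C * X * (δ * Y + δ ^ (-A) * σ)` becomes
`X * (D * Y + a * σ)`). -/
def S_UC2 : Prop := ∀ (E : Type) [NormedAddCommGroup E] [NormedSpace ℝ E] (J : E → StrongDual ℝ E)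
  (D a : ℝ), 0 ≤ D → 0 ≤ a → CIa E J D a → (∀ y, J y y = 2 * ‖y‖ ^ 2) →
  (∀ y v, |J y v| ≤ 2 * ‖y‖ * ‖v‖) →
  ∀ (ι : Type) [Fintype ι] [DecidableEq ι] (k : ℕ) (π h : ℝ)
    (d : ι → Fin k → (Fin k → Bool) → E) (σ R : ℝ),
    1 ≤ k → 0 < π → π ≤ 1 / 2 → 0 < h → π * h ≤ (1 - π) * k → (∀ j, Pred (d j)) →
    0 ≤ σ → 0 ≤ R →
    (∀ g : StrongDual ℝ E, ‖g‖ ≤ 1 → ∀ ω : ι → (Fin k → Bool) × Option (Fin k),
      ∑ j, (g (uv k h (d j) (ω j))) ^ 2 ≤ σ ^ 2) →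
    (∀ (i : Fin k) (ω : ι → Fin k → Bool),
      av (fun θ : ι → Bool => ‖sm θ fun j => d j i (ω j)‖ ^ 2) ≤ R ^ 2) →
    ∀ L LD : ℝ, 0 ≤ L → 0 ≤ LD →
    L ^ 2 = ex (wt k π) (fun ω : ι → (Fin k → Bool) × Option (Fin k) =>
      av fun s : ι → Bool => ‖sm s fun j => uv k h (d j) (ω j)‖ ^ 2) →
    LD ^ 2 = ex (wt k π) (fun ω : ι → (Fin k → Bool) × Option (Fin k) =>
      av fun s : ι → Bool =>
        ‖sm s fun j => if (ω j).2 = none then 0 else uv k h (d j) (ω j)‖ ^ 2) →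
    L ^ 2 ≤ (1 + k / (π * h ^ 2)) * L * LD + ((k : ℝ) ^ 2 / (π * h)) * R * (D * L + a * σ)

/-- **T1C** (adapt `T1.lean`, with `UC2`). -/
def S_T1C : Prop := S_UC2 → ∀ (E : Type) [NormedAddCommGroup E] [NormedSpace ℝ E]
  (J : E → StrongDual ℝ E), (∀ D : ℝ, 0 < D → ∃ a : ℝ, 0 ≤ a ∧ CIa E J D a) →
  (∀ y, J y y = 2 * ‖y‖ ^ 2) → (∀ y v, |J y v| ≤ 2 * ‖y‖ * ‖v‖) →
  ∀ π : ℝ, 0 < π → π ≤ 1 / 4 → ∃ C' : ℝ, 0 ≤ C' ∧
    ∀ (ι : Type) [Fintype ι] [DecidableEq ι] (D : Finset ι) (z : ι → E), (∀ j ∈ D, ‖z j‖ ≤ 1) →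
      av (fun s : ι → Bool => ‖∑ j ∈ D, sg (s j) • z j‖ ^ 2) ≤
        128 / π * ex (wt 1 π) (fun ω : ι → (Fin 1 → Bool) × Option (Fin 1) =>
          av fun s : ι → Bool =>
            ‖∑ j ∈ D.filter (fun j => (ω j).2 ≠ none), sg (s j) • z j‖ ^ 2) + C' * D.card

/-- **CC**. One step: apply the contraction `1 - T j g K g⁻¹ (T j)⁻¹` to `∑ ± T i a_i`; in the coordinate
`j` it gives `T j (a_j - g K g⁻¹ a_j)`, the other coordinates change by `M ε` altogether. Iterate over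
the coordinates and the letters. -/
def S_CC : Prop := ∀ (E : Type) [NormedAddCommGroup E] [NormedSpace ℝ E] (K : E →L[ℝ] E),
  (∀ y, ‖y - K y‖ ≤ ‖y‖) → ∀ (M N : ℕ) (T : Fin M → E ≃ₗᵢ[ℝ] E) (l : Fin M → List (E ≃ₗᵢ[ℝ] E))
    (z : Fin M → E) (ε : ℝ), 0 ≤ ε → (∀ j, (l j).length ≤ N) →
    (∀ i j, i ≠ j → ∀ g ∈ l j, ∀ l' : List (E ≃ₗᵢ[ℝ] E), l' <:+ l i →
      ‖K (g.symm ((T j).symm (T i (wd K l' (z i)))))‖ ≤ ε) →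
    ∀ s : Fin M → Bool, ‖∑ i, sg (s i) • T i (wd K (l i) (z i))‖ ≤
      ‖∑ i, sg (s i) • T i (z i)‖ + M * N * (M * ε)

/-- **NM** (nearly maximal positions). Start with empty lists; as long as some `B` violates the
inequality append `B j` to `l j`: the average grows by the factor `1 + ε`, it is `≥ 1` at the beginning
and always `≤ M²`. So `R = ⌈log M² / log (1 + ε)⌉ + 1` steps suffice. -/
def S_NM : Prop := ∀ (M : ℕ) (ε : ℝ), 1 ≤ M → 0 < ε → ∃ R : ℕ,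
  ∀ (E : Type) [NormedAddCommGroup E] [NormedSpace ℝ E] (x : E), ‖x‖ = 1 →
    ∀ (T : Fin M → E ≃ₗᵢ[ℝ] E) (𝓑 : Set (E ≃ₗᵢ[ℝ] E)),
    ∃ l : Fin M → List (E ≃ₗᵢ[ℝ] E), (∀ j, (l j).length ≤ R ∧ ∀ b ∈ l j, b ∈ 𝓑) ∧
      ∀ B : Fin M → E ≃ₗᵢ[ℝ] E, (∀ j, B j ∈ 𝓑) →
        av (fun s : Fin M → Bool => ‖∑ j, sg (s j) • T j (pr (l j) (B j x))‖ ^ 2) ≤
          (1 + ε) * av (fun s : Fin M → Bool => ‖∑ j, sg (s j) • T j (pr (l j) x)‖ ^ 2)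

/-- **CBS**. `m` = the average on the right. For a set `S` of indices the smallest `‖v i‖`, `i ∈ S`, is at
most `(m / (c √|S|))^(1/2)` (`CB` for the `v i / ‖v i₀‖`, `i ∈ S`; `sym`). Induction:
`∑_S ‖v i‖² ≤ (m / c) ∑_{l ≤ |S|} l^(-1/2) ≤ 2 (m / c) √|S|`. -/
def S_CBS : Prop := ∀ (E : Type) [NormedAddCommGroup E] [NormedSpace ℝ E] (c : ℝ), 0 < c →
  CB E (1 / 2) c → ∀ (n : ℕ) (v : Fin n → E), ∑ i, ‖v i‖ ^ 2 ≤
    2 / c * Real.sqrt n * av (fun θ : Fin n → Bool => ‖∑ i, sg (θ i) • v i‖ ^ 2)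

/-- **SUB**. Let `g S` (`S ⊆ ι`) be the mean of `av ‖∑_{j ∈ S} ± x j (ω j)‖²` where the `ω j` are independent with
the law `n w` on `{P}`. The left side is `∑_S (1/n)^|S| (1-1/n)^(|ι|-|S|) g S`, the mean of `g (c⁻¹ 0)` over all
colourings `c : ι → Fin n`, which is by symmetry the mean of `(1/n) ∑_i g (c⁻¹ i)`; by CBS and
`av_θ av_s ‖∑_i θ_i ∑_{c j = i} s_j x_j‖² = av ‖∑ s_j x_j‖²` this is `≤ (1/n) (2/c) √n B`. -/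
def S_SUB : Prop := S_CBS → ∀ (E : Type) [NormedAddCommGroup E] [NormedSpace ℝ E] (c : ℝ), 0 < c →
  CB E (1 / 2) c → ∀ (ι Ω : Type) [Fintype ι] [DecidableEq ι] [Fintype Ω] (w : Ω → ℝ)
    (P : Ω → Prop) [DecidablePred P] (n : ℕ) (x : ι → Ω → E) (B : ℝ),
    1 ≤ n → (∀ ω, 0 ≤ w ω) → ∑ ω, w ω = 1 → (∑ ω, if P ω then w ω else 0) = 1 / n → 0 ≤ B →
    (∀ ω : ι → Ω, (∀ j, P (ω j)) →
      av (fun s : ι → Bool => ‖∑ j, sg (s j) • x j (ω j)‖ ^ 2) ≤ B) →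
    ex w (fun ω : ι → Ω => av fun s : ι → Bool =>
      ‖∑ j, sg (s j) • (if P (ω j) then x j (ω j) else 0)‖ ^ 2) ≤ 2 / (c * Real.sqrt n) * B

/-- **M1C** (adapt `M1.lean`). `UC2` with `π = 1/n`, `h = 1/t`, `d j i ε = T j (d i ε)`. `LD² ≤
2/(c √n) C₀² Φ` by SUB (`P` = the mode is not `none`, the vectors are `(1/t) d i ε`); `R² = (C₀ t)² Φ`;
`L² ≥` mean of `av ‖∑_{mode none} ± T j V_j‖²` (`sym`) `≥ (1 - 1/n)² b Φ ≥ b Φ / 4` (for fixed paths and signs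
the mean over the modes of `∑_{mode none}` is `(1 - π) ∑`: convexity of the norm). -/
def S_M1C : Prop := S_UC2 → S_CBS → S_SUB → ∀ (E : Type) [NormedAddCommGroup E] [NormedSpace ℝ E]
  (J : E → StrongDual ℝ E) (D a : ℝ), 0 ≤ D → 0 ≤ a → CIa E J D a → (∀ y, J y y = 2 * ‖y‖ ^ 2) →
  (∀ y v, |J y v| ≤ 2 * ‖y‖ * ‖v‖) → ∀ c : ℝ, 0 < c → CB E (1 / 2) c →
  ∀ (k M n : ℕ) (t σ C₀ Φ b : ℝ) (d : Fin k → (Fin k → Bool) → E) (T : Fin M → E ≃ₗᵢ[ℝ] E),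
    1 ≤ k → 1 ≤ M → 1 ≤ C₀ → 2 * C₀ ≤ n → 0 < t → t ≤ 1 → k * t ^ 2 * n ≤ 1 → 0 ≤ σ → 0 < Φ →
    0 < b → Pred d → (∀ i ε, ‖d i ε‖ ≤ C₀ * t) → (∀ ε, 1 ≤ ‖∑ i, sg (ε i) • d i ε‖) →
    (∀ g : StrongDual ℝ E, ‖g‖ ≤ 1 → ∀ ω : Fin M → (Fin k → Bool) × Option (Fin k),
      ∑ j, (g (T j (uv k (1 / t) d (ω j)))) ^ 2 ≤ σ ^ 2) →
    (∀ ω : Fin M → Fin k → Bool, b * Φ ≤ av (fun s : Fin M → Bool =>
      ‖∑ j, sg (s j) • T j (∑ i, sg (ω j i) • d i (ω j))‖ ^ 2)) →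
    (∀ (i : Fin M → Fin k) (ω : Fin M → Fin k → Bool), av (fun s : Fin M → Bool =>
      ‖∑ j, sg (s j) • T j (d (i j) (ω j))‖ ^ 2) ≤ (C₀ * t) ^ 2 * Φ) →
    ∃ L : ℝ, 0 < L ∧ b / 4 * Φ ≤ L ^ 2 ∧
      L ^ 2 ≤ 2 * L * (C₀ * Real.sqrt (2 / (c * Real.sqrt n) * Φ)) +
        ((k : ℝ) ^ 2 * t * n) * (C₀ * t * Real.sqrt Φ) * (D * L + a * σ)

/-- **CON** (contraction principle). Convexity of the norm and symmetry in the coefficients. -/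
def S_CON : Prop := ∀ (E : Type) [NormedAddCommGroup E] [NormedSpace ℝ E] (ι : Type) [Fintype ι]
  [DecidableEq ι] (r : ι → ℝ) (x : ι → E) (A : ℝ), 0 ≤ A → (∀ i, |r i| ≤ A) →
  av (fun s : ι → Bool => ‖∑ i, sg (s i) • (r i • x i)‖ ^ 2) ≤
    A ^ 2 * av (fun s : ι → Bool => ‖∑ i, sg (s i) • x i‖ ^ 2)

/-- **ISO**. `x₀` a unit vector, `f₀` its norming functional. For `z ∈ Y` a word `l_z` with
`|f₀ (wd K l_z z)| ≥ c`, `y_z = ± wd K l_z z`, `f₀ y_z ≥ c`; `b_z = x₀ - τ y_z` has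
`‖b_z‖ ≤ 2 + K_s τ^p - ‖x₀ + τ y_z‖ ≤ 1 - τ c + K_s τ^p ≤ 1 - τ c/2` (`τ` fixed, small). `ε = τ c / 16` or so,
`δ` tiny depending on `M`. `𝓑` finite set of isometries `B` with `B x₀` near (`δ`) each `u ∈ Y` and each
`b_z/‖b_z‖`. `R` from NM, `T⁰` from `PB2` for the finite sets of all `pr l u` (`l` word in `𝓑` of length `≤ R`,
`u` in `Z` resp. a suffix vector `wd K l' z`) and of all isometries `g ↦ pr l (g ·)` (`g` a letter of some `l_z`), `T j = T⁰ j ∘ pr (l j)`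
with `l` from NM. With `|||u|||² = av ‖∑ ± T j u_j‖²`, `Φ₁ = |||x₀||| ≥ 1`: `|||u||| ≤ (1+ε) Φ₁ + M δ` for `u_j ∈ Y`,
`|||b_z||| ≤ (1 - τ c/2) ((1+ε) Φ₁ + M δ)` (CON), so `τ |||y_z||| ≥ Φ₁ - |||b_z||| ≥ (τ c/4) Φ₁ - M δ`, and
`|||y_z||| ≤ |||z||| + small` (CC). -/
def S_ISO : Prop := S_CC → S_NM → S_CON → ∀ (E : Type) [NormedAddCommGroup E] [NormedSpace ℝ E]
  [Nontrivial E] (K : E →L[ℝ] E) (p Ks C c₁ : ℝ), AT E → 1 < p → p ≤ 2 → 0 < Ks → USp E p Ks →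
  (∀ y, ‖y - K y‖ ≤ ‖y‖) → LP E K → PB2 E K C c₁ →
  ∃ b : ℝ, 0 < b ∧ ∀ (Z Y : Finset E), (∀ u ∈ Z, ‖u‖ ≤ 1) → (∀ u ∈ Y, ‖u‖ = 1) → ∀ M : ℕ, 1 ≤ M →
    ∃ (T : Fin M → E ≃ₗᵢ[ℝ] E) (Φ : ℝ), 0 < Φ ∧
      (∀ g : StrongDual ℝ E, ‖g‖ ≤ 1 → ∀ u : Fin M → E, (∀ j, u j ∈ Z) →
        ∑ j, (g (T j (u j))) ^ 2 ≤ C * (M : ℝ) ^ (1 - c₁)) ∧
      ∀ u : Fin M → E, (∀ j, u j ∈ Y) →
        b * Φ ≤ av (fun s : Fin M → Bool => ‖∑ j, sg (s j) • T j (u j)‖ ^ 2) ∧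
        av (fun s : Fin M → Bool => ‖∑ j, sg (s j) • T j (u j)‖ ^ 2) ≤ Φ

end Pool.Agent.H65.BM
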