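import Pool.Agent.H65.BM.OP
import Pool.Agent.H65.BM.S4

/-! BM4-OPC: moving a random vector, operators which are small on weakly small vectors
(adapted from OPS and OP). -/

set_option autoImplicit false

namespace Pool.Agent.H65.BM

open Pool.Agent.N314.OP Pool.Agent.N314.OP.Mod

namespace OPCaux

open OPaux

theorem L_fsum {Ω κ : Type} [Fintype Ω] {w : Ω → ℝ} (hw : ∀ ω, 0 ≤ w ω) (F : Finset κ)
    (a : κ → Ω → ℝ) : L w (fun ω => ∑ i ∈ F, a i ω) ≤ ∑ i ∈ F, L w (a i) := by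
  classical
  induction F using Finset.induction_on with
  | empty => simp [L]
  | insert i F hi ih =>
    simp only [Finset.sum_insert hi]
    exact (L_add hw _ _).trans (add_le_add le_rfl ih)

theorem weak {E : Type} [NormedAddCommGroup E] [NormedSpace ℝ E] {Ω : Type} [Fintype Ω]
    {w : Ω → ℝ} {Y : Ω → E} {σ : ℝ} (hσ : 0 ≤ σ)
    (hg : ∀ g : StrongDual ℝ E, ‖g‖ ≤ 1 → ∑ ω, w ω * (g (Y ω)) ^ 2 ≤ σ ^ 2)
    (A : E ≃ₗᵢ[ℝ] E) (f : StrongDual ℝ E) :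
    L w (fun ω => f (A.symm (Y ω))) ≤ ‖f‖ * σ := by
  by_cases hfi : f = 0
  · simp [hfi, L]
  have hfn : 0 < ‖f‖ := norm_pos_iff.2 hfi
  set g : StrongDual ℝ E := ‖f‖⁻¹ • f.comp (A.symm : E →L[ℝ] E) with hgdef
  have hg1 : ‖g‖ ≤ 1 := by
    refine ContinuousLinearMap.opNorm_le_bound _ zero_le_one ?_
    intro x
    rw [hgdef]
    simp only [smul_apply, ContinuousLinearMap.comp_apply, norm_smul, norm_inv, norm_norm]
    have : ‖f ((A.symm : E →L[ℝ] E) x)‖ ≤ ‖f‖ * ‖x‖ := by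
      refine (f.le_opNorm _).trans ?_
      simp
    rw [one_mul, inv_mul_le_iff₀ hfn]
    exact this
  have h2 := hg g hg1
  have h3 : ∀ ω, f (A.symm (Y ω)) = ‖f‖ * g (Y ω) := by
    intro ω
    rw [hgdef]
    simp only [smul_apply, ContinuousLinearMap.comp_apply, smul_eq_mul]
    rw [← mul_assoc, mul_inv_cancel₀ hfn.ne', one_mul]
    rfl
  have h4 : L w (fun ω => f (A.symm (Y ω))) = ‖f‖ * L w (fun ω => g (Y ω)) := by
    rw [← L_smul hfn.le]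
    congr 1
    funext ω
    exact h3 ω
  rw [h4]
  exact mul_le_mul_of_nonneg_left (Real.sqrt_le_iff.2 ⟨hσ, h2⟩) hfn.le

end OPCaux

open OPaux OPCaux in
theorem opc : S_OPC := by
  intro E _ _ K hAT hK0 hK hCA
  obtain ⟨x₀, hx₀⟩ : ∃ x₀, K x₀ ≠ 0 := by
    by_contra hcon
    push Not at hcon
    exact hK0 (ContinuousLinearMap.ext hcon)
  have hx0n : 0 < ‖K x₀‖ := norm_pos_iff.2 hx₀
  obtain ⟨x₁, hx₁⟩ : ∃ x₁, ‖K x₁‖ = 1 := by
    refine ⟨‖K x₀‖⁻¹ • x₀, ?_⟩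
    rw [map_smul, norm_smul, norm_inv, norm_norm, inv_mul_cancel₀ hx0n.ne']
  refine ⟨1 + 2 * ‖x₁‖, by positivity, fun τ hτ => ?_⟩
  obtain ⟨F, hF⟩ := hCA τ hτ
  refine ⟨∑ f ∈ F, ‖f‖, Finset.sum_nonneg fun _ _ => norm_nonneg _, ?_⟩
  intro Ω _ w Y v m σ hw hw1 hm hσ hg
  have hm0 : (0 : ℝ) < m := by exact_mod_cast hm
  set N : ℝ := Real.sqrt (∑ ω, w ω * ‖Y ω‖ ^ 2) with hN
  set a : ℝ := ∑ f ∈ F, ‖f‖ with ha
  have ha0 : 0 ≤ a := Finset.sum_nonneg fun _ _ => norm_nonneg _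
  have hN0 : 0 ≤ N := Real.sqrt_nonneg _
  have hNL : L w (fun ω => ‖Y ω‖) = N := rfl
  by_cases hv : v = 0
  · subst hv
    simp only [add_zero]
    have : 0 ≤ (1 + 2 * ‖x₁‖) * (‖(0 : E)‖ / m + m * (a * σ + τ * N)) := by positivity
    linarith
  have hvn : 0 < ‖v‖ := norm_pos_iff.2 hv
  obtain ⟨A, hA⟩ := hAT (K x₁) (‖v‖⁻¹ • v) hx₁
    (by rw [norm_smul, norm_inv, norm_norm, inv_mul_cancel₀ hvn.ne']) (1 / m) (by positivity)
  -- the pointwise bound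
  have hpt : ∀ ω, ‖Y ω‖ ≤
      ‖Y ω + v‖ + ((1 + 2 * ‖x₁‖) * ‖v‖ / m + m * ‖K (A.symm (Y ω))‖) := by
    intro ω
    have h1 := pointwise (K : E →ₗ[ℝ] E) hK x₁ (A.symm (Y ω)) ‖v‖ m hm
    rw [LinearIsometryEquiv.norm_map, abs_of_pos hvn] at h1
    have h2 : ‖A.symm (Y ω) + ‖v‖ • K x₁‖ = ‖Y ω + ‖v‖ • A (K x₁)‖ := by
      rw [← A.norm_map (A.symm (Y ω) + ‖v‖ • K x₁), map_add, A.apply_symm_apply, map_smul]
    have h3 : Y ω + ‖v‖ • A (K x₁) = (Y ω + v) + ‖v‖ • (A (K x₁) - ‖v‖⁻¹ • v) := by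
      rw [smul_sub, smul_smul, mul_inv_cancel₀ hvn.ne', one_smul]; abel
    have h4 : ‖Y ω + ‖v‖ • A (K x₁)‖ ≤ ‖Y ω + v‖ + ‖v‖ * (1 / m) := by
      rw [h3]
      refine (norm_add_le _ _).trans (add_le_add le_rfl ?_)
      rw [norm_smul, norm_norm]
      exact mul_le_mul_of_nonneg_left hA.le hvn.le
    have h2' : ‖A.symm (Y ω) + ‖v‖ • (K : E →ₗ[ℝ] E) x₁‖ = ‖Y ω + ‖v‖ • A (K x₁)‖ := h2
    rw [h2'] at h1
    have h5 : (1 + 2 * ‖x₁‖) * ‖v‖ / m = ‖v‖ * (1 / m) + 2 * ‖v‖ * ‖x₁‖ / m := by ring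
    rw [h5]
    have h7 : ‖(K : E →ₗ[ℝ] E) (A.symm (Y ω))‖ = ‖K (A.symm (Y ω))‖ := rfl
    rw [h7] at h1
    linarith
  have hA1 : L w (fun ω => ‖Y ω‖) ≤ L w (fun ω => ‖Y ω + v‖) +
      ((1 + 2 * ‖x₁‖) * ‖v‖ / m + m * L w (fun ω => ‖K (A.symm (Y ω))‖)) := by
    refine (L_mono hw (fun ω => norm_nonneg _) hpt).trans ?_
    refine (L_add hw _ _).trans (add_le_add le_rfl ?_)
    refine (L_add hw _ _).trans (add_le_add ?_ ?_)
    · rw [L_const hw1 (by positivity)]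
    · rw [L_smul hm0.le]
  have hA2 : L w (fun ω => ‖K (A.symm (Y ω))‖) ≤ a * σ + τ * N := by
    have h1 : ∀ ω, ‖K (A.symm (Y ω))‖ ≤ ∑ f ∈ F, |f (A.symm (Y ω))| + τ * ‖Y ω‖ := by
      intro ω
      have h2 := hF (A.symm (Y ω))
      rwa [LinearIsometryEquiv.norm_map] at h2
    refine (L_mono hw (fun ω => norm_nonneg _) h1).trans ?_
    refine (L_add hw _ _).trans (add_le_add ?_ ?_)
    · refine (L_fsum hw F (fun f ω => |f (A.symm (Y ω))|)).trans ?_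
      rw [ha, Finset.sum_mul]
      apply Finset.sum_le_sum
      intro f _
      rw [L_abs]
      exact weak hσ hg A f
    · rw [L_smul hτ.le, hNL]
  have hfin : (1 + 2 * ‖x₁‖) * ‖v‖ / m + m * L w (fun ω => ‖K (A.symm (Y ω))‖) ≤
      (1 + 2 * ‖x₁‖) * (‖v‖ / m + m * (a * σ + τ * N)) := by
    have h1 : (m : ℝ) * L w (fun ω => ‖K (A.symm (Y ω))‖) ≤ m * (a * σ + τ * N) :=
      mul_le_mul_of_nonneg_left hA2 hm0.le
    have h2 : 0 ≤ 2 * ‖x₁‖ * (m * (a * σ + τ * N)) := by positivity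
    have h4 : (1 + 2 * ‖x₁‖) * ‖v‖ / m = (1 + 2 * ‖x₁‖) * (‖v‖ / m) := by ring
    rw [h4]
    linarith
  exact hA1.trans (add_le_add le_rfl hfin)

end Pool.Agent.H65.BM
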