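import Pool.Agent.H65.BM.OP
import Pool.Agent.H65.BM.Q

/-! BM-OPQ: moving a random vector, nuclear operators and `‖1 - K‖ ≤ 1 + ε` (adapted from OP). -/

set_option autoImplicit false

namespace Pool.Agent.H65.BM

open Pool.Agent.N314.OP Pool.Agent.N314.OP.Mod Filter Topology

namespace OPaux

variable {E : Type} [NormedAddCommGroup E] [NormedSpace ℝ E]

/-- the pointwise inequality -/
theorem pointwiseQ (K : E →ₗ[ℝ] E) {r : ℝ} (hr : 1 ≤ r) (hK : ∀ y, ‖y - K y‖ ≤ r * ‖y‖)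
    (x₁ : E) (y : E) (t : ℝ) (m : ℕ)
    (hm : 1 ≤ m) : ‖y‖ ≤ r ^ m * (‖y + t • K x₁‖ + 2 * |t| * ‖x₁‖ / m + m * ‖K y‖) := by
  set T : E →ₗ[ℝ] E := LinearMap.id - K with hT
  have hr0 : 0 ≤ r := by linarith
  have hTn : ∀ y, ‖T y‖ ≤ r * ‖y‖ := fun y => by simpa [hT] using hK y
  have hTl' : ∀ (l : ℕ) (y : E), ‖(T ^ l) y‖ ≤ r ^ l * ‖y‖ := by
    intro l
    induction l with
    | zero => intro y; simp
    | succ l ih =>
      intro y
      rw [pow_succ, Module.End.mul_apply]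
      refine (ih _).trans ?_
      rw [pow_succ, mul_assoc]
      exact mul_le_mul_of_nonneg_left (hTn y) (pow_nonneg hr0 l)
  have hTl : ∀ (l : ℕ), l ≤ m → ∀ (y : E), ‖(T ^ l) y‖ ≤ r ^ m * ‖y‖ := by
    intro l hl y
    refine (hTl' l y).trans ?_
    exact mul_le_mul_of_nonneg_right (pow_le_pow_right₀ hr hl) (norm_nonneg _)
  have hR : 1 ≤ r ^ m := one_le_pow₀ hr
  have hR0 : 0 ≤ r ^ m := by linarith
  have hK1 : ∀ y, K y = y - T y := by intro y; simp [hT]
  -- telescoping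
  have h1 : ∀ (l : ℕ), l ≤ m → ∀ (y : E), ‖y - (T ^ l) y‖ ≤ l * (r ^ m * ‖K y‖) := by
    intro l
    induction l with
    | zero => intro _ y; simp
    | succ l ih =>
      intro hl y
      have : y - (T ^ (l + 1)) y = (y - (T ^ l) y) + (T ^ l) (K y) := by
        rw [hK1, map_sub, pow_succ, Module.End.mul_apply]; abel
      rw [this]
      refine (norm_add_le _ _).trans ?_
      push_cast
      rw [add_mul, one_mul]
      exact add_le_add (ih (by omega) y) (hTl l (by omega) _)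
  have h2 : ∀ (m : ℕ), ∑ l ∈ Finset.range m, (T ^ l) (K x₁) = x₁ - (T ^ m) x₁ := by
    intro m
    induction m with
    | zero => simp
    | succ m ih =>
      rw [Finset.sum_range_succ, ih, hK1, map_sub, pow_succ, Module.End.mul_apply]; abel
  have hm0 : (0 : ℝ) < m := by exact_mod_cast hm
  have h3 : (m : ℝ) • y = ∑ l ∈ Finset.range m, (T ^ l) (y + t • K x₁) -
      t • (x₁ - (T ^ m) x₁) + ∑ l ∈ Finset.range m, (y - (T ^ l) y) := by
    rw [← h2 m, Finset.smul_sum, ← Finset.sum_sub_distrib, ← Finset.sum_add_distrib]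
    have : ∀ l ∈ Finset.range m, (T ^ l) (y + t • K x₁) - t • (T ^ l) (K x₁) +
        (y - (T ^ l) y) = y := by
      intro l _
      rw [map_add, map_smul]; abel
    rw [Finset.sum_congr rfl this, Finset.sum_const, Finset.card_range,
      Nat.cast_smul_eq_nsmul]
  have h4 : (m : ℝ) * ‖y‖ ≤ m * (r ^ m * ‖y + t • K x₁‖) + |t| * (2 * (r ^ m * ‖x₁‖)) +
      m * (m * (r ^ m * ‖K y‖)) := by
    have e1 : (m : ℝ) * ‖y‖ = ‖(m : ℝ) • y‖ := by
      rw [norm_smul, Real.norm_of_nonneg hm0.le]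
    rw [e1, h3]
    refine (norm_add_le _ _).trans (add_le_add ((norm_sub_le _ _).trans (add_le_add ?_ ?_)) ?_)
    · refine (norm_sum_le _ _).trans ?_
      refine (Finset.sum_le_sum (fun l hl => hTl l (Finset.mem_range.1 hl).le _)).trans ?_
      simp
    · rw [norm_smul, Real.norm_eq_abs]
      refine mul_le_mul_of_nonneg_left ?_ (abs_nonneg t)
      refine (norm_sub_le _ _).trans ?_
      have h := hTl m le_rfl x₁
      have h' : ‖x₁‖ ≤ r ^ m * ‖x₁‖ := by nlinarith [norm_nonneg x₁]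
      linarith
    · refine (norm_sum_le _ _).trans ?_
      have : ∀ l ∈ Finset.range m, ‖y - (T ^ l) y‖ ≤ m * (r ^ m * ‖K y‖) := by
        intro l hl
        have hlm := (Finset.mem_range.1 hl).le
        refine (h1 l hlm y).trans ?_
        refine mul_le_mul_of_nonneg_right ?_ (by positivity)
        exact_mod_cast hlm
      refine (Finset.sum_le_sum this).trans ?_
      simp
  have h5 : ‖y‖ = (m * ‖y‖) / m := by field_simp
  rw [h5]
  have h6 : r ^ m * (‖y + t • K x₁‖ + 2 * |t| * ‖x₁‖ / m + m * ‖K y‖) =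
      (m * (r ^ m * ‖y + t • K x₁‖) + |t| * (2 * (r ^ m * ‖x₁‖)) +
      m * (m * (r ^ m * ‖K y‖))) / m := by
    field_simp
  rw [h6]
  exact div_le_div_of_nonneg_right h4 hm0.le

end OPaux

open OPaux in
theorem opq : S_OPQ := by
  intro E _ _ hAT ⟨P, hP, hKQ⟩
  refine ⟨1 + 3 * P, by positivity, ?_⟩
  intro Ω _ w Y v m σ hw hw1 hm hσ hg
  have hm0 : (0 : ℝ) < m := by exact_mod_cast hm
  by_cases hv : v = 0
  · subst hv
    simp only [add_zero]
    have : 0 ≤ (1 + 3 * P) * (‖(0 : E)‖ / m + m * σ) := by positivity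
    linarith
  have hvn : 0 < ‖v‖ := norm_pos_iff.2 hv
  have key : ∀ ε : ℝ, 0 < ε → L w (fun ω => ‖Y ω‖) ≤ (1 + ε) ^ m *
      (L w (fun ω => ‖Y ω + v‖) + (1 + 3 * P) * (‖v‖ / m + m * σ)) := by
    intro ε hε
    obtain ⟨n, f, e, hD, ⟨x₁, hx₁, he'⟩, hKn⟩ := hKQ ε hε
    -- the operator
    obtain ⟨K, hKdef⟩ : ∃ K : E →ₗ[ℝ] E, ∀ y, K y = ∑ i, f i y • e i := by
      refine ⟨∑ i, ((f i : E →ₗ[ℝ] ℝ)).smulRight (e i), ?_⟩
      intro y
      simp [LinearMap.sum_apply]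
    have hK : ∀ y, ‖y - K y‖ ≤ (1 + ε) * ‖y‖ := fun y => by rw [hKdef]; exact hKn y
    have he : ‖K x₁‖ = 1 := by rw [hKdef]; exact he'
    obtain ⟨A, hA⟩ := hAT (K x₁) (‖v‖⁻¹ • v) he
      (by rw [norm_smul, norm_inv, norm_norm, inv_mul_cancel₀ hvn.ne']) (1 / m) (by positivity)
    have hr1 : (1 : ℝ) ≤ 1 + ε := by linarith
    have hR0 : 0 ≤ (1 + ε) ^ m := by positivity
    -- the pointwise bound
    have hpt : ∀ ω, ‖Y ω‖ ≤ (1 + ε) ^ m *
        (‖Y ω + v‖ + ((1 + 2 * P) * ‖v‖ / m + m * ‖K (A.symm (Y ω))‖)) := by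
      intro ω
      have h1 := pointwiseQ K hr1 hK x₁ (A.symm (Y ω)) ‖v‖ m hm
      rw [LinearIsometryEquiv.norm_map, abs_of_pos hvn] at h1
      refine h1.trans (mul_le_mul_of_nonneg_left ?_ hR0)
      have h2 : ‖A.symm (Y ω) + ‖v‖ • K x₁‖ = ‖Y ω + ‖v‖ • A (K x₁)‖ := by
        rw [← A.norm_map (A.symm (Y ω) + ‖v‖ • K x₁), map_add, A.apply_symm_apply, map_smul]
      have h3 : Y ω + ‖v‖ • A (K x₁) = (Y ω + v) + ‖v‖ • (A (K x₁) - ‖v‖⁻¹ • v) := by
        rw [smul_sub, smul_smul, mul_inv_cancel₀ hvn.ne', one_smul]; abel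
      have h4 : ‖Y ω + ‖v‖ • A (K x₁)‖ ≤ ‖Y ω + v‖ + ‖v‖ * (1 / m) := by
        rw [h3]
        refine (norm_add_le _ _).trans (add_le_add le_rfl ?_)
        rw [norm_smul, norm_norm]
        exact mul_le_mul_of_nonneg_left hA.le hvn.le
      rw [h2]
      have h5 : (1 + 2 * P) * ‖v‖ / m = ‖v‖ * (1 / m) + 2 * ‖v‖ * P / m := by ring
      have h6 : 2 * ‖v‖ * ‖x₁‖ / m ≤ 2 * ‖v‖ * P / m := by gcongr
      rw [h5]
      linarith
    have hA1 : L w (fun ω => ‖Y ω‖) ≤ (1 + ε) ^ m * (L w (fun ω => ‖Y ω + v‖) +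
        ((1 + 2 * P) * ‖v‖ / m + m * L w (fun ω => ‖K (A.symm (Y ω))‖))) := by
      refine (L_mono hw (fun ω => norm_nonneg _) hpt).trans ?_
      rw [L_smul hR0]
      refine mul_le_mul_of_nonneg_left ?_ hR0
      refine (L_add hw _ _).trans (add_le_add le_rfl ?_)
      refine (L_add hw _ _).trans (add_le_add ?_ ?_)
      · rw [L_const hw1 (by positivity)]
      · rw [L_smul hm0.le]
    have hA2 : L w (fun ω => ‖K (A.symm (Y ω))‖) ≤ P * σ := by
      have h1 : ∀ ω, ‖K (A.symm (Y ω))‖ ≤ ∑ i, ‖e i‖ * |f i (A.symm (Y ω))| := by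
        intro ω
        rw [hKdef]
        refine (norm_sum_le _ _).trans ?_
        apply Finset.sum_le_sum
        intro i _
        rw [norm_smul, Real.norm_eq_abs, mul_comm]
      refine (L_mono hw (fun ω => norm_nonneg _) h1).trans ?_
      refine (L_sum hw n _).trans ?_
      refine le_trans ?_ (mul_le_mul_of_nonneg_right hD hσ)
      rw [Finset.sum_mul]
      apply Finset.sum_le_sum
      intro i _
      rw [L_smul (norm_nonneg _), L_abs, mul_comm ‖f i‖, mul_assoc]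
      refine mul_le_mul_of_nonneg_left ?_ (norm_nonneg _)
      by_cases hfi : f i = 0
      · simp [hfi, L]
      have hfn : 0 < ‖f i‖ := norm_pos_iff.2 hfi
      -- the functional g = ‖f i‖⁻¹ • f i ∘ A⁻¹
      set g : StrongDual ℝ E := ‖f i‖⁻¹ • (f i).comp (A.symm : E →L[ℝ] E) with hgdef
      have hg1 : ‖g‖ ≤ 1 := by
        refine ContinuousLinearMap.opNorm_le_bound _ zero_le_one ?_
        intro x
        rw [hgdef]
        simp only [smul_apply, ContinuousLinearMap.comp_apply, norm_smul,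
          norm_inv, norm_norm]
        have : ‖(f i) ((A.symm : E →L[ℝ] E) x)‖ ≤ ‖f i‖ * ‖x‖ := by
          refine ((f i).le_opNorm _).trans ?_
          simp
        rw [one_mul, inv_mul_le_iff₀ hfn]
        exact this
      have h2 := hg g hg1
      have h3 : ∀ ω, f i (A.symm (Y ω)) = ‖f i‖ * g (Y ω) := by
        intro ω
        rw [hgdef]
        simp only [smul_apply, ContinuousLinearMap.comp_apply, smul_eq_mul]
        rw [← mul_assoc, mul_inv_cancel₀ hfn.ne', one_mul]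
        rfl
      have h4 : L w (fun ω => f i (A.symm (Y ω))) = ‖f i‖ * L w (fun ω => g (Y ω)) := by
        rw [← L_smul hfn.le]
        congr 1
        funext ω
        exact h3 ω
      rw [h4]
      refine mul_le_mul_of_nonneg_left ?_ hfn.le
      exact Real.sqrt_le_iff.2 ⟨hσ, h2⟩
    have hfin : (1 + 2 * P) * ‖v‖ / m + m * L w (fun ω => ‖K (A.symm (Y ω))‖) ≤
        (1 + 3 * P) * (‖v‖ / m + m * σ) := by
      have h1 : (m : ℝ) * L w (fun ω => ‖K (A.symm (Y ω))‖) ≤ m * (P * σ) :=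
        mul_le_mul_of_nonneg_left hA2 hm0.le
      have h2 : 0 ≤ P * (‖v‖ / m) := by positivity
      have h3 : 0 ≤ (1 + 2 * P) * (m * σ) := by positivity
      have h4 : (1 + 2 * P) * ‖v‖ / m = (1 + 2 * P) * (‖v‖ / m) := by ring
      rw [h4]
      nlinarith
    exact hA1.trans (mul_le_mul_of_nonneg_left (add_le_add le_rfl hfin) hR0)
  set S : ℝ := L w (fun ω => ‖Y ω + v‖) + (1 + 3 * P) * (‖v‖ / m + m * σ) with hS
  have hlim : Tendsto (fun ε : ℝ => (1 + ε) ^ m * S) (𝓝[>] 0) (𝓝 ((1 + 0) ^ m * S)) := by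
    refine Tendsto.mono_left ?_ nhdsWithin_le_nhds
    exact Continuous.tendsto (by fun_prop) 0
  rw [add_zero, one_pow, one_mul] at hlim
  exact ge_of_tendsto hlim (by
    filter_upwards [self_mem_nhdsWithin] with ε hε using key ε hε)

end Pool.Agent.H65.BM
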