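import Pool.Agent.H65.BM.OPQ
import Pool.Agent.H65.BM.S3

/-! BM-OPS: moving a random vector, operators with polynomially decreasing approximation numbers
(adapted from OPQ). -/

set_option autoImplicit false

namespace Pool.Agent.H65.BM

open Pool.Agent.N314.OP Pool.Agent.N314.OP.Mod Filter Topology

lemma opr_app {E : Type} [NormedAddCommGroup E] [NormedSpace ℝ E] {n : ℕ}
    (f : Fin n → StrongDual ℝ E) (e : Fin n → E) (y : E) :
    opr f e y = ∑ i, f i y • e i := by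
  simp only [opr, FunLike.coe_sum, Finset.sum_apply, ContinuousLinearMap.smulRight_apply]

open OPaux in
theorem ops : S_OPS := by
  intro E _ _ hAT ⟨P, s, hP, hs, hKS⟩
  refine ⟨1 + 3 * P, s, by positivity, hs, ?_⟩
  intro Ω _ w Y v m σ l hw hw1 hm hσ hl hg
  have hm0 : (0 : ℝ) < m := by exact_mod_cast hm
  have hl0 : (0 : ℝ) < l := by linarith
  have hls : 0 < l ^ (-s) := Real.rpow_pos_of_pos hl0 _
  set N : ℝ := Real.sqrt (∑ ω, w ω * ‖Y ω‖ ^ 2) with hN
  have hN0 : 0 ≤ N := Real.sqrt_nonneg _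
  have hNL : L w (fun ω => ‖Y ω‖) = N := rfl
  by_cases hv : v = 0
  · subst hv
    simp only [add_zero]
    have : 0 ≤ (1 + 3 * P) * (‖(0 : E)‖ / m + m * (l * σ + l ^ (-s) * N)) := by positivity
    linarith
  have hvn : 0 < ‖v‖ := norm_pos_iff.2 hv
  have key : ∀ ε : ℝ, 0 < ε → L w (fun ω => ‖Y ω‖) ≤ (1 + ε) ^ m *
      (L w (fun ω => ‖Y ω + v‖) + (1 + 3 * P) * (‖v‖ / m + m * (l * σ + l ^ (-s) * N))) := by
    intro ε hε
    obtain ⟨K, ⟨x₁, hx₁, he⟩, hK, happ⟩ := hKS ε hε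
    obtain ⟨n, f, e, hD, hKF⟩ := happ l hl
    obtain ⟨A, hA⟩ := hAT (K x₁) (‖v‖⁻¹ • v) he
      (by rw [norm_smul, norm_inv, norm_norm, inv_mul_cancel₀ hvn.ne']) (1 / m) (by positivity)
    have hr1 : (1 : ℝ) ≤ 1 + ε := by linarith
    have hR0 : 0 ≤ (1 + ε) ^ m := by positivity
    -- the pointwise bound
    have hpt : ∀ ω, ‖Y ω‖ ≤ (1 + ε) ^ m *
        (‖Y ω + v‖ + ((1 + 2 * P) * ‖v‖ / m + m * ‖K (A.symm (Y ω))‖)) := by
      intro ω
      have h1 := pointwiseQ (K : E →ₗ[ℝ] E) hr1 hK x₁ (A.symm (Y ω)) ‖v‖ m hm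
      rw [LinearIsometryEquiv.norm_map, abs_of_pos hvn] at h1
      refine h1.trans (mul_le_mul_of_nonneg_left ?_ hR0)
      have h2 : ‖A.symm (Y ω) + ‖v‖ • K x₁‖ = ‖Y ω + ‖v‖ • A (K x₁)‖ := by
        rw [← A.norm_map (A.symm (Y ω) + ‖v‖ • K x₁), map_add, A.apply_symm_apply, map_smul]
      have h3 : Y ω + ‖v‖ • A (K x₁) = (Y ω + v) + ‖v‖ • (A (K x₁) - ‖v‖⁻¹ • v) := by
        rw [smul_sub, smul_smul, mul_inv_cancel₀ hvn.ne', one_smul]; abel
      have h4 : ‖Y ω + ‖v‖ • A (K x₁)‖ ≤ ‖Y ω + v‖ + ‖v‖ * (1 / m) := by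
        rw [h3]
        refine (norm_add_le _ _).trans (add_le_add le_rfl ?_)
        rw [norm_smul, norm_norm]
        exact mul_le_mul_of_nonneg_left hA.le hvn.le
      have h2' : ‖A.symm (Y ω) + ‖v‖ • (K : E →ₗ[ℝ] E) x₁‖ = ‖Y ω + ‖v‖ • A (K x₁)‖ := h2
      rw [h2']
      have h5 : (1 + 2 * P) * ‖v‖ / m = ‖v‖ * (1 / m) + 2 * ‖v‖ * P / m := by ring
      have h6 : 2 * ‖v‖ * ‖x₁‖ / m ≤ 2 * ‖v‖ * P / m := by gcongr
      rw [h5]
      have h7 : ‖(K : E →ₗ[ℝ] E) (A.symm (Y ω))‖ = ‖K (A.symm (Y ω))‖ := rfl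
      rw [h7]
      linarith
    have hA1 : L w (fun ω => ‖Y ω‖) ≤ (1 + ε) ^ m * (L w (fun ω => ‖Y ω + v‖) +
        ((1 + 2 * P) * ‖v‖ / m + m * L w (fun ω => ‖K (A.symm (Y ω))‖))) := by
      refine (L_mono hw (fun ω => norm_nonneg _) hpt).trans ?_
      rw [L_smul hR0]
      refine mul_le_mul_of_nonneg_left ?_ hR0
      refine (L_add hw _ _).trans (add_le_add le_rfl ?_)
      refine (L_add hw _ _).trans (add_le_add ?_ ?_)
      · rw [L_const hw1 (by positivity)]
      · rw [L_smul hm0.le]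
    have hA2' : L w (fun ω => ‖opr f e (A.symm (Y ω))‖) ≤ l * σ := by
      have h1 : ∀ ω, ‖opr f e (A.symm (Y ω))‖ ≤ ∑ i, ‖e i‖ * |f i (A.symm (Y ω))| := by
        intro ω
        rw [opr_app]
        refine (norm_sum_le _ _).trans ?_
        apply Finset.sum_le_sum
        intro i _
        rw [norm_smul, Real.norm_eq_abs, mul_comm]
      refine (L_mono hw (fun ω => norm_nonneg _) h1).trans ?_
      refine (L_sum hw n _).trans ?_
      refine le_trans ?_ (mul_le_mul_of_nonneg_right hD hσ)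
      rw [Finset.sum_mul]
      apply Finset.sum_le_sum
      intro i _
      rw [L_smul (norm_nonneg _), L_abs, mul_comm ‖f i‖, mul_assoc]
      refine mul_le_mul_of_nonneg_left ?_ (norm_nonneg _)
      by_cases hfi : f i = 0
      · simp [hfi, L]
      have hfn : 0 < ‖f i‖ := norm_pos_iff.2 hfi
      -- the functional g = ‖f i‖⁻¹ • f i ∘ A⁻¹
      set g : StrongDual ℝ E := ‖f i‖⁻¹ • (f i).comp (A.symm : E →L[ℝ] E) with hgdef
      have hg1 : ‖g‖ ≤ 1 := by
        refine ContinuousLinearMap.opNorm_le_bound _ zero_le_one ?_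
        intro x
        rw [hgdef]
        simp only [smul_apply, ContinuousLinearMap.comp_apply, norm_smul,
          norm_inv, norm_norm]
        have : ‖(f i) ((A.symm : E →L[ℝ] E) x)‖ ≤ ‖f i‖ * ‖x‖ := by
          refine ((f i).le_opNorm _).trans ?_
          simp
        rw [one_mul, inv_mul_le_iff₀ hfn]
        exact this
      have h2 := hg g hg1
      have h3 : ∀ ω, f i (A.symm (Y ω)) = ‖f i‖ * g (Y ω) := by
        intro ω
        rw [hgdef]
        simp only [smul_apply, ContinuousLinearMap.comp_apply, smul_eq_mul]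
        rw [← mul_assoc, mul_inv_cancel₀ hfn.ne', one_mul]
        rfl
      have h4 : L w (fun ω => f i (A.symm (Y ω))) = ‖f i‖ * L w (fun ω => g (Y ω)) := by
        rw [← L_smul hfn.le]
        congr 1
        funext ω
        exact h3 ω
      rw [h4]
      refine mul_le_mul_of_nonneg_left ?_ hfn.le
      exact Real.sqrt_le_iff.2 ⟨hσ, h2⟩
    have hA2 : L w (fun ω => ‖K (A.symm (Y ω))‖) ≤ l * σ + P * l ^ (-s) * N := by
      have h1 : ∀ ω, ‖K (A.symm (Y ω))‖ ≤ ‖opr f e (A.symm (Y ω))‖ + (P * l ^ (-s)) * ‖Y ω‖ := by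
        intro ω
        have e1 : K (A.symm (Y ω)) = opr f e (A.symm (Y ω)) + (K - opr f e) (A.symm (Y ω)) := by
          rw [_root_.sub_apply]; abel
        rw [e1]
        refine (norm_add_le _ _).trans (add_le_add le_rfl ?_)
        refine ((K - opr f e).le_opNorm _).trans ?_
        rw [LinearIsometryEquiv.norm_map]
        exact mul_le_mul_of_nonneg_right hKF (norm_nonneg _)
      refine (L_mono hw (fun ω => norm_nonneg _) h1).trans ?_
      refine (L_add hw _ _).trans (add_le_add hA2' ?_)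
      rw [L_smul (by positivity), hNL]
    have hfin : (1 + 2 * P) * ‖v‖ / m + m * L w (fun ω => ‖K (A.symm (Y ω))‖) ≤
        (1 + 3 * P) * (‖v‖ / m + m * (l * σ + l ^ (-s) * N)) := by
      have h1 : (m : ℝ) * L w (fun ω => ‖K (A.symm (Y ω))‖) ≤ m * (l * σ + P * l ^ (-s) * N) :=
        mul_le_mul_of_nonneg_left hA2 hm0.le
      have h2 : 0 ≤ P * (‖v‖ / m) := by positivity
      have h3 : 0 ≤ m * (3 * P * (l * σ)) := by positivity
      have h5 : 0 ≤ m * ((1 + 2 * P) * (l ^ (-s) * N)) := by positivity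
      have h4 : (1 + 2 * P) * ‖v‖ / m = (1 + 2 * P) * (‖v‖ / m) := by ring
      rw [h4]
      nlinarith
    exact hA1.trans (mul_le_mul_of_nonneg_left (add_le_add le_rfl hfin) hR0)
  set S : ℝ := L w (fun ω => ‖Y ω + v‖) + (1 + 3 * P) * (‖v‖ / m + m * (l * σ + l ^ (-s) * N))
    with hS
  have hlim : Tendsto (fun ε : ℝ => (1 + ε) ^ m * S) (𝓝[>] 0) (𝓝 ((1 + 0) ^ m * S)) := by
    refine Tendsto.mono_left ?_ nhdsWithin_le_nhds
    exact Continuous.tendsto (by fun_prop) 0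
  rw [add_zero, one_pow, one_mul] at hlim
  exact ge_of_tendsto hlim (by
    filter_upwards [self_mem_nhdsWithin] with ε hε using key ε hε)

end Pool.Agent.H65.BM
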