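import Pool.Agent.H65.BM.S

/-! BM-POS (helper51): positions of finite sets for which functionals are small on most of them. -/

set_option autoImplicit false

namespace Pool.Agent.H65.BM

open Pool.Agent.N314.OP Pool.Agent.N314.OP.Mod

namespace POSaux

variable {E : Type} [NormedAddCommGroup E] [NormedSpace ℝ E]

theorem choice (J : E → StrongDual ℝ E) (hN : NULLP E) (Z : Finset E) :
    ∃ (T : ℕ → E ≃ₗᵢ[ℝ] E) (S : ℕ → Finset E), (0 : E) ∈ S 0 ∧
      (∀ n, ∀ x ∈ S n, ∀ u ∈ Z, |J x (T n u)| < 1) ∧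
      (∀ n, ∀ x ∈ S n, ∀ u ∈ Z, ∀ c : ℝ, (c = 0 ∨ c = 1 ∨ c = -1) →
        x + c • T n u ∈ S (n + 1)) := by
  classical
  have h1 : ∀ S : Finset E, ∃ T : E ≃ₗᵢ[ℝ] E, ∀ x ∈ S, ∀ u ∈ Z, |J x (T u)| < 1 := by
    intro S
    obtain ⟨T, hT⟩ := hN Z (S.image J) 1 one_pos
    exact ⟨T, fun x hx u hu => hT u hu (J x) (Finset.mem_image_of_mem J hx)⟩
  choose nx hnx using h1
  let S : ℕ → Finset E := fun n => Nat.rec {0} (fun _ S => S ∪
    ((S ×ˢ Z).image (fun p => p.1 + nx S p.2) ∪ (S ×ˢ Z).image (fun p => p.1 - nx S p.2))) n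
  have hS : ∀ n, S (n + 1) = S n ∪ ((S n ×ˢ Z).image (fun p => p.1 + nx (S n) p.2) ∪
      (S n ×ˢ Z).image (fun p => p.1 - nx (S n) p.2)) := fun n => rfl
  refine ⟨fun n => nx (S n), S, ?_, fun n => hnx (S n), ?_⟩
  · show (0 : E) ∈ ({0} : Finset E)
    simp
  · intro n x hx u hu c hc
    rw [hS]
    rcases hc with rfl | rfl | rfl
    · simp [hx]
    · apply Finset.mem_union_right
      apply Finset.mem_union_left
      rw [Finset.mem_image]
      exact ⟨(x, u), Finset.mk_mem_product hx hu, by simp⟩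
    · apply Finset.mem_union_right
      apply Finset.mem_union_right
      rw [Finset.mem_image]
      exact ⟨(x, u), Finset.mk_mem_product hx hu, by simp [sub_eq_add_neg]⟩

theorem growth {J : E → StrongDual ℝ E} {C B : ℝ} (hJ : JP E C B J) (hC : 1 ≤ C)
    {Z : Finset E} (hZ : ∀ u ∈ Z, ‖u‖ ≤ 1) {T : ℕ → E ≃ₗᵢ[ℝ] E} {S : ℕ → Finset E}
    (hS0 : (0 : E) ∈ S 0) (hJS : ∀ n, ∀ x ∈ S n, ∀ u ∈ Z, |J x (T n u)| < 1)
    (hS : ∀ n, ∀ x ∈ S n, ∀ u ∈ Z, ∀ c : ℝ, (c = 0 ∨ c = 1 ∨ c = -1) →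
        x + c • T n u ∈ S (n + 1)) (u : ℕ → E) (hu : ∀ i, u i ∈ Z) (c : ℕ → ℝ)
    (hc : ∀ i, c i = 0 ∨ c i = 1 ∨ c i = -1) (δ : ℝ) (hδ : 0 < δ) (hδ1 : δ ≤ 1) (M : ℕ) :
    ∀ j ≤ M, (∑ i ∈ Finset.range j, c i • T i (u i)) ∈ S j ∧
      ‖∑ i ∈ Finset.range j, c i • T i (u i)‖ ≤ ∑ i ∈ Finset.range j, |c i| ∧
      ‖∑ i ∈ Finset.range j, c i • T i (u i)‖ ^ 2 ≤ (∑ i ∈ Finset.range j, |c i|) *
        (1 + δ * (∑ i ∈ Finset.range M, |c i|) + C * δ ^ (-B)) := by
  have hδB : 0 < δ ^ (-B) := Real.rpow_pos_of_pos hδ _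
  intro j
  induction j with
  | zero => intro _; simp [hS0]
  | succ j ih =>
    intro hj
    obtain ⟨ih1, ih2, ih3⟩ := ih (by omega)
    have hun : ‖T j (u j)‖ ≤ 1 := by rw [LinearIsometryEquiv.norm_map]; exact hZ _ (hu j)
    have hmono : ∑ i ∈ Finset.range j, |c i| ≤ ∑ i ∈ Finset.range M, |c i| := by
      apply Finset.sum_le_sum_of_subset_of_nonneg
      · intro i hi
        rw [Finset.mem_range] at hi ⊢
        omega
      · intro i _ _; exact abs_nonneg _
    rw [Finset.sum_range_succ, Finset.sum_range_succ]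
    refine ⟨hS j _ ih1 _ (hu j) _ (hc j), ?_, ?_⟩
    · refine (norm_add_le _ _).trans (add_le_add ih2 ?_)
      rw [norm_smul, Real.norm_eq_abs]
      exact mul_le_of_le_one_right (abs_nonneg _) hun
    · have hJb := hJS j _ ih1 _ (hu j)
      set x := ∑ i ∈ Finset.range j, c i • T i (u i) with hx
      set N := ∑ i ∈ Finset.range M, |c i| with hNdef
      set nj := ∑ i ∈ Finset.range j, |c i| with hnj
      rcases hc j with h | h
      · rw [h]; simpa using ih3
      · have hcj : |c j| = 1 := by rcases h with h | h <;> rw [h] <;> simp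
        have h1 := hJ.up x (c j • T j (u j)) δ hδ hδ1
        have h2 : J x (c j • T j (u j)) ≤ 1 := by
          rw [map_smul, smul_eq_mul]
          refine (le_abs_self _).trans ?_
          rw [abs_mul, hcj, one_mul]
          exact hJb.le
        have h3 : ‖c j • T j (u j)‖ ≤ 1 := by
          rw [norm_smul, Real.norm_eq_abs, hcj, one_mul]; exact hun
        have h4 : δ * ‖x‖ * ‖c j • T j (u j)‖ ≤ δ * N := by
          have : ‖x‖ * ‖c j • T j (u j)‖ ≤ N :=
            (mul_le_of_le_one_right (norm_nonneg _) h3).trans (ih2.trans hmono)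
          rw [mul_assoc]
          exact mul_le_mul_of_nonneg_left this hδ.le
        have h5 : C * δ ^ (-B) * ‖c j • T j (u j)‖ ^ 2 ≤ C * δ ^ (-B) := by
          apply mul_le_of_le_one_right (by positivity)
          exact pow_le_one₀ (norm_nonneg _) h3
        rw [hcj]
        calc ‖x + c j • T j (u j)‖ ^ 2 ≤ ‖x‖ ^ 2 + J x (c j • T j (u j)) +
              δ * ‖x‖ * ‖c j • T j (u j)‖ + C * δ ^ (-B) * ‖c j • T j (u j)‖ ^ 2 := h1
          _ ≤ nj * (1 + δ * N + C * δ ^ (-B)) + 1 + δ * N + C * δ ^ (-B) := by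
              linarith
          _ = (nj + 1) * (1 + δ * N + C * δ ^ (-B)) := by ring

theorem numbers {C B τ n : ℝ} (hC : 1 ≤ C) (hB : 0 ≤ B) (hτ : 0 < τ) (hn : 1 ≤ n) {X : ℝ}
    (hX0 : 0 ≤ X) (hX : τ * n ≤ X)
    (h : ∀ δ : ℝ, 0 < δ → δ ≤ 1 → X ^ 2 ≤ n * (1 + δ * n + C * δ ^ (-B))) :
    n ≤ ((C + 2) * (τ ^ 2)⁻¹) ^ (B + 1) := by
  have hn0 : 0 < n := by linarith
  have hB1 : 0 < B + 1 := by linarith
  set c : ℝ := 1 / (B + 1) with hc
  have hc0 : 0 < c := by positivity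
  have hc1 : c * (B + 1) = 1 := by rw [hc]; field_simp
  have hδ : 0 < n ^ (-c) := Real.rpow_pos_of_pos hn0 _
  have h1 := h (n ^ (-c)) hδ (Real.rpow_le_one_of_one_le_of_nonpos hn (by linarith))
  have e1 : n ^ (-c) * n = n ^ (1 - c) := by
    rw [← Real.rpow_add_one hn0.ne']; congr 1; ring
  have e2 : (n ^ (-c)) ^ (-B) = n ^ (1 - c) := by
    rw [← Real.rpow_mul hn0.le]; congr 1; linarith
  rw [e1, e2] at h1
  have e3 : (1 : ℝ) ≤ n ^ (1 - c) := by
    apply Real.one_le_rpow hn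
    have : c ≤ 1 := by rw [hc, div_le_one hB1]; linarith
    linarith
  have h2 : X ^ 2 ≤ n * ((C + 2) * n ^ (1 - c)) := by
    refine h1.trans (mul_le_mul_of_nonneg_left ?_ hn0.le)
    linarith
  have h3 : (τ * n) ^ 2 ≤ n * ((C + 2) * n ^ (1 - c)) :=
    (pow_le_pow_left₀ (by positivity) hX 2).trans h2
  have e4 : n * n ^ (1 - c) = n ^ 2 * n ^ (-c) := by
    rw [← e1]; ring
  have h4 : τ ^ 2 ≤ (C + 2) * n ^ (-c) := by
    have : τ ^ 2 * n ^ 2 ≤ (C + 2) * n ^ (-c) * n ^ 2 := by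
      calc τ ^ 2 * n ^ 2 = (τ * n) ^ 2 := by ring
        _ ≤ n * ((C + 2) * n ^ (1 - c)) := h3
        _ = (C + 2) * (n * n ^ (1 - c)) := by ring
        _ = (C + 2) * n ^ (-c) * n ^ 2 := by rw [e4]; ring
    exact le_of_mul_le_mul_right this (by positivity)
  have h5 : n ^ c ≤ (C + 2) * (τ ^ 2)⁻¹ := by
    have e5 : n ^ c * n ^ (-c) = 1 := by
      rw [← Real.rpow_add hn0]; simp
    have hτ2 : 0 < τ ^ 2 := by positivity
    rw [← div_eq_mul_inv, le_div_iff₀ hτ2]
    calc n ^ c * τ ^ 2 ≤ n ^ c * ((C + 2) * n ^ (-c)) :=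
          mul_le_mul_of_nonneg_left h4 (Real.rpow_nonneg hn0.le _)
      _ = (C + 2) * (n ^ c * n ^ (-c)) := by ring
      _ = C + 2 := by rw [e5, mul_one]
  calc n = (n ^ c) ^ (B + 1) := by rw [← Real.rpow_mul hn0.le, hc1, Real.rpow_one]
    _ ≤ ((C + 2) * (τ ^ 2)⁻¹) ^ (B + 1) :=
        Real.rpow_le_rpow (Real.rpow_nonneg hn0.le _) h5 hB1.le

end POSaux

open POSaux in
theorem pos : S_POS := by
  intro E _ _ J C B hC hB hJ hN
  have hB2 : 0 < B + 2 := by linarith
  refine ⟨1 + (C + 2) ^ (B + 1), 1 / (B + 2), by positivity, by positivity, ?_, ?_⟩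
  · rw [div_lt_one hB2]; linarith
  set c₁ : ℝ := 1 / (B + 2) with hc₁
  have hc₁0 : 0 < c₁ := by positivity
  have hc₁2 : c₁ * (B + 2) = 1 := by rw [hc₁]; field_simp
  intro Z hZ M
  obtain ⟨T, S, hS0, hJS, hS⟩ := choice J hN Z
  refine ⟨fun j => T j, ?_⟩
  intro g hg u hu
  rcases Nat.eq_zero_or_pos M with rfl | hM
  · simp only [Finset.univ_eq_empty, Finset.sum_empty]
    positivity
  have hM0 : (0 : ℝ) < M := by exact_mod_cast hM
  set u' : ℕ → E := fun i => if h : i < M then u ⟨i, h⟩ else u ⟨0, hM⟩ with hu'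
  have hu'Z : ∀ i, u' i ∈ Z := by
    intro i
    simp only [hu']
    split_ifs <;> exact hu _
  set τ : ℝ := (M : ℝ) ^ (-(c₁ / 2)) with hτdef
  have hτ : 0 < τ := Real.rpow_pos_of_pos hM0 _
  set c : ℕ → ℝ := fun i => if τ ≤ |g (T i (u' i))| then
    (if 0 ≤ g (T i (u' i)) then 1 else -1) else 0 with hcdef
  have hc : ∀ i, c i = 0 ∨ c i = 1 ∨ c i = -1 := by
    intro i
    simp only [hcdef]
    split_ifs <;> simp
  have hgb : ∀ i, |g (T i (u' i))| ≤ 1 := by
    intro i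
    have := g.le_opNorm (T i (u' i))
    rw [LinearIsometryEquiv.norm_map, Real.norm_eq_abs] at this
    refine this.trans ?_
    have h2 := hZ _ (hu'Z i)
    calc ‖g‖ * ‖u' i‖ ≤ 1 * 1 := mul_le_mul hg h2 (norm_nonneg _) zero_le_one
      _ = 1 := one_mul 1
  -- the sum over `Fin M`
  have hsum : ∑ j : Fin M, (g (T j (u j))) ^ 2 =
      ∑ i ∈ Finset.range M, (g (T i (u' i))) ^ 2 := by
    rw [← Fin.sum_univ_eq_sum_range (fun i => (g (T i (u' i))) ^ 2) M]
    apply Finset.sum_congr rfl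
    intro j _
    simp [hu']
  set n : ℝ := ∑ i ∈ Finset.range M, |c i| with hn
  have hb1 : ∑ i ∈ Finset.range M, (g (T i (u' i))) ^ 2 ≤ M * τ ^ 2 + n := by
    have : (M : ℝ) * τ ^ 2 = ∑ i ∈ Finset.range M, τ ^ 2 := by simp
    rw [this, hn, ← Finset.sum_add_distrib]
    apply Finset.sum_le_sum
    intro i _
    by_cases h : τ ≤ |g (T i (u' i))|
    · have h1 : |c i| = 1 := by
        simp only [hcdef, if_pos h]
        split_ifs <;> simp
      rw [h1, ← sq_abs]
      have := pow_le_one₀ (n := 2) (abs_nonneg _) (hgb i)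
      nlinarith [sq_nonneg τ]
    · have h1 : c i = 0 := by simp only [hcdef, if_neg h]
      rw [h1, abs_zero, add_zero, ← sq_abs]
      push Not at h
      exact pow_le_pow_left₀ (abs_nonneg _) h.le 2
  have hb2 : τ * n ≤ ‖∑ i ∈ Finset.range M, c i • T i (u' i)‖ := by
    have h1 : τ * n ≤ g (∑ i ∈ Finset.range M, c i • T i (u' i)) := by
      rw [map_sum, hn, Finset.mul_sum]
      apply Finset.sum_le_sum
      intro i _
      rw [map_smul, smul_eq_mul]
      by_cases h : τ ≤ |g (T i (u' i))|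
      · by_cases h2 : 0 ≤ g (T i (u' i))
        · have h3 : c i = 1 := by simp only [hcdef, if_pos h, if_pos h2]
          rw [h3]
          rw [abs_of_nonneg h2] at h
          simpa using h
        · have h3 : c i = -1 := by simp only [hcdef, if_pos h, if_neg h2]
          rw [h3]
          push Not at h2
          rw [abs_of_neg h2] at h
          simpa using h
      · have h1 : c i = 0 := by simp only [hcdef, if_neg h]
        rw [h1]; simp
    refine h1.trans ((le_abs_self _).trans ?_)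
    have := g.le_opNorm (∑ i ∈ Finset.range M, c i • T i (u' i))
    rw [Real.norm_eq_abs] at this
    exact this.trans (mul_le_of_le_one_left (norm_nonneg _) hg)
  have hb3 : ∀ δ : ℝ, 0 < δ → δ ≤ 1 → ‖∑ i ∈ Finset.range M, c i • T i (u' i)‖ ^ 2 ≤
      n * (1 + δ * n + C * δ ^ (-B)) := by
    intro δ hδ hδ1
    exact (growth hJ hC hZ hS0 hJS hS u' hu'Z c hc δ hδ hδ1 M M le_rfl).2.2
  have hMτ : (M : ℝ) * τ ^ 2 = (M : ℝ) ^ (1 - c₁) := by
    rw [hτdef, ← Real.rpow_natCast, ← Real.rpow_mul hM0.le, mul_comm, ← Real.rpow_add_one hM0.ne']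
    congr 1
    push_cast
    ring
  have hτinv : (τ ^ 2)⁻¹ = (M : ℝ) ^ c₁ := by
    rw [hτdef, ← Real.rpow_natCast, ← Real.rpow_mul hM0.le, ← Real.rpow_neg hM0.le]
    congr 1
    push_cast
    ring
  have hnb : n ≤ (C + 2) ^ (B + 1) * (M : ℝ) ^ (1 - c₁) := by
    by_cases h0 : ∀ i ∈ Finset.range M, c i = 0
    · have : n = 0 := by
        rw [hn]
        apply Finset.sum_eq_zero
        intro i hi
        rw [h0 i hi, abs_zero]
      rw [this]
      positivity
    · push Not at h0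
      obtain ⟨i, hi, hci⟩ := h0
      have h1 : 1 ≤ n := by
        have h2 : |c i| = 1 := by
          rcases hc i with h | h | h
          · exact absurd h hci
          · rw [h]; simp
          · rw [h]; simp
        rw [hn, ← h2]
        exact Finset.single_le_sum (f := fun i => |c i|) (fun i _ => abs_nonneg _) hi
      have h2 := numbers hC hB hτ h1 (norm_nonneg _) hb2 hb3
      refine h2.trans (le_of_eq ?_)
      rw [hτinv, Real.mul_rpow (by linarith) (Real.rpow_nonneg hM0.le _),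
        ← Real.rpow_mul hM0.le]
      congr 2
      linarith
  show ∑ j : Fin M, (g (T j (u j))) ^ 2 ≤ _
  rw [hsum]
  refine hb1.trans ?_
  rw [hMτ, add_mul, one_mul]
  linarith

end Pool.Agent.H65.BM
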