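import Pool.Agent.H65.BM.S4
import Pool.Agent.H65.BM.POS

/-! BM4-POS2 (helper71): positions with nearly vanishing operators (adapted from `POS.lean` of helper51). -/

set_option autoImplicit false

namespace Pool.Agent.H65.BM

open Pool.Agent.N314.OP Pool.Agent.N314.OP.Mod

namespace POS2aux

variable {E : Type} [NormedAddCommGroup E] [NormedSpace ℝ E]

theorem step (J : E → StrongDual ℝ E) (hN : NULL2P E) (K : E →L[ℝ] E) (hK : CA K)
    (Z X : Finset E) (G : Finset (E ≃ₗᵢ[ℝ] E)) (ε : ℝ) (hε : 0 < ε) (S : Finset E)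
    (L : List (E ≃ₗᵢ[ℝ] E)) :
    ∃ T : E ≃ₗᵢ[ℝ] E, (∀ x ∈ S, ∀ u ∈ Z, |J x (T u)| < 1) ∧
      ∀ A ∈ L, ∀ g ∈ G, ∀ u ∈ X, ‖K (g.symm (A.symm (T u)))‖ ≤ ε ∧
        ‖K (g.symm (T.symm (A u)))‖ ≤ ε := by
  classical
  obtain ⟨R, hR0, hR⟩ : ∃ R : ℝ, 0 ≤ R ∧ ∀ u ∈ X, ‖u‖ ≤ R :=
    ⟨∑ u ∈ X, ‖u‖, Finset.sum_nonneg fun _ _ => norm_nonneg _, fun u hu =>
      Finset.single_le_sum (f := fun u : E => ‖u‖) (fun _ _ => norm_nonneg _) hu⟩
  have hτ : 0 < ε / (2 * (R + 1)) := by positivity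
  obtain ⟨F, hF⟩ := hK _ hτ
  obtain ⟨ε', hε'⟩ : ∃ ε' : ℝ, ε' = ε / (2 * (F.card + 1)) := ⟨_, rfl⟩
  have hε'0 : 0 < ε' := by rw [hε']; positivity
  have hcard : (F.card : ℝ) * ε' ≤ ε / 2 := by
    rw [hε']
    have h1 : (0 : ℝ) ≤ F.card := Nat.cast_nonneg _
    rw [mul_div_assoc', div_le_div_iff₀ (by positivity) (by norm_num)]
    nlinarith
  have hτR : ∀ y : E, ‖y‖ ≤ R → ε / (2 * (R + 1)) * ‖y‖ ≤ ε / 2 := by
    intro y hy
    rw [div_mul_eq_mul_div, div_le_div_iff₀ (by positivity) (by norm_num)]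
    nlinarith [norm_nonneg y]
  have key : ∀ y : E, ‖y‖ ≤ R → (∀ f ∈ F, |f y| < ε') → ‖K y‖ ≤ ε := by
    intro y hy hf
    have h1 := hF y
    have h2 : ∑ f ∈ F, |f y| ≤ F.card * ε' := by
      have := Finset.sum_le_sum (fun f hf' => (hf f hf').le)
      rwa [Finset.sum_const, nsmul_eq_mul] at this
    linarith [hτR y hy]
  let X' : Finset E := Z ∪ (X ∪ (L.toFinset ×ˢ X).image (fun p => p.1 p.2))
  let F' : Finset (StrongDual ℝ E) := S.image J ∪
    (((F ×ˢ G) ×ˢ L.toFinset).image (fun p =>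
      p.1.1.comp ((p.2.symm.trans p.1.2.symm).toContinuousLinearEquiv : E →L[ℝ] E)) ∪
    (F ×ˢ G).image (fun p => p.1.comp (p.2.symm.toContinuousLinearEquiv : E →L[ℝ] E)))
  obtain ⟨T, hT⟩ := hN X' F' (min 1 ε') (lt_min one_pos hε'0)
  refine ⟨T, ?_, ?_⟩
  · intro x hx u hu
    have h1 : u ∈ X' := Finset.mem_union_left _ hu
    have h2 : J x ∈ F' := Finset.mem_union_left _ (Finset.mem_image_of_mem J hx)
    exact (hT u h1 (J x) h2).1.trans_le (min_le_left _ _)
  · intro A hA g hg u hu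
    constructor
    · refine key _ ?_ ?_
      · rw [LinearIsometryEquiv.norm_map, LinearIsometryEquiv.norm_map,
          LinearIsometryEquiv.norm_map]
        exact hR u hu
      · intro f hf
        have h1 : u ∈ X' := Finset.mem_union_right _ (Finset.mem_union_left _ hu)
        have h2 : f.comp ((A.symm.trans g.symm).toContinuousLinearEquiv : E →L[ℝ] E) ∈ F' := by
          apply Finset.mem_union_right
          apply Finset.mem_union_left
          rw [Finset.mem_image]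
          exact ⟨((f, g), A), Finset.mk_mem_product (Finset.mk_mem_product hf hg)
            (List.mem_toFinset.2 hA), rfl⟩
        exact (hT u h1 _ h2).1.trans_le (min_le_right _ _)
    · refine key _ ?_ ?_
      · rw [LinearIsometryEquiv.norm_map, LinearIsometryEquiv.norm_map,
          LinearIsometryEquiv.norm_map]
        exact hR u hu
      · intro f hf
        have h1 : A u ∈ X' := by
          apply Finset.mem_union_right
          apply Finset.mem_union_right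
          rw [Finset.mem_image]
          exact ⟨(A, u), Finset.mk_mem_product (List.mem_toFinset.2 hA) hu, rfl⟩
        have h2 : f.comp (g.symm.toContinuousLinearEquiv : E →L[ℝ] E) ∈ F' := by
          apply Finset.mem_union_right
          apply Finset.mem_union_right
          rw [Finset.mem_image]
          exact ⟨(f, g), Finset.mk_mem_product hf hg, rfl⟩
        exact (hT (A u) h1 _ h2).2.trans_le (min_le_right _ _)

theorem choice (J : E → StrongDual ℝ E) (hN : NULL2P E) (K : E →L[ℝ] E) (hK : CA K)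
    (Z X : Finset E) (G : Finset (E ≃ₗᵢ[ℝ] E)) (ε : ℝ) (hε : 0 < ε) :
    ∃ (T : ℕ → E ≃ₗᵢ[ℝ] E) (S : ℕ → Finset E), (0 : E) ∈ S 0 ∧
      (∀ n, ∀ x ∈ S n, ∀ u ∈ Z, |J x (T n u)| < 1) ∧
      (∀ n, ∀ x ∈ S n, ∀ u ∈ Z, ∀ c : ℝ, (c = 0 ∨ c = 1 ∨ c = -1) →
        x + c • T n u ∈ S (n + 1)) ∧
      ∀ i j, i ≠ j → ∀ g ∈ G, ∀ u ∈ X, ‖K (g.symm ((T j).symm (T i u)))‖ ≤ ε := by
  classical
  choose nx hnx1 hnx2 using step J hN K hK Z X G ε hε
  let P : ℕ → Finset E × List (E ≃ₗᵢ[ℝ] E) := fun n => Nat.rec ({0}, []) (fun _ p =>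
    (p.1 ∪ ((p.1 ×ˢ Z).image (fun q => q.1 + nx p.1 p.2 q.2) ∪
      (p.1 ×ˢ Z).image (fun q => q.1 - nx p.1 p.2 q.2)), nx p.1 p.2 :: p.2)) n
  have hP : ∀ n, P (n + 1) = ((P n).1 ∪ (((P n).1 ×ˢ Z).image (fun q => q.1 + nx (P n).1 (P n).2 q.2) ∪
      ((P n).1 ×ˢ Z).image (fun q => q.1 - nx (P n).1 (P n).2 q.2)), nx (P n).1 (P n).2 :: (P n).2) :=
    fun n => rfl
  have hmem : ∀ j i, i < j → nx (P i).1 (P i).2 ∈ (P j).2 := by
    intro j
    induction j with
    | zero => intro i hi; omega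
    | succ j ih =>
      intro i hi
      rw [hP]
      rcases Nat.lt_succ_iff_lt_or_eq.1 hi with h | h
      · exact List.mem_cons_of_mem _ (ih i h)
      · rw [h]; exact List.mem_cons_self
  refine ⟨fun n => nx (P n).1 (P n).2, fun n => (P n).1, ?_, fun n => hnx1 (P n).1 (P n).2, ?_, ?_⟩
  · show (0 : E) ∈ ({0} : Finset E)
    simp
  · intro n x hx u hu c hc
    show x + c • nx (P n).1 (P n).2 u ∈ (P (n + 1)).1
    rw [hP]
    rcases hc with rfl | rfl | rfl
    · simp [hx]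
    · apply Finset.mem_union_right
      apply Finset.mem_union_left
      rw [Finset.mem_image]
      exact ⟨(x, u), Finset.mk_mem_product hx hu, by simp⟩
    · apply Finset.mem_union_right
      apply Finset.mem_union_right
      rw [Finset.mem_image]
      exact ⟨(x, u), Finset.mk_mem_product hx hu, by simp [sub_eq_add_neg]⟩
  · intro i j hij g hg u hu
    rcases lt_or_gt_of_ne hij with h | h
    · exact (hnx2 (P j).1 (P j).2 _ (hmem j i h) g hg u hu).2
    · exact (hnx2 (P i).1 (P i).2 _ (hmem i j h) g hg u hu).1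

open POSaux in
theorem est {J : E → StrongDual ℝ E} {C B : ℝ} (hJ : JP E C B J) (hC : 1 ≤ C) (hB : 0 ≤ B)
    {Z : Finset E} (hZ : ∀ u ∈ Z, ‖u‖ ≤ 1) {T : ℕ → E ≃ₗᵢ[ℝ] E} {S : ℕ → Finset E}
    (hS0 : (0 : E) ∈ S 0) (hJS : ∀ n, ∀ x ∈ S n, ∀ u ∈ Z, |J x (T n u)| < 1)
    (hS : ∀ n, ∀ x ∈ S n, ∀ u ∈ Z, ∀ c : ℝ, (c = 0 ∨ c = 1 ∨ c = -1) →
        x + c • T n u ∈ S (n + 1)) (M : ℕ) (c₁ : ℝ) (hc₁ : c₁ = 1 / (B + 2)) (hc₁0 : 0 < c₁)
    (hc₁2 : c₁ * (B + 2) = 1) :
    ∀ g : StrongDual ℝ E, ‖g‖ ≤ 1 → ∀ u : Fin M → E, (∀ j, u j ∈ Z) →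
        ∑ j : Fin M, (g (T j (u j))) ^ 2 ≤ (1 + (C + 2) ^ (B + 1)) * (M : ℝ) ^ (1 - c₁) := by
  intro g hg u hu
  rcases Nat.eq_zero_or_pos M with rfl | hM
  · simp only [Finset.univ_eq_empty, Finset.sum_empty]
    positivity
  have hM0 : (0 : ℝ) < M := by exact_mod_cast hM
  set u' : ℕ → E := fun i => if h : i < M then u ⟨i, h⟩ else u ⟨0, hM⟩ with hu'
  have hu'Z : ∀ i, u' i ∈ Z := by
    intro i
    simp only [hu']
    split_ifs <;> exact hu _
  set τ : ℝ := (M : ℝ) ^ (-(c₁ / 2)) with hτdef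
  have hτ : 0 < τ := Real.rpow_pos_of_pos hM0 _
  set c : ℕ → ℝ := fun i => if τ ≤ |g (T i (u' i))| then
    (if 0 ≤ g (T i (u' i)) then 1 else -1) else 0 with hcdef
  have hc : ∀ i, c i = 0 ∨ c i = 1 ∨ c i = -1 := by
    intro i
    simp only [hcdef]
    split_ifs <;> simp
  have hgb : ∀ i, |g (T i (u' i))| ≤ 1 := by
    intro i
    have := g.le_opNorm (T i (u' i))
    rw [LinearIsometryEquiv.norm_map, Real.norm_eq_abs] at this
    refine this.trans ?_
    have h2 := hZ _ (hu'Z i)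
    calc ‖g‖ * ‖u' i‖ ≤ 1 * 1 := mul_le_mul hg h2 (norm_nonneg _) zero_le_one
      _ = 1 := one_mul 1
  -- the sum over `Fin M`
  have hsum : ∑ j : Fin M, (g (T j (u j))) ^ 2 =
      ∑ i ∈ Finset.range M, (g (T i (u' i))) ^ 2 := by
    rw [← Fin.sum_univ_eq_sum_range (fun i => (g (T i (u' i))) ^ 2) M]
    apply Finset.sum_congr rfl
    intro j _
    simp [hu']
  set n : ℝ := ∑ i ∈ Finset.range M, |c i| with hn
  have hb1 : ∑ i ∈ Finset.range M, (g (T i (u' i))) ^ 2 ≤ M * τ ^ 2 + n := by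
    have : (M : ℝ) * τ ^ 2 = ∑ i ∈ Finset.range M, τ ^ 2 := by simp
    rw [this, hn, ← Finset.sum_add_distrib]
    apply Finset.sum_le_sum
    intro i _
    by_cases h : τ ≤ |g (T i (u' i))|
    · have h1 : |c i| = 1 := by
        simp only [hcdef, if_pos h]
        split_ifs <;> simp
      rw [h1, ← sq_abs]
      have := pow_le_one₀ (n := 2) (abs_nonneg _) (hgb i)
      nlinarith [sq_nonneg τ]
    · have h1 : c i = 0 := by simp only [hcdef, if_neg h]
      rw [h1, abs_zero, add_zero, ← sq_abs]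
      push Not at h
      exact pow_le_pow_left₀ (abs_nonneg _) h.le 2
  have hb2 : τ * n ≤ ‖∑ i ∈ Finset.range M, c i • T i (u' i)‖ := by
    have h1 : τ * n ≤ g (∑ i ∈ Finset.range M, c i • T i (u' i)) := by
      rw [map_sum, hn, Finset.mul_sum]
      apply Finset.sum_le_sum
      intro i _
      rw [map_smul, smul_eq_mul]
      by_cases h : τ ≤ |g (T i (u' i))|
      · by_cases h2 : 0 ≤ g (T i (u' i))
        · have h3 : c i = 1 := by simp only [hcdef, if_pos h, if_pos h2]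
          rw [h3]
          rw [abs_of_nonneg h2] at h
          simpa using h
        · have h3 : c i = -1 := by simp only [hcdef, if_pos h, if_neg h2]
          rw [h3]
          push Not at h2
          rw [abs_of_neg h2] at h
          simpa using h
      · have h1 : c i = 0 := by simp only [hcdef, if_neg h]
        rw [h1]; simp
    refine h1.trans ((le_abs_self _).trans ?_)
    have := g.le_opNorm (∑ i ∈ Finset.range M, c i • T i (u' i))
    rw [Real.norm_eq_abs] at this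
    exact this.trans (mul_le_of_le_one_left (norm_nonneg _) hg)
  have hb3 : ∀ δ : ℝ, 0 < δ → δ ≤ 1 → ‖∑ i ∈ Finset.range M, c i • T i (u' i)‖ ^ 2 ≤
      n * (1 + δ * n + C * δ ^ (-B)) := by
    intro δ hδ hδ1
    exact (growth hJ hC hZ hS0 hJS hS u' hu'Z c hc δ hδ hδ1 M M le_rfl).2.2
  have hMτ : (M : ℝ) * τ ^ 2 = (M : ℝ) ^ (1 - c₁) := by
    rw [hτdef, ← Real.rpow_natCast, ← Real.rpow_mul hM0.le, mul_comm, ← Real.rpow_add_one hM0.ne']
    congr 1
    push_cast
    ring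
  have hτinv : (τ ^ 2)⁻¹ = (M : ℝ) ^ c₁ := by
    rw [hτdef, ← Real.rpow_natCast, ← Real.rpow_mul hM0.le, ← Real.rpow_neg hM0.le]
    congr 1
    push_cast
    ring
  have hnb : n ≤ (C + 2) ^ (B + 1) * (M : ℝ) ^ (1 - c₁) := by
    by_cases h0 : ∀ i ∈ Finset.range M, c i = 0
    · have : n = 0 := by
        rw [hn]
        apply Finset.sum_eq_zero
        intro i hi
        rw [h0 i hi, abs_zero]
      rw [this]
      positivity
    · push Not at h0
      obtain ⟨i, hi, hci⟩ := h0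
      have h1 : 1 ≤ n := by
        have h2 : |c i| = 1 := by
          rcases hc i with h | h | h
          · exact absurd h hci
          · rw [h]; simp
          · rw [h]; simp
        rw [hn, ← h2]
        exact Finset.single_le_sum (f := fun i => |c i|) (fun i _ => abs_nonneg _) hi
      have h2 := numbers hC hB hτ h1 (norm_nonneg _) hb2 hb3
      refine h2.trans (le_of_eq ?_)
      rw [hτinv, Real.mul_rpow (by linarith) (Real.rpow_nonneg hM0.le _),
        ← Real.rpow_mul hM0.le]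
      congr 2
      linarith
  show ∑ j : Fin M, (g (T j (u j))) ^ 2 ≤ _
  rw [hsum]
  refine hb1.trans ?_
  rw [hMτ, add_mul, one_mul]
  linarith

end POS2aux

open POS2aux in
theorem pos2 : S_POS2 := by
  intro E _ _ J C B K hC hB hJ hN hK
  have hB2 : 0 < B + 2 := by linarith
  refine ⟨1 + (C + 2) ^ (B + 1), 1 / (B + 2), by positivity, by positivity, ?_, ?_⟩
  · rw [div_lt_one hB2]; linarith
  intro Z hZ X G ε hε M
  obtain ⟨T, S, hS0, hJS, hS, hK2⟩ := choice J hN K hK Z X G ε hε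
  refine ⟨fun j => T j, ?_, ?_⟩
  · exact est hJ hC hB hZ hS0 hJS hS M (1 / (B + 2)) rfl (by positivity) (by field_simp)
  · intro i j hij
    exact hK2 i j (fun h => hij (Fin.ext h))

end Pool.Agent.H65.BM
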