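import Pool.Agent.H65.BM.S2

set_option autoImplicit false

namespace Pool.Agent.H65.BM

open Pool.Agent.N314.OP Pool.Agent.N314.OP.Mod

theorem PowAux.triv {E : Type} [NormedAddCommGroup E] [NormedSpace ℝ E] {x w : E} (hx : ‖x‖ = 1) :
    ‖x + w‖ + ‖x - w‖ ≤ 2 + 2 * ‖w‖ := by
  have h1 := norm_add_le x w
  have h2 := norm_sub_le x w
  linarith

theorem pow : S_POW := by
  intro E _ _ l s₁ hl hl8 hs hs1 hstep
  -- iteration
  have hiter : ∀ k : ℕ, RR E (l ^ k * s₁) ((l / 2) ^ k * (2 * s₁)) := by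
    intro k
    induction k with
    | zero =>
      intro x w hx hw
      have h1 := PowAux.triv (w := w) hx
      simp only [pow_zero, one_mul] at hw ⊢
      linarith
    | succ k ih =>
      have hlk : 0 < l ^ k := by positivity
      have hlk1 : l ^ k ≤ 1 := pow_le_one₀ hl.le (by linarith)
      have h1 := hstep (l ^ k * s₁) ((l / 2) ^ k * (2 * s₁)) (by positivity)
        (by nlinarith) (by
          have e1 : (l ^ k * s₁) ^ 2 = (l ^ 2) ^ k * s₁ ^ 2 := by ring
          rw [e1]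
          have e2 : (l ^ 2) ^ k ≤ (l / 2) ^ k := by
            refine pow_le_pow_left₀ (by positivity) ?_ k
            nlinarith
          have e3 : s₁ ^ 2 ≤ 2 * s₁ := by nlinarith
          exact mul_le_mul e2 e3 (by positivity) (by positivity)) (by
          have e2 : (l / 2) ^ k ≤ l ^ k := pow_le_pow_left₀ (by positivity) (by linarith) k
          nlinarith) ih
      have e4 : l ^ (k + 1) * s₁ = l * (l ^ k * s₁) := by ring
      have e5 : (l / 2) ^ (k + 1) * (2 * s₁) = l / 2 * ((l / 2) ^ k * (2 * s₁)) := by ring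
      rw [e4, e5]
      exact h1
  have hlog : 0 < Real.log (1 / l) := by
    refine Real.log_pos ?_
    rw [lt_div_iff₀ hl]; linarith
  have hlog2 : 0 < Real.log 2 := Real.log_pos (by norm_num)
  obtain ⟨p, hp⟩ : ∃ p : ℝ, p = 1 + Real.log 2 / Real.log (1 / l) := ⟨_, rfl⟩
  have hp1 : 1 < p := by rw [hp]; have : 0 < Real.log 2 / Real.log (1 / l) := by positivity
                         linarith
  have hp2 : p ≤ 2 := by
    rw [hp]
    have : Real.log 2 / Real.log (1 / l) ≤ 1 := by
      rw [div_le_one hlog]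
      refine Real.log_le_log (by norm_num) ?_
      rw [le_div_iff₀ hl]; linarith
    linarith
  have hlp : l ^ p = l / 2 := by
    rw [Real.rpow_def_of_pos hl, hp, mul_add, mul_one, Real.exp_add, Real.exp_log hl]
    have h1 : Real.log l * (Real.log 2 / Real.log (1 / l)) = -Real.log 2 := by
      have h2 : Real.log (1 / l) = -Real.log l := by rw [one_div, Real.log_inv]
      have h3 : Real.log l ≠ 0 := by rw [h2] at hlog; linarith
      rw [h2]
      field_simp
    rw [h1, Real.exp_neg, Real.exp_log (by norm_num)]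
    ring
  have hc : 0 < 1 / (s₁ * l) := by positivity
  refine ⟨p, 2 * (1 / (s₁ * l)) ^ p, hp1, hp2, by positivity, fun x w hx => ?_⟩
  rcases eq_or_ne w 0 with rfl | hw
  · rw [norm_zero, Real.zero_rpow (by linarith)]
    simp [hx]; norm_num
  have hw0 : 0 < ‖w‖ := norm_pos_iff.2 hw
  have hK : 2 * (1 / (s₁ * l)) ^ p * ‖w‖ ^ p = 2 * (1 / (s₁ * l) * ‖w‖) ^ p := by
    rw [Real.mul_rpow hc.le hw0.le]; ring
  rw [hK]
  by_cases hcase : ‖w‖ ≤ s₁
  · obtain ⟨k, hk1, hk2⟩ := exists_nat_pow_near_of_lt_one (x := ‖w‖ / s₁) (y := l)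
      (by positivity) (by rw [div_le_one hs]; exact hcase) hl (by linarith)
    have h1 := hiter k x w hx (by rw [div_le_iff₀ hs] at hk2; exact hk2)
    refine h1.trans ?_
    have h2 : (l / 2) ^ k = (l ^ k) ^ p := by
      rw [← hlp, ← Real.rpow_natCast (l ^ p) k, ← Real.rpow_natCast l k, ← Real.rpow_mul hl.le,
        ← Real.rpow_mul hl.le, mul_comm]
    have h3 : l ^ k ≤ 1 / (s₁ * l) * ‖w‖ := by
      rw [lt_div_iff₀ hs] at hk1
      rw [one_div, inv_mul_eq_div, le_div_iff₀ (by positivity)]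
      calc l ^ k * (s₁ * l) = l ^ (k + 1) * s₁ := by ring
        _ ≤ ‖w‖ := hk1.le
    have h4 : (l ^ k) ^ p ≤ (1 / (s₁ * l) * ‖w‖) ^ p :=
      Real.rpow_le_rpow (by positivity) h3 (by linarith)
    rw [h2]
    have h5 : 0 ≤ (l ^ k) ^ p := by positivity
    nlinarith
  · push Not at hcase
    have h1 := PowAux.triv (w := w) hx
    have h2 : 1 ≤ 1 / (s₁ * l) * ‖w‖ := by
      rw [one_div, inv_mul_eq_div, le_div_iff₀ (by positivity)]
      nlinarith
    have h3 : 1 / (s₁ * l) * ‖w‖ ≤ (1 / (s₁ * l) * ‖w‖) ^ p := by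
      conv_lhs => rw [← Real.rpow_one (1 / (s₁ * l) * ‖w‖)]
      exact Real.rpow_le_rpow_of_exponent_le h2 hp1.le
    have h4 : ‖w‖ ≤ 1 / (s₁ * l) * ‖w‖ := by
      refine le_mul_of_one_le_left hw0.le ?_
      rw [le_div_iff₀ (by positivity)]
      nlinarith
    linarith

end Pool.Agent.H65.BM
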