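import Pool.Agent.H65.BM.S6
import Pool.Agent.H65.BM.L.Ramsey

set_option autoImplicit false

namespace Pool.Agent.H65.BM.RAMx

open Filter Topology

/-- the enumeration of a set with `k` elements, continued in any way -/
noncomputable def enum (k : ℕ) (s : Finset ℕ) (i : ℕ) : ℕ :=
  if h : s.card = k ∧ i < k then s.orderEmbOfFin h.1 ⟨i, h.2⟩ else 0

theorem enum_eq (k : ℕ) (p : ℕ → ℕ) (hp : StrictMono p) (i : ℕ) (hi : i < k) :
    enum k ((Finset.range k).image p) i = p i := by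
  have hc : ((Finset.range k).image p).card = k := by
    rw [Finset.card_image_of_injective _ hp.injective, Finset.card_range]
  unfold enum
  rw [dif_pos ⟨hc, hi⟩]
  have h := Finset.orderEmbOfFin_unique (s := (Finset.range k).image p) (k := k) hc
    (f := fun j : Fin k => p j) (fun j => Finset.mem_image_of_mem p (Finset.mem_range.2 j.2))
    (fun a b hab => hp hab)
  exact (congrFun h ⟨i, hi⟩).symm

theorem one (μ : (ℕ → ℕ) → ℝ) (k : ℕ) (B ε : ℝ) (hε : 0 < ε)
    (h1 : ∀ p, StrictMono p → 0 ≤ μ p ∧ μ p ≤ B)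
    (h2 : ∀ p p', (∀ i, i < k → p i = p' i) → μ p = μ p') :
    ∃ (q : ℕ → ℕ) (κ : ℝ), StrictMono q ∧ ∀ p, StrictMono p → |μ (q ∘ p) - κ| ≤ ε := by
  classical
  set M : ℕ := ⌊B / ε⌋₊ with hM
  obtain ⟨H, c, hH, hc⟩ := Pool.Agent.H65.BM.RamseyLib.infinite_ramsey (A := ℕ) (C := Fin (M + 1)) k
    (fun s => ⟨min ⌊μ (enum k s) / ε⌋₊ M, by omega⟩)
  have hHi : {n | n ∈ H}.Infinite := hH
  refine ⟨Nat.nth (fun n => n ∈ H), ε * (c : ℕ), Nat.nth_strictMono hHi, fun p hp => ?_⟩
  set q := Nat.nth (fun n => n ∈ H) with hq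
  have hqp : StrictMono (q ∘ p) := (Nat.nth_strictMono hHi).comp hp
  have hs := hc ((Finset.range k).image (q ∘ p))
    (by rw [Finset.card_image_of_injective _ hqp.injective, Finset.card_range]) (by
      intro x hx
      rw [Finset.mem_coe, Finset.mem_image] at hx
      obtain ⟨i, -, rfl⟩ := hx
      exact Nat.nth_mem_of_infinite hHi _)
  have he : μ (enum k ((Finset.range k).image (q ∘ p))) = μ (q ∘ p) :=
    h2 _ _ fun i hi => enum_eq k (q ∘ p) hqp i hi
  have hs2 := congrArg Fin.val hs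
  simp only at hs2
  rw [he] at hs2
  obtain ⟨b1, b2⟩ := h1 (q ∘ p) hqp
  have b3 : ⌊μ (q ∘ p) / ε⌋₊ ≤ M := Nat.floor_le_floor (by gcongr)
  rw [min_eq_left b3] at hs2
  have b4 : 0 ≤ μ (q ∘ p) / ε := by positivity
  have b5 := Nat.floor_le b4
  have b6 := Nat.lt_floor_add_one (μ (q ∘ p) / ε)
  rw [hs2] at b5 b6
  rw [le_div_iff₀ hε] at b5
  rw [div_lt_iff₀ hε] at b6
  rw [abs_le]
  constructor <;> linarith

end Pool.Agent.H65.BM.RAMx

namespace Pool.Agent.H65.BM

open Filter Topology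

theorem ram : S_RAM := by
  intro μ R ε hε h1 h2
  have key : ∀ n : ℕ, ∃ (q : ℕ → ℕ) (κ : ℕ → ℝ), StrictMono q ∧
      ∀ r, r < n → ∀ p, StrictMono p → |μ r (q ∘ p) - κ r| ≤ ε := by
    intro n
    induction n with
    | zero => exact ⟨id, fun _ => 0, strictMono_id, fun r hr => absurd hr (by omega)⟩
    | succ n ih =>
      obtain ⟨q, κ, hq, hκ⟩ := ih
      obtain ⟨q', c, hq', hc⟩ := RAMx.one (fun p => μ n (q ∘ p)) (2 * n) (2 * n) ε hε
        (fun p hp => h1 n (q ∘ p) (hq.comp hp))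
        (fun p p' h => h2 n _ _ fun i hi => by simp only [Function.comp, h i hi])
      refine ⟨q ∘ q', Function.update κ n c, hq.comp hq', fun r hr p hp => ?_⟩
      rcases Nat.lt_succ_iff_lt_or_eq.1 hr with h | h
      · rw [Function.update_of_ne (by omega)]
        exact hκ r h (q' ∘ p) (hq'.comp hp)
      · subst h
        rw [Function.update_self]
        exact hc p hp
  obtain ⟨q, κ, hq, hκ⟩ := key (R + 1)
  exact ⟨q, κ, hq, fun r hr p hp => hκ r (by omega) p hp⟩

end Pool.Agent.H65.BM
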