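import Pool.Agent.H65.BM.S6

/-! # Stub BM6-REFA: finitely many words suffice -/

set_option autoImplicit false

namespace Pool.Agent.H65.BM

open Pool.Agent.N314.OP Pool.Agent.N314.OP.Mod Filter Topology

namespace REFA

variable {E : Type} [NormedAddCommGroup E] [NormedSpace ℝ E]

theorem wd_norm {K : E →L[ℝ] E} (hK : ∀ y, ‖y - K y‖ ≤ ‖y‖) (l : List (E ≃ₗᵢ[ℝ] E)) (x : E) :
    ‖wd K l x‖ ≤ ‖x‖ := by
  induction l with
  | nil => exact le_rfl
  | cons g l ih =>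
    have h1 : wd K (g :: l) x = g (g.symm (wd K l x) - K (g.symm (wd K l x))) := by
      show wd K l x - g (K (g.symm (wd K l x))) = _
      rw [map_sub, LinearIsometryEquiv.apply_symm_apply]
    rw [h1, LinearIsometryEquiv.norm_map]
    refine (hK _).trans ?_
    rw [LinearIsometryEquiv.norm_map]
    exact ih

theorem wd_add (K : E →L[ℝ] E) (l : List (E ≃ₗᵢ[ℝ] E)) (x y : E) :
    wd K l (x + y) = wd K l x + wd K l y := by
  induction l with
  | nil => rfl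
  | cons g l ih =>
    show wd K l (x + y) - g (K (g.symm (wd K l (x + y)))) =
      (wd K l x - g (K (g.symm (wd K l x)))) + (wd K l y - g (K (g.symm (wd K l y))))
    rw [ih]
    simp only [map_add]
    abel

theorem wd_smul (K : E →L[ℝ] E) (l : List (E ≃ₗᵢ[ℝ] E)) (c : ℝ) (x : E) :
    wd K l (c • x) = c • wd K l x := by
  induction l with
  | nil => rfl
  | cons g l ih =>
    show wd K l (c • x) - g (K (g.symm (wd K l (c • x)))) =
      c • (wd K l x - g (K (g.symm (wd K l x))))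
    rw [ih]
    simp only [map_smul, smul_sub]

end REFA

open REFA in
theorem refa : S_REFA := by
  intro E _ _ _ K hKc hK hLP x₀ κ θ hκ hθ hx₀
  obtain ⟨c₀, hc₀, hLP⟩ := hLP
  -- the lower bound for all vectors and functionals
  have hlow : ∀ (z : E) (φ : StrongDual ℝ E), κ ≤ ‖z‖ → ‖φ‖ ≤ 1 → θ ≤ |φ x₀| →
      ∃ l : List (E ≃ₗᵢ[ℝ] E), c₀ * θ * κ ≤ |φ (wd K l z)| := by
    intro z φ hz hφ1 hφ
    have hz0 : 0 < ‖z‖ := lt_of_lt_of_le hκ hz
    have hφθ : θ ≤ ‖φ‖ := by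
      refine hφ.trans ?_
      have := φ.le_opNorm x₀
      rwa [hx₀, mul_one, Real.norm_eq_abs] at this
    have hφ0 : 0 < ‖φ‖ := lt_of_lt_of_le hθ hφθ
    obtain ⟨l, hl⟩ := hLP (‖z‖⁻¹ • z) (‖φ‖⁻¹ • φ)
      (by rw [norm_smul, norm_inv, norm_norm, inv_mul_cancel₀ hz0.ne'])
      (by rw [norm_smul, norm_inv, norm_norm, inv_mul_cancel₀ hφ0.ne'])
    refine ⟨l, ?_⟩
    have h1 : (‖φ‖⁻¹ • φ) (wd K l (‖z‖⁻¹ • z)) = ‖φ‖⁻¹ * (‖z‖⁻¹ * φ (wd K l z)) := by
      rw [wd_smul, smul_apply, map_smul, smul_eq_mul, smul_eq_mul]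
    rw [h1, abs_mul, abs_mul, abs_inv, abs_inv, abs_norm, abs_norm] at hl
    have h2 : c₀ * (‖φ‖ * ‖z‖) ≤ |φ (wd K l z)| := by
      have h3 := mul_le_mul_of_nonneg_right hl (mul_nonneg hφ0.le hz0.le)
      have h4 : ‖φ‖⁻¹ * (‖z‖⁻¹ * |φ (wd K l z)|) * (‖φ‖ * ‖z‖) = |φ (wd K l z)| := by
        field_simp
      rwa [h4] at h3
    refine le_trans ?_ h2
    have h5 : θ * κ ≤ ‖φ‖ * ‖z‖ := mul_le_mul hφθ hz hκ.le hφ0.le
    calc c₀ * θ * κ = c₀ * (θ * κ) := by ring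
      _ ≤ c₀ * (‖φ‖ * ‖z‖) := mul_le_mul_of_nonneg_left h5 hc₀.le
  set a : ℝ := c₀ * θ * κ with ha
  have ha0 : 0 < a := by positivity
  -- finitely many words for one vector
  have hfin : ∀ z : E, κ ≤ ‖z‖ → ∃ Λ : Finset (List (E ≃ₗᵢ[ℝ] E)), ∀ φ : StrongDual ℝ E, ‖φ‖ ≤ 1 →
      θ ≤ |φ x₀| → ∃ l ∈ Λ, a / 2 < |φ (wd K l z)| := by
    intro z hz
    set A : Set (WeakDual ℝ E) :=
      (WeakDual.toStrongDual ⁻¹' Metric.closedBall (0 : StrongDual ℝ E) 1) ∩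
        {φ : WeakDual ℝ E | θ ≤ |φ x₀|} with hA
    have hAc : IsCompact A := by
      refine (WeakDual.isCompact_closedBall (0 : StrongDual ℝ E) 1).inter_right ?_
      exact isClosed_le continuous_const (WeakDual.eval_continuous x₀).abs
    have hcov : A ⊆ ⋃ l : List (E ≃ₗᵢ[ℝ] E), {φ : WeakDual ℝ E | a / 2 < |φ (wd K l z)|} := by
      intro φ hφ
      have h1 : ‖WeakDual.toStrongDual φ‖ ≤ 1 := by
        have := hφ.1
        rwa [Set.mem_preimage, mem_closedBall_zero_iff] at this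
      obtain ⟨l, hl⟩ := hlow z (WeakDual.toStrongDual φ) hz h1 hφ.2
      refine Set.mem_iUnion.2 ⟨l, ?_⟩
      show a / 2 < |(WeakDual.toStrongDual φ) (wd K l z)|
      linarith
    obtain ⟨Λ, hΛ⟩ := hAc.elim_finite_subcover _
      (fun l => isOpen_lt continuous_const (WeakDual.eval_continuous (wd K l z)).abs) hcov
    refine ⟨Λ, fun φ hφ1 hφ => ?_⟩
    have h2 : StrongDual.toWeakDual φ ∈ A := by
      refine ⟨?_, hφ⟩
      rw [Set.mem_preimage, mem_closedBall_zero_iff]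
      exact hφ1
    obtain ⟨l, hl, h3⟩ := Set.mem_iUnion₂.1 (hΛ h2)
    exact ⟨l, hl, h3⟩
  choose! Λ hΛ using hfin
  -- the net
  have hcomp : IsCompact (closure (K '' Metric.closedBall (0 : E) 1) ∩ {z | κ ≤ ‖z‖}) := by
    refine IsCompact.inter_right ?_ (isClosed_le continuous_const continuous_norm)
    exact hKc.isCompact_closure_image_closedBall 1
  obtain ⟨t, htsub, htfin, htcov⟩ := hcomp.finite_cover_balls (e := a / 4) (by positivity)
  classical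
  refine ⟨a / 4, htfin.toFinset.biUnion Λ, by positivity, fun p φ hp hKp hφ1 hφ => ?_⟩
  have hmem : K p ∈ closure (K '' Metric.closedBall (0 : E) 1) ∩ {z | κ ≤ ‖z‖} :=
    ⟨subset_closure ⟨p, by simpa using hp, rfl⟩, hKp⟩
  obtain ⟨z, hz, hzp⟩ := Set.mem_iUnion₂.1 (htcov hmem)
  have hz' := htsub hz
  obtain ⟨l, hl, h1⟩ := hΛ z hz'.2 φ hφ1 hφ
  refine ⟨l, Finset.mem_biUnion.2 ⟨z, htfin.mem_toFinset.2 hz, hl⟩, ?_⟩
  have h2 : wd K l z = wd K l (K p) + wd K l (z - K p) := by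
    rw [← wd_add]
    congr 1
    abel
  have h3 : |φ (wd K l (z - K p))| ≤ a / 4 := by
    have h4 : ‖φ (wd K l (z - K p))‖ ≤ 1 * ‖wd K l (z - K p)‖ := φ.le_of_opNorm_le hφ1 _
    rw [Real.norm_eq_abs, one_mul] at h4
    refine h4.trans ((wd_norm hK l _).trans ?_)
    rw [Metric.mem_ball, dist_comm, dist_eq_norm] at hzp
    exact hzp.le
  rw [h2, map_add] at h1
  have h5 := abs_add_le (φ (wd K l (K p))) (φ (wd K l (z - K p)))
  linarith

end Pool.Agent.H65.BM
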