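import Pool.Agent.H65.BM.S6

set_option autoImplicit false

namespace Pool.Agent.H65.BM

open Filter Topology

/-- finitely many colours for a totally bounded image -/
theorem REFBAux.one {E F : Type} [NormedAddCommGroup E] [NormedAddCommGroup F] (A : E → F)
    (h : TotallyBounded (A '' Metric.closedBall 0 1)) {ε : ℝ} (hε : 0 < ε) :
    ∃ (R : ℕ) (col : E → Fin R), ∀ y y' : E, ‖y‖ ≤ 1 → ‖y'‖ ≤ 1 → col y = col y' →
      ‖A y - A y'‖ ≤ ε := by
  classical
  obtain ⟨t, ht, hcov⟩ := Metric.totallyBounded_iff.1 h (ε / 2) (half_pos hε)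
  let _ : Fintype t := ht.fintype
  let c : E → Option t := fun y =>
    if h : ∃ p : t, ‖A y - p‖ < ε / 2 then some h.choose else none
  have hc : ∀ y, ‖y‖ ≤ 1 → ∃ p : t, c y = some p ∧ ‖A y - p‖ < ε / 2 := by
    intro y hy
    have h1 : A y ∈ A '' Metric.closedBall 0 1 := ⟨y, by rwa [mem_closedBall_zero_iff], rfl⟩
    have h2 := hcov h1
    simp only [Set.mem_iUnion, exists_prop] at h2
    obtain ⟨p, hp, hp2⟩ := h2
    rw [mem_ball_iff_norm] at hp2
    have h3 : ∃ p : t, ‖A y - p‖ < ε / 2 := ⟨⟨p, hp⟩, hp2⟩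
    refine ⟨h3.choose, ?_, h3.choose_spec⟩
    show (if h : ∃ p : t, ‖A y - p‖ < ε / 2 then some h.choose else none) = _
    rw [dif_pos h3]
  refine ⟨Fintype.card (Option t), fun y => Fintype.equivFin (Option t) (c y),
    fun y y' hy hy' hyy => ?_⟩
  have h4 : c y = c y' := (Fintype.equivFin (Option t)).injective hyy
  obtain ⟨p, hp1, hp2⟩ := hc y hy
  obtain ⟨p', hp1', hp2'⟩ := hc y' hy'
  rw [hp1, hp1'] at h4
  have h5 : p = p' := Option.some.inj h4
  subst h5
  have h6 : A y - A y' = (A y - p) - (A y' - p) := by abel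
  rw [h6]
  linarith [norm_sub_le (A y - (p : F)) (A y' - p)]

theorem REFBAux.op {E : Type} [NormedAddCommGroup E] [NormedSpace ℝ E] (K : E →L[ℝ] E)
    (hK : IsCompactOperator K) (l : List (E ≃ₗᵢ[ℝ] E)) :
    ∃ A : E →L[ℝ] E, IsCompactOperator A ∧ ∀ y, y - wd K l y = A y := by
  induction l with
  | nil => exact ⟨0, isCompactOperator_zero, fun y => by simp [wd]⟩
  | cons g l ih =>
    obtain ⟨A, hA, h⟩ := ih
    let G : E →L[ℝ] E := g.toContinuousLinearEquiv.toContinuousLinearMap
    let G' : E →L[ℝ] E := g.symm.toContinuousLinearEquiv.toContinuousLinearMap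
    refine ⟨A + (G.comp K).comp (G'.comp (ContinuousLinearMap.id ℝ E - A)), ?_, fun y => ?_⟩
    · have h1 : IsCompactOperator (G.comp K) := hK.clm_comp G
      have h2 : IsCompactOperator ((G.comp K).comp (G'.comp (ContinuousLinearMap.id ℝ E - A))) :=
        h1.comp_clm _
      exact hA.add h2
    · have h3 : wd K l y = y - A y := by rw [← h y]; abel
      show y - (wd K l y - g (K (g.symm (wd K l y)))) = A y + g (K (g.symm (y - A y)))
      rw [h3]
      abel

theorem refb : S_REFB := by
  classical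
  intro E _ _ _ K hK Λ ε hε
  induction Λ using Finset.induction_on with
  | empty => exact ⟨1, fun _ => 0, fun _ _ _ _ _ l hl => absurd hl (Finset.notMem_empty l)⟩
  | insert l Λ _ ih =>
    obtain ⟨R, col, h⟩ := ih
    obtain ⟨A, hA, h1⟩ := REFBAux.op K hK l
    have h2 : TotallyBounded (A '' Metric.closedBall 0 1) :=
      (hA.isCompact_closure_image_closedBall 1).totallyBounded.subset subset_closure
    obtain ⟨R', col', h3⟩ := REFBAux.one A h2 hε
    refine ⟨R * R', fun y => finProdFinEquiv (col y, col' y), fun y y' hy hy' hyy l' hl' => ?_⟩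
    have h4 := finProdFinEquiv.injective hyy
    have h5 : col y = col y' := (Prod.ext_iff.1 h4).1
    have h6 : col' y = col' y' := (Prod.ext_iff.1 h4).2
    rcases Finset.mem_insert.1 hl' with rfl | hl'
    · rw [h1, h1]
      exact h3 y y' hy hy' h6
    · exact h y y' hy hy' h5 l' hl'

end Pool.Agent.H65.BM
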