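import Pool.Agent.H65.BM.S6

/-! # BM6-REFC: LP and James patterns are incompatible (helper22) -/

set_option autoImplicit false

namespace Pool.Agent.H65.BM

open Pool.Agent.N314.OP Pool.Agent.N314.OP.Mod Filter Topology

namespace REFC

variable {E : Type} [NormedAddCommGroup E] [NormedSpace ℝ E]

theorem wd_norm {K : E →L[ℝ] E} (hK : ∀ y, ‖y - K y‖ ≤ ‖y‖) (l : List (E ≃ₗᵢ[ℝ] E)) (x : E) :
    ‖wd K l x‖ ≤ ‖x‖ := by
  induction l with
  | nil => exact le_rfl
  | cons g l ih =>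
    refine le_trans ?_ ih
    have h1 : wd K (g :: l) x = g (g.symm (wd K l x) - K (g.symm (wd K l x))) := by
      rw [map_sub, g.apply_symm_apply]
      rfl
    rw [h1, g.norm_map]
    refine (hK _).trans ?_
    rw [g.symm.norm_map]

theorem wd_sub (K : E →L[ℝ] E) (l : List (E ≃ₗᵢ[ℝ] E)) (x y : E) :
    wd K l (x - y) = wd K l x - wd K l y := by
  induction l with
  | nil => rfl
  | cons g l ih =>
    show wd K l (x - y) - g (K (g.symm (wd K l (x - y)))) = (wd K l x - g (K (g.symm (wd K l x)))) -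
      (wd K l y - g (K (g.symm (wd K l y))))
    rw [ih, map_sub, map_sub, map_sub]
    abel

theorem wd_last (K : E →L[ℝ] E) (l : List (E ≃ₗᵢ[ℝ] E)) (x : E) :
    wd K (l ++ [LinearIsometryEquiv.refl ℝ E]) x = wd K l (x - K x) := by
  induction l with
  | nil => rfl
  | cons g l ih =>
    show wd K (l ++ [LinearIsometryEquiv.refl ℝ E]) x -
      g (K (g.symm (wd K (l ++ [LinearIsometryEquiv.refl ℝ E]) x))) = _
    rw [ih]
    rfl

theorem unit {y : E} (hy : y ≠ 0) : ‖‖y‖⁻¹ • y‖ = 1 := by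
  rw [norm_smul, norm_inv, norm_norm, inv_mul_cancel₀ (norm_ne_zero_iff.2 hy)]

/-- the number of `+1` minus the number of `-1` -/
theorem sum_sign (n k : ℕ) (hk : k ≤ n) :
    ∑ i : Fin n, (if (i : ℕ) < k then (1 : ℝ) else -1) = 2 * k - n := by
  rw [Fin.sum_univ_eq_sum_range (fun i => if i < k then (1 : ℝ) else -1) n]
  have h1 : ∀ i ∈ Finset.range n, (if i < k then (1 : ℝ) else -1) =
      2 * (if i < k then (1 : ℝ) else 0) - 1 := by
    intro i _
    split_ifs <;> norm_num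
  rw [Finset.sum_congr rfl h1, Finset.sum_sub_distrib, ← Finset.mul_sum, ← Finset.sum_filter]
  have h2 : (Finset.range n).filter (fun i => i < k) = Finset.range k := by
    ext i
    simp only [Finset.mem_filter, Finset.mem_range]
    omega
  rw [h2]
  simp

/-- the norming functional of a pattern -/
theorem pattern {n k : ℕ} (hk : k ≤ n) (p : Fin n → E) (hp : ∀ i, ‖p i‖ ≤ 1) {δ : ℝ} (hδ : 0 ≤ δ)
    (h : (n : ℝ) - δ ≤ ‖∑ i : Fin n, if (i : ℕ) < k then p i else - p i‖) :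
    ∃ f : StrongDual ℝ E, ‖f‖ ≤ 1 ∧ (∀ i : Fin n, (i : ℕ) < k → 1 - δ ≤ f (p i)) ∧
      (∀ i : Fin n, k ≤ (i : ℕ) → f (p i) ≤ -(1 - δ)) ∧
      |2 * (k : ℝ) - n| - n * δ ≤ |∑ i, f (p i)| := by
  obtain ⟨f, hf1, hf2⟩ := exists_dual_vector'' ℝ (∑ i : Fin n, if (i : ℕ) < k then p i else - p i)
  have hle : ∀ i, |f (p i)| ≤ 1 := by
    intro i
    have h1 := f.le_opNorm (p i)
    rw [Real.norm_eq_abs] at h1
    refine h1.trans ?_
    calc ‖f‖ * ‖p i‖ ≤ 1 * 1 := mul_le_mul hf1 (hp i) (norm_nonneg _) zero_le_one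
      _ = 1 := one_mul 1
  set u : Fin n → ℝ := fun i => if (i : ℕ) < k then f (p i) else - f (p i) with hu
  have hu1 : ∀ i, u i ≤ 1 := by
    intro i
    have := abs_le.1 (hle i)
    simp only [hu]
    split_ifs <;> linarith [this.1, this.2]
  have hsum : (n : ℝ) - δ ≤ ∑ i, u i := by
    have h1 : f (∑ i : Fin n, if (i : ℕ) < k then p i else - p i) = ∑ i, u i := by
      rw [map_sum]
      refine Finset.sum_congr rfl fun i _ => ?_
      simp only [hu]
      split_ifs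
      · rfl
      · rw [map_neg]
    rw [← h1, hf2]
    exact h
  have hlow : ∀ i, 1 - δ ≤ u i := by
    intro i
    have h1 : ∑ j ∈ Finset.univ.erase i, u j ≤ ∑ j ∈ Finset.univ.erase i, (1 : ℝ) :=
      Finset.sum_le_sum fun j _ => hu1 j
    rw [Finset.sum_const, Finset.card_erase_of_mem (Finset.mem_univ i), Finset.card_univ,
      Fintype.card_fin, nsmul_eq_mul, mul_one] at h1
    have h2 := Finset.add_sum_erase Finset.univ u (Finset.mem_univ i)
    have hn : 1 ≤ n := by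
      have := i.2
      omega
    rw [Nat.cast_sub hn, Nat.cast_one] at h1
    linarith
  refine ⟨f, hf1, ?_, ?_, ?_⟩
  · intro i hi
    have := hlow i
    simp only [hu, if_pos hi] at this
    exact this
  · intro i hi
    have := hlow i
    simp only [hu, if_neg (not_lt.2 hi)] at this
    linarith
  · have h1 : ∀ i, |f (p i) - (if (i : ℕ) < k then (1 : ℝ) else -1)| ≤ δ := by
      intro i
      have h2 := hlow i
      have h3 := abs_le.1 (hle i)
      by_cases hi : (i : ℕ) < k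
      · simp only [hu, if_pos hi] at h2 ⊢
        rw [abs_le]
        constructor <;> linarith [h3.2]
      · simp only [hu, if_neg hi] at h2 ⊢
        rw [abs_le]
        constructor <;> linarith [h3.1]
    have h2 : |∑ i, f (p i) - (2 * (k : ℝ) - n)| ≤ n * δ := by
      rw [← sum_sign n k hk, ← Finset.sum_sub_distrib]
      refine (Finset.abs_sum_le_sum_abs _ _).trans ?_
      refine (Finset.sum_le_sum fun i _ => h1 i).trans ?_
      rw [Finset.sum_const, Finset.card_univ, Fintype.card_fin, nsmul_eq_mul]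
    have h3 : |2 * (k : ℝ) - n| - |∑ i, f (p i)| ≤ |(2 * (k : ℝ) - n) - ∑ i, f (p i)| :=
      abs_sub_abs_le_abs_sub _ _
    rw [abs_sub_comm (2 * (k : ℝ) - n) (∑ i, f (p i))] at h3
    linarith

/-- few indices in the middle -/
theorem middle (n : ℕ) {A : ℝ} (hA : 0 ≤ A) :
    ((Finset.univ.filter (fun m : Fin n => |2 * ((m : ℕ) : ℝ) - n| < A)).card : ℝ) ≤ A + 1 := by
  have hn : (0 : ℝ) ≤ n := Nat.cast_nonneg n
  have h1 : (Finset.univ.filter (fun m : Fin n => |2 * ((m : ℕ) : ℝ) - n| < A)).card ≤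
      (Finset.Icc ⌈((n : ℝ) - A) / 2⌉₊ ⌊((n : ℝ) + A) / 2⌋₊).card := by
    refine Finset.card_le_card_of_injOn (fun m : Fin n => (m : ℕ)) ?_ ?_
    · intro m hm
      rw [Finset.mem_coe, Finset.mem_filter] at hm
      rw [Finset.mem_coe, Finset.mem_Icc]
      have h2 := abs_lt.1 hm.2
      exact ⟨Nat.ceil_le.2 (by linarith [h2.1]), Nat.le_floor (by linarith [h2.2])⟩
    · intro a _ b _ h
      exact Fin.ext h
  rw [Nat.card_Icc] at h1
  have h2 : ((n : ℝ) - A) / 2 ≤ (⌈((n : ℝ) - A) / 2⌉₊ : ℝ) := Nat.le_ceil _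
  have h3 : (⌊((n : ℝ) + A) / 2⌋₊ : ℝ) ≤ ((n : ℝ) + A) / 2 := Nat.floor_le (by positivity)
  set a := ⌈((n : ℝ) - A) / 2⌉₊
  set b := ⌊((n : ℝ) + A) / 2⌋₊
  have h4 : ((Finset.univ.filter (fun m : Fin n => |2 * ((m : ℕ) : ℝ) - n| < A)).card : ℝ) ≤
      ((b + 1 - a : ℕ) : ℝ) := by exact_mod_cast h1
  refine h4.trans ?_
  rcases le_total a (b + 1) with h5 | h5
  · rw [Nat.cast_sub h5]
    push_cast
    linarith
  · rw [Nat.sub_eq_zero_of_le h5, Nat.cast_zero]
    linarith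

/-- one good index -/
theorem good {K : E →L[ℝ] E} (hK : ∀ y, ‖y - K y‖ ≤ ‖y‖) {n : ℕ} (p : Fin n → E)
    (hp : ∀ i, ‖p i‖ ≤ 1) {δ ε : ℝ} {k : ℕ} (f : StrongDual ℝ E)
    (hf1 : ‖f‖ ≤ 1) (hf2 : ∀ i : Fin n, (i : ℕ) < k → 1 - δ ≤ f (p i))
    (hf3 : ∀ i : Fin n, k ≤ (i : ℕ) → f (p i) ≤ -(1 - δ)) (l : List (E ≃ₗᵢ[ℝ] E)) (m i j : Fin n)
    (hi : (i : ℕ) < k) (hj : k ≤ (j : ℕ)) (h1 : ‖(p m - wd K l (p m)) - (p i - wd K l (p i))‖ ≤ ε)
    (h2 : ‖(p m - wd K l (p m)) - (p j - wd K l (p j))‖ ≤ ε) :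
    |f (p m - wd K l (p m))| ≤ δ + ε := by
  have hb : ∀ y : E, |f y| ≤ ‖y‖ := by
    intro y
    have h3 := f.le_opNorm y
    rw [Real.norm_eq_abs] at h3
    refine h3.trans ?_
    calc ‖f‖ * ‖y‖ ≤ 1 * ‖y‖ := mul_le_mul_of_nonneg_right hf1 (norm_nonneg _)
      _ = ‖y‖ := one_mul _
  have hw : ∀ q : Fin n, |f (wd K l (p q))| ≤ 1 := fun q =>
    (hb _).trans ((wd_norm hK l _).trans (hp q))
  have a1 : -δ ≤ f (p i - wd K l (p i)) := by
    rw [map_sub]
    have := (abs_le.1 (hw i)).2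
    linarith [hf2 i hi]
  have a2 : f (p j - wd K l (p j)) ≤ δ := by
    rw [map_sub]
    have := (abs_le.1 (hw j)).1
    linarith [hf3 j hj]
  have b1 := (hb _).trans h1
  have b2 := (hb _).trans h2
  rw [map_sub] at b1 b2
  rw [abs_le] at b1 b2 ⊢
  constructor
  · linarith [b1.1]
  · linarith [b2.2]

end REFC

open REFC in
theorem refc : S_REFC := by
  intro hREFA hREFB E _ _ _ K hAT hcomp hK hLP hJ
  classical
  by_contra hK0
  -- a unit vector with `K x₀ ≠ 0`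
  obtain ⟨x₀, hx₀, hKx₀⟩ : ∃ x₀ : E, ‖x₀‖ = 1 ∧ K x₀ ≠ 0 := by
    obtain ⟨y, hy⟩ : ∃ y, K y ≠ 0 := by
      by_contra hcon
      push Not at hcon
      exact hK0 (ContinuousLinearMap.ext hcon)
    have hy0 : y ≠ 0 := by
      rintro rfl
      exact hy (map_zero K)
    refine ⟨‖y‖⁻¹ • y, unit hy0, ?_⟩
    rw [map_smul]
    exact smul_ne_zero (inv_ne_zero (norm_ne_zero_iff.2 hy0)) hy
  set a : ℝ := ‖K x₀‖ with ha
  have ha0 : 0 < a := norm_pos_iff.2 hKx₀
  set B : ℝ := ‖K‖ with hB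
  have haB : a ≤ B := by
    have := K.le_opNorm x₀
    rw [hx₀, mul_one] at this
    exact this
  have hB0 : 0 < B := lt_of_lt_of_le ha0 haB
  set κ : ℝ := a / 4 with hκ
  set θ : ℝ := a / (8 * (B + 1)) with hθ
  have hθ0 : 0 < θ := by positivity
  have hBθ : B * θ ≤ a / 8 := by
    have e1 : B * θ = a / 8 * (B / (B + 1)) := by
      rw [hθ]
      field_simp
    rw [e1]
    have e2 : B / (B + 1) ≤ 1 := by
      rw [div_le_one (by positivity)]
      linarith
    calc a / 8 * (B / (B + 1)) ≤ a / 8 * 1 := by gcongr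
      _ = a / 8 := mul_one _
  obtain ⟨c, Λ, hc, hΛ⟩ := hREFA E K hcomp hK hLP x₀ κ θ (by positivity) hθ0 hx₀
  set δ : ℝ := min (c / 8) (a / (40 * (B + 1))) with hδ
  have hδ0 : 0 < δ := lt_min (by positivity) (by positivity)
  have hδ1 : δ ≤ c / 8 := min_le_left _ _
  have hδ2 : δ ≤ a / (40 * (B + 1)) := min_le_right _ _
  have hBδ : 5 * (B * δ) ≤ a / 8 := by
    have e1 : B * (a / (40 * (B + 1))) = a / 40 * (B / (B + 1)) := by
      field_simp
    have e2 : B / (B + 1) ≤ 1 := by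
      rw [div_le_one (by positivity)]
      linarith
    have e3 : B * δ ≤ a / 40 := by
      calc B * δ ≤ B * (a / (40 * (B + 1))) := by gcongr
        _ = a / 40 * (B / (B + 1)) := e1
        _ ≤ a / 40 * 1 := by gcongr
        _ = a / 40 := mul_one _
    linarith
  have hδ3 : δ < 1 := by
    refine lt_of_le_of_lt hδ2 ?_
    rw [div_lt_one (by positivity)]
    linarith
  set Λ' : Finset (List (E ≃ₗᵢ[ℝ] E)) := Λ ∪ Λ.image (fun l => l ++ [LinearIsometryEquiv.refl ℝ E])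
    with hΛ'
  obtain ⟨R, col, hcol⟩ := hREFB E K hcomp Λ' (c / 8) (by positivity)
  -- the number `n`
  obtain ⟨n, hn⟩ := exists_nat_gt (max 1 (B * (R + 3) * 8 / a))
  have hn1 : (1 : ℝ) < n := lt_of_le_of_lt (le_max_left _ _) hn
  have hn0 : (0 : ℝ) < n := by linarith
  have hnR : B * (R + 3) ≤ a / 8 * n := by
    have := lt_of_le_of_lt (le_max_right (1 : ℝ) (B * (R + 3) * 8 / a)) hn
    rw [div_lt_iff₀ ha0] at this
    linarith
  obtain ⟨z, hz1, hz2⟩ := hJ n δ hδ0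
  -- the mean of the vectors
  set s : E := ∑ i : Fin n, z i with hs
  have hs1 : (n : ℝ) - δ ≤ ‖s‖ := by
    have h1 := hz2 n le_rfl
    have h2 : (∑ i : Fin n, if (i : ℕ) < n then z i else - z i) = s := by
      rw [hs]
      refine Finset.sum_congr rfl fun i _ => ?_
      rw [if_pos i.2]
    rw [h2] at h1
    exact h1
  have hs2 : ‖s‖ ≤ n := by
    refine (norm_sum_le _ _).trans ((Finset.sum_le_sum fun i _ => hz1 i).trans ?_)
    rw [Finset.sum_const, Finset.card_univ, Fintype.card_fin, nsmul_eq_mul, mul_one]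
  have hs0 : 0 < ‖s‖ := by linarith
  obtain ⟨g, hg⟩ := hAT (‖s‖⁻¹ • s) x₀ (unit (norm_pos_iff.1 hs0)) hx₀ δ hδ0
  set p : Fin n → E := fun i => g (z i) with hp
  have hp1 : ∀ i, ‖p i‖ ≤ 1 := fun i => by
    simp only [hp]
    rw [g.norm_map]
    exact hz1 i
  set x₁ : E := (n : ℝ)⁻¹ • ∑ i, p i with hx₁
  have hgs : ∑ i, p i = g s := by
    rw [hs, map_sum]
  have hx01 : ‖x₀ - x₁‖ ≤ 2 * δ := by
    have e1 : x₀ - x₁ = (x₀ - g (‖s‖⁻¹ • s)) + (‖s‖⁻¹ - (n : ℝ)⁻¹) • g s := by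
      rw [hx₁, hgs, map_smul, sub_smul]
      abel
    rw [e1]
    refine (norm_add_le _ _).trans ?_
    have e2 : ‖x₀ - g (‖s‖⁻¹ • s)‖ ≤ δ := by
      rw [norm_sub_rev]
      exact hg.le
    have e3 : ‖(‖s‖⁻¹ - (n : ℝ)⁻¹) • g s‖ ≤ δ := by
      have e4 : 0 ≤ ‖s‖⁻¹ - (n : ℝ)⁻¹ := by
        rw [sub_nonneg]
        exact inv_anti₀ hs0 hs2
      rw [norm_smul, g.norm_map, Real.norm_eq_abs, abs_of_nonneg e4, sub_mul,
        inv_mul_cancel₀ hs0.ne']
      have e5 : (n : ℝ)⁻¹ * ((n : ℝ) - δ) ≤ (n : ℝ)⁻¹ * ‖s‖ := by gcongr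
      rw [mul_sub, inv_mul_cancel₀ hn0.ne'] at e5
      have e6 : (n : ℝ)⁻¹ * δ ≤ δ := by
        have : (n : ℝ)⁻¹ ≤ 1 := inv_le_one_of_one_le₀ hn1.le
        calc (n : ℝ)⁻¹ * δ ≤ 1 * δ := by gcongr
          _ = δ := one_mul _
      linarith
    linarith
  -- the norming functionals
  have hpat : ∀ k : ℕ, k ≤ n → ∃ f : StrongDual ℝ E, ‖f‖ ≤ 1 ∧
      (∀ i : Fin n, (i : ℕ) < k → 1 - δ ≤ f (p i)) ∧
      (∀ i : Fin n, k ≤ (i : ℕ) → f (p i) ≤ -(1 - δ)) ∧
      |2 * (k : ℝ) - n| - n * δ ≤ |∑ i, f (p i)| := by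
    intro k hk
    refine pattern hk p hp1 hδ0.le ?_
    have h1 := hz2 k hk
    have h2 : (∑ i : Fin n, if (i : ℕ) < k then p i else - p i) =
        g (∑ i : Fin n, if (i : ℕ) < k then z i else - z i) := by
      rw [map_sum]
      refine Finset.sum_congr rfl fun i _ => ?_
      split_ifs
      · rfl
      · rw [map_neg]
    rw [h2, g.norm_map]
    exact h1
  -- the good indices
  set A : ℝ := (θ + 3 * δ) * n + 2 with hA
  have hA0 : 0 ≤ A := by positivity
  have hgood : ∀ m : Fin n, (∃ m' : Fin n, m' ≠ m ∧ col (p m') = col (p m)) →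
      A ≤ |2 * ((m : ℕ) : ℝ) - n| → ‖K (p m)‖ < κ := by
    rintro m ⟨m', hne, hcm⟩ hmA
    by_contra hcon
    push Not at hcon
    -- `k`, `i`, `j`
    obtain ⟨k, i, j, hkn, hi, hj, hci, hcj, hkm⟩ : ∃ (k : ℕ) (i j : Fin n), k ≤ n ∧ (i : ℕ) < k ∧
        k ≤ (j : ℕ) ∧ col (p i) = col (p m) ∧ col (p j) = col (p m) ∧
        |2 * (k : ℝ) - 2 * ((m : ℕ) : ℝ)| ≤ 2 := by
      rcases lt_or_gt_of_ne hne with h | h
      · refine ⟨m, m', m, m.2.le, h, le_rfl, hcm, rfl, ?_⟩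
        rw [sub_self, abs_zero]
        norm_num
      · refine ⟨(m : ℕ) + 1, m, m', ?_, by omega, h, rfl, hcm, ?_⟩
        · have := m'.2
          have h' : (m : ℕ) < (m' : ℕ) := h
          omega
        · push_cast
          rw [show 2 * (((m : ℕ) : ℝ) + 1) - 2 * ((m : ℕ) : ℝ) = 2 by ring]
          norm_num
    obtain ⟨f, hf1, hf2, hf3, hf4⟩ := hpat k hkn
    have hb : ∀ y : E, |f y| ≤ ‖y‖ := by
      intro y
      have h3 := f.le_opNorm y
      rw [Real.norm_eq_abs] at h3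
      refine h3.trans ?_
      calc ‖f‖ * ‖y‖ ≤ 1 * ‖y‖ := mul_le_mul_of_nonneg_right hf1 (norm_nonneg _)
        _ = ‖y‖ := one_mul _
    -- `|f x₀| ≥ θ`
    have hfx : θ ≤ |f x₀| := by
      have h1 : |f x₁| = (n : ℝ)⁻¹ * |∑ i, f (p i)| := by
        rw [hx₁, map_smul, map_sum, smul_eq_mul, abs_mul, abs_of_pos (by positivity)]
      have h2 : (θ + 2 * δ) * n ≤ |∑ i, f (p i)| := by
        have h3 : |2 * ((m : ℕ) : ℝ) - n| ≤ |2 * (k : ℝ) - n| + 2 := by
          have h5 : 2 * ((m : ℕ) : ℝ) - n = (2 * (k : ℝ) - n) - (2 * (k : ℝ) - 2 * ((m : ℕ) : ℝ)) := by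
            ring
          rw [h5]
          refine (abs_sub _ _).trans ?_
          linarith
        have h6 : A = (θ + 3 * δ) * n + 2 := hA
        nlinarith
      have h3 : θ + 2 * δ ≤ |f x₁| := by
        rw [h1, ← div_eq_inv_mul, le_div_iff₀ hn0]
        exact h2
      have h4 : |f x₁| - |f x₀| ≤ ‖x₀ - x₁‖ := by
        refine (abs_sub_abs_le_abs_sub _ _).trans ?_
        rw [← map_sub]
        refine (hb _).trans ?_
        rw [norm_sub_rev]
      linarith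
    obtain ⟨l, hl, hcl⟩ := hΛ (p m) f (hp1 m) hcon hf1 hfx
    have hlΛ : l ∈ Λ' := Finset.mem_union_left _ hl
    have hlΛ2 : l ++ [LinearIsometryEquiv.refl ℝ E] ∈ Λ' :=
      Finset.mem_union_right _ (Finset.mem_image_of_mem _ hl)
    have g1 := good hK p hp1 (ε := c / 8) f hf1 hf2 hf3 l m i j hi hj
      (hcol _ _ (hp1 m) (hp1 i) hci.symm l hlΛ) (hcol _ _ (hp1 m) (hp1 j) hcj.symm l hlΛ)
    have g2 := good hK p hp1 (ε := c / 8) f hf1 hf2 hf3
      (l ++ [LinearIsometryEquiv.refl ℝ E]) m i j hi hj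
      (hcol _ _ (hp1 m) (hp1 i) hci.symm _ hlΛ2) (hcol _ _ (hp1 m) (hp1 j) hcj.symm _ hlΛ2)
    have e1 : wd K l (K (p m)) = (p m - wd K (l ++ [LinearIsometryEquiv.refl ℝ E]) (p m)) -
        (p m - wd K l (p m)) := by
      rw [wd_last, wd_sub]
      abel
    rw [e1, map_sub] at hcl
    have e2 := (abs_sub (f (p m - wd K (l ++ [LinearIsometryEquiv.refl ℝ E]) (p m)))
      (f (p m - wd K l (p m))))
    linarith
  -- the bad indices
  set B1 : Finset (Fin n) := Finset.univ.filter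
    (fun m : Fin n => ∀ m' : Fin n, m' ≠ m → col (p m') ≠ col (p m)) with hB1
  set B2 : Finset (Fin n) := Finset.univ.filter (fun m : Fin n => |2 * ((m : ℕ) : ℝ) - n| < A) with hB2
  have hB1c : (B1.card : ℝ) ≤ R := by
    have : B1.card ≤ (Finset.univ : Finset (Fin R)).card := by
      refine Finset.card_le_card_of_injOn (fun m => col (p m)) (fun _ _ => by simp) ?_
      intro u hu v hv huv
      by_contra hne
      rw [Finset.mem_coe, hB1, Finset.mem_filter] at hv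
      exact hv.2 u hne huv
    rw [Finset.card_univ, Fintype.card_fin] at this
    exact_mod_cast this
  have hB2c : (B2.card : ℝ) ≤ A + 1 := middle n hA0
  have hKp : ∀ m, ‖K (p m)‖ ≤ B := by
    intro m
    refine (K.le_opNorm _).trans ?_
    calc ‖K‖ * ‖p m‖ ≤ B * 1 := mul_le_mul le_rfl (hp1 m) (norm_nonneg _) hB0.le
      _ = B := mul_one _
  have hterm : ∀ m : Fin n, ‖K (p m)‖ ≤ κ + (if m ∈ B1 then B else 0) + (if m ∈ B2 then B else 0) := by
    intro m
    have hκ0 : 0 ≤ κ := by positivity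
    by_cases h1 : m ∈ B1
    · rw [if_pos h1]
      have : (0 : ℝ) ≤ if m ∈ B2 then B else 0 := by split_ifs <;> linarith
      linarith [hKp m]
    · by_cases h2 : m ∈ B2
      · rw [if_neg h1, if_pos h2]
        linarith [hKp m]
      · rw [if_neg h1, if_neg h2]
        have h3 : ∃ m' : Fin n, m' ≠ m ∧ col (p m') = col (p m) := by
          by_contra hcon
          push Not at hcon
          exact h1 (Finset.mem_filter.2 ⟨Finset.mem_univ _, hcon⟩)
        have h4 : A ≤ |2 * ((m : ℕ) : ℝ) - n| := by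
          by_contra hcon
          push Not at hcon
          exact h2 (Finset.mem_filter.2 ⟨Finset.mem_univ _, hcon⟩)
        linarith [hgood m h3 h4]
  have hsumK : ∑ m, ‖K (p m)‖ ≤ n * κ + R * B + (A + 1) * B := by
    refine (Finset.sum_le_sum fun m _ => hterm m).trans ?_
    rw [Finset.sum_add_distrib, Finset.sum_add_distrib, Finset.sum_const, Finset.card_univ,
      Fintype.card_fin, nsmul_eq_mul, Finset.sum_ite_mem, Finset.sum_ite_mem, Finset.univ_inter,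
      Finset.univ_inter, Finset.sum_const, Finset.sum_const, nsmul_eq_mul, nsmul_eq_mul]
    have e1 : (B1.card : ℝ) * B ≤ R * B := by gcongr
    have e2 : (B2.card : ℝ) * B ≤ (A + 1) * B := by gcongr
    linarith
  have hKx1 : (n : ℝ) * ‖K x₁‖ ≤ ∑ m, ‖K (p m)‖ := by
    have e1 : K x₁ = (n : ℝ)⁻¹ • ∑ m, K (p m) := by
      rw [hx₁, map_smul, map_sum]
    rw [e1, norm_smul, norm_inv, Real.norm_eq_abs, abs_of_pos hn0, ← mul_assoc,
      mul_inv_cancel₀ hn0.ne', one_mul]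
    exact norm_sum_le _ _
  have hKx0 : a ≤ ‖K x₁‖ + B * (2 * δ) := by
    have e1 : K x₀ = K x₁ + K (x₀ - x₁) := by
      rw [← map_add]
      congr 1
      abel
    rw [ha, e1]
    refine (norm_add_le _ _).trans ?_
    have e2 : ‖K (x₀ - x₁)‖ ≤ B * (2 * δ) :=
      (K.le_opNorm _).trans (mul_le_mul le_rfl hx01 (norm_nonneg _) hB0.le)
    linarith
  have hfin : (n : ℝ) * a ≤ n * κ + R * B + (A + 1) * B + n * (B * (2 * δ)) := by
    have e1 : (n : ℝ) * a ≤ n * (‖K x₁‖ + B * (2 * δ)) := mul_le_mul_of_nonneg_left hKx0 hn0.le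
    linarith
  have e1 : (n : ℝ) * κ + R * B + (A + 1) * B + n * (B * (2 * δ)) =
      n * κ + B * (R + 3) + n * (B * θ) + n * (5 * (B * δ)) := by
    rw [hA]
    ring
  rw [e1] at hfin
  have e2 : (n : ℝ) * (B * θ) ≤ n * (a / 8) := mul_le_mul_of_nonneg_left hBθ hn0.le
  have e3 : (n : ℝ) * (5 * (B * δ)) ≤ n * (a / 8) := mul_le_mul_of_nonneg_left hBδ hn0.le
  have e4 : 0 < (n : ℝ) * a := by positivity
  rw [hκ] at hfin
  linarith

end Pool.Agent.H65.BM
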