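import Pool.Agent.H65.BM.S4

/-!
# S_RIESZ (helper73): the Riesz projection of a compact operator
-/

set_option autoImplicit false

namespace Pool.Agent.H65.BM.RZ

open Filter Topology

variable {Y : Type} [NormedAddCommGroup Y] [NormedSpace ℝ Y]

/-- `(1 - B) ^ n = 1 - C` with `C` compact -/
lemma powc (B : Y →L[ℝ] Y) (hB : IsCompactOperator B) (n : ℕ) :
    ∃ C : Y →L[ℝ] Y, IsCompactOperator C ∧ (1 - B) ^ n = 1 - C := by
  induction n with
  | zero => exact ⟨0, isCompactOperator_zero, by simp⟩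
  | succ n ih =>
    obtain ⟨C, hC, h⟩ := ih
    refine ⟨B + C - C * B, ?_, ?_⟩
    · have h1 : IsCompactOperator (C * B : Y →L[ℝ] Y) := hC.comp_clm B
      exact (hB.add hC).sub h1
    · rw [pow_succ, h]
      noncomm_ring

lemma finker (B : Y →L[ℝ] Y) (hB : IsCompactOperator B) (n : ℕ) :
    FiniteDimensional ℝ (LinearMap.ker (((1 - B) ^ n : Y →L[ℝ] Y) : Y →ₗ[ℝ] Y)) := by
  obtain ⟨C, hC, h⟩ := powc B hB n
  have hcl : IsClosed (LinearMap.ker (((1 - B) ^ n : Y →L[ℝ] Y) : Y →ₗ[ℝ] Y) : Set Y) :=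
    ContinuousLinearMap.isClosed_ker _
  have hid : ∀ v ∈ LinearMap.ker (((1 - B) ^ n : Y →L[ℝ] Y) : Y →ₗ[ℝ] Y), (C : Y →ₗ[ℝ] Y) v = v := by
    intro v hv
    rw [LinearMap.mem_ker, h] at hv
    have h1 : v - C v = 0 := by simpa using hv
    exact (sub_eq_zero.1 h1).symm
  have hV : ∀ v ∈ LinearMap.ker (((1 - B) ^ n : Y →L[ℝ] Y) : Y →ₗ[ℝ] Y), (C : Y →ₗ[ℝ] Y) v ∈
      LinearMap.ker (((1 - B) ^ n : Y →L[ℝ] Y) : Y →ₗ[ℝ] Y) := fun v hv => by rw [hid v hv]; exact hv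
  have h2 : IsCompactOperator ((C : Y →ₗ[ℝ] Y).restrict hV) :=
    IsCompactOperator.restrict (f := (C : Y →ₗ[ℝ] Y)) hC hV hcl
  apply FiniteDimensional.of_isCompactOperator_id (𝕜 := ℝ)
  have h3 : (((C : Y →ₗ[ℝ] Y).restrict hV :
      LinearMap.ker (((1 - B) ^ n : Y →L[ℝ] Y) : Y →ₗ[ℝ] Y) → _)) = id := by
    funext v
    exact Subtype.ext (hid v v.2)
  rw [h3] at h2
  exact h2

lemma proj (N : Submodule ℝ Y) [FiniteDimensional ℝ N] :
    ∃ P₀ : Y →L[ℝ] Y, IsCompactOperator P₀ ∧ (∀ x, P₀ x ∈ N) ∧ ∀ x ∈ N, P₀ x = x := by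
  obtain ⟨f, hf⟩ := Submodule.ClosedComplemented.of_finiteDimensional N
  refine ⟨N.subtypeL.comp f, ?_, fun x => (f x).2, fun x hx => congrArg Subtype.val (hf ⟨x, hx⟩)⟩
  have : ProperSpace N := FiniteDimensional.proper ℝ N
  have h0 : LocallyCompactSpace N := inferInstance
  have h1 : IsCompactOperator f := isCompactOperator_of_locallyCompactSpace_dom f
  exact h1.clm_comp N.subtypeL

lemma stab (B : Y →L[ℝ] Y) (hB : IsCompactOperator B) :
    ∃ n : ℕ, ∀ x, ((1 - B) ^ (n + 1)) x = 0 → ((1 - B) ^ n) x = 0 := by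
  by_contra hcon
  push Not at hcon
  have hstep : ∀ n : ℕ, ∃ x : Y, ((1 - B) ^ (n + 1)) x = 0 ∧ ‖x‖ ≤ 2 ∧
      ∀ y, ((1 - B) ^ n) y = 0 → 1 ≤ ‖x - y‖ := by
    intro n
    obtain ⟨x, h1, h2⟩ := hcon n
    let V : Submodule ℝ Y := LinearMap.ker (((1 - B) ^ n : Y →L[ℝ] Y) : Y →ₗ[ℝ] Y)
    let W : Submodule ℝ Y := LinearMap.ker (((1 - B) ^ (n + 1) : Y →L[ℝ] Y) : Y →ₗ[ℝ] Y)
    have hcl : IsClosed ((V.comap W.subtype : Submodule ℝ W) : Set W) :=
      (ContinuousLinearMap.isClosed_ker ((1 - B) ^ n : Y →L[ℝ] Y)).preimage continuous_subtype_val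
    have hne : ∃ x : W, x ∉ V.comap W.subtype := ⟨⟨x, h1⟩, h2⟩
    obtain ⟨⟨z, hz⟩, hz1, hz2⟩ := riesz_lemma_of_norm_lt (c := (3 / 2 : ℝ)) (R := 2) (by norm_num)
      (by norm_num) hcl hne
    refine ⟨z, hz, hz1, fun y hy => ?_⟩
    have hyW : y ∈ W := by
      change ((1 - B) ^ (n + 1)) y = 0
      rw [pow_succ', ContinuousLinearMap.mul_apply, hy, map_zero]
    exact hz2 ⟨y, hyW⟩ hy
  choose x hx1 hx2 hx3 using hstep
  -- kernels increase
  have hmono : ∀ m n : ℕ, m ≤ n → ∀ y, ((1 - B) ^ m) y = 0 → ((1 - B) ^ n) y = 0 := by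
    intro m n hmn y hy
    obtain ⟨k, rfl⟩ := Nat.exists_eq_add_of_le hmn
    rw [add_comm, pow_add, ContinuousLinearMap.mul_apply, hy, map_zero]
  have hfar : ∀ m n : ℕ, m < n → 1 ≤ ‖B (x n) - B (x m)‖ := by
    intro m n hmn
    have e : B (x n) - B (x m) = x n - ((1 - B) (x n) + x m - (1 - B) (x m)) := by
      simp only [ContinuousLinearMap.sub_apply, ContinuousLinearMap.one_apply]
      abel
    rw [e]
    apply hx3 n
    have a1 : ((1 - B) ^ n) ((1 - B) (x n)) = 0 := by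
      rw [← ContinuousLinearMap.mul_apply, ← pow_succ]
      exact hx1 n
    have a2 : ((1 - B) ^ n) (x m) = 0 := hmono (m + 1) n hmn _ (hx1 m)
    have a3 : ((1 - B) ^ n) ((1 - B) (x m)) = 0 := by
      rw [← ContinuousLinearMap.mul_apply, ← pow_succ]
      exact hmono (m + 1) (n + 1) (by omega) _ (hx1 m)
    rw [map_sub, map_add, a1, a2, a3]
    simp
  obtain ⟨K, hK, hK'⟩ := hB.image_closedBall_subset_compact 2
  obtain ⟨y, hyK, ψ, hψ, hψy⟩ := hK.tendsto_subseq (x := fun n => B (x n))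
    (fun n ↦ hK' ⟨x n, by simp [hx2 n], rfl⟩)
  have hc := hψy.cauchySeq
  rw [Metric.cauchySeq_iff'] at hc
  obtain ⟨N, hN⟩ := hc 1 one_pos
  have h1 := hN (N + 1) (by omega)
  simp only [Function.comp_apply, dist_eq_norm] at h1
  exact absurd h1 (not_lt.2 (hfar _ _ (hψ (Nat.lt_succ_self N))))

lemma stab' (B : Y →L[ℝ] Y) (hB : IsCompactOperator B) :
    ∃ n : ℕ, 1 ≤ n ∧ ∀ x, ((1 - B) ^ n) (((1 - B) ^ n) x) = 0 → ((1 - B) ^ n) x = 0 := by
  obtain ⟨n, hn⟩ := stab B hB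
  have h : ∀ k : ℕ, ∀ x, ((1 - B) ^ (n + k)) x = 0 → ((1 - B) ^ n) x = 0 := by
    intro k
    induction k with
    | zero => intro x hx; exact hx
    | succ k ih =>
      intro x hx
      apply ih
      have e : (1 - B) ^ (n + (k + 1)) = (1 - B) ^ (n + 1) * (1 - B) ^ k := by
        rw [← pow_add]; congr 1; omega
      rw [e, ContinuousLinearMap.mul_apply] at hx
      rw [pow_add, ContinuousLinearMap.mul_apply]
      exact hn _ hx
  refine ⟨n + 1, by omega, fun x hx => ?_⟩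
  rw [← ContinuousLinearMap.mul_apply, ← pow_add] at hx
  have h1 := h (n + 2) x (by convert hx using 3; omega)
  rw [pow_succ', ContinuousLinearMap.mul_apply, h1, map_zero]

/-- the decomposition -/
lemma dec [CompleteSpace Y] (B : Y →L[ℝ] Y) (hB : IsCompactOperator B) (n : ℕ)
    (h : ∀ x, ((1 - B) ^ n) (((1 - B) ^ n) x) = 0 → ((1 - B) ^ n) x = 0) :
    ∃ P : Y →L[ℝ] Y, (∀ x, ((1 - B) ^ n) (P x) = 0) ∧ (∀ x, ((1 - B) ^ n) x = 0 → P x = x) ∧
      ∀ x, ∃ w, x = ((1 - B) ^ n) w + P x := by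
  haveI := finker B hB n
  obtain ⟨C, hC, hCn⟩ := powc B hB n
  obtain ⟨P₀, hPc, hP1', hP2'⟩ := proj (LinearMap.ker (((1 - B) ^ n : Y →L[ℝ] Y) : Y →ₗ[ℝ] Y))
  have hP1 : ∀ x, ((1 - B) ^ n) (P₀ x) = 0 := fun x => hP1' x
  have hP2 : ∀ x, ((1 - B) ^ n) x = 0 → P₀ x = x := fun x hx => hP2' x hx
  set D : Y →L[ℝ] Y := C - P₀ with hD
  have hDc : IsCompactOperator D := hC.sub hPc
  have hS : ∀ x, (1 - D) x = ((1 - B) ^ n) x + P₀ x := by
    intro x
    rw [hCn, hD]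
    simp only [ContinuousLinearMap.sub_apply, ContinuousLinearMap.one_apply]
    abel
  have hinj : ∀ x, (1 - D) x = 0 → x = 0 := by
    intro x hx
    rw [hS] at hx
    have h1 : ((1 - B) ^ n) x = - P₀ x := eq_neg_of_add_eq_zero_left hx
    have h2 : ((1 - B) ^ n) x = 0 := by
      apply h
      rw [h1, map_neg, hP1, neg_zero]
    rw [h2, zero_add] at hx
    rw [← hP2 x h2, hx]
  have hun : IsUnit (1 - D) := by
    rcases hDc.hasEigenvalue_or_mem_resolventSet (one_ne_zero (α := ℝ)) with he | he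
    · exfalso
      obtain ⟨v, hv⟩ := he.exists_hasEigenvector
      have h1 := hv.apply_eq_smul
      have h2 : (1 - D) v = 0 := by
        have h3 : D v = v := by simpa using h1
        simp [h3]
      exact hv.2 (hinj v h2)
    · rw [spectrum.mem_resolventSet_iff] at he
      simpa using he
  obtain ⟨u, hu⟩ := hun
  have hu1 : ∀ x, (1 - D) ((↑u⁻¹ : Y →L[ℝ] Y) x) = x := by
    intro x
    rw [← hu, ← ContinuousLinearMap.mul_apply, Units.mul_inv]
    rfl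
  refine ⟨P₀ * (↑u⁻¹ : Y →L[ℝ] Y), fun x => hP1 _, fun x hx => ?_, fun x => ?_⟩
  · have h1 : (1 - D) x = x := by rw [hS, hx, zero_add, hP2 x hx]
    have h2 : (↑u⁻¹ : Y →L[ℝ] Y) x = x := by
      have h3 : (1 - D) ((↑u⁻¹ : Y →L[ℝ] Y) x - x) = 0 := by
        rw [map_sub, hu1, h1, sub_self]
      exact sub_eq_zero.1 (hinj _ h3)
    rw [ContinuousLinearMap.mul_apply, h2, hP2 x hx]
  · refine ⟨(↑u⁻¹ : Y →L[ℝ] Y) x, ?_⟩
    rw [ContinuousLinearMap.mul_apply, ← hS, hu1]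

/-- the powers commute with the restriction -/
lemma coe_pow (A : Y →L[ℝ] Y) (U : Submodule ℝ Y) (B : U →L[ℝ] U) (hBA : ∀ u : U, (B u : Y) = A u)
    (n : ℕ) (u : U) : (((1 - B) ^ n) u : Y) = ((1 - A) ^ n) (u : Y) := by
  induction n generalizing u with
  | zero => simp
  | succ n ih =>
    rw [pow_succ, pow_succ, ContinuousLinearMap.mul_apply, ContinuousLinearMap.mul_apply, ih]
    congr 1
    simp [hBA]

end Pool.Agent.H65.BM.RZ

namespace Pool.Agent.H65.BM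

open RZ in
theorem riesz : S_RIESZ := by
  intro X _ _ _ A hA hx
  obtain ⟨x₀, hx₀, hAx⟩ := hx
  obtain ⟨n, hn1, hn⟩ := stab' A hA
  obtain ⟨Q, hQ1, hQ2, hQ3⟩ := dec A hA n hn
  have hQ0 : ∀ w, Q (((1 - A) ^ n) w) = 0 := by
    intro w
    obtain ⟨w', hw'⟩ := hQ3 (((1 - A) ^ n) w)
    have h1 : Q (((1 - A) ^ n) w) = ((1 - A) ^ n) (w - w') := by
      rw [map_sub]
      exact eq_sub_of_add_eq' hw'.symm
    rw [h1]
    apply hn
    rw [← h1]
    exact hQ1 _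
  refine ⟨Q, fun x => hQ2 _ (hQ1 x), ?_, ?_, ?_⟩
  · intro h0
    apply hx₀
    have h1 : ((1 - A) ^ n) x₀ = 0 := by
      obtain ⟨k, rfl⟩ : ∃ k, n = k + 1 := ⟨n - 1, by omega⟩
      rw [pow_succ, ContinuousLinearMap.mul_apply]
      have h2 : (1 - A) x₀ = 0 := by simp [hAx]
      rw [h2, map_zero]
    rw [← hQ2 x₀ h1, h0]
    rfl
  · have := finker A hA n
    apply Submodule.finiteDimensional_of_le
      (S₂ := LinearMap.ker (((1 - A) ^ n : X →L[ℝ] X) : X →ₗ[ℝ] X))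
    rintro _ ⟨y, rfl⟩
    exact hQ1 y
  · intro U hU hAU u hu
    have hUc : CompleteSpace U := hU.completeSpace_coe
    let B : U →L[ℝ] U := (A.comp U.subtypeL).codRestrict U (fun v => hAU v v.2)
    have hBA : ∀ v : U, (B v : X) = A v := fun v => rfl
    have hBc : IsCompactOperator B := by
      have h1 := IsCompactOperator.restrict (f := (A : X →ₗ[ℝ] X)) hA (V := U) (fun v hv => hAU v hv) hU
      exact h1
    have hnU : ∀ v : U, ((1 - B) ^ n) (((1 - B) ^ n) v) = 0 → ((1 - B) ^ n) v = 0 := by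
      intro v hv
      apply Subtype.ext
      have h1 := congrArg (Subtype.val) hv
      rw [coe_pow A U B hBA, coe_pow A U B hBA] at h1
      rw [coe_pow A U B hBA]
      exact hn _ h1
    obtain ⟨P, hP1, hP2, hP3⟩ := dec B hBc n hnU
    obtain ⟨w, hw⟩ := hP3 ⟨u, hu⟩
    have h2 := congrArg (Subtype.val) hw
    rw [Submodule.coe_add, coe_pow A U B hBA] at h2
    change u = _ at h2
    have h3 : ((1 - A) ^ n) ((P ⟨u, hu⟩ : U) : X) = 0 := by
      rw [← coe_pow A U B hBA, hP1]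
      rfl
    rw [h2, map_add, hQ0, zero_add, hQ2 _ h3]
    exact (P ⟨u, hu⟩).2

end Pool.Agent.H65.BM
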