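import Pool.Agent.H65.BM.Defs

/-!
# Project BM: the statements to prove

Each `S_x` is a `Prop`; the file `Pool/Agent/H65/BM/<X>.lean` proves `theorem x : S_x`.
The paper proof is in the team store, `bm_proof.md`; short proofs are in the doc comments.
-/

set_option autoImplicit false

namespace Pool.Agent.H65.BM

open Pool.Agent.N314.OP Pool.Agent.N314.OP.Mod

/-- **J**. For `y ≠ 0` let `f` be a norming functional (`exists_dual_vector`), `J y = 2‖y‖ f`,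
`J 0 = 0`. From `USp`: for `‖y‖ = 1`, `‖y+v‖ ≤ 2 + K‖v‖^p - ‖y-v‖ ≤ 1 + f v + K‖v‖^p`; homogeneity:
`‖y+v‖ ≤ ‖y‖ + f v + K‖v‖^p‖y‖^(1-p)`. If `‖v‖ ≤ s‖y‖` (`s ≤ 1`) square it:
`‖y+v‖² ≤ ‖y‖² + 2‖y‖ f v + ‖v‖² + 4K s^(p-1) ‖v‖‖y‖ + K² s^(2p-2)‖v‖² ...` (use
`‖v‖^p‖y‖^(1-p) ≤ s^(p-1)‖v‖`), and choose `s = (δ/(4K+4))^(1/(p-1))`; if `‖v‖ > s‖y‖` use
`‖y+v‖² - ‖y‖² - J y v ≤ ‖v‖² + 4‖y‖‖v‖ ≤ (1 + 4/s)‖v‖²`. So `B = 1/(p-1)`. -/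
def S_J : Prop := ∀ (E : Type) [NormedAddCommGroup E] [NormedSpace ℝ E] (p K : ℝ),
  1 < p → p ≤ 2 → 0 < K → USp E p K →
  ∃ (C B : ℝ) (J : E → StrongDual ℝ E), 1 ≤ C ∧ 0 ≤ B ∧ JP E C B J

/-- **OP**. `K y = ∑ f i y • e i`, `T = 1 - K`, `‖T y‖ ≤ ‖y‖`. Choose `x₁` with `e := K x₁` of norm
one. `‖T^l y - y‖ ≤ l‖K y‖` and `∑_{l<m} T^l e = x₁ - T^m x₁` (telescope), so the mean
`1/m ∑_{l<m} T^l (y + t e)` gives `‖y‖ ≤ ‖y + t e‖ + 2|t|‖x₁‖/m + m‖K y‖`. For a random vector use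
Minkowski in `L²(w)`, and `∑ w ‖K (A⁻¹ Y)‖² ≤ n ∑ ‖e i‖² ∑ w (f i (A⁻¹ Y))² ≤ n ∑ ‖e i‖²‖f i‖² σ²`
for isometries `A`. Given `v`, take `A` with `‖A e - v/‖v‖‖ < ε` (AT), apply the inequality to
`A⁻¹ Y` and `t = ‖v‖` and let `ε → 0`. -/
def S_OP : Prop := ∀ (E : Type) [NormedAddCommGroup E] [NormedSpace ℝ E],
  AT E → KO E → ∃ C : ℝ, 0 ≤ C ∧ Op E C

/-- **CI**. Scale to `‖v‖ = 1`; `Λ² = ∑ w‖Y‖²` (if `Λ = 0` the left side is 0). Put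
`t = δ^(B+1) Λ`, `m = ⌈1/δ⌉₊`, `P² = ∑ w‖Y + t v‖²`, `e = C(t/m + mσ)`. `Op`: `Λ ≤ P + e`, hence
`Λ² ≤ P² + 2Λe` (also when `e > Λ`). `JP.up`: `P² ≤ Λ² + t ∑ w J(Y)v + δΛt + C₁δ^(-B)t²`. So
`-∑ w J(Y) v ≤ δΛ + C₁δ^(-B)t + 2Λe/t ≤ (1+C₁+2C) δΛ + 4Cδ^(-(B+2))σ`; also for `-v`.
`A = B + 2`. -/
def S_CI : Prop := ∀ (E : Type) [NormedAddCommGroup E] [NormedSpace ℝ E] (J : E → StrongDual ℝ E)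
  (C B C' : ℝ), 1 ≤ C → 0 ≤ B → JP E C B J → 0 ≤ C' → Op E C' →
  ∃ C₁ A : ℝ, 1 ≤ C₁ ∧ 0 ≤ A ∧ CI E J C₁ A

/-- **BAL** (balanced laws). Joint weights of `θ s : ι → Bool`, `ω : ι → Ω`:
`G = ∏_j w(ω_j) (1 + θ_j s_j a(ω_j)) / 4 ≥ 0`. Sum over `θ` of `G`: `∏ w(ω_j)/2`; of `G θ_i`:
`s_i a(ω_i) ∏ w(ω_j)/2`; sum over `s` of `G`: `∏ w(ω_j)/2`. So the left side is
`∑_{θ,s,ω} G J(Y)(∑_j θ_j v_j(κ ω_j))`. Group by `θ` and `q = κ ∘ ω` (mass `p`), and apply `CI` with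
the weights `G / p` on `κ ∘ ω = q` (skip `p = 0`); for these weights the coordinates
`s_j g(u_j(ω_j))` are independent with mean 0 (the balance condition), so the second moment of
`g(Y)` is `≤ σ²`. Sum up with Cauchy-Schwarz. -/
def S_BAL : Prop := ∀ (E : Type) [NormedAddCommGroup E] [NormedSpace ℝ E] (J : E → StrongDual ℝ E)
  (C A : ℝ), 1 ≤ C → 0 ≤ A → CI E J C A →
  ∀ (ι Ω Q : Type) [Fintype ι] [DecidableEq ι] [Fintype Ω] [Fintype Q] [DecidableEq Q]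
    (w : Ω → ℝ) (u : ι → Ω → E) (κ : Ω → Q) (a : Ω → ℝ) (v : ι → Q → E) (δ σ : ℝ),
    (∀ ω, 0 ≤ w ω) → ∑ ω, w ω = 1 → (∀ ω, |a ω| ≤ 1) →
    (∀ (j : ι) (q : Q), ∑ ω, (if κ ω = q then (w ω * a ω) • u j ω else 0) = 0) →
    0 < δ → δ ≤ 1 → 0 ≤ σ →
    (∀ g : StrongDual ℝ E, ‖g‖ ≤ 1 → ∀ ω : ι → Ω, ∑ j, (g (u j (ω j))) ^ 2 ≤ σ ^ 2) →
    |ex w (fun ω : ι → Ω => av (fun s : ι → Bool => ∑ j, sg (s j) * a (ω j) *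
        J (sm s fun i => u i (ω i)) (v j (κ (ω j)))))| ≤
      C * Real.sqrt (ex w fun ω : ι → Ω => av fun θ : ι → Bool =>
          ‖sm θ fun j => v j (κ (ω j))‖ ^ 2) *
        (δ * Real.sqrt (ex w fun ω : ι → Ω => av fun s : ι → Bool =>
          ‖sm s fun j => u j (ω j)‖ ^ 2) + δ ^ (-A) * σ)

/-- **U**. Apply `BAL` for each `i : Fin k` with `κ ω = ` (path `ω.1` with the entries `≥ i`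
replaced by `false`), `v_j(q) = d j i q`, `a(ε, none) = α sg(ε i)`, `a(ε, some l) = -1` if `l = i`
else `0`, `α = πh/((1-π)k) ≤ 1`. Balance: in `∑_{trunc ε = q} sg(ε i) ∑_l sg(ε l) d_l(ε)` the terms
`l ≠ i` cancel (flip `ε_l` for `l > i`, flip `ε_i` for `l < i`). Summing over `i`:
`|α E J(Y)(Y_V) - (1/h) E J(Y)(Y_D)| ≤ k C R (δΛ + δ^(-A) σ)` where `Y = Y_V + Y_D` (modes `none`,
`some`). With `2Λ² = E J(Y)(Y)` and `|E J(Y)(Y_D)| ≤ 2 Λ Λ_D` we get the claim. -/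
def S_U : Prop := ∀ (E : Type) [NormedAddCommGroup E] [NormedSpace ℝ E] (J : E → StrongDual ℝ E)
  (C A : ℝ), 1 ≤ C → 0 ≤ A → CI E J C A → (∀ y, J y y = 2 * ‖y‖ ^ 2) →
  (∀ y v, |J y v| ≤ 2 * ‖y‖ * ‖v‖) →
  ∀ (ι : Type) [Fintype ι] [DecidableEq ι] (k : ℕ) (π h : ℝ)
    (d : ι → Fin k → (Fin k → Bool) → E) (δ σ R : ℝ),
    1 ≤ k → 0 < π → π ≤ 1 / 2 → 0 < h → π * h ≤ (1 - π) * k → (∀ j, Pred (d j)) →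
    0 < δ → δ ≤ 1 → 0 ≤ σ → 0 ≤ R →
    (∀ g : StrongDual ℝ E, ‖g‖ ≤ 1 → ∀ ω : ι → (Fin k → Bool) × Option (Fin k),
      ∑ j, (g (uv k h (d j) (ω j))) ^ 2 ≤ σ ^ 2) →
    (∀ (i : Fin k) (ω : ι → Fin k → Bool),
      av (fun θ : ι → Bool => ‖sm θ fun j => d j i (ω j)‖ ^ 2) ≤ R ^ 2) →
    ∀ L LD : ℝ, 0 ≤ L → 0 ≤ LD →
    L ^ 2 = ex (wt k π) (fun ω : ι → (Fin k → Bool) × Option (Fin k) =>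
      av fun s : ι → Bool => ‖sm s fun j => uv k h (d j) (ω j)‖ ^ 2) →
    LD ^ 2 = ex (wt k π) (fun ω : ι → (Fin k → Bool) × Option (Fin k) =>
      av fun s : ι → Bool =>
        ‖sm s fun j => if (ω j).2 = none then 0 else uv k h (d j) (ω j)‖ ^ 2) →
    L ^ 2 ≤ (1 + k / (π * h ^ 2)) * L * LD +
      ((k : ℝ) ^ 2 / (π * h)) * C * R * (δ * L + δ ^ (-A) * σ)

/-- **T1** (one step of the type estimate). Apply `U` with `k = 1`, `d j 0 ε = z j` for `j ∈ D` and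
`0` otherwise, `h = π^(-1/2)`, `R² = av ‖∑_D‖²`, `σ² = |D|/π`. `R ≤ 2 L`: for each `ω` the sums over
the modes `none` and `some` are `≤ av ‖Y‖²` (tool `sym`), `h ≥ 1`. Take `δ = √π/(4C)`. -/
def S_T1 : Prop := ∀ (E : Type) [NormedAddCommGroup E] [NormedSpace ℝ E] (J : E → StrongDual ℝ E)
  (C A : ℝ), 1 ≤ C → 0 ≤ A → CI E J C A → (∀ y, J y y = 2 * ‖y‖ ^ 2) →
  (∀ y v, |J y v| ≤ 2 * ‖y‖ * ‖v‖) →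
  ∀ π : ℝ, 0 < π → π ≤ 1 / 4 → ∃ C' : ℝ, 0 ≤ C' ∧
    ∀ (ι : Type) [Fintype ι] [DecidableEq ι] (D : Finset ι) (z : ι → E), (∀ j ∈ D, ‖z j‖ ≤ 1) →
      av (fun s : ι → Bool => ‖∑ j ∈ D, sg (s j) • z j‖ ^ 2) ≤
        128 / π * ex (wt 1 π) (fun ω : ι → (Fin 1 → Bool) × Option (Fin 1) =>
          av fun s : ι → Bool =>
            ‖∑ j ∈ D.filter (fun j => (ω j).2 ≠ none), sg (s j) • z j‖ ^ 2) + C' * D.card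

/-- **T2** (type estimate). Strong induction on `N = |D|`. Choose `π ≤ 1/4` with
`(2π)^η ≤ 1/512`; `n = |D ∩ {mode ≠ none}|` has mean `πN` and variance `≤ πN` (tool `ex_orth`). The
inner average is `≤ B(2πN)^(1+η)` if `n ≤ 2πN < N` (induction), and `≤ n² ≤ N²` always, so
`≤ B(2πN)^(1+η) + N²(n-πN)²/(πN)²`. Hence `R² ≤ (1/2)BN^(1+η) + C''N`; take `B = 2C''`. -/
def S_T2 : Prop := ∀ (E : Type) [NormedAddCommGroup E] [NormedSpace ℝ E],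
  (∀ π : ℝ, 0 < π → π ≤ 1 / 4 → ∃ C' : ℝ, 0 ≤ C' ∧
    ∀ (ι : Type) [Fintype ι] [DecidableEq ι] (D : Finset ι) (z : ι → E), (∀ j ∈ D, ‖z j‖ ≤ 1) →
      av (fun s : ι → Bool => ‖∑ j ∈ D, sg (s j) • z j‖ ^ 2) ≤
        128 / π * ex (wt 1 π) (fun ω : ι → (Fin 1 → Bool) × Option (Fin 1) =>
          av fun s : ι → Bool =>
            ‖∑ j ∈ D.filter (fun j => (ω j).2 ≠ none), sg (s j) • z j‖ ^ 2) + C' * D.card) →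
  ∀ η : ℝ, 0 < η → ∃ B : ℝ, 0 < B ∧ TB E η B

/-- **COT**. `f j` of norm one with `f j (z j) = ‖z j‖`. `N ≤ ∑_D f j (z j) =
av ((∑_D θ f) (∑_D θ z)) ≤ (av ‖∑ θ f‖²)^(1/2) (av ‖∑ θ z‖²)^(1/2)`. -/
def S_COT : Prop := ∀ (E : Type) [NormedAddCommGroup E] [NormedSpace ℝ E] (η B : ℝ),
  0 < η → η < 1 → 0 < B → TB (StrongDual ℝ E) η B → CB E η (1 / B)

/-- **NULL**. For a finite family `x_l`, let `Z` be the set of families `z` such that for all finite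
`F` and `ε` some isometry `T` has `|f (T x_l - z_l)| < ε` for all `f ∈ F`, `l`. `Z` is invariant
under isometries and closed in the same sense. Let `m = inf_Z ∑ ‖z_l‖`; if `m > 0` take `z ∈ Z` with
`∑‖z_l‖ < m + m/L` (`L` the number of `l`), some `‖z_l‖ ≥ m/L`; let `y_n` be normalized weakly null
(`exists_null`), `R_n` isometries with `‖R_n z_l/‖z_l‖ - y_n‖ < 1/n`, pass to a subsequence with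
`R_n z_i ⇀ w_i` for all `i` (WSC): `w ∈ Z`, `w_l = 0`, `‖w_i‖ ≤ ‖z_i‖`, contradiction. So `m = 0`. -/
def S_NULL : Prop := ∀ (E : Type) [NormedAddCommGroup E] [NormedSpace ℝ E],
  AT E → WSC E → ¬ FiniteDimensional ℝ E → NULLP E

/-- **POS**. Choose recursively finite sets `S_0 = {0} ⊆ S_1 ⊆ ...` and isometries `T_j` with
`|J x (T_j u)| < 1` for `x ∈ S_j`, `u ∈ Z`, and `S_(j+1) = S_j ∪ {x ± T_j u}`. For signs and a set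
`I` of `n` indices put `x_j = ∑_{i ∈ I, i < j} ± T_i u_i`. By `JP.up` with `δ = n^(-c)`,
`c = 1/(B+2)`: `‖x_j‖² ≤ n(1 + δ R + C δ^(-B))` with `R = max ‖x_i‖`, so `‖x_M‖ ≤ C'' n^(1-c)`.
Given `g`, `u`: `I = {j : |g (T_j u_j)| ≥ τ}` has `τ n ≤ g(x_M) ≤ C'' n^(1-c)`, so
`n ≤ (C''/τ)^(1/c)`; `∑ (g (T_j u_j))² ≤ Mτ² + n`; take `τ = M^(-c/(1+2c))`. -/
def S_POS : Prop := ∀ (E : Type) [NormedAddCommGroup E] [NormedSpace ℝ E] (J : E → StrongDual ℝ E)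
  (C B : ℝ), 1 ≤ C → 0 ≤ B → JP E C B J → NULLP E →
  ∃ C' c₁ : ℝ, 0 < C' ∧ 0 < c₁ ∧ c₁ < 1 ∧ PB E C' c₁

/-- **EQ**. From `¬ USp E q K` with `K` huge: `‖x‖ = 1`, `‖x+w‖ + ‖x-w‖ > 2 + K‖w‖^q`; since this is
`≤ 2 + 2‖w‖`, `t = ‖w‖` is small. By the intermediate value theorem there is `c ∈ [-t, t]` with
`‖x + w - cx‖ = ‖x - w + cx‖` (at `c = t`: `≤ 1 ≤`; at `c = -t` reversed). For `c ≥ 0`: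
`‖x+w-cx‖ ≥ ‖x+w‖ - c`, `‖(1+c)x - w‖ ≥ (1+c)‖x-w‖ - ct ≥ ‖x-w‖ + c(1-2t)`; so the sum is
`≥ 2 + Kt^q - 2t²` (same for `c ≤ 0`). Replace `w` by `w - cx`. -/
def S_EQ : Prop := ∀ (E : Type) [NormedAddCommGroup E] [NormedSpace ℝ E] (q : ℝ),
  1 < q → q < 2 → (∀ K : ℝ, 0 < K → ¬ USp E q K) →
  ∀ t₀ : ℝ, 0 < t₀ → ∃ (t κ : ℝ) (x w : E), 0 < t ∧ t < t₀ ∧ ‖x‖ = 1 ∧ ‖w‖ ≤ 2 * t ∧
    ‖x + w‖ = 1 + κ ∧ ‖x - w‖ = 1 + κ ∧ t ^ q ≤ κ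

/-- **WALK**. `κ ≤ 2t`. `k = ⌈4/(3κ)⌉₊` (`kκ ≤ 4/3 + κ`). For `y ≠ 0` choose an isometry `A y` with
`‖A y x - y/‖y‖‖ ≤ κ/4`; `y_0 = x`, `y_(i+1) = y_i + ε_i ‖y_i‖ A(y_i) w`. Then
`(1 + 3κ/4)‖y_i‖ ≤ ‖y_(i+1)‖ ≤ (1 + 5κ/4)‖y_i‖`. So `‖y_k‖ ≥ 2` and all `‖y_i‖ ≤ exp(5κk/4) ≤ 10`.
`d i ε = ‖y_i‖ • A(y_i) w`. -/
def S_WALK : Prop := ∀ (E : Type) [NormedAddCommGroup E] [NormedSpace ℝ E],
  AT E → ∀ (x w : E) (t κ : ℝ), 0 < t → t ≤ 1 / 100 → ‖x‖ = 1 → ‖w‖ ≤ 2 * t → 0 < κ →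
    ‖x + w‖ = 1 + κ → ‖x - w‖ = 1 + κ →
    ∃ (k : ℕ) (d : Fin k → (Fin k → Bool) → E), 1 ≤ k ∧ k * κ ≤ 3 ∧ Pred d ∧
      (∀ i ε, ‖d i ε‖ ≤ 100 * t) ∧ (∀ ε, 1 ≤ ‖∑ i, sg (ε i) • d i ε‖) ∧
      (∀ ε, ‖∑ i, sg (ε i) • d i ε‖ ≤ 100)

/-- **M1**. Apply `U` with `ι = Fin M`, `h = 1/t`, `d j i ε = T j (d i ε)` (`uv` commutes with
`T j`); `πh ≤ (1-π)k` since `1 ≤ ‖V‖ ≤ k C₀ t`. For each `ω`, with `n` the number of `j` of mode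
`≠ none`: `av ‖Y_D‖² ≤ C₀² B n^(1+η) ≤ C₀² B M^η n` (`TB`), mean of `n` is `πM`, so
`LD² ≤ C₀² B π M^(1+η)`; `R² = (C₀ t)² B M^(1+η)`; and (tool `sym`, `CB`)
`av ‖Y‖² ≥ c (M-n)^(1-η) ≥ c M^(-η) (M-n)`, so `L² ≥ (c/2) M^(1-η)`. -/
def S_M1 : Prop := ∀ (E : Type) [NormedAddCommGroup E] [NormedSpace ℝ E] (J : E → StrongDual ℝ E)
  (C A : ℝ), 1 ≤ C → 0 ≤ A → CI E J C A → (∀ y, J y y = 2 * ‖y‖ ^ 2) →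
  (∀ y v, |J y v| ≤ 2 * ‖y‖ * ‖v‖) →
  ∀ (η B c : ℝ), 0 < η → η < 1 → 0 < B → 0 < c → TB E η B → CB E η c →
  ∀ (k M : ℕ) (t π δ σ C₀ : ℝ) (d : Fin k → (Fin k → Bool) → E) (T : Fin M → E ≃ₗᵢ[ℝ] E),
    1 ≤ k → 1 ≤ M → 0 < t → t ≤ 1 → 1 ≤ C₀ → 0 < π → π ≤ 1 / (2 * C₀) → 0 < δ → δ ≤ 1 → 0 ≤ σ →
    Pred d → (∀ i ε, ‖d i ε‖ ≤ C₀ * t) → (∀ ε, 1 ≤ ‖∑ i, sg (ε i) • d i ε‖) →
    (∀ g : StrongDual ℝ E, ‖g‖ ≤ 1 → ∀ ω : Fin M → (Fin k → Bool) × Option (Fin k),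
      ∑ j, (g (T j (uv k (1 / t) d (ω j)))) ^ 2 ≤ σ ^ 2) →
    ∃ L : ℝ, 0 < L ∧ c / 2 * (M : ℝ) ^ (1 - η) ≤ L ^ 2 ∧
      L ^ 2 ≤ (1 + k * t ^ 2 / π) * L * (C₀ * Real.sqrt (B * π) * (M : ℝ) ^ ((1 + η) / 2)) +
        ((k : ℝ) ^ 2 * t / π) * C * (C₀ * t * Real.sqrt B * (M : ℝ) ^ ((1 + η) / 2)) *
          (δ * L + δ ^ (-A) * σ)

/-- **M2** (numbers). `π = t^(2-q)`, `δ = t^4`, `M = ⌈t^(-B₁)⌉₊` with `B₁ = 16(A+1)/c₁`,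
`η = min(c₁/2, (2-q)/(4B₁), 1/2)`. Divide by `L²`:
`1 ≤ (1+C₀) C₂ M^η t^((2-q)/2) + C₃ t^(-3) M^η (δ + δ^(-A) M^(-(c₁-η)/2))`
`≤ C₄ (t^((2-q)/4) + t^(1/2)) → 0`. -/
def S_M2 : Prop := ∀ (A c₁ q : ℝ), 0 ≤ A → 0 < c₁ → c₁ < 1 → 1 < q → q < 2 →
  ∃ η : ℝ, 0 < η ∧ η < 1 ∧ ∀ (B c C C' C₀ : ℝ), 0 < B → 0 < c → 1 ≤ C → 0 < C' → 1 ≤ C₀ →
    ∃ t₀ : ℝ, 0 < t₀ ∧ ∀ (t : ℝ) (k : ℕ), 0 < t → t < t₀ → 1 ≤ k → (k : ℝ) * t ^ q ≤ C₀ →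
      ∃ (M : ℕ) (π δ : ℝ), 1 ≤ M ∧ 0 < π ∧ π ≤ 1 / (2 * C₀) ∧ 0 < δ ∧ δ ≤ 1 ∧
        ∀ L : ℝ, 0 < L → c / 2 * (M : ℝ) ^ (1 - η) ≤ L ^ 2 →
          ¬ (L ^ 2 ≤
            (1 + k * t ^ 2 / π) * L * (C₀ * Real.sqrt (B * π) * (M : ℝ) ^ ((1 + η) / 2)) +
            ((k : ℝ) ^ 2 * t / π) * C * (C₀ * t * Real.sqrt B * (M : ℝ) ^ ((1 + η) / 2)) *
              (δ * L + δ ^ (-A) * (C₀ * Real.sqrt (C' * (M : ℝ) ^ (1 - c₁)))))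

/-- **DAT**. Given norm one functionals `f, g` and `δ`, take `‖x‖ = ‖y‖ = 1` with `f x, g y ≥ 1 - δ`
and an isometry `T` with `‖T x - y‖ < δ`. `f' = f ∘ T⁻¹` has `f' y ≥ 1 - 2δ`. For `‖w‖ ≤ s`:
`f'(y+w) + g(y-w) ≤ ‖y+w‖ + ‖y-w‖ ≤ 2 + K s^p`, so `(f'-g)(w) ≤ 3δ + K s^p`, hence
`‖f' - g‖ ≤ (3δ + K s^p)/s`: small. -/
def S_DAT : Prop := ∀ (E : Type) [NormedAddCommGroup E] [NormedSpace ℝ E],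
  AT E → US E → AT (StrongDual ℝ E)

/-- **DUS**. For unit `x, y` put `X = (x+y)/2`, `W = (x-y)/2`: `c‖W‖^q ≤ 2 - 2‖X‖^q`, so
`‖X‖ ≤ 1 - (c/(2q))‖W‖^q` (Bernoulli), and `(f+h)x + (f-h)y ≤ 2‖X‖ + 2‖h‖‖W‖
≤ 2 - (c/q)‖W‖^q + 2‖h‖‖W‖ ≤ 2 + K‖h‖^(q/(q-1))` (sup over `‖W‖`, Young). `p = q/(q-1)`. -/
def S_DUS : Prop := ∀ (E : Type) [NormedAddCommGroup E] [NormedSpace ℝ E],
  UC E → US (StrongDual ℝ E)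

/-- **DUC**. Step 1: `‖f+h‖^p + ‖f-h‖^p ≤ 2‖f‖^p + K'‖h‖^p` in `X` from `USp`
(`‖f‖ = 1`, `‖h‖ = t ≤ 1`: `‖f±h‖ = 1 + a_±`, `|a_±| ≤ t`, `(1+a)^p ≤ 1 + pa + C|a|^p`; `t > 1`
trivial; homogeneity). Step 2: for `z, w ∈ Z` (functionals on `X`) and `q = p/(p-1)`:
`‖z+w‖^q/q + ‖z-w‖^q/q ≥ (z+w)(f+h) - ‖f+h‖^p/p + (z-w)(f-h) - ‖f-h‖^p/p
≥ 2 z(f) - 2‖f‖^p/p + 2 w(h) - K'‖h‖^p/p`; take suprema over `f = r f₀` and `h = r' h₀` with `f₀, h₀`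
almost norming `z`, `w`: `≥ 2‖z‖^q/q + c‖w‖^q`. -/
def S_DUC : Prop := ∀ (X Z : Type) [NormedAddCommGroup X] [NormedSpace ℝ X]
  [NormedAddCommGroup Z] [NormedSpace ℝ Z] (_ : Z →ₗᵢ[ℝ] StrongDual ℝ X) (p K : ℝ),
  1 < p → p ≤ 2 → 0 < K → USp X p K → ∃ c : ℝ, 0 < c ∧ UCq Z (p / (p - 1)) c

/-- **DKO**. The adjoint: `g ↦ ∑ g(e i) f i`, with evaluation functionals. -/
def S_DKO : Prop := ∀ (E : Type) [NormedAddCommGroup E] [NormedSpace ℝ E],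
  KO E → KO (StrongDual ℝ E)

end Pool.Agent.H65.BM
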