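import Pool.Agent.H65.BM.S4

/-!
# Project BM, fifth wave (BM5): ALL compact operators `K ≠ 0` on TRANSITIVE separable spaces

THEOREM. Let `E` be transitive, infinite-dimensional, with separable dual, `K ≠ 0` compact,
`‖1 - K‖ ≤ 1`. Then `E` is a Hilbert space.

By the fourth wave it suffices to prove `LP E K`, and for this (LPY) to find `A` in the algebra `AK K`
generated by the conjugates of `K` and `x ≠ 0` with `A x = x`. If all operators of this algebra are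
quasinilpotent, transitivity and Baire category (EFF) give a closed invariant subspace `Y ≠ 0`
without closed invariant subspaces (GEN), and Lomonosov's theorem (LOM) gives a contradiction.
-/

set_option autoImplicit false

namespace Pool.Agent.H65.BM

open Pool.Agent.N314.OP Pool.Agent.N314.OP.Mod Filter Topology

/-! ## Definitions -/

/-- the conjugate `g A g⁻¹` -/
noncomputable def cjo {E : Type} [NormedAddCommGroup E] [NormedSpace ℝ E] (g : E ≃ₗᵢ[ℝ] E)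
    (A : E →L[ℝ] E) : E →L[ℝ] E :=
  (g.toContinuousLinearEquiv : E →L[ℝ] E).comp
    (A.comp (g.symm.toContinuousLinearEquiv : E →L[ℝ] E))

/-- linear spaces of operators which are closed under products and conjugation by isometries -/
structure CAlg (E : Type) [NormedAddCommGroup E] [NormedSpace ℝ E]
    (𝒜 : Submodule ℝ (E →L[ℝ] E)) : Prop where
  mul : ∀ a ∈ 𝒜, ∀ b ∈ 𝒜, a.comp b ∈ 𝒜
  conj : ∀ g : E ≃ₗᵢ[ℝ] E, ∀ a ∈ 𝒜, cjo g a ∈ 𝒜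

/-- the algebra (without unit) generated by the conjugates of `K` -/
def AK {E : Type} [NormedAddCommGroup E] [NormedSpace ℝ E] (K : E →L[ℝ] E) :
    Submodule ℝ (E →L[ℝ] E) := sInf {𝒜 | CAlg E 𝒜 ∧ K ∈ 𝒜}

/-- the isometries are transitive on the unit sphere -/
def Tr (E : Type) [NormedAddCommGroup E] [NormedSpace ℝ E] : Prop :=
  ∀ x y : E, ‖x‖ = 1 → ‖y‖ = 1 → ∃ T : E ≃ₗᵢ[ℝ] E, T x = y

/-! ## Statements -/

/-- **EFF** (weak form of Effros' theorem). `W = {T | ‖T z - z‖ < ε/2}` (`T ∈ W ⟹ T⁻¹ ∈ W`). By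
separability countably many isometries `g n` such that every `T` has `‖T z - g n z‖ < ε/2` for some
`n`, i.e. `(g n)⁻¹ T ∈ W`. So the unit sphere is the union of the sets `g n (W x)`; it is a complete
metric space, by Baire (`nonempty_interior_of_iUnion_of_closed`, in the subtype of the sphere) the
closure of some `g n (W x)`, hence of `W x`, has an interior point in the sphere, which we may take of
the form `S x`, `S ∈ W`: `S x = interior point`, a ball (radius `δ`) of the sphere around `S x` lies in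
`closure (W x)`. If `‖y - x‖ < δ`, then `‖S y - S x‖ < δ`, so some `R ∈ W` has `‖R x - S y‖ < η`;
`T = S⁻¹ R`: `‖T x - y‖ < η`, `‖T z - z‖ ≤ ‖R z - z‖ + ‖S z - z‖ < ε`. -/
def S_EFF : Prop := ∀ (E : Type) [NormedAddCommGroup E] [NormedSpace ℝ E] [CompleteSpace E]
  [TopologicalSpace.SeparableSpace E], Tr E → ∀ (x z : E) (ε : ℝ), ‖x‖ = 1 → 0 < ε →
  ∃ δ : ℝ, 0 < δ ∧ ∀ y : E, ‖y‖ = 1 → ‖y - x‖ < δ → ∀ η : ℝ, 0 < η →
    ∃ T : E ≃ₗᵢ[ℝ] E, ‖T z - z‖ < ε ∧ ‖T x - y‖ < η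

/-- **NEU** (Neumann series of a quasinilpotent operator). `S = ∑ (-a)^n` (summable: root test, or
`‖a^n‖ ≤ 2^(-n)` eventually); `S (x + a x) = x`; `c S` is the limit of the `∑_{n<N} c (-a)^n ∈ 𝒜`. -/
def S_NEU : Prop := ∀ (E : Type) [NormedAddCommGroup E] [NormedSpace ℝ E] [CompleteSpace E]
  (a : E →L[ℝ] E), Tendsto (fun n : ℕ => ‖a ^ n‖ ^ (1 / (n : ℝ))) atTop (𝓝 0) →
  ∃ S : E →L[ℝ] E, (∀ x, S (x + a x) = x) ∧ ∀ 𝒜 : Submodule ℝ (E →L[ℝ] E),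
    (∀ b ∈ 𝒜, ∀ c ∈ 𝒜, b.comp c ∈ 𝒜) → a ∈ 𝒜 → ∀ c ∈ 𝒜, ∀ ε : ℝ, 0 < ε →
      ∃ c' ∈ 𝒜, ‖c.comp S - c'‖ < ε

/-- **GEN**. `M x = closure (𝒜 x)`, a closed subspace; `T (M x) = M (T x)` for isometries `T`.
(0) `M x ⊆ M (x + a x)` for `a ∈ 𝒜`: `c x = (c S) (x + a x)` with `S` from NEU.
(1) `x ∈ M x` for all `x`: by transitivity `dist (x, M x) = δ ‖x‖` with a constant `δ`; let `a ∈ 𝒜`,
`a x ≠ 0`, `y = x + t a x`: `δ ‖y‖ = dist (y, M y) ≤ dist (y, M x) = dist (x, M x) = δ ‖x‖` by (0) and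
`a x ∈ M x`; `t → ∞` gives `δ = 0`.
(2) Let `x ≠ 0`, `0 ≠ y₀ ∈ M x`, `z ∈ M x`, `ε > 0`. EFF for `y₀/‖y₀‖`, `z`, `ε` gives `δ`. By (1)
`y₀ - x ∈ M x`, so there is `a ∈ 𝒜` with `y = x + a x` near `y₀`, `‖y/‖y‖ - y₀/‖y₀‖‖ < δ`. By (0)
`z ∈ M y`: `c ∈ 𝒜` with `‖c y - z‖ < ε`. EFF: `T` with `‖T z - z‖ < ε` and
`‖c‖ ‖y‖ ‖T (y₀/‖y₀‖) - y/‖y‖‖ < ε`. `c' = (‖y‖/‖y₀‖) T⁻¹ c T ∈ 𝒜` has `‖c' y₀ - z‖ < 3 ε`.
`Y = M x` for any `x ≠ 0`. -/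
def S_GEN : Prop := S_EFF → S_NEU → ∀ (E : Type) [NormedAddCommGroup E] [NormedSpace ℝ E]
  [CompleteSpace E] [TopologicalSpace.SeparableSpace E], Tr E → ∀ 𝒜 : Submodule ℝ (E →L[ℝ] E),
  CAlg E 𝒜 → (∃ a ∈ 𝒜, a ≠ 0) →
  (∀ a ∈ 𝒜, Tendsto (fun n : ℕ => ‖a ^ n‖ ^ (1 / (n : ℝ))) atTop (𝓝 0)) →
  ∃ Y : Submodule ℝ E, IsClosed (Y : Set E) ∧ Y ≠ ⊥ ∧ (∀ a ∈ 𝒜, ∀ y ∈ Y, a y ∈ Y) ∧
    ∀ y ∈ Y, y ≠ 0 → ∀ z ∈ Y, ∀ ε : ℝ, 0 < ε → ∃ a ∈ 𝒜, ‖a y - z‖ < ε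

/-- **SFP** (Schauder's fixed point theorem on a ball; Brouwer's theorem is
`Pool.Agent.Helper133.Brouwer.brouwer` in `Pool/Agent/H66/L/S8/Helper133/Brouwer.lean`: a continuous bounded
map of a finite-dimensional normed space into itself has a fixed point). `ε > 0`: finite `ε`-net `F` of
`Φ (B)`, `F ⊆ Φ (B)`; `P u = ∑ max(0, ε - ‖u - f‖) f / ∑ max(0, ε - ‖u - f‖)` is continuous on
`Φ (B)`, `‖P u - u‖ ≤ ε`, `P u ∈ B`; `V = span (F ∪ {y₁})`, `ρ` the radial retraction onto `B`; Brouwer for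
`v ↦ P (Φ (ρ v))` on `V`: `v = P (Φ v)`, `v ∈ B`, `‖v - Φ v‖ ≤ ε`. `ε → 0`, compactness of `C`. -/
def S_SFP : Prop := ∀ (Y : Type) [NormedAddCommGroup Y] [NormedSpace ℝ Y] (y₁ : Y) (r : ℝ)
  (Φ : Y → Y) (C : Set Y), 0 < r → ContinuousOn Φ (Metric.closedBall y₁ r) →
  (∀ y ∈ Metric.closedBall y₁ r, Φ y ∈ Metric.closedBall y₁ r) → IsCompact C →
  (∀ y ∈ Metric.closedBall y₁ r, Φ y ∈ C) → ∃ u ∈ Metric.closedBall y₁ r, Φ u = u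

/-- **LOM** (Lomonosov). `K₀ ∈ 𝒜`, `K₀ y₁ ≠ 0`, `r = ‖K₀ y₁‖ / (2 ‖K₀‖) ≤ ‖y₁‖ / 2`,
`B = closedBall y₁ r ∌ 0`, `C₀ = closure (K₀ B)` is compact and `∌ 0`. For `u ∈ C₀` there is `a ∈ 𝒜` with
`‖a u - y₁‖ < r`; finitely many `a i` suffice for all `u ∈ C₀`. `α i u = max (0, r - ‖a i u - y₁‖)`,
`s = ∑ α i > 0` on `C₀`, `ψ u = ∑ (α i u / s u) a i u ∈ B`, `Φ = ψ ∘ K₀`, `C = ψ '' C₀`. SFP: `Φ u = u`, `u ∈ B`
(so `u ≠ 0`); `a = ∑ (α i (K₀ u) / s (K₀ u)) (a i) K₀ ∈ 𝒜`. -/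
def S_LOM : Prop := S_SFP → ∀ (Y : Type) [NormedAddCommGroup Y] [NormedSpace ℝ Y]
  [CompleteSpace Y] [Nontrivial Y] (𝒜 : Submodule ℝ (Y →L[ℝ] Y)),
  (∀ b ∈ 𝒜, ∀ c ∈ 𝒜, b.comp c ∈ 𝒜) → (∀ a ∈ 𝒜, IsCompactOperator a) →
  (∀ y : Y, y ≠ 0 → ∀ z : Y, ∀ ε : ℝ, 0 < ε → ∃ a ∈ 𝒜, ‖a y - z‖ < ε) →
  ∃ a ∈ 𝒜, ∃ y : Y, y ≠ 0 ∧ a y = y

/-- **LPY** (adapt `LPX.lean`, there `A = -(K² + a K)/b`). The only property of `A` which is used: there is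
`C` such that every seminorm `q` with `q (g K g⁻¹ x) ≤ 2 q x` for all `g`, `x` has
`q (g A g⁻¹ x) ≤ C q x` for all `g`, `x`. The operators with this property form a `CAlg` containing `K`,
so it holds for all `A ∈ AK K`. Also `A` is compact since the compact operators form a `CAlg`. -/
def S_LPY : Prop := S_RIESZ → S_IRR2 → ∀ (E : Type) [NormedAddCommGroup E] [NormedSpace ℝ E]
  [CompleteSpace E], ¬ FiniteDimensional ℝ E → AT E → ∀ K : E →L[ℝ] E, IsCompactOperator K →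
  (∀ y, ‖y - K y‖ ≤ ‖y‖) → (∃ A ∈ AK K, ∃ x : E, x ≠ 0 ∧ A x = x) → LP E K

end Pool.Agent.H65.BM
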