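import Pool.Agent.H65.BM.S5

/-!
# Project BM, sixth wave (BM6): the hypothesis of a separable dual is removed

THEOREM. A separable infinite-dimensional TRANSITIVE Banach space `E` with a compact `K ≠ 0`,
`‖1 - K‖ ≤ 1`, is a Hilbert space.

By the fifth wave (LP holds, the dual is separable if `E` is reflexive) it suffices that `E` is reflexive.
James: if `E` is not reflexive there are for all `n`, `δ` vectors `z 0, ..., z (n-1)` in the unit ball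
with `‖∑_{i<k} z i - ∑_{i≥k} z i‖ ≥ n - δ` for all `k ≤ n` (JS, JMU, RAM, JPM). REF: this is impossible.
-/

set_option autoImplicit false

namespace Pool.Agent.H65.BM

open Pool.Agent.N314.OP Pool.Agent.N314.OP.Mod Filter Topology

/-- James patterns -/
def JPat (E : Type) [NormedAddCommGroup E] [NormedSpace ℝ E] : Prop :=
  ∀ (n : ℕ) (δ : ℝ), 0 < δ → ∃ z : Fin n → E, (∀ i, ‖z i‖ ≤ 1) ∧ ∀ k : ℕ, k ≤ n →
    n - δ ≤ ‖∑ i : Fin n, if (i : ℕ) < k then z i else - z i‖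

/-- a James sequence -/
def JSeq {E : Type} [NormedAddCommGroup E] [NormedSpace ℝ E] (θ : ℝ) (x : ℕ → E)
    (f : ℕ → StrongDual ℝ E) : Prop :=
  0 < θ ∧ (∀ m, ‖x m‖ ≤ 1) ∧ (∀ n, ‖f n‖ ≤ 1) ∧ (∀ m n, n ≤ m → f n (x m) = θ) ∧
    ∀ m n, m < n → f n (x m) = 0

/-- `z` satisfies the `r` alternating conditions on the blocks `[p 0, p 1], [p 2, p 3], ...` -/
def Alt {E : Type} [NormedAddCommGroup E] [NormedSpace ℝ E] (θ : ℝ) (f : ℕ → StrongDual ℝ E)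
    (r : ℕ) (p : ℕ → ℕ) (z : E) : Prop :=
  ∀ j : ℕ, j < r → ∀ k : ℕ, p (2 * j) ≤ k → k ≤ p (2 * j + 1) → θ ≤ (-1 : ℝ) ^ j * f k z

/-- **JS** (James). `ψ` in the bidual, `‖ψ‖ < 1`, `0 < θ < dist (ψ, E)`. Inductively `f n` in the unit
ball with `f n (x m) = 0` for `m < n`, `ψ (f n) = θ`, and `x n` in the unit ball with `f i (x n) = θ` for
`i ≤ n`. `f n`: if `‖ψ‖ ≤ θ` on `W = ⋂_{m<n} ker (x m)`, extend `ψ|W` to `ψ'`, `‖ψ'‖ ≤ θ`; `ψ - ψ'`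
vanishes on `W`, so it is in the span of the `x m` (`mem_span_of_iInf_ker_le_ker`), contradiction;
so there is `f ∈ W` in the ball with `ψ f > θ`, scale it. `x n` (Helly): by Goldstine / separation in `ℝⁿ`
there is `x`, `‖x‖ ≤ ‖ψ‖ + small`, `f i x` near `θ`; correct it with vectors `y j`, `f i (y j) = δ_ij` (the
`f i` are linearly independent). -/
def S_JS : Prop := ∀ (E : Type) [NormedAddCommGroup E] [NormedSpace ℝ E] [CompleteSpace E],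
  ¬ Function.Surjective (NormedSpace.inclusionInDoubleDual ℝ E) →
  ∃ (θ : ℝ) (x : ℕ → E) (f : ℕ → StrongDual ℝ E), JSeq θ x f

/-- **JMU**. `μ r p = inf {‖z‖ : Alt θ f r p z}`. `≥ θ` for `r ≥ 1` since `|f (p 0) z| ≥ θ`. `≤ 2 r` by
`z = ∑_{j<r} c j • x (p (2 j + 1))`, `c (r-1) = (-1)^(r-1)`, `c j = 2 (-1)^j` for `j < r - 1`:
`f k z = θ ∑_{i≥j} c i = (-1)^j θ` for `p (2 j) ≤ k ≤ p (2 j + 1)`. -/
def S_JMU : Prop := ∀ (E : Type) [NormedAddCommGroup E] [NormedSpace ℝ E]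
  (θ : ℝ) (x : ℕ → E) (f : ℕ → StrongDual ℝ E), JSeq θ x f →
  ∃ μ : ℕ → (ℕ → ℕ) → ℝ,
    (∀ r p, StrictMono p → 0 ≤ μ r p ∧ μ r p ≤ 2 * r) ∧
    (∀ r p, 1 ≤ r → StrictMono p → θ ≤ μ r p) ∧
    (∀ r p p', (∀ i, i < 2 * r → p i = p' i) → μ r p = μ r p') ∧
    (∀ r p z, Alt θ f r p z → μ r p ≤ ‖z‖) ∧
    ∀ r p, StrictMono p → ∀ ε : ℝ, 0 < ε → ∃ z, Alt θ f r p z ∧ ‖z‖ ≤ μ r p + ε

/-- **RAM**. Infinite Ramsey theorem (`infinite_ramsey` in `Pool/Agent/H65/BM/L/Ramsey.lean`) for the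
`2 r`-subsets with the colours `⌊μ / ε⌋`, successively for `r = 0, ..., R` (each time inside the previous
infinite set, i.e. for `μ r (q ∘ ·)`); `q` = enumeration of the infinite set. -/
def S_RAM : Prop := ∀ (μ : ℕ → (ℕ → ℕ) → ℝ) (R : ℕ) (ε : ℝ), 0 < ε →
  (∀ r p, StrictMono p → 0 ≤ μ r p ∧ μ r p ≤ 2 * r) →
  (∀ r p p', (∀ i, i < 2 * r → p i = p' i) → μ r p = μ r p') →
  ∃ (q : ℕ → ℕ) (κ : ℕ → ℝ), StrictMono q ∧
    ∀ r, r ≤ R → ∀ p, StrictMono p → |μ r (q ∘ p) - κ r| ≤ ε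

/-- **JPM** (James). Let `n ≥ 1`, `δ > 0`. `R` large such that `2 R + 1 < θ/2 (1 + ε₀)^(R-1)`; `q`, `κ` from
RAM with `ε` tiny; some `2 ≤ r ≤ R` has `κ r ≤ (1 + ε₀) κ (r-1)` (`κ 1 ≥ θ - ε`, `κ R ≤ 2 R + ε`). Vectors
`u i`, `i < n`: nearly minimal for the blocks (`j = 0, ..., r-1`)
`[q (4 ((n+1) (j+1) + i + 1) + 1), q (4 ((n+1) (j+2) + i + 1))]`: `‖u i‖ ≤ κ r + 2 ε =: N`.
For `k ≤ n` the vector `v k = ∑_{i<k} u i - ∑_{i≥k} u i` has for `j = 1, ..., r-1` the values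
`(-1)^j f (v k) ≥ n θ` on the block `[q (4 ((n+1) (j+1) + k) + 2), q (4 ((n+1) (j+1) + k) + 3)]`, which is
contained in block `j` of the `u i` with `i < k` and in block `j-1` of the `u i` with `i ≥ k`. So
`- v k / n` satisfies `r - 1` alternating conditions, `‖v k‖ ≥ n (κ (r-1) - ε)`. `z i = u i / N`. -/
def S_JPM : Prop := S_JMU → S_RAM → ∀ (E : Type) [NormedAddCommGroup E] [NormedSpace ℝ E]
  (θ : ℝ) (x : ℕ → E) (f : ℕ → StrongDual ℝ E), JSeq θ x f → JPat E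

/-- **REFA**. Finitely many words suffice in LP for the vectors of the compact set `K (ball)` with norm
`≥ κ` and the functionals of the w*-compact set `‖φ‖ ≤ 1`, `|φ x₀| ≥ θ` (so `‖φ‖ ≥ θ`). Finite net `z j` of
`{K p : ‖p‖ ≤ 1, ‖K p‖ ≥ κ}`; for each `j` the w*-open sets `{φ : |φ (wd K l (z j))| > c θ κ / 2}` cover
(`WeakDual.isCompact_closedBall`); `‖wd K l z‖ ≤ ‖z‖`, `wd K l` is additive. -/
def S_REFA : Prop := ∀ (E : Type) [NormedAddCommGroup E] [NormedSpace ℝ E] [CompleteSpace E]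
  (K : E →L[ℝ] E), IsCompactOperator K → (∀ y, ‖y - K y‖ ≤ ‖y‖) → LP E K →
  ∀ (x₀ : E) (κ θ : ℝ), 0 < κ → 0 < θ → ‖x₀‖ = 1 →
    ∃ (c : ℝ) (Λ : Finset (List (E ≃ₗᵢ[ℝ] E))), 0 < c ∧ ∀ (p : E) (φ : StrongDual ℝ E), ‖p‖ ≤ 1 →
      κ ≤ ‖K p‖ → ‖φ‖ ≤ 1 → θ ≤ |φ x₀| → ∃ l ∈ Λ, c ≤ |φ (wd K l (K p))|

/-- **REFB**. `y - wd K l y` is a compact linear operator of `y` (induction on `l`); a finite `ε/2`-net of the
image of the ball under finitely many compact operators gives finitely many colours. -/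
def S_REFB : Prop := ∀ (E : Type) [NormedAddCommGroup E] [NormedSpace ℝ E] [CompleteSpace E]
  (K : E →L[ℝ] E), IsCompactOperator K → ∀ (Λ : Finset (List (E ≃ₗᵢ[ℝ] E))) (ε : ℝ), 0 < ε →
    ∃ (R : ℕ) (col : E → Fin R), ∀ y y' : E, ‖y‖ ≤ 1 → ‖y'‖ ≤ 1 → col y = col y' →
      ∀ l ∈ Λ, ‖(y - wd K l y) - (y' - wd K l y')‖ ≤ ε

/-- **REFC**. Suppose `K x₀ ≠ 0`, `‖x₀‖ = 1`. `κ = ‖K x₀‖/4`, `θ ‖K‖ ≤ ‖K x₀‖/8`; `c`, `Λ` from REFA; REFB for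
`Λ ∪ {l ++ [1] : l ∈ Λ}` (`1 = LinearIsometryEquiv.refl`, `wd K (l ++ [1]) y = wd K l (y - K y)`) with `ε`
tiny; `n` large, `δ` tiny, `z` from `JPat`, `g` an isometry with `g ((1/n) ∑ z i)` near `x₀` (`AT`; the norm is
`≥ 1 - δ/n`), `p i = g (z i)`. `f k` norms `∑_{i<k} p i - ∑_{i≥k} p i`: `f k (p i) ≥ 1 - δ` for `i < k`,
`≤ -1 + δ` for `i ≥ k`, `f k x₀` is near `(2 k - n)/n`. For a contraction `τ = wd K l`: `f k (p i - τ (p i))` is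
`≥ -δ` for `i < k` and `≤ δ` for `i ≥ k`. If `i < k ≤ j` and `m` have the same colour, then
`|f k (p m - τ (p m))| ≤ δ + 2 ε` for `τ = wd K l`, `wd K (l ++ [1])`, so
`|f k (wd K l (K (p m)))| ≤ 2 (δ + 2 ε) < c`: hence `‖K (p m)‖ < κ` if also `|f k x₀| ≥ θ`. So `‖K (p m)‖ < κ`
except if `m` is alone in its colour (`≤ R` such `m`) or `|2 m - n| ≤ 2 θ n + 3` or so. Sum over `m`:
`‖K x₀‖ ≤ κ + (3 θ + (R + 4)/n + 3 δ) ‖K‖`, contradiction (adapt the constants). -/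
def S_REFC : Prop := S_REFA → S_REFB → ∀ (E : Type) [NormedAddCommGroup E] [NormedSpace ℝ E]
  [CompleteSpace E] (K : E →L[ℝ] E), AT E → IsCompactOperator K → (∀ y, ‖y - K y‖ ≤ ‖y‖) →
  LP E K → JPat E → K = 0

end Pool.Agent.H65.BM
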