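import Pool.Agent.H65.BM.S2
import Pool.Agent.H65.BM.EQ

/-! BM2-SELF. -/

set_option autoImplicit false

namespace Pool.Agent.H65.BM

open Pool.Agent.N314.OP Pool.Agent.N314.OP.Mod

namespace SelfAux

variable {E : Type} [NormedAddCommGroup E] [NormedSpace ℝ E]

theorem conv {x V : E} {s r : ℝ} (hx : ‖x‖ = 1) (hs : 0 < s) (hV : ‖V‖ ≤ s) (h : RR E s r) :
    ‖x + V‖ + ‖x - V‖ ≤ 2 + r * (‖V‖ / s) := by
  by_cases hV0 : V = 0
  · subst hV0
    rw [norm_zero, zero_div, mul_zero, add_zero, sub_zero, add_zero, hx]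
    norm_num
  · have hVp : 0 < ‖V‖ := norm_pos_iff.2 hV0
    set θ := ‖V‖ / s with hθ
    have hθ0 : 0 < θ := div_pos hVp hs
    have hθ1 : θ ≤ 1 := (div_le_one hs).2 hV
    set W : E := θ⁻¹ • V with hW
    have hVW : V = θ • W := by rw [hW, smul_smul, mul_inv_cancel₀ hθ0.ne', one_smul]
    have hWs : ‖W‖ ≤ s := by
      rw [hW, norm_smul, Real.norm_of_nonneg (by positivity), hθ, inv_div, div_mul_cancel₀ _ hVp.ne']
    have h1 := h x W hx hWs
    have h2 : ‖x + V‖ ≤ (1 - θ) + θ * ‖x + W‖ := by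
      have e : x + V = (1 - θ) • x + θ • (x + W) := by rw [hVW]; module
      rw [e]
      refine (norm_add_le _ _).trans ?_
      rw [norm_smul, norm_smul, hx, Real.norm_of_nonneg (by linarith), Real.norm_of_nonneg hθ0.le,
        mul_one]
    have h3 : ‖x - V‖ ≤ (1 - θ) + θ * ‖x - W‖ := by
      have e : x - V = (1 - θ) • x + θ • (x - W) := by rw [hVW]; module
      rw [e]
      refine (norm_add_le _ _).trans ?_
      rw [norm_smul, norm_smul, hx, Real.norm_of_nonneg (by linarith), Real.norm_of_nonneg hθ0.le,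
        mul_one]
    have h4 := mul_le_mul_of_nonneg_left h1 hθ0.le
    linarith

/-- predictable sums have mean zero -/
theorem mean_zero {n : ℕ} (f : StrongDual ℝ E) (d : Fin n → (Fin n → Bool) → E) (hd : Pred d) :
    av (fun ε : Fin n → Bool => f (∑ i, sg (ε i) • d i ε)) = 0 := by
  have h1 : (fun ε : Fin n → Bool => f (∑ i, sg (ε i) • d i ε)) =
      fun ε => ∑ i, sg (ε i) * f (d i ε) := by
    funext ε
    rw [map_sum]
    exact Finset.sum_congr rfl fun i _ => by rw [map_smul, smul_eq_mul]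
  rw [h1, av_sum]
  apply Finset.sum_eq_zero
  intro i _
  have h2 := av_xor (fun l => decide (l = i)) (fun ε : Fin n → Bool => sg (ε i) * f (d i ε))
  have h3 : (fun s : Fin n → Bool => (fun ε : Fin n → Bool => sg (ε i) * f (d i ε))
      (fun j => xor (s j) (decide (j = i)))) = fun s => - (sg (s i) * f (d i s)) := by
    funext s
    have h4 : d i (fun j => xor (s j) (decide (j = i))) = d i s := by
      apply hd
      intro l hl
      have : decide (l = i) = false := by simpa using hl.ne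
      rw [this, Bool.xor_false]
    show sg (xor (s i) (decide (i = i))) * f (d i (fun j => xor (s j) (decide (j = i)))) = _
    rw [h4]
    simp [sg_not]
  rw [h3, av_neg] at h2
  linarith

end SelfAux

open SelfAux EqAux in
theorem self : S_SELF := by
  intro hG hW E _ _ hAT hUS
  obtain ⟨n, hn2, hn⟩ := hG E hUS (1 / 100) (by norm_num)
  have hnr : (2 : ℝ) ≤ n := by exact_mod_cast hn2
  have hn0 : (0 : ℝ) < n := by linarith
  refine ⟨1 / (4 * n), 1 / 2, by positivity, ?_, by norm_num, by norm_num, ?_⟩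
  · rw [div_le_div_iff₀ (by positivity) (by norm_num)]
    linarith
  intro s r hs hs1 hsr hr2 hRR x w hx hw
  by_contra hcon
  push Not at hcon
  obtain ⟨l, hl⟩ : ∃ l : ℝ, l = 1 / (4 * n) := ⟨_, rfl⟩
  rw [← hl] at hw hcon
  have hl0 : 0 < l := by rw [hl]; positivity
  have hnl : n * l = 1 / 4 := by rw [hl]; field_simp
  have hl8 : l ≤ 1 / 8 := by
    rw [hl, div_le_div_iff₀ (by positivity) (by norm_num)]
    linarith
  obtain ⟨t, ht⟩ : ∃ t : ℝ, t = l * s := ⟨_, rfl⟩
  rw [← ht] at hw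
  have ht0 : 0 < t := by rw [ht]; positivity
  have hnt : n * t = s / 4 := by rw [ht, ← mul_assoc, hnl]; ring
  have ht1 : t ≤ 1 := by
    rw [ht]
    nlinarith
  have hr0 : 0 < r := lt_of_lt_of_le (by positivity) hsr
  obtain ⟨c, hc1, hc2⟩ := bal (x := x) (w := w) hx (by linarith)
  have hsum : ‖x + w‖ + ‖x - w‖ - 2 * |c| * ‖w‖ ≤ ‖x + (w - c • x)‖ + ‖x - (w - c • x)‖ := by
    rcases le_total 0 c with h | h
    · rw [abs_of_nonneg h]; exact low hx h
    · have := low (x := x) (w := -w) (b := -c) hx (by linarith)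
      rw [abs_of_nonpos h]
      have e1 : x + (-w - (-c) • x) = x - (w - c • x) := by module
      have e2 : x - (-w - (-c) • x) = x + (w - c • x) := by module
      rw [e1, e2, norm_neg, sub_neg_eq_add, ← sub_eq_add_neg] at this
      linarith
  have hcw : |c| * ‖w‖ ≤ t ^ 2 := by
    have h1 : |c| ≤ t := hc1.trans hw
    have h2 := abs_nonneg c
    have h3 := norm_nonneg w
    calc |c| * ‖w‖ ≤ t * t := mul_le_mul h1 hw h3 ht0.le
      _ = t ^ 2 := by ring
  obtain ⟨w', hw'⟩ : ∃ w' : E, w' = w - c • x := ⟨_, rfl⟩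
  rw [← hw'] at hsum hc2
  have hw'n : ‖w'‖ ≤ 2 * t := by
    rw [hw']
    refine (norm_sub_le _ _).trans ?_
    rw [norm_smul, hx, mul_one, Real.norm_eq_abs]
    linarith
  obtain ⟨κ, hκ⟩ : ∃ κ : ℝ, κ = ‖x + w'‖ - 1 := ⟨_, rfl⟩
  have hκ1 : ‖x + w'‖ = 1 + κ := by rw [hκ]; ring
  have hκ2 : ‖x - w'‖ = 1 + κ := by rw [← hc2, hκ1]
  have hκlow : l / 8 * r < κ := by
    have h1 : 2 + l / 2 * r - 2 * t ^ 2 < 2 * (1 + κ) := by
      rw [hκ1, hκ2] at hsum
      linarith
    have h2 : t ^ 2 ≤ l / 8 * r := by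
      rw [ht, mul_pow]
      have h3 : l ^ 2 ≤ l / 8 := by nlinarith
      calc l ^ 2 * s ^ 2 ≤ l / 8 * s ^ 2 := by gcongr
        _ ≤ l / 8 * r := by gcongr
    linarith
  have hκ0 : 0 < κ := lt_trans (by positivity) hκlow
  have hκup : κ ≤ 2 * t := by
    have := norm_add_le x w'
    rw [hx] at this
    linarith
  have hnκ : n * κ ≤ 1 / 4 := by
    calc n * κ ≤ n * (2 * t) := by gcongr
      _ = s / 2 := by linarith
      _ ≤ 1 / 4 := by linarith
  obtain ⟨d, hd1, hd2, hd3⟩ := hW E hAT x w' t κ n ht0 hx hw'n hκ0 hnκ hκ1 hκ2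
  have hgro := hn d (4 * t) (by linarith) hd1 hd2
  have hbn : 1 / 100 * (n : ℝ) * (4 * t) = s / 100 := by linarith
  rw [hbn] at hgro
  -- the norm of the sums
  have hVs : ∀ ε : Fin n → Bool, ‖∑ i, sg (ε i) • d i ε‖ ≤ s := by
    intro ε
    calc ‖∑ i, sg (ε i) • d i ε‖ ≤ ∑ i, ‖sg (ε i) • d i ε‖ := norm_sum_le _ _
      _ ≤ ∑ i : Fin n, 4 * t := by
        refine Finset.sum_le_sum fun i _ => ?_
        rw [norm_smul, Real.norm_eq_abs, abs_sg, one_mul]
        exact hd2 i ε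
      _ = s := by
        rw [Finset.sum_const, Finset.card_univ, Fintype.card_fin, nsmul_eq_mul]
        linarith
  -- norming functional
  have hx0 : ‖x‖ ≠ 0 := by rw [hx]; exact one_ne_zero
  obtain ⟨f, hf1, hf2⟩ := exists_dual_vector ℝ x hx0
  have hf2' : f x = 1 := by
    rw [hx] at hf2
    simpa using hf2
  have hpt : ∀ ε : Fin n → Bool, 1 + 3 / 4 * (n * κ) ≤
      1 + f (∑ i, sg (ε i) • d i ε) + r / s * ‖∑ i, sg (ε i) • d i ε‖ := by
    intro ε
    obtain ⟨V, hV⟩ : ∃ V : E, V = ∑ i, sg (ε i) • d i ε := ⟨_, rfl⟩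
    have h1 := hd3 ε
    have h2 := hVs ε
    rw [← hV] at h1 h2 ⊢
    have h3 := conv hx hs h2 hRR
    have h4 : 1 - f V ≤ ‖x - V‖ := by
      have h5 := f.le_opNorm (x - V)
      rw [hf1, one_mul, map_sub, hf2'] at h5
      exact (le_abs_self _).trans h5
    have h6 : r * (‖V‖ / s) = r / s * ‖V‖ := by ring
    linarith
  have hav := av_mono hpt
  rw [av_const] at hav
  rw [av_add (fun ε : Fin n → Bool => 1 + f (∑ i, sg (ε i) • d i ε)), av_add, av_const,
    mean_zero f d hd1, av_mul_left] at hav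
  -- Cauchy-Schwarz
  have hcs := av_cs (fun ε : Fin n → Bool => ‖∑ i, sg (ε i) • d i ε‖) (fun _ => 1)
  simp only [mul_one, one_pow] at hcs
  rw [av_const, mul_one] at hcs
  have hav2 : av (fun ε : Fin n → Bool => ‖∑ i, sg (ε i) • d i ε‖) ≤ s / 100 := by
    have h1 := hcs.trans hgro
    exact le_of_sq_le_sq h1 (by positivity)
  have h1 : r / s * av (fun ε : Fin n → Bool => ‖∑ i, sg (ε i) • d i ε‖) ≤ r / 100 := by
    calc _ ≤ r / s * (s / 100) := by gcongr
      _ = r / 100 := by field_simp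
  have h2 : 3 / 4 * (n * (l / 8 * r)) < 3 / 4 * (n * κ) := by gcongr
  have h3 : 3 / 4 * (n * (l / 8 * r)) = 3 / 128 * r := by
    calc 3 / 4 * (n * (l / 8 * r)) = 3 / 32 * (n * l) * r := by ring
      _ = _ := by rw [hnl]; ring
  linarith

end Pool.Agent.H65.BM
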