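import Pool.Agent.H65.BM.S5
import Pool.Agent.H66.L.S8.Helper133.Brouwer

/-! # BM5-SFP (helper71): Schauder's fixed point theorem on a ball -/

set_option autoImplicit false

namespace Pool.Agent.H65.BM

open Pool.Agent.N314.OP Pool.Agent.N314.OP.Mod Filter Topology

namespace SFPaux

variable {Y : Type} [NormedAddCommGroup Y] [NormedSpace ℝ Y]

/-- approximate fixed points -/
theorem approx (y₁ : Y) (r : ℝ) (Φ : Y → Y) (C : Set Y) (hr : 0 < r)
    (hΦ : ContinuousOn Φ (Metric.closedBall y₁ r)) (hC : IsCompact C)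
    (hCB : C ⊆ Metric.closedBall y₁ r) (hΦC : ∀ y ∈ Metric.closedBall y₁ r, Φ y ∈ C)
    (ε : ℝ) (hε : 0 < ε) : ∃ v ∈ Metric.closedBall y₁ r, ‖v - Φ v‖ ≤ ε := by
  classical
  obtain ⟨t, htC, htf, hcov⟩ := hC.finite_cover_balls hε
  obtain ⟨F, hF⟩ : ∃ F : Finset Y, ∀ f, f ∈ F ↔ f ∈ t := ⟨htf.toFinset, fun f => htf.mem_toFinset⟩
  let w : Y → Y → ℝ := fun f u => max 0 (ε - ‖u - f‖)
  have hw0 : ∀ f u, 0 ≤ w f u := fun f u => le_max_left _ _
  have hwc : ∀ f, Continuous (w f) := fun f => by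
    show Continuous fun u => max 0 (ε - ‖u - f‖)
    fun_prop
  have hwε : ∀ f u, w f u * ‖f - u‖ ≤ w f u * ε := by
    intro f u
    by_cases h : ‖u - f‖ ≤ ε
    · rw [norm_sub_rev f u]
      exact mul_le_mul_of_nonneg_left h (hw0 f u)
    · push Not at h
      have : w f u = 0 := max_eq_left (by linarith)
      rw [this, zero_mul, zero_mul]
  let s : Y → ℝ := fun u => ∑ f ∈ F, w f u
  have hsc : Continuous s := by
    show Continuous fun u => ∑ f ∈ F, w f u
    exact continuous_finsetSum _ fun f _ => hwc f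
  have hspos : ∀ u ∈ C, 0 < s u := by
    intro u hu
    have h1 := hcov hu
    rw [Set.mem_iUnion₂] at h1
    obtain ⟨f, hf, hfu⟩ := h1
    rw [Metric.mem_ball, dist_eq_norm] at hfu
    refine Finset.sum_pos' (fun f _ => hw0 f u) ⟨f, (hF f).2 hf, ?_⟩
    exact lt_max_of_lt_right (by linarith)
  let P : Y → Y := fun u => (s u)⁻¹ • ∑ f ∈ F, w f u • f
  have hPc : ContinuousOn P C := by
    refine ContinuousOn.smul ?_ ?_
    · exact hsc.continuousOn.inv₀ (fun u hu => (hspos u hu).ne')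
    · exact (continuous_finsetSum _ fun f _ => (hwc f).smul continuous_const).continuousOn
  have hPdiff : ∀ u ∈ C, ∀ z : Y, P u - z = (s u)⁻¹ • ∑ f ∈ F, w f u • (f - z) := by
    intro u hu z
    have hs := (hspos u hu).ne'
    have h1 : ∑ f ∈ F, w f u • (f - z) = (∑ f ∈ F, w f u • f) - s u • z := by
      simp only [smul_sub]
      rw [Finset.sum_sub_distrib]
      congr 1
      exact (Finset.sum_smul).symm
    rw [h1, smul_sub, smul_smul, inv_mul_cancel₀ hs, one_smul]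
  have hPbd : ∀ u ∈ C, ∀ (z : Y) (R : ℝ), (∀ f ∈ F, w f u * ‖f - z‖ ≤ w f u * R) → ‖P u - z‖ ≤ R := by
    intro u hu z R h
    have hs := hspos u hu
    rw [hPdiff u hu z, norm_smul, norm_inv, Real.norm_of_nonneg hs.le]
    rw [inv_mul_le_iff₀ hs]
    calc ‖∑ f ∈ F, w f u • (f - z)‖ ≤ ∑ f ∈ F, ‖w f u • (f - z)‖ := norm_sum_le _ _
      _ = ∑ f ∈ F, w f u * ‖f - z‖ := by
          refine Finset.sum_congr rfl fun f _ => ?_
          rw [norm_smul, Real.norm_of_nonneg (hw0 f u)]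
      _ ≤ ∑ f ∈ F, w f u * R := Finset.sum_le_sum h
      _ = s u * R := (Finset.sum_mul _ _ _).symm
  have hPu : ∀ u ∈ C, ‖P u - u‖ ≤ ε := fun u hu => hPbd u hu u ε fun f _ => hwε f u
  have hPB : ∀ u ∈ C, P u ∈ Metric.closedBall y₁ r := by
    intro u hu
    rw [Metric.mem_closedBall, dist_eq_norm]
    refine hPbd u hu y₁ r fun f hf => ?_
    have h1 := hCB (htC ((hF f).1 hf))
    rw [Metric.mem_closedBall, dist_eq_norm] at h1
    exact mul_le_mul_of_nonneg_left h1 (hw0 f u)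
  -- radial retraction
  let ρ : Y → Y := fun v => y₁ + (r / max r ‖v - y₁‖) • (v - y₁)
  have hmax : ∀ v : Y, 0 < max r ‖v - y₁‖ := fun v => lt_max_of_lt_left hr
  have hρc : Continuous ρ := by
    refine continuous_const.add (Continuous.smul ?_ (by fun_prop))
    exact continuous_const.div (by fun_prop) (fun v => (hmax v).ne')
  have hρB : ∀ v, ρ v ∈ Metric.closedBall y₁ r := by
    intro v
    rw [Metric.mem_closedBall, dist_eq_norm]
    show ‖y₁ + (r / max r ‖v - y₁‖) • (v - y₁) - y₁‖ ≤ r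
    rw [add_sub_cancel_left, norm_smul, Real.norm_of_nonneg (div_nonneg hr.le (hmax v).le),
      div_mul_eq_mul_div, div_le_iff₀ (hmax v)]
    exact mul_le_mul_of_nonneg_left (le_max_right _ _) hr.le
  have hρid : ∀ v ∈ Metric.closedBall y₁ r, ρ v = v := by
    intro v hv
    rw [Metric.mem_closedBall, dist_eq_norm] at hv
    show y₁ + (r / max r ‖v - y₁‖) • (v - y₁) = v
    rw [max_eq_left hv, div_self hr.ne', one_smul]
    abel
  -- Brouwer
  let V : Submodule ℝ Y := Submodule.span ℝ (F : Set Y)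
  have hPV : ∀ u, P u ∈ V := fun u => Submodule.smul_mem _ _
    (Submodule.sum_mem _ fun f hf => Submodule.smul_mem _ _ (Submodule.subset_span hf))
  haveI : FiniteDimensional ℝ V := FiniteDimensional.span_finset ℝ F
  have hcomp : Continuous fun v : V => P (Φ (ρ (v : Y))) := by
    have h1 : Continuous fun v : V => Φ (ρ (v : Y)) :=
      hΦ.comp_continuous (hρc.comp continuous_subtype_val) (fun v => hρB _)
    exact hPc.comp_continuous h1 (fun v => hΦC _ (hρB _))
  obtain ⟨v, hv⟩ := Pool.Agent.Helper133.Brouwer.brouwer (E := V)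
    (fun v => ⟨P (Φ (ρ (v : Y))), hPV _⟩) (hcomp.subtype_mk _) (‖y₁‖ + r) (by
      intro v
      have h1 := hPB _ (hΦC _ (hρB (v : Y)))
      rw [Metric.mem_closedBall, dist_eq_norm] at h1
      show ‖P (Φ (ρ (v : Y)))‖ ≤ _
      calc ‖P (Φ (ρ (v : Y)))‖ = ‖y₁ + (P (Φ (ρ (v : Y))) - y₁)‖ := by congr 1; abel
        _ ≤ _ := (norm_add_le _ _).trans (by linarith))
  have hv' : P (Φ (ρ (v : Y))) = (v : Y) := congrArg Subtype.val hv
  have hvB : (v : Y) ∈ Metric.closedBall y₁ r := by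
    rw [← hv']
    exact hPB _ (hΦC _ (hρB (v : Y)))
  rw [hρid _ hvB] at hv'
  refine ⟨v, hvB, ?_⟩
  have := hPu _ (hΦC _ hvB)
  rwa [hv'] at this

end SFPaux

open SFPaux in
theorem sfp : S_SFP := by
  intro Y _ _ y₁ r Φ C hr hΦ hΦB hC hΦC
  have hC' : IsCompact (C ∩ Metric.closedBall y₁ r) := hC.inter_right Metric.isClosed_closedBall
  have hΦC' : ∀ y ∈ Metric.closedBall y₁ r, Φ y ∈ C ∩ Metric.closedBall y₁ r :=
    fun y hy => ⟨hΦC y hy, hΦB y hy⟩
  have h1 : ∀ n : ℕ, ∃ v ∈ Metric.closedBall y₁ r, ‖v - Φ v‖ ≤ 1 / ((n : ℝ) + 1) := fun n =>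
    approx y₁ r Φ _ hr hΦ hC' Set.inter_subset_right hΦC' _ (by positivity)
  choose v hvB hv using h1
  obtain ⟨c, hc, φ, hφ, hlim⟩ := hC'.tendsto_subseq (fun n => hΦC' (v n) (hvB n))
  have h2 : Tendsto (fun n => v (φ n) - Φ (v (φ n))) atTop (𝓝 0) := by
    refine squeeze_zero_norm (fun n => hv (φ n)) ?_
    exact tendsto_one_div_add_atTop_nhds_zero_nat.comp hφ.tendsto_atTop
  have h3 : Tendsto (fun n => v (φ n)) atTop (𝓝 c) := by
    have := h2.add hlim
    simpa using this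
  have h4 : Tendsto (fun n => Φ (v (φ n))) atTop (𝓝 (Φ c)) := by
    have h5 : Tendsto (fun n => v (φ n)) atTop (𝓝[Metric.closedBall y₁ r] c) :=
      tendsto_nhdsWithin_iff.2 ⟨h3, Eventually.of_forall fun n => hvB (φ n)⟩
    exact (hΦ c hc.2).tendsto.comp h5
  exact ⟨c, hc.2, tendsto_nhds_unique h4 hlim⟩

end Pool.Agent.H65.BM
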