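import Pool.Agent.H65.BM.S4
import Pool.Agent.H65.BM.Tools

set_option autoImplicit false

/-! # BM4-SUB: signed sums over random sets of coordinates -/

namespace Pool.Agent.H65.BM

open Pool.Agent.N314.OP Pool.Agent.N314.OP.Mod

namespace SUBAux

/-- push forward of a product law -/
lemma ex_push {ι Z O : Type} [Fintype ι] [DecidableEq ι] [Fintype Z] [Fintype O] [DecidableEq O]
    (v : Z → ℝ) (p : Z → O) (F : (ι → O) → ℝ) :
    ex v (fun ζ : ι → Z => F (fun j => p (ζ j))) =
      ex (fun o => ∑ z, if p z = o then v z else 0) F := by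
  unfold ex
  have h1 : ∀ η : ι → O, (∏ j, ∑ z, if p z = η j then v z else 0) =
      ∑ ζ : ι → Z, if (fun j => p (ζ j)) = η then ∏ j, v (ζ j) else 0 := by
    intro η
    rw [← sum_prod_fn fun j z => if p z = η j then v z else 0]
    refine Finset.sum_congr rfl fun ζ _ => ?_
    by_cases h : (fun j => p (ζ j)) = η
    · rw [if_pos h]
      exact Finset.prod_congr rfl fun j _ => if_pos (congrFun h j)
    · rw [if_neg h]
      obtain ⟨j, hj⟩ := Function.ne_iff.1 h
      exact Finset.prod_eq_zero (Finset.mem_univ j) (if_neg hj)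
  simp_rw [h1, Finset.sum_mul]
  rw [Finset.sum_comm]
  refine Finset.sum_congr rfl fun ζ _ => ?_
  simp only [ite_mul, zero_mul]
  rw [Finset.sum_ite_eq]
  simp

lemma av_comm {ι κ : Type} [Fintype ι] [DecidableEq ι] [Fintype κ] [DecidableEq κ]
    (F : (ι → Bool) → (κ → Bool) → ℝ) :
    av (fun s => av fun t => F s t) = av (fun t => av fun s => F s t) := by
  unfold av
  simp_rw [← Finset.sum_div]
  rw [Finset.sum_comm, div_right_comm]

end SUBAux

open SUBAux in
theorem sub : S_SUB := by
  intro hCBS E _ _ c hc hCB ι Ω _ _ _ w P _ n x B hn hw hw1 hP hB h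
  classical
  have hn0 : (0 : ℝ) < n := by exact_mod_cast hn
  let F : (ι → Option Ω) → ℝ := fun η =>
    av fun s : ι → Bool => ‖∑ j, sg (s j) • ((η j).elim 0 (x j))‖ ^ 2
  let ρ : Ω → Option Ω := fun ω => if P ω then some ω else none
  let v : Ω × Fin n → ℝ := fun z => if P z.1 then w z.1 else 0
  let p : Fin n → Ω × Fin n → Option Ω := fun i z => if z.2 = i then some z.1 else none
  have hv0 : ∀ z, 0 ≤ v z := fun z => by
    simp only [v]
    split_ifs
    · exact hw _
    · exact le_rfl
  have hv1 : ∑ z, v z = 1 := by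
    rw [Fintype.sum_prod_type]
    simp only [v, Finset.sum_const, Finset.card_univ, Fintype.card_fin, nsmul_eq_mul]
    rw [← Finset.mul_sum, hP]
    field_simp
  have hpush : ∀ i : Fin n, (fun o => ∑ z, if p i z = o then v z else 0) =
      fun o => ∑ ω, if ρ ω = o then w ω else 0 := by
    intro i
    have hsome : ∀ a : Ω, (∑ z, if p i z = some a then v z else 0) =
        if P a then w a else 0 := by
      intro a
      rw [Fintype.sum_prod_type, Finset.sum_eq_single a, Finset.sum_eq_single i]
      · simp [p, v]
      · intro k _ hk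
        simp [p, hk]
      · simp
      · intro b _ hb
        refine Finset.sum_eq_zero fun k _ => if_neg ?_
        simp only [p]
        split_ifs
        · simpa using hb
        · simp
      · simp
    have hsome' : ∀ a : Ω, (∑ ω, if ρ ω = some a then w ω else 0) = if P a then w a else 0 := by
      intro a
      rw [Finset.sum_eq_single a]
      · simp only [ρ]
        split_ifs <;> simp_all
      · intro b _ hb
        refine if_neg ?_
        simp only [ρ]
        split_ifs
        · simpa using hb
        · simp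
      · simp
    have htot : ∑ o : Option Ω, (∑ z, if p i z = o then v z else 0) = 1 := by
      rw [Finset.sum_comm, ← hv1]
      exact Finset.sum_congr rfl fun z _ => by simp
    have htot' : ∑ o : Option Ω, (∑ ω, if ρ ω = o then w ω else 0) = 1 := by
      rw [Finset.sum_comm, ← hw1]
      exact Finset.sum_congr rfl fun z _ => by simp
    rw [Fintype.sum_option] at htot htot'
    simp_rw [hsome] at htot
    simp_rw [hsome'] at htot'
    funext o
    cases o with
    | some a => rw [hsome, hsome']
    | none => linarith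
  have hL : ∀ i : Fin n, ex w (fun ω : ι → Ω => av fun s : ι → Bool =>
      ‖∑ j, sg (s j) • (if P (ω j) then x j (ω j) else 0)‖ ^ 2) =
      ex v (fun ζ : ι → Ω × Fin n => F fun j => p i (ζ j)) := by
    intro i
    rw [ex_push v (p i) F, hpush i, ← ex_push w ρ F]
    congr 1
    funext ω
    simp only [F]
    congr 1
    funext s
    congr 2
    refine Finset.sum_congr rfl fun j _ => ?_
    simp only [ρ]
    split_ifs <;> rfl
  have hG : ∀ ζ : ι → Ω × Fin n, (∀ j, P (ζ j).1) →
      ∑ i, F (fun j => p i (ζ j)) ≤ 2 / c * Real.sqrt n * B := by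
    intro ζ hζ
    have e1 : ∑ i, F (fun j => p i (ζ j)) = av (fun s : ι → Bool =>
        ∑ i, ‖∑ j, sg (s j) • (if (ζ j).2 = i then x j (ζ j).1 else 0)‖ ^ 2) := by
      rw [av_sum]
      refine Finset.sum_congr rfl fun i _ => ?_
      simp only [F]
      congr 1
      funext s
      congr 2
      refine Finset.sum_congr rfl fun j _ => ?_
      simp only [p]
      split_ifs <;> rfl
    rw [e1]
    calc av (fun s : ι → Bool =>
          ∑ i, ‖∑ j, sg (s j) • (if (ζ j).2 = i then x j (ζ j).1 else 0)‖ ^ 2)
        ≤ av (fun s : ι → Bool => 2 / c * Real.sqrt n * av (fun θ : Fin n → Bool =>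
            ‖∑ i, sg (θ i) • ∑ j, sg (s j) • (if (ζ j).2 = i then x j (ζ j).1 else 0)‖ ^ 2)) :=
          av_mono fun s => hCBS E c hc hCB n fun i =>
            ∑ j, sg (s j) • (if (ζ j).2 = i then x j (ζ j).1 else 0)
      _ = 2 / c * Real.sqrt n * av (fun θ : Fin n → Bool => av (fun s : ι → Bool =>
            ‖∑ j, sg (s j) • (sg (θ (ζ j).2) • x j (ζ j).1)‖ ^ 2)) := by
          rw [av_mul_left, av_comm]
          congr 2
          funext θ
          congr 1
          funext s
          congr 2
          simp_rw [Finset.smul_sum]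
          rw [Finset.sum_comm]
          refine Finset.sum_congr rfl fun j _ => ?_
          rw [Finset.sum_eq_single (ζ j).2]
          · rw [if_pos rfl, smul_comm]
          · intro i _ hi
            rw [if_neg hi.symm, smul_zero, smul_zero]
          · simp
      _ = 2 / c * Real.sqrt n * av (fun θ : Fin n → Bool => av (fun s : ι → Bool =>
            ‖∑ j, sg (s j) • x j (ζ j).1‖ ^ 2)) := by
          congr 2
          funext θ
          exact av_signs (fun j => θ (ζ j).2) Finset.univ fun j => x j (ζ j).1
      _ ≤ 2 / c * Real.sqrt n * B := by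
          rw [av_const]
          gcongr
          exact h (fun j => (ζ j).1) hζ
  have hfin : (n : ℝ) * ex w (fun ω : ι → Ω => av fun s : ι → Bool =>
      ‖∑ j, sg (s j) • (if P (ω j) then x j (ω j) else 0)‖ ^ 2) ≤ 2 / c * Real.sqrt n * B := by
    calc (n : ℝ) * ex w (fun ω : ι → Ω => av fun s : ι → Bool =>
          ‖∑ j, sg (s j) • (if P (ω j) then x j (ω j) else 0)‖ ^ 2)
        = ∑ i : Fin n, ex v (fun ζ : ι → Ω × Fin n => F fun j => p i (ζ j)) := by
          rw [← Finset.sum_congr rfl fun i _ => hL i, Finset.sum_const, Finset.card_univ,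
            Fintype.card_fin, nsmul_eq_mul]
      _ = ex v (fun ζ : ι → Ω × Fin n => ∑ i : Fin n, F fun j => p i (ζ j)) := by
          rw [ex_finsum]
      _ ≤ ex v (fun _ : ι → Ω × Fin n => 2 / c * Real.sqrt n * B) := by
          unfold ex
          refine Finset.sum_le_sum fun ζ _ => ?_
          by_cases hζ : ∀ j, P (ζ j).1
          · exact mul_le_mul_of_nonneg_left (hG ζ hζ) (Finset.prod_nonneg fun j _ => hv0 _)
          · push Not at hζ
            obtain ⟨j, hj⟩ := hζ
            have : ∏ j, v (ζ j) = 0 := Finset.prod_eq_zero (Finset.mem_univ j) (if_neg hj)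
            rw [this, zero_mul, zero_mul]
      _ = 2 / c * Real.sqrt n * B := ex_const hv1 _
  have hs : Real.sqrt n * Real.sqrt n = n := Real.mul_self_sqrt hn0.le
  have hs0 : 0 < Real.sqrt n := Real.sqrt_pos.2 hn0
  have e : 2 / (c * Real.sqrt n) * B = (2 / c * Real.sqrt n * B) / n := by
    rw [eq_div_iff hn0.ne']
    calc 2 / (c * Real.sqrt n) * B * n = 2 / (c * Real.sqrt n) * B *
          (Real.sqrt n * Real.sqrt n) := by rw [hs]
      _ = 2 / c * Real.sqrt n * B := by field_simp
  rw [e, le_div_iff₀ hn0, mul_comm]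
  exact hfin

end Pool.Agent.H65.BM
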