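import Pool.Agent.H65.BM.T1
import Pool.Agent.H65.BM.S4

/-! BM4-T1C: one step of the type estimate (adapted from `T1.lean`, with `UC2` and `CIa`). -/

set_option autoImplicit false

namespace Pool.Agent.H65.BM

open Pool.Agent.N314.OP Pool.Agent.N314.OP.Mod

open T1Aux in
theorem t1c : S_T1C := by
  intro hU E _ _ J hCI hJ1 hJ2 π hπ0 hπ1
  obtain ⟨q, hq⟩ : ∃ q : ℝ, q = Real.sqrt π := ⟨_, rfl⟩
  have hq0 : 0 < q := by rw [hq]; exact Real.sqrt_pos.2 hπ0
  have hqq : q ^ 2 = π := by rw [hq]; exact Real.sq_sqrt hπ0.le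
  have hq1 : q ≤ 1 / 2 := by
    by_contra hcon
    push Not at hcon
    nlinarith
  obtain ⟨h, hh⟩ : ∃ h : ℝ, h = 1 / q := ⟨_, rfl⟩
  have hh0 : 0 < h := by rw [hh]; positivity
  have hh1 : 1 ≤ h := by
    rw [hh, le_div_iff₀ hq0]
    linarith
  have hhh : h ^ 2 = 1 / π := by rw [hh, ← hqq]; ring
  obtain ⟨δ, hδ⟩ : ∃ δ : ℝ, δ = q / 4 := ⟨_, rfl⟩
  have hδ0 : 0 < δ := by rw [hδ]; positivity
  obtain ⟨W, hW0, hW⟩ := hCI δ hδ0
  refine ⟨128 / π ^ 2 * W ^ 2, by positivity, ?_⟩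
  intro ι _ _ D z hz
  obtain ⟨R2, hR2⟩ : ∃ R2 : ℝ, R2 = av (fun s : ι → Bool => ‖∑ j ∈ D, sg (s j) • z j‖ ^ 2) := ⟨_, rfl⟩
  obtain ⟨X, hX⟩ : ∃ X : ℝ, X = ex (wt 1 π) (fun ω : ι → (Fin 1 → Bool) × Option (Fin 1) =>
      av fun s : ι → Bool =>
        ‖∑ j ∈ D.filter (fun j => (ω j).2 ≠ none), sg (s j) • z j‖ ^ 2) := ⟨_, rfl⟩
  rw [← hR2, ← hX]
  have hR20 : 0 ≤ R2 := by rw [hR2]; exact av_nonneg fun s => by positivity
  have hwn : ∀ ω, 0 ≤ wt 1 π ω := fun ω => wt_nonneg hπ0.le (by linarith) ω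
  have hws : ∑ ω, wt 1 π ω = 1 := wt_sum le_rfl
  have hX0 : 0 ≤ X := by
    rw [hX]
    exact ex_nonneg hwn fun ω => av_nonneg fun s => by positivity
  -- the two second moments
  obtain ⟨Y, hY⟩ : ∃ Y : ℝ, Y = ex (wt 1 π) (fun ω : ι → (Fin 1 → Bool) × Option (Fin 1) =>
      av fun s : ι → Bool => ‖sm s fun j =>
        uv 1 h (fun (_ : Fin 1) (_ : Fin 1 → Bool) => if j ∈ D then z j else 0) (ω j)‖ ^ 2) := ⟨_, rfl⟩
  have hY0 : 0 ≤ Y := by
    rw [hY]
    exact ex_nonneg hwn fun ω => av_nonneg fun s => by positivity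
  have hYω : ∀ ω : ι → (Fin 1 → Bool) × Option (Fin 1), av (fun s : ι → Bool => ‖sm s fun j =>
      uv 1 h (fun (_ : Fin 1) (_ : Fin 1 → Bool) => if j ∈ D then z j else 0) (ω j)‖ ^ 2) =
      av (fun s : ι → Bool => ‖∑ j ∈ D, sg (s j) • (co h (ω j) • z j)‖ ^ 2) := by
    intro ω
    congr 1
    funext s
    rw [← sm_ite]
    congr 3
    funext j
    exact huv h D z j (ω j)
  have hRY : R2 ≤ 4 * Y := by
    rw [hY, ← ex_mul_left, ← ex_const (ι := ι) hws R2]
    refine ex_mono hwn fun ω => ?_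
    rw [hYω, hR2]
    have h1 := av_split D z ω
    have h2 := sym (Finset.filter_subset (fun j => (ω j).2 = none) D) (fun j => co h (ω j) • z j)
    have h3 := sym (Finset.filter_subset (fun j => (ω j).2 ≠ none) D) (fun j => co h (ω j) • z j)
    rw [av_none] at h2
    rw [av_some] at h3
    have h4 : 0 ≤ av (fun s : ι → Bool =>
        ‖∑ j ∈ D.filter (fun j => (ω j).2 ≠ none), sg (s j) • z j‖ ^ 2) :=
      av_nonneg fun s => by positivity
    have h5 : (1 : ℝ) ≤ h ^ 2 := one_le_pow₀ hh1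
    nlinarith
  have hLD : ex (wt 1 π) (fun ω : ι → (Fin 1 → Bool) × Option (Fin 1) =>
      av fun s : ι → Bool => ‖sm s fun j => if (ω j).2 = none then 0 else
        uv 1 h (fun (_ : Fin 1) (_ : Fin 1 → Bool) => if j ∈ D then z j else 0) (ω j)‖ ^ 2) =
      1 / π * X := by
    rw [hX, ← ex_mul_left]
    congr 1
    funext ω
    rw [← hhh, ← av_some]
    congr 1
    funext s
    rw [← sm_ite]
    congr 3
    funext j
    rw [huv]
    simp only [Finset.mem_filter]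
    by_cases h1 : (ω j).2 = none <;> by_cases h2 : j ∈ D <;> simp [h1, h2]
  -- the inequality of U
  obtain ⟨L, hL⟩ : ∃ L : ℝ, L = Real.sqrt Y := ⟨_, rfl⟩
  obtain ⟨LD, hLDd⟩ : ∃ LD : ℝ, LD = Real.sqrt (1 / π * X) := ⟨_, rfl⟩
  obtain ⟨R, hR⟩ : ∃ R : ℝ, R = Real.sqrt R2 := ⟨_, rfl⟩
  obtain ⟨σ, hσ⟩ : ∃ σ : ℝ, σ = Real.sqrt (D.card / π) := ⟨_, rfl⟩
  have hL0 : 0 ≤ L := by rw [hL]; exact Real.sqrt_nonneg _
  have hLD0 : 0 ≤ LD := by rw [hLDd]; exact Real.sqrt_nonneg _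
  have hR0 : 0 ≤ R := by rw [hR]; exact Real.sqrt_nonneg _
  have hσ0 : 0 ≤ σ := by rw [hσ]; exact Real.sqrt_nonneg _
  have hLL : L ^ 2 = Y := by rw [hL]; exact Real.sq_sqrt hY0
  have hLDL : LD ^ 2 = 1 / π * X := by rw [hLDd]; exact Real.sq_sqrt (by positivity)
  have hRR : R ^ 2 = R2 := by rw [hR]; exact Real.sq_sqrt hR20
  have hσσ : σ ^ 2 = D.card / π := by rw [hσ]; exact Real.sq_sqrt (by positivity)
  have hmain := hU E J δ W hδ0.le hW0 hW hJ1 hJ2 ι 1 π h
    (fun j (_ : Fin 1) (_ : Fin 1 → Bool) => if j ∈ D then z j else 0) σ R le_rfl hπ0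
    (by linarith) hh0 (by
      have : π * h = q := by rw [hh, ← hqq]; field_simp
      rw [this]
      push_cast
      linarith) (fun j i ε ε' _ => rfl) hσ0 hR0 (by
      intro g hg ω
      have h1 : ∀ j : ι, (g (uv 1 h (fun (_ : Fin 1) (_ : Fin 1 → Bool) =>
          if j ∈ D then z j else 0) (ω j))) ^ 2 ≤ if j ∈ D then 1 / π else 0 := by
        intro j
        rw [huv]
        split_ifs with hj
        · rw [map_smul, smul_eq_mul, mul_pow]
          have h2 : (g (z j)) ^ 2 ≤ 1 := by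
            have h3 := g.le_opNorm (z j)
            rw [Real.norm_eq_abs] at h3
            have h4 : |g (z j)| ≤ 1 := by
              have := mul_le_mul hg (hz j hj) (norm_nonneg _) zero_le_one
              linarith
            rw [← sq_abs]
            exact pow_le_one₀ (abs_nonneg _) h4
          have h5 : (co h (ω j)) ^ 2 ≤ 1 / π := by
            unfold co
            split_ifs
            · rw [sg_sq, ← hhh]
              exact one_le_pow₀ hh1
            · exact hhh.le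
          calc (co h (ω j)) ^ 2 * (g (z j)) ^ 2 ≤ (co h (ω j)) ^ 2 * 1 :=
                mul_le_mul_of_nonneg_left h2 (sq_nonneg _)
            _ ≤ 1 / π := by rw [mul_one]; exact h5
        · rw [map_zero]
          simp
      calc ∑ j, (g (uv 1 h (fun (_ : Fin 1) (_ : Fin 1 → Bool) =>
          if j ∈ D then z j else 0) (ω j))) ^ 2 ≤ ∑ j, (if j ∈ D then 1 / π else 0) :=
            Finset.sum_le_sum fun j _ => h1 j
        _ = σ ^ 2 := by
            rw [Finset.sum_ite_mem, Finset.univ_inter, Finset.sum_const, nsmul_eq_mul, hσσ]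
            ring) (by
      intro i ω
      rw [hRR, hR2]
      refine le_of_eq ?_
      congr 1
      funext s
      rw [← sm_ite]) L LD hL0 hLD0 (by rw [hLL, hY]) (by rw [hLDL, hLD])
  have e1 : (1 + ((1 : ℕ) : ℝ) / (π * h ^ 2)) = 2 := by
    rw [hhh]
    push_cast
    field_simp
    norm_num
  have e2 : (((1 : ℕ) : ℝ) ^ 2 / (π * h)) = 1 / q := by
    have : π * h = q := by rw [hh, ← hqq]; field_simp
    rw [this]
    push_cast
    ring
  rw [e1, e2] at hmain
  -- the end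
  have hRL : R ≤ 2 * L := by
    have h1 : R ^ 2 ≤ (2 * L) ^ 2 := by
      rw [hRR, mul_pow, hLL]
      linarith
    exact abs_le_of_sq_le_sq' h1 (by positivity) |>.2
  have hB : L ≤ 4 * LD + 4 / q * W * σ := by
    rcases eq_or_lt_of_le hL0 with h0 | h0
    · rw [← h0]; positivity
    · have h1 : 1 / q * R * (δ * L + W * σ) ≤ 1 / q * (2 * L) * (δ * L + W * σ) := by
        have : 0 ≤ δ * L + W * σ := by positivity
        gcongr
      have h2 : 1 / q * (2 * L) * (δ * L + W * σ) =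
          L * (L / 2 + 2 / q * W * σ) := by
        rw [hδ]
        field_simp
        ring
      have h3 : L * L ≤ L * (2 * LD + L / 2 + 2 / q * W * σ) := by
        calc L * L = L ^ 2 := by ring
          _ ≤ 2 * L * LD + 1 / q * R * (δ * L + W * σ) := hmain
          _ ≤ 2 * L * LD + L * (L / 2 + 2 / q * W * σ) := by linarith
          _ = L * (2 * LD + L / 2 + 2 / q * W * σ) := by ring
      have h4 := le_of_mul_le_mul_left h3 h0
      have h5 : 4 / q * W * σ = 2 * (2 / q * W * σ) := by ring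
      linarith
  have hfin : L ^ 2 ≤ 32 * LD ^ 2 + 32 * (1 / q * W * σ) ^ 2 := by
    have h1 : L ^ 2 ≤ (4 * LD + 4 / q * W * σ) ^ 2 := pow_le_pow_left₀ hL0 hB 2
    have h2 : 4 / q * W * σ = 4 * (1 / q * W * σ) := by ring
    rw [h2] at h1
    nlinarith [sq_nonneg (LD - 1 / q * W * σ)]
  calc R2 ≤ 4 * Y := hRY
    _ = 4 * L ^ 2 := by rw [hLL]
    _ ≤ 4 * (32 * LD ^ 2 + 32 * (1 / q * W * σ) ^ 2) := by linarith
    _ = 128 * LD ^ 2 + 128 * (1 / q ^ 2 * W ^ 2 * σ ^ 2) := by ring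
    _ = 128 / π * X + 128 / π ^ 2 * W ^ 2 * D.card := by
        rw [hLDL, hσσ, hqq]
        field_simp

end Pool.Agent.H65.BM
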