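import Pool.Agent.H65.BM.S
import Pool.Agent.H65.BM.Tools

set_option autoImplicit false

/-! # BM-T2: the type estimate (helper71) -/

namespace Pool.Agent.H65.BM

open Finset

namespace T2Aux

/-- the indicator of the modes `some i`, centred -/
noncomputable def xi (π : ℝ) (x : (Fin 1 → Bool) × Option (Fin 1)) : ℝ :=
  (if x.2 = none then 0 else 1) - π

theorem xi_mean {π : ℝ} : ∑ x, wt 1 π x * xi π x = 0 := by
  have e : ∀ x, wt 1 π x * xi π x = wt 1 π x * (if x.2 = none then 0 else 1) - π * wt 1 π x := by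
    intro x; unfold xi; ring
  rw [Finset.sum_congr rfl fun x _ => e x, Finset.sum_sub_distrib, ← Finset.mul_sum,
    wt_mode le_rfl, wt_sum le_rfl]
  ring

theorem xi_var {π : ℝ} : ∑ x, wt 1 π x * xi π x ^ 2 = π - π ^ 2 := by
  have e : ∀ x, wt 1 π x * xi π x ^ 2 =
      (1 - 2 * π) * (wt 1 π x * (if x.2 = none then 0 else 1)) + π ^ 2 * wt 1 π x := by
    intro x; unfold xi; split_ifs <;> ring
  rw [Finset.sum_congr rfl fun x _ => e x, Finset.sum_add_distrib, ← Finset.mul_sum,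
    ← Finset.mul_sum, wt_mode le_rfl, wt_sum le_rfl]
  ring

theorem sum_xi {ι : Type} [Fintype ι] [DecidableEq ι] (π : ℝ) (D : Finset ι)
    (ω : ι → (Fin 1 → Bool) × Option (Fin 1)) :
    ∑ j ∈ D, xi π (ω j) = ((D.filter fun j => (ω j).2 ≠ none).card : ℝ) - π * D.card := by
  unfold xi
  rw [Finset.sum_sub_distrib, Finset.sum_const, nsmul_eq_mul, Finset.card_filter]
  push_cast
  congr 1
  · refine Finset.sum_congr rfl fun j _ => ?_
    by_cases h : (ω j).2 = none
    · simp [h]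
    · simp [h]
  · ring

theorem exists_pi {η : ℝ} (hη : 0 < η) :
    ∃ π : ℝ, 0 < π ∧ π ≤ 1 / 4 ∧ (2 * π) ^ η ≤ 1 / 512 := by
  have h1 : (0 : ℝ) < (1 / 512) ^ (1 / η) := Real.rpow_pos_of_pos (by norm_num) _
  refine ⟨min (1 / 4) ((1 / 512) ^ (1 / η) / 2), lt_min (by norm_num) (by linarith),
    min_le_left _ _, ?_⟩
  have h2 : 2 * min (1 / 4 : ℝ) ((1 / 512) ^ (1 / η) / 2) ≤ (1 / 512) ^ (1 / η) := by
    have := min_le_right (1 / 4 : ℝ) ((1 / 512) ^ (1 / η) / 2)
    linarith
  have h3 : (0 : ℝ) ≤ 2 * min (1 / 4 : ℝ) ((1 / 512) ^ (1 / η) / 2) := by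
    have := lt_min (by norm_num : (0 : ℝ) < 1 / 4) (by linarith : 0 < (1 / 512 : ℝ) ^ (1 / η) / 2)
    linarith
  refine (Real.rpow_le_rpow h3 h2 hη.le).trans (le_of_eq ?_)
  rw [← Real.rpow_mul (by norm_num), one_div_mul_cancel hη.ne', Real.rpow_one]

end T2Aux

open T2Aux in
theorem t2 : S_T2 := by
  intro E _ _ H η hη
  obtain ⟨π, h0, h4, hπη⟩ := exists_pi hη
  obtain ⟨C', hC', hH⟩ := H π h0 h4
  obtain ⟨B, hB⟩ : ∃ B, B = 2 * (128 / π ^ 2 + C') := ⟨_, rfl⟩
  have hB0 : 0 < B := by rw [hB]; positivity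
  refine ⟨B, hB0, ?_⟩
  intro ι _ _ D z hz
  induction hN : D.card using Nat.strong_induction_on generalizing D with
  | _ N ih =>
    rcases Nat.eq_zero_or_pos N with h | hNpos
    · subst h
      rw [Finset.card_eq_zero] at hN
      subst hN
      simp only [Finset.sum_empty, norm_zero]
      rw [av_const]
      have : (0 : ℝ) ^ (1 + η) = 0 := Real.zero_rpow (by linarith)
      simp [this]
    have hN1 : (1 : ℝ) ≤ N := by exact_mod_cast hNpos
    have hN0 : (0 : ℝ) < N := by linarith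
    have key := hH ι D z hz
    rw [hN] at key
    have hle : ∀ ω : ι → (Fin 1 → Bool) × Option (Fin 1),
        av (fun s : ι → Bool => ‖∑ j ∈ D.filter (fun j => (ω j).2 ≠ none), sg (s j) • z j‖ ^ 2) ≤
          B * (2 * π * N) ^ (1 + η) + 1 / π ^ 2 * (∑ j ∈ D, xi π (ω j)) ^ 2 := by
      intro ω
      rw [sum_xi, hN]
      obtain ⟨D', hD'⟩ : ∃ D', D' = D.filter fun j => (ω j).2 ≠ none := ⟨_, rfl⟩
      rw [← hD']
      have hsub : D' ⊆ D := by rw [hD']; exact Finset.filter_subset _ _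
      have hzD : ∀ j ∈ D', ‖z j‖ ≤ 1 := fun j hj => hz j (hsub hj)
      have hcard : (D'.card : ℝ) ≤ N := by
        have := Finset.card_le_card hsub
        rw [hN] at this
        exact_mod_cast this
      have hc0 : (0 : ℝ) ≤ D'.card := Nat.cast_nonneg _
      rcases le_or_gt (D'.card : ℝ) (2 * π * N) with hc | hc
      · have h5 : (D'.card : ℝ) < N := by nlinarith
        have h6 := ih D'.card (by exact_mod_cast h5) D' hzD rfl
        have h7 : (D'.card : ℝ) ^ (1 + η) ≤ (2 * π * N) ^ (1 + η) :=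
          Real.rpow_le_rpow hc0 hc (by linarith)
        have h8 := mul_le_mul_of_nonneg_left h7 hB0.le
        have h9 : 0 ≤ 1 / π ^ 2 * ((D'.card : ℝ) - π * N) ^ 2 := by positivity
        linarith
      · have h6 := av_le_card D' z hzD
        have h7 : π * (D'.card : ℝ) ≤ (D'.card : ℝ) - π * N := by nlinarith
        have h8 : (π * (D'.card : ℝ)) ^ 2 ≤ ((D'.card : ℝ) - π * N) ^ 2 :=
          pow_le_pow_left₀ (by positivity) h7 2
        have h9 : (D'.card : ℝ) ^ 2 ≤ 1 / π ^ 2 * ((D'.card : ℝ) - π * N) ^ 2 := by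
          have h10 := mul_le_mul_of_nonneg_left h8 (by positivity : 0 ≤ 1 / π ^ 2)
          have h11 : 1 / π ^ 2 * (π * (D'.card : ℝ)) ^ 2 = (D'.card : ℝ) ^ 2 := by
            field_simp
          linarith
        have h10 : 0 ≤ B * (2 * π * N) ^ (1 + η) := by positivity
        linarith
    have hw : ∀ ω, 0 ≤ wt 1 π ω := wt_nonneg h0.le (by linarith)
    have h5 := ex_mono hw hle
    rw [ex_add, ex_const (wt_sum le_rfl), ex_mul_left,
      ex_orth (wt_sum le_rfl) D (fun _ => xi π) (fun _ _ => xi_mean), Finset.sum_const, xi_var,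
      nsmul_eq_mul, hN] at h5
    have h6 : 1 / π ^ 2 * ((N : ℝ) * (π - π ^ 2)) ≤ N / π := by
      have : 1 / π ^ 2 * ((N : ℝ) * (π - π ^ 2)) = N / π - N := by
        field_simp
      rw [this]
      linarith
    have h7 : (2 * π * N) ^ (1 + η) = 2 * π * (2 * π) ^ η * (N : ℝ) ^ (1 + η) := by
      rw [Real.mul_rpow (by positivity) hN0.le, Real.rpow_add (by positivity), Real.rpow_one]
    have h8 : (N : ℝ) ≤ (N : ℝ) ^ (1 + η) := by
      have := Real.rpow_le_rpow_of_exponent_le hN1 (by linarith : (1 : ℝ) ≤ 1 + η)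
      rwa [Real.rpow_one] at this
    have h9 : 128 / π * (B * (2 * π * N) ^ (1 + η) + N / π) + C' * N ≤
        B * (N : ℝ) ^ (1 + η) := by
      have e1 : 128 / π * (B * (2 * π * N) ^ (1 + η) + N / π) + C' * N =
          256 * (2 * π) ^ η * (B * (N : ℝ) ^ (1 + η)) + (128 / π ^ 2 + C') * N := by
        rw [h7]
        field_simp
        ring
      rw [e1]
      have e2 : 256 * (2 * π) ^ η * (B * (N : ℝ) ^ (1 + η)) ≤ 1 / 2 * (B * (N : ℝ) ^ (1 + η)) :=
        mul_le_mul_of_nonneg_right (by linarith) (by positivity)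
      have e3 : (128 / π ^ 2 + C') * N ≤ 1 / 2 * (B * (N : ℝ) ^ (1 + η)) := by
        have e4 := mul_le_mul_of_nonneg_left h8 hB0.le
        have e5 : (128 / π ^ 2 + C') * N = 1 / 2 * (B * N) := by rw [hB]; ring
        rw [e5]
        linarith
      linarith
    have h10 : (0 : ℝ) ≤ 128 / π := by positivity
    have h11 := mul_le_mul_of_nonneg_left (h5.trans (add_le_add_right h6 _)) h10
    linarith

end Pool.Agent.H65.BM
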