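import Pool.Agent.H65.BM.S
import Pool.Agent.H65.BM.BAL

/-! # Project BM: U (helper72) -/

set_option autoImplicit false

namespace Pool.Agent.H65.BM.U

open Pool.Agent.N314.OP Pool.Agent.N314.OP.Mod
open Pool.Agent.H65.BM

/-! ## expectations -/

section EX

variable {ι Ω : Type} [Fintype ι] [DecidableEq ι] [Fintype Ω]

theorem av_add (F G : (ι → Bool) → ℝ) : av (fun s => F s + G s) = av F + av G := by
  simp only [av, Finset.sum_add_distrib, add_div]

theorem av_mul (c : ℝ) (F : (ι → Bool) → ℝ) : av (fun s => c * F s) = c * av F := by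
  simp only [av, ← Finset.mul_sum, mul_div_assoc]

theorem av_sum {κ : Type} (t : Finset κ) (F : κ → (ι → Bool) → ℝ) :
    av (fun s => ∑ i ∈ t, F i s) = ∑ i ∈ t, av (F i) := by
  simp only [av]
  rw [Finset.sum_comm, Finset.sum_div]

theorem ex_add (w : Ω → ℝ) (F G : (ι → Ω) → ℝ) :
    ex w (fun s => F s + G s) = ex w F + ex w G := by
  simp only [ex, mul_add, Finset.sum_add_distrib]

theorem ex_mul (w : Ω → ℝ) (c : ℝ) (F : (ι → Ω) → ℝ) :
    ex w (fun s => c * F s) = c * ex w F := by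
  simp only [ex, Finset.mul_sum]
  exact Finset.sum_congr rfl fun ω _ => by ring

theorem ex_sum (w : Ω → ℝ) {κ : Type} (t : Finset κ) (F : κ → (ι → Ω) → ℝ) :
    ex w (fun s => ∑ i ∈ t, F i s) = ∑ i ∈ t, ex w (F i) := by
  simp only [ex, Finset.mul_sum]
  rw [Finset.sum_comm]

theorem ex_mono {w : Ω → ℝ} (hw : ∀ ω, 0 ≤ w ω) {F G : (ι → Ω) → ℝ} (h : ∀ ω, F ω ≤ G ω) :
    ex w F ≤ ex w G := by
  unfold ex
  exact Finset.sum_le_sum fun ω _ =>
    mul_le_mul_of_nonneg_left (h ω) (Finset.prod_nonneg fun j _ => hw _)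

theorem ex_const {w : Ω → ℝ} (hw : ∑ ω, w ω = 1) (c : ℝ) :
    ex (ι := ι) w (fun _ => c) = c := by
  unfold ex
  rw [← Finset.sum_mul, ← Fintype.prod_sum (fun (_ : ι) (x : Ω) => w x)]
  simp [hw]

/-- Cauchy-Schwarz -/
theorem cs {w : Ω → ℝ} (hw : ∀ ω, 0 ≤ w ω) {P Q R : (ι → Ω) → (ι → Bool) → ℝ}
    (hP : ∀ ω s, 0 ≤ P ω s) (hQ : ∀ ω s, 0 ≤ Q ω s) (h : ∀ ω s, R ω s ^ 2 ≤ P ω s * Q ω s) :
    ex w (fun ω => av (R ω)) ^ 2 ≤ ex w (fun ω => av (P ω)) * ex w (fun ω => av (Q ω)) := by
  have e : ∀ F : (ι → Ω) → (ι → Bool) → ℝ, ex w (fun ω => av (F ω)) =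
      ∑ x : (ι → Ω) × (ι → Bool), (∏ j, w (x.1 j)) / 2 ^ Fintype.card ι * F x.1 x.2 := by
    intro F
    rw [Fintype.sum_prod_type]
    unfold ex av
    refine Finset.sum_congr rfl fun ω _ => ?_
    simp only
    rw [Finset.sum_div, Finset.mul_sum]
    exact Finset.sum_congr rfl fun s _ => by ring
  rw [e, e, e]
  have hW : ∀ x : (ι → Ω) × (ι → Bool), 0 ≤ (∏ j, w (x.1 j)) / 2 ^ Fintype.card ι := fun x =>
    div_nonneg (Finset.prod_nonneg fun j _ => hw _) (by positivity)
  apply Finset.sum_sq_le_sum_mul_sum_of_sq_le_mul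
  · intro x _
    exact mul_nonneg (hW x) (hP _ _)
  · intro x _
    exact mul_nonneg (hW x) (hQ _ _)
  · intro x _
    have h1 := h x.1 x.2
    have h2 := mul_le_mul_of_nonneg_left h1 (mul_nonneg (hW x) (hW x))
    calc _ = (∏ j, w (x.1 j)) / 2 ^ Fintype.card ι * ((∏ j, w (x.1 j)) / 2 ^ Fintype.card ι)
          * R x.1 x.2 ^ 2 := by ring
      _ ≤ _ := h2
      _ = _ := by ring

end EX

/-! ## the law of one coordinate -/

theorem wt_nonneg {k : ℕ} {π : ℝ} (h0 : 0 < π) (h1 : π ≤ 1 / 2)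
    (ω : (Fin k → Bool) × Option (Fin k)) : 0 ≤ wt k π ω := by
  unfold wt
  apply div_nonneg _ (by positivity)
  split
  · linarith
  · positivity

theorem wt_sum {k : ℕ} {π : ℝ} (hk : 1 ≤ k) :
    ∑ ω : (Fin k → Bool) × Option (Fin k), wt k π ω = 1 := by
  rw [Fintype.sum_prod_type]
  have hk' : (k : ℝ) ≠ 0 := by positivity
  have : ∀ ε : Fin k → Bool, ∑ m : Option (Fin k), wt k π (ε, m) = 1 / 2 ^ k := by
    intro ε
    rw [Fintype.sum_option]
    simp only [wt, if_true, reduceCtorEq, if_false, Finset.sum_const, Finset.card_univ,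
      Fintype.card_fin, nsmul_eq_mul]
    field_simp
    ring
  simp only [this, Finset.sum_const, Finset.card_univ, nsmul_eq_mul]
  simp [Fintype.card_bool, Fintype.card_fin]

variable {E : Type} [NormedAddCommGroup E] [NormedSpace ℝ E]

/-- truncation of a path -/
def tr {k : ℕ} (i : Fin k) (ε : Fin k → Bool) : Fin k → Bool := fun l => if l < i then ε l else false

/-- the coefficients -/
noncomputable def co {k : ℕ} (α : ℝ) (i : Fin k) (ω : (Fin k → Bool) × Option (Fin k)) : ℝ :=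
  match ω.2 with
  | none => α * sg (ω.1 i)
  | some l => if l = i then -1 else 0

theorem sg_sq (b : Bool) : sg b * sg b = 1 := by
  cases b <;> simp [sg]

theorem sg_not (b : Bool) : sg (!b) = - sg b := by
  cases b <;> simp [sg]

theorem abs_sg (b : Bool) : |sg b| = 1 := by
  cases b <;> simp [sg]

/-- flip one coordinate -/
def fl {k : ℕ} (m : Fin k) (ε : Fin k → Bool) : Fin k → Bool := Function.update ε m (!ε m)

theorem fl_fl {k : ℕ} (m : Fin k) (ε : Fin k → Bool) : fl m (fl m ε) = ε := by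
  funext l
  unfold fl
  by_cases h : l = m
  · subst h; simp
  · simp [Function.update_of_ne h]

theorem fl_ne {k : ℕ} (m : Fin k) (ε : Fin k → Bool) : fl m ε ≠ ε := by
  intro h
  have := congrFun h m
  simp [fl] at this

theorem tr_fl {k : ℕ} {i m : Fin k} (h : i ≤ m) (ε : Fin k → Bool) : tr i (fl m ε) = tr i ε := by
  funext l
  unfold tr fl
  split
  · rename_i hl
    rw [Function.update_of_ne (ne_of_lt (lt_of_lt_of_le hl h))]
  · rfl

omit [NormedAddCommGroup E] [NormedSpace ℝ E] in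
theorem d_fl {k : ℕ} {d : Fin k → (Fin k → Bool) → E} (hd : Pred d) {l m : Fin k} (h : l ≤ m)
    (ε : Fin k → Bool) : d l (fl m ε) = d l ε := by
  apply hd
  intro l' hl'
  unfold fl
  rw [Function.update_of_ne (ne_of_lt (lt_of_lt_of_le hl' h))]

theorem off {k : ℕ} {d : Fin k → (Fin k → Bool) → E} (hd : Pred d) (i : Fin k)
    (q : Fin k → Bool) {l : Fin k} (hl : l ≠ i) :
    ∑ ε : Fin k → Bool, (if tr i ε = q then (sg (ε i) * sg (ε l)) • d l ε else 0) = 0 := by
  apply Finset.sum_involution (fun ε _ => fl (max i l) ε)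
  · intro ε _
    rw [tr_fl (le_max_left _ _), d_fl hd (le_max_right _ _)]
    split
    · rw [← add_smul]
      have : sg (ε i) * sg (ε l) + sg (fl (max i l) ε i) * sg (fl (max i l) ε l) = 0 := by
        rcases lt_or_gt_of_ne hl with h | h
        · rw [max_eq_left h.le]
          have h1 : fl i ε i = !ε i := by simp [fl]
          have h2 : fl i ε l = ε l := by unfold fl; rw [Function.update_of_ne h.ne]
          rw [h1, h2, sg_not]; ring
        · rw [max_eq_right h.le]
          have h1 : fl l ε l = !ε l := by simp [fl]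
          have h2 : fl l ε i = ε i := by unfold fl; rw [Function.update_of_ne h.ne]
          rw [h1, h2, sg_not]; ring
      rw [this, zero_smul]
    · simp
  · intro ε _ _
    exact fl_ne _ _
  · intro ε _
    exact Finset.mem_univ _
  · intro ε _
    exact fl_fl _ _

theorem balance {k : ℕ} {d : Fin k → (Fin k → Bool) → E} (hd : Pred d) {π h α : ℝ} (hk : 1 ≤ k)
    (hα : (1 - π) * α = π * h / k) (i : Fin k) (q : Fin k → Bool) :
    ∑ ω : (Fin k → Bool) × Option (Fin k),
      (if tr i ω.1 = q then (wt k π ω * co α i ω) • uv k h d ω else 0) = 0 := by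
  have hk' : (k : ℝ) ≠ 0 := by positivity
  rw [Fintype.sum_prod_type]
  have e1 : ∀ ε : Fin k → Bool, ∑ m : Option (Fin k),
      (if tr i (ε, m).1 = q then (wt k π (ε, m) * co α i (ε, m)) • uv k h d (ε, m) else 0) =
      ∑ l, (((1 - π) * α / 2 ^ k) • (if tr i ε = q then (sg (ε i) * sg (ε l)) • d l ε else 0)) -
        (π * h / k / 2 ^ k) • (if tr i ε = q then d i ε else 0) := by
    intro ε
    rw [Fintype.sum_option]
    by_cases hq : tr i ε = q
    · simp only [hq, if_true, wt, co, uv, reduceCtorEq, if_false]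
      have e2 : ∑ l : Fin k, (π / ↑k / 2 ^ k * if l = i then (-1 : ℝ) else 0) • h • d l ε
          = - ((π * h / k / 2 ^ k) • d i ε) := by
        rw [Finset.sum_eq_single i]
        · rw [if_pos rfl, smul_smul, ← neg_smul]
          congr 1
          ring
        · intro l _ hl
          rw [if_neg hl]; simp
        · intro h; exact absurd (Finset.mem_univ _) h
      rw [e2, Finset.smul_sum, ← sub_eq_add_neg]
      congr 1
      refine Finset.sum_congr rfl fun l _ => ?_
      rw [smul_smul, smul_smul]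
      congr 1
      ring
    · simp [hq]
  rw [Finset.sum_congr rfl fun ε _ => e1 ε, Finset.sum_sub_distrib, Finset.sum_comm]
  have e3 : ∑ l : Fin k, ∑ ε : Fin k → Bool, (((1 - π) * α / 2 ^ k) •
      (if tr i ε = q then (sg (ε i) * sg (ε l)) • d l ε else 0)) =
      ((1 - π) * α / 2 ^ k) • ∑ ε : Fin k → Bool, (if tr i ε = q then d i ε else 0) := by
    rw [Finset.sum_eq_single i]
    · rw [← Finset.smul_sum]
      congr 1
      refine Finset.sum_congr rfl fun ε _ => ?_
      rw [sg_sq, one_smul]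
    · intro l _ hl
      rw [← Finset.smul_sum, off hd i q hl, smul_zero]
    · intro h; exact absurd (Finset.mem_univ _) h
  rw [e3, ← Finset.smul_sum, hα, sub_self]

/-- the sum of the directions over `i` -/
theorem dirs {k : ℕ} (d : Fin k → (Fin k → Bool) → E) {h α : ℝ} (hh : 0 < h)
    (ω : (Fin k → Bool) × Option (Fin k)) :
    ∑ i, co α i ω • d i ω.1 =
      α • uv k h d ω - (α + 1 / h) • (if ω.2 = none then 0 else uv k h d ω) := by
  obtain ⟨ε, m⟩ := ω
  cases m with
  | none =>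
    simp only [co, uv, if_true, smul_zero, sub_zero, Finset.smul_sum, smul_smul]
  | some l =>
    simp only [co, uv, reduceCtorEq, if_false]
    rw [Finset.sum_eq_single l]
    · rw [if_pos rfl, smul_smul, smul_smul, ← sub_smul]
      congr 1
      field_simp
      ring
    · intro i _ hi
      rw [if_neg hi.symm, zero_smul]
    · intro h; exact absurd (Finset.mem_univ _) h

theorem main (hBAL : S_BAL) : S_U := by
  intro E _ _ J C A hC hA hCI hself hbd ι _ _ k π h d δ σ R hk hπ hπ2 hh hπh hd hδ hδ1 hσ hR hg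
    hav L LD hL hLD hL2 hLD2
  have hk' : (0 : ℝ) < k := by positivity
  have hπ1 : 0 < 1 - π := by linarith
  obtain ⟨α, hα⟩ : ∃ α : ℝ, α = π * h / ((1 - π) * k) := ⟨_, rfl⟩
  have hα0 : 0 < α := by rw [hα]; positivity
  have hα1 : α ≤ 1 := by rw [hα]; exact div_le_one_of_le₀ hπh (by positivity)
  have hαe : (1 - π) * α = π * h / k := by rw [hα]; field_simp
  have hw0 := wt_nonneg (k := k) hπ hπ2
  have hw1 := wt_sum (k := k) (π := π) hk
  -- abbreviations
  obtain ⟨Y, hY⟩ : ∃ Y : (ι → (Fin k → Bool) × Option (Fin k)) → (ι → Bool) → E,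
    Y = fun ω s => sm s fun j => uv k h (d j) (ω j) := ⟨_, rfl⟩
  obtain ⟨YD, hYD⟩ : ∃ YD : (ι → (Fin k → Bool) × Option (Fin k)) → (ι → Bool) → E,
    YD = fun ω s => sm s fun j => if (ω j).2 = none then 0 else uv k h (d j) (ω j) := ⟨_, rfl⟩
  have hL2' : L ^ 2 = ex (wt k π) (fun ω => av fun s => ‖Y ω s‖ ^ 2) := by rw [hL2, hY]
  have hLD2' : LD ^ 2 = ex (wt k π) (fun ω => av fun s => ‖YD ω s‖ ^ 2) := by rw [hLD2, hYD]
  -- the estimate for one `i`
  have hone : ∀ i : Fin k, |ex (wt k π) (fun ω : ι → (Fin k → Bool) × Option (Fin k) =>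
      av (fun s : ι → Bool => ∑ j, sg (s j) * co α i (ω j) * J (Y ω s) (d j i (ω j).1)))| ≤
      C * R * (δ * L + δ ^ (-A) * σ) := by
    intro i
    have := hBAL E J C A hC hA hCI ι ((Fin k → Bool) × Option (Fin k)) (Fin k → Bool) (wt k π)
      (fun j => uv k h (d j)) (fun ω => tr i ω.1) (co α i) (fun j q => d j i q) δ σ hw0 hw1
      (by
        intro ω
        unfold co
        split
        · rw [abs_mul, abs_sg, mul_one, abs_of_pos hα0]; exact hα1
        · split
          · simp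
          · simp)
      (fun j q => balance (hd j) hk hαe i q) hδ hδ1 hσ hg
    have ed : ∀ (ω : ι → (Fin k → Bool) × Option (Fin k)) (j : ι),
        d j i (tr i (ω j).1) = d j i (ω j).1 := by
      intro ω j
      apply hd j
      intro l hl
      simp [tr, hl]
    simp only [ed] at this
    rw [hY]
    refine this.trans ?_
    have e1 : Real.sqrt (ex (wt k π) fun ω : ι → (Fin k → Bool) × Option (Fin k) =>
        av fun s : ι → Bool => ‖sm s fun j => uv k h (d j) (ω j)‖ ^ 2) = L := by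
      rw [← hL2, Real.sqrt_sq hL]
    have e2 : Real.sqrt (ex (wt k π) fun ω : ι → (Fin k → Bool) × Option (Fin k) =>
        av fun θ : ι → Bool => ‖sm θ fun j => d j i (ω j).1‖ ^ 2) ≤ R := by
      rw [← Real.sqrt_sq hR]
      apply Real.sqrt_le_sqrt
      rw [← ex_const (ι := ι) hw1 (R ^ 2)]
      exact ex_mono hw0 fun ω => hav i fun j => (ω j).1
    rw [e1]
    apply mul_le_mul_of_nonneg_right
    · exact mul_le_mul_of_nonneg_left e2 (by linarith)
    · have : 0 ≤ δ ^ (-A) := Real.rpow_nonneg hδ.le _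
      positivity
  -- the pointwise identity
  have hpt : ∀ (ω : ι → (Fin k → Bool) × Option (Fin k)) (s : ι → Bool),
      ∑ i : Fin k, ∑ j, sg (s j) * co α i (ω j) * J (Y ω s) (d j i (ω j).1) =
        2 * α * ‖Y ω s‖ ^ 2 + (-(α + 1 / h)) * J (Y ω s) (YD ω s) := by
    intro ω s
    rw [Finset.sum_comm]
    have e1 : ∀ j, ∑ i : Fin k, sg (s j) * co α i (ω j) * J (Y ω s) (d j i (ω j).1) =
        J (Y ω s) (sg (s j) • ∑ i, co α i (ω j) • d j i (ω j).1) := by
      intro j
      rw [map_smul, map_sum, smul_eq_mul, Finset.mul_sum]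
      refine Finset.sum_congr rfl fun i _ => ?_
      rw [map_smul, smul_eq_mul, mul_assoc]
    rw [Finset.sum_congr rfl fun j _ => e1 j, ← map_sum]
    have e2 : ∑ j, sg (s j) • ∑ i, co α i (ω j) • d j i (ω j).1 =
        α • Y ω s - (α + 1 / h) • YD ω s := by
      rw [hY, hYD]
      simp only [sm, Finset.smul_sum, ← Finset.sum_sub_distrib]
      refine Finset.sum_congr rfl fun j _ => ?_
      rw [← Finset.smul_sum, dirs (d j) hh (ω j)]
      module
    rw [e2, map_sub, map_smul, map_smul, hself, smul_eq_mul, smul_eq_mul]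
    ring
  -- sum over `i`
  obtain ⟨G, hG⟩ : ∃ G : ℝ, G = ex (wt k π) (fun ω => av fun s => J (Y ω s) (YD ω s)) := ⟨_, rfl⟩
  have hsum : |2 * α * L ^ 2 + (-(α + 1 / h)) * G| ≤ k * (C * R * (δ * L + δ ^ (-A) * σ)) := by
    have e : 2 * α * L ^ 2 + (-(α + 1 / h)) * G = ∑ i : Fin k, ex (wt k π)
        (fun ω : ι → (Fin k → Bool) × Option (Fin k) =>
        av (fun s : ι → Bool => ∑ j, sg (s j) * co α i (ω j) * J (Y ω s) (d j i (ω j).1))) := by
      rw [← ex_sum]
      simp only [← av_sum, hpt]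
      simp only [av_add, av_mul, ex_add, ex_mul]
      rw [← hL2', ← hG]
    rw [e]
    refine (Finset.abs_sum_le_sum_abs _ _).trans ?_
    refine (Finset.sum_le_sum fun i _ => hone i).trans ?_
    simp
  -- Cauchy-Schwarz
  have hGb : |G| ≤ 2 * L * LD := by
    have h1 : G ^ 2 ≤ ex (wt k π) (fun ω => av fun s => 2 ^ 2 * ‖Y ω s‖ ^ 2) *
        ex (wt k π) (fun ω => av fun s => ‖YD ω s‖ ^ 2) := by
      rw [hG]
      apply cs hw0
      · intro ω s; positivity
      · intro ω s; positivity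
      · intro ω s
        have := hbd (Y ω s) (YD ω s)
        rw [← sq_abs]
        calc |J (Y ω s) (YD ω s)| ^ 2 ≤ (2 * ‖Y ω s‖ * ‖YD ω s‖) ^ 2 :=
              pow_le_pow_left₀ (abs_nonneg _) this 2
          _ = _ := by ring
    rw [← hLD2'] at h1
    simp only [av_mul, ex_mul] at h1
    rw [← hL2'] at h1
    have h2 : |G| ^ 2 ≤ (2 * L * LD) ^ 2 := by rw [sq_abs]; nlinarith
    exact le_of_sq_le_sq h2 (by positivity)
  -- the end
  obtain ⟨Z, hZ⟩ : ∃ Z : ℝ, Z = C * R * (δ * L + δ ^ (-A) * σ) := ⟨_, rfl⟩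
  rw [← hZ] at hsum
  have hZ0 : 0 ≤ Z := by
    rw [hZ]
    have : 0 ≤ δ ^ (-A) := Real.rpow_nonneg hδ.le _
    positivity
  have h1 : 2 * α * L ^ 2 ≤ (α + 1 / h) * (2 * L * LD) + k * Z := by
    have h2 := (abs_le.1 hsum).2
    have h3 := (abs_le.1 hGb).2
    have h4 : (α + 1 / h) * G ≤ (α + 1 / h) * (2 * L * LD) :=
      mul_le_mul_of_nonneg_left h3 (by positivity)
    linarith
  have h2 : L ^ 2 ≤ (1 + 1 / (α * h)) * L * LD + k * Z / (2 * α) := by
    have : L ^ 2 = (2 * α * L ^ 2) / (2 * α) := by field_simp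
    rw [this]
    calc _ ≤ ((α + 1 / h) * (2 * L * LD) + k * Z) / (2 * α) :=
          div_le_div_of_nonneg_right h1 (by positivity)
      _ = _ := by field_simp
  have h3 : 1 / (α * h) ≤ k / (π * h ^ 2) := by
    rw [hα]
    rw [div_le_div_iff₀ (by positivity) (by positivity)]
    have : k * (π * h / ((1 - π) * k) * h) = π * h ^ 2 / (1 - π) := by field_simp
    rw [this, one_mul, le_div_iff₀ hπ1]
    nlinarith [mul_pos hπ (pow_pos hh 2)]
  have h4 : k * Z / (2 * α) ≤ (k : ℝ) ^ 2 / (π * h) * C * R * (δ * L + δ ^ (-A) * σ) := by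
    have : (k : ℝ) ^ 2 / (π * h) * C * R * (δ * L + δ ^ (-A) * σ) = (k : ℝ) ^ 2 / (π * h) * Z := by
      rw [hZ]; ring
    rw [this, hα]
    have e : k * Z / (2 * (π * h / ((1 - π) * k))) = ((k : ℝ) ^ 2 / (π * h) * Z) * ((1 - π) / 2) := by
      field_simp
    rw [e]
    have : 0 ≤ (k : ℝ) ^ 2 / (π * h) * Z := by positivity
    nlinarith
  have h5 : (1 + 1 / (α * h)) * L * LD ≤ (1 + k / (π * h ^ 2)) * L * LD := by
    apply mul_le_mul_of_nonneg_right _ hLD
    apply mul_le_mul_of_nonneg_right _ hL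
    linarith
  linarith

end Pool.Agent.H65.BM.U

namespace Pool.Agent.H65.BM

/-- **U** -/
theorem u : S_U := U.main bal

end Pool.Agent.H65.BM
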