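import Pool.Agent.H65.BM.S4
import Pool.Agent.H65.BM.U

/-! # BM4-UC2: the main inequality with `CIa` (helper56, adapted from BAL (helper92) and U (helper72)) -/

set_option autoImplicit false
set_option linter.unusedSectionVars false

namespace Pool.Agent.H65.BM.UC2P

open Finset Pool.Agent.H65.BM Pool.Agent.H65.BM.Bal

section

variable {E : Type} [NormedAddCommGroup E] [NormedSpace ℝ E]
variable {ι Ω Q : Type} [Fintype ι] [DecidableEq ι] [Fintype Ω] [Fintype Q] [DecidableEq Q]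
variable {w : Ω → ℝ} {a : Ω → ℝ} {κ : Ω → Q} {u : ι → Ω → E}

/-- the inequality in one class -/
lemma one_class {J : E → StrongDual ℝ E} {D b : ℝ} (hD : 0 ≤ D) (hb : 0 ≤ b) (hCI : CIa E J D b)
    (hbal : ∀ (j : ι) (q : Q), ∑ ω, (if κ ω = q then (w ω * a ω) • u j ω else 0) = 0)
    (hw : ∀ ω, 0 ≤ w ω) (ha : ∀ ω, |a ω| ≤ 1) {σ : ℝ} (hσ : 0 ≤ σ)
    (hg : ∀ g : StrongDual ℝ E, ‖g‖ ≤ 1 → ∀ ω : ι → Ω, ∑ j, (g (u j (ω j))) ^ 2 ≤ σ ^ 2)
    (θ : ι → Bool) (q : ι → Q) (V : E) (Y : (ι → Bool × Ω) → E)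
    (hY : Y = fun τ => sm (fun j => (τ j).1) fun j => u j (τ j).2) :
    |∑ τ : ι → Bool × Ω, GQ w a κ θ q τ * J (Y τ) V| ≤
      ‖V‖ * (D * (Real.sqrt (∑ τ, GQ w a κ θ q τ) *
        Real.sqrt (∑ τ, GQ w a κ θ q τ * ‖Y τ‖ ^ 2)) + b * σ * ∑ τ, GQ w a κ θ q τ) := by
  obtain ⟨p, hp⟩ : ∃ p : ℝ, p = ∑ τ : ι → Bool × Ω, GQ w a κ θ q τ := ⟨_, rfl⟩
  rw [← hp]
  have hp0 : 0 ≤ p := by
    rw [hp]; exact sum_nonneg fun τ _ => GQ_nonneg hw ha θ q τ
  rcases hp0.eq_or_lt with hz | hpos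
  · have h0 : ∀ τ : ι → Bool × Ω, GQ w a κ θ q τ = 0 := by
      have h1 := (sum_eq_zero_iff_of_nonneg (s := univ) fun τ _ => GQ_nonneg hw ha θ q τ).1
        (hp.symm.trans hz.symm)
      exact fun τ => h1 τ (mem_univ τ)
    have : ∑ τ : ι → Bool × Ω, GQ w a κ θ q τ * J (Y τ) V = 0 :=
      sum_eq_zero fun τ _ => by rw [h0, zero_mul]
    rw [this, abs_zero]
    positivity
  · have h1 := hCI (ι → Bool × Ω) (fun τ => GQ w a κ θ q τ / p) Y V σ
      (fun τ => div_nonneg (GQ_nonneg hw ha θ q τ) hp0)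
      (by rw [← sum_div, ← hp, div_self hpos.ne']) hσ
      (fun g hg1 => by
        have h2 := weak hbal hw ha (hg g hg1) θ q
        rw [← hp] at h2
        have e : ∑ τ : ι → Bool × Ω, GQ w a κ θ q τ / p * (g (Y τ)) ^ 2 =
            (∑ τ : ι → Bool × Ω, GQ w a κ θ q τ *
              (g (sm (fun j => (τ j).1) fun j => u j (τ j).2)) ^ 2) / p := by
          rw [sum_div]
          refine sum_congr rfl fun τ _ => ?_
          rw [hY]
          ring
        rw [e, div_le_iff₀ hpos]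
        exact h2)
    have e1 : ∑ τ : ι → Bool × Ω, GQ w a κ θ q τ / p * J (Y τ) V =
        (∑ τ : ι → Bool × Ω, GQ w a κ θ q τ * J (Y τ) V) / p := by
      rw [sum_div]
      exact sum_congr rfl fun τ _ => by ring
    have e2 : ∑ τ : ι → Bool × Ω, GQ w a κ θ q τ / p * ‖Y τ‖ ^ 2 =
        (∑ τ : ι → Bool × Ω, GQ w a κ θ q τ * ‖Y τ‖ ^ 2) / p := by
      rw [sum_div]
      exact sum_congr rfl fun τ _ => by ring
    rw [e1, e2, abs_div, abs_of_pos hpos, div_le_iff₀ hpos] at h1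
    refine h1.trans (le_of_eq ?_)
    obtain ⟨S, hS⟩ : ∃ S : ℝ, S = ∑ τ : ι → Bool × Ω, GQ w a κ θ q τ * ‖Y τ‖ ^ 2 := ⟨_, rfl⟩
    rw [← hS]
    have hS0 : 0 ≤ S := by
      rw [hS]
      exact sum_nonneg fun τ _ => mul_nonneg (GQ_nonneg hw ha θ q τ) (sq_nonneg _)
    have e3 : Real.sqrt (S / p) * p = Real.sqrt p * Real.sqrt S := by
      rw [Real.sqrt_div' _ hp0]
      have h2 : Real.sqrt p ≠ 0 := (Real.sqrt_pos.2 hpos).ne'
      have h3 : Real.sqrt p * Real.sqrt p = p := Real.mul_self_sqrt hp0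
      rw [div_mul_eq_mul_div, div_eq_iff h2]
      linear_combination (-Real.sqrt S) * h3
    linear_combination ‖V‖ * D * e3

end

/-- balanced laws with `CIa` -/
lemma bal2 {E : Type} [NormedAddCommGroup E] [NormedSpace ℝ E] {J : E → StrongDual ℝ E} {D b : ℝ}
    (hD : 0 ≤ D) (hb : 0 ≤ b) (hCI : CIa E J D b)
    {ι Ω Q : Type} [Fintype ι] [DecidableEq ι] [Fintype Ω] [Fintype Q] [DecidableEq Q]
    (w : Ω → ℝ) (u : ι → Ω → E) (κ : Ω → Q) (a : Ω → ℝ) (v : ι → Q → E) (σ : ℝ)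
    (hw : ∀ ω, 0 ≤ w ω) (hw1 : ∑ ω, w ω = 1) (ha : ∀ ω, |a ω| ≤ 1)
    (hbal : ∀ (j : ι) (q : Q), ∑ ω, (if κ ω = q then (w ω * a ω) • u j ω else 0) = 0)
    (hσ : 0 ≤ σ)
    (hg : ∀ g : StrongDual ℝ E, ‖g‖ ≤ 1 → ∀ ω : ι → Ω, ∑ j, (g (u j (ω j))) ^ 2 ≤ σ ^ 2) :
    |ex w (fun ω : ι → Ω => av (fun s : ι → Bool => ∑ j, sg (s j) * a (ω j) *
        J (sm s fun i => u i (ω i)) (v j (κ (ω j)))))| ≤
      Real.sqrt (ex w fun ω : ι → Ω => av fun θ : ι → Bool => ‖sm θ fun j => v j (κ (ω j))‖ ^ 2) *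
        (D * Real.sqrt (ex w fun ω : ι → Ω => av fun s : ι → Bool => ‖sm s fun j => u j (ω j)‖ ^ 2)
          + b * σ) := by
  obtain ⟨Y, hY⟩ : ∃ Y : (ι → Bool × Ω) → E,
    Y = fun τ => sm (fun j => (τ j).1) fun j => u j (τ j).2 := ⟨_, rfl⟩
  obtain ⟨V, hV⟩ : ∃ V : (ι → Bool) → (ι → Q) → E, V = fun θ q => sm θ fun j => v j (q j) :=
    ⟨_, rfl⟩
  -- the left side
  have hL : ex w (fun ω : ι → Ω => av (fun s : ι → Bool => ∑ j, sg (s j) * a (ω j) *
        J (sm s fun i => u i (ω i)) (v j (κ (ω j))))) =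
      ∑ p : (ι → Bool) × (ι → Q), ∑ τ : ι → Bool × Ω, GQ w a κ p.1 p.2 τ * J (Y τ) (V p.1 p.2) := by
    rw [exav w (fun s ω => ∑ j, sg (s j) * a (ω j) * J (sm s fun i => u i (ω i)) (v j (κ (ω j)))),
      Fintype.sum_prod_type]
    have e1 : ∀ θ : ι → Bool, ∑ q : ι → Q, ∑ τ : ι → Bool × Ω,
        GQ w a κ θ q τ * J (Y τ) (V θ q) =
        ∑ τ : ι → Bool × Ω, GG w a θ τ * J (Y τ) (V θ fun j => κ (τ j).2) := by
      intro θ
      rw [sum_comm]
      exact sum_congr rfl fun τ _ => sum_GQ θ τ (fun q => J (Y τ) (V θ q))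
    simp only [e1]
    rw [sum_comm]
    refine sum_congr rfl fun τ _ => ?_
    have e2 : ∀ θ : ι → Bool, GG w a θ τ * J (Y τ) (V θ fun j => κ (τ j).2) =
        ∑ j, GG w a θ τ * sg (θ j) * J (Y τ) (v j (κ (τ j).2)) := by
      intro θ
      rw [hV]
      simp only [sm]
      rw [map_sum, mul_sum]
      refine sum_congr rfl fun j _ => ?_
      rw [map_smul, smul_eq_mul]
      ring
    simp only [e2]
    rw [sum_comm, mul_sum]
    refine sum_congr rfl fun j _ => ?_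
    rw [← sum_mul, sum_GG_sg, hY]
    ring
  -- the second moments
  have hVV : ∑ p : (ι → Bool) × (ι → Q), (∑ τ : ι → Bool × Ω, GQ w a κ p.1 p.2 τ) *
      ‖V p.1 p.2‖ ^ 2 = ex w fun ω : ι → Ω => av fun θ : ι → Bool =>
          ‖sm θ fun j => v j (κ (ω j))‖ ^ 2 := by
    rw [← sum_GG_av (a := a) (fun θ ω => ‖sm θ fun j => v j (κ (ω j))‖ ^ 2), Fintype.sum_prod_type]
    refine sum_congr rfl fun θ _ => ?_
    simp only [sum_mul]
    rw [sum_comm]
    refine sum_congr rfl fun τ _ => ?_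
    rw [sum_GQ θ τ (fun q => ‖V θ q‖ ^ 2), hV]
  have hpp : ∑ p : (ι → Bool) × (ι → Q), (∑ τ : ι → Bool × Ω, GQ w a κ p.1 p.2 τ) = 1 := by
    have h1 := sum_GG_av (ι := ι) (w := w) (a := a) (fun _ _ => (1 : ℝ))
    have h2 : ex w (fun _ : ι → Ω => av (fun _ : ι → Bool => (1 : ℝ))) = 1 := by
      unfold ex av
      simp only [sum_const, card_univ, mul_one, nsmul_eq_mul, Fintype.card_fun, Fintype.card_bool,
        Nat.cast_pow, Nat.cast_ofNat]
      rw [div_self (by positivity)]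
      simp only [mul_one]
      rw [sum_prod (fun _ ω => w ω)]
      simp only [hw1, prod_const_one]
    rw [h2] at h1
    rw [← h1, Fintype.sum_prod_type]
    refine sum_congr rfl fun θ _ => ?_
    rw [sum_comm]
    refine sum_congr rfl fun τ _ => ?_
    have h3 := sum_GQ (w := w) (a := a) (κ := κ) θ τ (fun _ => (1 : ℝ))
    simp only [mul_one] at h3 ⊢
    exact h3
  have hYY : ∑ p : (ι → Bool) × (ι → Q), (∑ τ : ι → Bool × Ω, GQ w a κ p.1 p.2 τ *
      ‖Y τ‖ ^ 2) = ex w fun ω : ι → Ω => av fun s : ι → Bool =>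
          ‖sm s fun j => u j (ω j)‖ ^ 2 := by
    rw [exav w (fun s ω => ‖sm s fun j => u j (ω j)‖ ^ 2), Fintype.sum_prod_type]
    have e1 : ∀ θ : ι → Bool, ∑ q : ι → Q, ∑ τ : ι → Bool × Ω, GQ w a κ θ q τ * ‖Y τ‖ ^ 2 =
        ∑ τ : ι → Bool × Ω, GG w a θ τ * ‖Y τ‖ ^ 2 := by
      intro θ
      rw [sum_comm]
      exact sum_congr rfl fun τ _ => sum_GQ θ τ (fun _ => ‖Y τ‖ ^ 2)
    simp only [e1]
    rw [sum_comm]
    refine sum_congr rfl fun τ _ => ?_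
    rw [← sum_mul, sum_GG, hY]
  -- sum over the classes
  rw [hL]
  refine (abs_sum_le_sum_abs _ _).trans ?_
  refine (sum_le_sum fun p _ => one_class hD hb hCI hbal hw ha hσ hg p.1 p.2 (V p.1 p.2) Y
    hY).trans ?_
  rw [← hVV, ← hYY]
  obtain ⟨P, hP⟩ : ∃ P : (ι → Bool) × (ι → Q) → ℝ,
    P = fun p => ∑ τ : ι → Bool × Ω, GQ w a κ p.1 p.2 τ := ⟨_, rfl⟩
  obtain ⟨S, hS⟩ : ∃ S : (ι → Bool) × (ι → Q) → ℝ,
    S = fun p => ∑ τ : ι → Bool × Ω, GQ w a κ p.1 p.2 τ * ‖Y τ‖ ^ 2 := ⟨_, rfl⟩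
  have hP' : ∀ p : (ι → Bool) × (ι → Q), ∑ τ : ι → Bool × Ω, GQ w a κ p.1 p.2 τ = P p :=
    fun p => by rw [hP]
  have hS' : ∀ p : (ι → Bool) × (ι → Q), ∑ τ : ι → Bool × Ω, GQ w a κ p.1 p.2 τ * ‖Y τ‖ ^ 2 =
    S p := fun p => by rw [hS]
  simp only [hP', hS'] at hpp ⊢
  have hP0 : ∀ p, 0 ≤ P p := fun p => by
    rw [hP]; exact sum_nonneg fun τ _ => GQ_nonneg hw ha _ _ τ
  have hS0 : ∀ p, 0 ≤ S p := fun p => by
    rw [hS]; exact sum_nonneg fun τ _ => mul_nonneg (GQ_nonneg hw ha _ _ τ) (sq_nonneg _)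
  have e1 : ∀ p : (ι → Bool) × (ι → Q), ‖V p.1 p.2‖ * (D * (Real.sqrt (P p) *
      Real.sqrt (S p)) + b * σ * P p) =
      D * ((‖V p.1 p.2‖ * Real.sqrt (P p)) * Real.sqrt (S p)) +
      (b * σ) * ((‖V p.1 p.2‖ * Real.sqrt (P p)) * Real.sqrt (P p)) := by
    intro p
    have : Real.sqrt (P p) * Real.sqrt (P p) = P p := Real.mul_self_sqrt (hP0 p)
    linear_combination (-(‖V p.1 p.2‖ * (b * σ))) * this
  simp only [e1]
  rw [sum_add_distrib, ← mul_sum, ← mul_sum]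
  have c1 := Real.sum_mul_le_sqrt_mul_sqrt univ
    (fun p : (ι → Bool) × (ι → Q) => ‖V p.1 p.2‖ * Real.sqrt (P p)) (fun p => Real.sqrt (S p))
  have c2 := Real.sum_mul_le_sqrt_mul_sqrt univ
    (fun p : (ι → Bool) × (ι → Q) => ‖V p.1 p.2‖ * Real.sqrt (P p)) (fun p => Real.sqrt (P p))
  have e2 : ∀ p : (ι → Bool) × (ι → Q), (‖V p.1 p.2‖ * Real.sqrt (P p)) ^ 2 =
      P p * ‖V p.1 p.2‖ ^ 2 := by
    intro p
    rw [mul_pow, Real.sq_sqrt (hP0 p)]
    ring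
  simp only [e2, Real.sq_sqrt (hS0 _), Real.sq_sqrt (hP0 _)] at c1 c2
  rw [hpp, Real.sqrt_one, mul_one] at c2
  have d1 := mul_le_mul_of_nonneg_left c1 hD
  have d2 := mul_le_mul_of_nonneg_left c2 (mul_nonneg hb hσ)
  linarith


end Pool.Agent.H65.BM.UC2P

namespace Pool.Agent.H65.BM.U

open Pool.Agent.H65.BM Pool.Agent.H65.BM.UC2P

theorem uc2_main : S_UC2 := by
  intro E _ _ J D a hD ha hCI hself hbd ι _ _ k π h d σ R hk hπ hπ2 hh hπh hd hσ hR hg
    hav L LD hL hLD hL2 hLD2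
  have hk' : (0 : ℝ) < k := by positivity
  have hπ1 : 0 < 1 - π := by linarith
  obtain ⟨α, hα⟩ : ∃ α : ℝ, α = π * h / ((1 - π) * k) := ⟨_, rfl⟩
  have hα0 : 0 < α := by rw [hα]; positivity
  have hα1 : α ≤ 1 := by rw [hα]; exact div_le_one_of_le₀ hπh (by positivity)
  have hαe : (1 - π) * α = π * h / k := by rw [hα]; field_simp
  have hw0 := Pool.Agent.H65.BM.U.wt_nonneg (k := k) hπ hπ2
  have hw1 := Pool.Agent.H65.BM.U.wt_sum (k := k) (π := π) hk
  -- abbreviations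
  obtain ⟨Y, hY⟩ : ∃ Y : (ι → (Fin k → Bool) × Option (Fin k)) → (ι → Bool) → E,
    Y = fun ω s => sm s fun j => uv k h (d j) (ω j) := ⟨_, rfl⟩
  obtain ⟨YD, hYD⟩ : ∃ YD : (ι → (Fin k → Bool) × Option (Fin k)) → (ι → Bool) → E,
    YD = fun ω s => sm s fun j => if (ω j).2 = none then 0 else uv k h (d j) (ω j) := ⟨_, rfl⟩
  have hL2' : L ^ 2 = ex (wt k π) (fun ω => av fun s => ‖Y ω s‖ ^ 2) := by rw [hL2, hY]
  have hLD2' : LD ^ 2 = ex (wt k π) (fun ω => av fun s => ‖YD ω s‖ ^ 2) := by rw [hLD2, hYD]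
  -- the estimate for one `i`
  have hone : ∀ i : Fin k, |ex (wt k π) (fun ω : ι → (Fin k → Bool) × Option (Fin k) =>
      av (fun s : ι → Bool => ∑ j, sg (s j) * co α i (ω j) * J (Y ω s) (d j i (ω j).1)))| ≤
      R * (D * L + a * σ) := by
    intro i
    have := bal2 hD ha hCI (Q := Fin k → Bool) (wt k π)
      (fun j => uv k h (d j)) (fun ω => tr i ω.1) (co α i) (fun j q => d j i q) σ hw0 hw1
      (by
        intro ω
        unfold co
        split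
        · rw [abs_mul, abs_sg, mul_one, abs_of_pos hα0]; exact hα1
        · split
          · simp
          · simp)
      (fun j q => balance (hd j) hk hαe i q) hσ hg
    have ed : ∀ (ω : ι → (Fin k → Bool) × Option (Fin k)) (j : ι),
        d j i (tr i (ω j).1) = d j i (ω j).1 := by
      intro ω j
      apply hd j
      intro l hl
      simp [tr, hl]
    simp only [ed] at this
    rw [hY]
    refine this.trans ?_
    have e1 : Real.sqrt (ex (wt k π) fun ω : ι → (Fin k → Bool) × Option (Fin k) =>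
        av fun s : ι → Bool => ‖sm s fun j => uv k h (d j) (ω j)‖ ^ 2) = L := by
      rw [← hL2, Real.sqrt_sq hL]
    have e2 : Real.sqrt (ex (wt k π) fun ω : ι → (Fin k → Bool) × Option (Fin k) =>
        av fun θ : ι → Bool => ‖sm θ fun j => d j i (ω j).1‖ ^ 2) ≤ R := by
      rw [← Real.sqrt_sq hR]
      apply Real.sqrt_le_sqrt
      rw [← ex_const (ι := ι) hw1 (R ^ 2)]
      exact ex_mono hw0 fun ω => hav i fun j => (ω j).1
    rw [e1]
    exact mul_le_mul_of_nonneg_right e2 (by positivity)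
  -- the pointwise identity
  have hpt : ∀ (ω : ι → (Fin k → Bool) × Option (Fin k)) (s : ι → Bool),
      ∑ i : Fin k, ∑ j, sg (s j) * co α i (ω j) * J (Y ω s) (d j i (ω j).1) =
        2 * α * ‖Y ω s‖ ^ 2 + (-(α + 1 / h)) * J (Y ω s) (YD ω s) := by
    intro ω s
    rw [Finset.sum_comm]
    have e1 : ∀ j, ∑ i : Fin k, sg (s j) * co α i (ω j) * J (Y ω s) (d j i (ω j).1) =
        J (Y ω s) (sg (s j) • ∑ i, co α i (ω j) • d j i (ω j).1) := by
      intro j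
      rw [map_smul, map_sum, smul_eq_mul, Finset.mul_sum]
      refine Finset.sum_congr rfl fun i _ => ?_
      rw [map_smul, smul_eq_mul, mul_assoc]
    rw [Finset.sum_congr rfl fun j _ => e1 j, ← map_sum]
    have e2 : ∑ j, sg (s j) • ∑ i, co α i (ω j) • d j i (ω j).1 =
        α • Y ω s - (α + 1 / h) • YD ω s := by
      rw [hY, hYD]
      simp only [sm, Finset.smul_sum, ← Finset.sum_sub_distrib]
      refine Finset.sum_congr rfl fun j _ => ?_
      rw [← Finset.smul_sum, dirs (d j) hh (ω j)]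
      module
    rw [e2, map_sub, map_smul, map_smul, hself, smul_eq_mul, smul_eq_mul]
    ring
  -- sum over `i`
  obtain ⟨G, hG⟩ : ∃ G : ℝ, G = ex (wt k π) (fun ω => av fun s => J (Y ω s) (YD ω s)) := ⟨_, rfl⟩
  have hsum : |2 * α * L ^ 2 + (-(α + 1 / h)) * G| ≤ k * (R * (D * L + a * σ)) := by
    have e : 2 * α * L ^ 2 + (-(α + 1 / h)) * G = ∑ i : Fin k, ex (wt k π)
        (fun ω : ι → (Fin k → Bool) × Option (Fin k) =>
        av (fun s : ι → Bool => ∑ j, sg (s j) * co α i (ω j) * J (Y ω s) (d j i (ω j).1))) := by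
      rw [← ex_sum]
      simp only [← av_sum, hpt]
      simp only [av_add, av_mul, ex_add, ex_mul]
      rw [← hL2', ← hG]
    rw [e]
    refine (Finset.abs_sum_le_sum_abs _ _).trans ?_
    refine (Finset.sum_le_sum fun i _ => hone i).trans ?_
    simp
  -- Cauchy-Schwarz
  have hGb : |G| ≤ 2 * L * LD := by
    have h1 : G ^ 2 ≤ ex (wt k π) (fun ω => av fun s => 2 ^ 2 * ‖Y ω s‖ ^ 2) *
        ex (wt k π) (fun ω => av fun s => ‖YD ω s‖ ^ 2) := by
      rw [hG]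
      apply cs hw0
      · intro ω s; positivity
      · intro ω s; positivity
      · intro ω s
        have := hbd (Y ω s) (YD ω s)
        rw [← sq_abs]
        calc |J (Y ω s) (YD ω s)| ^ 2 ≤ (2 * ‖Y ω s‖ * ‖YD ω s‖) ^ 2 :=
              pow_le_pow_left₀ (abs_nonneg _) this 2
          _ = _ := by ring
    rw [← hLD2'] at h1
    simp only [av_mul, ex_mul] at h1
    rw [← hL2'] at h1
    have h2 : |G| ^ 2 ≤ (2 * L * LD) ^ 2 := by rw [sq_abs]; nlinarith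
    exact le_of_sq_le_sq h2 (by positivity)
  -- the end
  obtain ⟨Z, hZ⟩ : ∃ Z : ℝ, Z = R * (D * L + a * σ) := ⟨_, rfl⟩
  rw [← hZ] at hsum
  have hZ0 : 0 ≤ Z := by
    rw [hZ]
    positivity
  have h1 : 2 * α * L ^ 2 ≤ (α + 1 / h) * (2 * L * LD) + k * Z := by
    have h2 := (abs_le.1 hsum).2
    have h3 := (abs_le.1 hGb).2
    have h4 : (α + 1 / h) * G ≤ (α + 1 / h) * (2 * L * LD) :=
      mul_le_mul_of_nonneg_left h3 (by positivity)
    linarith
  have h2 : L ^ 2 ≤ (1 + 1 / (α * h)) * L * LD + k * Z / (2 * α) := by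
    have : L ^ 2 = (2 * α * L ^ 2) / (2 * α) := by field_simp
    rw [this]
    calc _ ≤ ((α + 1 / h) * (2 * L * LD) + k * Z) / (2 * α) :=
          div_le_div_of_nonneg_right h1 (by positivity)
      _ = _ := by field_simp
  have h3 : 1 / (α * h) ≤ k / (π * h ^ 2) := by
    rw [hα]
    rw [div_le_div_iff₀ (by positivity) (by positivity)]
    have : k * (π * h / ((1 - π) * k) * h) = π * h ^ 2 / (1 - π) := by field_simp
    rw [this, one_mul, le_div_iff₀ hπ1]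
    nlinarith [mul_pos hπ (pow_pos hh 2)]
  have h4 : k * Z / (2 * α) ≤ (k : ℝ) ^ 2 / (π * h) * R * (D * L + a * σ) := by
    have : (k : ℝ) ^ 2 / (π * h) * R * (D * L + a * σ) = (k : ℝ) ^ 2 / (π * h) * Z := by
      rw [hZ]; ring
    rw [this, hα]
    have e : k * Z / (2 * (π * h / ((1 - π) * k))) = ((k : ℝ) ^ 2 / (π * h) * Z) * ((1 - π) / 2) := by
      field_simp
    rw [e]
    have : 0 ≤ (k : ℝ) ^ 2 / (π * h) * Z := by positivity
    nlinarith
  have h5 : (1 + 1 / (α * h)) * L * LD ≤ (1 + k / (π * h ^ 2)) * L * LD := by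
    apply mul_le_mul_of_nonneg_right _ hLD
    apply mul_le_mul_of_nonneg_right _ hL
    linarith
  linarith


end Pool.Agent.H65.BM.U

namespace Pool.Agent.H65.BM

/-- **UC2** -/
theorem uc2 : S_UC2 := U.uc2_main

end Pool.Agent.H65.BM
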