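import Pool.Agent.H65.BM.S2

/-! BM2-USZ. -/

set_option autoImplicit false

namespace Pool.Agent.H65.BM

open Pool.Agent.N314.OP Pool.Agent.N314.OP.Mod

theorem usz : S_USZ := by
  intro E _ _ _ hAT hF ε hε
  obtain ⟨x₀, δ, hx₀, hδ, H⟩ := hF ε hε
  have hN : 0 < ‖x₀‖ := norm_pos_iff.2 hx₀
  refine ⟨δ / (4 * ‖x₀‖), by positivity, ?_⟩
  intro x w hx hw
  have hu : ‖‖x₀‖⁻¹ • x₀‖ = 1 := by
    rw [norm_smul, norm_inv, norm_norm, inv_mul_cancel₀ hN.ne']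
  obtain ⟨T, hT⟩ := hAT (‖x₀‖⁻¹ • x₀) x hu hx (δ / (4 * ‖x₀‖)) (by positivity)
  have hx₀' : x₀ = ‖x₀‖ • T.symm (T (‖x₀‖⁻¹ • x₀)) := by
    rw [T.symm_apply_apply, smul_inv_smul₀ hN.ne']
  have near : ∀ v : E, ‖v‖ ≤ δ / (4 * ‖x₀‖) → ‖‖x₀‖ • T.symm (x + v) - x₀‖ < δ := by
    intro v hv
    have e : ‖x₀‖ • T.symm (x + v) - x₀ =
        ‖x₀‖ • T.symm ((x + v) - T (‖x₀‖⁻¹ • x₀)) := by
      conv_lhs => rw [hx₀']
      rw [map_sub, smul_sub]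
      congr 1
      rw [← hx₀']
    rw [e, norm_smul, norm_norm, T.symm.norm_map]
    have h1 : (x + v) - T (‖x₀‖⁻¹ • x₀) = v - (T (‖x₀‖⁻¹ • x₀) - x) := by abel
    have h2 : ‖(x + v) - T (‖x₀‖⁻¹ • x₀)‖ < δ / (4 * ‖x₀‖) + δ / (4 * ‖x₀‖) := by
      rw [h1]
      exact (norm_sub_le _ _).trans_lt (by linarith)
    calc ‖x₀‖ * ‖(x + v) - T (‖x₀‖⁻¹ • x₀)‖
        < ‖x₀‖ * (δ / (4 * ‖x₀‖) + δ / (4 * ‖x₀‖)) := mul_lt_mul_of_pos_left h2 hN
      _ = δ / 2 := by field_simp; ring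
      _ < δ := by linarith
  have hy := near w hw
  have hz := near (-w) (by rw [norm_neg]; exact hw)
  obtain ⟨f, hf1, hf2⟩ := exists_dual_vector' ℝ (‖x₀‖ • T.symm (x + w))
  obtain ⟨g, hg1, hg2⟩ := exists_dual_vector' ℝ (‖x₀‖ • T.symm (x + -w))
  have hfg := H _ _ hy hz f g hf1 hg1 (by simpa using hf2) (by simpa using hg2)
  have e1 : f (‖x₀‖ • T.symm (x + w)) = ‖x₀‖ * ‖x + w‖ := by
    rw [hf2, norm_smul, norm_norm, T.symm.norm_map]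
    simp
  have e2 : g (‖x₀‖ • T.symm (x + -w)) = ‖x₀‖ * ‖x - w‖ := by
    rw [hg2, norm_smul, norm_norm, T.symm.norm_map, ← sub_eq_add_neg]
    simp
  rw [map_smul, smul_eq_mul] at e1 e2
  have e3 := mul_left_cancel₀ hN.ne' e1
  have e4 := mul_left_cancel₀ hN.ne' e2
  rw [map_add, map_add] at e3
  rw [map_add, map_add, map_neg, map_neg] at e4
  have h5 : f (T.symm x) ≤ 1 := by
    have := f.le_opNorm (T.symm x)
    rw [hf1, T.symm.norm_map, hx, one_mul] at this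
    exact (Real.le_norm_self _).trans this
  have h6 : g (T.symm x) ≤ 1 := by
    have := g.le_opNorm (T.symm x)
    rw [hg1, T.symm.norm_map, hx, one_mul] at this
    exact (Real.le_norm_self _).trans this
  have h7 : f (T.symm w) - g (T.symm w) ≤ ε * ‖w‖ := by
    have h8 := (f - g).le_opNorm (T.symm w)
    rw [T.symm.norm_map] at h8
    have h9 : (f - g) (T.symm w) ≤ ‖f - g‖ * ‖w‖ := (Real.le_norm_self _).trans h8
    have h10 : ‖f - g‖ * ‖w‖ ≤ ε * ‖w‖ := mul_le_mul_of_nonneg_right hfg (norm_nonneg _)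
    have h11 : (f - g) (T.symm w) = f (T.symm w) - g (T.symm w) := rfl
    linarith
  linarith

end Pool.Agent.H65.BM
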