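import Pool.Agent.H65.BM.S

/-! BM-WALK. -/

set_option autoImplicit false

namespace Pool.Agent.H65.BM

open Pool.Agent.N314.OP Pool.Agent.N314.OP.Mod

namespace WalkAux

variable {E : Type} [NormedAddCommGroup E] [NormedSpace ℝ E]

theorem sg_abs (b : Bool) : |sg b| = 1 := by cases b <;> simp [sg]

/-- the walk driven by the signs `b` -/
noncomputable def Y (A : E → E ≃ₗᵢ[ℝ] E) (x w : E) (b : ℕ → Bool) : ℕ → E
  | 0 => x
  | n + 1 => Y A x w b n + sg (b n) • (‖Y A x w b n‖ • A (Y A x w b n) w)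

theorem Y_congr (A : E → E ≃ₗᵢ[ℝ] E) (x w : E) (b b' : ℕ → Bool) (n : ℕ) (h : ∀ l < n, b l = b' l) :
    Y A x w b n = Y A x w b' n := by
  induction n with
  | zero => rfl
  | succ n ih =>
    have := ih (fun l hl => h l (by omega))
    simp only [Y]
    rw [this, h n (by omega)]

theorem Y_sum (A : E → E ≃ₗᵢ[ℝ] E) (x w : E) (b : ℕ → Bool) (n : ℕ) :
    ∑ i ∈ Finset.range n, sg (b i) • (‖Y A x w b i‖ • A (Y A x w b i) w) = Y A x w b n - x := by
  induction n with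
  | zero => simp [Y]
  | succ n ih => rw [Finset.sum_range_succ, ih]; simp only [Y]; abel

theorem step {x w y : E} {T : E ≃ₗᵢ[ℝ] E} {κ s : ℝ} (hs : |s| = 1) (hy : y ≠ 0)
    (hT : ‖T x - ‖y‖⁻¹ • y‖ ≤ κ / 4) (h1 : ‖x + w‖ = 1 + κ) (h2 : ‖x - w‖ = 1 + κ) :
    (1 + 3 / 4 * κ) * ‖y‖ ≤ ‖y + s • (‖y‖ • T w)‖ ∧ ‖y + s • (‖y‖ • T w)‖ ≤ (1 + 5 / 4 * κ) * ‖y‖ := by
  have hy0 : 0 < ‖y‖ := norm_pos_iff.2 hy
  have e0 : ‖T x + s • T w‖ = 1 + κ := by
    rw [← map_smul, ← map_add, T.norm_map]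
    rcases eq_or_eq_neg_of_abs_eq hs with h | h
    · rw [h, one_smul, h1]
    · rw [h, neg_one_smul, ← sub_eq_add_neg, h2]
  have e1 : y + s • (‖y‖ • T w) = ‖y‖ • (‖y‖⁻¹ • y + s • T w) := by
    rw [smul_add, smul_inv_smul₀ hy0.ne', smul_comm s]
  have e2 : ‖y + s • (‖y‖ • T w)‖ = ‖y‖ * ‖‖y‖⁻¹ • y + s • T w‖ := by
    rw [e1, norm_smul, norm_norm]
  have e3 : |‖T x + s • T w‖ - ‖‖y‖⁻¹ • y + s • T w‖| ≤ κ / 4 := by
    refine (abs_norm_sub_norm_le _ _).trans ?_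
    rw [add_sub_add_right_eq_sub]
    exact hT
  rw [e0, abs_le] at e3
  rw [e2, mul_comm _ ‖y‖, mul_comm _ ‖y‖]
  constructor
  · exact mul_le_mul_of_nonneg_left (by linarith) hy0.le
  · exact mul_le_mul_of_nonneg_left (by linarith) hy0.le

end WalkAux

open WalkAux in
theorem walk : S_WALK := by
  intro E _ _ hAT x w t κ ht ht1 hx hw hκ h1 h2
  have hκt : κ ≤ 2 * t := by
    have := norm_add_le x w
    linarith
  have hA : ∀ y : E, ∃ T : E ≃ₗᵢ[ℝ] E, y ≠ 0 → ‖T x - ‖y‖⁻¹ • y‖ ≤ κ / 4 := by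
    intro y
    by_cases hy : y = 0
    · exact ⟨LinearIsometryEquiv.refl ℝ E, fun h => absurd hy h⟩
    · have hy0 : 0 < ‖y‖ := norm_pos_iff.2 hy
      have hn : ‖‖y‖⁻¹ • y‖ = 1 := by
        rw [norm_smul, norm_inv, norm_norm, inv_mul_cancel₀ hy0.ne']
      obtain ⟨S, hS⟩ := hAT x _ hx hn (κ / 4) (by positivity)
      exact ⟨S, fun _ => hS.le⟩
  choose A hA using hA
  have key : ∀ (b : ℕ → Bool) (n : ℕ), Y A x w b n ≠ 0 ∧ (1 + 3 / 4 * κ) ^ n ≤ ‖Y A x w b n‖ ∧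
      ‖Y A x w b n‖ ≤ (1 + 5 / 4 * κ) ^ n := by
    intro b n
    induction n with
    | zero =>
      refine ⟨?_, ?_, ?_⟩
      · simp only [Y]; intro h; rw [h, norm_zero] at hx; norm_num at hx
      · simp [Y, hx]
      · simp [Y, hx]
    | succ n ih =>
      obtain ⟨i1, i2, i3⟩ := ih
      obtain ⟨s1, s2⟩ := step (s := sg (b n)) (sg_abs _) i1 (hA _ i1) h1 h2
      have hp : 0 < (1 + 3 / 4 * κ) ^ (n + 1) := by positivity
      have a1 : (1 + 3 / 4 * κ) ^ (n + 1) ≤ ‖Y A x w b (n + 1)‖ := by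
        refine le_trans ?_ s1
        rw [pow_succ, mul_comm]
        exact mul_le_mul_of_nonneg_left i2 (by positivity)
      refine ⟨?_, a1, ?_⟩
      · exact norm_pos_iff.1 (lt_of_lt_of_le hp a1)
      · refine le_trans s2 ?_
        rw [pow_succ, mul_comm]
        exact mul_le_mul_of_nonneg_right i3 (by positivity)
  set k := ⌈4 / (3 * κ)⌉₊ with hk
  have hkpos : 0 < 4 / (3 * κ) := by positivity
  have hk1 : 4 / (3 * κ) ≤ k := Nat.le_ceil _
  have hk2 : (k : ℝ) < 4 / (3 * κ) + 1 := Nat.ceil_lt_add_one hkpos.le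
  have hk0 : 1 ≤ k := Nat.one_le_ceil_iff.2 hkpos
  have hkκ1 : 4 / 3 ≤ k * κ := by
    rw [div_le_iff₀ (by positivity)] at hk1
    linarith
  have hkκ2 : k * κ ≤ 4 / 3 + κ := by
    have : (k : ℝ) * κ ≤ (4 / (3 * κ) + 1) * κ := mul_le_mul_of_nonneg_right hk2.le hκ.le
    have e : (4 / (3 * κ) + 1) * κ = 4 / 3 + κ := by field_simp
    linarith
  have hup : ∀ (b : ℕ → Bool) (n : ℕ), n ≤ k → ‖Y A x w b n‖ ≤ 10 := by
    intro b n hn
    refine (key b n).2.2.trans ?_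
    have h3 : (1 + 5 / 4 * κ) ^ n ≤ (1 + 5 / 4 * κ) ^ k := pow_le_pow_right₀ (by linarith) hn
    have h4 : (1 + 5 / 4 * κ) ^ k ≤ Real.exp 2 := by
      have h5 : 1 + 5 / 4 * κ ≤ Real.exp (5 / 4 * κ) := by
        have := Real.add_one_le_exp (5 / 4 * κ); linarith
      have h6 : (1 + 5 / 4 * κ) ^ k ≤ Real.exp (5 / 4 * κ) ^ k := pow_le_pow_left₀ (by positivity) h5 k
      rw [← Real.exp_nat_mul] at h6
      refine h6.trans (Real.exp_le_exp.2 ?_)
      nlinarith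
    have h7 : Real.exp 2 ≤ 10 := by
      have h8 : Real.exp 2 = Real.exp 1 * Real.exp 1 := by rw [← Real.exp_add]; norm_num
      have h9 := Real.exp_one_lt_d9
      have h10 := Real.exp_pos 1
      rw [h8]
      norm_num at h9
      nlinarith
    linarith
  -- extension of the signs
  set bb : (Fin k → Bool) → ℕ → Bool := fun ε n => if h : n < k then ε ⟨n, h⟩ else false with hbb
  have hbf : ∀ (ε : Fin k → Bool) (i : Fin k), bb ε i = ε i := by
    intro ε i; simp [hbb]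
  have hsum : ∀ ε : Fin k → Bool,
      ∑ i : Fin k, sg (ε i) • (‖Y A x w (bb ε) i‖ • A (Y A x w (bb ε) i) w) = Y A x w (bb ε) k - x := by
    intro ε
    rw [← Y_sum, ← Fin.sum_univ_eq_sum_range
      (fun n => sg (bb ε n) • (‖Y A x w (bb ε) n‖ • A (Y A x w (bb ε) n) w)) k]
    refine Finset.sum_congr rfl fun i _ => ?_
    rw [hbf]
  refine ⟨k, fun i ε => ‖Y A x w (bb ε) i‖ • A (Y A x w (bb ε) i) w, hk0, by linarith, ?_, ?_, ?_, ?_⟩
  · intro i ε ε' hεε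
    have : Y A x w (bb ε) i = Y A x w (bb ε') i := by
      apply Y_congr
      intro l hl
      have hlk : l < k := hl.trans i.2
      simp only [hbb, hlk, dif_pos]
      exact hεε ⟨l, hlk⟩ hl
    simp only [this]
  · intro i ε
    rw [norm_smul, norm_norm, LinearIsometryEquiv.norm_map]
    have := hup (bb ε) i i.2.le
    have h3 : ‖Y A x w (bb ε) i‖ * ‖w‖ ≤ 10 * (2 * t) := mul_le_mul this hw (norm_nonneg _) (by norm_num)
    linarith
  · intro ε
    rw [hsum]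
    have h3 := (key (bb ε) k).2.1
    have h4 : 1 + (k : ℝ) * (3 / 4 * κ) ≤ (1 + 3 / 4 * κ) ^ k := one_add_mul_le_pow (by linarith) k
    have h5 := norm_sub_norm_le (Y A x w (bb ε) k) x
    nlinarith
  · intro ε
    rw [hsum]
    have h3 := hup (bb ε) k le_rfl
    have h5 := norm_sub_le (Y A x w (bb ε) k) x
    linarith

end Pool.Agent.H65.BM
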