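import Pool.Agent.H65.BM.S2
import Pool.Agent.H65.BM.WALK

/-! BM2-WKN. -/

set_option autoImplicit false

namespace Pool.Agent.H65.BM

open Pool.Agent.N314.OP Pool.Agent.N314.OP.Mod

open WalkAux in
theorem wkn : S_WKN := by
  intro E _ _ hAT x w t κ k ht hx hw hκ hkκ h1 h2
  have hA : ∀ y : E, ∃ T : E ≃ₗᵢ[ℝ] E, y ≠ 0 → ‖T x - ‖y‖⁻¹ • y‖ ≤ κ / 4 := by
    intro y
    by_cases hy : y = 0
    · exact ⟨LinearIsometryEquiv.refl ℝ E, fun h => absurd hy h⟩
    · have hy0 : 0 < ‖y‖ := norm_pos_iff.2 hy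
      have hn : ‖‖y‖⁻¹ • y‖ = 1 := by
        rw [norm_smul, norm_inv, norm_norm, inv_mul_cancel₀ hy0.ne']
      obtain ⟨S, hS⟩ := hAT x _ hx hn (κ / 4) (by positivity)
      exact ⟨S, fun _ => hS.le⟩
  choose A hA using hA
  have key : ∀ (b : ℕ → Bool) (n : ℕ), Y A x w b n ≠ 0 ∧ (1 + 3 / 4 * κ) ^ n ≤ ‖Y A x w b n‖ ∧
      ‖Y A x w b n‖ ≤ (1 + 5 / 4 * κ) ^ n := by
    intro b n
    induction n with
    | zero =>
      refine ⟨?_, ?_, ?_⟩
      · simp only [Y]; intro h; rw [h, norm_zero] at hx; norm_num at hx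
      · simp [Y, hx]
      · simp [Y, hx]
    | succ n ih =>
      obtain ⟨i1, i2, i3⟩ := ih
      obtain ⟨s1, s2⟩ := step (s := sg (b n)) (sg_abs _) i1 (hA _ i1) h1 h2
      have hp : 0 < (1 + 3 / 4 * κ) ^ (n + 1) := by positivity
      have a1 : (1 + 3 / 4 * κ) ^ (n + 1) ≤ ‖Y A x w b (n + 1)‖ := by
        refine le_trans ?_ s1
        rw [pow_succ, mul_comm]
        exact mul_le_mul_of_nonneg_left i2 (by positivity)
      refine ⟨?_, a1, ?_⟩
      · exact norm_pos_iff.1 (lt_of_lt_of_le hp a1)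
      · refine le_trans s2 ?_
        rw [pow_succ, mul_comm]
        exact mul_le_mul_of_nonneg_right i3 (by positivity)
  have hup : ∀ (b : ℕ → Bool) (n : ℕ), n ≤ k → ‖Y A x w b n‖ ≤ 2 := by
    intro b n hn
    refine (key b n).2.2.trans ?_
    have h3 : (1 + 5 / 4 * κ) ^ n ≤ (1 + 5 / 4 * κ) ^ k := pow_le_pow_right₀ (by linarith) hn
    have h4 : (1 + 5 / 4 * κ) ^ k ≤ Real.exp (1 / 2) := by
      have h5 : 1 + 5 / 4 * κ ≤ Real.exp (5 / 4 * κ) := by
        have := Real.add_one_le_exp (5 / 4 * κ); linarith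
      have h6 : (1 + 5 / 4 * κ) ^ k ≤ Real.exp (5 / 4 * κ) ^ k := pow_le_pow_left₀ (by positivity) h5 k
      rw [← Real.exp_nat_mul] at h6
      refine h6.trans (Real.exp_le_exp.2 ?_)
      nlinarith
    have h7 : Real.exp (1 / 2) ≤ 1 / (1 - 1 / 2) :=
      Real.exp_bound_div_one_sub_of_interval (by norm_num) (by norm_num)
    norm_num at h7 h4 ⊢
    linarith
  -- extension of the signs
  set bb : (Fin k → Bool) → ℕ → Bool := fun ε n => if h : n < k then ε ⟨n, h⟩ else false with hbb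
  have hbf : ∀ (ε : Fin k → Bool) (i : Fin k), bb ε i = ε i := by
    intro ε i; simp [hbb]
  have hsum : ∀ ε : Fin k → Bool,
      ∑ i : Fin k, sg (ε i) • (‖Y A x w (bb ε) i‖ • A (Y A x w (bb ε) i) w) = Y A x w (bb ε) k - x := by
    intro ε
    rw [← Y_sum, ← Fin.sum_univ_eq_sum_range
      (fun n => sg (bb ε n) • (‖Y A x w (bb ε) n‖ • A (Y A x w (bb ε) n) w)) k]
    refine Finset.sum_congr rfl fun i _ => ?_
    rw [hbf]
  refine ⟨fun i ε => ‖Y A x w (bb ε) i‖ • A (Y A x w (bb ε) i) w, ?_, ?_, ?_⟩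
  · intro i ε ε' hεε
    have : Y A x w (bb ε) i = Y A x w (bb ε') i := by
      apply Y_congr
      intro l hl
      have hlk : l < k := hl.trans i.2
      simp only [hbb, hlk, dif_pos]
      exact hεε ⟨l, hlk⟩ hl
    simp only [this]
  · intro i ε
    rw [norm_smul, norm_norm, LinearIsometryEquiv.norm_map]
    have := hup (bb ε) i i.2.le
    have h3 : ‖Y A x w (bb ε) i‖ * ‖w‖ ≤ 2 * (2 * t) := mul_le_mul this hw (norm_nonneg _) (by norm_num)
    linarith
  · intro ε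
    rw [hsum, add_sub_cancel]
    have h3 := (key (bb ε) k).2.1
    have h4 : 1 + (k : ℝ) * (3 / 4 * κ) ≤ (1 + 3 / 4 * κ) ^ k := one_add_mul_le_pow (by linarith) k
    linarith

end Pool.Agent.H65.BM
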